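import Pool.Agent.Lib.MP_242159_lc.ADefs
import Pool.Agent.Lib.MP_acf5a6_lc.Backward

/-!
Terms and formulas as encoded types, complex terms, and the real algebra behind membership in ETR.
-/

set_option autoImplicit false

namespace Pool.Agent.Lib.MP_242159_lc.Mem

open Pool.Agent.Lib.MP_acf5a6_lc N487b59b3 Complex

/-- One step of a stack machine that reads codes. -/
def pstep (s : List Term × List Formula) (t : ℕ × ℤ) : List Term × List Formula :=
  match t.1, s.1, s.2 with
  | 0, T, F => (.var t.2.toNat :: T, F)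
  | 1, T, F => (.const t.2 :: T, F)
  | 2, b :: a :: T, F => (.add a b :: T, F)
  | 3, b :: a :: T, F => (.mul a b :: T, F)
  | 4, b :: a :: T, F => (T, .eq a b :: F)
  | 5, b :: a :: T, F => (T, .lt a b :: F)
  | 6, b :: a :: T, F => (T, .le a b :: F)
  | 7, T, a :: F => (T, .not a :: F)
  | 8, T, b :: a :: F => (T, .and a b :: F)
  | 9, T, b :: a :: F => (T, .or a b :: F)
  | _, T, F => (T, F)

theorem pstep_term (t : Term) : ∀ (T : List Term) (F : List Formula),
    (termCode t).foldl pstep (T, F) = (t :: T, F) := by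
  induction t with
  | var k => intro T F; simp [termCode, pstep]
  | const c => intro T F; simp [termCode, pstep]
  | add s t hs ht => intro T F; simp [termCode, List.foldl_append, hs, ht, pstep]
  | mul s t hs ht => intro T F; simp [termCode, List.foldl_append, hs, ht, pstep]

theorem pstep_formula (φ : Formula) : ∀ (T : List Term) (F : List Formula),
    (formulaCode φ).foldl pstep (T, F) = (T, φ :: F) := by
  induction φ with
  | eq s t => intro T F; simp [formulaCode, List.foldl_append, pstep_term, pstep]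
  | lt s t => intro T F; simp [formulaCode, List.foldl_append, pstep_term, pstep]
  | le s t => intro T F; simp [formulaCode, List.foldl_append, pstep_term, pstep]
  | not φ h => intro T F; simp [formulaCode, List.foldl_append, h, pstep]
  | and φ ψ h h' => intro T F; simp [formulaCode, List.foldl_append, h, h', pstep]
  | or φ ψ h h' => intro T F; simp [formulaCode, List.foldl_append, h, h', pstep]

scoped instance instTerm : N487b59b3 Term :=
  ofLeftInverse termCode (fun l => (l.foldl pstep ([], [])).1.head?) fun t => by simp [pstep_term]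

scoped instance instFormula : N487b59b3 Formula :=
  ofLeftInverse formulaCode (fun l => (l.foldl pstep ([], [])).2.head?) fun t => by
    simp [pstep_formula]

section PTs

variable {α β : Type} [N487b59b3 α] [N487b59b3 β]

@[fun_prop] theorem termCode_PT {f : α → Term} (hf : PT f) : PT (fun a => termCode (f a)) := hf

@[fun_prop] theorem formulaCode_PT {f : α → Formula} (hf : PT f) :
    PT (fun a => formulaCode (f a)) := hf

theorem of_termCode {f : α → Term} (hf : PT (fun a => termCode (f a))) : PT f := hf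

theorem of_formulaCode {f : α → Formula} (hf : PT (fun a => formulaCode (f a))) : PT f := hf

@[fun_prop] theorem var_PT {f : α → ℕ} (hf : PT f) : PT (fun a => Term.var (f a)) :=
  of_termCode (by simp only [termCode]; fun_prop)

@[fun_prop] theorem add_PT {f g : α → Term} (hf : PT f) (hg : PT g) :
    PT (fun a => Term.add (f a) (g a)) := of_termCode (by simp only [termCode]; fun_prop)

@[fun_prop] theorem mul_PT {f g : α → Term} (hf : PT f) (hg : PT g) :
    PT (fun a => Term.mul (f a) (g a)) := of_termCode (by simp only [termCode]; fun_prop)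

@[fun_prop] theorem eq_PT {f g : α → Term} (hf : PT f) (hg : PT g) :
    PT (fun a => Formula.eq (f a) (g a)) := of_formulaCode (by simp only [formulaCode]; fun_prop)

@[fun_prop] theorem lt_PT {f g : α → Term} (hf : PT f) (hg : PT g) :
    PT (fun a => Formula.lt (f a) (g a)) := of_formulaCode (by simp only [formulaCode]; fun_prop)

@[fun_prop] theorem le_PT {f g : α → Term} (hf : PT f) (hg : PT g) :
    PT (fun a => Formula.le (f a) (g a)) := of_formulaCode (by simp only [formulaCode]; fun_prop)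

@[fun_prop] theorem not_PT {f : α → Formula} (hf : PT f) :
    PT (fun a => Formula.not (f a)) := of_formulaCode (by simp only [formulaCode]; fun_prop)

@[fun_prop] theorem and_PT {f g : α → Formula} (hf : PT f) (hg : PT g) :
    PT (fun a => Formula.and (f a) (g a)) := of_formulaCode (by simp only [formulaCode]; fun_prop)

@[fun_prop] theorem or_PT {f g : α → Formula} (hf : PT f) (hg : PT g) :
    PT (fun a => Formula.or (f a) (g a)) := of_formulaCode (by simp only [formulaCode]; fun_prop)

/-- The true formula. -/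
def tru : Formula := .eq (.const 0) (.const 0)

/-- Conjunction of a list. -/
def andL (l : List Formula) : Formula := l.foldl .and tru

theorem holds_tru (v : ℕ → ℝ) : Holds v tru := rfl

theorem holds_andL (v : ℕ → ℝ) (l : List Formula) : Holds v (andL l) ↔ ∀ φ ∈ l, Holds v φ := by
  have : ∀ ψ, Holds v (l.foldl .and ψ) ↔ Holds v ψ ∧ ∀ φ ∈ l, Holds v φ := by
    induction l with
    | nil => simp
    | cons t q ih => intro s; simp [ih, Holds, and_assoc]
  simp [andL, this, holds_tru]

@[fun_prop] theorem andL_PT {f : α → List Formula} (hf : PT f) : PT (fun a => andL (f a)) := by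
  have h : ∀ l : List Formula, formulaCode (andL l) =
      formulaCode tru ++ l.flatMap fun φ => formulaCode φ ++ [(8, 0)] := by
    intro l
    have : ∀ ψ, formulaCode (l.foldl .and ψ) =
        formulaCode ψ ++ l.flatMap fun φ => formulaCode φ ++ [(8, 0)] := by
      induction l with
      | nil => simp
      | cons t q ih => intro s; simp [ih, formulaCode]
    exact this _
  refine of_formulaCode ?_
  simp only [h]
  fun_prop

theorem headD_zipIdx {γ : Type} (l : List γ) (i : ℕ) (d : γ) :
    ((l.zipIdx.filter (fun x => decide (x.2 = i))).map (fun x => x.1)).headD d = l.getD i d := by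
  have key : ∀ (l : List γ) (k i : ℕ), (((l.zipIdx k).filter
      (fun x => decide (x.2 = i + k))).map (fun x => x.1)).headD d = l.getD i d := by
    intro l
    induction l with
    | nil => simp
    | cons a l ih =>
      intro k i
      cases i with
      | zero => simp
      | succ i =>
        have := ih (k + 1) i
        rw [List.zipIdx_cons, List.filter_cons_of_neg (by simp), List.getD_cons_succ, ← this,
          show i + 1 + k = i + (k + 1) by omega]
  exact key l 0 i

@[fun_prop] theorem getD_PT {l : α → List β} {i : α → ℕ} {d : α → β} (hl : PT l) (hi : PT i)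
    (hd : PT d) : PT (fun a => (l a).getD (i a) (d a)) :=
  PT.of_eq (f := fun a => (((l a).zipIdx.filter (fun x => decide (x.2 = i a))).map
    (fun x => x.1)).headD (d a)) (by fun_prop) (fun _ => headD_zipIdx _ _ _)

@[fun_prop] theorem pair_PT {f g : α → ℕ} (hf : PT f) (hg : PT g) :
    PT (fun a => Nat.pair (f a) (g a)) := by
  unfold Nat.pair
  fun_prop

/-- The indices of a list. -/
def idx {γ : Type} (l : List γ) : List ℕ := List.range l.length

@[fun_prop] theorem idx_PT {l : α → List β} (hl : PT l) : PT (fun a => idx (l a)) :=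
  PT.range' (PT.ulen' hl)

@[fun_prop] theorem nb_PT {A : α → List (List ℕ)} {u : α → ℕ} (hA : PT A) (hu : PT u) :
    PT (fun a => nb (A a) (u a)) := by unfold nb; fun_prop

@[fun_prop] theorem nk_PT {A : α → List (List ℕ)} {u k : α → ℕ} (hA : PT A) (hu : PT u)
    (hk : PT k) : PT (fun a => nk (A a) (u a) (k a)) := by unfold nk; fun_prop

/-- Complex terms. -/
abbrev CT : Type := Term × Term

def tneg (s : Term) : Term := .mul (.const (-1)) s
def cadd (a b : CT) : CT := (.add a.1 b.1, .add a.2 b.2)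
def csub (a b : CT) : CT := (.add a.1 (tneg b.1), .add a.2 (tneg b.2))
def cmul (a b : CT) : CT := (.add (.mul a.1 b.1) (tneg (.mul a.2 b.2)),
  .add (.mul a.1 b.2) (.mul a.2 b.1))
def cconj (a : CT) : CT := (a.1, tneg a.2)
def ceq (a b : CT) : Formula := .and (.eq a.1 b.1) (.eq a.2 b.2)
def cone : CT := (.const 1, .const 0)
def cpos (a b : CT) : Formula :=
  .and (.eq (cmul a (cconj b)).2 (.const 0)) (.lt (.const 0) (cmul a (cconj b)).1)
def cvar (c i j : ℕ) : CT :=
  (.var (Nat.pair c (Nat.pair i j)), .var (Nat.pair (c + 1) (Nat.pair i j)))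

@[fun_prop] theorem tneg_PT {f : α → Term} (hf : PT f) : PT (fun a => tneg (f a)) := by
  unfold tneg; fun_prop
@[fun_prop] theorem cadd_PT {f g : α → CT} (hf : PT f) (hg : PT g) :
    PT (fun a => cadd (f a) (g a)) := by unfold cadd; fun_prop
@[fun_prop] theorem csub_PT {f g : α → CT} (hf : PT f) (hg : PT g) :
    PT (fun a => csub (f a) (g a)) := by unfold csub; fun_prop
@[fun_prop] theorem cmul_PT {f g : α → CT} (hf : PT f) (hg : PT g) :
    PT (fun a => cmul (f a) (g a)) := by unfold cmul; fun_prop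
@[fun_prop] theorem cconj_PT {f : α → CT} (hf : PT f) : PT (fun a => cconj (f a)) := by
  unfold cconj; fun_prop
@[fun_prop] theorem ceq_PT {f g : α → CT} (hf : PT f) (hg : PT g) :
    PT (fun a => ceq (f a) (g a)) := by unfold ceq; fun_prop
@[fun_prop] theorem cpos_PT {f g : α → CT} (hf : PT f) (hg : PT g) :
    PT (fun a => cpos (f a) (g a)) := by unfold cpos; fun_prop
@[fun_prop] theorem cvar_PT (c : ℕ) {f g : α → ℕ} (hf : PT f) (hg : PT g) :
    PT (fun a => cvar c (f a) (g a)) := by unfold cvar; fun_prop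

end PTs

/-- The value of a complex term. -/
def cval (v : ℕ → ℝ) (a : CT) : ℂ := ⟨termVal v a.1, termVal v a.2⟩

section Val

variable (v : ℕ → ℝ) (a b : CT)

theorem val_fst : termVal v a.1 = (cval v a).re := rfl
theorem val_snd : termVal v a.2 = (cval v a).im := rfl
theorem val_tneg (s : Term) : termVal v (tneg s) = -termVal v s := by simp [tneg, termVal]
theorem cval_add : cval v (cadd a b) = cval v a + cval v b := by
  apply Complex.ext <;> simp [cval, cadd, termVal]
theorem cval_sub : cval v (csub a b) = cval v a - cval v b := by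
  apply Complex.ext <;> simp [cval, csub, termVal, val_tneg, sub_eq_add_neg]
theorem cval_mul : cval v (cmul a b) = cval v a * cval v b := by
  apply Complex.ext <;> simp [cval, cmul, termVal, val_tneg, sub_eq_add_neg]
theorem cval_conj : cval v (cconj a) = (starRingEnd ℂ) (cval v a) := by
  apply Complex.ext <;> simp [cval, cconj, val_tneg]
theorem cval_one : cval v cone = 1 := by
  apply Complex.ext <;> simp [cval, cone, termVal]
theorem holds_ceq : Holds v (ceq a b) ↔ cval v a = cval v b := by
  simp [ceq, Holds, cval, Complex.ext_iff]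

end Val

/-- `X` times the conjugate of `Y` is a positive real. -/
def Pos (X Y : ℂ) : Prop := (X * (starRingEnd ℂ) Y).im = 0 ∧ 0 < (X * (starRingEnd ℂ) Y).re

theorem holds_cpos (v : ℕ → ℝ) (a b : CT) : Holds v (cpos a b) ↔ Pos (cval v a) (cval v b) := by
  simp only [cpos, Holds, val_fst, val_snd, cval_mul, cval_conj, Pos, termVal, Int.cast_zero]

theorem pos_iff (X Y : ℂ) : Pos X Y ↔ Y ≠ 0 ∧ ∃ ρ : ℝ, 0 < ρ ∧ X = ρ * Y := by
  constructor
  · rintro ⟨h1, h2⟩
    have hY : Y ≠ 0 := by rintro rfl; simp at h2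
    have hn : 0 < normSq Y := normSq_pos.mpr hY
    refine ⟨hY, (X * (starRingEnd ℂ) Y).re / normSq Y, by positivity, ?_⟩
    have h3 : X * (starRingEnd ℂ) Y = ((X * (starRingEnd ℂ) Y).re : ℂ) := by
      apply Complex.ext <;> simp only [ofReal_re, ofReal_im, h1]
    have h4 : ((normSq Y : ℝ) : ℂ) ≠ 0 := by exact_mod_cast hn.ne'
    push_cast
    rw [← h3, div_mul_eq_mul_div, eq_div_iff h4, normSq_eq_conj_mul_self]; ring
  · rintro ⟨hY, ρ, hρ, rfl⟩
    have hn : 0 < normSq Y := normSq_pos.mpr hY
    have : (ρ : ℂ) * Y * (starRingEnd ℂ) Y = ((ρ * normSq Y : ℝ) : ℂ) := by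
      rw [mul_assoc, mul_conj]; push_cast; ring
    rw [Pos, this, ofReal_im, ofReal_re]
    exact ⟨rfl, by positivity⟩

theorem pos_mul {c : ℂ} (hc : c ≠ 0) (X Y : ℂ) : Pos (X * c) (Y * c) ↔ Pos X Y := by
  simp only [pos_iff, ← mul_assoc, mul_left_inj' hc, ne_eq, mul_eq_zero, hc, or_false]

theorem onArc_iff {a b W : ℂ} (hab : a ≠ b) (hW : W ≠ 0) (z : ℂ) :
    OnArc a b W z ↔ Pos (z - a) (W * (b - z)) := by
  rw [pos_iff, OnArc]
  simp only [mul_assoc]
  refine ⟨fun h => ⟨fun h0 => ?_, h⟩, fun h => h.2⟩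
  obtain ⟨l, _, h⟩ := h
  rw [h0, mul_zero, sub_eq_zero] at h
  rw [h, mul_eq_zero, sub_eq_zero] at h0
  exact h0.elim hW fun h1 => hab h1.symm

theorem cross_iff {a b W a' b' W' : ℂ} (hW : W ∈ slitPlane) (hab : a' ≠ b') (hW' : W' ≠ 0) :
    (∀ z, OnArc a b W z → ¬ OnArc a' b' W' z) ↔ ∀ l : ℝ, 0 < l →
      ¬ Pos ((a - a') + l * (W * (b - a'))) (W' * (b' - a) + l * (W' * (W * (b' - b)))) := by
  have hne : ∀ l : ℝ, 0 < l → 1 + l * W ≠ 0 := by
    intro l hl h
    have h1 := congrArg re h
    have h2 := congrArg im h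
    simp only [add_re, one_re, mul_re, ofReal_re, ofReal_im, zero_mul, sub_zero, zero_re, add_im,
      one_im, mul_im, add_zero, zero_add, zero_im, mul_eq_zero, hl.ne', false_or] at h1 h2
    rcases hW with h3 | h3
    · nlinarith
    · exact h3 h2
  have key : ∀ (l : ℝ) (z : ℂ), 0 < l → z - a = l * W * (b - z) → (OnArc a' b' W' z ↔
      Pos ((a - a') + l * (W * (b - a'))) (W' * (b' - a) + l * (W' * (W * (b' - b))))) := by
    intro l z hl h
    rw [onArc_iff hab hW', ← pos_mul (hne l hl)]
    have e1 : (z - a') * (1 + l * W) = (a - a') + l * (W * (b - a')) := by linear_combination h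
    have e2 : W' * (b' - z) * (1 + l * W) = W' * (b' - a) + l * (W' * (W * (b' - b))) := by
      linear_combination (-W') * h
    rw [e1, e2]
  constructor
  · intro h l hl hp
    have h1 : (a + l * W * b) / (1 + l * W) - a = l * W * (b - (a + l * W * b) / (1 + l * W)) := by
      have := hne l hl
      field_simp; ring
    exact h _ ⟨l, hl, h1⟩ ((key l _ hl h1).2 hp)
  · rintro h z ⟨l, hl, hz⟩ h'
    exact h l hl ((key l z hl hz).1 h')

/-- A certificate that the first quadratic has no positive root where the second is positive. -/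
def QuadOK (q0 q1 q2 r0 r1 r2 l m : ℝ) : Prop :=
  q1 * q1 < 4 * (q0 * q2) ∨
  (¬ q2 = 0 ∧ q1 = -(q2 * (l + m)) ∧ q0 = q2 * (l * m) ∧
    (l ≤ 0 ∨ r0 + l * (r1 + l * r2) ≤ 0) ∧ (m ≤ 0 ∨ r0 + m * (r1 + m * r2) ≤ 0)) ∨
  (q2 = 0 ∧ ¬ q1 = 0 ∧ q0 = -(q1 * l) ∧ (l ≤ 0 ∨ r0 + l * (r1 + l * r2) ≤ 0)) ∨
  (q2 = 0 ∧ q1 = 0 ∧ ¬ q0 = 0) ∨
  (r0 ≤ 0 ∧ r2 ≤ 0 ∧ (r1 ≤ 0 ∨ r1 * r1 ≤ 4 * (r0 * r2)))

theorem const_nonpos {a b c : ℝ} (h : ∀ l : ℝ, 0 < l → a + l * (b + l * c) ≤ 0) : a ≤ 0 := by
  have h1 : Filter.Tendsto (fun l : ℝ => a + l * (b + l * c)) (nhdsWithin 0 (Set.Ioi 0))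
      (nhds (a + 0 * (b + 0 * c))) :=
    (Continuous.tendsto (by fun_prop) 0).mono_left nhdsWithin_le_nhds
  simpa using le_of_tendsto h1 (eventually_nhdsWithin_of_forall h)

theorem quad_iff (q0 q1 q2 r0 r1 r2 : ℝ) :
    (∀ l : ℝ, 0 < l → ¬ (q0 + l * (q1 + l * q2) = 0 ∧ 0 < r0 + l * (r1 + l * r2))) ↔
      ∃ l m, QuadOK q0 q1 q2 r0 r1 r2 l m := by
  constructor
  · intro h
    have good : ∀ l, q0 + l * (q1 + l * q2) = 0 → l ≤ 0 ∨ r0 + l * (r1 + l * r2) ≤ 0 := by
      intro l hl
      by_contra hc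
      push Not at hc
      exact h l hc.1 ⟨hl, hc.2⟩
    by_cases h2 : q2 = 0
    · by_cases h1 : q1 = 0
      · by_cases h0 : q0 = 0
        · have h3 : ∀ l : ℝ, 0 < l → r0 + l * (r1 + l * r2) ≤ 0 := fun l hl =>
            (good l (by simp [h0, h1, h2])).resolve_left (not_le.mpr hl)
          have h4 : r2 ≤ 0 := const_nonpos (b := r1) (c := r0) fun l hl => by
            have h5 := h3 l⁻¹ (by positivity)
            have e : r2 + l * (r1 + l * r0) = l ^ 2 * (r0 + l⁻¹ * (r1 + l⁻¹ * r2)) := by
              field_simp; ring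
            rw [e]
            exact mul_nonpos_of_nonneg_of_nonpos (by positivity) h5
          have h5 := const_nonpos h3
          refine ⟨0, 0, Or.inr (Or.inr (Or.inr (Or.inr ⟨h5, h4, ?_⟩)))⟩
          by_cases h6 : r1 ≤ 0
          · exact Or.inl h6
          push Not at h6
          right
          rcases h4.lt_or_eq with h7 | h7
          · have h8 := h3 (r1 / (2 * -r2)) (div_pos h6 (by linarith))
            have e : r0 + r1 / (2 * -r2) * (r1 + r1 / (2 * -r2) * r2)
                = (r1 * r1 - 4 * (r0 * r2)) / (4 * -r2) := by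
              have := h7.ne
              field_simp; ring
            rw [e, div_nonpos_iff] at h8
            rcases h8 with h8 | h8 <;> linarith [h8.1, h8.2]
          · have h8 := h3 ((1 - r0) / r1) (div_pos (by linarith) h6)
            rw [h7, mul_zero, add_zero, div_mul_cancel₀ _ h6.ne'] at h8
            linarith
        · exact ⟨0, 0, Or.inr (Or.inr (Or.inr (Or.inl ⟨h2, h1, h0⟩)))⟩
      · have e : q0 = -(q1 * (-q0 / q1)) := by field_simp
        exact ⟨-q0 / q1, 0, Or.inr (Or.inr (Or.inl ⟨h2, h1, e, good _ (by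
          rw [h2]; linear_combination e)⟩))⟩
    · by_cases hd : q1 * q1 < 4 * (q0 * q2)
      · exact ⟨0, 0, Or.inl hd⟩
      · push Not at hd
        have hs := Real.mul_self_sqrt (x := q1 * q1 - 4 * (q0 * q2)) (by linarith)
        set s := √(q1 * q1 - 4 * (q0 * q2))
        have e1 : q1 = -(q2 * ((-q1 + s) / (2 * q2) + (-q1 - s) / (2 * q2))) := by
          field_simp; ring
        have e2 : q0 = q2 * ((-q1 + s) / (2 * q2) * ((-q1 - s) / (2 * q2))) := by
          field_simp; linear_combination hs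
        refine ⟨(-q1 + s) / (2 * q2), (-q1 - s) / (2 * q2),
          Or.inr (Or.inl ⟨h2, e1, e2, good _ ?_, good _ ?_⟩)⟩
        · generalize (-q1 + s) / (2 * q2) = x at e1 e2 ⊢
          linear_combination e2 + x * e1
        · generalize (-q1 - s) / (2 * q2) = x at e1 e2 ⊢
          linear_combination e2 + x * e1
  · rintro ⟨l, m, h⟩ x hx ⟨h1, h2⟩
    rcases h with h | ⟨h3, h4, h5, h6, h7⟩ | ⟨h3, h4, h5, h6⟩ | ⟨h3, h4, h5⟩ | ⟨h3, h4, h5⟩
    · have e : (q1 + 2 * x * q2) ^ 2 = q1 * q1 - 4 * (q0 * q2) := by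
        linear_combination (4 * q2) * h1
      nlinarith [sq_nonneg (q1 + 2 * x * q2)]
    · have e : q2 * ((x - l) * (x - m)) = 0 := by linear_combination h1 - h5 - x * h4
      rcases mul_eq_zero.mp ((mul_eq_zero.mp e).resolve_left h3) with e | e
      · rw [sub_eq_zero] at e; subst e; rcases h6 with h | h <;> linarith
      · rw [sub_eq_zero] at e; subst e; rcases h7 with h | h <;> linarith
    · have e : q1 * (x - l) = 0 := by linear_combination h1 - h5 - x * x * h3
      have e' := (mul_eq_zero.mp e).resolve_left h4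
      rw [sub_eq_zero] at e'; subst e'; rcases h6 with h | h <;> linarith
    · apply h5; rw [h3, h4] at h1; simpa using h1
    · rcases h5 with h5 | h5
      · nlinarith [mul_nonneg hx.le (neg_nonneg.mpr h5), mul_nonneg (mul_pos hx hx).le (neg_nonneg.mpr h4)]
      · have h6 : 0 < x * r1 := by nlinarith [mul_nonneg (mul_pos hx hx).le (neg_nonneg.mpr h4)]
        have h7 : (x * r1) ^ 2 ≤ (-r0 - x * x * r2) ^ 2 := by
          nlinarith [sq_nonneg (r0 - x * x * r2), mul_le_mul_of_nonneg_left h5 (mul_pos hx hx).le]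
        have h8 := abs_le_of_sq_le_sq' h7
          (by nlinarith [mul_nonneg (mul_pos hx hx).le (neg_nonneg.mpr h4)])
        nlinarith [h8.2]

theorem rt_pow (d k : ℕ) : rt d k = rt d 1 ^ k := by
  rw [rt, rt, ← exp_nat_mul]
  congr 1
  push_cast; ring

theorem rt_eq (d k : ℕ) : rt d k = exp (((2 * Real.pi * k / d : ℝ) : ℂ) * I) := by
  rw [rt]; push_cast; rfl

theorem rt_prim {d : ℕ} (hd : d ≠ 0) : IsPrimitiveRoot (rt d 1) d := by
  have := isPrimitiveRoot_exp d hd
  rwa [show 2 * (Real.pi : ℂ) * I / d = 2 * Real.pi * (1 : ℕ) / d * I by push_cast; ring] at this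

theorem rt_re_le {d k : ℕ} (hk : 0 < k) (hkd : k < d) : (rt d k).re ≤ (rt d 1).re := by
  have aux : ∀ j : ℕ, 0 < j → 2 * j ≤ d → Real.cos (2 * Real.pi * j / d) ≤
      Real.cos (2 * Real.pi * (1 : ℕ) / d) := by
    intro j hj hjd
    have hd : (0 : ℝ) < d := by exact_mod_cast hk.trans hkd
    have h1 : (1 : ℝ) ≤ j := by exact_mod_cast hj
    have h2 : (2 : ℝ) * j ≤ d := by exact_mod_cast hjd
    have := Real.pi_pos
    apply Real.cos_le_cos_of_nonneg_of_le_pi (by positivity)
    · rw [div_le_iff₀ hd]; nlinarith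
    · push_cast; gcongr
  rw [rt_eq, rt_eq, exp_ofReal_mul_I_re, exp_ofReal_mul_I_re]
  by_cases h : 2 * k ≤ d
  · exact aux k hk h
  · have hd : (d : ℝ) ≠ 0 := by exact_mod_cast (hk.trans hkd).ne'
    have h1 := aux (d - k) (by omega) (by omega)
    rw [Nat.cast_sub hkd.le, show 2 * Real.pi * (d - k) / d = 2 * Real.pi - 2 * Real.pi * k / d by
      field_simp, Real.cos_two_pi_sub] at h1
    exact h1

theorem rt_im_nonneg {d : ℕ} (hd : d ≠ 0) : 0 ≤ (rt d 1).im := by
  rw [rt_eq, exp_ofReal_mul_I_im]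
  rcases Nat.lt_or_ge d 2 with h | h
  · have : d = 1 := by omega
    subst this; simp
  · have h1 : (2 : ℝ) ≤ d := by exact_mod_cast h
    have := Real.pi_pos
    apply Real.sin_nonneg_of_nonneg_of_le_pi (by positivity)
    rw [div_le_iff₀ (by linarith)]; push_cast; nlinarith

theorem eq_rt {d : ℕ} (hd : d ≠ 0) {w : ℂ} (h1 : w ^ d = 1)
    (h2 : ∀ k, 0 < k → k < d → w ^ k ≠ 1 ∧ (w ^ k).re ≤ w.re) (h3 : 0 ≤ w.im) : w = rt d 1 := by
  have hz := rt_prim hd
  have : NeZero d := ⟨hd⟩
  rcases Nat.lt_or_ge d 2 with h | h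
  · have e : d = 1 := by omega
    subst e
    rw [pow_one] at h1
    rw [h1, ← hz.pow_eq_one, pow_one]
  have hw : IsPrimitiveRoot w d :=
    IsPrimitiveRoot.mk_of_lt w (by omega) h1 fun k hk hkd => (h2 k hk hkd).1
  obtain ⟨j, hj, hj'⟩ := hz.eq_pow_of_pow_eq_one h1
  obtain ⟨k, hk, hk'⟩ := hw.eq_pow_of_pow_eq_one hz.pow_eq_one
  have hk0 : 0 < k := by
    rcases Nat.eq_zero_or_pos k with rfl | h0
    · exact absurd (by simpa using hk'.symm) (hz.ne_one (by omega))
    · exact h0
  have hj0 : 0 < j := by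
    rcases Nat.eq_zero_or_pos j with rfl | h0
    · exact absurd (by simpa using hj'.symm) (hw.ne_one (by omega))
    · exact h0
  have h4 := (h2 k hk0 hk).2
  rw [hk', ← hj', ← rt_pow, rt_eq, rt_eq, exp_ofReal_mul_I_re, exp_ofReal_mul_I_re] at h4
  rw [← hj', ← rt_pow, rt_eq, exp_ofReal_mul_I_im] at h3
  have hd' : (0 : ℝ) < d := by exact_mod_cast Nat.pos_of_ne_zero hd
  have hpi := Real.pi_pos
  have hjd : (j : ℝ) < d := by exact_mod_cast hj
  have h5 : 2 * Real.pi * j / d ≤ Real.pi := by
    by_contra hc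
    push Not at hc
    have h6 : 2 * Real.pi * j / d < 2 * Real.pi := by rw [div_lt_iff₀ hd']; nlinarith
    have h7 := Real.sin_pos_of_pos_of_lt_pi (x := 2 * Real.pi * j / d - Real.pi) (by linarith)
      (by linarith)
    rw [Real.sin_sub_pi] at h7
    linarith
  have h6 : j = 1 := by
    by_contra hc
    have h7 : (1 : ℝ) < j := by exact_mod_cast (by omega : 1 < j)
    have h8 := Real.cos_lt_cos_of_nonneg_of_le_pi (x := 2 * Real.pi * (1 : ℕ) / d)
      (by positivity) h5 (by push_cast; gcongr)
    linarith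
  rw [← hj', h6, pow_one]

end Pool.Agent.Lib.MP_242159_lc.Mem
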