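import Pool.Agent.Lib.MP_242159_lc.Defs

/-!
Algebraic description of drawings, edge lists and the register machine.
-/

set_option autoImplicit false

namespace Pool.Agent.Lib.MP_242159_lc

open Complex

/-- The open arc from `a` to `b` with parameter `W`. -/
def OnArc (a b W z : ℂ) : Prop := ∃ l : ℝ, 0 < l ∧ z - a = l * W * (b - z)

/-- The direction number `k` out of `d`. -/
noncomputable def rt (d k : ℕ) : ℂ := exp (2 * Real.pi * k / d * I)

/-- The neighbour number `k` of `u`. -/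
def nk (A : List (List ℕ)) (u k : ℕ) : ℕ := (nb A u).getD k 0

/-- The arc parameter of the edge number `k` at `u`. -/
noncomputable def Wd (A : List (List ℕ)) (p f : ℕ → ℂ) (u k : ℕ) : ℂ :=
  f u * rt (nb A u).length k / (p (nk A u k) - p u)

/-- Positions `p` and frames `f` that describe a drawing. -/
structure Alg (A : List (List ℕ)) (p f : ℕ → ℂ) : Prop where
  inj : ∀ u < A.length, ∀ v < A.length, p u = p v → u = v
  slit : ∀ u, ∀ k < (nb A u).length, Wd A p f u k ∈ slitPlane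
  tan : ∀ u, ∀ k < (nb A u).length, ∀ k' < (nb A (nk A u k)).length, nk A (nk A u k) k' = u →
    ∃ ρ : ℝ, 0 < ρ ∧ f (nk A u k) * rt (nb A (nk A u k)).length k' * Wd A p f u k =
      ρ * (p u - p (nk A u k))
  vert : ∀ u, ∀ k < (nb A u).length, ∀ w < A.length,
    ¬ OnArc (p u) (p (nk A u k)) (Wd A p f u k) (p w)
  cross : ∀ u, ∀ k < (nb A u).length, ∀ u', ∀ k' < (nb A u').length,
    s(u, nk A u k) ≠ s(u', nk A u' k') → ∀ z, OnArc (p u) (p (nk A u k)) (Wd A p f u k) z →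
      ¬ OnArc (p u') (p (nk A u' k')) (Wd A p f u' k') z

/-- An edge `(u, du, v, dv)`: direction number `du` at `u` and `dv` at `v`. -/
abbrev Edge : Type := ℕ × ℕ × ℕ × ℕ

/-- The half edges `(vertex, direction, other end)`. -/
def halves (E : List Edge) : List (ℕ × ℕ × ℕ) :=
  E.flatMap fun e => [(e.1, e.2.1, e.2.2.1), (e.2.2.1, e.2.2.2, e.1)]

/-- The other ends of the half edges at `u` in direction `d`. -/
def look (E : List Edge) (u d : ℕ) : List ℕ :=
  ((halves E).filter fun h => decide (h.1 = u) && decide (h.2.1 = d)).map fun h => h.2.2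

/-- The graph with `n` vertices of degree `N`, padded with leaves and isolated vertices. -/
def graph (n N : ℕ) (E : List Edge) : List (List ℕ) :=
  ((List.range n).map fun u => (List.range N).map fun d => (look E u d).headD (n + (u * N + d))) ++
    (List.range n).flatMap fun u => (List.range N).map fun d =>
      cond (look E u d).isEmpty [u] []

/-- A well formed edge list. -/
structure WFE (n N : ℕ) (E : List Edge) : Prop where
  bd : ∀ h ∈ halves E, h.1 < n ∧ h.2.1 < N ∧ h.1 ≠ h.2.2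
  dir : ∀ h ∈ halves E, ∀ h' ∈ halves E, h.1 = h'.1 → h.2.1 = h'.2.1 → h.2.2 = h'.2.2
  par : ∀ h ∈ halves E, ∀ h' ∈ halves E, h.1 = h'.1 → h.2.2 = h'.2.2 → h.2.1 = h'.2.1

/-- The arc parameter of an edge. -/
noncomputable def We (N : ℕ) (p f : ℕ → ℂ) (e : Edge) : ℂ :=
  f e.1 * rt N e.2.1 / (p e.2.2.1 - p e.1)

/-- A drawing of an edge list with `N` directions at each vertex. -/
structure Core (N : ℕ) (E : List Edge) (p f : ℕ → ℂ) : Prop where
  inj : ∀ h ∈ halves E, ∀ h' ∈ halves E, p h.1 = p h'.1 → h.1 = h'.1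
  slit : ∀ e ∈ E, We N p f e ∈ slitPlane
  tan : ∀ e ∈ E, ∃ ρ : ℝ, 0 < ρ ∧
    f e.2.2.1 * rt N e.2.2.2 * We N p f e = ρ * (p e.1 - p e.2.2.1)
  vert : ∀ e ∈ E, ∀ h ∈ halves E, ¬ OnArc (p e.1) (p e.2.2.1) (We N p f e) (p h.1)
  cross : ∀ e ∈ E, ∀ e' ∈ E, s(e.1, e.2.2.1) ≠ s(e'.1, e'.2.2.1) → ∀ z,
    OnArc (p e.1) (p e.2.2.1) (We N p f e) z → ¬ OnArc (p e'.1) (p e'.2.2.1) (We N p f e') z

/-- The four gates: copy, mean, reflection and a Moebius gate. -/
def Gate (g : ℕ) (p q r : ℝ) : Prop :=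
  (g = 0 ∧ r = q) ∨ (g = 1 ∧ 2 * r = p + q) ∨ (g = 2 ∧ r = 2 * q - p) ∨
    (g = 3 ∧ (r - q) * (9 + 4 * (p - q)) = 16 * (p - q))

/-- One gate acts on the registers `i` and `i + 1` and writes its value into both. -/
def Step (a : ℕ × ℕ) (s s' : ℕ → ℝ) : Prop :=
  Gate a.1 (s a.2) (s (a.2 + 1)) (s' a.2) ∧ s' (a.2 + 1) = s' a.2 ∧ s (a.2 + 1) < s a.2 + 1 ∧
    ∀ i, i ≠ a.2 → i ≠ a.2 + 1 → s' i = s i

/-- A machine with `m` registers, the first `c` of them zero at the start, a program and a final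
test on the registers `r` and `r + 1`. -/
def WFM (m r : ℕ) (prog : List (ℕ × ℕ)) : Prop :=
  r + 1 < m ∧ ∀ a ∈ prog, a.1 < 4 ∧ a.2 + 1 < m

/-- An accepting run. -/
def Run (c r : ℕ) (prog : List (ℕ × ℕ)) (st : ℕ → ℕ → ℝ) : Prop :=
  (∀ i < c, st 0 i = 0) ∧
    (∀ n < prog.length, Step (prog.getD n (0, 0)) (st n) (st (n + 1))) ∧
      st prog.length (r + 1) < st prog.length r

end Pool.Agent.Lib.MP_242159_lc
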