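import Pool.Agent.Lib.MP_242159_lc.ADefs

set_option autoImplicit false

namespace Pool.Agent.Lib.MP_242159_lc

open Complex

/-- The curve `g` runs from `a` to `b` along the arc with parameter `W`. -/
structure ArcOf (g : ℝ → ℂ) (a b W : ℂ) : Prop where
  h0 : g 0 = a
  h1 : g 1 = b
  d0 : ∃ ρ : ℝ, 0 < ρ ∧ deriv g 0 = ρ * W * (b - a)
  d1 : ∃ ρ : ℝ, 0 < ρ ∧ W * deriv g 1 = ρ * (b - a)
  on : ∀ z, OnArc a b W z ↔ ∃ t ∈ Set.Ioo (0 : ℝ) 1, g t = z

theorem onArc_smul {a b W z : ℂ} {ρ : ℝ} (hρ : 0 < ρ) :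
    OnArc a b (ρ * W) z ↔ OnArc a b W z := by
  constructor
  · rintro ⟨l, hl, h⟩
    exact ⟨l * ρ, mul_pos hl hρ, by rw [h]; push_cast; ring⟩
  · rintro ⟨l, hl, h⟩
    have : (ρ : ℂ) ≠ 0 := by exact_mod_cast hρ.ne'
    exact ⟨l / ρ, div_pos hl hρ, by rw [h]; push_cast; field_simp⟩

theorem onArc_rev_aux {a b W z : ℂ} (hW : W ≠ 0) (h : OnArc a b W z) : OnArc b a W⁻¹ z := by
  obtain ⟨l, hl, h⟩ := h
  have : (l : ℂ) ≠ 0 := by exact_mod_cast hl.ne'
  refine ⟨l⁻¹, inv_pos.2 hl, ?_⟩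
  have h2 : a - z = -(l * W * (b - z)) := by rw [← h]; ring
  rw [h2]
  push_cast
  field_simp
  ring

theorem onArc_rev {a b W z : ℂ} (hW : W ≠ 0) : OnArc b a W⁻¹ z ↔ OnArc a b W z :=
  ⟨fun h => by simpa using onArc_rev_aux (inv_ne_zero hW) h, onArc_rev_aux hW⟩

theorem not_onArc_left {a b W : ℂ} (hab : a ≠ b) (hW : W ≠ 0) : ¬ OnArc a b W a := by
  rintro ⟨l, hl, h⟩
  have : (l : ℂ) ≠ 0 := by exact_mod_cast hl.ne'
  rw [sub_self] at h
  exact mul_ne_zero (mul_ne_zero this hW) (sub_ne_zero.2 hab.symm) h.symm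

theorem not_onArc_right {a b W : ℂ} (hab : a ≠ b) : ¬ OnArc a b W b := by
  rintro ⟨l, _, h⟩
  rw [sub_self, mul_zero] at h
  exact hab (sub_eq_zero.1 h).symm

theorem slit_smul {W : ℂ} {ρ : ℝ} (hρ : 0 < ρ) (hW : W ∈ slitPlane) : ρ * W ∈ slitPlane := by
  rw [mem_slitPlane_iff] at hW ⊢
  simp only [mul_re, ofReal_re, ofReal_im, zero_mul, sub_zero, mul_im, add_zero]
  rcases hW with h | h
  · exact Or.inl (mul_pos hρ h)
  · exact Or.inr (mul_ne_zero hρ.ne' h)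

theorem ArcOf.smul {g : ℝ → ℂ} {a b W : ℂ} (h : ArcOf g a b W) {ρ : ℝ} (hρ : 0 < ρ) :
    ArcOf g a b (ρ * W) := by
  have hρ' : (ρ : ℂ) ≠ 0 := by exact_mod_cast hρ.ne'
  refine ⟨h.h0, h.h1, ?_, ?_, fun z => (onArc_smul hρ).trans (h.on z)⟩
  · obtain ⟨r, hr, he⟩ := h.d0
    exact ⟨r / ρ, div_pos hr hρ, by rw [he]; push_cast; field_simp⟩
  · obtain ⟨r, hr, he⟩ := h.d1
    exact ⟨ρ * r, mul_pos hρ hr, by rw [mul_assoc, he]; push_cast; ring⟩

theorem ArcOf.rev {g : ℝ → ℂ} {a b W : ℂ} (h : ArcOf g a b W) (hW : W ≠ 0) :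
    ArcOf (fun t => g (1 - t)) b a W⁻¹ := by
  refine ⟨by simpa using h.h1, by simpa using h.h0, ?_, ?_, fun z => ?_⟩
  · obtain ⟨r, hr, he⟩ := h.d1
    refine ⟨r, hr, ?_⟩
    rw [deriv_comp_const_sub, sub_zero]
    have : deriv g 1 = W⁻¹ * (r * (b - a)) := by
      rw [← he]
      field_simp
    rw [this]
    ring
  · obtain ⟨r, hr, he⟩ := h.d0
    refine ⟨r, hr, ?_⟩
    rw [deriv_comp_const_sub, sub_self, he]
    field_simp
    ring
  · rw [onArc_rev hW, h.on]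
    constructor
    · rintro ⟨t, ⟨h0, h1⟩, ht⟩
      exact ⟨1 - t, ⟨by linarith, by linarith⟩, by simpa using ht⟩
    · rintro ⟨t, ⟨h0, h1⟩, ht⟩
      exact ⟨1 - t, ⟨by linarith, by linarith⟩, ht⟩

theorem IsArc.rev {g : ℝ → ℂ} (h : IsArc g) : IsArc fun t => g (1 - t) := by
  rcases h with ⟨a, b, h⟩ | ⟨c, r, φ, hφ, h⟩
  · exact Or.inl ⟨a + b, -b, fun t => by beta_reduce; rw [h]; push_cast; ring⟩
  · refine Or.inr ⟨c, r * exp (φ * I), -φ, by rwa [abs_neg], fun t => ?_⟩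
    beta_reduce
    rw [h, mul_assoc r, ← Complex.exp_add]
    congr 3
    push_cast
    ring

theorem arcOf_segment (a b : ℂ) : ArcOf (fun t : ℝ => a + t * b) a (a + b) 1 := by
  have hd : ∀ t : ℝ, deriv (fun t : ℝ => a + t * b) t = b := fun t => by
    have := ((Complex.ofRealCLM.hasDerivAt (x := t)).mul_const b).const_add a
    simpa using this.deriv
  refine ⟨by simp, by simp, ⟨1, one_pos, by rw [hd]; simp⟩, ⟨1, one_pos, by rw [hd]; simp⟩,
    fun z => ⟨?_, ?_⟩⟩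
  · rintro ⟨l, hl, h⟩
    have h1 : (0 : ℝ) < 1 + l := by linarith
    have h2 : (1 + l : ℂ) ≠ 0 := by exact_mod_cast h1.ne'
    refine ⟨l / (1 + l), ⟨div_pos hl h1, (div_lt_one h1).2 (by linarith)⟩, ?_⟩
    push_cast
    field_simp
    linear_combination -h
  · rintro ⟨t, ⟨h0, h1⟩, rfl⟩
    have h2 : (0 : ℝ) < 1 - t := by linarith
    have h3 : (1 - t : ℂ) ≠ 0 := by exact_mod_cast h2.ne'
    refine ⟨t / (1 - t), div_pos h0 h2, ?_⟩
    push_cast
    field_simp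
    ring

theorem alg_exp_sub (x y : ℝ) :
    exp (x * I) - exp (y * I) =
      2 * I * (Real.sin ((x - y) / 2) : ℝ) * exp (((x + y) / 2 : ℝ) * I) := by
  have h1 : exp (x * I) = exp (((x - y) / 2 : ℝ) * I) * exp (((x + y) / 2 : ℝ) * I) := by
    rw [← Complex.exp_add]
    congr 1
    push_cast
    ring
  have h2 : exp (y * I) = exp ((-((x - y) / 2) : ℝ) * I) * exp (((x + y) / 2 : ℝ) * I) := by
    rw [← Complex.exp_add]
    congr 1
    push_cast
    ring
  rw [h1, h2, ← sub_mul]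
  congr 1
  rw [exp_mul_I, exp_mul_I, ← ofReal_cos, ← ofReal_cos, ← ofReal_sin, ← ofReal_sin, Real.cos_neg,
    Real.sin_neg]
  push_cast
  ring

theorem alg_sin_pos {φ s : ℝ} (h0 : φ ≠ 0) (hφ : |φ| < 2 * Real.pi) (hs : 0 < s) (hs1 : s ≤ 1) :
    0 < φ * Real.sin (φ * s / 2) := by
  obtain ⟨h1, h2⟩ := abs_lt.1 hφ
  rcases lt_or_gt_of_ne h0 with h | h
  · refine mul_pos_of_neg_of_neg h (Real.sin_neg_of_neg_of_neg_pi_lt ?_ ?_)
    · nlinarith
    · nlinarith
  · refine mul_pos h (Real.sin_pos_of_pos_of_lt_pi ?_ ?_)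
    · positivity
    · nlinarith

theorem alg_circle_eq (c r : ℂ) (φ t l : ℝ)
    (h : Real.sin (φ * t / 2) = l * Real.sin (φ * (1 - t) / 2)) :
    c + r * exp (φ * t * I) - (c + r) =
      l * exp ((-φ / 2 : ℝ) * I) * (c + r * exp (φ * I) - (c + r * exp (φ * t * I))) := by
  have h1 := alg_exp_sub (φ * t) 0
  have h2 := alg_exp_sub φ (φ * t)
  rw [ofReal_zero, zero_mul, Complex.exp_zero, sub_zero, add_zero, h] at h1
  rw [show (φ - φ * t) / 2 = φ * (1 - t) / 2 by ring] at h2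
  have h3 : exp (((φ * t) / 2 : ℝ) * I) =
      exp ((-φ / 2 : ℝ) * I) * exp (((φ + φ * t) / 2 : ℝ) * I) := by
    rw [← Complex.exp_add]
    congr 1
    push_cast
    ring
  rw [h3, ofReal_mul l] at h1
  rw [ofReal_mul φ t] at h1 h2
  linear_combination r * h1 - r * l * exp ((-φ / 2 : ℝ) * I) * h2

theorem alg_im_ne {φ : ℝ} (h0 : φ ≠ 0) (hφ : |φ| < 2 * Real.pi) :
    (exp ((-φ / 2 : ℝ) * I)).im ≠ 0 := by
  rw [exp_ofReal_mul_I_im, neg_div, Real.sin_neg, neg_ne_zero]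
  have := alg_sin_pos h0 hφ one_pos le_rfl
  rw [mul_one] at this
  intro h
  rw [h, mul_zero] at this
  exact lt_irrefl _ this

theorem arcOf_circle (c r : ℂ) {φ : ℝ} (h0 : φ ≠ 0) (hφ : |φ| < 2 * Real.pi) :
    ArcOf (fun t : ℝ => c + r * exp (φ * t * I)) (c + r) (c + r * exp (φ * I))
      (exp ((-φ / 2 : ℝ) * I)) := by
  have hd : ∀ t : ℝ, deriv (fun t : ℝ => c + r * exp (φ * t * I)) t =
      r * (exp (φ * t * I) * (φ * I)) := fun t => by
    have := (((((Complex.ofRealCLM.hasDerivAt (x := t)).const_mul (φ : ℂ)).mul_const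
      I).cexp).const_mul r).const_add c
    simpa using this.deriv
  have hs := alg_sin_pos h0 hφ one_pos le_rfl
  rw [mul_one] at hs
  have hs0 : Real.sin (φ / 2) ≠ 0 := fun h => by
    rw [h, mul_zero] at hs
    exact lt_irrefl _ hs
  have hs0' : ((Real.sin (φ / 2) : ℝ) : ℂ) ≠ 0 := by exact_mod_cast hs0
  have hρ : 0 < φ / (2 * Real.sin (φ / 2)) := by
    have : φ / (2 * Real.sin (φ / 2)) = φ * Real.sin (φ / 2) / (2 * Real.sin (φ / 2) ^ 2) := by
      field_simp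
    rw [this]
    positivity
  have h1 := alg_exp_sub φ 0
  rw [ofReal_zero, zero_mul, Complex.exp_zero, sub_zero, add_zero] at h1
  have h2 : exp ((-φ / 2 : ℝ) * I) * exp ((φ / 2 : ℝ) * I) = 1 := by
    rw [← Complex.exp_add, ← Complex.exp_zero]
    congr 1
    push_cast
    ring
  have h3 : exp ((-φ / 2 : ℝ) * I) * exp (φ * I) = exp ((φ / 2 : ℝ) * I) := by
    rw [← Complex.exp_add]
    congr 1
    push_cast
    ring
  have h4 : ((φ / (2 * Real.sin (φ / 2)) : ℝ) : ℂ) * (2 * (Real.sin (φ / 2) : ℝ)) = φ := by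
    rw [ofReal_div, ofReal_mul, ofReal_ofNat]
    field_simp
  refine ⟨by simp, by simp, ⟨_, hρ, ?_⟩, ⟨_, hρ, ?_⟩, fun z => ⟨?_, ?_⟩⟩
  · rw [hd, ofReal_zero, mul_zero, zero_mul, Complex.exp_zero]
    linear_combination -r * I * h4 -
      r * ((φ / (2 * Real.sin (φ / 2)) : ℝ) : ℂ) * exp ((-φ / 2 : ℝ) * I) * h1 -
      r * ((φ / (2 * Real.sin (φ / 2)) : ℝ) : ℂ) * (2 * I * (Real.sin (φ / 2) : ℝ)) * h2
  · rw [hd, ofReal_one, mul_one]
    linear_combination r * φ * I * h3 - r * ((φ / (2 * Real.sin (φ / 2)) : ℝ) : ℂ) * h1 -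
      r * I * exp ((φ / 2 : ℝ) * I) * h4
  · rintro ⟨l, hl, h⟩
    have hc : ContinuousOn
        (fun t : ℝ => φ * (Real.sin (φ * t / 2) - l * Real.sin (φ * (1 - t) / 2)))
        (Set.Icc 0 1) := by fun_prop
    obtain ⟨t, ht, he⟩ := intermediate_value_Ioo zero_le_one hc (a := 0) (b := 1)
      (show (0 : ℝ) ∈ _ from ⟨by
        simp only [mul_zero, zero_div, Real.sin_zero, sub_zero, mul_one]
        nlinarith [mul_pos hl hs], by
        simp only [mul_one, sub_self, mul_zero, zero_div, Real.sin_zero, sub_zero]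
        exact hs⟩)
    have h5 : Real.sin (φ * t / 2) = l * Real.sin (φ * (1 - t) / 2) :=
      sub_eq_zero.1 ((mul_eq_zero.1 he).resolve_left h0)
    have h6 := alg_circle_eq c r φ t l h5
    refine ⟨t, ht, ?_⟩
    have h7 : (1 + l * exp ((-φ / 2 : ℝ) * I) : ℂ) ≠ 0 := fun h => by
      have := congrArg Complex.im h
      simp only [add_im, one_im, mul_im, ofReal_re, ofReal_im, zero_mul, add_zero, zero_add,
        zero_im] at this
      exact mul_ne_zero hl.ne' (alg_im_ne h0 hφ) this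
    refine mul_left_cancel₀ h7 ?_
    linear_combination h6 - h
  · rintro ⟨t, ⟨ht0, ht1⟩, rfl⟩
    have h5 := alg_sin_pos h0 hφ ht0 ht1.le
    have h6 := alg_sin_pos h0 hφ (s := 1 - t) (by linarith) (by linarith)
    have h7 : Real.sin (φ * (1 - t) / 2) ≠ 0 := fun h => by
      rw [h, mul_zero] at h6
      exact lt_irrefl _ h6
    refine ⟨Real.sin (φ * t / 2) / Real.sin (φ * (1 - t) / 2), ?_,
      alg_circle_eq c r φ t _ (by field_simp)⟩
    rw [← mul_div_mul_left _ _ h0]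
    exact div_pos h5 h6

theorem IsArc.exists_arcOf {g : ℝ → ℂ} (h : IsArc g) (hne : g 0 ≠ g 1) :
    ∃ W ∈ slitPlane, ArcOf g (g 0) (g 1) W := by
  rcases h with ⟨a, b, h⟩ | ⟨c, r, φ, hφ, h⟩
  · obtain rfl : g = fun t : ℝ => a + t * b := funext h
    exact ⟨1, one_mem_slitPlane, by simpa using arcOf_segment a b⟩
  · obtain rfl : g = fun t : ℝ => c + r * exp (φ * t * I) := funext h
    have h0 : φ ≠ 0 := by
      rintro rfl
      simp at hne
    exact ⟨_, mem_slitPlane_iff.2 (Or.inr (alg_im_ne h0 hφ)),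
      by simpa using arcOf_circle c r h0 hφ⟩

theorem exists_arcOf (a b : ℂ) {W : ℂ} (hW : W ∈ slitPlane) :
    ∃ g, IsArc g ∧ ArcOf g a b W := by
  by_cases him : W.im = 0
  · have hre : 0 < W.re := (mem_slitPlane_iff.1 hW).resolve_right (not_not.2 him)
    refine ⟨fun t : ℝ => a + t * (b - a), Or.inl ⟨a, b - a, fun _ => rfl⟩, ?_⟩
    have h1 := (arcOf_segment a (b - a)).smul hre
    have h2 : (W.re : ℂ) * 1 = W := by
      rw [mul_one]
      exact Complex.ext (by simp) (by simp [him])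
    rwa [h2, add_sub_cancel] at h1
  · have hW0 : W ≠ 0 := slitPlane_ne_zero hW
    have h0 : -2 * arg W ≠ 0 := fun h => him (arg_eq_zero_iff.1 (by linarith)).2
    have hφ : |-2 * arg W| < 2 * Real.pi := by
      have h1 := neg_pi_lt_arg W
      have h2 := lt_of_le_of_ne (arg_le_pi W) (slitPlane_arg_ne_pi hW)
      rw [abs_lt]
      constructor <;> linarith
    have he : exp (((-2 * arg W : ℝ) : ℂ) * I) - 1 ≠ 0 := fun h => by
      have h1 := alg_exp_sub (-2 * arg W) 0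
      rw [ofReal_zero, zero_mul, Complex.exp_zero, sub_zero, add_zero, h] at h1
      have h2 := alg_sin_pos h0 hφ one_pos le_rfl
      rw [mul_one] at h2
      have h3 : ((Real.sin (-2 * arg W / 2) : ℝ) : ℂ) ≠ 0 := fun h => by
        rw [ofReal_eq_zero.1 h, mul_zero] at h2
        exact lt_irrefl _ h2
      exact mul_ne_zero (mul_ne_zero (mul_ne_zero two_ne_zero I_ne_zero) h3)
        (Complex.exp_ne_zero _) h1.symm
    set r := (b - a) / (exp (((-2 * arg W : ℝ) : ℂ) * I) - 1) with hr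
    refine ⟨fun t : ℝ => a - r + r * exp (((-2 * arg W : ℝ) : ℂ) * t * I),
      Or.inr ⟨a - r, r, -2 * arg W, hφ, fun _ => rfl⟩, ?_⟩
    have h1 := (arcOf_circle (a - r) r h0 hφ).smul (norm_pos_iff.2 hW0)
    have h2 : a - r + r * exp (((-2 * arg W : ℝ) : ℂ) * I) = b := by
      have : r * (exp (((-2 * arg W : ℝ) : ℂ) * I) - 1) = b - a := by
        rw [hr, div_mul_cancel₀ _ he]
      linear_combination this
    rwa [h2, sub_add_cancel, show -(-2 * arg W) / 2 = arg W by ring,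
      norm_mul_exp_arg_mul_I] at h1

theorem alg_lt_of_mem {A : List (List ℕ)} {u v : ℕ} (h : v ∈ nb A u) : u < A.length := by
  by_contra hu
  rw [nb, List.getD_eq_default _ _ (not_lt.1 hu)] at h
  simp at h

theorem nk_eq {A : List (List ℕ)} {u k : ℕ} (hk : k < (nb A u).length) :
    nk A u k = (nb A u)[k] := List.getD_eq_getElem _ _ hk

theorem nk_mem {A : List (List ℕ)} {u k : ℕ} (hk : k < (nb A u).length) : nk A u k ∈ nb A u := by
  rw [nk_eq hk]
  exact List.getElem_mem hk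

theorem alg_exp_rt (θ : ℝ) (d k : ℕ) :
    exp ((θ + 2 * Real.pi * k / d) * I) = exp (θ * I) * rt d k := by
  rw [rt, ← Complex.exp_add, add_mul]

theorem alg_of_drawing {A : List (List ℕ)} (hA : IsRotGraph A) {p : ℕ → ℂ}
    {γ : ℕ → ℕ → ℝ → ℂ} (h : IsDrawing A p γ) : ∃ f, Alg A p f := by
  choose θ hθ using h.angle
  have hne : ∀ u, ∀ v ∈ nb A u, p u ≠ p v := fun u v hv he => by
    have hu := alg_lt_of_mem hv
    obtain ⟨h1, h2, _⟩ := (hA u hu).2 v hv
    exact h2 (h.inj u hu v h1 he).symm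
  have hder : ∀ u, ∀ k < (nb A u).length, ∃ ρ : ℝ, 0 < ρ ∧
      deriv (γ u (nk A u k)) 0 = ρ * (exp (θ u * I) * rt (nb A u).length k) := fun u k hk => by
    obtain ⟨ρ, hρ, he⟩ := hθ u k hk
    exact ⟨ρ, hρ, by rw [nk_eq hk, he, alg_exp_rt]⟩
  have key : ∀ u, ∀ k < (nb A u).length,
      Wd A p (fun u => exp (θ u * I)) u k ∈ slitPlane ∧
        ArcOf (γ u (nk A u k)) (p u) (p (nk A u k)) (Wd A p (fun u => exp (θ u * I)) u k) := by
    intro u k hk
    obtain ⟨ha, h0, h1, _⟩ := h.arc u _ (nk_mem hk)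
    have hp := hne u _ (nk_mem hk)
    obtain ⟨W, hW, harc⟩ := ha.exists_arcOf (by rwa [h0, h1])
    rw [h0, h1] at harc
    obtain ⟨ρ, hρ, he⟩ := hder u k hk
    obtain ⟨ρ', hρ', he'⟩ := harc.d0
    have hρ0 : (ρ : ℂ) ≠ 0 := by exact_mod_cast hρ.ne'
    have hp' : p (nk A u k) - p u ≠ 0 := sub_ne_zero.2 hp.symm
    have h2 : Wd A p (fun u => exp (θ u * I)) u k = ((ρ' / ρ : ℝ) : ℂ) * W := by
      rw [Wd, div_eq_iff hp']
      refine mul_left_cancel₀ hρ0 ?_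
      rw [← he, he']
      push_cast
      field_simp
    rw [h2]
    exact ⟨slit_smul (div_pos hρ' hρ) hW, harc.smul (div_pos hρ' hρ)⟩
  refine ⟨fun u => exp (θ u * I), h.inj, fun u k hk => (key u k hk).1, fun u k hk k' hk' he => ?_,
    fun u k hk w hw hon => ?_, fun u k hk u' k' hk' hs z hz hz' => ?_⟩
  · obtain ⟨ρ, hρ, h1⟩ := hder _ k' hk'
    obtain ⟨ρ', hρ', h2⟩ := (key u k hk).2.d1
    have h3 : γ (nk A u k) u = fun t => γ u (nk A u k) (1 - t) :=
      funext (h.arc u _ (nk_mem hk)).2.2.2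
    rw [he, h3, deriv_comp_const_sub, sub_zero] at h1
    have hρ0 : (ρ : ℂ) ≠ 0 := by exact_mod_cast hρ.ne'
    refine ⟨ρ' / ρ, div_pos hρ' hρ, mul_left_cancel₀ hρ0 ?_⟩
    rw [← mul_assoc, ← h1]
    push_cast
    field_simp
    linear_combination -h2
  · obtain ⟨t, ht, he⟩ := ((key u k hk).2.on _).1 hon
    rcases h.vert u _ (nk_mem hk) w hw t (Set.Ioo_subset_Icc_self ht) he with rfl | rfl
    · exact not_onArc_left (hne _ _ (nk_mem hk)) (slitPlane_ne_zero (key _ k hk).1) hon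
    · exact not_onArc_right (hne _ _ (nk_mem hk)) hon
  · obtain ⟨s, hs', he⟩ := ((key u k hk).2.on _).1 hz
    obtain ⟨t, ht, he'⟩ := ((key u' k' hk').2.on _).1 hz'
    obtain ⟨w, hw, _, hw'⟩ := h.cross u _ (nk_mem hk) u' _ (nk_mem hk') hs s
      (Set.Ioo_subset_Icc_self hs') t (Set.Ioo_subset_Icc_self ht) (he.trans he'.symm)
    rw [he] at hw'
    rw [hw'] at hz
    rcases hw with rfl | rfl
    · exact not_onArc_left (hne _ _ (nk_mem hk)) (slitPlane_ne_zero (key _ k hk).1) hz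
    · exact not_onArc_right (hne _ _ (nk_mem hk)) hz

theorem drawing_of_alg {A : List (List ℕ)} (hA : IsRotGraph A) {p f : ℕ → ℂ}
    (h : Alg A p f) : ∃ γ, IsDrawing A p γ := by
  classical
  have hidx : ∀ u, ∀ v ∈ nb A u, (nb A u).idxOf v < (nb A u).length :=
    fun u v hv => List.idxOf_lt_length_of_mem hv
  have hnk : ∀ u, ∀ v ∈ nb A u, nk A u ((nb A u).idxOf v) = v := fun u v hv => by
    rw [nk_eq (hidx u v hv), List.getElem_idxOf]
  have hne : ∀ u, ∀ v ∈ nb A u, p u ≠ p v := fun u v hv he => by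
    have hu := alg_lt_of_mem hv
    obtain ⟨h1, h2, _⟩ := (hA u hu).2 v hv
    exact h2 (h.inj u hu v h1 he).symm
  have hsl : ∀ u, ∀ v ∈ nb A u, Wd A p f u ((nb A u).idxOf v) ∈ slitPlane :=
    fun u v hv => h.slit u _ (hidx u v hv)
  have hex : ∀ u v, ∃ g : ℝ → ℂ, v ∈ nb A u →
      IsArc g ∧ ArcOf g (p u) (p v) (Wd A p f u ((nb A u).idxOf v)) := fun u v => by
    by_cases hv : v ∈ nb A u
    · obtain ⟨g, hg⟩ := exists_arcOf (p u) (p v) (hsl u v hv)
      exact ⟨g, fun _ => hg⟩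
    · exact ⟨fun _ => 0, fun h => absurd h hv⟩
  choose g hg using hex
  let γ : ℕ → ℕ → ℝ → ℂ := fun u v => if u < v then g u v else fun t => g v u (1 - t)
  have key : ∀ u, ∀ v ∈ nb A u,
      IsArc (γ u v) ∧ ArcOf (γ u v) (p u) (p v) (Wd A p f u ((nb A u).idxOf v)) := by
    intro u v hv
    by_cases huv : u < v
    · have : γ u v = g u v := if_pos huv
      rw [this]
      exact hg u v hv
    · have : γ u v = fun t => g v u (1 - t) := if_neg huv
      rw [this]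
      have hu : u ∈ nb A v := ((hA u (alg_lt_of_mem hv)).2 v hv).2.2
      obtain ⟨h1, h2⟩ := hg v u hu
      have hW := slitPlane_ne_zero (hsl v u hu)
      obtain ⟨ρ, hρ, he⟩ := h.tan v _ (hidx v u hu) ((nb A u).idxOf v)
        (by rw [hnk v u hu]; exact hidx u v hv) (by rw [hnk v u hu, hnk u v hv])
      rw [hnk v u hu] at he
      have h3 : Wd A p f u ((nb A u).idxOf v) = ρ * (Wd A p f v ((nb A v).idxOf u))⁻¹ := by
        have hp' : p v - p u ≠ 0 := sub_ne_zero.2 (hne u v hv).symm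
        rw [Wd, hnk u v hv, div_eq_iff hp']
        refine mul_right_cancel₀ hW ?_
        rw [he]
        field_simp
      rw [h3]
      exact ⟨h1.rev, (h2.rev hW).smul hρ⟩
  have hvert : ∀ u, ∀ v ∈ nb A u, ∀ w < A.length, ∀ t ∈ Set.Icc (0 : ℝ) 1,
      γ u v t = p w → w = u ∨ w = v := by
    intro u v hv w hw t ht he
    have hu := alg_lt_of_mem hv
    rcases ht.1.eq_or_lt with rfl | h0
    · rw [(key u v hv).2.h0] at he
      exact Or.inl (h.inj u hu w hw he).symm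
    rcases ht.2.eq_or_lt with rfl | h1
    · rw [(key u v hv).2.h1] at he
      exact Or.inr (h.inj v ((hA u hu).2 v hv).1 w hw he).symm
    refine absurd ?_ (h.vert u _ (hidx u v hv) w hw)
    rw [hnk u v hv]
    exact ((key u v hv).2.on _).2 ⟨t, ⟨h0, h1⟩, he⟩
  refine ⟨γ, h.inj, fun u v hv => ⟨(key u v hv).1, (key u v hv).2.h0, (key u v hv).2.h1,
    fun t => ?_⟩, fun u => ⟨arg (f u), fun k hk => ?_⟩, hvert,
    fun u v hv u' v' hv' hs s hs' t ht he => ?_⟩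
  · have hvu : v ≠ u := ((hA u (alg_lt_of_mem hv)).2 v hv).2.1
    rcases lt_or_gt_of_ne hvu with h1 | h1
    · simp only [γ, if_pos h1, if_neg h1.not_gt, sub_sub_cancel]
    · simp only [γ, if_pos h1, if_neg h1.not_gt]
  · have hv : (nb A u)[k] ∈ nb A u := List.getElem_mem hk
    have hi : (nb A u).idxOf (nb A u)[k] = k :=
      (hA u (alg_lt_of_mem hv)).1.idxOf_getElem k hk
    obtain ⟨ρ, hρ, he⟩ := (key u _ hv).2.d0
    have hW := slitPlane_ne_zero (hsl u _ hv)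
    have hp' : p (nb A u)[k] - p u ≠ 0 := sub_ne_zero.2 (hne u _ hv).symm
    rw [hi, Wd, nk_eq hk] at he hW
    have hf : f u ≠ 0 := fun h0 => hW (by rw [h0, zero_mul, zero_div])
    refine ⟨ρ * ‖f u‖, mul_pos hρ (norm_pos_iff.2 hf), ?_⟩
    rw [he, alg_exp_rt, mul_assoc, div_mul_cancel₀ _ hp', ofReal_mul, mul_assoc, ← mul_assoc _
      (exp _), norm_mul_exp_arg_mul_I]
  · have hu := alg_lt_of_mem hv
    have hu' := alg_lt_of_mem hv'
    have hvl := ((hA u hu).2 v hv).1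
    have hvl' := ((hA u' hu').2 v' hv').1
    rcases hs'.1.eq_or_lt with rfl | s0
    · have h1 := (key u v hv).2.h0
      exact ⟨u, Or.inl rfl, hvert u' v' hv' u hu t ht (he.symm.trans h1), h1⟩
    rcases hs'.2.eq_or_lt with rfl | s1
    · have h1 := (key u v hv).2.h1
      exact ⟨v, Or.inr rfl, hvert u' v' hv' v hvl t ht (he.symm.trans h1), h1⟩
    rcases ht.1.eq_or_lt with rfl | t0
    · have h1 := he.trans (key u' v' hv').2.h0
      exact ⟨u', hvert u v hv u' hu' s hs' h1, Or.inl rfl, h1⟩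
    rcases ht.2.eq_or_lt with rfl | t1
    · have h1 := he.trans (key u' v' hv').2.h1
      exact ⟨v', hvert u v hv v' hvl' s hs' h1, Or.inr rfl, h1⟩
    refine absurd ?_ (h.cross u _ (hidx u v hv) u' _ (hidx u' v' hv')
      (by rwa [hnk u v hv, hnk u' v' hv']) (γ u v s) ?_)
    · rw [hnk u' v' hv']
      exact ((key u' v' hv').2.on _).2 ⟨t, ⟨t0, t1⟩, he.symm⟩
    · rw [hnk u v hv]
      exact ((key u v hv).2.on _).2 ⟨s, ⟨s0, s1⟩, rfl⟩

theorem drawing_iff_alg {A : List (List ℕ)} (hA : IsRotGraph A) :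
    (∃ p γ, IsDrawing A p γ) ↔ ∃ p f, Alg A p f :=
  ⟨fun ⟨p, _, h⟩ => ⟨p, alg_of_drawing hA h⟩, fun ⟨p, _, h⟩ => ⟨p, drawing_of_alg hA h⟩⟩

end Pool.Agent.Lib.MP_242159_lc
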