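import Pool.Agent.Lib.MP_242159_lc.Tab

/-!
A checker for the sign of a circle form along an arc, valid for all small parameter values.
-/

set_option autoImplicit false

namespace Pool.Agent.Lib.MP_242159_lc

open Complex Filter Topology

/-- Five real parameters. -/
abbrev Par : Type := ℝ × ℝ × ℝ × ℝ × ℝ

/-- An affine function of the parameters. -/
abbrev Af : Type := ℤ × ℤ × ℤ × ℤ × ℤ × ℤ

/-- A point that depends on the parameters. -/
abbrev Pt : Type := Af × Af

/-- The value of an affine function. -/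
def af (a : Af) (π : Par) : ℝ :=
  a.1 + a.2.1 * π.1 + a.2.2.1 * π.2.1 + a.2.2.2.1 * π.2.2.1 + a.2.2.2.2.1 * π.2.2.2.1 +
    a.2.2.2.2.2 * π.2.2.2.2

/-- The position of a point. -/
noncomputable def pos (p : Pt) (π : Par) : ℂ := hex (af p.1 π) (af p.2 π)

@[fun_prop] theorem af_cont (a : Af) : Continuous (af a) := by unfold af; fun_prop

@[simp] theorem af_zero (a : Af) : af a 0 = a.1 := by simp [af]

/-- A circle or line, anchored at a moving point. -/
structure Form where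
  w : Pt
  a : ℤ
  al : ℤ
  be : ℤ
  c : ℤ

/-- A vertex or a part of an open edge. -/
structure Cell where
  isV : Bool
  cu : ℕ
  cv : ℕ
  u : Pt
  v : Pt
  d : ℕ
  n1 : ℕ
  d1 : ℕ
  n2 : ℕ
  d2 : ℕ

/-- The value of a form in hexagonal coordinates. -/
def Qr (F : Form) (π : Par) (x y : ℝ) : ℝ :=
  F.a * ((x - af F.w.1 π) * (x - af F.w.1 π) + 3 * (y - af F.w.2 π) * (y - af F.w.2 π)) +
    F.al * (x - af F.w.1 π) + F.be * (y - af F.w.2 π) + F.c

/-- The arc parameter, read off at the second end. -/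
noncomputable def Wc (u v : Pt) (d : ℕ) (π : Par) : ℂ :=
  (pos u π - pos v π) * (starRingEnd ℂ) (om d)

/-- The points of a cell. -/
def Mem (c : Cell) (π : Par) (z : ℂ) : Prop :=
  (c.isV = true ∧ z = pos c.u π) ∨ (c.isV = false ∧ ∃ l : ℝ, 0 < l ∧ c.n1 ≤ l * c.d1 ∧
    l * c.d2 ≤ c.n2 ∧ z - pos c.u π = l * Wc c.u c.v c.d π * (pos c.v π - z))

/-- The value of a form at the base position of a point. -/
def q0 (F : Form) (p : Pt) : ℤ :=
  F.a * ((p.1.1 - F.w.1.1) * (p.1.1 - F.w.1.1) + 3 * (p.2.1 - F.w.2.1) * (p.2.1 - F.w.2.1)) +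
    F.al * (p.1.1 - F.w.1.1) + F.be * (p.2.1 - F.w.2.1) + F.c

/-- A linear relation holds for all parameter values. -/
def linZ (al be : ℤ) (p w : Pt) : Bool :=
  decide (al * (p.1.1 - w.1.1) + be * (p.2.1 - w.2.1) = 0) &&
  decide (al * (p.1.2.1 - w.1.2.1) + be * (p.2.2.1 - w.2.2.1) = 0) &&
  decide (al * (p.1.2.2.1 - w.1.2.2.1) + be * (p.2.2.2.1 - w.2.2.2.1) = 0) &&
  decide (al * (p.1.2.2.2.1 - w.1.2.2.2.1) + be * (p.2.2.2.2.1 - w.2.2.2.2.1) = 0) &&
  decide (al * (p.1.2.2.2.2.1 - w.1.2.2.2.2.1) + be * (p.2.2.2.2.2.1 - w.2.2.2.2.2.1) = 0) &&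
  decide (al * (p.1.2.2.2.2.2 - w.1.2.2.2.2.2) + be * (p.2.2.2.2.2.2 - w.2.2.2.2.2.2) = 0)

theorem linZ_sound {al be : ℤ} {p w : Pt} (h : linZ al be p w = true) (π : Par) :
    al * (af p.1 π - af w.1 π) + be * (af p.2 π - af w.2 π) = 0 := by
  simp only [linZ, Bool.and_eq_true, decide_eq_true_eq] at h
  obtain ⟨⟨⟨⟨⟨h0, h1⟩, h2⟩, h3⟩, h4⟩, h5⟩ := h
  have c : ∀ {a b c d : ℤ}, al * (a - b) + be * (c - d) = 0 →
      (al : ℝ) * (a - b) + be * (c - d) = 0 := fun h => by exact_mod_cast h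
  simp only [af]
  linear_combination c h0 + π.1 * c h1 + π.2.1 * c h2 + π.2.2.1 * c h3 + π.2.2.2.1 * c h4 +
    π.2.2.2.2 * c h5

/-- The form vanishes at the point for all parameter values. -/
def ez (F : Form) (p : Pt) : Bool :=
  decide (F.c = 0) && (decide (F.a = 0) || (linZ 1 0 p F.w && linZ 0 1 p F.w)) &&
    linZ F.al F.be p F.w

theorem ez_sound {F : Form} {p : Pt} (h : ez F p = true) (π : Par) :
    Qr F π (af p.1 π) (af p.2 π) = 0 := by
  simp only [ez, Bool.and_eq_true, Bool.or_eq_true, decide_eq_true_eq] at h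
  obtain ⟨⟨h0, h1⟩, h2⟩ := h
  have := linZ_sound h2 π
  rcases h1 with h1 | ⟨h1, h3⟩
  · simp only [Qr, h0, h1]; push_cast; linarith
  · have a1 := linZ_sound h1 π
    have a2 := linZ_sound h3 π
    simp only [Int.cast_one, Int.cast_zero, one_mul, zero_mul, add_zero, zero_add] at a1 a2
    simp [Qr, h0, a1, a2]

@[fun_prop] theorem Qr_cont (F : Form) (p : Pt) :
    Continuous fun π => Qr F π (af p.1 π) (af p.2 π) := by unfold Qr; fun_prop

theorem Qr_zero (F : Form) (p : Pt) : Qr F 0 (af p.1 0) (af p.2 0) = q0 F p := by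
  simp [Qr, q0]

/-- A lower bound for `10 ^ 9 (k₁ cos + k₂ √3 sin)`. -/
def lowB (k1 k2 : ℤ) (d : ℕ) : ℤ :=
  tabC.getD d 0 * k1 + tabS.getD d 0 * k2 - 1000 * (|k1| + |k2|)

theorem lowB_le (k1 k2 : ℤ) {d : ℕ} (hd : d < 72) :
    (lowB k1 k2 d : ℝ) ≤ 10 ^ 9 * ((om d).re * k1 + √3 * (om d).im * k2) := by
  obtain ⟨h1, h2⟩ := tab_bound hd
  have a1 := neg_abs_le ((10 ^ 9 * (om d).re - tabC.getD d 0) * k1)
  have a2 := neg_abs_le ((10 ^ 9 * (√3 * (om d).im) - tabS.getD d 0) * k2)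
  rw [abs_mul] at a1 a2
  have b1 := mul_le_mul_of_nonneg_right h1 (abs_nonneg (k1 : ℝ))
  have b2 := mul_le_mul_of_nonneg_right h2 (abs_nonneg (k2 : ℝ))
  simp only [lowB]; push_cast
  linarith

/-- First coordinate of six times the polar form. -/
def h1z (a al be c ux uy vx vy : ℤ) : ℤ :=
  6 * a * (ux * vx + 3 * uy * vy) + 3 * al * (ux + vx) + 3 * be * (uy + vy) + 6 * c

/-- Second coordinate of six times the polar form. -/
def h2z (a al be ux uy vx vy : ℤ) : ℤ :=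
  6 * a * (ux * vy - uy * vx) + 3 * al * (vy - uy) + be * (ux - vx)

/-- The three coefficient test. -/
def tri (A B C : ℤ) (n1 d1 n2 d2 : ℤ) (zu zv : Bool) : Bool :=
  (decide (0 < A * d1 * d1 + 2 * B * n1 * d1 + C * n1 * n1) || (decide (n1 = 0) && zu)) &&
  (decide (0 < A * d2 * d2 + 2 * B * n2 * d2 + C * n2 * n2) || (decide (d2 = 0) && zv)) &&
  (decide (0 < A * d1 * d2 + B * (n1 * d2 + n2 * d1) + C * n1 * n2) ||
    (decide (0 < A * d1 * d1 + 2 * B * n1 * d1 + C * n1 * n1) &&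
    decide (0 < A * d2 * d2 + 2 * B * n2 * d2 + C * n2 * n2) &&
    decide ((A * d1 * d2 + B * (n1 * d2 + n2 * d1) + C * n1 * n2) *
      (A * d1 * d2 + B * (n1 * d2 + n2 * d1) + C * n1 * n2) <
      (A * d1 * d1 + 2 * B * n1 * d1 + C * n1 * n1) *
      (A * d2 * d2 + 2 * B * n2 * d2 + C * n2 * n2))))

/-- The lower bound of the mixed coefficient. -/
def mixB (F : Form) (dx dy ux uy vx vy : ℤ) (d : ℕ) : ℤ :=
  lowB (dx * h1z F.a F.al F.be F.c ux uy vx vy - 3 * dy * h2z F.a F.al F.be ux uy vx vy)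
    (dx * h2z F.a F.al F.be ux uy vx vy + dy * h1z F.a F.al F.be F.c ux uy vx vy) d

/-- The form is positive on the cell. -/
def Pc (F : Form) (c : Cell) : Bool :=
  cond c.isV (decide (0 < q0 F c.u))
    (decide (c.d < 72) && decide (c.n1 * c.d2 < c.n2 * c.d1) &&
      tri (6000000000 * q0 F c.u)
        (mixB F (c.u.1.1 - c.v.1.1) (c.u.2.1 - c.v.2.1) (c.u.1.1 - F.w.1.1) (c.u.2.1 - F.w.2.1)
          (c.v.1.1 - F.w.1.1) (c.v.2.1 - F.w.2.1) c.d)
        (6000000000 * ((c.u.1.1 - c.v.1.1) * (c.u.1.1 - c.v.1.1) +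
          3 * (c.u.2.1 - c.v.2.1) * (c.u.2.1 - c.v.2.1)) * q0 F c.v)
        c.n1 c.d1 c.n2 c.d2 (ez F c.u) (ez F c.v))

theorem ident {x y ux uy vx vy X Y l a al be c wx wy : ℝ}
    (h1 : x - ux = l * (X * (vx - x) - 3 * Y * (vy - y)))
    (h2 : y - uy = l * (X * (vy - y) + Y * (vx - x))) :
    6 * (a * ((x - wx) * (x - wx) + 3 * (y - wy) * (y - wy)) + al * (x - wx) + be * (y - wy) + c) *
      ((1 + l * X) ^ 2 + 3 * (l * Y) ^ 2) =
    6 * (a * ((ux - wx) * (ux - wx) + 3 * (uy - wy) * (uy - wy)) + al * (ux - wx) +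
      be * (uy - wy) + c) +
    2 * l * (X * (6 * a * ((ux - wx) * (vx - wx) + 3 * (uy - wy) * (vy - wy)) +
      3 * al * ((ux - wx) + (vx - wx)) + 3 * be * ((uy - wy) + (vy - wy)) + 6 * c) -
      3 * Y * (6 * a * ((ux - wx) * (vy - wy) - (uy - wy) * (vx - wx)) +
      3 * al * ((vy - wy) - (uy - wy)) + be * ((ux - wx) - (vx - wx)))) +
    l ^ 2 * (6 * (X ^ 2 + 3 * Y ^ 2) * (a * ((vx - wx) * (vx - wx) + 3 * (vy - wy) * (vy - wy)) +
      al * (vx - wx) + be * (vy - wy) + c)) := by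
  have e1 : ux = x - l * (X * (vx - x) - 3 * Y * (vy - y)) := by linarith
  have e2 : uy = y - l * (X * (vy - y) + Y * (vx - x)) := by linarith
  subst e1 e2
  ring

theorem conj_om (d : ℕ) :
    (starRingEnd ℂ) (om d) = hex (om d).re (-(√3 * (om d).im) / 3) := by
  have := s3_mul
  apply Complex.ext
  · simp
  · simp only [conj_im, hex_im]; linear_combination ((om d).im / 3) * this

theorem om_sq (d : ℕ) : (om d).re ^ 2 + (√3 * (om d).im) ^ 2 / 3 = 1 := by
  have h := rt_normSq 72 d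
  have := s3_mul
  rw [normSq_apply] at h
  simp only [om]
  linear_combination h + ((rt 72 d).im ^ 2 / 3) * this

/-- First hexagonal coordinate of the arc parameter. -/
noncomputable def Wx (u v : Pt) (d : ℕ) (π : Par) : ℝ :=
  (af u.1 π - af v.1 π) * (om d).re + (af u.2 π - af v.2 π) * (√3 * (om d).im)

/-- Second hexagonal coordinate of the arc parameter. -/
noncomputable def Wy (u v : Pt) (d : ℕ) (π : Par) : ℝ :=
  (af u.2 π - af v.2 π) * (om d).re - (af u.1 π - af v.1 π) * (√3 * (om d).im) / 3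

theorem Wc_eq (u v : Pt) (d : ℕ) (π : Par) : Wc u v d π = hex (Wx u v d π) (Wy u v d π) := by
  rw [Wc, conj_om, pos, pos, hex_sub, hex_mul, hex_inj, Wx, Wy]
  constructor <;> ring

theorem arc_eqs {u v : Pt} {d : ℕ} {π : Par} {z : ℂ} {l : ℝ}
    (h : z - pos u π = l * Wc u v d π * (pos v π - z)) :
    z.re - af u.1 π = l * (Wx u v d π * (af v.1 π - z.re) - 3 * Wy u v d π * (af v.2 π - cy z)) ∧
    cy z - af u.2 π = l * (Wx u v d π * (af v.2 π - cy z) + Wy u v d π * (af v.1 π - z.re)) := by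
  rw [← hex_cy z, Wc_eq, pos, pos, hex_sub, hex_sub, mul_assoc, hex_mul, hex_smul, hex_inj] at h
  exact h

/-- The mixed coefficient. -/
noncomputable def Bf (F : Form) (u v : Pt) (d : ℕ) (π : Par) : ℝ :=
  Wx u v d π * (6 * F.a * ((af u.1 π - af F.w.1 π) * (af v.1 π - af F.w.1 π) +
      3 * (af u.2 π - af F.w.2 π) * (af v.2 π - af F.w.2 π)) +
      3 * F.al * ((af u.1 π - af F.w.1 π) + (af v.1 π - af F.w.1 π)) +
      3 * F.be * ((af u.2 π - af F.w.2 π) + (af v.2 π - af F.w.2 π)) + 6 * F.c) -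
    3 * Wy u v d π * (6 * F.a * ((af u.1 π - af F.w.1 π) * (af v.2 π - af F.w.2 π) -
      (af u.2 π - af F.w.2 π) * (af v.1 π - af F.w.1 π)) +
      3 * F.al * ((af v.2 π - af F.w.2 π) - (af u.2 π - af F.w.2 π)) +
      F.be * ((af u.1 π - af F.w.1 π) - (af v.1 π - af F.w.1 π)))

/-- The last coefficient. -/
noncomputable def Cf (F : Form) (u v : Pt) (d : ℕ) (π : Par) : ℝ :=
  6 * (Wx u v d π ^ 2 + 3 * Wy u v d π ^ 2) * Qr F π (af v.1 π) (af v.2 π)

@[fun_prop] theorem Wx_cont (u v : Pt) (d : ℕ) : Continuous (Wx u v d) := by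
  unfold Wx; fun_prop

@[fun_prop] theorem Wy_cont (u v : Pt) (d : ℕ) : Continuous (Wy u v d) := by
  unfold Wy; fun_prop

@[fun_prop] theorem Bf_cont (F : Form) (u v : Pt) (d : ℕ) : Continuous (Bf F u v d) := by
  unfold Bf; fun_prop

@[fun_prop] theorem Cf_cont (F : Form) (u v : Pt) (d : ℕ) : Continuous (Cf F u v d) := by
  unfold Cf; fun_prop

theorem arc_ident (F : Form) {u v : Pt} {d : ℕ} {π : Par} {z : ℂ} {l : ℝ}
    (h : z - pos u π = l * Wc u v d π * (pos v π - z)) :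
    6 * Qr F π z.re (cy z) * ((1 + l * Wx u v d π) ^ 2 + 3 * (l * Wy u v d π) ^ 2) =
      6 * Qr F π (af u.1 π) (af u.2 π) + 2 * l * Bf F u v d π + l ^ 2 * Cf F u v d π :=
  ident (arc_eqs h).1 (arc_eqs h).2

theorem Bf_zero (F : Form) (u v : Pt) {d : ℕ} (hd : d < 72) :
    (mixB F (u.1.1 - v.1.1) (u.2.1 - v.2.1) (u.1.1 - F.w.1.1) (u.2.1 - F.w.2.1)
      (v.1.1 - F.w.1.1) (v.2.1 - F.w.2.1) d : ℝ) ≤ 10 ^ 9 * Bf F u v d 0 := by
  refine (lowB_le _ _ hd).trans (le_of_eq ?_)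
  simp only [Bf, Wx, Wy, af_zero, h1z, h2z]; push_cast; ring

theorem Cf_zero (F : Form) (u v : Pt) (d : ℕ) :
    ((6000000000 * ((u.1.1 - v.1.1) * (u.1.1 - v.1.1) + 3 * (u.2.1 - v.2.1) * (u.2.1 - v.2.1)) *
      q0 F v : ℤ) : ℝ) = 10 ^ 9 * Cf F u v d 0 := by
  have := om_sq d
  rw [Cf, Qr_zero]
  simp only [Wx, Wy, af_zero]; push_cast
  linear_combination (-6000000000 * (((u.1.1 : ℝ) - v.1.1) ^ 2 + 3 * ((u.2.1 : ℝ) - v.2.1) ^ 2) *
    q0 F v) * this

theorem quad_pos {a b c α β : ℝ} (hα : 0 ≤ α) (hβ : 0 ≤ β) (h0 : 0 < α ∨ 0 < β)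
    (h1 : 0 < a ∨ (a = 0 ∧ 0 < β)) (h2 : 0 < c ∨ (c = 0 ∧ 0 < α))
    (h3 : 0 < b ∨ (0 < a ∧ 0 < c ∧ b * b < a * c)) :
    0 < a * α ^ 2 + 2 * b * α * β + c * β ^ 2 := by
  have ha : 0 ≤ a := h1.elim le_of_lt fun h => h.1.ge
  have hc : 0 ≤ c := h2.elim le_of_lt fun h => h.1.ge
  rcases h3 with h3 | ⟨h3, h4, h5⟩
  · rcases hα.eq_or_lt with rfl | hα'
    · have hβ' : 0 < β := by simpa using h0
      have hc' : 0 < c := by simpa using h2
      have : 0 < c * β ^ 2 := by positivity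
      linarith
    · rcases hβ.eq_or_lt with rfl | hβ'
      · have ha' : 0 < a := by simpa using h1
        have : 0 < a * α ^ 2 := by positivity
        linarith
      · positivity
  · have e : a * (a * α ^ 2 + 2 * b * α * β + c * β ^ 2) =
        (a * α + b * β) ^ 2 + (a * c - b * b) * β ^ 2 := by ring
    refine pos_of_mul_pos_right (a := a) ?_ h3.le
    rw [e]
    rcases hβ.eq_or_lt with rfl | hβ'
    · have hα' : 0 < α := by simpa using h0
      have : 0 < (a * α) ^ 2 := by positivity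
      simpa using this
    · have : 0 < (a * c - b * b) * β ^ 2 := mul_pos (by linarith) (by positivity)
      positivity

theorem ev_pos {f : Par → ℝ} (hf : Continuous f) (h : 0 < f 0) : ∀ᶠ π in 𝓝 (0 : Par), 0 < f π :=
  hf.continuousAt.eventually (lt_mem_nhds h)

theorem tri_sound {A B C : ℤ} {n1 d1 n2 d2 : ℕ} {zu zv : Bool} {a b c : Par → ℝ}
    (ha : Continuous a) (hb : Continuous b) (hc : Continuous c) (eA : (A : ℝ) = 10 ^ 9 * a 0)
    (eB : (B : ℝ) ≤ 10 ^ 9 * b 0) (eC : (C : ℝ) = 10 ^ 9 * c 0)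
    (hu : zu = true → ∀ π, a π = 0) (hv : zv = true → ∀ π, c π = 0)
    (hr : n1 * d2 < n2 * d1) (h : tri A B C n1 d1 n2 d2 zu zv = true) :
    ∀ᶠ π in 𝓝 (0 : Par), ∀ l : ℝ, 0 < l → n1 ≤ l * d1 → l * d2 ≤ n2 →
      0 < a π + 2 * l * b π + l ^ 2 * c π := by
  simp only [tri, Bool.and_eq_true, Bool.or_eq_true, decide_eq_true_eq] at h
  obtain ⟨⟨h1, h2⟩, h3⟩ := h
  let a1 : Par → ℝ := fun π => a π * d1 * d1 + 2 * b π * n1 * d1 + c π * n1 * n1
  let c1 : Par → ℝ := fun π => a π * d2 * d2 + 2 * b π * n2 * d2 + c π * n2 * n2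
  let b1 : Par → ℝ := fun π => a π * d1 * d2 + b π * (n1 * d2 + n2 * d1) + c π * n1 * n2
  have ca : Continuous a1 := by fun_prop
  have cb : Continuous b1 := by fun_prop
  have cc : Continuous c1 := by fun_prop
  have la : ((A * d1 * d1 + 2 * B * n1 * d1 + C * n1 * n1 : ℤ) : ℝ) ≤ 10 ^ 9 * a1 0 := by
    have := mul_le_mul_of_nonneg_right eB (by positivity : (0 : ℝ) ≤ n1 * d1)
    simp only [a1]; push_cast; rw [eA, eC]; linarith
  have lc : ((A * d2 * d2 + 2 * B * n2 * d2 + C * n2 * n2 : ℤ) : ℝ) ≤ 10 ^ 9 * c1 0 := by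
    have := mul_le_mul_of_nonneg_right eB (by positivity : (0 : ℝ) ≤ n2 * d2)
    simp only [c1]; push_cast; rw [eA, eC]; linarith
  have lb : ((A * d1 * d2 + B * (n1 * d2 + n2 * d1) + C * n1 * n2 : ℤ) : ℝ) ≤ 10 ^ 9 * b1 0 := by
    have := mul_le_mul_of_nonneg_right eB (by positivity : (0 : ℝ) ≤ n1 * d2 + n2 * d1)
    simp only [b1]; push_cast; rw [eA, eC]; linarith
  have cast : ∀ {x : ℤ} {y : ℝ}, 0 < x → (x : ℝ) ≤ 10 ^ 9 * y → 0 < y := fun h h' => by
    have : (0 : ℝ) < _ := Int.cast_pos.2 h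
    nlinarith
  have hr' : (n1 : ℝ) * d2 < n2 * d1 := by exact_mod_cast hr
  have e1 : ∀ᶠ π in 𝓝 (0 : Par), 0 < a1 π ∨ (a1 π = 0 ∧ n1 = 0) := by
    rcases h1 with h1 | ⟨h1, h1'⟩
    · exact (ev_pos ca (cast h1 la)).mono fun π h => Or.inl h
    · have : n1 = 0 := by exact_mod_cast h1
      exact Eventually.of_forall fun π => Or.inr ⟨by simp [a1, this, hu h1' π], this⟩
  have e2 : ∀ᶠ π in 𝓝 (0 : Par), 0 < c1 π ∨ (c1 π = 0 ∧ d2 = 0) := by
    rcases h2 with h2 | ⟨h2, h2'⟩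
    · exact (ev_pos cc (cast h2 lc)).mono fun π h => Or.inl h
    · have : d2 = 0 := by exact_mod_cast h2
      exact Eventually.of_forall fun π => Or.inr ⟨by simp [c1, this, hv h2' π], this⟩
  have e3 : ∀ᶠ π in 𝓝 (0 : Par), 0 < b1 π ∨ (0 < a1 π ∧ 0 < c1 π ∧ b1 π * b1 π < a1 π * c1 π) := by
    rcases lt_or_ge 0 (b1 0) with h0 | h0
    · exact (ev_pos cb h0).mono fun π h => Or.inl h
    rcases h3 with h3 | ⟨⟨h3, h4⟩, h5⟩
    · exact absurd (cast h3 lb) h0.not_gt
    · have h6 : 0 < a1 0 * c1 0 - b1 0 * b1 0 := by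
        have g3 : (0 : ℝ) < _ := Int.cast_pos.2 h3
        have g4 : (0 : ℝ) < _ := Int.cast_pos.2 h4
        have g5 := (Int.cast_lt (R := ℝ)).2 h5
        rw [Int.cast_mul, Int.cast_mul] at g5
        have g6 := mul_le_mul la lc g4.le (g3.le.trans la)
        nlinarith
      filter_upwards [ev_pos ca (cast h3 la), ev_pos cc (cast h4 lc),
        ev_pos (f := fun π => a1 π * c1 π - b1 π * b1 π) (by fun_prop) h6] with π p1 p2 p3
      exact Or.inr ⟨p1, p2, by linarith⟩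
  filter_upwards [e1, e2, e3] with π p1 p2 p3 l hl l1 l2
  have hd1 : (0 : ℝ) < d1 := by
    rcases Nat.eq_zero_or_pos d1 with h | h
    · simp [h] at hr
    · exact_mod_cast h
  have hn2 : (0 : ℝ) < n2 := by
    rcases Nat.eq_zero_or_pos n2 with h | h
    · simp [h] at hr
    · exact_mod_cast h
  have key := quad_pos (a := a1 π) (b := b1 π) (c := c1 π) (α := n2 - l * d2) (β := l * d1 - n1)
    (by linarith) (by linarith) (by
      by_contra hc
      push Not at hc
      have f1 : (n2 : ℝ) = l * d2 := by linarith [hc.1]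
      have f2 : (n1 : ℝ) = l * d1 := by linarith [hc.2]
      rw [f1, f2] at hr'
      linarith)
    (p1.imp_right fun h => ⟨h.1, by simp [h.2]; positivity⟩)
    (p2.imp_right fun h => ⟨h.1, by simpa [h.2] using hn2⟩) p3
  have e : a1 π * (n2 - l * d2) ^ 2 + 2 * b1 π * (n2 - l * d2) * (l * d1 - n1) +
      c1 π * (l * d1 - n1) ^ 2 =
      (n2 * d1 - n1 * d2) ^ 2 * (a π + 2 * l * b π + l ^ 2 * c π) := by
    simp only [a1, b1, c1]; ring
  rw [e] at key
  exact pos_of_mul_pos_right key (sq_nonneg _)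

theorem q0_pos {F : Form} {p : Pt} (h : 0 < q0 F p) :
    ∀ᶠ π in 𝓝 (0 : Par), 0 < Qr F π (af p.1 π) (af p.2 π) :=
  ev_pos (Qr_cont F p) (by rw [Qr_zero]; exact_mod_cast h)

theorem Pc_sound {F : Form} {c : Cell} (h : Pc F c = true) :
    ∀ᶠ π in 𝓝 (0 : Par), ∀ z, Mem c π z → 0 < Qr F π z.re (cy z) := by
  cases hV : c.isV
  · simp only [Pc, hV, cond_false, Bool.and_eq_true, decide_eq_true_eq] at h
    obtain ⟨⟨h1, h2⟩, h3⟩ := h
    have := tri_sound (a := fun π => 6 * Qr F π (af c.u.1 π) (af c.u.2 π))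
      (b := Bf F c.u c.v c.d) (c := Cf F c.u c.v c.d) (by fun_prop) (by fun_prop) (by fun_prop)
      (by simp only [Qr_zero]; push_cast; ring) (Bf_zero F c.u c.v h1) (Cf_zero F c.u c.v c.d)
      (fun h π => by simp [ez_sound h π]) (fun h π => by simp [Cf, ez_sound h π]) h2 h3
    filter_upwards [this] with π hπ z hz
    rcases hz with ⟨h, -⟩ | ⟨-, l, hl, l1, l2, hz⟩
    · simp [hV] at h
    have := hπ l hl l1 l2
    rw [← arc_ident F hz] at this
    have := pos_of_mul_pos_left this (by positivity)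
    linarith
  · simp only [Pc, hV, cond_true, decide_eq_true_eq] at h
    filter_upwards [q0_pos h] with π hπ z hz
    rcases hz with ⟨-, rfl⟩ | ⟨h, -⟩
    · simpa [pos] using hπ
    · simp [hV] at h

/-- The edge is a straight segment for all small parameter values. -/
def strOK (u v : Pt) (d : ℕ) : Bool :=
  decide (d % 6 = 0) && linZ (dvec d).2 (-(dvec d).1) u v &&
    decide (0 < (dvec d).1 * (u.1.1 - v.1.1) + (dvec d).2 * (u.2.1 - v.2.1))

theorem dvec_ne (d : ℕ) : 0 < (dvec d).1 * (dvec d).1 + (dvec d).2 * (dvec d).2 := by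
  have : ∀ j < 12, 0 < (dvs.getD j (1, 0)).1 * (dvs.getD j (1, 0)).1 +
      (dvs.getD j (1, 0)).2 * (dvs.getD j (1, 0)).2 := by decide
  exact this _ (by omega)

theorem par_of_lin {d : ℕ} (hd : d % 6 = 0) {x y : ℝ} (h : (dvec d).2 * x = (dvec d).1 * y) :
    ∃ r : ℝ, hex x y = r * om d ∧ (0 < (dvec d).1 * x + (dvec d).2 * y → 0 < r) := by
  obtain ⟨c, hc, e⟩ := om_dvec hd
  have h0 : (0 : ℝ) < (dvec d).1 * (dvec d).1 + (dvec d).2 * (dvec d).2 := by
    exact_mod_cast dvec_ne d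
  refine ⟨((dvec d).1 * x + (dvec d).2 * y) /
    ((dvec d).1 * (dvec d).1 + (dvec d).2 * (dvec d).2) / c, ?_, fun h => by positivity⟩
  rw [e, hex_smul, hex_smul, hex_inj, ← mul_assoc, ← mul_assoc, div_mul_cancel₀ _ hc.ne',
    div_mul_eq_mul_div, div_mul_eq_mul_div, eq_div_iff h0.ne', eq_div_iff h0.ne']
  constructor
  · linear_combination (dvec d).2 * h
  · linear_combination (-(dvec d).1) * h

theorem strOK_sound {u v : Pt} {d : ℕ} (h : strOK u v d = true) :
    ∀ᶠ π in 𝓝 (0 : Par), 0 < Wx u v d π ∧ Wy u v d π = 0 := by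
  simp only [strOK, Bool.and_eq_true, decide_eq_true_eq] at h
  obtain ⟨⟨h1, h2⟩, h3⟩ := h
  filter_upwards [ev_pos (f := fun π => (dvec d).1 * (af u.1 π - af v.1 π) +
    (dvec d).2 * (af u.2 π - af v.2 π)) (by fun_prop)
    (by simp only [af_zero]; exact_mod_cast h3)] with π hπ
  have h4 := linZ_sound h2 π
  obtain ⟨r, hr, hr'⟩ := par_of_lin h1 (x := af u.1 π - af v.1 π) (y := af u.2 π - af v.2 π)
    (by push_cast at h4; linarith)
  have e : Wc u v d π = hex r 0 := by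
    rw [Wc, pos, pos, hex_sub, hr, mul_assoc, om, rt_conj]
    apply Complex.ext <;> simp
  rw [Wc_eq, hex_inj] at e
  exact ⟨e.1 ▸ hr' hπ, e.2⟩

/-- The form is positive or identically zero at the point. -/
def nn (F : Form) (p : Pt) : Bool := decide (0 < q0 F p) || ez F p

theorem nn_sound {F : Form} {p : Pt} (h : nn F p = true) :
    ∀ᶠ π in 𝓝 (0 : Par), 0 ≤ Qr F π (af p.1 π) (af p.2 π) := by
  simp only [nn, Bool.or_eq_true, decide_eq_true_eq] at h
  rcases h with h | h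
  · exact (q0_pos h).mono fun π h => h.le
  · exact Eventually.of_forall fun π => (ez_sound h π).ge

/-- The form is nonnegative on the cell. -/
def Nc (F : Form) (c : Cell) : Bool :=
  cond c.isV (nn F c.u)
    ((decide (F.a = 0) && nn F c.u && nn F c.v && strOK c.u c.v c.d) || Pc F c)

theorem Nc_sound {F : Form} {c : Cell} (h : Nc F c = true) :
    ∀ᶠ π in 𝓝 (0 : Par), ∀ z, Mem c π z → 0 ≤ Qr F π z.re (cy z) := by
  cases hV : c.isV
  · simp only [Nc, hV, cond_false, Bool.or_eq_true, Bool.and_eq_true, decide_eq_true_eq] at h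
    rcases h with ⟨⟨⟨h1, h2⟩, h3⟩, h4⟩ | h
    · filter_upwards [nn_sound h2, nn_sound h3, strOK_sound h4] with π p1 p2 p3 z hz
      rcases hz with ⟨h, -⟩ | ⟨-, l, hl, -, -, hz⟩
      · simp [hV] at h
      obtain ⟨e1, e2⟩ := arc_eqs hz
      rw [p3.2] at e1 e2
      have hp := mul_pos hl p3.1
      have e : Qr F π z.re (cy z) * (1 + l * Wx c.u c.v c.d π) =
          Qr F π (af c.u.1 π) (af c.u.2 π) +
            l * Wx c.u c.v c.d π * Qr F π (af c.v.1 π) (af c.v.2 π) := by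
        simp only [Qr, h1]; push_cast
        linear_combination F.al * e1 + F.be * e2
      have : 0 ≤ Qr F π z.re (cy z) * (1 + l * Wx c.u c.v c.d π) := by rw [e]; positivity
      exact nonneg_of_mul_nonneg_left this (by linarith)
    · exact (Pc_sound h).mono fun π h z hz => (h z hz).le
  · simp only [Nc, hV, cond_true] at h
    filter_upwards [nn_sound h] with π hπ z hz
    rcases hz with ⟨-, rfl⟩ | ⟨h, -⟩
    · simpa [pos] using hπ
    · simp [hV] at h

/-- The opposite form. -/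
def Form.neg (F : Form) : Form := ⟨F.w, -F.a, -F.al, -F.be, -F.c⟩

theorem Qr_neg (F : Form) (π : Par) (x y : ℝ) : Qr F.neg π x y = -Qr F π x y := by
  simp only [Qr, Form.neg]; push_cast; ring

/-- A space partition tree. -/
inductive Tr : Type
  | leaf : Tr
  | node : Form → Tr → Tr → Tr
  | split : ℕ → ℕ → ℕ → ℕ → Tr → Tr

/-- Cut the cells with the given ends at a parameter value. -/
def cut (a b n d : ℕ) (c : Cell) : List Cell :=
  cond (decide (c.cu = a) && decide (c.cv = b)) [{ c with n2 := n, d2 := d }, { c with n1 := n, d1 := d }] [c]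

/-- All cells have the same ends. -/
def same : List Cell → Bool
  | [] => true
  | c :: cs => cs.all fun e => decide (e.cu = c.cu) && decide (e.cv = c.cv)

/-- The tree separates the cells. -/
def check : Tr → List Cell → Bool
  | .leaf, cs => same cs
  | .node F l r, cs =>
    check l (cs.filter fun c => !Nc F.neg c) && check r (cs.filter fun c => !Pc F c)
  | .split a b n d t, cs => check t (cs.flatMap (cut a b n d))

theorem ev_list {α : Type} {p : α → Par → Prop} (l : List α)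
    (h : ∀ a ∈ l, ∀ᶠ π in 𝓝 (0 : Par), p a π) : ∀ᶠ π in 𝓝 (0 : Par), ∀ a ∈ l, p a π := by
  induction l with
  | nil => simp
  | cons a l ih =>
    filter_upwards [h a List.mem_cons_self, ih fun b hb => h b (List.mem_cons_of_mem _ hb)]
      with π h1 h2
    simpa using ⟨h1, h2⟩

theorem cut_mem (a b n d : ℕ) {c : Cell} {π : Par} {z : ℂ} (h : Mem c π z) :
    ∃ e ∈ cut a b n d c, Mem e π z ∧ e.cu = c.cu ∧ e.cv = c.cv := by
  unfold cut
  cases (decide (c.cu = a) && decide (c.cv = b))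
  · exact ⟨c, by simp, h, rfl, rfl⟩
  rcases h with h | ⟨h, l, hl, l1, l2, hz⟩
  · exact ⟨{ c with n2 := n, d2 := d }, by simp, Or.inl h, rfl, rfl⟩
  rcases le_total (l * d) n with h' | h'
  · exact ⟨{ c with n2 := n, d2 := d }, by simp, Or.inr ⟨h, l, hl, l1, h', hz⟩, rfl, rfl⟩
  · exact ⟨{ c with n1 := n, d1 := d }, by simp, Or.inr ⟨h, l, hl, h', l2, hz⟩, rfl, rfl⟩

theorem check_sound (t : Tr) : ∀ cs : List Cell, check t cs = true →
    ∀ᶠ π in 𝓝 (0 : Par), ∀ c ∈ cs, ∀ e ∈ cs, ∀ z, Mem c π z → Mem e π z →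
      c.cu = e.cu ∧ c.cv = e.cv := by
  induction t with
  | leaf =>
    intro cs h
    refine Eventually.of_forall fun π c hc e he z _ _ => ?_
    cases cs with
    | nil => simp at hc
    | cons a cs =>
      simp only [check, same, List.all_eq_true, Bool.and_eq_true, decide_eq_true_eq] at h
      have : ∀ x ∈ a :: cs, x.cu = a.cu ∧ x.cv = a.cv := by simpa using h
      exact ⟨(this c hc).1.trans (this e he).1.symm, (this c hc).2.trans (this e he).2.symm⟩
  | node F l r ihl ihr =>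
    intro cs h
    simp only [check, Bool.and_eq_true] at h
    have hp := ev_list (p := fun c π => Pc F c = true → ∀ z, Mem c π z → 0 < Qr F π z.re (cy z))
      cs fun c _ => by
        by_cases h : Pc F c = true
        · exact (Pc_sound h).mono fun π h _ => h
        · simp [h]
    have hn := ev_list (p := fun c π => Nc F.neg c = true → ∀ z, Mem c π z →
      0 ≤ Qr F.neg π z.re (cy z)) cs fun c _ => by
        by_cases h : Nc F.neg c = true
        · exact (Nc_sound h).mono fun π h _ => h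
        · simp [h]
    filter_upwards [ihl _ h.1, ihr _ h.2, hp, hn] with π p1 p2 p3 p4 c hc e he z hz hz'
    rcases lt_or_ge 0 (Qr F π z.re (cy z)) with h0 | h0
    · have : ∀ x ∈ cs, Mem x π z → x ∈ cs.filter fun c => !Nc F.neg c := fun x hx hm => by
        rw [List.mem_filter, Bool.not_eq_true', ← Bool.not_eq_true]
        refine ⟨hx, fun h => ?_⟩
        have := p4 x hx h z hm
        rw [Qr_neg] at this; linarith
      exact p1 c (this c hc hz) e (this e he hz') z hz hz'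
    · have : ∀ x ∈ cs, Mem x π z → x ∈ cs.filter fun c => !Pc F c := fun x hx hm => by
        rw [List.mem_filter, Bool.not_eq_true', ← Bool.not_eq_true]
        exact ⟨hx, fun h => (p3 x hx h z hm).not_ge h0⟩
      exact p2 c (this c hc hz) e (this e he hz') z hz hz'
  | split a b n d t ih =>
    intro cs h
    filter_upwards [ih _ h] with π p c hc e he z hz hz'
    obtain ⟨c', c1, c2, c3, c4⟩ := cut_mem a b n d hz
    obtain ⟨e', e1, e2, e3, e4⟩ := cut_mem a b n d hz'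
    have := p c' (List.mem_flatMap.2 ⟨c, hc, c1⟩) e' (List.mem_flatMap.2 ⟨e, he, e1⟩) z c2 e2
    exact ⟨c3 ▸ e3 ▸ this.1, c4 ▸ e4 ▸ this.2⟩

end Pool.Agent.Lib.MP_242159_lc
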