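import Pool.Agent.Lib.MP_242159_lc.Chk

/-!
The tiles: vertices, edges and separation certificates. Lengths are scaled by 1032.
-/

set_option autoImplicit false

namespace Pool.Agent.Lib.MP_242159_lc

/-- The origin. -/
def p0 : Pt := ((0, 0, 0, 0, 0, 0), (0, 0, 0, 0, 0, 0))

/-- A point. -/
def p1 : Pt := ((0, 0, 0, 0, 0, 0), (0, 0, 1032, 0, 0, 0))

/-- A point. -/
def p2 : Pt := ((0, 0, 0, 0, 0, 0), (3096, 0, 1032, 0, 0, 0))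

/-- A point. -/
def p3 : Pt := ((0, 0, 0, 0, 0, 0), (4386, 0, 1032, 0, 0, 0))

/-- A point. -/
def p4 : Pt := ((0, 0, 0, 0, 0, 0), (6192, 1032, 0, 0, 0, 0))

/-- A point. -/
def p5 : Pt := ((0, 0, 0, 0, 0, 0), (7740, 1032, 0, 0, 0, 0))

/-- A point. -/
def p6 : Pt := ((0, 0, 0, 0, 0, 0), (8772, 1032, 0, 0, 0, 0))

/-- A point. -/
def p7 : Pt := ((3096, 0, 0, 0, 0, 0), (0, 0, 1032, 0, 0, 0))

/-- A point. -/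
def p8 : Pt := ((3096, 0, 0, 0, 0, 0), (2064, 0, 0, 0, 0, 0))

/-- A point. -/
def p9 : Pt := ((3096, 0, 0, 0, 0, 0), (4128, 0, 0, 0, 0, 0))

/-- A point. -/
def p10 : Pt := ((3096, 0, 0, 0, 0, 0), (6192, 0, 0, 0, 0, 0))

/-- A point. -/
def p11 : Pt := ((3096, 0, 0, 0, 0, 0), (8256, 0, 0, 0, 0, 0))

/-- A point. -/
def p12 : Pt := ((3096, 0, 0, 0, 0, 0), (10320, 0, 0, 0, 0, 0))

/-- A point. -/
def p13 : Pt := ((3096, 0, 0, 0, 0, 0), (2064, 0, 1032, 0, 0, 0))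

/-- A point. -/
def p14 : Pt := ((3870, 0, 0, 0, 0, 0), (4386, 0, 1032, 0, 0, 0))

/-- A point. -/
def p15 : Pt := ((1032, 0, 0, 0, 0, 0), (4386, 0, 1032, 0, 0, 0))

/-- A point. -/
def p16 : Pt := ((3096, 0, 0, 0, 0, 0), (4386, 0, 1032, 0, 0, 0))

/-- A point. -/
def p17 : Pt := ((3096, 0, 0, 0, 0, 0), (4128, 0, 1032, 0, 0, 0))

/-- A point. -/
def p18 : Pt := ((3096, 0, 0, 0, 0, 0), (8256, 0, 1032, 0, 0, 0))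

/-- A point. -/
def p19 : Pt := ((3096, 0, 0, 0, 0, 0), (9288, 1032, 0, 0, 0, 0))

/-- A point. -/
def p20 : Pt := ((3096, 0, 0, 0, 0, 0), (-1032, 0, 1032, 0, 0, 0))

/-- A point. -/
def p21 : Pt := ((3096, 0, 0, 0, 0, 0), (1032, 0, 0, 0, 0, 0))

/-- A point. -/
def p22 : Pt := ((3096, 0, 0, 0, 0, 0), (3096, 0, 0, 0, 0, 0))

/-- A point. -/
def p23 : Pt := ((3096, 0, 0, 0, 0, 0), (5160, 0, 0, 0, 0, 0))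

/-- A point. -/
def p24 : Pt := ((3096, 0, 0, 0, 0, 0), (7224, 0, 0, 0, 0, 0))

/-- A point. -/
def p25 : Pt := ((3096, 0, 0, 0, 0, 0), (9288, 0, 0, 0, 0, 0))

/-- A point. -/
def p26 : Pt := ((6192, 0, 0, 0, 0, 0), (-1032, 0, 1032, 0, 0, 0))

/-- A point. -/
def p27 : Pt := ((6192, 0, 0, 0, 0, 0), (2064, 0, 1032, 0, 0, 0))

/-- A point. -/
def p28 : Pt := ((6192, 0, 0, 0, 0, 0), (3612, 0, 1032, 0, 0, 0))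

/-- A point. -/
def p29 : Pt := ((6192, 0, 0, 0, 0, 0), (5160, 0, 1032, 0, 0, 0))

/-- A point. -/
def p30 : Pt := ((6192, 0, 0, 0, 0, 0), (5934, 0, 1032, 0, 0, 0))

/-- A point. -/
def p31 : Pt := ((6192, 0, 0, 0, 0, 0), (8256, 0, 1032, 0, 0, 0))

/-- A point. -/
def p32 : Pt := ((0, 0, 0, 0, 0, 0), (12384, 1032, 0, 0, 0, 0))

/-- A point. -/
def p33 : Pt := ((3096, 0, 0, 0, 0, 0), (12384, 1032, 0, 0, 0, 0))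

/-- A point. -/
def p34 : Pt := ((3096, 0, 0, 0, 0, 0), (11352, 0, 1032, 0, 0, 0))

/-- A point. -/
def p35 : Pt := ((6192, 0, 0, 0, 0, 0), (11352, 0, 1032, 0, 0, 0))

/-- A point. -/
def p36 : Pt := ((0, 0, 0, 0, 0, 0), (0, 516, 516, 0, 0, 0))

/-- A point. -/
def p37 : Pt := ((0, 0, 0, 0, 0, 0), (3096, 516, 516, 0, 0, 0))

/-- A point. -/
def p38 : Pt := ((0, 0, 0, 0, 0, 0), (4644, 1032, 0, 0, 0, 0))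

/-- A point. -/
def p39 : Pt := ((3096, 0, 0, 0, 0, 0), (0, 516, 516, 0, 0, 0))

/-- A point. -/
def p40 : Pt := ((3096, 0, 0, 0, 0, 0), (2064, 516, 516, 0, 0, 0))

/-- A point. -/
def p41 : Pt := ((4644, 774, -774, 0, 0, 0), (4644, 774, 258, 0, 0, 0))

/-- A point. -/
def p42 : Pt := ((2322, 0, 0, 0, 0, 0), (5418, 1032, 0, 0, 0, 0))

/-- A point. -/
def p43 : Pt := ((5418, 1032, -1032, 0, 0, 0), (5418, 1032, 0, 0, 0, 0))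

/-- A point. -/
def p44 : Pt := ((5160, 0, 0, 0, 0, 0), (5418, 1032, 0, 0, 0, 0))

/-- A point. -/
def p45 : Pt := ((3096, 0, 0, 0, 0, 0), (5418, 1032, 0, 0, 0, 0))

/-- A point. -/
def p46 : Pt := ((3096, 0, 0, 0, 0, 0), (5160, 1032, 0, 0, 0, 0))

/-- A point. -/
def p47 : Pt := ((3096, 0, 0, 0, 0, 0), (6192, 1032, 0, 0, 0, 0))

/-- A point. -/
def p48 : Pt := ((3096, 0, 0, 0, 0, 0), (7224, 0, 1032, 0, 0, 0))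

/-- A point. -/
def p49 : Pt := ((3096, 0, 0, 0, 0, 0), (-1032, 516, 516, 0, 0, 0))

/-- A point. -/
def p50 : Pt := ((6192, 0, 0, 0, 0, 0), (-1032, 516, 516, 0, 0, 0))

/-- A point. -/
def p51 : Pt := ((6192, 0, 0, 0, 0, 0), (2064, 516, 516, 0, 0, 0))

/-- A point. -/
def p52 : Pt := ((6192, 0, 0, 0, 0, 0), (3612, 516, 516, 0, 0, 0))

/-- A point. -/
def p53 : Pt := ((6192, 0, 0, 0, 0, 0), (5160, 516, 516, 0, 0, 0))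

/-- A point. -/
def p54 : Pt := ((6192, 0, 0, 0, 0, 0), (6192, 0, 1032, 0, 0, 0))

/-- A point. -/
def p55 : Pt := ((0, 0, 0, 0, 0, 0), (0, -1032, 2064, 0, 0, 0))

/-- A point. -/
def p56 : Pt := ((0, 0, 0, 0, 0, 0), (3096, -1032, 2064, 0, 0, 0))

/-- A point. -/
def p57 : Pt := ((0, 0, 0, 0, 0, 0), (4644, -1032, 2064, 0, 0, 0))

/-- A point. -/
def p58 : Pt := ((3096, 0, 0, 0, 0, 0), (0, -1032, 2064, 0, 0, 0))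

/-- A point. -/
def p59 : Pt := ((3096, 0, 0, 0, 0, 0), (2064, -1032, 2064, 0, 0, 0))

/-- A point. -/
def p60 : Pt := ((4644, 0, 0, 0, 0, 0), (4644, -1032, 2064, 0, 0, 0))

/-- A point. -/
def p61 : Pt := ((1032, 0, 0, 0, 0, 0), (4644, -1032, 2064, 0, 0, 0))

/-- A point. -/
def p62 : Pt := ((4128, -1032, 1032, 0, 0, 0), (4644, -1032, 2064, 0, 0, 0))

/-- A point. -/
def p63 : Pt := ((4128, -1032, 1032, 0, 0, 0), (4472, -1376, 2408, 0, 0, 0))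

/-- A point. -/
def p64 : Pt := ((4128, -1032, 1032, 0, 0, 0), (5418, -1032, 2064, 0, 0, 0))

/-- A point. -/
def p65 : Pt := ((4128, -1032, 1032, 0, 0, 0), (6192, 1032, 0, 0, 0, 0))

/-- A point. -/
def p66 : Pt := ((4128, -1032, 1032, 0, 0, 0), (7224, 0, 1032, 0, 0, 0))

/-- A point. -/
def p67 : Pt := ((3096, 0, 0, 0, 0, 0), (7740, 1032, 0, 0, 0, 0))

/-- A point. -/
def p68 : Pt := ((3096, 0, 0, 0, 0, 0), (-1032, -1032, 2064, 0, 0, 0))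

/-- A point. -/
def p69 : Pt := ((6192, 0, 0, 0, 0, 0), (-1032, -1032, 2064, 0, 0, 0))

/-- A point. -/
def p70 : Pt := ((6192, 0, 0, 0, 0, 0), (2064, -1032, 2064, 0, 0, 0))

/-- A point. -/
def p71 : Pt := ((6192, 0, 0, 0, 0, 0), (3612, -1032, 2064, 0, 0, 0))

/-- A point. -/
def p72 : Pt := ((6192, 0, 0, 0, 0, 0), (5160, -1032, 2064, 0, 0, 0))

/-- A point. -/
def p73 : Pt := ((6192, 0, 0, 0, 0, 0), (5934, -1032, 2064, 0, 0, 0))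

/-- A point. -/
def p74 : Pt := ((6192, 0, 0, 0, 0, 0), (7224, 0, 1032, 0, 0, 0))

/-- A point. -/
def p75 : Pt := ((0, 0, 0, 0, 0, 0), (0, 0, 1032, 1032, 0, 0))

/-- A point. -/
def p76 : Pt := ((0, 0, 0, 0, 0, 0), (3096, 0, 1032, 1032, 0, 0))

/-- A point. -/
def p77 : Pt := ((0, 0, 0, 0, 0, 0), (4988, 0, 1032, 1032, 0, 0))

/-- A point. -/
def p78 : Pt := ((0, 0, 0, 0, 0, 0), (6192, 0, 1032, 0, 0, 0))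

/-- A point. -/
def p79 : Pt := ((0, 0, 0, 0, 0, 0), (7482, 1032, 0, 0, 0, 0))

/-- A point. -/
def p80 : Pt := ((0, 0, 0, 0, 0, 0), (8256, 1032, 0, 0, 0, 0))

/-- A point. -/
def p81 : Pt := ((3096, 0, 0, 0, 0, 0), (0, 0, 1032, 1032, 0, 0))

/-- A point. -/
def p82 : Pt := ((3096, 0, 0, 0, 0, 0), (2064, 0, 1032, 1032, 0, 0))

/-- A point. -/
def p83 : Pt := ((5676, 0, 0, 0, 0, 0), (4988, 0, 1032, 1032, 0, 0))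

/-- A point. -/
def p84 : Pt := ((1032, 0, 0, 0, 0, 0), (4988, 0, 1032, 1032, 0, 0))

/-- A point. -/
def p85 : Pt := ((5160, 0, 0, 1032, 0, 0), (4988, 0, 1032, 1032, 0, 0))

/-- A point. -/
def p86 : Pt := ((5160, 0, 0, 1032, 0, 0), (4816, 0, 1032, 1376, 0, 0))

/-- A point. -/
def p87 : Pt := ((5160, 0, 0, 1032, 0, 0), (5504, 0, 1032, 1032, 0, 0))

/-- A point. -/
def p88 : Pt := ((5160, 0, 0, 1032, 0, 0), (6192, 0, 1032, 0, 0, 0))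

/-- A point. -/
def p89 : Pt := ((3870, 3096, -3096, 0, 0, 0), (6192, 0, 1032, 0, 0, 0))

/-- A point. -/
def p90 : Pt := ((516, 0, 0, 0, 0, 0), (7310, 1032, 0, 0, 0, 0))

/-- A point. -/
def p91 : Pt := ((3096, 0, 0, 0, 0, 0), (6450, 1032, 0, 0, 0, 0))

/-- A point. -/
def p92 : Pt := ((3096, 0, 0, 0, 0, 0), (6192, 0, 1032, 0, 0, 0))

/-- A point. -/
def p93 : Pt := ((3096, 0, 0, 0, 0, 0), (7482, 1032, 0, 0, 0, 0))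

/-- A point. -/
def p94 : Pt := ((3096, 0, 0, 0, 0, 0), (7869, 0, 1032, 0, 0, 0))

/-- A point. -/
def p95 : Pt := ((3096, 0, 0, 0, 0, 0), (8256, 1032, 0, 0, 0, 0))

/-- A point. -/
def p96 : Pt := ((3096, 0, 0, 0, 0, 0), (8772, 0, 1032, 0, 0, 0))

/-- A point. -/
def p97 : Pt := ((774, 0, 0, 0, 0, 0), (7482, 1032, 0, 0, 0, 0))

/-- A point. -/
def p98 : Pt := ((4680, 0, 0, 0, 1032, 0), (5832, 0, 0, 0, 0, 1032))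

/-- A point. -/
def p99 : Pt := ((3096, 0, 0, 0, 0, 0), (-1032, 0, 1032, 1032, 0, 0))

/-- A point. -/
def p100 : Pt := ((6192, 0, 0, 0, 0, 0), (-1032, 0, 1032, 1032, 0, 0))

/-- A point. -/
def p101 : Pt := ((6192, 0, 0, 0, 0, 0), (2064, 0, 1032, 1032, 0, 0))

/-- A point. -/
def p102 : Pt := ((6192, 0, 0, 0, 0, 0), (3612, 0, 1032, 1032, 0, 0))

/-- A point. -/
def p103 : Pt := ((6192, 0, 0, 0, 0, 0), (5160, 0, 1032, 1032, 0, 0))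

/-- A point. -/
def p104 : Pt := ((0, 0, 0, 0, 0, 0), (0, 1032, 0, 0, 0, 0))

/-- A point. -/
def p105 : Pt := ((0, 0, 0, 0, 0, 0), (3096, 1032, 0, 0, 0, 0))

/-- A point. -/
def p106 : Pt := ((3096, 0, 0, 0, 0, 0), (0, 1032, 0, 0, 0, 0))

/-- A point. -/
def p107 : Pt := ((3096, 0, 0, 0, 0, 0), (3096, 1032, 0, 0, 0, 0))

/-- A point. -/
def p108 : Pt := ((3096, 0, 0, 0, 0, 0), (4644, 1032, 0, 0, 0, 0))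

/-- A point. -/
def p109 : Pt := ((3096, 0, 0, 0, 0, 0), (6966, 1032, 0, 0, 0, 0))

/-- A point. -/
def p110 : Pt := ((0, 0, 0, 0, 0, 0), (1032, 1032, 0, 0, 0, 0))

/-- A point. -/
def p111 : Pt := ((0, 0, 0, 0, 0, 0), (2064, 1032, 0, 0, 0, 0))

/-- A point. -/
def p112 : Pt := ((3096, 0, 0, 0, 0, 0), (1032, 1032, 0, 0, 0, 0))

/-- A point. -/
def p113 : Pt := ((3096, 0, 0, 0, 0, 0), (0, 0, 0, 0, 0, 0))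

/-- A point. -/
def p114 : Pt := ((3096, 0, 0, 0, 0, 0), (4644, 0, 0, 0, 0, 0))

/-- A point. -/
def p115 : Pt := ((3096, 0, 0, 0, 0, 0), (6966, 0, 0, 0, 0, 0))

/-- A point. -/
def p116 : Pt := ((0, 0, 0, 0, 0, 0), (12384, 0, 0, 0, 0, 0))

/-- A point. -/
def p117 : Pt := ((3096, 0, 0, 0, 0, 0), (12384, 0, 0, 0, 0, 0))

/-- A point. -/
def p118 : Pt := ((0, 0, 0, 0, 0, 0), (3096, 0, 0, 0, 0, 0))

/-- A point. -/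
def p119 : Pt := ((0, 0, 0, 0, 0, 0), (4644, 0, 0, 0, 0, 0))

/-- A point. -/
def p120 : Pt := ((0, 0, 0, 0, 0, 0), (6192, 0, 0, 0, 0, 0))

/-- A point. -/
def p121 : Pt := ((0, 0, 0, 0, 0, 0), (7740, 0, 0, 0, 0, 0))

/-- A point. -/
def p122 : Pt := ((0, 0, 0, 0, 0, 0), (8772, 0, 0, 0, 0, 0))

/-- A point. -/
def p123 : Pt := ((0, 0, 0, 0, 0, 0), (5160, 0, 0, 0, 0, 0))

/-- A point. -/
def p124 : Pt := ((1548, 0, 0, 0, 0, 0), (4644, 0, 0, 0, 0, 0))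

/-- The vertices of tile 0. -/
def verts0 : List (ℕ × Pt) :=
  [(0, p1), (1, p2), (2, p3), (3, p4), (4, p5), (5, p6), (6, p7), (7, p8), (8, p9), (9, p10), (10,
    p11), (11, p12), (12, p13), (13, p14), (14, p15), (15, p16), (16, p17), (17, p18), (18, p19),
    (40, p20), (41, p21), (42, p22), (43, p23), (44, p24), (45, p25), (46, p26), (47, p27), (48,
    p28), (49, p29), (50, p30), (51, p31), (120, p32), (126, p33), (160, p34), (166, p35)]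

/-- The inner edges of tile 0. -/
def inE0 : List Edge :=
  [(0, 17, 1, 55), (1, 17, 2, 55), (2, 17, 3, 55), (3, 17, 4, 55), (4, 17, 5, 55), (5, 17, 120,
    55), (46, 19, 47, 53), (47, 19, 48, 53), (48, 19, 49, 53), (49, 19, 50, 53), (50, 19, 51, 53),
    (51, 19, 166, 53), (6, 18, 12, 54), (40, 17, 12, 55), (1, 66, 12, 30), (49, 50, 12, 10), (1,
    60, 6, 24), (12, 60, 46, 24), (1, 0, 49, 48), (1, 1, 13, 47), (13, 6, 49, 42), (2, 62, 13,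
    46), (2, 0, 14, 36), (14, 63, 13, 45), (14, 0, 15, 36), (2, 1, 15, 35), (13, 42, 16, 6), (49,
    39, 16, 9), (16, 18, 15, 54), (15, 18, 17, 54), (16, 17, 17, 55), (17, 18, 18, 54), (15, 19,
    18, 53), (18, 18, 160, 54), (17, 17, 160, 55), (18, 19, 126, 53), (166, 48, 17, 12), (17, 60,
    49, 24)]

/-- The certificate of tile 0. -/
def tree0 : Tr :=
  (.node ⟨p2, 0, -1, 3, 0⟩ (.node ⟨p29, 0, -1, -1, 0⟩ (.node ⟨p3, 0, 0, 1, 0⟩ (.node ⟨p4, 0, 1,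
    -1, 0⟩ (.node ⟨p20, 0, -1, 0, 0⟩ (.node ⟨p16, 0, 1, 1, 0⟩ .leaf (.node ⟨p3, 0, 1, -3, 0⟩ .leaf
    .leaf)) (.node ⟨p20, 0, 1, 0, 0⟩ (.node ⟨p17, 0, 1, -1, 0⟩ .leaf .leaf) .leaf)) (.node ⟨p5, 0,
    0, 1, 0⟩ (.node ⟨p6, 0, 0, 1, 0⟩ .leaf .leaf) .leaf)) (.node ⟨p15, 0, 1, 0, 0⟩ (.node ⟨p3, 0,
    0, -1, 0⟩ (.node ⟨p20, 0, 1, 0, 0⟩ (.node ⟨p17, 0, 1, -1, 0⟩ (.node ⟨p14, 3, 10320, -16379, 0⟩
    (.split 2 13 1 1935 (.node ⟨p2, 0, 1, -3, 0⟩ .leaf (.node ⟨p20, 0, 1, 0, 0⟩ .leaf .leaf)))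
    (.split 14 13 1 1419 (.node ⟨p2, 0, 1, -3, 0⟩ .leaf (.node ⟨p20, 0, 1, 0, 0⟩ .leaf .leaf))))
    (.node ⟨p14, 3, 10320, -16379, 0⟩ (.split 2 13 1 3870 (.node ⟨p4, 0, 1, 1, 0⟩ (.node ⟨p3, 49,
    -122082, -536243, -256658436⟩ .leaf .leaf) .leaf)) (.split 14 13 1 1419 (.node ⟨p2, 0, 1, -3,
    0⟩ .leaf (.node ⟨p20, 0, 1, 0, 0⟩ .leaf .leaf))))) (.node ⟨p14, 3, 10320, -16379, 0⟩ .leaf
    (.node ⟨p15, 11, -30960, -53624, 707070⟩ .leaf .leaf))) (.node ⟨p20, 0, 1, 0, 0⟩ (.node ⟨p17,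
    0, 1, -1, 0⟩ .leaf .leaf) (.node ⟨p20, 0, -1, 0, 0⟩ .leaf .leaf))) (.node ⟨p3, 0, 0, -1, 0⟩
    (.node ⟨p3, 0, 1, 1, 0⟩ .leaf .leaf) (.node ⟨p15, 0, -1, 0, 0⟩ .leaf .leaf)))) (.node ⟨p20, 0,
    1, 0, 0⟩ (.node ⟨p31, 0, 0, 1, 0⟩ (.node ⟨p35, 0, 1, -1, 0⟩ .leaf (.node ⟨p35, 0, -1, 1, 0⟩
    .leaf .leaf)) (.node ⟨p29, 0, 1, 1, 0⟩ (.node ⟨p30, 0, 0, 1, 0⟩ .leaf .leaf) .leaf)) (.node
    ⟨p4, 0, 1, -1, 0⟩ (.node ⟨p20, 0, -1, 0, 0⟩ .leaf (.node ⟨p29, 0, 1, 1, 0⟩ .leaf .leaf))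
    (.node ⟨p32, 0, 1, 1, 0⟩ (.node ⟨p20, 0, -1, 0, 0⟩ .leaf .leaf) (.node ⟨p4, 0, -1, 1, 0⟩ .leaf
    .leaf))))) (.node ⟨p2, 0, 1, 3, 0⟩ (.node ⟨p14, 3, 10320, -16379, 0⟩ (.node ⟨p28, 0, 1, -1, 0⟩
    (.node ⟨p1, 0, 1, -3, 0⟩ .leaf .leaf) (.node ⟨p29, 0, 1, -1, 0⟩ (.node ⟨p29, 0, 3440, -1321,
    0⟩ .leaf (.node ⟨p29, 1, 30960, -25006, 0⟩ .leaf .leaf)) (.node ⟨p2, 0, 1, -3, 0⟩ (.node ⟨p2,
    1, 451, -17875, 0⟩ .leaf (.node ⟨p14, 26, 103200, -137157, 0⟩ .leaf .leaf)) (.node ⟨p3, 0, 0,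
    1, 0⟩ .leaf .leaf)))) (.node ⟨p3, 0, 0, -1, 0⟩ (.node ⟨p20, 0, 1, 0, 0⟩ (.node ⟨p14, 11,
    29858, -53624, 0⟩ .leaf .leaf) (.node ⟨p15, 11, -30960, -53624, 707070⟩ .leaf .leaf)) .leaf))
    (.node ⟨p26, 0, -1, -1, 0⟩ (.node ⟨p20, 0, -1, 0, 0⟩ (.node ⟨p2, 0, -1, -3, 0⟩ (.node ⟨p2, 0,
    -1, -1, 0⟩ .leaf .leaf) .leaf) (.node ⟨p20, 0, 1, 0, 0⟩ .leaf .leaf)) (.node ⟨p26, 0, 1, 1, 0⟩
    .leaf (.node ⟨p2, 0, -1, -3, 0⟩ .leaf .leaf)))))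

/-- The vertices of tile 1. -/
def verts1 : List (ℕ × Pt) :=
  [(0, p36), (1, p37), (2, p38), (3, p4), (4, p5), (5, p6), (6, p39), (7, p8), (8, p9), (9, p10),
    (10, p11), (11, p12), (12, p40), (13, p41), (14, p42), (15, p43), (16, p44), (17, p45), (18,
    p46), (19, p47), (20, p48), (21, p19), (40, p49), (41, p21), (42, p22), (43, p23), (44, p24),
    (45, p25), (46, p50), (47, p51), (48, p52), (49, p53), (50, p54), (51, p31), (120, p32), (126,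
    p33), (160, p34), (166, p35)]

/-- The inner edges of tile 1. -/
def inE1 : List Edge :=
  [(0, 17, 1, 55), (1, 17, 2, 55), (2, 17, 3, 55), (3, 17, 4, 55), (4, 17, 5, 55), (5, 17, 120,
    55), (46, 19, 47, 53), (47, 19, 48, 53), (48, 19, 49, 53), (49, 19, 50, 53), (50, 19, 51, 53),
    (51, 19, 166, 53), (6, 18, 12, 54), (40, 17, 12, 55), (1, 66, 12, 30), (49, 50, 12, 10), (1,
    60, 6, 24), (12, 60, 46, 24), (1, 2, 49, 46), (1, 6, 13, 42), (13, 6, 49, 42), (3, 59, 13,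
    37), (3, 66, 14, 30), (14, 61, 13, 35), (13, 9, 50, 51), (13, 12, 15, 48), (15, 12, 50, 48),
    (15, 46, 14, 62), (15, 36, 16, 0), (16, 45, 14, 63), (16, 36, 17, 0), (15, 34, 17, 2), (14,
    66, 18, 30), (3, 69, 18, 27), (18, 18, 17, 54), (17, 18, 19, 54), (18, 19, 19, 53), (19, 18,
    20, 54), (17, 17, 20, 55), (20, 18, 21, 54), (19, 19, 21, 53), (21, 18, 160, 54), (20, 17,
    160, 55), (21, 19, 126, 53), (120, 60, 21, 24), (21, 48, 3, 12), (160, 60, 51, 24), (51, 42,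
    20, 6), (20, 66, 50, 30)]

/-- The certificate of tile 1. -/
def tree1 : Tr :=
  (.node ⟨p49, 0, 1, 0, 0⟩ (.node ⟨p54, 0, -1, 1, 0⟩ (.node ⟨p54, 0, -1, -3, 0⟩ (.node ⟨p42, 0, 0,
    -1, 0⟩ (.node ⟨p37, 0, -1, 3, 0⟩ (.node ⟨p41, 5, 0, -53624, 0⟩ .leaf (.node ⟨p42, 1, -5160,
    -6858, 0⟩ .leaf (.node ⟨p42, 35, -103200, -163962, 0⟩ .leaf .leaf))) (.node ⟨p37, 0, 1, -3, 0⟩
    .leaf .leaf)) (.node ⟨p42, 0, 0, 1, 0⟩ (.node ⟨p4, 0, 1, 3, 0⟩ (.node ⟨p45, 0, 1, -3, 0⟩ .leaf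
    .leaf) .leaf) (.node ⟨p44, 0, -1, 0, 0⟩ (.node ⟨p4, 0, 1, 3, 0⟩ .leaf .leaf) (.node ⟨p44, 0,
    1, 0, 0⟩ .leaf .leaf)))) (.node ⟨p31, 0, -1, 3, 0⟩ (.node ⟨p31, 0, 1, 1, 0⟩ .leaf (.node ⟨p31,
    0, -1, -1, 0⟩ .leaf .leaf)) (.node ⟨p54, 0, 1, 3, 0⟩ (.node ⟨p31, 0, 1, -3, 0⟩ .leaf .leaf)
    .leaf))) (.node ⟨p37, 0, 1, -3, 0⟩ (.node ⟨p51, 0, 0, 1, 0⟩ (.node ⟨p52, 0, 1, -1, 0⟩ .leaf
    (.node ⟨p53, 0, 1, -1, 0⟩ (.node ⟨p53, 0, 3440, -1321, 0⟩ .leaf .leaf) .leaf)) (.node ⟨p50, 0,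
    1, 1, 0⟩ .leaf (.node ⟨p50, 0, -1, -1, 0⟩ .leaf .leaf))) (.node ⟨p54, 0, 1, -1, 0⟩ (.node
    ⟨p37, 0, -1, 3, 0⟩ (.node ⟨p54, 0, 645, -197, 0⟩ .leaf .leaf) .leaf) (.node ⟨p42, 0, 0, -1, 0⟩
    (.node ⟨p37, 0, -1, 3, 0⟩ .leaf .leaf) (.node ⟨p42, 0, 0, 1, 0⟩ .leaf .leaf))))) (.node ⟨p4,
    0, 0, -1, 0⟩ (.node ⟨p37, 0, -1, 3, 0⟩ (.node ⟨p42, -35, 103200, 163962, 0⟩ (.node ⟨p49, 0,
    -1, 0, 0⟩ (.node ⟨p4, 0, 1, 3, 0⟩ (.node ⟨p46, 0, 1, 1, 0⟩ (.node ⟨p44, 11, 30960, -53624,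
    707070⟩ .leaf .leaf) (.split 16 14 1 1419 (.node ⟨p4, 0, 1, 3, 0⟩ (.node ⟨p49, 0, 1, 0, 0⟩
    .leaf .leaf) .leaf))) (.node ⟨p42, 11, -29858, -53624, 0⟩ .leaf .leaf)) (.node ⟨p42, 0, 0, -1,
    0⟩ (.node ⟨p44, 11, 30960, -53624, 707070⟩ .leaf (.node ⟨p4, 0, 1, 3, 0⟩ .leaf .leaf)) (.node
    ⟨p42, 0, 0, 1, 0⟩ .leaf .leaf))) (.node ⟨p4, 0, -1, -3, 0⟩ (.node ⟨p41, 5, 0, -53624, 0⟩
    (.node ⟨p38, 0, 1, 3, 0⟩ (.node ⟨p4, 0, -1032, -479, 0⟩ .leaf .leaf) .leaf) (.node ⟨p42, 1,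
    -5160, -6858, 0⟩ .leaf .leaf)) (.node ⟨p38, 0, 1, -3, 0⟩ (.split 15 14 1 1548 (.node ⟨p4, 0,
    1, 3, 0⟩ (.node ⟨p49, 0, 1, 0, 0⟩ .leaf .leaf) .leaf)) (.node ⟨p4, 0, 1, 3, 0⟩ .leaf (.node
    ⟨p38, 0, -1, 3, 0⟩ .leaf .leaf))))) (.node ⟨p37, 0, -1, -3, 0⟩ (.node ⟨p37, 0, 1, 1, 0⟩ .leaf
    (.node ⟨p37, 0, -1, -1, 0⟩ .leaf .leaf)) (.node ⟨p37, 0, 0, 1, 0⟩ (.node ⟨p37, 0, 1, -3, 0⟩
    .leaf .leaf) (.node ⟨p50, 0, -1, -1, 0⟩ .leaf .leaf)))) (.node ⟨p4, 0, -1, 1, 0⟩ (.node ⟨p32,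
    0, -1, -1, 0⟩ (.node ⟨p5, 0, 0, 1, 0⟩ (.node ⟨p6, 0, 0, 1, 0⟩ .leaf .leaf) .leaf) (.node ⟨p32,
    0, 1, 1, 0⟩ (.node ⟨p49, 0, -1, 0, 0⟩ .leaf .leaf) .leaf)) (.node ⟨p4, 0, 1, -1, 0⟩ (.node
    ⟨p4, 0, 0, 1, 0⟩ (.node ⟨p49, 0, -1, 0, 0⟩ .leaf (.node ⟨p54, 0, 1, 3, 0⟩ .leaf (.node ⟨p54,
    0, -1, -3, 0⟩ .leaf .leaf))) .leaf) (.node ⟨p32, 0, -1, -1, 0⟩ .leaf .leaf)))))

/-- The vertices of tile 2. -/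
def verts2 : List (ℕ × Pt) :=
  [(0, p55), (1, p56), (2, p57), (3, p4), (4, p5), (5, p6), (6, p58), (7, p8), (8, p9), (9, p10),
    (10, p11), (11, p12), (12, p59), (13, p60), (14, p61), (15, p62), (16, p63), (17, p64), (18,
    p65), (19, p66), (20, p48), (21, p47), (22, p67), (23, p18), (24, p19), (40, p68), (41, p21),
    (42, p22), (43, p23), (44, p24), (45, p25), (46, p69), (47, p70), (48, p71), (49, p72), (50,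
    p73), (51, p74), (120, p32), (126, p33), (160, p34), (166, p35)]

/-- The inner edges of tile 2. -/
def inE2 : List Edge :=
  [(0, 17, 1, 55), (1, 17, 2, 55), (2, 17, 3, 55), (3, 17, 4, 55), (4, 17, 5, 55), (5, 17, 120,
    55), (46, 19, 47, 53), (47, 19, 48, 53), (48, 19, 49, 53), (49, 19, 50, 53), (50, 19, 51, 53),
    (51, 19, 166, 53), (6, 18, 12, 54), (40, 17, 12, 55), (1, 66, 12, 30), (49, 50, 12, 10), (1,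
    60, 6, 24), (12, 60, 46, 24), (1, 0, 49, 48), (1, 1, 13, 47), (13, 6, 49, 42), (2, 62, 13,
    46), (2, 0, 14, 36), (14, 63, 13, 45), (14, 0, 15, 36), (2, 1, 15, 35), (13, 42, 16, 6), (49,
    39, 16, 9), (16, 18, 15, 54), (15, 18, 17, 54), (16, 17, 17, 55), (17, 18, 18, 54), (15, 19,
    18, 53), (18, 18, 19, 54), (17, 17, 19, 55), (19, 60, 49, 24), (19, 0, 51, 36), (19, 36, 20,
    0), (51, 34, 20, 2), (3, 70, 18, 38), (3, 0, 21, 36), (21, 0, 18, 36), (21, 18, 20, 54), (20,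
    60, 18, 24), (20, 18, 22, 54), (21, 19, 22, 53), (22, 18, 23, 54), (20, 17, 23, 55), (23, 18,
    24, 54), (22, 19, 24, 53), (24, 18, 160, 54), (23, 17, 160, 55), (24, 19, 126, 53), (120, 60,
    24, 24), (24, 48, 3, 12), (166, 48, 23, 12), (23, 66, 51, 30)]

/-- The certificate of tile 2. -/
def tree2 : Tr :=
  (.node ⟨p4, 0, 0, -1, 0⟩ (.node ⟨p56, 0, -1, 3, 0⟩ (.node ⟨p57, 0, 0, 1, 0⟩ (.node ⟨p62, 0, 1,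
    0, 0⟩ (.node ⟨p72, 0, -1, -1, 0⟩ (.node ⟨p63, 0, 1, -1, 0⟩ .leaf (.node ⟨p64, 0, 0, 1, 0⟩
    .leaf .leaf)) (.node ⟨p72, 0, 1, 1, 0⟩ (.node ⟨p73, 0, 0, 1, 0⟩ .leaf .leaf) .leaf)) (.node
    ⟨p62, 0, -1, 0, 0⟩ (.node ⟨p57, 0, 1, -3, 0⟩ (.node ⟨p62, 0, 1, 3, 0⟩ .leaf .leaf) (.node ⟨p4,
    0, 1, 1, 0⟩ (.node ⟨p65, 0, 1, -3, 0⟩ .leaf .leaf) .leaf)) (.node ⟨p64, 0, 0, 1, 0⟩ .leaf
    (.node ⟨p64, 0, 0, -1, 0⟩ .leaf .leaf)))) (.node ⟨p61, 0, 1, 0, 0⟩ (.node ⟨p57, 0, 0, -1, 0⟩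
    (.node ⟨p62, 0, 1, 0, 0⟩ (.node ⟨p63, 0, 1, -1, 0⟩ (.node ⟨p60, 4, 15480, -24569, 0⟩ (.split 2
    13 1 2322 (.node ⟨p56, 0, 1, -3, 0⟩ .leaf (.node ⟨p5, 0, 1, 1, 0⟩ .leaf .leaf))) (.split 14 13
    1 1806 (.node ⟨p56, 0, 1, -3, 0⟩ .leaf (.node ⟨p70, 0, 1, 1, 0⟩ .leaf .leaf)))) (.node ⟨p60,
    4, 15480, -24569, 0⟩ .leaf (.node ⟨p61, 29, -103200, -178748, 6181760⟩ .leaf .leaf))) (.node
    ⟨p60, 4, 15480, -24569, 0⟩ .leaf (.node ⟨p61, 29, -103200, -178748, 6181760⟩ .leaf .leaf)))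
    (.node ⟨p62, 0, 1, 0, 0⟩ (.node ⟨p63, 0, 1, -1, 0⟩ .leaf .leaf) (.node ⟨p62, 0, -1, 0, 0⟩
    .leaf .leaf))) (.node ⟨p57, 0, 0, -1, 0⟩ (.node ⟨p57, 0, 1, 1, 0⟩ .leaf .leaf) (.node ⟨p61, 0,
    -1, 0, 0⟩ .leaf .leaf)))) (.node ⟨p56, 0, 1, 3, 0⟩ (.node ⟨p60, 4, 15480, -24569, 0⟩ (.node
    ⟨p71, 0, 1, -1, 0⟩ (.node ⟨p55, 0, 1, -3, 0⟩ .leaf .leaf) (.node ⟨p55, 0, 1, -1, 0⟩ (.node
    ⟨p56, 0, 1, -3, 0⟩ (.node ⟨p72, 0, 3440, -1321, 0⟩ .leaf (.node ⟨p72, 1, 30960, -25006, 0⟩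
    .leaf .leaf)) .leaf) (.node ⟨p56, 4, 2253, -89374, 0⟩ .leaf (.node ⟨p60, 1, 5160, -6858, 0⟩
    .leaf .leaf)))) (.node ⟨p55, 0, -1, 1, 0⟩ (.node ⟨p62, 0, 1, 0, 0⟩ (.node ⟨p60, 3, 8936,
    -17875, 0⟩ .leaf .leaf) (.node ⟨p61, 29, -103200, -178748, 6181760⟩ .leaf .leaf)) .leaf))
    (.node ⟨p69, 0, -1, -1, 0⟩ (.node ⟨p68, 0, -1, 0, 0⟩ (.node ⟨p56, 0, -1, -3, 0⟩ (.node ⟨p56,
    0, -1, -1, 0⟩ .leaf .leaf) .leaf) (.node ⟨p68, 0, 1, 0, 0⟩ .leaf .leaf)) (.node ⟨p69, 0, 1, 1,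
    0⟩ .leaf (.node ⟨p56, 0, -1, -3, 0⟩ .leaf .leaf))))) (.node ⟨p68, 0, 1, 0, 0⟩ (.node ⟨p74, 0,
    0, -1, 0⟩ (.node ⟨p62, 0, 1, 0, 0⟩ (.node ⟨p72, 0, 1, 1, 0⟩ .leaf (.node ⟨p72, 0, -1, -1, 0⟩
    .leaf .leaf)) (.node ⟨p4, 0, 0, 1, 0⟩ (.node ⟨p62, 0, -1, 0, 0⟩ .leaf .leaf) (.node ⟨p62, 0,
    -1, 0, 0⟩ .leaf .leaf))) (.node ⟨p74, 0, -1, -3, 0⟩ (.node ⟨p74, 0, 0, 1, 0⟩ (.node ⟨p48, 0,
    1, -3, 0⟩ .leaf .leaf) (.node ⟨p72, 0, 1, 1, 0⟩ .leaf (.node ⟨p72, 0, -1, -1, 0⟩ .leaf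
    .leaf))) (.node ⟨p35, 0, 1, -1, 0⟩ (.node ⟨p74, 0, 1, 3, 0⟩ .leaf .leaf) (.node ⟨p35, 0, -1,
    1, 0⟩ .leaf .leaf)))) (.node ⟨p68, 0, -1, 0, 0⟩ (.node ⟨p4, 0, -1, 1, 0⟩ (.node ⟨p6, 0, 0, 1,
    0⟩ (.node ⟨p32, 0, 1, 1, 0⟩ .leaf (.node ⟨p32, 0, -1, -1, 0⟩ .leaf .leaf)) (.node ⟨p5, 0, 0,
    1, 0⟩ .leaf .leaf)) (.node ⟨p4, 0, 0, 1, 0⟩ (.node ⟨p4, 0, 1, -1, 0⟩ (.node ⟨p5, 0, 0, 1, 0⟩
    .leaf .leaf) .leaf) .leaf)) (.node ⟨p5, 0, 0, 1, 0⟩ (.node ⟨p4, 0, 1, -1, 0⟩ (.node ⟨p74, 0,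
    1, 3, 0⟩ .leaf (.node ⟨p74, 0, -1, -3, 0⟩ .leaf .leaf)) (.node ⟨p4, 0, -1, 1, 0⟩ .leaf .leaf))
    (.node ⟨p74, 0, 0, 1, 0⟩ (.node ⟨p5, 0, 0, -1, 0⟩ .leaf .leaf) (.node ⟨p4, 0, 0, 1, 0⟩ (.node
    ⟨p74, 0, 0, -1, 0⟩ .leaf .leaf) .leaf))))))

/-- The vertices of tile 3. -/
def verts3 : List (ℕ × Pt) :=
  [(0, p75), (1, p76), (2, p77), (3, p78), (4, p79), (5, p80), (6, p81), (7, p8), (8, p9), (9,
    p10), (10, p11), (11, p12), (12, p82), (13, p83), (14, p84), (15, p85), (16, p86), (17, p87),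
    (18, p88), (19, p89), (20, p90), (21, p91), (22, p92), (23, p48), (24, p93), (25, p94), (26,
    p95), (27, p96), (28, p19), (29, p97), (30, p98), (40, p99), (41, p21), (42, p22), (43, p23),
    (44, p24), (45, p25), (46, p100), (47, p101), (48, p102), (49, p103), (50, p54), (51, p31),
    (120, p32), (126, p33), (160, p34), (166, p35)]

/-- The inner edges of tile 3. -/
def inE3 : List Edge :=
  [(0, 17, 1, 55), (1, 17, 2, 55), (2, 17, 3, 55), (3, 17, 4, 55), (4, 17, 5, 55), (5, 17, 120,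
    55), (46, 19, 47, 53), (47, 19, 48, 53), (48, 19, 49, 53), (49, 19, 50, 53), (50, 19, 51, 53),
    (51, 19, 166, 53), (6, 18, 12, 54), (40, 17, 12, 55), (1, 66, 12, 30), (49, 50, 12, 10), (1,
    60, 6, 24), (12, 60, 46, 24), (1, 0, 49, 48), (1, 1, 13, 47), (13, 6, 49, 42), (2, 62, 13,
    46), (2, 0, 14, 36), (14, 63, 13, 45), (14, 0, 15, 36), (2, 1, 15, 35), (13, 42, 16, 6), (49,
    39, 16, 9), (16, 18, 15, 54), (15, 18, 17, 54), (16, 17, 17, 55), (17, 18, 18, 54), (15, 19,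
    18, 53), (18, 60, 49, 24), (18, 0, 50, 36), (3, 59, 18, 49), (3, 68, 19, 40), (19, 8, 50, 28),
    (4, 57, 19, 39), (4, 66, 20, 30), (20, 58, 19, 38), (20, 66, 21, 30), (4, 68, 21, 28), (19,
    36, 22, 0), (50, 27, 22, 9), (22, 18, 21, 54), (21, 18, 23, 54), (22, 17, 23, 55), (23, 18,
    24, 54), (21, 19, 24, 53), (24, 18, 25, 54), (23, 17, 25, 55), (25, 18, 26, 54), (24, 19, 26,
    53), (26, 18, 27, 54), (25, 17, 27, 55), (27, 18, 28, 54), (26, 19, 28, 53), (28, 18, 160,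
    54), (27, 17, 160, 55), (28, 19, 126, 53), (4, 70, 24, 38), (4, 0, 29, 36), (29, 0, 24, 36),
    (29, 24, 5, 60), (29, 6, 26, 42), (5, 0, 26, 36), (120, 60, 28, 24), (28, 42, 5, 6), (160, 60,
    51, 24), (51, 42, 23, 6), (23, 70, 50, 26), (30, 39, 3, 65), (30, 28, 19, 64), (30, 10, 18,
    46), (30, 15, 50, 29)]

/-- The certificate of tile 3. -/
def tree3 : Tr :=
  (.node ⟨p78, 0, 0, 1, 0⟩ (.node ⟨p99, 0, -1, 0, 0⟩ (.node ⟨p79, 0, 0, 1, 0⟩ (.node ⟨p80, 0, 0,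
    1, 0⟩ (.node ⟨p80, 0, -1, 3, 0⟩ (.node ⟨p32, 0, 1, 1, 0⟩ .leaf (.node ⟨p32, 0, -1, -1, 0⟩
    .leaf .leaf)) (.node ⟨p80, 0, 1, -3, 0⟩ .leaf .leaf)) (.node ⟨p80, 0, 1, 1, 0⟩ (.node ⟨p80, 0,
    0, -1, 0⟩ (.node ⟨p95, 0, 1, -3, 0⟩ .leaf .leaf) .leaf) (.node ⟨p80, 0, -1, -1, 0⟩ .leaf
    .leaf))) (.node ⟨p79, 0, 1, 3, 0⟩ (.node ⟨p79, 0, 0, -1, 0⟩ (.node ⟨p91, 0, 1, 1, 0⟩ (.node
    ⟨p93, 0, 1, -3, 0⟩ .leaf .leaf) (.node ⟨p79, 0, -553, -3575, 0⟩ .leaf .leaf)) (.node ⟨p80, 0,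
    1, 1, 0⟩ .leaf (.node ⟨p80, 0, -1, -1, 0⟩ .leaf .leaf))) (.node ⟨p79, 0, -1, -3, 0⟩ (.node
    ⟨p79, 0, 1, 1, 0⟩ (.node ⟨p89, 5, 6864, -53624, 0⟩ .leaf .leaf) (.node ⟨p79, 0, -645, -197, 0⟩
    .leaf .leaf)) (.node ⟨p90, 0, 1, 0, 0⟩ .leaf (.node ⟨p90, 0, -1, 0, 0⟩ .leaf .leaf))))) (.node
    ⟨p99, 0, 1, 0, 0⟩ (.node ⟨p78, 0, 1, -3, 0⟩ (.node ⟨p54, 0, 1, 1, 0⟩ .leaf (.node ⟨p89, 0, 1,
    0, 0⟩ (.node ⟨p54, -4, -9457, -17875, 0⟩ (.node ⟨p54, 20, 23757, 53624, 0⟩ .leaf .leaf) (.node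
    ⟨p54, -3, -10320, -16379, 0⟩ .leaf .leaf)) (.node ⟨p54, 0, 1, 3, 0⟩ (.node ⟨p54, -3, -10320,
    -16379, 0⟩ .leaf .leaf) (.node ⟨p89, 5, 6864, -53624, 0⟩ (.split 4 19 1 2234 (.node ⟨p78, 0,
    0, 1, 0⟩ (.node ⟨p99, 0, 1, 0, 0⟩ .leaf .leaf) .leaf)) (.node ⟨p92, 0, 1, -1, 0⟩ (.split 20 19
    1 1291 (.node ⟨p78, 0, 0, 1, 0⟩ (.node ⟨p99, 0, 1, 0, 0⟩ .leaf .leaf) .leaf)) (.node ⟨p90, 55,
    -309600, -195176, 5761398⟩ .leaf .leaf)))))) (.node ⟨p79, 0, 1, 3, 0⟩ (.node ⟨p31, 0, -1, -1,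
    0⟩ (.node ⟨p94, 0, 1, -3, 0⟩ (.node ⟨p78, 0, -1, 3, 0⟩ .leaf .leaf) (.node ⟨p96, 0, 0, 1, 0⟩
    .leaf .leaf)) (.node ⟨p31, 0, 1, 1, 0⟩ .leaf .leaf)) (.node ⟨p89, 5, 6864, -53624, 0⟩ .leaf
    .leaf))) (.node ⟨p79, 0, 0, 1, 0⟩ (.node ⟨p80, 0, 0, 1, 0⟩ (.node ⟨p80, 0, 1, -3, 0⟩ (.node
    ⟨p96, 0, 0, 1, 0⟩ .leaf (.node ⟨p96, 0, 0, -1, 0⟩ .leaf .leaf)) (.node ⟨p80, 0, -1, 3, 0⟩
    .leaf .leaf)) (.node ⟨p94, 0, 0, 1, 0⟩ (.node ⟨p80, 0, 0, -1, 0⟩ .leaf .leaf) (.node ⟨p94, 0,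
    0, -1, 0⟩ .leaf .leaf))) (.node ⟨p79, 0, 1, 3, 0⟩ (.node ⟨p78, 0, -1, 3, 0⟩ (.node ⟨p79, 0, 0,
    -1, 0⟩ .leaf .leaf) (.node ⟨p78, 0, 1, -3, 0⟩ .leaf .leaf)) (.node ⟨p90, 55, -309600, -195176,
    5761398⟩ (.node ⟨p89, 5, 6864, -53624, 0⟩ .leaf .leaf) (.node ⟨p79, 0, -1, -3, 0⟩ .leaf
    .leaf)))))) (.node ⟨p76, 0, -1, 3, 0⟩ (.node ⟨p85, 0, -1, 0, 0⟩ (.node ⟨p77, 0, 0, 1, 0⟩
    (.node ⟨p89, 5, 6864, -53624, 0⟩ (.node ⟨p98, 0, -1, 0, 0⟩ (.node ⟨p103, 0, 0, 1, 0⟩ (.node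
    ⟨p78, 0, 1, 1, 0⟩ (.node ⟨p89, 0, 1, 0, 0⟩ (.node ⟨p98, 0, 1, 3, 0⟩ (.node ⟨p78, 2, -10320,
    -8335, 357275⟩ .leaf .leaf) (.node ⟨p78, 201, -1032000, -888650, 0⟩ .leaf .leaf)) (.node ⟨p78,
    201, -1032000, -888650, 0⟩ .leaf (.node ⟨p89, 1, 3254, -17875, 0⟩ (.node ⟨p78, -1, 5439,
    17875, 0⟩ .leaf .leaf) .leaf))) (.node ⟨p78, 0, -1032, -479, 0⟩ .leaf .leaf)) (.node ⟨p77, 0,
    1, -3, 0⟩ .leaf .leaf)) (.node ⟨p103, 0, 0, 1, 0⟩ (.node ⟨p98, 0, 1, 0, 0⟩ (.node ⟨p88, 0, 1,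
    -1, 0⟩ (.node ⟨p88, 0, 1032, -479, 0⟩ (.split 15 18 1 2085 (.node ⟨p54, 0, 1, -3, 0⟩ .leaf
    (.node ⟨p85, -4, 3801, 17875, -3962456⟩ .leaf .leaf))) (.split 3 18 1 860 (.node ⟨p98, 0, 1,
    3, 0⟩ (.node ⟨p85, -4, 3801, 17875, -3962456⟩ .leaf .leaf) .leaf))) (.node ⟨p88, 61, 309600,
    -276749, 0⟩ (.split 3 18 1 860 (.node ⟨p98, 0, 1, 3, 0⟩ (.node ⟨p85, -4, 3801, 17875,
    -3962456⟩ .leaf .leaf) .leaf)) (.node ⟨p98, -8, 15480, -5577, 0⟩ .leaf .leaf))) (.node ⟨p78,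
    2, -10320, -8335, 357275⟩ .leaf .leaf)) (.node ⟨p85, 0, 1, 3, 0⟩ .leaf .leaf))) (.node ⟨p79,
    0, -1, -3, 0⟩ (.node ⟨p99, 0, 1, 0, 0⟩ (.node ⟨p89, 2, 1580, -17875, 0⟩ .leaf .leaf) (.node
    ⟨p90, 55, -309600, -195176, 5761398⟩ .leaf .leaf)) .leaf)) (.node ⟨p77, 0, 0, -1, 0⟩ (.node
    ⟨p77, 0, 1, 1, 0⟩ (.node ⟨p83, 2, 10320, -16379, 0⟩ .leaf .leaf) .leaf) (.node ⟨p84, 0, 1, 0,
    0⟩ .leaf (.node ⟨p84, 0, -1, 0, 0⟩ .leaf .leaf)))) (.node ⟨p103, 0, -1, -1, 0⟩ (.node ⟨p87, 0,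
    0, -1, 0⟩ (.node ⟨p83, 2, 10320, -16379, 0⟩ (.split 2 13 1 2838 (.node ⟨p75, 0, 1, -1, 0⟩
    (.node ⟨p76, 0, 1, -3, 0⟩ .leaf .leaf) .leaf)) (.node ⟨p85, 0, 1, 0, 0⟩ (.node ⟨p86, 0, 1, -1,
    0⟩ (.split 14 13 1 2322 (.node ⟨p75, 0, 1, -1, 0⟩ (.node ⟨p76, 0, 1, -3, 0⟩ .leaf .leaf)
    .leaf)) (.node ⟨p84, 22, -103200, -178748, 7308769⟩ .leaf .leaf)) (.node ⟨p77, 0, 0, -1, 0⟩
    (.node ⟨p84, 22, -103200, -178748, 7308769⟩ .leaf .leaf) (.node ⟨p77, 0, 0, 1, 0⟩ .leaf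
    .leaf)))) (.node ⟨p87, 0, 0, 1, 0⟩ (.node ⟨p85, -4, 3801, 17875, -3962456⟩ .leaf .leaf)
    .leaf)) (.node ⟨p78, 0, 0, -1, 0⟩ (.node ⟨p103, 0, 1, 1, 0⟩ (.node ⟨p54, 0, 1, -3, 0⟩ .leaf
    .leaf) (.split 18 49 1 2064 (.node ⟨p54, 0, 1, -3, 0⟩ .leaf (.node ⟨p85, -4, 3801, 17875,
    -3962456⟩ .leaf .leaf)))) (.node ⟨p103, 0, 1, 1, 0⟩ (.node ⟨p54, -19, -20535, -53624, 0⟩ .leaf
    .leaf) (.node ⟨p85, -4, 3801, 17875, -3962456⟩ .leaf .leaf))))) (.node ⟨p76, 0, 1, 3, 0⟩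
    (.node ⟨p83, 2, 10320, -16379, 0⟩ (.node ⟨p102, 0, 1, -1, 0⟩ (.node ⟨p75, 0, 1, -3, 0⟩ .leaf
    .leaf) (.node ⟨p103, 0, 1, -1, 0⟩ (.node ⟨p103, 0, 3440, -1321, 0⟩ .leaf (.node ⟨p103, 1,
    30960, -25006, 0⟩ .leaf .leaf)) (.node ⟨p76, 0, 1, -3, 0⟩ (.node ⟨p76, 2, 1411, -53624, 0⟩
    .leaf (.node ⟨p83, 5, 30960, -41147, 0⟩ .leaf .leaf)) (.node ⟨p77, 0, 0, 1, 0⟩ .leaf .leaf))))
    (.node ⟨p77, 0, 0, -1, 0⟩ (.node ⟨p85, 0, 1, 0, 0⟩ (.node ⟨p83, 2, 8699, -17875, 0⟩ .leaf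
    .leaf) (.node ⟨p84, 22, -103200, -178748, 7308769⟩ .leaf .leaf)) .leaf)) (.node ⟨p100, 0, -1,
    -1, 0⟩ (.node ⟨p99, 0, -1, 0, 0⟩ (.node ⟨p76, 0, -1, -3, 0⟩ (.node ⟨p76, 0, -1, -1, 0⟩ .leaf
    .leaf) .leaf) (.node ⟨p99, 0, 1, 0, 0⟩ .leaf .leaf)) (.node ⟨p100, 0, 1, 1, 0⟩ .leaf (.node
    ⟨p76, 0, -1, -3, 0⟩ .leaf .leaf))))))

/-- The vertices of tile 4. -/
def verts4 : List (ℕ × Pt) :=
  [(0, p104), (1, p105), (2, p38), (3, p4), (4, p5), (5, p6), (6, p106), (7, p107), (8, p108), (9,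
    p47), (10, p109), (11, p19), (120, p32), (126, p33)]

/-- The inner edges of tile 4. -/
def inE4 : List Edge :=
  [(0, 17, 1, 55), (1, 17, 2, 55), (2, 17, 3, 55), (3, 17, 4, 55), (4, 17, 5, 55), (5, 17, 120,
    55), (6, 19, 7, 53), (7, 19, 8, 53), (8, 19, 9, 53), (9, 19, 10, 53), (10, 19, 11, 53), (11,
    19, 126, 53), (120, 60, 11, 24), (11, 48, 3, 12), (3, 60, 7, 24), (7, 48, 0, 12)]

/-- The certificate of tile 4. -/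
def tree4 : Tr :=
  (.node ⟨p4, 0, 0, 1, 0⟩ (.node ⟨p4, 0, -1, 1, 0⟩ (.node ⟨p6, 0, 0, 1, 0⟩ (.node ⟨p32, 0, 1, 1,
    0⟩ .leaf (.node ⟨p32, 0, -1, -1, 0⟩ .leaf .leaf)) (.node ⟨p5, 0, 0, 1, 0⟩ .leaf .leaf)) (.node
    ⟨p4, 0, 1, -1, 0⟩ (.node ⟨p109, 0, 0, 1, 0⟩ .leaf .leaf) .leaf)) (.node ⟨p105, 0, 0, 1, 0⟩
    (.node ⟨p4, 0, 1, 1, 0⟩ (.node ⟨p38, 0, 0, 1, 0⟩ .leaf .leaf) (.node ⟨p38, 0, 1, 1, 0⟩ (.node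
    ⟨p4, 0, -1, -1, 0⟩ .leaf .leaf) .leaf)) (.node ⟨p104, 0, 1, -1, 0⟩ .leaf (.node ⟨p104, 0, -1,
    1, 0⟩ .leaf .leaf))))

/-- The vertices of tile 5. -/
def verts5 : List (ℕ × Pt) :=
  [(0, p110), (1, p111), (2, p38), (3, p4), (4, p5), (5, p6), (6, p112), (7, p107), (8, p108), (9,
    p47), (10, p109), (11, p19), (120, p32), (126, p33)]

/-- The inner edges of tile 5. -/
def inE5 : List Edge :=
  [(0, 17, 1, 55), (1, 17, 2, 55), (2, 17, 3, 55), (3, 17, 4, 55), (4, 17, 5, 55), (5, 17, 120,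
    55), (6, 19, 7, 53), (7, 19, 8, 53), (8, 19, 9, 53), (9, 19, 10, 53), (10, 19, 11, 53), (11,
    19, 126, 53), (120, 60, 11, 24), (11, 48, 3, 12), (3, 60, 7, 24), (7, 42, 1, 6), (1, 66, 6,
    30)]

/-- The certificate of tile 5. -/
def tree5 : Tr :=
  (.node ⟨p4, 0, 0, 1, 0⟩ (.node ⟨p4, 0, -1, 1, 0⟩ (.node ⟨p6, 0, 0, 1, 0⟩ (.node ⟨p32, 0, 1, 1,
    0⟩ .leaf (.node ⟨p32, 0, -1, -1, 0⟩ .leaf .leaf)) (.node ⟨p5, 0, 0, 1, 0⟩ .leaf .leaf)) (.node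
    ⟨p4, 0, 1, -1, 0⟩ (.node ⟨p109, 0, 0, 1, 0⟩ .leaf .leaf) .leaf)) (.node ⟨p111, 0, -1, 3, 0⟩
    (.node ⟨p4, 0, 1, 1, 0⟩ (.node ⟨p38, 0, 0, 1, 0⟩ .leaf .leaf) (.node ⟨p38, 0, 1, 1, 0⟩ (.node
    ⟨p4, 0, -1, -1, 0⟩ .leaf .leaf) .leaf)) (.node ⟨p111, 0, 1, 3, 0⟩ (.node ⟨p111, 0, 1, -3, 0⟩
    .leaf .leaf) (.node ⟨p111, 0, -1, -3, 0⟩ .leaf .leaf))))

/-- The vertices of tile 6. -/
def verts6 : List (ℕ × Pt) :=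
  [(0, p0), (6, p113), (7, p22), (8, p114), (9, p10), (10, p115), (11, p25), (120, p116), (126,
    p117)]

/-- The inner edges of tile 6. -/
def inE6 : List Edge :=
  [(6, 19, 7, 53), (7, 19, 8, 53), (8, 19, 9, 53), (9, 19, 10, 53), (10, 19, 11, 53), (11, 19,
    126, 53)]

/-- The certificate of tile 6. -/
def tree6 : Tr :=
  (.node ⟨p10, 0, 0, 1, 0⟩ (.node ⟨p115, 0, 0, 1, 0⟩ (.node ⟨p25, 0, 0, 1, 0⟩ .leaf .leaf) .leaf)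
    (.node ⟨p22, 0, 0, 1, 0⟩ (.node ⟨p114, 0, 0, 1, 0⟩ .leaf .leaf) .leaf))

/-- The vertices of tile 7. -/
def verts7 : List (ℕ × Pt) :=
  [(0, p0), (1, p118), (2, p119), (3, p120), (4, p121), (5, p122), (6, p113), (120, p116), (126,
    p117)]

/-- The inner edges of tile 7. -/
def inE7 : List Edge :=
  [(0, 17, 1, 55), (1, 17, 2, 55), (2, 17, 3, 55), (3, 17, 4, 55), (4, 17, 5, 55), (5, 17, 120,
    55)]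

/-- The certificate of tile 7. -/
def tree7 : Tr :=
  (.node ⟨p120, 0, 0, 1, 0⟩ (.node ⟨p121, 0, 0, 1, 0⟩ (.node ⟨p122, 0, 0, 1, 0⟩ .leaf .leaf)
    .leaf) (.node ⟨p118, 0, 0, 1, 0⟩ (.node ⟨p119, 0, 0, 1, 0⟩ .leaf .leaf) .leaf))

/-- The vertices of tile 8. -/
def verts8 : List (ℕ × Pt) :=
  []

/-- The inner edges of tile 8. -/
def inE8 : List Edge :=
  []

/-- The certificate of tile 8. -/
def tree8 : Tr :=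
  .leaf

/-- The vertices of tile 9. -/
def verts9 : List (ℕ × Pt) :=
  [(0, p0), (1, p118), (2, p123), (6, p113), (7, p124), (41, p8), (42, p9)]

/-- The inner edges of tile 9. -/
def inE9 : List Edge :=
  [(0, 17, 1, 55), (1, 66, 41, 30), (1, 6, 42, 42), (2, 65, 42, 31), (1, 60, 6, 24)]

/-- The certificate of tile 9. -/
def tree9 : Tr :=
  (.node ⟨p113, 0, 1, 1, 0⟩ (.node ⟨p118, 0, 0, 1, 0⟩ (.node ⟨p118, 0, -1, 3, 0⟩ .leaf .leaf)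
    .leaf) (.node ⟨p113, 0, -1, -1, 0⟩ .leaf .leaf))

/-- The vertices of tile 10. -/
def verts10 : List (ℕ × Pt) :=
  [(0, p104), (1, p118), (2, p123), (6, p106), (7, p124), (41, p8), (42, p9)]

/-- The inner edges of tile 10. -/
def inE10 : List Edge :=
  [(0, 17, 1, 55), (1, 66, 41, 30), (1, 6, 42, 42), (2, 65, 42, 31)]

/-- The certificate of tile 10. -/
def tree10 : Tr :=
  (.node ⟨p118, 0, 0, 1, 0⟩ (.node ⟨p118, 0, -1, 3, 0⟩ .leaf .leaf) (.node ⟨p118, 0, -1, -3, 0⟩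
    .leaf .leaf))

/-- The vertices of tile 11. -/
def verts11 : List (ℕ × Pt) :=
  [(0, p0), (1, p118), (2, p123), (6, p113), (7, p124), (41, p8), (42, p9)]

/-- The inner edges of tile 11. -/
def inE11 : List Edge :=
  []

/-- The certificate of tile 11. -/
def tree11 : Tr :=
  .leaf

/-- The vertices of tile 12. -/
def verts12 : List (ℕ × Pt) :=
  [(0, p0), (1, p118), (2, p123), (6, p113), (7, p124), (41, p8), (42, p9)]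

/-- The inner edges of tile 12. -/
def inE12 : List Edge :=
  [(0, 17, 1, 55)]

/-- The certificate of tile 12. -/
def tree12 : Tr :=
  .leaf

/-- The vertices of a tile. -/
def verts (g : ℕ) : List (ℕ × Pt) :=
  [verts0, verts1, verts2, verts3, verts4, verts5, verts6, verts7, verts8, verts9, verts10,
    verts11, verts12].getD g []

/-- The inner edges of a tile. -/
def inE (g : ℕ) : List Edge :=
  [inE0, inE1, inE2, inE3, inE4, inE5, inE6, inE7, inE8, inE9, inE10, inE11, inE12].getD g []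

/-- The certificate of a tile. -/
def tree (g : ℕ) : Tr :=
  [tree0, tree1, tree2, tree3, tree4, tree5, tree6, tree7, tree8, tree9, tree10, tree11,
    tree12].getD g .leaf

/-- The boundary edges that belong to a tile. -/
def skE (g : ℕ) : List Edge :=
  [[(80, 18, 46, 54), (46, 18, 81, 54), (81, 18, 47, 54), (47, 18, 82, 54), (82, 18, 48, 54), (48,
    18, 83, 54), (83, 18, 49, 54), (49, 18, 84, 54), (84, 18, 50, 54), (50, 18, 85, 54), (85, 18,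
    51, 54), (51, 18, 200, 54), (0, 0, 6, 36), (40, 0, 46, 36), (40, 18, 6, 54)], [(80, 18, 46,
    54), (46, 18, 81, 54), (81, 18, 47, 54), (47, 18, 82, 54), (82, 18, 48, 54), (48, 18, 83, 54),
    (83, 18, 49, 54), (49, 18, 84, 54), (84, 18, 50, 54), (50, 18, 85, 54), (85, 18, 51, 54), (51,
    18, 200, 54), (0, 0, 6, 36), (40, 0, 46, 36), (40, 18, 6, 54)], [(80, 18, 46, 54), (46, 18,
    81, 54), (81, 18, 47, 54), (47, 18, 82, 54), (82, 18, 48, 54), (48, 18, 83, 54), (83, 18, 49,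
    54), (49, 18, 84, 54), (84, 18, 50, 54), (50, 18, 85, 54), (85, 18, 51, 54), (51, 18, 200,
    54), (0, 0, 6, 36), (40, 0, 46, 36), (40, 18, 6, 54)], [(80, 18, 46, 54), (46, 18, 81, 54),
    (81, 18, 47, 54), (47, 18, 82, 54), (82, 18, 48, 54), (48, 18, 83, 54), (83, 18, 49, 54), (49,
    18, 84, 54), (84, 18, 50, 54), (50, 18, 85, 54), (85, 18, 51, 54), (51, 18, 200, 54), (0, 0,
    6, 36), (40, 0, 46, 36), (40, 18, 6, 54)], [(40, 18, 6, 54), (6, 18, 41, 54), (41, 18, 7, 54),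
    (7, 18, 42, 54), (42, 18, 8, 54), (8, 18, 43, 54), (43, 18, 9, 54), (9, 18, 44, 54), (44, 18,
    10, 54), (10, 18, 45, 54), (45, 18, 11, 54), (11, 18, 160, 54), (0, 0, 6, 36)], [(40, 18, 6,
    54), (6, 18, 41, 54), (41, 18, 7, 54), (7, 18, 42, 54), (42, 18, 8, 54), (8, 18, 43, 54), (43,
    18, 9, 54), (9, 18, 44, 54), (44, 18, 10, 54), (10, 18, 45, 54), (45, 18, 11, 54), (11, 18,
    160, 54), (0, 0, 6, 36)], [(40, 18, 6, 54), (6, 18, 41, 54), (41, 18, 7, 54), (7, 18, 42, 54),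
    (42, 18, 8, 54), (8, 18, 43, 54), (43, 18, 9, 54), (9, 18, 44, 54), (44, 18, 10, 54), (10, 18,
    45, 54), (45, 18, 11, 54), (11, 18, 160, 54)], [], [], [(40, 18, 6, 54), (6, 18, 41, 54), (41,
    18, 42, 54), (7, 66, 42, 30), (7, 67, 47, 29), (0, 0, 6, 36), (2, 66, 7, 30)], [(40, 18, 6,
    54), (6, 18, 41, 54), (41, 18, 42, 54), (7, 66, 42, 30), (7, 67, 47, 29), (0, 0, 6, 36), (2,
    66, 7, 30)], [(40, 18, 6, 54), (6, 18, 41, 54), (41, 18, 42, 54), (7, 66, 42, 30), (7, 67, 47,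
    29)], [(2, 66, 7, 30)]].getD g []

/-- The number of inner vertices of a tile. -/
def nint (g : ℕ) : ℕ := [7, 10, 13, 19, 0, 0, 0, 0, 0, 0, 0, 0, 0].getD g 0

end Pool.Agent.Lib.MP_242159_lc
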