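import Pool.Agent.Lib.MP_acf5a6_lc.Defs

/-!
Crossing-free Lombardi drawings with a prescribed rotation system, as a language of bit strings.
-/

set_option autoImplicit false

namespace Pool.Agent.Lib.MP_242159_lc

open Complex

/-- The list of neighbours of the vertex `u`, in the cyclic order of the rotation system. -/
def nb (A : List (List ℕ)) (u : ℕ) : List ℕ := A.getD u []

/-- `A` lists, for the vertices `0, …, A.length - 1` of a finite simple graph, the neighbours of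
each vertex, each neighbour once. -/
def IsRotGraph (A : List (List ℕ)) : Prop :=
  ∀ u < A.length, (nb A u).Nodup ∧ ∀ v ∈ nb A u, v < A.length ∧ v ≠ u ∧ u ∈ nb A v

/-- On `[0, 1]`, the curve runs along a straight segment or along less than a full circle. -/
def IsArc (γ : ℝ → ℂ) : Prop :=
  (∃ a b : ℂ, ∀ t : ℝ, γ t = a + t * b) ∨
    ∃ (c r : ℂ) (φ : ℝ), |φ| < 2 * Real.pi ∧ ∀ t : ℝ, γ t = c + r * exp (φ * t * I)

/-- A crossing-free Lombardi drawing that respects the rotation system: the vertex `u` sits at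
`p u` and the edge `uv` is the arc `γ u v` on `[0, 1]`. -/
structure IsDrawing (A : List (List ℕ)) (p : ℕ → ℂ) (γ : ℕ → ℕ → ℝ → ℂ) : Prop where
  inj : ∀ u < A.length, ∀ v < A.length, p u = p v → u = v
  arc : ∀ u, ∀ v ∈ nb A u,
    IsArc (γ u v) ∧ γ u v 0 = p u ∧ γ u v 1 = p v ∧ ∀ t, γ v u t = γ u v (1 - t)
  angle : ∀ u, ∃ θ : ℝ, ∀ (k : ℕ) (hk : k < (nb A u).length), ∃ ρ : ℝ, 0 < ρ ∧
    deriv (γ u (nb A u)[k]) 0 = ρ * exp ((θ + 2 * Real.pi * k / (nb A u).length) * I)
  vert : ∀ u, ∀ v ∈ nb A u, ∀ w < A.length, ∀ t ∈ Set.Icc (0 : ℝ) 1,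
    γ u v t = p w → w = u ∨ w = v
  cross : ∀ u, ∀ v ∈ nb A u, ∀ u', ∀ v' ∈ nb A u', s(u, v) ≠ s(u', v') →
    ∀ s ∈ Set.Icc (0 : ℝ) 1, ∀ t ∈ Set.Icc (0 : ℝ) 1, γ u v s = γ u' v' t →
      ∃ w, (w = u ∨ w = v) ∧ (w = u' ∨ w = v') ∧ γ u v s = p w

open Classical in
/-- PLR: binary codes of graphs with a rotation system that have a crossing-free Lombardi
drawing respecting the rotation system. -/
noncomputable def PLR : N68a2faeb.DecisionProblem := fun s =>
  decide (∃ A : List (List ℕ), s = N487b59b3.bitEncode A ∧ IsRotGraph A ∧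
    ∃ p γ, IsDrawing A p γ)

end Pool.Agent.Lib.MP_242159_lc
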