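import Pool.Agent.Lib.MP_242159_lc.ADefs
import Pool.Agent.Lib.MP_acf5a6_lc.Forward

set_option autoImplicit false

namespace Pool.Agent.Lib.MP_242159_lc

open Pool.Agent.Lib.MP_acf5a6_lc Complex Filter Topology

/-- The other end of the edge number `d` at a vertex `u < n`. -/
def oe (n N : ℕ) (E : List Edge) (u d : ℕ) : ℕ := (look E u d).headD (n + (u * N + d))

theorem flat_len {β : Type} (n N : ℕ) (g : ℕ → ℕ → β) :
    ((List.range n).flatMap fun u => (List.range N).map (g u)).length = n * N := by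
  simp [List.length_flatMap]

theorem idx_lt {n N u d : ℕ} (hu : u < n) (hd : d < N) : u * N + d < n * N := by
  have : (u + 1) * N ≤ n * N := Nat.mul_le_mul_right N hu
  nlinarith

theorem idx_div {N u d : ℕ} (hd : d < N) : (u * N + d) / N = u := by
  rw [add_comm, Nat.add_mul_div_right _ _ (by omega), Nat.div_eq_of_lt hd, zero_add]

theorem idx_mod {N u d : ℕ} (hd : d < N) : (u * N + d) % N = d := by
  rw [add_comm, Nat.add_mul_mod_self_right, Nat.mod_eq_of_lt hd]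

theorem flat_get {β : Type} (N : ℕ) (g : ℕ → ℕ → β) {d : ℕ} (hd : d < N) (u : ℕ) :
    ∀ n, u < n →
      ((List.range n).flatMap fun u => (List.range N).map (g u))[u * N + d]? = some (g u d) := by
  intro n
  induction n with
  | zero => omega
  | succ n ih =>
    intro hu
    rw [List.range_succ, List.flatMap_append]
    rcases Nat.lt_succ_iff_lt_or_eq.1 hu with h | rfl
    · rw [List.getElem?_append_left (by rw [flat_len]; exact idx_lt h hd), ih h]
    · rw [List.getElem?_append_right (by rw [flat_len]; omega), flat_len]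
      simp [hd]

variable {n N : ℕ} {E : List Edge}

theorem length_graph : (graph n N E).length = n + n * N := by
  rw [graph, List.length_append, flat_len]; simp

theorem nb_core {u : ℕ} (hu : u < n) : nb (graph n N E) u = (List.range N).map (oe n N E u) := by
  rw [nb, graph, List.getD_eq_getElem?_getD, List.getElem?_append_left (by simpa using hu)]
  simp [hu, oe]

theorem nb_leaf {u d : ℕ} (hu : u < n) (hd : d < N) :
    nb (graph n N E) (n + (u * N + d)) = cond (look E u d).isEmpty [u] [] := by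
  rw [nb, graph, List.getD_eq_getElem?_getD, List.getElem?_append_right (by simp)]
  simp only [List.length_map, List.length_range, Nat.add_sub_cancel_left]
  rw [flat_get N (fun u d => cond (look E u d).isEmpty [u] []) hd u n hu]
  rfl

theorem len_core {u : ℕ} (hu : u < n) : (nb (graph n N E) u).length = N := by
  simp [nb_core hu]

theorem nk_core {u d : ℕ} (hu : u < n) (hd : d < N) : nk (graph n N E) u d = oe n N E u d := by
  simp [nk, nb_core hu, hd]

theorem idx_ex {x : ℕ} (h1 : n ≤ x) (h2 : x < n + n * N) :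
    ∃ u < n, ∃ d < N, x = n + (u * N + d) := by
  have hN : 0 < N := Nat.pos_of_ne_zero (by rintro rfl; omega)
  refine ⟨(x - n) / N, ?_, (x - n) % N, Nat.mod_lt _ hN, ?_⟩
  · rw [Nat.div_lt_iff_lt_mul hN]; omega
  · rw [Nat.div_add_mod']; omega

theorem nb_cases (x : ℕ) : x < n ∨
    (∃ u < n, ∃ d < N, x = n + (u * N + d) ∧ look E u d = [] ∧ nb (graph n N E) x = [u]) ∨
      nb (graph n N E) x = [] := by
  rcases lt_or_ge x n with h | h
  · exact Or.inl h
  right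
  rcases lt_or_ge x (n + n * N) with h' | h'
  · obtain ⟨u, hu, d, hd, rfl⟩ := idx_ex h h'
    rw [nb_leaf hu hd]
    by_cases hl : look E u d = []
    · exact Or.inl ⟨u, hu, d, hd, rfl, hl, by simp [hl]⟩
    · right
      rw [List.isEmpty_eq_false_iff.2 hl]; rfl
  · right
    rw [nb, List.getD_eq_default _ _ (by rw [length_graph]; exact h')]

theorem mem_look {u d v : ℕ} : v ∈ look E u d ↔ (u, d, v) ∈ halves E := by
  simp only [look, List.mem_map, List.mem_filter, Bool.and_eq_true, decide_eq_true_eq]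
  constructor
  · rintro ⟨⟨a, b, c⟩, ⟨h, rfl, rfl⟩, rfl⟩; exact h
  · exact fun h => ⟨_, ⟨h, rfl, rfl⟩, rfl⟩

theorem mem_halves' {h : ℕ × ℕ × ℕ} : h ∈ halves E ↔
    ∃ e ∈ E, h = (e.1, e.2.1, e.2.2.1) ∨ h = (e.2.2.1, e.2.2.2, e.1) := by
  simp only [halves, List.mem_flatMap, List.mem_cons, List.not_mem_nil, or_false]

theorem halves_symm {u d v : ℕ} (h : (u, d, v) ∈ halves E) : ∃ d', (v, d', u) ∈ halves E := by
  obtain ⟨e, he, h | h⟩ := mem_halves'.1 h <;> simp only [Prod.mk.injEq] at h <;>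
    obtain ⟨rfl, rfl, rfl⟩ := h
  · exact ⟨_, mem_halves'.2 ⟨e, he, Or.inr rfl⟩⟩
  · exact ⟨_, mem_halves'.2 ⟨e, he, Or.inl rfl⟩⟩

theorem oe_cases (n N : ℕ) (E : List Edge) (u d : ℕ) : (u, d, oe n N E u d) ∈ halves E ∨
    (look E u d = [] ∧ oe n N E u d = n + (u * N + d)) := by
  rw [← mem_look, oe]
  cases look E u d <;> simp

theorem oe_half (h : WFE n N E) {u d v : ℕ} (hh : (u, d, v) ∈ halves E) : oe n N E u d = v := by
  rcases oe_cases n N E u d with h' | ⟨h', -⟩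
  · exact h.dir _ h' _ hh rfl rfl
  · rw [← mem_look, h'] at hh; simp at hh

theorem half_lt (h : WFE n N E) {u d v : ℕ} (hh : (u, d, v) ∈ halves E) :
    u < n ∧ d < N ∧ v < n ∧ u ≠ v := by
  obtain ⟨d', h'⟩ := halves_symm hh
  exact ⟨(h.bd _ hh).1, (h.bd _ hh).2.1, (h.bd _ h').1, (h.bd _ hh).2.2⟩

theorem graph_rot {n N : ℕ} {E : List Edge} (h : WFE n N E) : IsRotGraph (graph n N E) := by
  intro x _
  rw [length_graph]
  rcases nb_cases (n := n) (N := N) (E := E) x with hx | ⟨u, hu, d, hd, rfl, hl, hx⟩ | hx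
  · rw [nb_core hx]
    refine ⟨List.Nodup.map_on (fun d hd d' hd' he => ?_) List.nodup_range, fun v hv => ?_⟩
    · rcases oe_cases n N E x d with h1 | ⟨-, h1⟩ <;> rcases oe_cases n N E x d' with h2 | ⟨-, h2⟩
      · exact h.par _ h1 _ h2 rfl he
      · have := (half_lt h h1).2.2.1; omega
      · have := (half_lt h h2).2.2.1; omega
      · omega
    · obtain ⟨d, hd, rfl⟩ := List.mem_map.1 hv
      rw [List.mem_range] at hd
      rcases oe_cases n N E x d with h1 | ⟨hl, h1⟩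
      · obtain ⟨d', h2⟩ := halves_symm h1
        obtain ⟨-, -, h3, h4⟩ := half_lt h h1
        refine ⟨by omega, h4.symm, ?_⟩
        rw [nb_core h3]
        exact List.mem_map.2 ⟨d', List.mem_range.2 (half_lt h h2).2.1, oe_half h h2⟩
      · have := idx_lt hx hd
        rw [h1, nb_leaf hx hd, hl]
        exact ⟨by omega, by omega, by simp⟩
  · rw [hx]
    refine ⟨List.nodup_singleton _, fun v hv => ?_⟩
    obtain rfl := List.mem_singleton.1 hv
    refine ⟨by omega, by omega, ?_⟩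
    rw [nb_core hu]
    exact List.mem_map.2 ⟨d, List.mem_range.2 hd, by simp [oe, hl]⟩
  · simp [hx]

/-- The arc parameter of a half edge. -/
noncomputable def Wh (N : ℕ) (p f : ℕ → ℂ) (u d v : ℕ) : ℂ := f u * rt N d / (p v - p u)

theorem half_data (h : WFE n N E) (p f : ℕ → ℂ) {u d v : ℕ} (hh : (u, d, v) ∈ halves E) :
    d < (nb (graph n N E) u).length ∧ nk (graph n N E) u d = v ∧
      Wd (graph n N E) p f u d = Wh N p f u d v := by
  obtain ⟨hu, hd, -, -⟩ := half_lt h hh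
  have h1 : nk (graph n N E) u d = v := by rw [nk_core hu hd, oe_half h hh]
  exact ⟨by rwa [len_core hu], h1, by rw [Wd, h1, len_core hu, Wh]⟩

theorem core_of_alg {n N : ℕ} {E : List Edge} (h : WFE n N E) {p f : ℕ → ℂ}
    (H : Alg (graph n N E) p f) : Core N E p f := by
  have hlt : ∀ a ∈ halves E, a.1 < (graph n N E).length := fun a ha => by
    have := (h.bd a ha).1
    rw [length_graph]; omega
  have hd : ∀ e ∈ E, e.2.1 < (nb (graph n N E) e.1).length ∧ nk (graph n N E) e.1 e.2.1 = e.2.2.1 ∧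
      Wd (graph n N E) p f e.1 e.2.1 = We N p f e := fun e he =>
    half_data h p f (mem_halves'.2 ⟨e, he, Or.inl rfl⟩)
  refine ⟨fun a ha b hb => H.inj _ (hlt a ha) _ (hlt b hb), fun e he => ?_, fun e he => ?_,
    fun e he a ha => ?_, fun e he e' he' hs z => ?_⟩
  · obtain ⟨h1, -, h3⟩ := hd e he
    exact h3 ▸ H.slit _ _ h1
  · obtain ⟨h1, h2, h3⟩ := hd e he
    have hr : (e.2.2.1, e.2.2.2, e.1) ∈ halves E := mem_halves'.2 ⟨e, he, Or.inr rfl⟩
    obtain ⟨h4, h5, -⟩ := half_data h p f hr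
    have := H.tan _ _ h1 e.2.2.2 (by rwa [h2]) (by rwa [h2])
    rwa [h2, h3, len_core (half_lt h hr).1] at this
  · obtain ⟨h1, h2, h3⟩ := hd e he
    have := H.vert _ _ h1 _ (hlt a ha)
    rwa [h2, h3] at this
  · obtain ⟨h1, h2, h3⟩ := hd e he
    obtain ⟨h4, h5, h6⟩ := hd e' he'
    have := H.cross _ _ h1 _ _ h4 (by rwa [h2, h5]) z
    rwa [h2, h3, h5, h6] at this

theorem onArc_symm {a b W W' z : ℂ} {ρ : ℝ} (hρ : 0 < ρ) (h : W' * W = ρ) (H : OnArc a b W z) :
    OnArc b a W' z := by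
  obtain ⟨l, hl, hz⟩ := H
  refine ⟨1 / (l * ρ), by positivity, ?_⟩
  have h1 : (l : ℂ) ≠ 0 := by exact_mod_cast hl.ne'
  have h2 : (ρ : ℂ) ≠ 0 := by exact_mod_cast hρ.ne'
  push_cast
  field_simp
  linear_combination W' * hz + l * (b - z) * h

theorem slit_symm {W W' : ℂ} {ρ : ℝ} (hρ : 0 < ρ) (h : W' * W = ρ) (H : W ∈ slitPlane) :
    W' ∈ slitPlane := by
  rw [mem_slitPlane_iff] at H ⊢
  by_contra hc
  push Not at hc
  have h1 := congrArg re h
  have h2 := congrArg im h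
  simp only [mul_re, mul_im, hc.2, ofReal_re, ofReal_im, zero_mul, sub_zero, add_zero] at h1 h2
  rcases H with H | H
  · nlinarith [hc.1]
  · rw [(mul_eq_zero.1 h2).resolve_right H] at h1
    linarith

theorem onArc_bdd (a b : ℂ) {W : ℂ} (hW : W ∈ slitPlane) : ∃ R, ∀ z, OnArc a b W z → ‖z‖ ≤ R := by
  obtain ⟨c, hc, H⟩ : ∃ c : ℝ, 0 < c ∧ ∀ l : ℝ, 0 < l → c ≤ ‖1 + l * W‖ := by
    rcases mem_slitPlane_iff.1 hW with h | h
    · refine ⟨1, one_pos, fun l hl => le_trans ?_ (re_le_norm _)⟩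
      simp only [add_re, one_re, re_ofReal_mul]
      nlinarith
    · have h0 : 0 < ‖W‖ := norm_pos_iff.2 (slitPlane_ne_zero hW)
      refine ⟨|W.im| / ‖W‖, by positivity, fun l _ => ?_⟩
      rw [div_le_iff₀ h0, ← norm_conj W, ← norm_mul]
      refine le_trans (le_of_eq ?_) (abs_im_le_norm _)
      rw [← abs_neg]
      congr 1
      simp only [mul_im, add_re, add_im, one_re, one_im, mul_re, ofReal_re, ofReal_im, conj_re,
        conj_im]
      ring
  refine ⟨‖b‖ + ‖a - b‖ / c, fun z ⟨l, hl, hz⟩ => ?_⟩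
  have h1 : ‖z - b‖ * ‖1 + l * W‖ = ‖a - b‖ := by
    rw [← norm_mul]; congr 1; linear_combination hz
  have h2 : ‖z - b‖ ≤ ‖a - b‖ / c := by
    rw [le_div_iff₀ hc, ← h1]
    exact mul_le_mul_of_nonneg_left (H l hl) (norm_nonneg _)
  have h3 := norm_add_le b (z - b)
  rw [add_sub_cancel] at h3
  linarith

theorem norm_rt (d k : ℕ) : ‖rt d k‖ = 1 := by
  have : rt d k = exp ((2 * Real.pi * k / d : ℝ) * I) := by rw [rt]; push_cast; rfl
  rw [this, norm_exp_ofReal_mul_I]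

theorem rt_ne' (d k : ℕ) : rt d k ≠ 0 := exp_ne_zero _

theorem rt_inj {d k : ℕ} (hd : d < N) (hk : k < N) {x y : ℝ} (hx : 0 < x) (hy : 0 ≤ y)
    (h : x * rt N d = y * rt N k) : d = k := by
  have h1 := congrArg norm h
  simp only [norm_mul, norm_rt, mul_one, norm_real, Real.norm_eq_abs, abs_of_pos hx,
    abs_of_nonneg hy] at h1
  subst h1
  have h2 := mul_left_cancel₀ (by exact_mod_cast hx.ne') h
  have h3 : ∀ j : ℕ, rt N j = exp (2 * Real.pi * I / N) ^ j := fun j => by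
    rw [rt, ← exp_nat_mul]; congr 1; ring
  rw [h3, h3] at h2
  exact (isPrimitiveRoot_exp N (by omega)).pow_inj hd hk h2

theorem ev_ne {φ : ℝ → ℂ} (hφ : ContinuousAt φ 0) (h : ∀ y : ℝ, 0 ≤ y → φ 0 ≠ y) :
    ∀ᶠ l in 𝓝[>] 0, ∀ y : ℝ, 0 ≤ y → φ l ≠ y := by
  have hS : IsClosed {w : ℂ | w.im = 0 ∧ 0 ≤ w.re} :=
    (isClosed_eq continuous_im continuous_const).inter (isClosed_le continuous_const continuous_re)
  have h0 : φ 0 ∈ {w : ℂ | w.im = 0 ∧ 0 ≤ w.re}ᶜ := fun hc =>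
    h _ hc.2 (Complex.ext (by simp) (by simpa using hc.1))
  filter_upwards [nhdsWithin_le_nhds (hφ (hS.isOpen_compl.mem_nhds h0))] with l hl y hy hc
  exact hl (by rw [Set.mem_ofPred_eq, hc]; simpa using hy)

theorem div_real {x D : ℂ} {l : ℝ} (hl : 0 ≤ l) (h : x = l * D) : ∃ y : ℝ, 0 ≤ y ∧ x / D = y := by
  by_cases hD : D = 0
  · exact ⟨0, le_rfl, by simp [hD]⟩
  · exact ⟨l, hl, by rw [h, mul_div_cancel_right₀ _ hD]⟩

theorem ev_off {a b W q : ℂ} (T : ℂ) (hW : W ≠ 0) (ha : q ≠ a) (hb : q ≠ b) (h : ¬ OnArc a b W q) :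
    ∀ᶠ l : ℝ in 𝓝[>] 0, ¬ OnArc a b W (q + l * T) := by
  have hD : W * (b - q) ≠ 0 := mul_ne_zero hW (sub_ne_zero.2 hb.symm)
  have := ev_ne (φ := fun l : ℝ => (q + l * T - a) / (W * (b - (q + l * T))))
    (ContinuousAt.div (by fun_prop) (by fun_prop) (by simpa using hD)) fun y hy hc => by
      simp only [ofReal_zero, zero_mul, add_zero, div_eq_iff hD] at hc
      rcases hy.eq_or_lt with rfl | hy
      · exact ha (by simpa [sub_eq_zero] using hc)
      · exact h ⟨y, hy, by rw [hc, mul_assoc]⟩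
  filter_upwards [this] with l hl ⟨m, hm, hz⟩
  obtain ⟨y, hy, h1⟩ := div_real hm.le (hz.trans (mul_assoc _ _ _))
  exact hl y hy h1

theorem ev_end {a b W T : ℂ} (hD : W * (b - a) ≠ 0) (h : ∀ y : ℝ, 0 ≤ y → T ≠ y * (W * (b - a))) :
    ∀ᶠ l : ℝ in 𝓝[>] 0, ¬ OnArc a b W (a + l * T) := by
  have := ev_ne (φ := fun l : ℝ => T / (W * (b - (a + l * T))))
    (ContinuousAt.div (by fun_prop) (by fun_prop) (by simpa using hD)) fun y hy hc => by
      simp only [ofReal_zero, zero_mul, add_zero, div_eq_iff hD] at hc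
      exact h y hy hc
  filter_upwards [this, self_mem_nhdsWithin] with l hl (hl0 : 0 < l) ⟨m, hm, hz⟩
  have h0 : (l : ℂ) ≠ 0 := by exact_mod_cast hl0.ne'
  obtain ⟨y, hy, h1⟩ := div_real (x := T) (D := W * (b - (a + l * T))) (div_pos hm hl0).le (by
    push_cast
    field_simp
    linear_combination hz)
  exact hl y hy h1

theorem onArc_seg {a T z : ℂ} {δ : ℝ} (hδ : 0 < δ) (h : OnArc a (a + δ * T) (δ⁻¹ : ℝ) z) :
    ∃ l ∈ Set.Ioo 0 δ, z = a + l * T := by
  obtain ⟨l, hl, hz⟩ := h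
  refine ⟨l * δ / (δ + l), ⟨by positivity, by rw [div_lt_iff₀ (by positivity)]; nlinarith⟩, ?_⟩
  have h1 : (δ : ℂ) ≠ 0 := by exact_mod_cast hδ.ne'
  have h2 : (δ : ℂ) + l ≠ 0 := by exact_mod_cast (add_pos hδ hl).ne'
  push_cast at hz ⊢
  field_simp at hz ⊢
  linear_combination hz

theorem half_edge {p f : ℕ → ℂ} (H : Core N E p f) {u k v : ℕ} (hh : (u, k, v) ∈ halves E) :
    Wh N p f u k v ∈ slitPlane ∧
      (∃ k', (v, k', u) ∈ halves E ∧ ∃ ρ : ℝ, 0 < ρ ∧ Wh N p f v k' u * Wh N p f u k v = ρ) ∧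
      ∃ e ∈ E, s(u, v) = s(e.1, e.2.2.1) ∧
        ∀ z, OnArc (p u) (p v) (Wh N p f u k v) z → OnArc (p e.1) (p e.2.2.1) (We N p f e) z := by
  obtain ⟨e, he, hh⟩ := mem_halves'.1 hh
  have h1 := H.slit e he
  obtain ⟨ρ, hρ, h2⟩ := H.tan e he
  have h3 : p e.1 - p e.2.2.1 ≠ 0 := fun hc => by
    rw [We, ← neg_sub, hc] at h1; simp at h1
  have h4 : Wh N p f e.2.2.1 e.2.2.2 e.1 * We N p f e = ρ := by
    rw [Wh, div_mul_eq_mul_div, h2, mul_div_cancel_right₀ _ h3]
  rcases hh with hh | hh <;> simp only [Prod.mk.injEq] at hh <;> obtain ⟨rfl, rfl, rfl⟩ := hh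
  · exact ⟨h1, ⟨_, mem_halves'.2 ⟨e, he, Or.inr rfl⟩, ρ, hρ, h4⟩, e, he, rfl, fun _ hz => hz⟩
  · exact ⟨slit_symm hρ h4 h1, ⟨_, mem_halves'.2 ⟨e, he, Or.inl rfl⟩, ρ, hρ,
      (mul_comm _ _).trans h4⟩, e, he, Sym2.eq_swap,
      fun _ hz => onArc_symm hρ ((mul_comm _ _).trans h4) hz⟩

theorem core_far {p f : ℕ → ℂ} (H : Core N E p f) : ∃ p f : ℕ → ℂ, Core N E p f ∧
    Function.Injective p ∧ (∀ u, f u ≠ 0) ∧
      ∀ e ∈ E, ∀ w, ¬ OnArc (p e.1) (p e.2.2.1) (We N p f e) (p w) := by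
  classical
  obtain ⟨R, hR0, hR1, hR2⟩ : ∃ R : ℝ, 0 ≤ R ∧ (∀ a ∈ halves E, ‖p a.1‖ < R) ∧
      ∀ e ∈ E, ∀ z, OnArc (p e.1) (p e.2.2.1) (We N p f e) z → ‖z‖ < R := by
    have h1 : ∀ᶠ R : ℝ in atTop, ∀ a ∈ halves E, ‖p a.1‖ < R :=
      (eventually_all_finite (halves E).finite_toSet).2 fun a _ => eventually_gt_atTop _
    have h2 : ∀ᶠ R : ℝ in atTop,
        ∀ e ∈ E, ∀ z, OnArc (p e.1) (p e.2.2.1) (We N p f e) z → ‖z‖ < R :=
      (eventually_all_finite E.finite_toSet).2 fun e he => by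
        obtain ⟨R, hR⟩ := onArc_bdd (p e.1) (p e.2.2.1) (H.slit e he)
        filter_upwards [eventually_gt_atTop R] with S hS z hz using (hR z hz).trans_lt hS
    exact ((eventually_ge_atTop 0).and (h1.and h2)).exists
  set U : ℕ → Prop := fun u => ∃ a ∈ halves E, a.1 = u with hU
  set q : ℕ → ℂ := fun u => if U u then p u else ((R + u : ℝ) : ℂ) with hq
  set g : ℕ → ℂ := fun u => if U u then f u else 1 with hg
  have h1 : ∀ a ∈ halves E, q a.1 = p a.1 := fun a ha => if_pos ⟨a, ha, rfl⟩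
  have h2 : ∀ a ∈ halves E, g a.1 = f a.1 := fun a ha => if_pos ⟨a, ha, rfl⟩
  have h3 : ∀ e ∈ E, q e.1 = p e.1 ∧ q e.2.2.1 = p e.2.2.1 ∧ g e.2.2.1 = f e.2.2.1 ∧
      We N q g e = We N p f e := fun e he => by
    have a1 : (e.1, e.2.1, e.2.2.1) ∈ halves E := mem_halves'.2 ⟨e, he, Or.inl rfl⟩
    have a2 : (e.2.2.1, e.2.2.2, e.1) ∈ halves E := mem_halves'.2 ⟨e, he, Or.inr rfl⟩
    exact ⟨h1 _ a1, h1 _ a2, h2 _ a2, by rw [We, We, h1 _ a1, h1 _ a2, h2 _ a1]⟩
  have h4 : ∀ u, ¬ U u → R ≤ ‖q u‖ := fun u hu => by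
    rw [hq]
    simp only [if_neg hu, norm_real, Real.norm_eq_abs]
    exact le_trans (by simp) (le_abs_self _)
  have h5 : ∀ e ∈ E, ∀ w, ¬ OnArc (q e.1) (q e.2.2.1) (We N q g e) (q w) := fun e he w => by
    obtain ⟨a1, a2, -, a4⟩ := h3 e he
    rw [a1, a2, a4]
    by_cases hw : U w
    · obtain ⟨a, ha, rfl⟩ := hw
      rw [h1 a ha]
      exact H.vert e he a ha
    · exact fun hc => (hR2 e he _ hc).not_ge (h4 w hw)
  refine ⟨q, g, ⟨fun a ha b hb => ?_, fun e he => ?_, fun e he => ?_, fun e he a _ => h5 e he _,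
    fun e he e' he' hs z => ?_⟩, fun u v huv => ?_, fun u => ?_, h5⟩
  · rw [h1 a ha, h1 b hb]; exact H.inj a ha b hb
  · rw [(h3 e he).2.2.2]; exact H.slit e he
  · obtain ⟨a1, a2, a3, a4⟩ := h3 e he
    rw [a1, a2, a3, a4]; exact H.tan e he
  · obtain ⟨a1, a2, -, a4⟩ := h3 e he
    obtain ⟨b1, b2, -, b4⟩ := h3 e' he'
    rw [a1, a2, a4, b1, b2, b4]; exact H.cross e he e' he' hs z
  · by_cases hu : U u <;> by_cases hv : U v
    · obtain ⟨a, ha, rfl⟩ := hu
      obtain ⟨b, hb, rfl⟩ := hv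
      rw [h1 a ha, h1 b hb] at huv
      exact H.inj a ha b hb huv
    · obtain ⟨a, ha, rfl⟩ := hu
      have := h4 v hv
      rw [← huv, h1 a ha] at this
      exact absurd (hR1 a ha) this.not_gt
    · obtain ⟨a, ha, rfl⟩ := hv
      have := h4 u hu
      rw [huv, h1 a ha] at this
      exact absurd (hR1 a ha) this.not_gt
    · simpa [hq, hu, hv] using huv
  · by_cases hu : U u
    · obtain ⟨⟨a, k, v⟩, ha, rfl⟩ := hu
      rw [h2 _ ha]
      intro hc
      have := (half_edge H ha).1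
      rw [Wh, show f a = 0 from hc] at this
      simp at this
    · simp [hg, hu]

theorem enc_small (h : WFE n N E) {p f : ℕ → ℂ} (H : Core N E p f) (hp : Function.Injective p)
    (hf : ∀ u, f u ≠ 0) (hv : ∀ e ∈ E, ∀ w, ¬ OnArc (p e.1) (p e.2.2.1) (We N p f e) (p w)) :
    ∃ δ : ℝ, 0 < δ ∧ ∀ l ∈ Set.Ioc 0 δ, ∀ a < n, ∀ d < N, look E a d = [] →
      (∀ w < n + n * N, w ≠ a → ‖l * (f a * rt N d)‖ < ‖p a - p w‖ / 2) ∧
        ∀ e ∈ E, ¬ OnArc (p e.1) (p e.2.2.1) (We N p f e) (p a + l * (f a * rt N d)) := by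
  refine mem_nhdsGT_iff_exists_Ioc_subset.1 ((eventually_all_finite (Set.finite_Iio n)).2
    fun a _ => (eventually_all_finite (Set.finite_Iio N)).2 fun d hd => ?_)
  by_cases hl : look E a d = []
  swap
  · exact Eventually.of_forall fun _ hc => absurd hc hl
  have key : ∀ k v, (a, k, v) ∈ halves E → ∀ᶠ l : ℝ in 𝓝[>] 0,
      ¬ OnArc (p a) (p v) (Wh N p f a k v) (p a + l * (f a * rt N d)) := fun k v hh => by
    obtain ⟨-, hk, -, hne⟩ := half_lt h hh
    have h1 : Wh N p f a k v * (p v - p a) = f a * rt N k :=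
      div_mul_cancel₀ _ (sub_ne_zero.2 fun hc => hne (hp hc).symm)
    refine ev_end (by rw [h1]; exact mul_ne_zero (hf a) (rt_ne' _ _)) fun y hy hc => ?_
    obtain rfl : d = k := rt_inj hd hk one_pos hy (mul_left_cancel₀ (hf a) (by
      rw [h1] at hc; push_cast; linear_combination hc))
    rw [← mem_look, hl] at hh
    simp at hh
  refine Eventually.mono (Eventually.and ((eventually_all_finite (Set.finite_Iio _)).2
    fun w _ => ?_) ((eventually_all_finite E.finite_toSet).2 fun e he => ?_)) fun _ hc _ => hc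
  · by_cases hw : w = a
    · exact Eventually.of_forall fun _ hc => absurd hw hc
    have h0 : 0 < ‖p a - p w‖ / 2 :=
      half_pos (norm_pos_iff.2 (sub_ne_zero.2 fun hc => hw (hp hc).symm))
    have hc : ContinuousAt (fun l : ℝ => ‖l * (f a * rt N d)‖) 0 := by fun_prop
    have h1 : ‖((0 : ℝ) : ℂ) * (f a * rt N d)‖ < ‖p a - p w‖ / 2 := by
      rwa [ofReal_zero, zero_mul, norm_zero]
    filter_upwards [nhdsWithin_le_nhds (hc.eventually (gt_mem_nhds h1))] with l hl _ using hl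
  · have a1 : (e.1, e.2.1, e.2.2.1) ∈ halves E := mem_halves'.2 ⟨e, he, Or.inl rfl⟩
    by_cases h1 : a = e.1
    · subst h1; exact key _ _ a1
    by_cases h2 : a = e.2.2.1
    · obtain ⟨-, ⟨k', a2, ρ, hρ, a3⟩, -⟩ := half_edge H a1
      subst h2
      exact (key _ _ a2).mono fun l hl hc => hl (onArc_symm hρ a3 hc)
    · exact ev_off _ (slitPlane_ne_zero (H.slit e he)) (hp.ne h1) (hp.ne h2) (hv e he a)

theorem alg_of_core {n N : ℕ} {E : List Edge} (h : WFE n N E) {p f : ℕ → ℂ}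
    (H : Core N E p f) : ∃ p' f', Alg (graph n N E) p' f' := by
  classical
  obtain ⟨p, f, H, hp, hf, hv⟩ := core_far H
  obtain ⟨δ, hδ, hs⟩ := enc_small h H hp hf hv
  have hδ' : δ ∈ Set.Ioc 0 δ := ⟨hδ, le_rfl⟩
  set T : ℕ → ℕ → ℂ := fun a d => f a * rt N d with hT
  have hT0 : ∀ a d, T a d ≠ 0 := fun a d => mul_ne_zero (hf a) (rt_ne' _ _)
  set P : ℕ → ℂ := fun x => if n ≤ x ∧ look E ((x - n) / N) ((x - n) % N) = [] then
    p ((x - n) / N) + δ * T ((x - n) / N) ((x - n) % N) else p x with hP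
  set F : ℕ → ℂ := fun x => if n ≤ x then - T ((x - n) / N) ((x - n) % N) else f x with hF
  have hP1 : ∀ x < n, P x = p x := fun x hx => if_neg fun hc => by omega
  have hF1 : ∀ x < n, F x = f x := fun x hx => if_neg fun hc => by omega
  have hP2 : ∀ a, ∀ d < N, look E a d = [] → P (n + (a * N + d)) = p a + δ * T a d :=
    fun a d hd hl => by simp [hP, idx_div hd, idx_mod hd, hl]
  have hF2 : ∀ a, ∀ d < N, F (n + (a * N + d)) = - T a d :=
    fun a d hd => by simp [hF, idx_div hd, idx_mod hd]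
  have hP3 : ∀ w < n + n * N, P w = p w ∨ ∃ a < n, ∃ d < N, look E a d = [] ∧
      w = n + (a * N + d) ∧ P w = p a + δ * T a d := fun w hw => by
    rcases lt_or_ge w n with h1 | h1
    · exact Or.inl (hP1 w h1)
    obtain ⟨a, ha, d, hd, rfl⟩ := idx_ex h1 hw
    by_cases hl : look E a d = []
    · exact Or.inr ⟨a, ha, d, hd, hl, rfl, hP2 a d hd hl⟩
    · exact Or.inl (by simp [hP, idx_div hd, idx_mod hd, hl])
  have s1 : ∀ l ∈ Set.Ioc 0 δ, ∀ a < n, ∀ d < N, look E a d = [] → ∀ w < n + n * N,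
      p a + l * T a d ≠ p w := fun l hl a ha d hd hk w hw hc => by
    by_cases hwa : w = a
    · subst hwa
      have h1 : (l : ℂ) ≠ 0 := by exact_mod_cast hl.1.ne'
      exact mul_ne_zero h1 (hT0 w d) (by linear_combination hc)
    · have h1 := (hs l hl a ha d hd hk).1 w hw hwa
      rw [← hc, sub_add_cancel_left, norm_neg] at h1
      linarith [norm_nonneg (l * T a d)]
  have s2 : ∀ l ∈ Set.Ioc 0 δ, ∀ a < n, ∀ d < N, look E a d = [] → ∀ l' ∈ Set.Ioc 0 δ, ∀ a' < n,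
      ∀ d' < N, look E a' d' = [] → p a + l * T a d = p a' + l' * T a' d' →
        a = a' ∧ d = d' ∧ l = l' := fun l hl a ha d hd hk l' hl' a' ha' d' hd' hk' hc => by
    by_cases haa : a = a'
    · subst haa
      obtain rfl : d = d' := rt_inj hd hd' hl.1 hl'.1.le (mul_left_cancel₀ (hf a) (by
        simp only [hT] at hc; linear_combination hc))
      exact ⟨rfl, rfl, by exact_mod_cast mul_right_cancel₀ (hT0 a d) (add_left_cancel hc)⟩
    · have h1 := (hs l hl a ha d hd hk).1 a' (by omega) (Ne.symm haa)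
      have h2 := (hs l' hl' a' ha' d' hd' hk').1 a (by omega) haa
      have h3 := norm_sub_le (l' * T a' d') (l * T a d)
      rw [show l' * T a' d' - l * T a d = p a - p a' by linear_combination -hc] at h3
      rw [norm_sub_rev] at h2
      linarith
  have nf : ∀ x, ∀ k < (nb (graph n N E) x).length,
      ((x, k, nk (graph n N E) x k) ∈ halves E ∧ P x = p x ∧
        P (nk (graph n N E) x k) = p (nk (graph n N E) x k) ∧
        Wd (graph n N E) P F x k = Wh N p f x k (nk (graph n N E) x k)) ∨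
      ∃ a < n, ∃ d < N, look E a d = [] ∧ s(x, nk (graph n N E) x k) = s(a, n + (a * N + d)) ∧
        Wd (graph n N E) P F x k = (δ⁻¹ : ℝ) ∧ ∀ z, OnArc (P x) (P (nk (graph n N E) x k))
          (Wd (graph n N E) P F x k) z → ∃ l ∈ Set.Ioo 0 δ, z = p a + l * T a d := by
    intro x k hk
    have h0 : (δ : ℂ) ≠ 0 := by exact_mod_cast hδ.ne'
    rcases nb_cases (n := n) (N := N) (E := E) x with hx | ⟨a, ha, d, hd, rfl, hl, hx⟩ | hx
    · rw [len_core hx] at hk
      rw [Wd, len_core hx, nk_core hx hk, hP1 x hx, hF1 x hx]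
      rcases oe_cases n N E x k with h1 | ⟨hl, h1⟩
      · exact Or.inl ⟨h1, rfl, hP1 _ (half_lt h h1).2.2.1, by rw [hP1 _ (half_lt h h1).2.2.1, Wh]⟩
      · have h2 : f x * rt N k / (p x + δ * T x k - p x) = (δ⁻¹ : ℝ) := by
          have := hT0 x k
          rw [add_sub_cancel_left, show f x * rt N k = T x k from rfl]
          push_cast
          field_simp
        rw [h1, hP2 x k hk hl, h2]
        exact Or.inr ⟨x, hx, k, hk, hl, rfl, rfl, fun z hz => onArc_seg hδ hz⟩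
    · obtain rfl : k = 0 := by simpa [hx] using hk
      have h1 : nk (graph n N E) (n + (a * N + d)) 0 = a := by simp [nk, hx]
      have h2 : - T a d * rt (nb (graph n N E) (n + (a * N + d))).length 0 /
          (p a - (p a + δ * T a d)) = (δ⁻¹ : ℝ) := by
        have := hT0 a d
        rw [sub_add_cancel_left, rt]
        push_cast
        field_simp
        simp
      rw [Wd, h1, hP2 a d hd hl, hF2 a d hd, hP1 a ha, h2]
      exact Or.inr ⟨a, ha, d, hd, hl, Sym2.eq_swap, rfl, fun z hz => onArc_seg hδ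
        (onArc_symm (ρ := δ⁻¹ * δ⁻¹) (by positivity) (by push_cast; rfl) hz)⟩
    · simp [hx] at hk
  have slit : ∀ u, ∀ k < (nb (graph n N E) u).length, Wd (graph n N E) P F u k ∈ slitPlane :=
    fun u k hk => by
      rcases nf u k hk with ⟨h1, -, -, h2⟩ | ⟨a, -, d, -, -, -, h2, -⟩ <;> rw [h2]
      · exact (half_edge H h1).1
      · exact ofReal_mem_slitPlane.2 (inv_pos.2 hδ)
  have mix : ∀ {x k y a d : ℕ}, (x, k, y) ∈ halves E → s(x, y) ≠ s(a, n + (a * N + d)) :=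
    fun hh hc => by
      obtain ⟨h1, -, h2, -⟩ := half_lt h hh
      rw [Sym2.eq_iff] at hc
      omega
  refine ⟨P, F, fun u hu v hv huv => ?_, slit, fun u k hk k' hk' hb => ?_, fun u k hk w hw hc => ?_,
    fun u k hk u' k' hk' hne z hz hz' => ?_⟩
  · rw [length_graph] at hu hv
    rcases hP3 u hu with h1 | ⟨a, ha, d, hd, hl, rfl, h1⟩ <;>
      rcases hP3 v hv with h2 | ⟨a', ha', d', hd', hl', rfl, h2⟩ <;> rw [h1, h2] at huv
    · exact hp huv
    · exact absurd huv.symm (s1 δ hδ' a' ha' d' hd' hl' u hu)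
    · exact absurd huv (s1 δ hδ' a ha d hd hl v hv)
    · obtain ⟨rfl, rfl, -⟩ := s2 δ hδ' a ha d hd hl δ hδ' a' ha' d' hd' hl' huv
      rfl
  · obtain ⟨ρ, hρ, h1⟩ : ∃ ρ : ℝ, 0 < ρ ∧
        Wd (graph n N E) P F (nk (graph n N E) u k) k' * Wd (graph n N E) P F u k = ρ := by
      rcases nf u k hk with ⟨a1, -, -, a2⟩ | ⟨a, -, d, -, -, a1, a2, -⟩ <;>
        rcases nf _ k' hk' with ⟨b1, -, -, b2⟩ | ⟨a', -, d', -, -, b1, b2, -⟩ <;>
        rw [hb] at b1 <;> rw [a2, b2]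
      · obtain ⟨-, ⟨k'', c1, c2⟩, -⟩ := half_edge H a1
        obtain rfl : k' = k'' := h.par _ b1 _ c1 rfl rfl
        rwa [hb]
      · exact absurd (Sym2.eq_swap.trans b1) (mix a1)
      · exact absurd (Sym2.eq_swap.trans a1) (mix b1)
      · exact ⟨δ⁻¹ * δ⁻¹, by positivity, by push_cast; rfl⟩
    have h2 : P u - P (nk (graph n N E) u k) ≠ 0 := fun hc => by
      have := slit u k hk
      rw [Wd, ← neg_sub, hc] at this
      simp at this
    refine ⟨ρ, hρ, ?_⟩
    rw [Wd, hb, div_mul_eq_mul_div, div_eq_iff h2] at h1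
    exact h1
  · rw [length_graph] at hw
    rcases nf u k hk with ⟨a1, a2, a3, a4⟩ | ⟨a, ha, d, hd, hl, -, -, a1⟩
    · rw [a2, a3, a4] at hc
      obtain ⟨-, -, e, he, -, a5⟩ := half_edge H a1
      rcases hP3 w hw with h1 | ⟨a', ha', d', hd', hl', -, h1⟩ <;> rw [h1] at hc
      · exact hv e he w (a5 _ hc)
      · exact (hs δ hδ' a' ha' d' hd' hl').2 e he (a5 _ hc)
    · obtain ⟨l, hl1, a2⟩ := a1 _ hc
      rcases hP3 w hw with h1 | ⟨a', ha', d', hd', hl', -, h1⟩ <;> rw [h1] at a2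
      · exact s1 l ⟨hl1.1, hl1.2.le⟩ a ha d hd hl w hw a2.symm
      · exact hl1.2.ne' (s2 δ hδ' a' ha' d' hd' hl' l ⟨hl1.1, hl1.2.le⟩ a ha d hd hl a2).2.2
  · rcases nf u k hk with ⟨a1, a2, a3, a4⟩ | ⟨a, ha, d, hd, hl, a0, -, a1⟩ <;>
      rcases nf u' k' hk' with ⟨b1, b2, b3, b4⟩ | ⟨a', ha', d', hd', hl', b0, -, b1⟩
    · rw [a2, a3, a4] at hz
      rw [b2, b3, b4] at hz'
      obtain ⟨-, -, e, he, a5, a6⟩ := half_edge H a1
      obtain ⟨-, -, e', he', b5, b6⟩ := half_edge H b1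
      exact H.cross e he e' he' (by rwa [← a5, ← b5]) z (a6 z hz) (b6 z hz')
    · rw [a2, a3, a4] at hz
      obtain ⟨-, -, e, he, -, a6⟩ := half_edge H a1
      obtain ⟨l, hl1, rfl⟩ := b1 z hz'
      exact (hs l ⟨hl1.1, hl1.2.le⟩ a' ha' d' hd' hl').2 e he (a6 _ hz)
    · rw [b2, b3, b4] at hz'
      obtain ⟨-, -, e, he, -, b6⟩ := half_edge H b1
      obtain ⟨l, hl1, rfl⟩ := a1 z hz
      exact (hs l ⟨hl1.1, hl1.2.le⟩ a ha d hd hl).2 e he (b6 _ hz')
    · obtain ⟨l, hl1, rfl⟩ := a1 z hz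
      obtain ⟨l', hl2, hc⟩ := b1 _ hz'
      obtain ⟨rfl, rfl, -⟩ := s2 l ⟨hl1.1, hl1.2.le⟩ a ha d hd hl l' ⟨hl2.1, hl2.2.le⟩ a' ha' d' hd'
        hl' hc
      exact hne (a0.trans b0.symm)

theorem graph_PT {α : Type} [N487b59b3 α] {n N : α → Un} {E : α → List Edge} (hn : PT n)
    (hN : PT N) (hE : PT E) : PT (fun a => graph (n a).n (N a).n (E a)) := by
  unfold graph look halves
  fun_prop

end Pool.Agent.Lib.MP_242159_lc
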