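import Pool.Agent.Lib.MP_acf5a6_lc.Forward

set_option autoImplicit false

namespace Pool.Agent.Lib.MP_242159_lc

open Pool.Agent.Lib.MP_acf5a6_lc Filter Topology

section

open Polynomial

theorem pencil_root {I : Type} [Fintype I] [DecidableEq I] (A B : Matrix I I ℤ) {h : ℕ}
    (hA : ∀ a b, (A a b).natAbs ≤ 1) (hB : ∀ a b, (B a b).natAbs ≤ h)
    {lam s : ℕ → ℝ} {x : ℝ} (hl : Tendsto lam atTop (𝓝 x)) (hs : Tendsto s atTop atTop)
    (hs0 : ∀ m, s m ≠ 0)
    (hv : ∀ m, ∃ v : I → ℝ, v ≠ 0 ∧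
      ∀ a, lam m * v a = ∑ b, (A a b : ℝ) * v b + s m * ∑ b, (B a b : ℝ) * v b) :
    ∃ c : ℤ[X], c ≠ 0 ∧
      (∀ l, (c.coeff l).natAbs ≤ (Fintype.card I).factorial * (h + 2) ^ Fintype.card I) ∧
      c.eval₂ (Int.castRingHom ℝ) x = 0 := by
  let M : Matrix I I ℤ[X][X] := fun a b =>
    C (Matrix.charmatrix A a b) - X * C (C (B a b))
  have hM : ∀ a b, Sm (M a b) (h + 2) := by
    intro a b
    have e1 : Sm (X * C (C (B a b))) h := by
      have := (Sm.mon (B a b) 1 0).mono (hB a b)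
      rwa [monomial_zero_left, ← C_mul_X_eq_monomial, mul_comm] at this
    have e2 : Sm (C (C (A a b))) 1 := by simpa using (Sm.mon (A a b) 0 0).mono (hA a b)
    have e3 : Sm (C X) 1 := by simpa [monomial_one_one_eq_X] using Sm.mon 1 0 1
    by_cases hab : a = b
    · subst hab
      have := (e3.add' e2.neg).add' e1.neg
      simp only [M, Matrix.charmatrix_apply_eq, sub_eq_add_neg, map_add, map_neg]
      exact this.mono (by omega)
    · have := e2.neg.add' e1.neg
      simp only [M, Matrix.charmatrix_apply_ne _ _ _ hab, sub_eq_add_neg, map_neg]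
      exact this.mono (by omega)
  have hdet := Sm.det hM
  have h0 : M.det ≠ 0 := by
    intro h0
    have e : (evalRingHom (0 : ℤ[X])) M.det = A.charpoly := by
      rw [RingHom.map_det, Matrix.charpoly]
      congr 1
      ext a b : 2
      simp [M]
    rw [h0, map_zero] at e
    exact A.charpoly_monic.ne_zero e.symm
  have hz : ∀ m, M.det.reverse.eval₂ (eval₂RingHom (Int.castRingHom ℝ) (lam m)) (s m)⁻¹ = 0 := by
    intro m
    let _ := invertibleOfNonzero (hs0 m)
    rw [← invOf_eq_inv, eval₂_reverse_eq_zero_iff]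
    obtain ⟨v, hv0, hv⟩ := hv m
    have e := RingHom.map_det
      (eval₂RingHom (eval₂RingHom (Int.castRingHom ℝ) (lam m)) (s m)) M
    rw [coe_eval₂RingHom] at e
    rw [e, ← Matrix.exists_mulVec_eq_zero_iff]
    refine ⟨v, hv0, ?_⟩
    funext a
    have e2 : ∀ b, (eval₂RingHom (eval₂RingHom (Int.castRingHom ℝ) (lam m)) (s m)).mapMatrix M a b
        = (if a = b then lam m else 0) - (A a b : ℝ) - s m * (B a b : ℝ) := by
      intro b
      have e3 : ∀ z : ℤ, eval₂ (eval₂RingHom (Int.castRingHom ℝ) (lam m)) (s m) (z : ℤ[X][X]) = z :=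
        fun z => map_intCast
          (eval₂RingHom (eval₂RingHom (Int.castRingHom ℝ) (lam m)) (s m)) z
      by_cases hab : a = b
      · subst hab; simp [M, e3]
      · simp [M, hab, e3]
    simp only [Matrix.mulVec, dotProduct, e2, sub_mul, Finset.sum_sub_distrib, ite_mul, zero_mul,
      Finset.sum_ite_eq, Finset.mem_univ, if_true, Pi.zero_apply, mul_assoc, ← Finset.mul_sum]
    rw [hv a]; ring
  have hlim : Tendsto (fun m => (lam m, (s m)⁻¹)) atTop (𝓝 (x, 0)) :=
    hl.prodMk_nhds hs.inv_tendsto_atTop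
  have h1 := ((continuous_eval₂₂ M.det.reverse).tendsto (x, 0)).comp hlim
  have h2 : M.det.reverse.eval₂ (eval₂RingHom (Int.castRingHom ℝ) x) 0 = 0 := by
    refine tendsto_nhds_unique h1 ?_
    exact tendsto_const_nhds.congr (fun m => (hz m).symm)
  rw [eval₂_at_zero, coeff_zero_reverse] at h2
  exact ⟨_, leadingCoeff_ne_zero.2 h0, fun l => hdet.coeff_le _ l, h2⟩

theorem root_ge {c : ℤ[X]} (hc : c ≠ 0) {b : ℕ} (hb : ∀ l, (c.coeff l).natAbs ≤ b) {x : ℝ}
    (hx : c.eval₂ (Int.castRingHom ℝ) x = 0) (h0 : x ≠ 0) : 1 ≤ (b + 1) * |x| := by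
  let _ := invertibleOfNonzero h0
  have h1 := root_le (c := c.reverse) (by rwa [Ne, reverse_eq_zero]) (b := b)
    (fun l => by rw [coeff_reverse]; exact hb _) (x := ⅟x)
    ((eval₂_reverse_eq_zero_iff _ _ _).2 hx)
  rw [invOf_eq_inv, abs_inv, inv_eq_one_div, div_le_iff₀ (abs_pos.2 h0)] at h1
  exact h1

end

theorem min_root {n : ℕ} {F : (Fin n → ℝ) → ℝ} {H : ℕ} (hF : Rep 4 F H) {x₀ : Fin n → ℝ}
    (h0 : ∀ x, F x₀ ≤ F x) :
    ∃ x, F x = F x₀ ∧ ∀ j, x j ≠ 0 →
      1 ≤ ((((4 * n + 1) ^ n * (4 * H + 2)) ^ ((4 * n + 1) ^ n) : ℕ) + 1) * |x j| := by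
  choose P hP hP' using hF.deriv (d := 3)
  have hs : ∀ m : ℕ, (0 : ℝ) < m + 1 := fun m => by positivity
  choose x hx1 hx2 hx3 using fun m : ℕ => crit (F := fun x => F x - F x₀)
    (hF.continuous.sub continuous_const) (fun x => sub_nonneg.2 (h0 x))
    (fun i x => (hP' i x).sub_const _) (sub_self _) (hs m)
  obtain ⟨y, -, φ, hφ, hy⟩ :=
    (isCompact_closedBall (0 : Fin n → ℝ) (∑ i, x₀ i ^ 6 + 1)).tendsto_subseq (x := x)
      (fun m => mem_closedBall_zero_iff.2 (hx1 m))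
  have hinf : Tendsto (fun m => (φ m : ℝ) + 1) atTop atTop :=
    tendsto_atTop_add_const_right _ _ (tendsto_natCast_atTop_atTop.comp hφ.tendsto_atTop)
  refine ⟨y, le_antisymm ?_ (h0 y), fun j hj => ?_⟩
  · have h1 := ((hF.continuous.tendsto y).comp hy).sub_const (F x₀)
    have h2 : Tendsto (fun m => (6 * ((φ m : ℝ) + 1))⁻¹ * ∑ i, x₀ i ^ 6) atTop (𝓝 0) := by
      simpa using (hinf.const_mul_atTop (by norm_num : (0 : ℝ) < 6)).inv_tendsto_atTop.mul_const
        (∑ i, x₀ i ^ 6)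
    exact sub_nonpos.1 (le_of_tendsto_of_tendsto' h1 h2 (fun m => hx2 (φ m)))
  · choose A B hA hB hAB using rows (fun i => (hP i).neg) j
    obtain ⟨c, hc, hcb, hcx⟩ := pencil_root (I := Idx n (4 * n)) A B hA hB
      (lam := fun m => x (φ m) j)
      (s := fun m => (φ m : ℝ) + 1) (((continuous_apply j).tendsto y).comp hy) hinf
      (fun m => (hs _).ne') (fun m => ⟨fun β => β.val (x (φ m)), fun h => by
        have := congrFun h ⟨0, by simp⟩
        simp [Idx.val, mon] at this, fun a => hAB a _ _ (hx3 (φ m))⟩)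
    refine root_ge hc (fun l => (hcb l).trans ?_) hcx hj
    have h2 := card_idx n (4 * n)
    generalize Fintype.card (Idx n (4 * n)) = N at h2
    calc N.factorial * ((3 + 1) * H + 2) ^ N ≤ N ^ N * (4 * H + 2) ^ N :=
          Nat.mul_le_mul_right _ N.factorial_le_pow
      _ = (N * (4 * H + 2)) ^ N := (mul_pow _ _ _).symm
      _ ≤ ((4 * n + 1) ^ n * (4 * H + 2)) ^ N :=
          Nat.pow_le_pow_left (Nat.mul_le_mul_right _ h2) _
      _ ≤ _ := Nat.pow_le_pow_right (by positivity) h2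

theorem min_root' {n : ℕ} {F : (Fin n → ℝ) → ℝ} {H b : ℕ} (hF : Rep 4 F H) {x₀ : Fin n → ℝ}
    (h0 : ∀ x, F x₀ ≤ F x) (hb : 4 * H + 2 ≤ 2 ^ b) :
    ∃ x, F x = F x₀ ∧ ∀ j, x j ≠ 0 →
      (1 / 2 : ℝ) ^ 2 ^ (2 * (n * (4 * n + 1)) + b + 2) ≤ x j ^ 2 := by
  obtain ⟨x, hx, hx'⟩ := min_root hF h0
  refine ⟨x, hx, fun j hj => ?_⟩
  have h := hx' j hj
  set a := n * (4 * n + 1) with ha
  have h1 : (4 * n + 1) ^ n ≤ 2 ^ a := by
    rw [ha, mul_comm n, pow_mul]
    exact Nat.pow_le_pow_left Nat.lt_two_pow_self.le _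
  generalize (4 * n + 1) ^ n = N at h h1
  have h4 : 1 ≤ 2 ^ a := Nat.one_le_two_pow
  have h2 : (N * (4 * H + 2)) ^ N + 1 ≤ 2 ^ 2 ^ (2 * a + b + 1) := by
    have : (N * (4 * H + 2)) ^ N ≤ 2 ^ ((a + b) * 2 ^ a) :=
      calc (N * (4 * H + 2)) ^ N ≤ (2 ^ (a + b)) ^ N :=
            Nat.pow_le_pow_left (by rw [pow_add]; exact Nat.mul_le_mul h1 hb) _
        _ ≤ (2 ^ (a + b)) ^ 2 ^ a := Nat.pow_le_pow_right (by positivity) h1
        _ = _ := (pow_mul _ _ _).symm
    have h3 : 1 ≤ 2 ^ ((a + b) * 2 ^ a) := Nat.one_le_two_pow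
    calc (N * (4 * H + 2)) ^ N + 1 ≤ 2 ^ ((a + b) * 2 ^ a + 1) := by rw [pow_succ]; omega
      _ ≤ _ := Nat.pow_le_pow_right (by norm_num) ?_
    calc (a + b) * 2 ^ a + 1 ≤ (a + b + 1) * 2 ^ a := by nlinarith
      _ ≤ 2 ^ (a + b + 1) * 2 ^ a := Nat.mul_le_mul_right _ Nat.lt_two_pow_self.le
      _ = _ := by rw [← pow_add]; congr 1; ring
  have h3 : (1 : ℝ) ≤ 2 ^ 2 ^ (2 * a + b + 1) * |x j| :=
    h.trans (mul_le_mul_of_nonneg_right (by exact_mod_cast h2) (abs_nonneg _))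
  rw [pow_succ 2 (2 * a + b + 1), pow_mul, ← sq_abs (x j)]
  refine pow_le_pow_left₀ (by positivity) ?_ 2
  rw [one_div_pow, div_le_iff₀' (by positivity)]
  exact h3

theorem sum_getD {α M : Type} [AddCommMonoid M] (l : List α) (d : α) (f : α → M) :
    ∑ i ∈ Finset.range l.length, f (l.getD i d) = (l.map f).sum := by
  induction l with
  | nil => simp
  | cons a l ih => rw [List.length_cons, Finset.sum_range_succ', add_comm]; simp [← ih]

theorem rep_sum {n d : ℕ} (m : ℕ) {f : ℕ → (Fin n → ℝ) → ℝ} {b : ℕ → ℕ}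
    (h : ∀ i, Rep d (f i) (b i)) :
    Rep d (fun x => ∑ i ∈ Finset.range m, f i x) (∑ i ∈ Finset.range m, b i) := by
  induction m with
  | zero => simpa using Rep.zero _
  | succ m ih => simpa only [Finset.sum_range_succ] using ih.add' (h m)

/-- The quartic whose minimum is estimated. -/
def gq (n : ℕ) (E : List QF) (u t : ℕ → ℝ) : ℝ :=
  ∑ i ∈ Finset.range E.length, ((t i - ev (E.getD i []) u u) ^ 2 + t i ^ 2) +
    (∑ i ∈ Finset.range n, u i ^ 2 - 1) ^ 2

/-- The height of the quartic. -/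
def gh (n : ℕ) (E : List QF) : ℕ :=
  (E.map fun q => (1 + nrm q) * (1 + nrm q) + 1).sum + (n + 1) * (n + 1)

theorem rep_gq (n k : ℕ) (E : List QF) :
    Rep 4 (fun x : Fin k → ℝ => gq n E (ext x) fun i => ext x (n + i)) (gh n E) := by
  have h1 : ∀ i, Rep 2 (fun x : Fin k → ℝ => ext x (n + i) - ev (E.getD i []) (ext x) (ext x))
      (1 + nrm (E.getD i [])) := fun i => by
    simpa only [sub_eq_add_neg] using
      ((rep_ext (n + i)).mono (by norm_num) le_rfl).add' (rep_ev (E.getD i [])).neg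
  have h2 := rep_sum E.length fun i => ((h1 i).mul (h1 i)).add'
    (((rep_ext (n + i)).mul (rep_ext (n + i))).mono (by norm_num) le_rfl)
  have h3 : Rep 2 (fun x : Fin k → ℝ => ∑ i ∈ Finset.range n, ext x i * ext x i - 1) (n + 1) := by
    simpa [sub_eq_add_neg] using (rep_sum n fun i => (rep_ext i).mul (rep_ext i)).add'
      ((Rep.const (-1)).mono (by norm_num) le_rfl)
  have h4 := h2.add' (h3.mul h3)
  rw [sum_getD E [] fun q => (1 + nrm q) * (1 + nrm q) + 1 * 1] at h4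
  simpa only [gq, gh, sq, mul_one] using h4

theorem gq_congr {n : ℕ} {E : List QF} (hE : Bdd n E) {u u' t t' : ℕ → ℝ}
    (hu : ∀ i < n, u i = u' i) (ht : ∀ i < E.length, t i = t' i) : gq n E u t = gq n E u' t' := by
  unfold gq
  congr 1
  · refine Finset.sum_congr rfl fun i hi => ?_
    have hi' := Finset.mem_range.1 hi
    have hq : E.getD i [] ∈ E := by rw [List.getD_eq_getElem _ _ hi']; exact List.getElem_mem _
    rw [ht i hi', ev_congr fun s hs => ⟨hu _ (hE _ hq s hs).1, hu _ (hE _ hq s hs).2⟩]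
  · rw [Finset.sum_congr rfl fun i hi => by rw [hu i (Finset.mem_range.1 hi)]]

theorem gq_min {n b : ℕ} {E : List QF} (hE : Bdd n E) (hb : 4 * gh n E + 2 ≤ 2 ^ b) :
    ∃ u t : ℕ → ℝ, (∀ u' t', gq n E u t ≤ gq n E u' t') ∧ ∀ i < E.length, t i ≠ 0 →
      (1 / 2 : ℝ) ^ 2 ^ (2 * ((n + E.length) * (4 * (n + E.length) + 1)) + b + 2) ≤ t i ^ 2 := by
  have hF := rep_gq n (n + E.length) E
  set F := fun x : Fin (n + E.length) → ℝ => gq n E (ext x) fun i => ext x (n + i) with hFd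
  have h0 : ∀ x j, x j ^ 2 ≤ F x + 2 := by
    intro x j
    have h1 : 0 ≤ ∑ i ∈ Finset.range E.length,
        ((ext x (n + i) - ev (E.getD i []) (ext x) (ext x)) ^ 2 + ext x (n + i) ^ 2) := by
      positivity
    simp only [hFd, gq]
    by_cases hj : (j : ℕ) < n
    · have h2 := Finset.single_le_sum (f := fun i => ext x i ^ 2) (fun _ _ => by positivity)
        (Finset.mem_range.2 hj)
      simp only [ext_val] at h2
      nlinarith [sq_nonneg (∑ i ∈ Finset.range n, ext x i ^ 2 - 2)]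
    · have h3 : (j : ℕ) - n ∈ Finset.range E.length := Finset.mem_range.2 (by omega)
      have h2 := Finset.single_le_sum (f := fun i =>
        (ext x (n + i) - ev (E.getD i []) (ext x) (ext x)) ^ 2 + ext x (n + i) ^ 2)
        (fun _ _ => by positivity) h3
      simp only [show n + ((j : ℕ) - n) = j by omega, ext_val] at h2
      nlinarith [sq_nonneg (∑ i ∈ Finset.range n, ext x i ^ 2 - 1),
        sq_nonneg (x j - ev (E.getD (j - n) []) (ext x) (ext x))]
  obtain ⟨x₀, hx₀⟩ := hF.continuous.exists_forall_le' 0 (by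
    filter_upwards [(isCompact_closedBall (0 : Fin (n + E.length) → ℝ)
      (|F 0| + 3)).compl_mem_cocompact] with y hy
    by_contra hc
    refine hy (mem_closedBall_zero_iff.2 ((pi_norm_le_iff_of_nonneg (by positivity)).2 fun j => ?_))
    have := h0 y j
    rw [Real.norm_eq_abs]
    nlinarith [le_abs_self (F 0), sq_abs (y j), sq_nonneg (|y j| - 1), not_le.1 hc,
      abs_nonneg (y j)])
  obtain ⟨x, hx, hx'⟩ := min_root' hF hx₀ hb
  refine ⟨ext x, fun i => ext x (n + i), fun u' t' => ?_, fun i hi hi' => ?_⟩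
  · refine (hx.le.trans (hx₀ fun j => if (j : ℕ) < n then u' j else t' (j - n))).trans_eq ?_
    refine gq_congr hE (fun i hi => ?_) fun i hi => ?_
    · simp [ext, hi, show i < n + E.length by omega]
    · simp [ext, hi]
  · have h1 : n + i < n + E.length := by omega
    simp only [ext, dif_pos h1] at hi' ⊢
    exact hx' _ hi'

/-- Gap lemma: without a nonzero common zero, the sum of squares is bounded below. -/
theorem gap : ∃ K : Un × List QF → Un, PT K ∧ ∀ (n : ℕ) (E : List QF), Bdd n E → ¬ Proj n E →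
    ∀ v : ℕ → ℝ, (1 / 2 : ℝ) ^ 2 ^ (K (⟨n⟩, E)).n * (∑ i ∈ Finset.range n, v i ^ 2) ^ 2 ≤
      (E.map fun q => ev q v v ^ 2).sum := by
  refine ⟨fun a => (((Un.mk 2).mul ((a.1.add (ulen a.2)).mul (((Un.mk 4).mul
    (a.1.add (ulen a.2))).add ⟨1⟩))).add (usz (4 * gh a.1.n a.2 + 2))).add ⟨2⟩,
    by unfold gh; fun_prop, fun n E hE hP v => ?_⟩
  obtain ⟨u, t, hmin, ht⟩ := gq_min hE (lt_two_pow_sz (4 * gh n E + 2)).le
  simp only [Un.add, Un.mul, ulen, usz]
  generalize 2 * ((n + E.length) * (4 * (n + E.length) + 1)) + sz (4 * gh n E + 2) + 2 = K at ht ⊢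
  have hμ : (1 / 2 : ℝ) ^ 2 ^ K ≤ gq n E u t := by
    by_cases h : ∃ i < E.length, t i ≠ 0
    · obtain ⟨i, hi, hi'⟩ := h
      have h2 := Finset.single_le_sum (f := fun i => (t i - ev (E.getD i []) u u) ^ 2 + t i ^ 2)
        (fun _ _ => by positivity) (Finset.mem_range.2 hi)
      unfold gq
      nlinarith [ht i hi hi', sq_nonneg (t i - ev (E.getD i []) u u),
        sq_nonneg (∑ i ∈ Finset.range n, u i ^ 2 - 1)]
    push Not at h
    have h1 := hmin u fun i => ev (E.getD i []) u u / 2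
    have h2 : gq n E u t = (E.map fun q => ev q u u ^ 2).sum +
        (∑ i ∈ Finset.range n, u i ^ 2 - 1) ^ 2 := by
      rw [gq, ← sum_getD E []]
      congr 1
      exact Finset.sum_congr rfl fun i hi => by rw [h i (Finset.mem_range.1 hi)]; ring
    have h3 : gq n E u (fun i => ev (E.getD i []) u u / 2) = (E.map fun q => ev q u u ^ 2).sum / 2 +
        (∑ i ∈ Finset.range n, u i ^ 2 - 1) ^ 2 := by
      rw [gq, ← sum_getD E [], Finset.sum_div]
      congr 1
      exact Finset.sum_congr rfl fun i _ => by ring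
    have h4 : 0 ≤ (E.map fun q => ev q u u ^ 2).sum := by rw [← sum_getD E []]; positivity
    have h5 : (E.map fun q => ev q u u ^ 2).sum = 0 := by linarith
    have h6 : ∀ i < n, u i = 0 := fun i hi => by
      by_contra hc
      exact hP ⟨u, ⟨i, hi, hc⟩, (sum_sq_eq_zero E _).1 h5⟩
    rw [h2, h5, Finset.sum_eq_zero fun i hi => by rw [h6 i (Finset.mem_range.1 hi)]; ring]
    norm_num
    exact pow_le_one₀ (by norm_num) (by norm_num)
  set S := ∑ i ∈ Finset.range n, v i ^ 2 with hS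
  rcases eq_or_lt_of_le (show 0 ≤ S by positivity) with h | h
  · rw [← h, ← sum_getD E []]; norm_num; positivity
  have h1 := hμ.trans (hmin (fun i => (√S)⁻¹ * v i) fun i => S⁻¹ * ev (E.getD i []) v v)
  have h2 : (√S)⁻¹ * (√S)⁻¹ = S⁻¹ := by rw [← mul_inv, Real.mul_self_sqrt h.le]
  have h3 : ∑ i ∈ Finset.range n, ((√S)⁻¹ * v i) ^ 2 = 1 := by
    simp only [mul_pow, ← Finset.mul_sum, ← hS]
    rw [sq, h2, inv_mul_cancel₀ h.ne']
  rw [gq, h3] at h1
  rw [← sum_getD E []]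
  have h4 : (0 : ℝ) ^ 2 = 0 := by norm_num
  simp only [ev_smul, h2, sub_self, mul_pow, h4, zero_add, add_zero, ← Finset.mul_sum, inv_pow] at h1
  rwa [← div_eq_inv_mul, le_div_iff₀ (by positivity)] at h1

end Pool.Agent.Lib.MP_242159_lc
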