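import Pool.Agent.Lib.MP_242159_lc.MachA
import Pool.Agent.Lib.MP_acf5a6_lc.Forward

/-!
Arithmetic on the register machine.
-/

set_option autoImplicit false

namespace Pool.Agent.Lib.MP_242159_lc

open Pool.Agent.Lib.MP_acf5a6_lc

/-- A scaled square. -/
def sqr (a : ℕ) : List (ℕ × ℕ × ℕ) :=
  [(0, 1, a), (2, 1, 0), (3, a, 0), (3, 1, 0), (1, a, 1), (2, a, 0), (0, 1, a), (1, 1, 0),
    (1, 1, 0), (1, 1, 0), (1, a, 1), (3, a, 0)]

theorem lex_sqr {a : ℕ} (ha : 2 ≤ a) {R R' : ℕ → ℝ} (h0 : R 0 = 0) (h : LEx (sqr a) R R') :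
    R' a = 64 / 81 * R a ^ 2 ∧ ∀ i, i ≠ a → i ≠ 1 → R' i = R i := by
  have a0 : (0 : ℕ) ≠ a := by omega
  have a1 : (1 : ℕ) ≠ a := by omega
  obtain ⟨_, ⟨y1, g1, -, rfl⟩, _, ⟨y2, g2, -, rfl⟩, _, ⟨y3, g3, -, rfl⟩, _, ⟨y4, g4, -, rfl⟩,
    _, ⟨y5, g5, -, rfl⟩, _, ⟨y6, g6, -, rfl⟩, _, ⟨y7, g7, -, rfl⟩, _, ⟨y8, g8, -, rfl⟩,
    _, ⟨y9, g9, -, rfl⟩, _, ⟨y10, g10, -, rfl⟩, _, ⟨y11, g11, -, rfl⟩, _, ⟨y12, g12, -, rfl⟩,
    rfl⟩ := h
  simp only [gate0, gate1, gate2, gate3, Function.update_self, ne_eq, a0, a1, a1.symm,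
    not_false_eq_true, Function.update_of_ne, zero_ne_one, h0] at g1 g2 g3 g4 g5 g6 g7 g8 g9
  simp only [gate1, gate3, Function.update_self, ne_eq, a0, a1.symm,
    not_false_eq_true, Function.update_of_ne, zero_ne_one, h0] at g10 g11 g12
  refine ⟨?_, fun i h1 h2 => by simp [h1, h2]⟩
  rw [Function.update_self]
  subst g1 g2 g5 g6 g7 g8 g9 g10 g11
  linear_combination ((81 - 16 * R a ^ 2) * g12 + (4 * y12 - 16) * (9 / 32) *
    ((9 - 4 * R a) * g3 + (9 + 4 * R a) * g4)) / 729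

/-- A scaled product of two registers. -/
def prd (x y : ℕ) : List (ℕ × ℕ × ℕ) :=
  [(0, 2, x), (1, 2, y), (0, 3, x), (2, 3, 0), (1, 3, y)] ++ (sqr 2 ++ (sqr 3 ++
    [(2, 3, 0), (1, 2, 3)]))

theorem lex_prd {x y : ℕ} (hx : 4 ≤ x) (hy : 4 ≤ y) {R R' : ℕ → ℝ} (h0 : R 0 = 0)
    (h : LEx (prd x y) R R') :
    R' 2 = 32 / 81 * (R x * R y) ∧ R' 0 = 0 ∧ ∀ i, 4 ≤ i → R' i = R i := by
  have x2 : x ≠ 2 := by omega
  have y2 : y ≠ 2 := by omega
  have y3 : y ≠ 3 := by omega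
  obtain ⟨t, ⟨_, ⟨z1, g1, -, rfl⟩, _, ⟨z2, g2, -, rfl⟩, _, ⟨z3, g3, -, rfl⟩, _, ⟨z4, g4, -, rfl⟩,
    _, ⟨z5, g5, -, rfl⟩, rfl⟩, h⟩ := lex_append h
  obtain ⟨u, h1, h⟩ := lex_append h
  obtain ⟨w, h2, _, ⟨z6, g6, -, rfl⟩, _, ⟨z7, g7, -, rfl⟩, rfl⟩ := lex_append h
  obtain ⟨a1, a2⟩ := lex_sqr le_rfl (by simp [h0]) h1
  have u0 : u 0 = 0 := by simp [a2, h0]
  obtain ⟨b1, b2⟩ := lex_sqr (by norm_num) u0 h2
  have w0 : w 0 = 0 := by simp [b2, u0]
  have w2 := b2 2 (by norm_num) (by norm_num)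
  have u3 := a2 3 (by norm_num) (by norm_num)
  simp [gate0, gate1, gate2, x2, y2, y3, h0, w0] at g1 g2 g3 g4 g5 g6 g7 a1 u3
  refine ⟨?_, by simp [w0], fun i hi => ?_⟩
  · rw [Function.update_self, g7, g6, w2, b1, a1, u3, g5, g4, g3, g2, g1]
    ring
  · have i1 : i ≠ 1 := by omega
    have i2 : i ≠ 2 := by omega
    have i3 : i ≠ 3 := by omega
    simp [b2, a2, i1, i2, i3]

/-- One step of the double-and-add scheme. -/
def hor (b : Bool) : List (ℕ × ℕ × ℕ) := [(0, 1, cond b 2 0), (2, 1, 4), (0, 4, 1)]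

theorem lex_hor (n : ℕ) {R R' : ℕ → ℝ} (h0 : R 0 = 0) (h4 : R 4 = 0)
    (h : LEx (n.bits.reverse.flatMap hor) R R') :
    R' 4 = -(n * R 2) ∧ ∀ i, i ≠ 1 → i ≠ 4 → R' i = R i := by
  induction n using Nat.binaryRec' generalizing R' with
  | zero =>
    obtain rfl : R' = R := h
    simp [h4]
  | bit b n hn ih =>
    rw [Nat.bits_append_bit n b hn, List.reverse_cons, List.flatMap_append] at h
    obtain ⟨t, h1, _, ⟨z1, g1, -, rfl⟩, _, ⟨z2, g2, -, rfl⟩, _, ⟨z3, g3, -, rfl⟩, rfl⟩ :=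
      lex_append h
    obtain ⟨a1, a2⟩ := ih h1
    refine ⟨?_, fun i i1 i4 => by simp [i1, i4, a2]⟩
    cases b <;> simp [gate0, gate2, a1, a2, h0] at g1 g2 g3 <;>
      simp [g3, g2, g1, Nat.bit_val] <;> ring

/-- Adds `2 n` times the register `2` to the register `5`. -/
def adm (n : ℕ) : List (ℕ × ℕ × ℕ) :=
  (0, 4, 0) :: (n.bits.reverse.flatMap hor ++ [(2, 5, 4), (2, 5, 0)])

theorem lex_adm (n : ℕ) {R R' : ℕ → ℝ} (h0 : R 0 = 0) (h : LEx (adm n) R R') :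
    R' 5 = R 5 + 2 * n * R 2 ∧ ∀ i, i ≠ 1 → i ≠ 4 → i ≠ 5 → R' i = R i := by
  obtain ⟨_, ⟨z0, g0, -, rfl⟩, h⟩ := h
  obtain ⟨t, h1, _, ⟨z1, g1, -, rfl⟩, _, ⟨z2, g2, -, rfl⟩, rfl⟩ := lex_append h
  simp only [gate0, h0] at g0
  obtain ⟨a1, a2⟩ := lex_hor n (by simp [h0]) (by simp [g0]) h1
  refine ⟨?_, fun i i1 i4 i5 => by simp [i1, i4, i5, a2]⟩
  simp [gate2, a1, a2, h0] at g1 g2
  simp [g2, g1]
  ring

/-- Adds one term of a form to the register `5`. -/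
def trm (t : ℤ × ℕ × ℕ) : List (ℕ × ℕ × ℕ) :=
  prd (8 + t.2.1) (8 + t.2.2) ++ (adm t.1.toNat ++ (2, 2, 0) :: adm (-t.1).toNat)

theorem lex_trm (t : ℤ × ℕ × ℕ) {R R' : ℕ → ℝ} (h0 : R 0 = 0) (h : LEx (trm t) R R') :
    R' 5 = R 5 + 64 / 81 * (t.1 * R (8 + t.2.1) * R (8 + t.2.2)) ∧ R' 0 = 0 ∧
      ∀ i, 6 ≤ i → R' i = R i := by
  obtain ⟨u, h1, h⟩ := lex_append h
  obtain ⟨w, h2, _, ⟨z, g, -, rfl⟩, h3⟩ := lex_append h
  obtain ⟨a1, a0, a2⟩ := lex_prd (by omega) (by omega) h0 h1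
  obtain ⟨b1, b2⟩ := lex_adm _ a0 h2
  have w0 : w 0 = 0 := by simp [b2, a0]
  obtain ⟨c1, c2⟩ := lex_adm _ (by simp [w0]) h3
  refine ⟨?_, by simp [c2, w0], fun i hi => ?_⟩
  · have e : ((t.1.toNat : ℕ) : ℝ) - (((-t.1).toNat : ℕ) : ℝ) = t.1 := by
      exact_mod_cast Int.toNat_sub_toNat_neg t.1
    simp [gate2, b2, a0] at g
    rw [c1, Function.update_self, Function.update_of_ne (by norm_num), g, b1, a1,
      a2 5 (by norm_num), ← e]
    ring
  · rw [c2 _ (by omega) (by omega) (by omega), Function.update_of_ne (by simp only; omega),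
      b2 _ (by omega) (by omega) (by omega), a2 _ (by omega)]

theorem lex_trms (q : QF) {R R' : ℕ → ℝ} (h0 : R 0 = 0) (h : LEx (q.flatMap trm) R R') :
    R' 5 = R 5 + 64 / 81 * ev q (fun i => R (8 + i)) (fun i => R (8 + i)) ∧ R' 0 = 0 ∧
      ∀ i, 6 ≤ i → R' i = R i := by
  induction q generalizing R with
  | nil =>
    obtain rfl : R' = R := h
    simp [h0]
  | cons t q ih =>
    rw [List.flatMap_cons] at h
    obtain ⟨u, h1, h2⟩ := lex_append h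
    obtain ⟨a1, a0, a2⟩ := lex_trm t h0 h1
    obtain ⟨b1, b0, b2⟩ := ih a0 h2
    refine ⟨?_, b0, fun i hi => by rw [b2 i hi, a2 i hi]⟩
    have : (fun i => u (8 + i)) = fun i => R (8 + i) := funext fun i => a2 _ (by omega)
    rw [b1, a1, this, ev_cons]
    ring

/-- The scaled square of a form. -/
def frm (q : QF) : List (ℕ × ℕ × ℕ) := (0, 5, 0) :: (q.flatMap trm ++ sqr 5)

theorem lex_frm (q : QF) {R R' : ℕ → ℝ} (h0 : R 0 = 0) (h : LEx (frm q) R R') :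
    R' 5 = (64 / 81) ^ 3 * ev q (fun i => R (8 + i)) (fun i => R (8 + i)) ^ 2 ∧ R' 0 = 0 ∧
      ∀ i, 6 ≤ i → R' i = R i := by
  obtain ⟨_, ⟨z, g, -, rfl⟩, h⟩ := h
  obtain ⟨u, h1, h2⟩ := lex_append h
  obtain ⟨a1, a0, a2⟩ := lex_trms q (by simp [h0]) h1
  obtain ⟨b1, b2⟩ := lex_sqr (by norm_num) a0 h2
  simp only [gate0, h0] at g
  have : (fun i => Function.update R 5 z (8 + i)) = fun i => R (8 + i) :=
    funext fun i => Function.update_of_ne (by omega) _ _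
  refine ⟨?_, by simp [b2, a0], fun i hi => ?_⟩
  · rw [b1, a1, this, Function.update_self, g]
    ring
  · rw [b2 _ (by omega) (by omega), a2 _ hi, Function.update_of_ne (by simp only; omega)]

/-- Subtracts the scaled square of a form from the register `6`. -/
def sub (q : QF) : List (ℕ × ℕ × ℕ) := frm q ++ [(2, 6, 5), (2, 6, 0)]

theorem lex_subs (E : List QF) {R R' : ℕ → ℝ} (h0 : R 0 = 0) (h : LEx (E.flatMap sub) R R') :
    R' 6 = R 6 - 2 * (64 / 81) ^ 3 *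
      (E.map fun q => ev q (fun i => R (8 + i)) (fun i => R (8 + i)) ^ 2).sum ∧ R' 0 = 0 ∧
      ∀ i, 7 ≤ i → R' i = R i := by
  induction E generalizing R with
  | nil =>
    obtain rfl : R' = R := h
    simp [h0]
  | cons q E ih =>
    rw [List.flatMap_cons] at h
    obtain ⟨u, h1, h2⟩ := lex_append h
    obtain ⟨w, h3, _, ⟨z1, g1, -, rfl⟩, _, ⟨z2, g2, -, rfl⟩, rfl⟩ := lex_append h1
    obtain ⟨a1, a0, a2⟩ := lex_frm q h0 h3
    obtain ⟨b1, b0, b2⟩ := ih (by simp [a0]) h2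
    have e : ∀ i, 7 ≤ i → Function.update (Function.update w 6 z1) 6 z2 i = R i := fun i hi => by
      rw [Function.update_of_ne (by omega), Function.update_of_ne (by omega), a2 _ (by omega)]
    refine ⟨?_, b0, fun i hi => by rw [b2 i hi, e i hi]⟩
    have : (fun i => Function.update (Function.update w 6 z1) 6 z2 (8 + i)) = fun i => R (8 + i) :=
      funext fun i => e _ (by omega)
    simp [gate2, a0, a2] at g1 g2
    rw [b1, this, Function.update_self, g2, g1, a1, List.map_cons, List.sum_cons]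
    ring

theorem lex_sqs (K : ℕ) {R R' : ℕ → ℝ} (h0 : R 0 = 0) (h1 : 0 ≤ R 7) (h2 : R 7 ≤ 1 / 2)
    (h : LEx ((List.range K).flatMap fun _ => sqr 7) R R') :
    0 ≤ R' 7 ∧ R' 7 ≤ (1 / 2) ^ 2 ^ K ∧ (0 < R 7 → 0 < R' 7) ∧ R' 0 = 0 ∧
      ∀ i, 8 ≤ i → R' i = R i := by
  induction K generalizing R' with
  | zero =>
    obtain rfl : R' = R := h
    simpa [h0, h1] using h2
  | succ K ih =>
    rw [List.range_succ, List.flatMap_append, List.flatMap_singleton] at h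
    obtain ⟨u, h3, h4⟩ := lex_append h
    obtain ⟨a1, a2, a3, a0, a4⟩ := ih h3
    obtain ⟨b1, b2⟩ := lex_sqr (by norm_num) a0 h4
    refine ⟨by rw [b1]; positivity, ?_, fun h5 => ?_, by simp [b2, a0], fun i hi => ?_⟩
    · have := pow_le_pow_left₀ a1 a2 2
      rw [b1, pow_succ 2 K, pow_mul]
      nlinarith [sq_nonneg (u 7)]
    · have := a3 h5
      rw [b1]
      positivity
    · rw [b2 _ (by omega) (by omega), a4 _ hi]

/-- The whole logical program. -/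
def mainL (n K : ℕ) (E : List QF) : List (ℕ × ℕ × ℕ) :=
  sqr 7 ++ ([(0, 2, 0), (2, 2, 7), (0, 1, 0), (0, 1, 2)] ++
    (((List.range K).flatMap fun _ => sqr 7) ++ (0, 6, 0) :: (E.flatMap sub ++
      (frm ((List.range n).map fun i => ((1 : ℤ), i, i)) ++ (prd 5 7 ++ [(1, 2, 6), (0, 3, 0)])))))

theorem lex_main (n K : ℕ) (E : List QF) {R R' : ℕ → ℝ} (h0 : R 0 = 0)
    (h : LEx (mainL n K E) R R') : ∃ e : ℝ, 0 ≤ e ∧ e ≤ (1 / 2) ^ 2 ^ K ∧ (R 7 ≠ 0 → 0 < e) ∧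
      R' 3 = 0 ∧ R' 2 = (64 / 81) ^ 3 * (16 / 81 * (e * (∑ i ∈ Finset.range n, R (8 + i) ^ 2) ^ 2) -
        (E.map fun q => ev q (fun i => R (8 + i)) (fun i => R (8 + i)) ^ 2).sum) := by
  obtain ⟨R1, h1, h⟩ := lex_append h
  obtain ⟨_, ⟨_, ⟨z1, g1, -, rfl⟩, _, ⟨z2, g2, -, rfl⟩, _, ⟨z3, g3, -, rfl⟩, _, ⟨z4, -, g4, rfl⟩,
    rfl⟩, h⟩ := lex_append h
  obtain ⟨R3, h3, _, ⟨z5, g5, -, rfl⟩, h⟩ := lex_append h
  obtain ⟨R4, h4, h⟩ := lex_append h
  obtain ⟨R5, h5, h⟩ := lex_append h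
  obtain ⟨R6, h6, _, ⟨z6, g6, -, rfl⟩, _, ⟨z7, g7, -, rfl⟩, rfl⟩ := lex_append h
  obtain ⟨a1, a2⟩ := lex_sqr (by norm_num) h0 h1
  have a0 : R1 0 = 0 := by simp [a2, h0]
  simp [gate0, gate2, a0] at g1 g2 g3 g4
  have a3 : 0 ≤ R1 7 := by rw [a1]; positivity
  obtain ⟨b1, b2, b3, b0, b4⟩ := lex_sqs K (by simp [a0]) (by simpa using a3)
    (by simp; linarith) h3
  obtain ⟨c1, c0, c2⟩ := lex_subs E (by simp [b0]) h4
  obtain ⟨d1, d0, d2⟩ := lex_frm _ c0 h5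
  obtain ⟨e1, e0, e2⟩ := lex_prd (by norm_num) (by norm_num) d0 h6
  have f1 : ∀ i, R3 (8 + i) = R (8 + i) := fun i => by
    rw [b4 _ (by omega), Function.update_of_ne (by simp only; omega),
      Function.update_of_ne (by simp only; omega), Function.update_of_ne (by simp only; omega),
      Function.update_of_ne (by simp only; omega), a2 _ (by omega) (by omega)]
  have f2 : (fun i => Function.update R3 6 z5 (8 + i)) = fun i => R (8 + i) :=
    funext fun i => by rw [Function.update_of_ne (by omega), f1]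
  have f3 : (fun i => R4 (8 + i)) = fun i => R (8 + i) :=
    funext fun i => by rw [c2 _ (by omega)]; exact congrFun f2 i
  have f4 : R5 7 = R3 7 := by simp [d2, c2]
  simp [gate0, gate1, b0, e0, e2, d2] at g5 g6 g7
  refine ⟨R3 7, b1, b2, fun h7 => b3 ?_, by simp [g7], ?_⟩
  · simp only [ne_eq, Nat.reduceEqDiff, not_false_eq_true, Function.update_of_ne, a1,
      OfNat.ofNat_ne_one]
    positivity
  · rw [f2, Function.update_self] at c1
    rw [f3, ev_diag] at d1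
    rw [Function.update_of_ne (by norm_num), Function.update_self, g6, e1, c1, d1, f4, g5]
    ring

theorem wfl_append {M : ℕ} {l m : List (ℕ × ℕ × ℕ)} (hl : WFL M l) (hm : WFL M m) :
    WFL M (l ++ m) := List.forall_mem_append.2 ⟨hl, hm⟩

theorem wfl_cons {M g a b : ℕ} {l : List (ℕ × ℕ × ℕ)} (h : g < 4 ∧ a < M ∧ b < M ∧ a ≠ b)
    (hl : WFL M l) : WFL M ((g, a, b) :: l) := List.forall_mem_cons.2 ⟨h, hl⟩

theorem wfl_flatMap {α : Type} {M : ℕ} {l : List α} {f : α → List (ℕ × ℕ × ℕ)}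
    (h : ∀ a ∈ l, WFL M (f a)) : WFL M (l.flatMap f) := fun x hx => by
  obtain ⟨a, ha, hx⟩ := List.mem_flatMap.1 hx
  exact h a ha x hx

theorem wfl_nil (M : ℕ) : WFL M [] := fun _ h => absurd h List.not_mem_nil

theorem wfl_sqr {M a : ℕ} (ha : 2 ≤ a) (hM : a < M) : WFL M (sqr a) := by
  unfold sqr
  repeat refine wfl_cons (by omega) ?_
  exact wfl_nil M

theorem wfl_prd {M x y : ℕ} (hx : 4 ≤ x) (hy : 4 ≤ y) (hx' : x < M) (hy' : y < M) :
    WFL M (prd x y) := by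
  refine wfl_append ?_ (wfl_append (wfl_sqr le_rfl (by omega))
    (wfl_append (wfl_sqr (by omega) (by omega)) ?_))
  all_goals
    repeat refine wfl_cons (by omega) ?_
    exact wfl_nil M

theorem wfl_adm {M : ℕ} (hM : 8 ≤ M) (n : ℕ) : WFL M (adm n) := by
  refine wfl_cons (by omega) (wfl_append (wfl_flatMap fun b _ => ?_) ?_)
  · refine wfl_cons (by cases b <;> simp <;> omega) ?_
    repeat refine wfl_cons (by omega) ?_
    exact wfl_nil M
  · repeat refine wfl_cons (by omega) ?_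
    exact wfl_nil M

theorem wfl_frm {n : ℕ} {q : QF} (hq : ∀ t ∈ q, t.2.1 < n ∧ t.2.2 < n) : WFL (n + 8) (frm q) := by
  refine wfl_cons (by omega) (wfl_append (wfl_flatMap fun t ht => ?_)
    (wfl_sqr (by omega) (by omega)))
  have := hq t ht
  exact wfl_append (wfl_prd (by omega) (by omega) (by omega) (by omega))
    (wfl_append (wfl_adm (by omega) _) (wfl_cons (by omega) (wfl_adm (by omega) _)))

theorem wfl_main {n : ℕ} (K : ℕ) {E : List QF} (hE : Bdd n E) : WFL (n + 8) (mainL n K E) := by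
  refine wfl_append (wfl_sqr (by omega) (by omega)) (wfl_append ?_ (wfl_append
    (wfl_flatMap fun _ _ => wfl_sqr (by omega) (by omega)) (wfl_cons (by omega) (wfl_append
      (wfl_flatMap fun q hq => wfl_append (wfl_frm (hE q hq)) ?_) (wfl_append (wfl_frm ?_)
        (wfl_append (wfl_prd (by omega) (by omega) (by omega) (by omega)) ?_))))))
  · repeat refine wfl_cons (by omega) ?_
    exact wfl_nil _
  · repeat refine wfl_cons (by omega) ?_
    exact wfl_nil _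
  · intro t ht
    obtain ⟨i, hi, rfl⟩ := List.mem_map.1 ht
    exact ⟨List.mem_range.1 hi, List.mem_range.1 hi⟩
  · repeat refine wfl_cons (by omega) ?_
    exact wfl_nil _

end Pool.Agent.Lib.MP_242159_lc
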