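import Pool.Agent.Lib.MP_242159_lc.ADefs
import Pool.Agent.Lib.MP_242159_lc.Gap
import Pool.Agent.Lib.MP_242159_lc.MachB

set_option autoImplicit false

namespace Pool.Agent.Lib.MP_242159_lc

open Pool.Agent.Lib.MP_acf5a6_lc Filter Topology

/-- The program for a system of forms. -/
def fullP (n K : ℕ) (E : List QF) : List (ℕ × ℕ) :=
  ini (n + 8) ++ (mainL n K E).flatMap (sim (n + 8))

theorem ex_full {n : ℕ} (K : ℕ) {E : List QF} (hE : Bdd n E) {s s' : ℕ → ℝ} (h0 : s 1 = 0)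
    (h : Ex (fullP n K E) s s') : ∃ e : ℝ, 0 ≤ e ∧ e ≤ (1 / 2) ^ 2 ^ K ∧ (lg s 7 ≠ 0 → 0 < e) ∧
      s' 6 = 0 ∧ s' 5 = (64 / 81) ^ 3 *
        (16 / 81 * (e * (∑ i ∈ Finset.range n, lg s (8 + i) ^ 2) ^ 2) -
          (E.map fun q => ev q (fun i => lg s (8 + i)) (fun i => lg s (8 + i)) ^ 2).sum) := by
  obtain ⟨t, h1, h2⟩ := ex_append h
  obtain ⟨h3, h4⟩ := ex_ini h1
  obtain ⟨h5, h6⟩ := ex_sims (wfl_main K hE) h3 h2
  rw [h4] at h6
  obtain ⟨e, e1, e2, e3, e4, e5⟩ := lex_main n K E (R := lg s) h0 h6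
  exact ⟨e, e1, e2, e3, (h5 3 (by omega)).trans e4, e5⟩

theorem run_sound {n K : ℕ} {E : List QF} (hE : Bdd n E) {st : ℕ → ℕ → ℝ}
    (h : Run 2 5 (fullP n K E) st) : ∃ v : ℕ → ℝ, (E.map fun q => ev q v v ^ 2).sum <
      (1 / 2 : ℝ) ^ 2 ^ K * (∑ i ∈ Finset.range n, v i ^ 2) ^ 2 := by
  obtain ⟨h1, h2, h3⟩ := h
  obtain ⟨e, e1, e2, -, e4, e5⟩ := ex_full K hE (h1 1 (by norm_num)) (ex_of_run h2)
  refine ⟨fun i => lg (st 0) (8 + i), ?_⟩
  rw [e4, e5] at h3
  have h5 := mul_le_mul_of_nonneg_right e2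
    (sq_nonneg (∑ i ∈ Finset.range n, lg (st 0) (8 + i) ^ 2))
  have h6 := mul_nonneg e1 (sq_nonneg (∑ i ∈ Finset.range n, lg (st 0) (8 + i) ^ 2))
  linarith

theorem run_complete {n : ℕ} (K : ℕ) {E : List QF} (hE : Bdd n E) (h : Proj n E) {ε : ℝ}
    (hε : 0 < ε) : ∃ st, Run 2 5 (fullP n K E) st ∧
      ∀ k ≤ (fullP n K E).length, ∀ i < 2 * (n + 8) + 2, |st k i| < ε := by
  obtain ⟨v, ⟨j, hj, hv⟩, h⟩ := h
  let s : ℕ → ℝ := fun i => if i < 14 then 0 else if i < 16 then 1 else v (i / 2 - 8)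
  have h1 := exists_run (prog := fullP n K E)
    (fun a ha => ((wfm_sims (by omega) (wfl_main K hE)).2 a ha).1)
    (F := fun t i => t * s i) (fun i => by
      simpa using (tendsto_id (x := 𝓝 (0 : ℝ))).mul_const (s i)) (2 * (n + 8) + 2) hε
  have h1' : ∀ᶠ t in 𝓝[≠] (0 : ℝ), t ≠ 0 := self_mem_nhdsWithin
  obtain ⟨t, ht, st, h2, h3, h4⟩ := (h1'.and (h1.filter_mono nhdsWithin_le_nhds)).exists
  have h5 : ∀ i < 2, st 0 i = 0 := fun i hi => by
    simp only [h2, s]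
    rw [if_pos (by omega), mul_zero]
  obtain ⟨e, -, -, e3, e4, e5⟩ := ex_full K hE (h5 1 (by norm_num)) (ex_of_run h3)
  refine ⟨st, ⟨h5, h3, ?_⟩, h4⟩
  have h6 : ∀ i, lg (st 0) (8 + i) = t * v i := fun i => by
    simp only [h2, s, lg]
    rw [if_neg (by omega), if_neg (by omega), show (2 * (8 + i) + 1) / 2 - 8 = i by omega]
  have h7 : 0 < e := e3 (by simpa [h2, s, lg] using ht)
  have h8 : 0 < ∑ i ∈ Finset.range n, (t * v i) ^ 2 :=
    Finset.sum_pos' (fun i _ => sq_nonneg _) ⟨j, Finset.mem_range.2 hj, by positivity⟩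
  have h9 : (E.map fun q => ev q (fun i => t * v i) (fun i => t * v i) ^ 2).sum = 0 :=
    List.sum_eq_zero (fun x hx => by
      obtain ⟨q, hq, rfl⟩ := List.mem_map.1 hx
      simp [ev_smul, h q hq])
  simp only [h6, h9] at e5
  rw [e4, e5, sub_zero]
  positivity

section

variable {α : Type} [N487b59b3 α]

@[fun_prop] theorem pt_sqr {a : α → ℕ} (ha : PT a) : PT (fun x => sqr (a x)) := by
  unfold sqr; fun_prop

@[fun_prop] theorem pt_prd {a b : α → ℕ} (ha : PT a) (hb : PT b) :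
    PT (fun x => prd (a x) (b x)) := by
  unfold prd; fun_prop

@[fun_prop] theorem pt_adm {a : α → ℕ} (ha : PT a) : PT (fun x => adm (a x)) := by
  unfold adm hor; fun_prop

@[fun_prop] theorem pt_frm {q : α → QF} (hq : PT q) : PT (fun x => frm (q x)) := by
  unfold frm trm; fun_prop

@[fun_prop] theorem pt_main {n K : α → Un} {E : α → List QF} (hn : PT n) (hK : PT K) (hE : PT E) :
    PT (fun x => mainL (n x).n (K x).n (E x)) := by
  unfold mainL sub; fun_prop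

@[fun_prop] theorem pt_chain {M : α → Un} {a b : α → ℕ} (hM : PT M) (ha : PT a) (hb : PT b) :
    PT (fun x => chain (M x).n (a x) (b x)) := by
  unfold chain rot; fun_prop

@[fun_prop] theorem pt_sim {M : α → Un} {y : α → ℕ × ℕ × ℕ} (hM : PT M) (hy : PT y) :
    PT (fun x => sim (M x).n (y x)) := by
  unfold sim swp; fun_prop

theorem pt_full {n K : α → Un} {E : α → List QF} (hn : PT n) (hK : PT K) (hE : PT E) :
    PT (fun x => fullP (n x).n (K x).n (E x)) := by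
  have : PT (fun x => (List.range ((n x).add ⟨8⟩).n).map (fun k => (0, 2 * k)) ++
      (mainL (n x).n (K x).n (E x)).flatMap (sim ((n x).add ⟨8⟩).n)) := by fun_prop
  exact this

end

theorem machine : ∃ (m : List (ℕ × ℤ) → Un) (c r : List (ℕ × ℤ) → ℕ)
    (prog : List (ℕ × ℤ) → List (ℕ × ℕ)), PT m ∧ PT c ∧ PT r ∧ PT prog ∧ ∀ ts,
      WFM (m ts).n (r ts) (prog ts) ∧
      ((∃ st, Run (c ts) (r ts) (prog ts) st) → ETR (N487b59b3.bitEncode ts) = true) ∧
      (ETR (N487b59b3.bitEncode ts) = true → ∀ ε : ℝ, 0 < ε → ∃ st,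
        Run (c ts) (r ts) (prog ts) st ∧
          ∀ n ≤ (prog ts).length, ∀ i < (m ts).n, |st n i| < ε) := by
  obtain ⟨K, hK, hg⟩ := gap
  have h0 := PT.system'
  have h1 : PT redN := by unfold redN; fun_prop
  have h2 : PT redK := by unfold redK; fun_prop
  have h3 : PT redM := by unfold redM; fun_prop
  have h4 := PT.hom' h1 h2 h0
  refine ⟨fun ts => ((Un.mk 2).mul ((redM ts).add ⟨8⟩)).add ⟨2⟩, fun _ => 2, fun _ => 5,
    fun ts => fullP (redM ts).n (K (redM ts, hom (redN ts).n (redK ts).n (system ts))).n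
      (hom (redN ts).n (redK ts).n (system ts)), by fun_prop, PT.const _, PT.const _,
    pt_full h3 (hK.comp (h3.prodMk h4)) h4, fun ts => ?_⟩
  have b1 : Bdd (redN ts).n (system ts) := system_bdd ts
  have b2 : Bdd (redM ts).n (hom (redN ts).n (redK ts).n (system ts)) := hom_bdd b1
  have e : ETR (N487b59b3.bitEncode ts) = true ↔
      Proj (redM ts).n (hom (redN ts).n (redK ts).n (system ts)) := by
    rw [etr_enc, ← system_iff]
    exact aff_iff_proj (Nat.succ_pos _) b1 (lt_two_pow_sz _).le rfl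
  rw [e]
  refine ⟨wfm_sims (Nat.le_add_left_of_le (by norm_num)) (wfl_main _ b2), fun ⟨st, h⟩ => ?_,
    fun h ε hε => run_complete _ b2 h hε⟩
  by_contra hp
  obtain ⟨v, hv⟩ := run_sound b2 h
  exact absurd (hg _ _ b2 hp v) (not_le.2 hv)

end Pool.Agent.Lib.MP_242159_lc
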