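import Pool.Agent.Lib.MP_242159_lc.Alg
import Pool.Agent.Lib.MP_242159_lc.MemA

set_option autoImplicit false

namespace Pool.Agent.Lib.MP_242159_lc

open Pool.Agent.Lib.MP_acf5a6_lc

namespace Mem

open N487b59b3 Complex

/-- The value of a quadratic polynomial. -/
def quadT (r0 r1 r2 l : Term) : Term := .add r0 (.mul l (.add r1 (.mul l r2)))

/-- The point is not positive or the quadratic is not positive there. -/
def goodF (r0 r1 r2 l : Term) : Formula :=
  .or (.le l (.const 0)) (.le (quadT r0 r1 r2 l) (.const 0))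

/-- The formula of `QuadOK`. -/
def quadF (c0 c1 c2 L : CT) : Formula :=
  .or (.lt (.mul c1.2 c1.2) (.mul (.const 4) (.mul c0.2 c2.2))) <|
  .or (.and (.not (.eq c2.2 (.const 0))) <| .and (.eq c1.2 (tneg (.mul c2.2 (.add L.1 L.2)))) <|
    .and (.eq c0.2 (.mul c2.2 (.mul L.1 L.2))) <|
      .and (goodF c0.1 c1.1 c2.1 L.1) (goodF c0.1 c1.1 c2.1 L.2)) <|
  .or (.and (.eq c2.2 (.const 0)) <| .and (.not (.eq c1.2 (.const 0))) <|
    .and (.eq c0.2 (tneg (.mul c1.2 L.1))) (goodF c0.1 c1.1 c2.1 L.1)) <|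
  .or (.and (.eq c2.2 (.const 0)) <| .and (.eq c1.2 (.const 0)) (.not (.eq c0.2 (.const 0)))) <|
  .and (.le c0.1 (.const 0)) <| .and (.le c2.1 (.const 0)) <|
    .or (.le c1.1 (.const 0)) (.le (.mul c1.1 c1.1) (.mul (.const 4) (.mul c0.1 c2.1)))

/-- No positive `l` makes `(a0 + l a1) conj (b0 + l b1)` a positive real. -/
def linF (a0 a1 b0 b1 L : CT) : Formula :=
  quadF (cmul a0 (cconj b0)) (cadd (cmul a0 (cconj b1)) (cmul a1 (cconj b0))) (cmul a1 (cconj b1)) L

/-- Two arcs do not meet. -/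
def crossF (a b W a' b' W' L : CT) : Formula :=
  linF (csub a a') (cmul W (csub b a')) (cmul W' (csub b' a)) (cmul W' (cmul W (csub b' b))) L

/-- The semantic form of `linF`. -/
def LinOK (a0 a1 b0 b1 L : ℂ) : Prop :=
  QuadOK (a0 * (starRingEnd ℂ) b0).im (a0 * (starRingEnd ℂ) b1 + a1 * (starRingEnd ℂ) b0).im
    (a1 * (starRingEnd ℂ) b1).im (a0 * (starRingEnd ℂ) b0).re
    (a0 * (starRingEnd ℂ) b1 + a1 * (starRingEnd ℂ) b0).re (a1 * (starRingEnd ℂ) b1).re L.re L.im

/-- The semantic form of `crossF`. -/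
def CrossOK (a b W a' b' W' L : ℂ) : Prop :=
  LinOK (a - a') (W * (b - a')) (W' * (b' - a)) (W' * (W * (b' - b))) L

theorem holds_quadF (v : ℕ → ℝ) (c0 c1 c2 L : CT) : Holds v (quadF c0 c1 c2 L) ↔
    QuadOK (cval v c0).im (cval v c1).im (cval v c2).im (cval v c0).re (cval v c1).re
      (cval v c2).re (cval v L).re (cval v L).im := by
  simp only [quadF, goodF, quadT, Holds, termVal, val_tneg, val_fst, val_snd, QuadOK,
    Int.cast_zero, Int.cast_ofNat]

theorem holds_crossF (v : ℕ → ℝ) (a b W a' b' W' L : CT) : Holds v (crossF a b W a' b' W' L) ↔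
    CrossOK (cval v a) (cval v b) (cval v W) (cval v a') (cval v b') (cval v W') (cval v L) := by
  simp only [crossF, linF, holds_quadF, cval_mul, cval_add, cval_sub, cval_conj, CrossOK, LinOK]

theorem lin_iff (a0 a1 b0 b1 : ℂ) :
    (∀ l : ℝ, 0 < l → ¬ Pos (a0 + l * a1) (b0 + l * b1)) ↔ ∃ L, LinOK a0 a1 b0 b1 L := by
  have e : ∀ l : ℝ, (a0 + l * a1) * (starRingEnd ℂ) (b0 + l * b1) = a0 * (starRingEnd ℂ) b0 +
      l * ((a0 * (starRingEnd ℂ) b1 + a1 * (starRingEnd ℂ) b0) + l * (a1 * (starRingEnd ℂ) b1)) := by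
    intro l
    rw [map_add, map_mul, conj_ofReal]; ring
  simp only [Pos, e, add_im (a0 * _) ((_ : ℝ) * _), add_re (a0 * _) ((_ : ℝ) * _), im_ofReal_mul,
    re_ofReal_mul, add_im (_ + _), add_re (_ + _)]
  rw [quad_iff]
  exact ⟨fun ⟨l, m, h⟩ => ⟨⟨l, m⟩, h⟩, fun ⟨L, h⟩ => ⟨L.re, L.im, h⟩⟩

theorem crossOK_iff {a b W a' b' W' : ℂ} (hW : W ∈ slitPlane) (hab : a' ≠ b') (hW' : W' ≠ 0) :
    (∀ z, OnArc a b W z → ¬ OnArc a' b' W' z) ↔ ∃ L, CrossOK a b W a' b' W' L := by
  rw [cross_iff hW hab hW', lin_iff]; rfl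

/-- The half edges. -/
def hs (A : List (List ℕ)) : List (ℕ × ℕ) :=
  (idx A).flatMap fun u => (idx (nb A u)).map fun k => (u, k)

theorem lt_of_lt_nb {A : List (List ℕ)} {u k : ℕ} (h : k < (nb A u).length) : u < A.length := by
  by_contra hc
  rw [nb, List.getD_eq_default _ _ (by omega)] at h
  simp at h

theorem mem_hs {A : List (List ℕ)} {h : ℕ × ℕ} : h ∈ hs A ↔ h.2 < (nb A h.1).length := by
  obtain ⟨u, k⟩ := h
  simp only [hs, idx, List.mem_flatMap, List.mem_range, List.mem_map, Prod.mk.injEq]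
  exact ⟨fun ⟨_, _, _, h1, h2, h3⟩ => h2 ▸ h3 ▸ h1, fun h => ⟨u, lt_of_lt_nb h, k, h, rfl, rfl⟩⟩

/-- The test for `IsRotGraph`. -/
def chk (A : List (List ℕ)) : Bool :=
  (hs A).all fun h => decide (nk A h.1 h.2 < A.length) && !decide (nk A h.1 h.2 = h.1) &&
    !((nb A (nk A h.1 h.2)).all fun x => !decide (x = h.1)) &&
    (idx (nb A h.1)).all fun j => decide (h.2 = j) || !decide (nk A h.1 h.2 = nk A h.1 j)

theorem nk_eq {A : List (List ℕ)} {u k : ℕ} (h : k < (nb A u).length) :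
    nk A u k = (nb A u)[k] := List.getD_eq_getElem _ _ h

theorem chk_iff (A : List (List ℕ)) : chk A = true ↔ IsRotGraph A := by
  simp only [chk, List.all_eq_true, mem_hs, Bool.and_eq_true, decide_eq_true_eq, Bool.not_eq_true',
    decide_eq_false_iff_not, Bool.or_eq_true, idx, List.mem_range, List.all_eq_false,
    not_not, exists_eq_right, Prod.forall]
  constructor
  · intro h u _
    refine ⟨List.nodup_iff_injective_getElem.mpr fun i j hij => ?_, fun v hv => ?_⟩
    · refine Fin.ext (((h u i i.2).2 j j.2).resolve_right (not_not.mpr ?_))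
      rw [nk_eq i.2, nk_eq j.2]; exact hij
    · obtain ⟨k, hk, rfl⟩ := List.getElem_of_mem hv
      have := (h u k hk).1
      rw [nk_eq hk] at this
      exact ⟨this.1.1, this.1.2, this.2⟩
  · intro h u k hk
    obtain ⟨h1, h2⟩ := h u (lt_of_lt_nb hk)
    have h3 := h2 _ (List.getElem_mem hk)
    rw [nk_eq hk]
    refine ⟨⟨⟨h3.1, h3.2.1⟩, h3.2.2⟩, fun j hj => ?_⟩
    rw [nk_eq hj]
    by_cases e : k = j
    · exact Or.inl e
    · exact Or.inr fun h4 => e ((List.Nodup.getElem_inj_iff h1).mp h4)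

/-- The two half edges lie on the same edge. -/
def same (A : List (List ℕ)) (h g : ℕ × ℕ) : Bool :=
  (decide (h.1 = g.1) && decide (nk A h.1 h.2 = nk A g.1 g.2)) ||
    (decide (h.1 = nk A g.1 g.2) && decide (nk A h.1 h.2 = g.1))

theorem same_iff (A : List (List ℕ)) (h g : ℕ × ℕ) :
    same A h g = true ↔ s(h.1, nk A h.1 h.2) = s(g.1, nk A g.1 g.2) := by
  simp [same]

def rootF (u k d : ℕ) : Formula :=
  .and (ceq (cvar 4 u 0) cone) <| .and (ceq (cvar 4 u d) cone) <|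
    .and (.le (.const 0) (cvar 4 u 1).2) <|
      .and (ceq (cvar 4 u (k + 1)) (cmul (cvar 4 u k) (cvar 4 u 1))) <|
        cond (decide (k = 0)) tru
          (.and (.not (ceq (cvar 4 u k) cone)) (.le (cvar 4 u k).1 (cvar 4 u 1).1))

def arcF (u k w : ℕ) : Formula :=
  .and (ceq (cmul (cvar 6 u k) (csub (cvar 0 w 0) (cvar 0 u 0)))
      (cmul (cvar 2 u 0) (cvar 4 u k))) <|
    .or (.lt (.const 0) (cvar 6 u k).1) (.not (.eq (cvar 6 u k).2 (.const 0)))

def tanF (A : List (List ℕ)) (u k w : ℕ) : Formula :=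
  andL ((idx (nb A w)).map fun j => cond (decide (nk A w j = u))
    (cpos (cmul (cmul (cvar 2 w 0) (cvar 4 w j)) (cvar 6 u k)) (csub (cvar 0 u 0) (cvar 0 w 0))) tru)

def vertF (A : List (List ℕ)) (u k w : ℕ) : Formula :=
  andL ((idx A).map fun x => .not (cpos (csub (cvar 0 x 0) (cvar 0 u 0))
    (cmul (cvar 6 u k) (csub (cvar 0 w 0) (cvar 0 x 0)))))

def meetF (A : List (List ℕ)) (h : ℕ × ℕ) : Formula :=
  andL ((hs A).map fun g => cond (same A h g) tru
    (crossF (cvar 0 h.1 0) (cvar 0 (nk A h.1 h.2) 0) (cvar 6 h.1 h.2)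
      (cvar 0 g.1 0) (cvar 0 (nk A g.1 g.2) 0) (cvar 6 g.1 g.2)
      (cvar 8 (Nat.pair h.1 h.2) (Nat.pair g.1 g.2))))

def halfF (A : List (List ℕ)) (h : ℕ × ℕ) : Formula :=
  .and (rootF h.1 h.2 (nb A h.1).length) <| .and (arcF h.1 h.2 (nk A h.1 h.2)) <|
    .and (tanF A h.1 h.2 (nk A h.1 h.2)) <| .and (vertF A h.1 h.2 (nk A h.1 h.2)) (meetF A h)

def injF (A : List (List ℕ)) : Formula :=
  andL ((idx A).flatMap fun u => (idx A).map fun w =>
    cond (decide (u = w)) tru (.not (ceq (cvar 0 u 0) (cvar 0 w 0))))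

/-- The formula of an instance. -/
def phi (A : List (List ℕ)) : Formula :=
  .and (cond (chk A) tru (.not tru)) <| .and (injF A) (andL ((hs A).map fun h => halfF A h))

section PTs

variable {α : Type} [N487b59b3 α]

@[fun_prop] theorem goodF_PT {f g h l : α → Term} (hf : PT f) (hg : PT g) (hh : PT h) (hl : PT l) :
    PT (fun a => goodF (f a) (g a) (h a) (l a)) := by unfold goodF quadT; fun_prop

@[fun_prop] theorem quadF_PT {f g h l : α → CT} (hf : PT f) (hg : PT g) (hh : PT h) (hl : PT l) :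
    PT (fun a => quadF (f a) (g a) (h a) (l a)) := by unfold quadF; fun_prop

@[fun_prop] theorem crossF_PT {f g h f' g' h' l : α → CT} (hf : PT f) (hg : PT g) (hh : PT h)
    (hf' : PT f') (hg' : PT g') (hh' : PT h') (hl : PT l) :
    PT (fun a => crossF (f a) (g a) (h a) (f' a) (g' a) (h' a) (l a)) := by
  unfold crossF linF; fun_prop

@[fun_prop] theorem hs_PT {A : α → List (List ℕ)} (hA : PT A) : PT (fun a => hs (A a)) := by
  unfold hs; fun_prop

theorem chk_PT : PT chk := by unfold chk; fun_prop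

@[fun_prop] theorem same_PT {A : α → List (List ℕ)} {h g : α → ℕ × ℕ} (hA : PT A) (hh : PT h)
    (hg : PT g) : PT (fun a => same (A a) (h a) (g a)) := by unfold same; fun_prop

theorem halfF_PT : PT (fun x : List (List ℕ) × ℕ × ℕ => halfF x.1 x.2) := by
  have h1 : PT (fun x : List (List ℕ) × ℕ × ℕ => rootF x.2.1 x.2.2 (nb x.1 x.2.1).length) := by
    unfold rootF; fun_prop
  have h2 : PT (fun x : List (List ℕ) × ℕ × ℕ => arcF x.2.1 x.2.2 (nk x.1 x.2.1 x.2.2)) := by
    unfold arcF; fun_prop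
  have h3 : PT (fun x : List (List ℕ) × ℕ × ℕ => tanF x.1 x.2.1 x.2.2 (nk x.1 x.2.1 x.2.2)) := by
    unfold tanF; fun_prop
  have h4 : PT (fun x : List (List ℕ) × ℕ × ℕ => vertF x.1 x.2.1 x.2.2 (nk x.1 x.2.1 x.2.2)) := by
    unfold vertF; fun_prop
  have h5 : PT (fun x : List (List ℕ) × ℕ × ℕ => meetF x.1 x.2) := by
    unfold meetF; fun_prop
  exact and_PT h1 (and_PT h2 (and_PT h3 (and_PT h4 h5)))

theorem phi_PT : PT phi := by
  have h1 : PT injF := by unfold injF; fun_prop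
  exact and_PT (PT.cond' chk_PT (PT.const _) (PT.const _))
    (and_PT h1 (andL_PT (PT.map halfF_PT (hs_PT PT.id'))))

end PTs

theorem holds_cond (v : ℕ → ℝ) (b : Bool) (φ : Formula) :
    (Holds v (cond b tru φ) ↔ (¬ b = true → Holds v φ)) ∧
      (Holds v (cond b φ tru) ↔ (b = true → Holds v φ)) := by
  cases b <;> simp [holds_tru]

/-- The semantic form of `phi`. -/
structure Sem (A : List (List ℕ)) (p f : ℕ → ℂ) (O W : ℕ → ℕ → ℂ) (L : ℕ → ℕ → ℂ) : Prop where
  inj : ∀ u < A.length, ∀ w < A.length, u ≠ w → p u ≠ p w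
  root : ∀ u, ∀ k < (nb A u).length, O u 0 = 1 ∧ O u (nb A u).length = 1 ∧ 0 ≤ (O u 1).im ∧
    O u (k + 1) = O u k * O u 1 ∧ (k ≠ 0 → O u k ≠ 1 ∧ (O u k).re ≤ (O u 1).re)
  arc : ∀ u, ∀ k < (nb A u).length,
    W u k * (p (nk A u k) - p u) = f u * O u k ∧ W u k ∈ slitPlane
  tan : ∀ u, ∀ k < (nb A u).length, ∀ j < (nb A (nk A u k)).length, nk A (nk A u k) j = u →
    Pos (f (nk A u k) * O (nk A u k) j * W u k) (p u - p (nk A u k))
  vert : ∀ u, ∀ k < (nb A u).length, ∀ x < A.length,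
    ¬ Pos (p x - p u) (W u k * (p (nk A u k) - p x))
  meet : ∀ u, ∀ k < (nb A u).length, ∀ u', ∀ k' < (nb A u').length,
    s(u, nk A u k) ≠ s(u', nk A u' k') → CrossOK (p u) (p (nk A u k)) (W u k) (p u')
      (p (nk A u' k')) (W u' k') (L (Nat.pair u k) (Nat.pair u' k'))

theorem holds_phi (A : List (List ℕ)) (v : ℕ → ℝ) : Holds v (phi A) ↔ IsRotGraph A ∧
    Sem A (fun u => cval v (cvar 0 u 0)) (fun u => cval v (cvar 2 u 0))
      (fun u k => cval v (cvar 4 u k)) (fun u k => cval v (cvar 6 u k))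
      (fun u k => cval v (cvar 8 u k)) := by
  have h0 : Holds v (cond (chk A) tru (.not tru)) ↔ IsRotGraph A := by
    rw [← chk_iff]
    cases chk A <;> simp [Holds, holds_tru]
  simp only [phi, Holds, h0, injF, holds_andL, List.forall_mem_map, List.forall_mem_flatMap,
    mem_hs, halfF, rootF, arcF, tanF, vertF, meetF, idx, List.mem_range, (holds_cond v _ _).1,
    (holds_cond v _ _).2, holds_ceq, holds_cpos, holds_crossF, cval_mul, cval_sub, cval_one,
    val_fst, val_snd, termVal, decide_eq_true_eq, same_iff, Int.cast_zero, Prod.forall]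
  refine and_congr_right fun _ => ⟨fun ⟨h1, h2⟩ => ⟨h1, fun u k hk => (h2 u k hk).1,
    fun u k hk => (h2 u k hk).2.1, fun u k hk => (h2 u k hk).2.2.1,
    fun u k hk => (h2 u k hk).2.2.2.1, fun u k hk => (h2 u k hk).2.2.2.2⟩,
    fun h => ⟨h.inj, fun u k hk =>
      ⟨h.root u k hk, h.arc u k hk, h.tan u k hk, h.vert u k hk, h.meet u k hk⟩⟩⟩

theorem exists_val (g : ℕ → ℕ → ℕ → ℂ) :
    ∃ v : ℕ → ℝ, ∀ c i j, cval v (cvar (2 * c) i j) = g c i j := by
  refine ⟨fun n => if n.unpair.1 % 2 = 0 then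
    (g (n.unpair.1 / 2) n.unpair.2.unpair.1 n.unpair.2.unpair.2).re else
    (g (n.unpair.1 / 2) n.unpair.2.unpair.1 n.unpair.2.unpair.2).im, fun c i j => ?_⟩
  apply Complex.ext
  · simp [cval, cvar, termVal]
  · simp [cval, cvar, termVal, show (2 * c + 1) / 2 = c by omega]

theorem ne_nk {A : List (List ℕ)} (hA : IsRotGraph A) {p : ℕ → ℂ}
    (hp : ∀ u < A.length, ∀ v < A.length, p u = p v → u = v) {u k : ℕ}
    (hk : k < (nb A u).length) : p u ≠ p (nk A u k) := by
  have h := (hA u (lt_of_lt_nb hk)).2 _ (List.getElem_mem hk)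
  rw [← nk_eq hk] at h
  exact fun e => h.2.1 (hp _ (lt_of_lt_nb hk) _ h.1 e).symm

theorem alg_of_sem {A : List (List ℕ)} (hA : IsRotGraph A) {p f : ℕ → ℂ} {O W L : ℕ → ℕ → ℂ}
    (h : Sem A p f O W L) : Alg A p f := by
  have hinj : ∀ u < A.length, ∀ v < A.length, p u = p v → u = v := fun u hu w hw e => by
    by_contra hc
    exact h.inj u hu w hw hc e
  have hO : ∀ u, ∀ k < (nb A u).length, O u k = rt (nb A u).length k := by
    intro u k hk
    have h1 : ∀ j ≤ (nb A u).length, O u j = O u 1 ^ j := by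
      intro j hj
      induction j with
      | zero => rw [pow_zero]; exact (h.root u k hk).1
      | succ j ih => rw [(h.root u j hj).2.2.2.1, ih (by omega), pow_succ]
    have h2 : O u 1 = rt (nb A u).length 1 := by
      refine eq_rt (by omega) (by rw [← h1 _ le_rfl]; exact (h.root u k hk).2.1)
        (fun j hj hjd => ?_) (h.root u k hk).2.2.1
      rw [← h1 j hjd.le]
      exact (h.root u j hjd).2.2.2.2 hj.ne'
    rw [h1 k hk.le, h2, ← rt_pow]
  have hW : ∀ u, ∀ k < (nb A u).length, Wd A p f u k = W u k := by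
    intro u k hk
    rw [Wd, ← hO u k hk, ← (h.arc u k hk).1,
      mul_div_cancel_right₀ _ (sub_ne_zero.mpr (ne_nk hA hinj hk).symm)]
  refine ⟨hinj, fun u k hk => hW u k hk ▸ (h.arc u k hk).2, fun u k hk j hj e => ?_,
    fun u k hk x hx => ?_, fun u k hk u' k' hk' hne => ?_⟩
  · rw [hW u k hk, ← hO _ j hj]
    exact ((pos_iff _ _).1 (h.tan u k hk j hj e)).2
  · rw [hW u k hk, onArc_iff (ne_nk hA hinj hk) (slitPlane_ne_zero (h.arc u k hk).2)]
    exact h.vert u k hk x hx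
  · rw [hW u k hk, hW u' k' hk', crossOK_iff (h.arc u k hk).2 (ne_nk hA hinj hk')
      (slitPlane_ne_zero (h.arc u' k' hk').2)]
    exact ⟨_, h.meet u k hk u' k' hk' hne⟩

theorem sem_of_alg {A : List (List ℕ)} (hA : IsRotGraph A) {p f : ℕ → ℂ} (h : Alg A p f) :
    ∃ L, Sem A p f (fun u k => rt (nb A u).length k) (Wd A p f) L := by
  have h1 : ∀ i j : ℕ, ∃ L : ℂ, i.unpair.2 < (nb A i.unpair.1).length →
      j.unpair.2 < (nb A j.unpair.1).length →
      s(i.unpair.1, nk A i.unpair.1 i.unpair.2) ≠ s(j.unpair.1, nk A j.unpair.1 j.unpair.2) →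
      CrossOK (p i.unpair.1) (p (nk A i.unpair.1 i.unpair.2)) (Wd A p f i.unpair.1 i.unpair.2)
        (p j.unpair.1) (p (nk A j.unpair.1 j.unpair.2)) (Wd A p f j.unpair.1 j.unpair.2) L := by
    intro i j
    by_cases hi : i.unpair.2 < (nb A i.unpair.1).length
    · by_cases hj : j.unpair.2 < (nb A j.unpair.1).length
      · by_cases hne : s(i.unpair.1, nk A i.unpair.1 i.unpair.2) =
            s(j.unpair.1, nk A j.unpair.1 j.unpair.2)
        · exact ⟨0, fun _ _ h => absurd hne h⟩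
        · obtain ⟨L, hL⟩ := (crossOK_iff (h.slit _ _ hi) (ne_nk hA h.inj hj)
            (slitPlane_ne_zero (h.slit _ _ hj))).1 (h.cross _ _ hi _ _ hj hne)
          exact ⟨L, fun _ _ _ => hL⟩
      · exact ⟨0, fun _ h => absurd h hj⟩
    · exact ⟨0, fun h => absurd h hi⟩
  choose L hL using h1
  refine ⟨L, fun u hu w hw hne e => hne (h.inj u hu w hw e), fun u k hk => ?_,
    fun u k hk => ⟨?_, h.slit u k hk⟩, fun u k hk j hj e => ?_, fun u k hk x hx => ?_,
    fun u k hk u' k' hk' hne => ?_⟩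
  · have hd : (nb A u).length ≠ 0 := by omega
    refine ⟨by rw [rt_pow, pow_zero], by rw [rt_pow, (rt_prim hd).pow_eq_one], rt_im_nonneg hd,
      by rw [rt_pow, pow_succ, ← rt_pow], fun h0 => ⟨?_, rt_re_le (by omega) hk⟩⟩
    rw [rt_pow]
    exact (rt_prim hd).pow_ne_one_of_pos_of_lt h0 hk
  · rw [Wd, div_mul_cancel₀ _ (sub_ne_zero.mpr (ne_nk hA h.inj hk).symm)]
  · exact (pos_iff _ _).2 ⟨sub_ne_zero.mpr (ne_nk hA h.inj hk), h.tan u k hk j hj e⟩
  · rw [← onArc_iff (ne_nk hA h.inj hk) (slitPlane_ne_zero (h.slit u k hk))]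
    exact h.vert u k hk x hx
  · simpa only [Nat.unpair_pair] using hL (Nat.pair u k) (Nat.pair u' k')
      (by simpa only [Nat.unpair_pair] using hk) (by simpa only [Nat.unpair_pair] using hk')
      (by simpa only [Nat.unpair_pair] using hne)

theorem phi_iff (A : List (List ℕ)) :
    (∃ v, Holds v (phi A)) ↔ IsRotGraph A ∧ ∃ p γ, IsDrawing A p γ := by
  constructor
  · rintro ⟨v, hv⟩
    obtain ⟨hA, h⟩ := (holds_phi A v).1 hv
    exact ⟨hA, (drawing_iff_alg hA).2 ⟨_, _, alg_of_sem hA h⟩⟩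
  · rintro ⟨hA, h⟩
    obtain ⟨p, f, h⟩ := (drawing_iff_alg hA).1 h
    obtain ⟨L, h⟩ := sem_of_alg hA h
    obtain ⟨v, hv⟩ := exists_val fun c i j => if c = 0 then p i else if c = 1 then f i else
      if c = 2 then rt (nb A i).length j else if c = 3 then Wd A p f i j else L i j
    refine ⟨v, (holds_phi A v).2 ⟨hA, ?_⟩⟩
    have h0 : ∀ i j, cval v (cvar 0 i j) = p i := fun i j => hv 0 i j
    have h1 : ∀ i j, cval v (cvar 2 i j) = f i := fun i j => hv 1 i j
    have h2 : ∀ i j, cval v (cvar 4 i j) = rt (nb A i).length j := fun i j => hv 2 i j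
    have h3 : ∀ i j, cval v (cvar 6 i j) = Wd A p f i j := fun i j => hv 3 i j
    have h4 : ∀ i j, cval v (cvar 8 i j) = L i j := fun i j => hv 4 i j
    simp only [h0, h1, h2, h3, h4]
    exact h

end Mem

open Mem in
theorem plr_le_etr : N793a5b8e.ManyOneReducible PLR ETR := by
  refine manyOne_of_PT Chk.nat.list.list (formulaCode_PT phi_PT)
    (formulaCode (.lt (.const 0) (.const 0))) ?_ ?_ ?_
  · rw [Bool.eq_false_iff, Ne, formulaCode_sat]
    simp [Holds]
  · intro s hs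
    simp only [PLR, decide_eq_true_eq] at hs
    obtain ⟨A, h, -⟩ := hs
    exact ⟨A, h.symm⟩
  · intro A
    rw [Bool.eq_iff_iff, formulaCode_sat, phi_iff]
    simp only [PLR, decide_eq_true_eq]
    constructor
    · rintro ⟨B, h, h'⟩
      rw [N487b59b3.bitEncode_injective h]
      exact h'
    · exact fun h => ⟨A, rfl, h⟩

end Pool.Agent.Lib.MP_242159_lc
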