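import Pool.Agent.Lib.MP_242159_lc.Grid
import Pool.Agent.Lib.MP_242159_lc.Enc
import Pool.Agent.Lib.MP_242159_lc.Mach
import Pool.Agent.Lib.MP_242159_lc.Mem

/-!
The reduction from the existential theory of the reals.
-/

set_option autoImplicit false

namespace Pool.Agent.Lib.MP_242159_lc

open Pool.Agent.Lib.MP_acf5a6_lc

/-- A vertex code split into row offset, column offset and index. -/
def glDec (x : ℕ) : ℕ × ℕ × ℕ := (x / 120, x % 120 / 40, x % 40)

/-- The edges of all tiles with split vertex codes. -/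
def glTab : List (List ((ℕ × ℕ × ℕ) × ℕ × (ℕ × ℕ × ℕ) × ℕ)) :=
  (List.range 13).map fun g => (allE g).map fun e => (glDec e.1, e.2.1, glDec e.2.2.1, e.2.2.2)

/-- A split tile edge as an edge of the graph. -/
def glE (m j i : ℕ) (e : (ℕ × ℕ × ℕ) × ℕ × (ℕ × ℕ × ℕ) × ℕ) : Edge :=
  (nm m (j + e.1.1) (i + e.1.2.1) e.1.2.2, (2 * m + 3) * e.2.1,
    nm m (j + e.2.2.1.1) (i + e.2.2.1.2.1) e.2.2.1.2.2, (2 * m + 3) * e.2.2.2)

theorem gl_tab (g : ℕ) : glTab.getD g [] =
    (allE g).map fun e => (glDec e.1, e.2.1, glDec e.2.2.1, e.2.2.2) := by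
  by_cases h : g < 13
  · rw [glTab, List.getD_eq_getElem _ _ (by simpa using h), List.getElem_map, List.getElem_range]
  · have h1 : inE g = [] := List.getD_eq_default _ _ (by simpa using h)
    have h2 : skE g = [] := List.getD_eq_default _ _ (by simpa using h)
    rw [allE, h1, h2, glTab, List.getD_eq_default _ _ (by simpa using h)]
    rfl

theorem gl_map (m j i g : ℕ) : (allE g).map (gE m j i) = (glTab.getD g []).map (glE m j i) := by
  rw [gl_tab, List.map_map]
  rfl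

section

variable {α : Type} [N487b59b3 α]

@[fun_prop] theorem gl_nm_PT {m j i k : α → ℕ} (hm : PT m) (hj : PT j) (hi : PT i) (hk : PT k) :
    PT (fun a => nm (m a) (j a) (i a) (k a)) := by
  unfold nm
  fun_prop

@[fun_prop] theorem gl_E_PT {m j i : α → ℕ} {e : α → (ℕ × ℕ × ℕ) × ℕ × (ℕ × ℕ × ℕ) × ℕ}
    (hm : PT m) (hj : PT j) (hi : PT i) (he : PT e) :
    PT (fun a => glE (m a) (j a) (i a) (e a)) := by
  unfold glE
  fun_prop

@[fun_prop] theorem gl_ty_PT {m c r j i : α → ℕ} {prog : α → List (ℕ × ℕ)} (hm : PT m)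
    (hc : PT c) (hr : PT r) (hp : PT prog) (hj : PT j) (hi : PT i) :
    PT (fun a => ty (m a) (c a) (r a) (prog a) (j a) (i a)) := by
  unfold ty
  fun_prop

@[fun_prop] theorem gl_ray_PT {m : α → ℕ} {s : α → ℕ × ℕ} (hm : PT m) (hs : PT s) :
    PT (fun a => rayE (m a) (s a)) := by
  unfold rayE
  fun_prop

theorem gl_seeds_PT {m : α → Un} {J : α → ℕ} (hm : PT m) (hJ : PT J) :
    PT (fun a => seeds (m a).n (J a)) := by
  have : PT (fun a => (nm (m a).n (J a) 0 7, 35 * (2 * (m a).n + 3) + 1) ::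
      (nm (m a).n (J a) 1 2, 35 * (2 * (m a).n + 3) + 2) ::
      (List.range ((m a).add ⟨1⟩).n).flatMap fun i =>
        [(nm (m a).n 0 i 6, 53 * (2 * (m a).n + 3) + (2 * i + 1)),
          (nm (m a).n 0 (i + 1) 0, 53 * (2 * (m a).n + 3) + (2 * i + 2))]) := by
    fun_prop
  exact this

end

theorem EL_PT {α : Type} [N487b59b3 α] {m : α → Un} {c r : α → ℕ} {prog : α → List (ℕ × ℕ)}
    (hm : PT m) (hc : PT c) (hr : PT r) (hp : PT prog) :
    PT (fun a => EL (m a).n (c a) (r a) (prog a)) := by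
  have h1 : PT (fun a => seeds (m a).n ((prog a).length + 1)) := gl_seeds_PT hm (by fun_prop)
  have h2 : PT (fun a => (seeds (m a).n ((prog a).length + 1)).map (rayE (m a).n) ++
      (List.range ((ulen (prog a)).add ⟨2⟩).n).flatMap fun j =>
        (List.range ((m a).add ⟨2⟩).n).flatMap fun i =>
          (glTab.getD (ty (m a).n (c a) (r a) (prog a) j i) []).map (glE (m a).n j i)) := by
    fun_prop
  refine h2.of_eq fun a => ?_
  simp only [← gl_map]
  rfl

theorem etr_le_plr_of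
    (hno : ∀ m c r prog, WFM m r prog → ∀ p f, Core (72 * (2 * m + 3)) (EL m c r prog) p f →
      ∃ st, Run c r prog st)
    (hyes : ∀ m c r prog, WFM m r prog → ∃ ε : ℝ, 0 < ε ∧ ∀ st, Run c r prog st →
      (∀ n ≤ prog.length, ∀ i < m, |st n i| < ε) →
        ∃ p f, Core (72 * (2 * m + 3)) (EL m c r prog) p f) :
    N793a5b8e.ManyOneReducible ETR PLR := by
  obtain ⟨m, c, r, prog, hm, hc, hr, hp, H⟩ := machine
  have hplr : ∀ A : List (List ℕ), PLR (N487b59b3.bitEncode A) = true ↔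
      IsRotGraph A ∧ ∃ p γ, IsDrawing A p γ := by
    intro A
    simp only [PLR, decide_eq_true_eq]
    constructor
    · rintro ⟨B, h, h'⟩
      rw [N487b59b3.bitEncode_injective h]
      exact h'
    · exact fun h => ⟨A, rfl, h⟩
  have hf : PT (fun ts => graph (nV (m ts).n (prog ts)) (72 * (2 * (m ts).n + 3))
      (EL (m ts).n (c ts) (r ts) (prog ts))) :=
    graph_PT
      (n := fun ts => (Un.mk 1).add
        ((((ulen (prog ts)).add ⟨2⟩).mul ((m ts).add ⟨2⟩)).mul ⟨40⟩))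
      (N := fun ts => (Un.mk 72).mul (((Un.mk 2).mul (m ts)).add ⟨3⟩))
      (by fun_prop) (by fun_prop) (EL_PT hm hc hr hp)
  refine manyOne_of_PT (Chk.nat.prod Chk.int).list hf [[0]] ?_ ?_ ?_
  · rw [Bool.eq_false_iff, Ne, hplr]
    rintro ⟨h, -⟩
    exact ((h 0 (by simp)).2 0 (by simp [nb])).2.1 rfl
  · intro s hs
    simp only [ETR, decide_eq_true_eq] at hs
    obtain ⟨φ, h, -⟩ := hs
    exact ⟨_, h.symm⟩
  · intro ts
    obtain ⟨W, h1, h2⟩ := H ts
    have hw := EL_wf (c := c ts) W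
    rw [Bool.eq_iff_iff, hplr]
    constructor
    · intro h
      obtain ⟨ε, hε, h3⟩ := hyes _ (c ts) _ _ W
      obtain ⟨st, a1, a2⟩ := h2 h ε hε
      obtain ⟨p, f, hC⟩ := h3 st a1 a2
      exact ⟨graph_rot hw, (drawing_iff_alg (graph_rot hw)).2 (alg_of_core hw hC)⟩
    · rintro ⟨hA, h⟩
      obtain ⟨p, f, hA'⟩ := (drawing_iff_alg hA).1 h
      exact h1 (hno _ _ _ _ W p f (core_of_alg hw hA'))

end Pool.Agent.Lib.MP_242159_lc
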