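import Pool.Agent.Lib.MP_242159_lc.Data

/-!
The edge list of a machine and its combinatorial properties.
-/

set_option autoImplicit false

namespace Pool.Agent.Lib.MP_242159_lc

/-- The type of the tile in row `j` and column `i`. -/
def ty (m c r : ℕ) (prog : List (ℕ × ℕ)) (j i : ℕ) : ℕ :=
  if j = prog.length + 1 then
    (if i = 0 then 11 else if i = m + 1 then 12 else if i ≤ c then 9 else 10)
  else if i = 0 then 6 else if i = m + 1 then 7
  else if j = 0 then (if i = r + 2 then 5 else 4)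
  else if i = (prog.getD (prog.length - j) (0, 0)).2 + 1 then (prog.getD (prog.length - j) (0, 0)).1
  else if i = (prog.getD (prog.length - j) (0, 0)).2 + 2 then 8 else 4

/-- The number of a vertex. -/
def nm (m j i k : ℕ) : ℕ := 1 + ((j * (m + 2) + i) * 40 + k)

/-- The number of the vertex with code `c` in the tile `(j, i)`. -/
def gl (m j i c : ℕ) : ℕ := nm m (j + c / 120) (i + c % 120 / 40) (c % 40)

/-- All edges of a tile. -/
def allE (g : ℕ) : List Edge := inE g ++ skE g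

/-- A tile edge as an edge of the graph. -/
def gE (m j i : ℕ) (e : Edge) : Edge :=
  (gl m j i e.1, (2 * m + 3) * e.2.1, gl m j i e.2.2.1, (2 * m + 3) * e.2.2.2)

/-- The neighbours of the vertex `0` with the direction numbers of their edges to it. -/
def seeds (m J : ℕ) : List (ℕ × ℕ) :=
  (nm m J 0 7, 35 * (2 * m + 3) + 1) :: (nm m J 1 2, 35 * (2 * m + 3) + 2) ::
    (List.range (m + 1)).flatMap fun i =>
      [(nm m 0 i 6, 53 * (2 * m + 3) + (2 * i + 1)), (nm m 0 (i + 1) 0, 53 * (2 * m + 3) + (2 * i + 2))]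

/-- The edge from a seed to the vertex `0`. -/
def rayE (m : ℕ) (s : ℕ × ℕ) : Edge := (s.1, s.2, 0, 72 * (2 * m + 3) - s.2)

/-- The edge list. -/
def EL (m c r : ℕ) (prog : List (ℕ × ℕ)) : List Edge :=
  (seeds m (prog.length + 1)).map (rayE m) ++
    (List.range (prog.length + 2)).flatMap fun j => (List.range (m + 2)).flatMap fun i =>
      (allE (ty m c r prog j i)).map (gE m j i)

/-- The number of vertices. -/
def nV (m : ℕ) (prog : List (ℕ × ℕ)) : ℕ := 1 + (prog.length + 2) * (m + 2) * 40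

/-- The width of a tile. -/
def wid (g : ℕ) : ℕ := if g < 4 then 2 else 1

variable {m c r : ℕ} {prog : List (ℕ × ℕ)}

theorem mem_EL {e : Edge} : e ∈ EL m c r prog ↔ (∃ s ∈ seeds m (prog.length + 1), rayE m s = e) ∨
    ∃ j ≤ prog.length + 1, ∃ i ≤ m + 1, ∃ e0 ∈ allE (ty m c r prog j i), gE m j i e0 = e := by
  simp only [EL, List.mem_append, List.mem_map, List.mem_flatMap, List.mem_range, Nat.lt_succ_iff]

theorem mem_seeds {J : ℕ} {s : ℕ × ℕ} : s ∈ seeds m J ↔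
    s = (nm m J 0 7, 35 * (2 * m + 3) + 1) ∨ s = (nm m J 1 2, 35 * (2 * m + 3) + 2) ∨
      ∃ i ≤ m, s = (nm m 0 i 6, 53 * (2 * m + 3) + (2 * i + 1)) ∨
        s = (nm m 0 (i + 1) 0, 53 * (2 * m + 3) + (2 * i + 2)) := by
  simp [seeds]

theorem mem_halves {E : List Edge} {h : ℕ × ℕ × ℕ} : h ∈ halves E ↔
    ∃ e ∈ E, h = (e.1, e.2.1, e.2.2.1) ∨ h = (e.2.2.1, e.2.2.2, e.1) := by
  simp [halves]

theorem mem_halves_EL {h : ℕ × ℕ × ℕ} : h ∈ halves (EL m c r prog) ↔
    (∃ s ∈ seeds m (prog.length + 1), h = (s.1, s.2, 0) ∨ h = (0, 72 * (2 * m + 3) - s.2, s.1)) ∨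
    ∃ j ≤ prog.length + 1, ∃ i ≤ m + 1, ∃ h0 ∈ halves (allE (ty m c r prog j i)),
      h = (gl m j i h0.1, (2 * m + 3) * h0.2.1, gl m j i h0.2.2) := by
  simp only [mem_halves, mem_EL]
  constructor
  · rintro ⟨e, ⟨s, hs, rfl⟩ | ⟨j, hj, i, hi, e0, he, rfl⟩, h⟩
    · exact Or.inl ⟨s, hs, h⟩
    · rcases h with rfl | rfl
      · exact Or.inr ⟨j, hj, i, hi, _, ⟨e0, he, Or.inl rfl⟩, rfl⟩
      · exact Or.inr ⟨j, hj, i, hi, _, ⟨e0, he, Or.inr rfl⟩, rfl⟩
  · rintro (⟨s, hs, h⟩ | ⟨j, hj, i, hi, h0, ⟨e0, he, rfl | rfl⟩, rfl⟩)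
    · exact ⟨_, Or.inl ⟨s, hs, rfl⟩, h⟩
    · exact ⟨_, Or.inr ⟨j, hj, i, hi, e0, he, rfl⟩, Or.inl rfl⟩
    · exact ⟨_, Or.inr ⟨j, hj, i, hi, e0, he, rfl⟩, Or.inr rfl⟩

theorem nm_inj {j i k j' i' k' : ℕ} (hi : i ≤ m + 1) (hi' : i' ≤ m + 1) (hk : k < 40)
    (hk' : k' < 40) (h : nm m j i k = nm m j' i' k') : j = j' ∧ i = i' ∧ k = k' := by
  unfold nm at h
  have h1 : j * (m + 2) + i = j' * (m + 2) + i' := by omega
  have h2 : j = j' := by
    have e : ∀ a b : ℕ, b ≤ m + 1 → (a * (m + 2) + b) / (m + 2) = a := fun a b hb => by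
      rw [mul_comm, Nat.mul_add_div (by omega), Nat.div_eq_of_lt (by omega), add_zero]
    rw [← e j i hi, h1, e j' i' hi']
  subst h2
  omega

theorem nm_lt {j i k : ℕ} (hj : j ≤ prog.length + 1) (hi : i ≤ m + 1) (hk : k < 40) :
    nm m j i k < nV m prog := by
  unfold nm nV
  have : j * (m + 2) + (m + 2) ≤ (prog.length + 2) * (m + 2) := by
    rw [← add_one_mul]; exact Nat.mul_le_mul_right _ (by omega)
  omega

theorem nm_ne (j i k : ℕ) : nm m j i k ≠ 0 := by unfold nm; omega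

theorem gl_eq {j i x j' i' k : ℕ} (h1 : j + x / 120 = j') (h2 : i + x % 120 / 40 = i')
    (h3 : x % 40 = k) : gl m j i x = nm m j' i' k := by rw [gl, h1, h2, h3]

theorem prog_wf (W : WFM m r prog) {j : ℕ} (h0 : j ≠ 0) (hj : j ≤ prog.length) :
    (prog.getD (prog.length - j) (0, 0)).1 < 4 ∧
      (prog.getD (prog.length - j) (0, 0)).2 + 1 < m := by
  apply W.2
  rw [List.getD_eq_getElem _ _ (by omega)]
  exact List.getElem_mem _

/-- What is known about the type of a tile. -/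
structure TyOK (m r L j i g g' : ℕ) : Prop where
  lt : g < 13
  cap : 9 ≤ g ↔ j = L + 1
  left : g = 6 ∨ g = 11 ↔ i = 0
  right : g = 7 ∨ g = 12 ↔ i = m + 1
  gate : g < 4 → i + 1 ≤ m
  skip : g' = 8 ↔ g < 4
  inc : g = 5 ↔ j = 0 ∧ i = r + 2

theorem ty_ok (W : WFM m r prog) {j : ℕ} (hj : j ≤ prog.length + 1) (i : ℕ) :
    TyOK m r prog.length j i (ty m c r prog j i) (ty m c r prog j (i + 1)) := by
  have h0 := W.1
  have h1 := fun a b => prog_wf W (j := j) a b
  constructor <;> unfold ty <;> generalize prog.getD (prog.length - j) (0, 0) = a at * <;>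
    split_ifs <;> first | omega | contradiction

/-- Row offset of the tile that owns a half edge. -/
def hr (k d : ℕ) : ℕ := if (k = 0 ∧ 36 < d) ∨ (k = 6 ∧ 36 < d ∧ d ≠ 54) then 1 else 0

/-- Column offset of the cell that owns a half edge. -/
def hc (k d : ℕ) : ℕ := if (k < 6 ∧ 18 ≤ d ∧ d ≤ 54) ∨ (k = 7 ∧ d = 29) then 1 else 0

/-- Column offset of the cell that owns an edge. -/
def pc (g a b : ℕ) : ℕ :=
  if 9 ≤ g ∧ a % 120 / 40 = b % 120 / 40 ∧ a % 40 * (b % 40) = 2 ∧ a % 40 + b % 40 = 3 then 1 else 0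

/-- The largest column offset in a tile. -/
def mxd (g : ℕ) : ℕ := if g < 4 then 2 else if g = 7 ∨ g = 12 then 0 else 1

theorem half_ok : ∀ g < 13, ∀ h ∈ halves (allE g), h.2.1 < 72 ∧ h.1 ≠ h.2.2 ∧
    h.1 / 120 = hr (h.1 % 40) h.2.1 ∧ hc (h.1 % 40) h.2.1 ≤ h.1 % 120 / 40 ∧
    h.1 % 120 / 40 < hc (h.1 % 40) h.2.1 + wid g ∧
    (h.1 % 120 / 40 ≤ mxd g ∧ h.2.2 % 120 / 40 ≤ mxd g) ∧
    (9 ≤ g → h.1 < 120) ∧ h.1 < 240 ∧ (h.1 < 120 ∨ h.2.2 < 120) ∧
    pc g h.1 h.2.2 ≤ min (h.1 % 120 / 40) (h.2.2 % 120 / 40) ∧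
    min (h.1 % 120 / 40) (h.2.2 % 120 / 40) < pc g h.1 h.2.2 + wid g := by
  decide +kernel

theorem half_uniq : ∀ g < 13, ∀ h ∈ halves (allE g), ∀ h' ∈ halves (allE g), h.1 = h'.1 →
    (h.2.1 = h'.2.1 ↔ h.2.2 = h'.2.2) := by
  decide +kernel

theorem col_le (W : WFM m r prog) {j i : ℕ} (hj : j ≤ prog.length + 1) (hi : i ≤ m + 1) :
    i + mxd (ty m c r prog j i) ≤ m + 1 := by
  have h := ty_ok (c := c) W hj i
  have h1 := h.gate
  have h2 := h.right
  unfold mxd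
  split_ifs <;> omega

theorem same_tile (W : WFM m r prog) {j i i' a a' : ℕ} (hj : j ≤ prog.length + 1)
    (h1 : a < wid (ty m c r prog j i)) (h2 : a' < wid (ty m c r prog j i'))
    (n1 : ty m c r prog j i ≠ 8) (n2 : ty m c r prog j i' ≠ 8) (h : i + a = i' + a') : i = i' := by
  have s1 := (ty_ok (c := c) W hj i).skip
  have s2 := (ty_ok (c := c) W hj i').skip
  unfold wid at h1 h2
  rcases lt_trichotomy i i' with hl | hl | hl
  · have : i' = i + 1 := by split_ifs at h1 h2 <;> omega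
    subst this
    split_ifs at h1 h2 <;> omega
  · exact hl
  · have : i = i' + 1 := by split_ifs at h1 h2 <;> omega
    subst this
    split_ifs at h1 h2 <;> omega

theorem ne_skip {g : ℕ} {h : ℕ × ℕ × ℕ} (hh : h ∈ halves (allE g)) : g ≠ 8 := by
  rintro rfl
  revert hh
  simp [halves, allE, inE, skE, inE8]

theorem seed_ok (J : ℕ) (hJ : J ≠ 0) {s s' : ℕ × ℕ} (hs : s ∈ seeds m J) (hs' : s' ∈ seeds m J) :
    s.1 = s'.1 ↔ s.2 = s'.2 := by
  rw [mem_seeds] at hs hs'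
  constructor
  · rcases hs with rfl | rfl | ⟨i, hi, rfl | rfl⟩ <;>
      rcases hs' with rfl | rfl | ⟨i', hi', rfl | rfl⟩ <;> intro h <;>
      have := nm_inj (by omega) (by omega) (by omega) (by omega) h <;> simp only <;> omega
  · rcases hs with rfl | rfl | ⟨i, hi, rfl | rfl⟩ <;>
      rcases hs' with rfl | rfl | ⟨i', hi', rfl | rfl⟩ <;> intro h <;> simp only at h ⊢ <;>
      first | omega | rw [show i = i' by omega]

theorem seed_bd {s : ℕ × ℕ} (hs : s ∈ seeds m (prog.length + 1)) :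
    s.1 < nV m prog ∧ s.1 ≠ 0 ∧ 0 < s.2 ∧ s.2 < 72 * (2 * m + 3) ∧
      ∀ d, s.2 ≠ (2 * m + 3) * d := by
  have key : ∀ a t d, 0 < t → t < 2 * m + 3 → a * (2 * m + 3) + t ≠ (2 * m + 3) * d := by
    intro a t d h1 h2 h
    have := congrArg (· % (2 * m + 3)) h
    simp only [Nat.mul_mod_right, mul_comm a, Nat.mul_add_mod, Nat.mod_eq_of_lt h2] at this
    omega
  rw [mem_seeds] at hs
  rcases hs with rfl | rfl | ⟨i, hi, rfl | rfl⟩ <;>
    exact ⟨nm_lt (by omega) (by omega) (by omega), nm_ne _ _ _, by simp only; omega,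
      by simp only; omega, fun d => key _ _ d (by omega) (by omega)⟩

theorem gl_inj (W : WFM m r prog) {j i j' i' : ℕ} (hj : j ≤ prog.length + 1) (hi : i ≤ m + 1)
    (hj' : j' ≤ prog.length + 1) (hi' : i' ≤ m + 1) {a a' : ℕ}
    (ha : a % 120 / 40 ≤ mxd (ty m c r prog j i)) (ha' : a' % 120 / 40 ≤ mxd (ty m c r prog j' i'))
    (h : gl m j i a = gl m j' i' a') :
    j + a / 120 = j' + a' / 120 ∧ i + a % 120 / 40 = i' + a' % 120 / 40 ∧ a % 40 = a' % 40 := by
  have h1 := col_le (c := c) W hj hi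
  have h2 := col_le (c := c) W hj' hi'
  exact nm_inj (by omega) (by omega) (by omega) (by omega) h

theorem EL_wf (W : WFM m r prog) : WFE (nV m prog) (72 * (2 * m + 3)) (EL m c r prog) := by
  have gne : ∀ j i a, gl m j i a ≠ 0 := fun _ _ _ => nm_ne _ _ _
  refine ⟨fun h hh => ?_, fun h hh h' hh' e1 e2 => ?_, fun h hh h' hh' e1 e2 => ?_⟩
  · rcases mem_halves_EL.1 hh with ⟨s, hs, rfl | rfl⟩ | ⟨j, hj, i, hi, h0, hh0, rfl⟩
    · have := seed_bd hs
      exact ⟨this.1, this.2.2.2.1, this.2.1⟩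
    · have := seed_bd hs
      exact ⟨by unfold nV; omega, by simp only; omega, this.2.1.symm⟩
    · have t := ty_ok (c := c) W hj i
      have h1 := half_ok _ t.lt _ hh0
      have h2 := col_le (c := c) W hj hi
      have h3 := t.cap
      refine ⟨nm_lt (by omega) (by omega) (by omega), ?_, fun e => ?_⟩
      · rw [mul_comm 72]; exact Nat.mul_lt_mul_of_pos_left h1.1 (by omega)
      · have := gl_inj W hj hi hj hi h1.2.2.2.2.2.1.1 h1.2.2.2.2.2.1.2 e
        omega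
  · rcases mem_halves_EL.1 hh with ⟨s, hs, rfl | rfl⟩ | ⟨j, hj, i, hi, h0, hh0, rfl⟩ <;>
      rcases mem_halves_EL.1 hh' with ⟨s', hs', rfl | rfl⟩ | ⟨j', hj', i', hi', h0', hh0', rfl⟩
    · rfl
    · exact absurd e1 (seed_bd hs).2.1
    · exact absurd e2 ((seed_bd hs).2.2.2.2 _)
    · exact absurd e1.symm (seed_bd hs').2.1
    · have := seed_bd hs
      have := seed_bd hs'
      exact (seed_ok _ (by omega) hs hs').2 (by simp only at e2; omega)
    · exact absurd e1.symm (gne _ _ _)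
    · exact absurd e2.symm ((seed_bd hs').2.2.2.2 _)
    · exact absurd e1 (gne _ _ _)
    · have h1 := half_ok _ (ty_ok (c := c) W hj i).lt _ hh0
      have h2 := half_ok _ (ty_ok (c := c) W hj' i').lt _ hh0'
      have e3 : h0.2.1 = h0'.2.1 := Nat.eq_of_mul_eq_mul_left (by omega) e2
      obtain ⟨g1, g2, g3⟩ := gl_inj W hj hi hj' hi' h1.2.2.2.2.2.1.1 h2.2.2.2.2.2.1.1 e1
      rw [← g3, ← e3] at h2
      obtain rfl : j = j' := by omega
      obtain rfl : i = i' := same_tile W hj (a := h0.1 % 120 / 40 - hc (h0.1 % 40) h0.2.1)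
        (a' := h0'.1 % 120 / 40 - hc (h0.1 % 40) h0.2.1) (by omega) (by omega) (ne_skip hh0)
        (ne_skip hh0') (by omega)
      simp only [(half_uniq _ (ty_ok (c := c) W hj i).lt _ hh0 _ hh0' (by omega)).1 e3]
  · rcases mem_halves_EL.1 hh with ⟨s, hs, rfl | rfl⟩ | ⟨j, hj, i, hi, h0, hh0, rfl⟩ <;>
      rcases mem_halves_EL.1 hh' with ⟨s', hs', rfl | rfl⟩ | ⟨j', hj', i', hi', h0', hh0', rfl⟩
    · exact (seed_ok _ (by omega) hs hs').1 e1
    · exact absurd e1 (seed_bd hs).2.1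
    · exact absurd e2.symm (gne _ _ _)
    · exact absurd e1.symm (seed_bd hs').2.1
    · simp only [(seed_ok _ (by omega) hs hs').1 e2]
    · exact absurd e1.symm (gne _ _ _)
    · exact absurd e2 (gne _ _ _)
    · exact absurd e1 (gne _ _ _)
    · have t1 := ty_ok (c := c) W hj i
      have t2 := ty_ok (c := c) W hj' i'
      have h1 := half_ok _ t1.lt _ hh0
      have h2 := half_ok _ t2.lt _ hh0'
      obtain ⟨g1, g2, g3⟩ := gl_inj W hj hi hj' hi' h1.2.2.2.2.2.1.1 h2.2.2.2.2.2.1.1 e1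
      obtain ⟨g4, g5, g6⟩ := gl_inj W hj hi hj' hi' h1.2.2.2.2.2.1.2 h2.2.2.2.2.2.1.2 e2
      obtain rfl : j = j' := by omega
      have e3 : pc (ty m c r prog j i) h0.1 h0.2.2 = pc (ty m c r prog j i') h0'.1 h0'.2.2 := by
        unfold pc
        rw [g3, g6]
        exact if_congr (and_congr (t1.cap.trans t2.cap.symm) (and_congr_left' (by omega))) rfl rfl
      obtain rfl : i = i' := same_tile W hj
        (a := min (h0.1 % 120 / 40) (h0.2.2 % 120 / 40) - pc (ty m c r prog j i) h0.1 h0.2.2)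
        (a' := min (h0'.1 % 120 / 40) (h0'.2.2 % 120 / 40) - pc (ty m c r prog j i') h0'.1 h0'.2.2)
        (by omega) (by omega) (ne_skip hh0) (ne_skip hh0') (by omega)
      simp only [(half_uniq _ t1.lt _ hh0 _ hh0' (by omega)).2 (by omega)]

end Pool.Agent.Lib.MP_242159_lc
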