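import Pool.Agent.Lib.MP_242159_lc.ADefs

/-!
Directions that are multiples of five degrees and hexagonal coordinates.
-/

set_option autoImplicit false

namespace Pool.Agent.Lib.MP_242159_lc

open Complex

/-- The direction of `5 k` degrees. -/
noncomputable def om (k : ℕ) : ℂ := rt 72 k

/-- The point with hexagonal coordinates `(a, b)`. -/
noncomputable def hex (a b : ℝ) : ℂ := ⟨a, √3 * b⟩

/-- The second hexagonal coordinate. -/
noncomputable def cy (z : ℂ) : ℝ := z.im / √3

theorem s3_pos : (0 : ℝ) < √3 := by positivity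

theorem s3_mul : √3 * √3 = (3 : ℝ) := Real.mul_self_sqrt (by norm_num)

@[simp] theorem hex_re (a b : ℝ) : (hex a b).re = a := rfl

@[simp] theorem hex_im (a b : ℝ) : (hex a b).im = √3 * b := rfl

@[simp] theorem cy_hex (a b : ℝ) : cy (hex a b) = b := by
  have := s3_pos
  simp only [cy, hex_im]; field_simp

theorem hex_cy (z : ℂ) : hex z.re (cy z) = z := by
  have := s3_pos
  apply Complex.ext
  · rfl
  · simp only [cy, hex_im]; field_simp

theorem hex_inj {a b c d : ℝ} : hex a b = hex c d ↔ a = c ∧ b = d := by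
  constructor
  · intro h
    exact ⟨by simpa using congrArg re h, by simpa only [cy_hex] using congrArg cy h⟩
  · rintro ⟨rfl, rfl⟩; rfl

theorem hex_add (a b c d : ℝ) : hex a b + hex c d = hex (a + c) (b + d) := by
  apply Complex.ext <;> simp [mul_add]

theorem hex_sub (a b c d : ℝ) : hex a b - hex c d = hex (a - c) (b - d) := by
  apply Complex.ext <;> simp [mul_sub]

theorem hex_neg (a b : ℝ) : -hex a b = hex (-a) (-b) := by
  apply Complex.ext <;> simp

theorem hex_mul (a b c d : ℝ) : hex a b * hex c d = hex (a * c - 3 * b * d) (a * d + b * c) := by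
  have := s3_mul
  apply Complex.ext
  · simp only [mul_re, hex_re, hex_im]; linear_combination (-b * d) * this
  · simp only [mul_im, hex_re, hex_im]; ring

theorem hex_smul (r a b : ℝ) : (r : ℂ) * hex a b = hex (r * a) (r * b) := by
  apply Complex.ext <;> simp; ring

theorem cy_add (z w : ℂ) : cy (z + w) = cy z + cy w := by simp [cy, add_div]

theorem cy_sub (z w : ℂ) : cy (z - w) = cy z - cy w := by simp [cy, sub_div]

theorem cy_smul (r : ℝ) (z : ℂ) : cy (r * z) = r * cy z := by simp [cy, mul_div_assoc]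

theorem rt_ne (d k : ℕ) : rt d k ≠ 0 := exp_ne_zero _

theorem rt_add (d k l : ℕ) : rt d (k + l) = rt d k * rt d l := by
  simp only [rt, ← exp_add]; congr 1; push_cast; ring

theorem rt_zero (d : ℕ) : rt d 0 = 1 := by simp [rt]

theorem rt_self {d : ℕ} (hd : d ≠ 0) : rt d d = 1 := by
  have : (d : ℂ) ≠ 0 := by exact_mod_cast hd
  rw [rt, mul_div_assoc, div_self this, mul_one]
  exact exp_two_pi_mul_I

theorem rt_eq (d k : ℕ) : rt d k =
    ⟨Real.cos (2 * Real.pi * k / d), Real.sin (2 * Real.pi * k / d)⟩ := by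
  have : (2 * Real.pi * k / d * I : ℂ) = ((2 * Real.pi * k / d : ℝ) : ℂ) * I := by push_cast; ring
  rw [rt, this]
  apply Complex.ext
  · exact exp_ofReal_mul_I_re _
  · exact exp_ofReal_mul_I_im _

theorem rt_normSq (d k : ℕ) : normSq (rt d k) = 1 := by
  rw [rt_eq, normSq_mk, ← sq, ← sq, Real.cos_sq_add_sin_sq]

theorem rt_conj (d k : ℕ) : rt d k * (starRingEnd ℂ) (rt d k) = 1 := by
  rw [mul_conj, rt_normSq]; simp

theorem rt_mul {K : ℕ} (hK : K ≠ 0) (d : ℕ) : rt (72 * K) (K * d) = om d := by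
  have : (K : ℂ) ≠ 0 := by exact_mod_cast hK
  simp only [om, rt]; congr 1; push_cast; field_simp

theorem om_ne (k : ℕ) : om k ≠ 0 := rt_ne _ _

theorem om_add (k l : ℕ) : om (k + l) = om k * om l := rt_add _ _ _

theorem om_mul72 (n : ℕ) : om (72 * n) = 1 := by
  induction n with
  | zero => exact rt_zero _
  | succ n ih => rw [mul_add, om_add, ih, mul_one, one_mul]; exact rt_self (by norm_num)

theorem om_mod (k : ℕ) : om (k % 72) = om k := by
  conv_rhs => rw [← Nat.div_add_mod k 72, om_add, om_mul72, one_mul]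

theorem om_congr {k l : ℕ} (h : k % 72 = l % 72) : om k = om l := by
  rw [← om_mod k, h, om_mod]

theorem om6 : om 6 = ((√3 / 6 : ℝ) : ℂ) * hex 3 1 := by
  have := s3_mul
  rw [om, rt_eq, show 2 * Real.pi * (6 : ℕ) / (72 : ℕ) = Real.pi / 6 by push_cast; ring,
    Real.cos_pi_div_six, Real.sin_pi_div_six, hex_smul]
  apply Complex.ext
  · simp; ring
  · simp; linear_combination (-1 / 6) * this

theorem om12 : om 12 = hex (1 / 2) (1 / 2) := by
  rw [om, rt_eq, show 2 * Real.pi * (12 : ℕ) / (72 : ℕ) = Real.pi / 3 by push_cast; ring,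
    Real.cos_pi_div_three, Real.sin_pi_div_three]
  apply Complex.ext
  · simp
  · simp; ring

theorem om36 : om 36 = -1 := by
  rw [show 36 = 12 + (12 + 12) from rfl, om_add, om_add, om12, hex_mul, hex_mul]
  apply Complex.ext <;> norm_num

/-- Integer direction vectors of the multiples of thirty degrees. -/
def dvs : List (ℤ × ℤ) :=
  [(1, 0), (3, 1), (1, 1), (0, 1), (-1, 1), (-3, 1), (-1, 0), (-3, -1), (-1, -1), (0, -1), (1, -1),
    (3, -1)]

/-- The integer direction vector of the direction number `d`. -/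
def dvec (d : ℕ) : ℤ × ℤ := dvs.getD (d % 72 / 6) (1, 0)

theorem om_dvec {d : ℕ} (hd : d % 6 = 0) :
    ∃ c : ℝ, 0 < c ∧ om d = c * hex (dvec d).1 (dvec d).2 := by
  have h3 := s3_pos
  have key : ∀ j < 6, (∃ c : ℝ, 0 < c ∧ om (12 * j) = c * hex (dvec (12 * j)).1 (dvec (12 * j)).2)
      ∧ ∃ c : ℝ, 0 < c ∧ om (12 * j + 6) =
        c * hex (dvec (12 * j + 6)).1 (dvec (12 * j + 6)).2 := by
    have e : ∀ j, om (12 * (j + 1)) = om (12 * j) * hex (1 / 2) (1 / 2) := fun j => by
      rw [mul_add, om_add, mul_one, om12]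
    have e0 : om (12 * 0) = hex 1 0 := by
      rw [show om (12 * 0) = 1 from rt_zero _]; apply Complex.ext <;> simp
    have e1 : om (12 * 1) = hex (1 / 2) (1 / 2) := om12
    have e2 : om (12 * 2) = hex (-1 / 2) (1 / 2) := by rw [e 1, e1, hex_mul]; norm_num
    have e3 : om (12 * 3) = hex (-1) 0 := by rw [e 2, e2, hex_mul]; norm_num
    have e4 : om (12 * 4) = hex (-1 / 2) (-1 / 2) := by rw [e 3, e3, hex_mul]; norm_num
    have e5 : om (12 * 5) = hex (1 / 2) (-1 / 2) := by rw [e 4, e4, hex_mul]; norm_num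
    intro j hj
    rw [om_add, om6, mul_left_comm]
    interval_cases j
    · rw [e0, hex_mul]
      exact ⟨⟨1, one_pos, by simp [dvec, dvs]⟩, √3 / 6, by positivity, by norm_num [dvec, dvs]⟩
    · rw [e1, hex_mul]
      refine ⟨⟨1 / 2, by norm_num, ?_⟩, √3 / 3, by positivity, ?_⟩ <;>
        simp only [hex_smul, hex_inj] <;> norm_num [dvec, dvs]
      ring
    · rw [e2, hex_mul]
      refine ⟨⟨1 / 2, by norm_num, ?_⟩, √3 / 6, by positivity, ?_⟩ <;>
        simp only [hex_smul, hex_inj] <;> norm_num [dvec, dvs]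
    · rw [e3, hex_mul]
      refine ⟨⟨1, by norm_num, ?_⟩, √3 / 6, by positivity, ?_⟩ <;>
        simp only [hex_smul, hex_inj] <;> norm_num [dvec, dvs]
    · rw [e4, hex_mul]
      refine ⟨⟨1 / 2, by norm_num, ?_⟩, √3 / 3, by positivity, ?_⟩ <;>
        simp only [hex_smul, hex_inj] <;> norm_num [dvec, dvs]
      ring
    · rw [e5, hex_mul]
      refine ⟨⟨1 / 2, by norm_num, ?_⟩, √3 / 6, by positivity, ?_⟩ <;>
        simp only [hex_smul, hex_inj] <;> norm_num [dvec, dvs]
  have e1 : dvec (d % 72) = dvec d := by simp [dvec]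
  rw [← om_mod, ← e1]
  rcases (by omega : d % 72 = 12 * (d % 72 / 12) ∨ d % 72 = 12 * (d % 72 / 12) + 6) with h | h <;>
    rw [h]
  · exact (key _ (by omega)).1
  · exact (key _ (by omega)).2

end Pool.Agent.Lib.MP_242159_lc
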