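import Pool.Agent.Lib.MP_242159_lc.ADefs

/-!
Runs of the register machine, and the simulation of gates between arbitrary registers.
-/

set_option autoImplicit false

namespace Pool.Agent.Lib.MP_242159_lc

open Filter Topology

/-- Relational execution of a program. -/
def Ex : List (ℕ × ℕ) → (ℕ → ℝ) → (ℕ → ℝ) → Prop
  | [], s, s' => s' = s
  | a :: l, s, s' => ∃ t, Step a s t ∧ Ex l t s'

theorem ex_append {l m : List (ℕ × ℕ)} {s s' : ℕ → ℝ} (h : Ex (l ++ m) s s') :
    ∃ t, Ex l s t ∧ Ex m t s' := by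
  induction l generalizing s with
  | nil => exact ⟨s, rfl, h⟩
  | cons a l ih =>
    obtain ⟨t, h1, h2⟩ := h
    obtain ⟨u, h3, h4⟩ := ih h2
    exact ⟨u, ⟨t, h1, h3⟩, h4⟩

theorem ex_of_run {prog : List (ℕ × ℕ)} {st : ℕ → ℕ → ℝ}
    (h : ∀ n < prog.length, Step (prog.getD n (0, 0)) (st n) (st (n + 1))) :
    Ex prog (st 0) (st prog.length) := by
  induction prog generalizing st with
  | nil => rfl
  | cons a l ih =>
    refine ⟨st 1, h 0 (Nat.succ_pos _), ih (st := fun n => st (n + 1)) (fun n hn => ?_)⟩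
    exact h (n + 1) (Nat.succ_lt_succ hn)

/-- The value of a gate. -/
noncomputable def fn (g : ℕ) (p q : ℝ) : ℝ :=
  if g = 0 then q else if g = 1 then (p + q) / 2 else if g = 2 then 2 * q - p else
    q + 16 * (p - q) / (9 + 4 * (p - q))

/-- The next state. -/
noncomputable def nx (a : ℕ × ℕ) (s : ℕ → ℝ) (i : ℕ) : ℝ :=
  if i = a.2 ∨ i = a.2 + 1 then fn a.1 (s a.2) (s (a.2 + 1)) else s i

theorem gate_fn {g : ℕ} (hg : g < 4) {p q : ℝ} (h : 9 + 4 * (p - q) ≠ 0) : Gate g p q (fn g p q) := by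
  unfold Gate fn
  interval_cases g
  · simp
  · simp; ring
  · simp
  · simp only [OfNat.ofNat_ne_zero, false_and, OfNat.ofNat_ne_one, Nat.reduceEqDiff, true_and,
      false_or, if_false]
    rw [add_sub_cancel_left, div_mul_cancel₀ _ h]

theorem step_nx {a : ℕ × ℕ} (ha : a.1 < 4) {s : ℕ → ℝ} (h : ∀ i < a.2 + 2, |s i| < 1 / 2) :
    Step a s (nx a s) := by
  have h1 := abs_lt.1 (h a.2 (by omega))
  have h2 := abs_lt.1 (h (a.2 + 1) (by omega))
  refine ⟨?_, by simp [nx], by linarith, fun i hi hj => by simp [nx, hi, hj]⟩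
  have : nx a s a.2 = fn a.1 (s a.2) (s (a.2 + 1)) := by simp [nx]
  rw [this]
  exact gate_fn ha (by linarith)

theorem tendsto_fn (g : ℕ) {p q : ℝ → ℝ} (hp : Tendsto p (𝓝 0) (𝓝 0))
    (hq : Tendsto q (𝓝 0) (𝓝 0)) : Tendsto (fun t => fn g (p t) (q t)) (𝓝 0) (𝓝 0) := by
  unfold fn
  split_ifs
  · exact hq
  · simpa using (hp.add hq).div_const 2
  · simpa using (hq.const_mul 2).sub hp
  · have h1 := ((hp.sub hq).const_mul 16).div (((hp.sub hq).const_mul 4).const_add 9) (by norm_num)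
    simpa using hq.add h1

theorem small {F : ℝ → ℕ → ℝ} (hF : ∀ i, Tendsto (fun t => F t i) (𝓝 0) (𝓝 0)) (m : ℕ) {ε : ℝ}
    (hε : 0 < ε) : ∀ᶠ t in 𝓝 (0 : ℝ), ∀ i < m, |F t i| < ε := by
  have : ∀ᶠ t in 𝓝 (0 : ℝ), ∀ i ∈ Finset.range m, |F t i| < ε := by
    rw [Filter.eventually_all_finset]
    intro i _
    have := (hF i).abs
    rw [abs_zero] at this
    exact this.eventually (gt_mem_nhds hε)
  exact this.mono (fun t ht i hi => ht i (Finset.mem_range.2 hi))

theorem exists_run {prog : List (ℕ × ℕ)} (h : ∀ a ∈ prog, a.1 < 4) {F : ℝ → ℕ → ℝ}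
    (hF : ∀ i, Tendsto (fun t => F t i) (𝓝 0) (𝓝 0)) (m : ℕ) {ε : ℝ} (hε : 0 < ε) :
    ∀ᶠ t in 𝓝 (0 : ℝ), ∃ st : ℕ → ℕ → ℝ, st 0 = F t ∧
      (∀ n < prog.length, Step (prog.getD n (0, 0)) (st n) (st (n + 1))) ∧
        ∀ n ≤ prog.length, ∀ i < m, |st n i| < ε := by
  induction prog generalizing F with
  | nil =>
    exact (small hF m hε).mono (fun t ht => ⟨fun _ => F t, rfl, by simp, fun _ _ => ht⟩)
  | cons a l ih =>
    have h1 := ih (fun b hb => h b (List.mem_cons_of_mem _ hb)) (F := fun t => nx a (F t))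
      (fun i => by
        unfold nx
        split_ifs
        · exact tendsto_fn _ (hF _) (hF _)
        · exact hF i)
    filter_upwards [h1, small hF m hε, small hF (a.2 + 2) (by norm_num : (0 : ℝ) < 1 / 2)] with
      t ⟨st, h2, h3, h4⟩ h5 h6
    refine ⟨fun n => Nat.rec (F t) (fun n _ => st n) n, rfl, fun n hn => ?_, fun n hn => ?_⟩
    · cases n with
      | zero =>
        change Step a (F t) (st 0)
        rw [h2]
        exact step_nx (h a List.mem_cons_self) h6
      | succ n => exact h3 n (Nat.lt_of_succ_lt_succ hn)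
    · cases n with
      | zero => exact h5
      | succ n => exact h4 n (Nat.le_of_succ_le_succ hn)

/-- The value of the logical register `k`. -/
def lg (s : ℕ → ℝ) (k : ℕ) : ℝ := s (2 * k + 1)

/-- The first `M` logical registers are stored twice. -/
def Ok (M : ℕ) (s : ℕ → ℝ) : Prop := ∀ k < M, s (2 * k) = s (2 * k + 1)

theorem gate0 (p q r : ℝ) : Gate 0 p q r ↔ r = q := by simp [Gate]

theorem gate1 (p q r : ℝ) : Gate 1 p q r ↔ r = (p + q) / 2 := by
  simp only [Gate, one_ne_zero, false_and, true_and, OfNat.one_ne_ofNat, or_false, false_or]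
  constructor <;> intro h <;> linarith

theorem gate2 (p q r : ℝ) : Gate 2 p q r ↔ r = 2 * q - p := by simp [Gate]

theorem gate3 (p q r : ℝ) : Gate 3 p q r ↔ (r - q) * (9 + 4 * (p - q)) = 16 * (p - q) := by
  simp [Gate]

/-- Duplication of the logical registers. -/
def ini (M : ℕ) : List (ℕ × ℕ) := (List.range M).map fun k => (0, 2 * k)

theorem ex_ini {M : ℕ} {s s' : ℕ → ℝ} (h : Ex (ini M) s s') : Ok M s' ∧ lg s' = lg s := by
  induction M generalizing s' with
  | zero =>
    obtain rfl : s' = s := h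
    exact ⟨fun k hk => absurd hk (Nat.not_lt_zero _), rfl⟩
  | succ M ih =>
    rw [ini, List.range_succ, List.map_append] at h
    obtain ⟨t, h1, u, ⟨h2, h3, -, h4⟩, rfl⟩ := ex_append h
    obtain ⟨h5, h6⟩ := ih h1
    simp only [gate0] at h2 h3 h4
    refine ⟨fun k hk => ?_, h6 ▸ funext fun k => ?_⟩
    · by_cases hk' : k = M
      · rw [hk', h3]
      · rw [h4 _ (by omega) (by omega), h4 _ (by omega) (by omega)]
        exact h5 k (by omega)
    · by_cases hk' : k = M
      · rw [hk', lg, lg, h3, h2]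
      · exact h4 _ (by omega) (by omega)

/-- Exchange of the logical registers `a` and `a + 1`. -/
def swp (a : ℕ) : List (ℕ × ℕ) := [(2, 2 * a + 1), (2, 2 * a + 2), (1, 2 * a)]

theorem ex_swp {M a : ℕ} (ha : a + 1 < M) {s s' : ℕ → ℝ} (hs : Ok M s) (h : Ex (swp a) s s') :
    Ok M s' ∧ lg s' = lg s ∘ Equiv.swap a (a + 1) := by
  obtain ⟨t, ⟨a1, a2, -, a3⟩, u, ⟨b1, b2, -, b3⟩, w, ⟨c1, c2, -, c3⟩, rfl⟩ := h
  simp only [gate1, gate2] at a1 a2 a3 b1 b2 b3 c1 c2 c3
  have h1 := hs a (by omega)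
  have h2 : s (2 * a + 1 + 1) = s (2 * a + 2 + 1) := hs (a + 1) ha
  have e1 := a3 (2 * a) (by omega) (by omega)
  have e2 := a3 (2 * a + 2 + 1) (by omega) (by omega)
  have e3 := b3 (2 * a) (by omega) (by omega)
  have e4 := b3 (2 * a + 1) (by omega) (by omega)
  have e5 := c3 (2 * a + 2) (by omega) (by omega)
  have e6 := c3 (2 * a + 2 + 1) (by omega) (by omega)
  have a2' : t (2 * a + 2) = t (2 * a + 1) := a2
  have oth : ∀ i, i < 2 * a ∨ 2 * a + 3 < i → s' i = s i := fun i hi => by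
    rw [c3 _ (by omega) (by omega), b3 _ (by omega) (by omega), a3 _ (by omega) (by omega)]
  refine ⟨fun k hk => ?_, funext fun k => ?_⟩
  · by_cases h3 : k = a
    · rw [h3, c2]
    · by_cases h4 : k = a + 1
      · rw [h4]
        change s' (2 * a + 2) = s' (2 * a + 2 + 1)
        linarith
      · rw [oth _ (by omega), oth _ (by omega)]
        exact hs k hk
  · by_cases h3 : k = a
    · rw [h3, Function.comp_apply, Equiv.swap_apply_left]
      change s' (2 * a + 1) = s (2 * a + 2 + 1)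
      linarith
    · by_cases h4 : k = a + 1
      · rw [h4, Function.comp_apply, Equiv.swap_apply_right]
        change s' (2 * a + 2 + 1) = s (2 * a + 1)
        linarith
      · rw [Function.comp_apply, Equiv.swap_apply_of_ne_of_ne h3 h4]
        exact oth _ (by omega)

/-- The permutation of a chain of exchanges. -/
def prm (l : List ℕ) : Equiv.Perm ℕ := (l.map fun j => Equiv.swap j (j + 1)).prod

theorem prm_append (l m : List ℕ) : prm (l ++ m) = prm l * prm m := by simp [prm]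

theorem prm_reverse (l : List ℕ) : prm l.reverse = (prm l)⁻¹ := by
  induction l with
  | nil => simp [prm]
  | cons a l ih =>
    rw [List.reverse_cons, prm_append, ih]
    simp [prm]

theorem ex_chain {M : ℕ} {l : List ℕ} (hl : ∀ a ∈ l, a + 1 < M) {s s' : ℕ → ℝ} (hs : Ok M s)
    (h : Ex (l.flatMap swp) s s') : Ok M s' ∧ lg s' = lg s ∘ prm l := by
  induction l generalizing s with
  | nil =>
    obtain rfl : s' = s := h
    exact ⟨hs, rfl⟩
  | cons a l ih =>
    rw [List.flatMap_cons] at h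
    obtain ⟨t, h1, h2⟩ := ex_append h
    obtain ⟨h3, h4⟩ := ex_swp (hl a List.mem_cons_self) hs h1
    obtain ⟨h5, h6⟩ := ih (fun b hb => hl b (List.mem_cons_of_mem _ hb)) h3 h2
    refine ⟨h5, ?_⟩
    rw [h6, h4]
    rfl

theorem prm_rot (b i : ℕ) :
    prm (List.range b).reverse i = if i = 0 then b else if i ≤ b then i - 1 else i := by
  induction b with
  | zero => by_cases h : i = 0 <;> simp [prm, h]
  | succ b ih =>
    rw [List.range_succ, List.reverse_append, prm_append, Equiv.Perm.mul_apply, ih]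
    simp only [prm, List.reverse_singleton, List.map_cons, List.map_nil, List.prod_cons,
      List.prod_nil, mul_one, Equiv.swap_apply_def]
    split_ifs <;> omega

/-- The exchanges that bring the register `b` to the front. -/
def rot (M b : ℕ) : List ℕ := ((List.range M).filter fun i => decide (i < b)).reverse

theorem rot_eq {M b : ℕ} (h : b ≤ M) : rot M b = (List.range b).reverse := by
  obtain ⟨c, rfl⟩ := Nat.exists_eq_add_of_le h
  rw [rot, List.range_add, List.filter_append, List.filter_eq_self.2 (by simp),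
    List.filter_eq_nil_iff.2 (by simp), List.append_nil]

/-- The exchanges that bring the registers `a` and `b` to the front. -/
def chain (M a b : ℕ) : List ℕ := rot M b ++ rot M (if a < b then a + 1 else a)

theorem chain_lt {M a b : ℕ} (ha : a < M) (hb : b < M) : ∀ j ∈ chain M a b, j + 1 < M := by
  intro j hj
  simp only [chain, rot, List.mem_append, List.mem_reverse, List.mem_filter, List.mem_range,
    decide_eq_true_eq] at hj
  split_ifs at hj <;> omega

theorem prm_chain {M a b : ℕ} (ha : a < M) (hb : b < M) (hab : a ≠ b) :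
    prm (chain M a b) 0 = a ∧ prm (chain M a b) 1 = b := by
  rw [chain, prm_append, rot_eq hb.le, rot_eq (by split_ifs <;> omega)]
  simp only [Equiv.Perm.mul_apply, prm_rot]
  constructor <;> split_ifs <;> first | omega | contradiction

/-- One logical instruction `(gate, target, source)`. -/
def LStep (x : ℕ × ℕ × ℕ) (R R' : ℕ → ℝ) : Prop :=
  ∃ y, Gate x.1 (R x.2.1) (R x.2.2) y ∧ R x.2.2 < R x.2.1 + 1 ∧ R' = Function.update R x.2.1 y

/-- Relational execution of a logical program. -/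
def LEx : List (ℕ × ℕ × ℕ) → (ℕ → ℝ) → (ℕ → ℝ) → Prop
  | [], s, s' => s' = s
  | a :: l, s, s' => ∃ t, LStep a s t ∧ LEx l t s'

theorem lex_append {l m : List (ℕ × ℕ × ℕ)} {s s' : ℕ → ℝ} (h : LEx (l ++ m) s s') :
    ∃ t, LEx l s t ∧ LEx m t s' := by
  induction l generalizing s with
  | nil => exact ⟨s, rfl, h⟩
  | cons a l ih =>
    obtain ⟨t, h1, h2⟩ := h
    obtain ⟨u, h3, h4⟩ := ih h2
    exact ⟨u, ⟨t, h1, h3⟩, h4⟩

/-- Well formed logical programs. -/
def WFL (M : ℕ) (l : List (ℕ × ℕ × ℕ)) : Prop :=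
  ∀ x ∈ l, x.1 < 4 ∧ x.2.1 < M ∧ x.2.2 < M ∧ x.2.1 ≠ x.2.2

theorem ex_op {M g : ℕ} (hM : 1 < M) {s s' : ℕ → ℝ} (hs : Ok M s)
    (h : Ex [(g, 1), (0, 0), (0, 2)] s s') : Ok M s' ∧ LStep (g, 0, 1) (lg s) (lg s') := by
  obtain ⟨t, ⟨a1, a2, a4, a3⟩, u, ⟨b1, b2, -, b3⟩, w, ⟨c1, c2, -, c3⟩, rfl⟩ := h
  simp only [gate0, Nat.reduceAdd] at a1 a2 a3 a4 b1 b2 b3 c1 c2 c3
  have h2 : s 2 = s 3 := hs 1 hM
  have e2 := a3 3 (by omega) (by omega)
  have e3 := b3 3 (by omega) (by omega)
  have e5 := c3 0 (by omega) (by omega)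
  have e6 := c3 1 (by omega) (by omega)
  have oth : ∀ i, 3 < i → s' i = s i := fun i hi => by
    rw [c3 _ (by omega) (by omega), b3 _ (by omega) (by omega), a3 _ (by omega) (by omega)]
  refine ⟨fun k hk => ?_, t 1, ?_, ?_, funext fun k => ?_⟩
  · by_cases h3 : k = 0
    · rw [h3]
      change s' 0 = s' 1
      linarith
    · by_cases h4 : k = 1
      · rw [h4]
        exact c2.symm
      · rw [oth _ (by omega), oth _ (by omega)]
        exact hs k hk
  · change Gate g (s 1) (s 3) (t 1)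
    rwa [← h2]
  · change s 3 < s 1 + 1
    rwa [← h2]
  · by_cases h3 : k = 0
    · rw [h3, Function.update_self]
      change s' 1 = t 1
      linarith
    · rw [Function.update_of_ne h3]
      by_cases h4 : k = 1
      · rw [h4]
        change s' 3 = s 3
        linarith
      · exact oth _ (by omega)

/-- The simulation of one logical instruction. -/
def sim (M : ℕ) (x : ℕ × ℕ × ℕ) : List (ℕ × ℕ) :=
  (chain M x.2.1 x.2.2).flatMap swp ++ ([(x.1, 1), (0, 0), (0, 2)] ++
    (chain M x.2.1 x.2.2).reverse.flatMap swp)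

theorem ex_sim {M : ℕ} {x : ℕ × ℕ × ℕ} (ha : x.2.1 < M) (hb : x.2.2 < M) (hab : x.2.1 ≠ x.2.2)
    {s s' : ℕ → ℝ} (hs : Ok M s) (h : Ex (sim M x) s s') : Ok M s' ∧ LStep x (lg s) (lg s') := by
  obtain ⟨t, h1, h⟩ := ex_append h
  obtain ⟨u, h2, h3⟩ := ex_append h
  obtain ⟨p0, p1⟩ := prm_chain ha hb hab
  obtain ⟨h4, h5⟩ := ex_chain (chain_lt ha hb) hs h1
  obtain ⟨h6, y, h7, h8, h9⟩ := ex_op (by omega) h4 h2
  obtain ⟨h10, h11⟩ := ex_chain (fun j hj => chain_lt ha hb j (List.mem_reverse.1 hj)) h6 h3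
  simp only [h5, Function.comp_apply, p0, p1] at h7 h8 h9
  refine ⟨h10, y, h7, h8, funext fun k => ?_⟩
  rw [h11, h9, prm_reverse, Function.comp_apply]
  generalize prm (chain M x.2.1 x.2.2) = P at p0
  by_cases hk : k = x.2.1
  · rw [hk, Function.update_self, ← p0]
    simp
  · rw [Function.update_of_ne hk, Function.update_of_ne, Function.comp_apply]
    · simp
    · intro h0
      exact hk (by rw [← p0, ← h0]; simp)

theorem ex_sims {M : ℕ} {l : List (ℕ × ℕ × ℕ)} (hl : WFL M l) {s s' : ℕ → ℝ} (hs : Ok M s)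
    (h : Ex (l.flatMap (sim M)) s s') : Ok M s' ∧ LEx l (lg s) (lg s') := by
  induction l generalizing s with
  | nil =>
    obtain rfl : s' = s := h
    exact ⟨hs, rfl⟩
  | cons a l ih =>
    rw [List.flatMap_cons] at h
    obtain ⟨t, h1, h2⟩ := ex_append h
    obtain ⟨-, a1, a2, a3⟩ := hl a List.mem_cons_self
    obtain ⟨h3, h4⟩ := ex_sim a1 a2 a3 hs h1
    obtain ⟨h5, h6⟩ := ih (fun b hb => hl b (List.mem_cons_of_mem _ hb)) h3 h2
    exact ⟨h5, _, h4, h6⟩

theorem wfm_sims {M : ℕ} (hM : 3 ≤ M) {l : List (ℕ × ℕ × ℕ)} (hl : WFL M l) :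
    WFM (2 * M + 2) 5 (ini M ++ l.flatMap (sim M)) := by
  refine ⟨by omega, fun a ha => ?_⟩
  simp only [ini, sim, swp, List.mem_append, List.mem_map, List.mem_range, List.mem_flatMap,
    List.mem_cons, List.not_mem_nil, or_false, List.mem_reverse] at ha
  rcases ha with ⟨k, hk, rfl⟩ | ⟨x, hx, ha⟩
  · simp only; omega
  · obtain ⟨a0, a1, a2, -⟩ := hl x hx
    have := chain_lt a1 a2
    rcases ha with ⟨j, hj, rfl | rfl | rfl⟩ | (rfl | rfl | rfl) | ⟨j, hj, rfl | rfl | rfl⟩
    all_goals first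
      | (have := this j hj; simp only; omega)
      | (simp only; omega)

end Pool.Agent.Lib.MP_242159_lc
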