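import Pool.Agent.Lib.MP_242159_lc.Chk
import Pool.Agent.Lib.MP_242159_lc.Alg

/-!
Algebra of edges between straight vertices, certification and inversion.
-/

set_option autoImplicit false

namespace Pool.Agent.Lib.MP_242159_lc

open Complex

/-- Tangents `T` at `a` and `T'` at `b` belong to an arc from `a` to `b`. -/
def EOK (a b T T' : ℂ) : Prop :=
  T / (b - a) ∈ slitPlane ∧ ∃ ρ : ℝ, 0 < ρ ∧ T' * (T / (b - a)) = ρ * (a - b)

/-- An edge with directions in multiples of five degrees. -/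
def Ed (P F : ℕ → ℂ) (e : Edge) : Prop :=
  EOK (P e.1) (P e.2.2.1) (F e.1 * om e.2.1) (F e.2.2.1 * om e.2.2.2)

/-- A straight vertex. -/
def St (F : ℕ → ℂ) (v : ℕ) : Prop := ∃ ρ : ℝ, 0 < ρ ∧ F v = ρ

/-- The symmetric form of the tangent condition. -/
def Pr (P F : ℕ → ℂ) (u du v dv : ℕ) : Prop :=
  P v ≠ P u ∧ ∃ ρ : ℝ, 0 < ρ ∧ F u * om du * (F v * om dv) = -(ρ * (P v - P u) ^ 2)

theorem EOK.ne {a b T T' : ℂ} (h : EOK a b T T') : b ≠ a := by
  rintro rfl
  have := h.1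
  simp at this

theorem Ed.pr {P F : ℕ → ℂ} {u du v dv : ℕ} (h : Ed P F (u, du, v, dv)) : Pr P F u du v dv := by
  have h0 : P v ≠ P u := EOK.ne h
  obtain ⟨-, ρ, hρ, e⟩ := h
  have h1 : P v - P u ≠ 0 := sub_ne_zero.2 h0
  refine ⟨h0, ρ, hρ, ?_⟩
  simp only at e
  field_simp at e
  linear_combination e

theorem Pr.symm {P F : ℕ → ℂ} {u du v dv : ℕ} (h : Pr P F u du v dv) : Pr P F v dv u du := by
  obtain ⟨h0, ρ, hρ, e⟩ := h
  exact ⟨h0.symm, ρ, hρ, by linear_combination e⟩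

theorem sq_real {z : ℂ} {r : ℝ} (hr : 0 ≤ r) (h : z ^ 2 = r) : ∃ s : ℝ, z = s := by
  have h1 := congrArg re h
  have h2 := congrArg im h
  simp only [sq, mul_re, mul_im, ofReal_re, ofReal_im] at h1 h2
  refine ⟨z.re, Complex.ext rfl ?_⟩
  rw [ofReal_im]
  by_contra h3
  have : z.re = 0 := by
    have : z.re * z.im = 0 := by linarith
    exact (mul_eq_zero.1 this).resolve_right h3
  rw [this] at h1
  have := mul_self_pos.2 h3
  linarith

theorem om_sum {a b d : ℕ} (h : (a + b) % 72 = (2 * d + 36) % 72) :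
    om a * om b = -(om d ^ 2) := by
  rw [← om_add, om_congr h, om_add, om36, two_mul, om_add]; ring

/-- A real multiple of a direction. -/
def Par' (d : ℕ) (z : ℂ) : Prop := ∃ s : ℝ, z = s * om d

theorem Pr.par {P F : ℕ → ℂ} {u du v dv : ℕ} (e : Pr P F u du v dv) (hu : St F u) (hv : St F v)
    (d : ℕ) (h : (du + dv) % 72 = (2 * d + 36) % 72) : Par' d (P v - P u) := by
  obtain ⟨-, ρ, hρ, e⟩ := e
  obtain ⟨a, ha, ea⟩ := hu
  obtain ⟨b, hb, eb⟩ := hv
  have h1 := om_sum h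
  have h2 := om_ne d
  have h3 : (ρ : ℂ) ≠ 0 := by exact_mod_cast hρ.ne'
  obtain ⟨s, hs⟩ := sq_real (z := (P v - P u) / om d) (r := a * b / ρ) (by positivity) (by
    rw [ea, eb] at e
    push_cast; field_simp
    linear_combination e - a * b * h1)
  exact ⟨s, by rw [← hs]; field_simp⟩

theorem Par'.trans {d : ℕ} {a b c : ℂ} (h1 : Par' d (b - a)) (h2 : Par' d (c - b)) :
    Par' d (c - a) := by
  obtain ⟨s, hs⟩ := h1
  obtain ⟨t, ht⟩ := h2
  exact ⟨s + t, by push_cast; linear_combination hs + ht⟩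

theorem cert {P F : ℕ → ℂ} {s a1 p1 b1 a2 p2 b2 : ℕ} (d : ℕ) (e1 : Pr P F s a1 p1 b1)
    (e2 : Pr P F s a2 p2 b2) (h1 : St F p1) (h2 : St F p2) (hp : Par' d (P p2 - P p1))
    (hne : P p2 ≠ P p1)
    (hd : (a1 + b1) % 72 = (2 * d + 36) % 72 ∧ (a2 + b2) % 72 = (2 * d + 36) % 72) : St F s := by
  obtain ⟨n1, r1, hr1, e1⟩ := e1
  obtain ⟨n2, r2, hr2, e2⟩ := e2
  obtain ⟨a, ha, ea⟩ := h1
  obtain ⟨b, hb, eb⟩ := h2
  obtain ⟨σ, hσ⟩ := hp
  have k1 := om_sum hd.1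
  have k2 := om_sum hd.2
  have k3 := om_ne d
  have m2 : P p2 - P s ≠ 0 := sub_ne_zero.2 n2
  have c1 : (r1 : ℂ) ≠ 0 := by exact_mod_cast hr1.ne'
  have c2 : (b : ℂ) ≠ 0 := by exact_mod_cast hb.ne'
  rw [ea] at e1
  rw [eb] at e2
  have f1 : F s * om d ^ 2 * a = r1 * (P p1 - P s) ^ 2 := by linear_combination F s * a * k1 - e1
  have f2 : F s * om d ^ 2 * b = r2 * (P p2 - P s) ^ 2 := by linear_combination F s * b * k2 - e2
  obtain ⟨l, hl⟩ := sq_real (z := (P p1 - P s) / (P p2 - P s)) (r := a * r2 / (b * r1))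
    (by positivity) (by
      push_cast; field_simp
      linear_combination a * f2 - b * f1)
  have g1 : P p1 - P s = l * (P p2 - P s) := by rw [← hl]; field_simp
  have g2 : (1 - l : ℂ) * (P p2 - P s) = σ * om d := by linear_combination hσ + g1
  have g3 : (1 - l : ℂ) ≠ 0 := by
    intro h
    rw [h, zero_mul, ← hσ] at g2
    exact hne (sub_eq_zero.1 g2.symm)
  have g4 : P p2 - P s = ((σ / (1 - l) : ℝ) : ℂ) * om d := by
    push_cast; field_simp; linear_combination g2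
  have g5 : σ / (1 - l) ≠ 0 := by
    intro h
    rw [h] at g4
    exact m2 (by simpa using g4)
  refine ⟨r2 * (σ / (1 - l)) ^ 2 / b, by positivity, ?_⟩
  rw [g4] at f2
  rw [ofReal_div, ofReal_mul, ofReal_pow, eq_div_iff c2]
  exact mul_left_cancel₀ (pow_ne_zero 2 k3) (by linear_combination f2)

theorem Par'.lin {d : ℕ} {z : ℂ} (h : Par' d z) (hd : d % 6 = 0) :
    (dvec d).2 * z.re = (dvec d).1 * cy z := by
  obtain ⟨s, rfl⟩ := h
  obtain ⟨c, -, e⟩ := om_dvec hd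
  rw [e, hex_smul, hex_smul, hex_re, cy_hex]; ring

theorem Pr.lin {P F : ℕ → ℂ} {u du v dv : ℕ} (e : Pr P F u du v dv) (hu : St F u) (hv : St F v)
    (d : ℕ) (a b : ℤ) (h : (du + dv) % 72 = (2 * d + 36) % 72 ∧ d % 6 = 0 ∧ dvec d = (a, b)) :
    b * ((P v).re - (P u).re) = a * (cy (P v) - cy (P u)) := by
  have := (e.par hu hv d h.1).lin h.2.1
  rwa [h.2.2, sub_re, cy_sub] at this

theorem Ed.up {P F : ℕ → ℂ} {u v : ℕ} (e : Ed P F (u, 18, v, 54)) (hu : St F u) (hv : St F v) :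
    (P v).re = (P u).re ∧ cy (P u) < cy (P v) := by
  obtain ⟨s, hs⟩ := e.pr.par hu hv 18 (by decide)
  obtain ⟨a, ha, ea⟩ := hu
  obtain ⟨c, hc, ec⟩ := om_dvec (d := 18) (by decide)
  have h0 : s ≠ 0 := by
    rintro rfl
    exact e.ne (sub_eq_zero.1 (by simpa using hs))
  have h1 := e.1
  have h2 := om_ne 18
  simp only at h1
  rw [hs, ea, mul_div_mul_right _ _ h2, ← ofReal_div, ofReal_mem_slitPlane] at h1
  have h3 : 0 < s := by
    rcases lt_or_gt_of_ne h0 with h | h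
    · exact absurd h1 (div_neg_of_pos_of_neg ha h).not_gt
    · exact h
  rw [ec, hex_smul, hex_smul, show dvec 18 = (0, 1) from rfl, ← hex_cy (P v), ← hex_cy (P u),
    hex_sub, hex_inj] at hs
  have := mul_pos h3 hc
  simp only [Int.cast_zero, mul_zero, Int.cast_one, mul_one] at hs
  constructor <;> linarith [hs.1, hs.2]

theorem ratio {P F : ℕ → ℂ} {u a1 p1 b1 a2 p2 b2 : ℕ} (d : ℕ) (e1 : Pr P F u a1 p1 b1)
    (e2 : Pr P F u a2 p2 b2) (h1 : St F p1) (h2 : St F p2)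
    (hd : (a1 + b1) % 72 = (a2 + b2 + 2 * d) % 72) :
    Par' d ((P p1 - P u) * (starRingEnd ℂ) (P p2 - P u)) := by
  obtain ⟨n1, r1, hr1, e1⟩ := e1
  obtain ⟨n2, r2, hr2, e2⟩ := e2
  obtain ⟨a, ha, ea⟩ := h1
  obtain ⟨b, hb, eb⟩ := h2
  have k1 : om a1 * om b1 = om a2 * om b2 * om d ^ 2 := by
    rw [← om_add, om_congr hd, om_add, om_add, two_mul, om_add]; ring
  have k3 := om_ne d
  have m2 : P p2 - P u ≠ 0 := sub_ne_zero.2 n2
  have c1 : (r1 : ℂ) ≠ 0 := by exact_mod_cast hr1.ne'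
  have c2 : (b : ℂ) ≠ 0 := by exact_mod_cast hb.ne'
  rw [ea] at e1
  rw [eb] at e2
  obtain ⟨l, hl⟩ := sq_real (z := (P p1 - P u) / ((P p2 - P u) * om d)) (r := a * r2 / (b * r1))
    (by positivity) (by
      push_cast; field_simp
      linear_combination b * e1 - a * om d ^ 2 * e2 - F u * a * b * k1)
  have g1 : P p1 - P u = l * ((P p2 - P u) * om d) := by rw [← hl]; field_simp
  refine ⟨l * normSq (P p2 - P u), ?_⟩
  rw [g1, ofReal_mul, ← mul_conj]; ring

theorem hex_conj (a b : ℝ) : (starRingEnd ℂ) (hex a b) = hex a (-b) := by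
  apply Complex.ext <;> simp

theorem wheel {P F : ℕ → ℂ} (e1 : Pr P F 30 39 3 65) (e2 : Pr P F 30 28 19 64)
    (e3 : Pr P F 30 10 18 46) (e4 : Pr P F 30 15 50 29) (h1 : St F 3) (h2 : St F 19)
    (h3 : St F 18) (h4 : St F 50) (y2 : cy (P 19) = cy (P 3)) (y3 : cy (P 18) = cy (P 3))
    (y4 : cy (P 50) = cy (P 3)) :
    ((P 18).re - (P 3).re) * ((P 50).re - (P 19).re) =
      3 * ((P 19).re - (P 3).re) * ((P 50).re - (P 18).re) := by
  have r1 := (ratio 6 e1 e2 h1 h2 (by decide)).lin (by decide)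
  have r2 := (ratio 18 e2 e3 h2 h3 (by decide)).lin (by decide)
  have r3 := (ratio 6 e3 e4 h3 h4 (by decide)).lin (by decide)
  have n2 := e2.1
  have n3 := e3.1
  obtain ⟨a, y, ea⟩ : ∃ a y, P 3 = hex a y := ⟨_, _, (hex_cy _).symm⟩
  obtain ⟨z, y', ez⟩ : ∃ a y, P 19 = hex a y := ⟨_, _, (hex_cy _).symm⟩
  obtain ⟨t, y'', et⟩ : ∃ a y, P 18 = hex a y := ⟨_, _, (hex_cy _).symm⟩
  obtain ⟨c, y''', ec⟩ : ∃ a y, P 50 = hex a y := ⟨_, _, (hex_cy _).symm⟩
  obtain ⟨u, v, eu⟩ : ∃ a y, P 30 = hex a y := ⟨_, _, (hex_cy _).symm⟩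
  simp only [ea, ez, et, ec, eu, hex_sub, hex_conj, hex_mul, hex_re, cy_hex,
    show dvec 6 = (3, 1) from rfl, show dvec 18 = (0, 1) from rfl, Ne, hex_inj]
    at r1 r2 r3 n2 n3 y2 y3 y4 ⊢
  subst y' y'' y'''
  push_cast at r1 r2 r3
  clear ea ez et ec eu
  obtain ⟨k, rfl⟩ : ∃ k, y = v + k := ⟨y - v, by ring⟩
  obtain ⟨a, rfl⟩ : ∃ k, a = u + k := ⟨a - u, by ring⟩
  obtain ⟨z, rfl⟩ : ∃ k, z = u + k := ⟨z - u, by ring⟩
  obtain ⟨t, rfl⟩ : ∃ k, t = u + k := ⟨t - u, by ring⟩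
  obtain ⟨c, rfl⟩ : ∃ k, c = u + k := ⟨c - u, by ring⟩
  have q1 : a * (z + 3 * k) = 3 * k * (z - k) := by linear_combination r1
  have q2 : z * t = -3 * k ^ 2 := by linear_combination r2
  have q3 : c * (3 * k - t) = 3 * k * (k + t) := by linear_combination -r3
  have hk : k ≠ 0 := by
    rintro rfl
    have : z * t = 0 := by linarith
    rcases mul_eq_zero.1 this with h | h
    · exact n2 ⟨by simp [h], by simp⟩
    · exact n3 ⟨by simp [h], by simp⟩
  have hz : z ≠ 0 := by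
    rintro rfl
    exact hk (pow_eq_zero_iff (n := 2) (by norm_num) |>.1 (by linarith))
  have n1 : z + 3 * k ≠ 0 := by
    intro h
    have : z = -3 * k := by linarith
    subst this
    exact hk (pow_eq_zero_iff (n := 2) (by norm_num) |>.1 (by linarith))
  have n4 : z + k ≠ 0 := by
    intro h
    have : z = -k := by linarith
    subst this
    have h5 : t = 3 * k := mul_left_cancel₀ hk (by linarith)
    subst h5
    exact hk (pow_eq_zero_iff (n := 2) (by norm_num) |>.1 (by linarith))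
  have t1 : t = -3 * k ^ 2 / z := by field_simp; linarith
  have a1 : a = 3 * k * (z - k) / (z + 3 * k) := by field_simp; linarith
  have c1 : c = k * (z - 3 * k) / (z + k) := by
    rw [eq_div_iff n4]
    exact mul_left_cancel₀ (mul_ne_zero (three_ne_zero (α := ℝ)) hk)
      (by linear_combination z * q3 + (c + 3 * k) * q2)
  rw [t1, a1, c1]
  field_simp
  ring

theorem EOK.affine {a b T T' : ℂ} (h : EOK a b T T') {c : ℝ} (hc : 0 < c) (w : ℂ) :
    EOK (c * a + w) (c * b + w) T T' := by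
  have h0 := sub_ne_zero.2 h.ne
  have h1 : (c : ℂ) ≠ 0 := by exact_mod_cast hc.ne'
  obtain ⟨h2, ρ, hρ, e⟩ := h
  have e1 : T / (c * b + w - (c * a + w)) = ((c⁻¹ : ℝ) : ℂ) * (T / (b - a)) := by
    rw [show c * b + w - (c * a + w) = c * (b - a) by ring]; push_cast; field_simp
  refine ⟨e1 ▸ slit_smul (inv_pos.2 hc) h2, ρ / c ^ 2, by positivity, ?_⟩
  rw [e1, mul_left_comm, e]; push_cast; field_simp; ring

theorem inv_arc {a b W z w c : ℂ} (ha : a ≠ w) (hb : b ≠ w) (hz : z ≠ w) (hc : c ≠ 0) :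
    OnArc (c / (a - w)) (c / (b - w)) (W * (b - w) / (a - w)) (c / (z - w)) ↔ OnArc a b W z := by
  have h1 := sub_ne_zero.2 ha
  have h2 := sub_ne_zero.2 hb
  have h3 := sub_ne_zero.2 hz
  refine exists_congr fun l => and_congr_right fun _ => ?_
  have e1 : c / (z - w) - c / (a - w) = -(c / ((a - w) * (z - w))) * (z - a) := by
    field_simp; ring
  have e2 : l * (W * (b - w) / (a - w)) * (c / (b - w) - c / (z - w)) =
      -(c / ((a - w) * (z - w))) * (l * W * (b - z)) := by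
    field_simp; ring
  rw [e1, e2, mul_right_inj' (neg_ne_zero.2 (div_ne_zero hc (mul_ne_zero h1 h3)))]

theorem inv_W {a b T w c : ℂ} (ha : a ≠ w) (hb : b ≠ w) (hab : b ≠ a) (hc : c ≠ 0) :
    -(c * T / (a - w) ^ 2) / (c / (b - w) - c / (a - w)) = T / (b - a) * (b - w) / (a - w) := by
  have h1 := sub_ne_zero.2 ha
  have h2 := sub_ne_zero.2 hb
  have h3 := sub_ne_zero.2 hab
  rw [show c / (b - w) - c / (a - w) = -(c * (b - a) / ((a - w) * (b - w))) by field_simp; ring]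
  field_simp

theorem EOK.inv {a b T T' w c : ℂ} (h : EOK a b T T') (ha : a ≠ w) (hb : b ≠ w) (hc : c ≠ 0)
    (hw : ¬ OnArc a b (T / (b - a)) w) :
    EOK (c / (a - w)) (c / (b - w)) (-(c * T / (a - w) ^ 2)) (-(c * T' / (b - w) ^ 2)) := by
  have h1 := sub_ne_zero.2 ha
  have h2 := sub_ne_zero.2 hb
  have h0 := slitPlane_ne_zero h.1
  rw [EOK, inv_W ha hb h.ne hc]
  obtain ⟨-, ρ, hρ, e⟩ := h
  generalize T / (b - a) = W at *
  refine ⟨?_, ρ, hρ, ?_⟩
  · by_contra hs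
    simp only [mem_slitPlane_iff, not_or, not_lt, not_not] at hs
    set V := W * (b - w) / (a - w) with hV
    have e1 : V = (V.re : ℂ) := Complex.ext rfl (by simpa using hs.2)
    have e2 : V.re ≠ 0 := by
      intro h
      rw [h] at e1
      exact div_ne_zero (mul_ne_zero h0 h2) h1 e1
    have e3 : (V.re : ℂ) ≠ 0 := by exact_mod_cast e2
    refine hw ⟨(-V.re)⁻¹, inv_pos.2 (by have := lt_of_le_of_ne hs.1 e2; linarith), ?_⟩
    have e4 : W * (b - w) = V.re * (a - w) := by rw [← e1, hV]; field_simp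
    rw [mul_assoc, e4]; push_cast; field_simp; ring
  · field_simp
    linear_combination -e

theorem inv_zero {a b W w c : ℂ} (ha : a ≠ w) (hb : b ≠ w) (hc : c ≠ 0) (hW : W ∈ slitPlane) :
    ¬ OnArc (c / (a - w)) (c / (b - w)) (W * (b - w) / (a - w)) 0 := by
  rintro ⟨l, hl, e⟩
  have h1 := sub_ne_zero.2 ha
  have h2 := sub_ne_zero.2 hb
  have e1 : (l : ℂ) * W = -1 := by
    field_simp at e
    exact mul_left_cancel₀ hc (by linear_combination -e)
  have := slit_smul hl hW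
  rw [e1] at this
  simp [mem_slitPlane_iff] at this
  linarith

end Pool.Agent.Lib.MP_242159_lc
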