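import Pool.Agent.Lib.MP_242159_lc.NoA
import Pool.Agent.Lib.MP_242159_lc.Grid

/-!
In every drawing with straight side vertices, a tile computes its gate.
-/

set_option autoImplicit false

namespace Pool.Agent.Lib.MP_242159_lc

open Complex

/-- What a gate tile does. -/
def GateOut (g : ℕ) (P F : ℕ → ℂ) : Prop :=
  St F 160 ∧ St F 126 ∧ ((P 126).re = (P 120).re + 3 → (P 160).re = (P 120).re + 3 →
    (P 166).re = (P 120).re + 6 → cy (P 126) = cy (P 120) → cy (P 166) = cy (P 160) →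
      (P 40).re = (P 120).re + 3 ∧ cy (P 40) = cy (P 0) - 1 ∧
        ∀ y : ℝ, Gate g (cy (P 120) - 12 - y) (cy (P 160) - 11 - y) (cy (P 0) - y))

theorem gateNo0 {P F : ℕ → ℂ} (h : ∀ e ∈ allE 0, Ed P F e) (e0 : Ed P F (160, 18, 126, 54))
    (hA : ∀ k < 6, St F k) (s120 : St F 120) (hB : ∀ k < 6, St F (46 + k)) (s166 : St F 166)
    (s40 : St F 40) (s6 : St F 6) : GateOut 0 P F := by
  have e1_2 := (h (1, 17, 2, 55) (by decide)).pr
  have e2_3 := (h (2, 17, 3, 55) (by decide)).pr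
  have e3_4 := (h (3, 17, 4, 55) (by decide)).pr
  have e4_5 := (h (4, 17, 5, 55) (by decide)).pr
  have e5_120 := (h (5, 17, 120, 55) (by decide)).pr
  have e46_47 := (h (46, 19, 47, 53) (by decide)).pr
  have e47_48 := (h (47, 19, 48, 53) (by decide)).pr
  have e48_49 := (h (48, 19, 49, 53) (by decide)).pr
  have e49_50 := (h (49, 19, 50, 53) (by decide)).pr
  have e50_51 := (h (50, 19, 51, 53) (by decide)).pr
  have e51_166 := (h (51, 19, 166, 53) (by decide)).pr
  have e6_12 := (h (6, 18, 12, 54) (by decide)).pr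
  have e40_12 := (h (40, 17, 12, 55) (by decide)).pr
  have e1_12 := (h (1, 66, 12, 30) (by decide)).pr
  have e49_12 := (h (49, 50, 12, 10) (by decide)).pr
  have e1_6 := (h (1, 60, 6, 24) (by decide)).pr
  have e12_46 := (h (12, 60, 46, 24) (by decide)).pr
  have e1_49 := (h (1, 0, 49, 48) (by decide)).pr
  have e1_13 := (h (1, 1, 13, 47) (by decide)).pr
  have e13_49 := (h (13, 6, 49, 42) (by decide)).pr
  have e2_13 := (h (2, 62, 13, 46) (by decide)).pr
  have e2_14 := (h (2, 0, 14, 36) (by decide)).pr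
  have e14_13 := (h (14, 63, 13, 45) (by decide)).pr
  have e14_15 := (h (14, 0, 15, 36) (by decide)).pr
  have e2_15 := (h (2, 1, 15, 35) (by decide)).pr
  have e13_16 := (h (13, 42, 16, 6) (by decide)).pr
  have e49_16 := (h (49, 39, 16, 9) (by decide)).pr
  have e16_15 := (h (16, 18, 15, 54) (by decide)).pr
  have e15_17 := (h (15, 18, 17, 54) (by decide)).pr
  have e16_17 := (h (16, 17, 17, 55) (by decide)).pr
  have e17_18 := (h (17, 18, 18, 54) (by decide)).pr
  have e15_18 := (h (15, 19, 18, 53) (by decide)).pr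
  have e18_160 := (h (18, 18, 160, 54) (by decide)).pr
  have e17_160 := (h (17, 17, 160, 55) (by decide)).pr
  have e18_126 := (h (18, 19, 126, 53) (by decide)).pr
  have e166_17 := (h (166, 48, 17, 12) (by decide)).pr
  have e17_49 := (h (17, 60, 49, 24) (by decide)).pr
  have e0_6 := (h (0, 0, 6, 36) (by decide)).pr
  have e40_46 := (h (40, 0, 46, 36) (by decide)).pr
  have e40_6 := (h (40, 18, 6, 54) (by decide)).pr
  have s0 : St F 0 := hA 0 (by decide)
  have s1 : St F 1 := hA 1 (by decide)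
  have s2 : St F 2 := hA 2 (by decide)
  have s3 : St F 3 := hA 3 (by decide)
  have s4 : St F 4 := hA 4 (by decide)
  have s5 : St F 5 := hA 5 (by decide)
  have s46 : St F 46 := hB 0 (by decide)
  have s47 : St F 47 := hB 1 (by decide)
  have s48 : St F 48 := hB 2 (by decide)
  have s49 : St F 49 := hB 3 (by decide)
  have s50 : St F 50 := hB 4 (by decide)
  have s51 : St F 51 := hB 5 (by decide)
  have s12 : St F 12 := cert 18 e40_12.symm e6_12.symm s40 s6 (e40_6.par s40 s6 18 (by decide))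
    e40_6.1 (by decide)
  have s13 : St F 13 := cert 6 e1_13.symm e13_49 s1 s49 (e1_49.par s1 s49 6 (by decide)) e1_49.1
    (by decide)
  have s14 : St F 14 := cert 0 e2_14.symm e14_13 s2 s13 (e2_13.par s2 s13 0 (by decide)) e2_13.1
    (by decide)
  have s15 : St F 15 := cert 0 e2_15.symm e14_15.symm s2 s14 (e2_14.par s2 s14 0 (by decide))
    e2_14.1 (by decide)
  have s16 : St F 16 := cert 6 e49_16.symm e13_16.symm s49 s13 (e13_49.symm.par s49 s13 6 (by
    decide)) e13_49.symm.1 (by decide)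
  have s17 : St F 17 := cert 18 e16_17.symm e15_17.symm s16 s15 (e16_15.par s16 s15 18 (by
    decide)) e16_15.1 (by decide)
  have s18 : St F 18 := cert 18 e15_18.symm e17_18.symm s15 s17 (e15_17.par s15 s17 18 (by
    decide)) e15_17.1 (by decide)
  have s160 : St F 160 := cert 18 e17_160.symm e18_160.symm s17 s18 (e17_18.par s17 s18 18 (by
    decide)) e17_18.1 (by decide)
  have s126 : St F 126 := cert 18 e18_126.symm e0.pr.symm s18 s160 (e18_160.par s18 s160 18 (by
    decide)) e18_160.1 (by decide)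
  refine ⟨s160, s126, fun h1 h2 h3 h4 h5 => ?_⟩
  have l1_2 := e1_2.lin s1 s2 18 0 1 (by decide)
  have l2_3 := e2_3.lin s2 s3 18 0 1 (by decide)
  have l3_4 := e3_4.lin s3 s4 18 0 1 (by decide)
  have l4_5 := e4_5.lin s4 s5 18 0 1 (by decide)
  have l5_120 := e5_120.lin s5 s120 18 0 1 (by decide)
  have l46_47 := e46_47.lin s46 s47 18 0 1 (by decide)
  have l47_48 := e47_48.lin s47 s48 18 0 1 (by decide)
  have l48_49 := e48_49.lin s48 s49 18 0 1 (by decide)
  have l49_50 := e49_50.lin s49 s50 18 0 1 (by decide)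
  have l50_51 := e50_51.lin s50 s51 18 0 1 (by decide)
  have l51_166 := e51_166.lin s51 s166 18 0 1 (by decide)
  have l6_12 := e6_12.lin s6 s12 18 0 1 (by decide)
  have l40_12 := e40_12.lin s40 s12 18 0 1 (by decide)
  have l1_12 := e1_12.lin s1 s12 30 (-3) 1 (by decide)
  have l49_12 := e49_12.lin s49 s12 12 1 1 (by decide)
  have l1_6 := e1_6.lin s1 s6 24 (-1) 1 (by decide)
  have l12_46 := e12_46.lin s12 s46 24 (-1) 1 (by decide)
  have l1_49 := e1_49.lin s1 s49 6 3 1 (by decide)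
  have l17_18 := e17_18.lin s17 s18 18 0 1 (by decide)
  have l18_126 := e18_126.lin s18 s126 18 0 1 (by decide)
  have l166_17 := e166_17.lin s166 s17 12 1 1 (by decide)
  have l17_49 := e17_49.lin s17 s49 24 (-1) 1 (by decide)
  have l0_6 := e0_6.lin s0 s6 0 1 0 (by decide)
  have l40_46 := e40_46.lin s40 s46 0 1 0 (by decide)
  refine ⟨?_, ?_, fun y => Or.inl ⟨rfl, ?_⟩⟩
  · linear_combination (-1 / 2) * l1_2 + (-1 / 2) * l2_3 + (-1 / 2) * l3_4 + (-1 / 2) * l4_5 + (-1
      / 2) * l5_120 + (-1 / 2) * l49_50 + (-1 / 2) * l50_51 + (-1 / 2) * l51_166 + (-1) * l40_12 +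
      (1 / 4) * l1_12 + (3 / 4) * l49_12 + (1 / 4) * l1_49 + (1 / 2) * h3
  · linear_combination (-1 / 6) * l1_2 + (-1 / 6) * l2_3 + (-1 / 6) * l3_4 + (-1 / 6) * l4_5 + (-1
      / 6) * l5_120 + l46_47 + l47_48 + l48_49 + (1 / 6) * l49_50 + (1 / 6) * l50_51 + (1 / 6) *
      l51_166 + (-1) * l6_12 + (3 / 4) * l1_12 + (5 / 4) * l49_12 + (-1) * l1_6 + l12_46 + (5 /
      12) * l1_49 + (-1) * l0_6 + l40_46 + (-1 / 6) * h3
  · linear_combination (-5 / 6) * l1_2 + (-5 / 6) * l2_3 + (-5 / 6) * l3_4 + (-5 / 6) * l4_5 + (-5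
      / 6) * l5_120 + (11 / 6) * l49_50 + (11 / 6) * l50_51 + (11 / 6) * l51_166 + l6_12 + (-1 /
      4) * l1_12 + (-3 / 4) * l49_12 + l1_6 + (1 / 12) * l1_49 + (-2) * l17_18 + (-2) * l18_126 +
      (-1) * l166_17 + l17_49 + l0_6 + 2 * h1 + (-17 / 6) * h3 + h5

theorem gateNo1 {P F : ℕ → ℂ} (h : ∀ e ∈ allE 1, Ed P F e) (e0 : Ed P F (160, 18, 126, 54))
    (hA : ∀ k < 6, St F k) (s120 : St F 120) (hB : ∀ k < 6, St F (46 + k)) (s166 : St F 166)
    (s40 : St F 40) (s6 : St F 6) : GateOut 1 P F := by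
  have e1_2 := (h (1, 17, 2, 55) (by decide)).pr
  have e2_3 := (h (2, 17, 3, 55) (by decide)).pr
  have e3_4 := (h (3, 17, 4, 55) (by decide)).pr
  have e4_5 := (h (4, 17, 5, 55) (by decide)).pr
  have e5_120 := (h (5, 17, 120, 55) (by decide)).pr
  have e46_47 := (h (46, 19, 47, 53) (by decide)).pr
  have e47_48 := (h (47, 19, 48, 53) (by decide)).pr
  have e48_49 := (h (48, 19, 49, 53) (by decide)).pr
  have e49_50 := (h (49, 19, 50, 53) (by decide)).pr
  have e50_51 := (h (50, 19, 51, 53) (by decide)).pr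
  have e51_166 := (h (51, 19, 166, 53) (by decide)).pr
  have e6_12 := (h (6, 18, 12, 54) (by decide)).pr
  have e40_12 := (h (40, 17, 12, 55) (by decide)).pr
  have e1_12 := (h (1, 66, 12, 30) (by decide)).pr
  have e49_12 := (h (49, 50, 12, 10) (by decide)).pr
  have e1_6 := (h (1, 60, 6, 24) (by decide)).pr
  have e12_46 := (h (12, 60, 46, 24) (by decide)).pr
  have e1_49 := (h (1, 2, 49, 46) (by decide)).pr
  have e1_13 := (h (1, 6, 13, 42) (by decide)).pr
  have e13_49 := (h (13, 6, 49, 42) (by decide)).pr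
  have e3_13 := (h (3, 59, 13, 37) (by decide)).pr
  have e3_14 := (h (3, 66, 14, 30) (by decide)).pr
  have e14_13 := (h (14, 61, 13, 35) (by decide)).pr
  have e13_50 := (h (13, 9, 50, 51) (by decide)).pr
  have e13_15 := (h (13, 12, 15, 48) (by decide)).pr
  have e15_50 := (h (15, 12, 50, 48) (by decide)).pr
  have e15_14 := (h (15, 46, 14, 62) (by decide)).pr
  have e15_16 := (h (15, 36, 16, 0) (by decide)).pr
  have e16_14 := (h (16, 45, 14, 63) (by decide)).pr
  have e16_17 := (h (16, 36, 17, 0) (by decide)).pr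
  have e15_17 := (h (15, 34, 17, 2) (by decide)).pr
  have e14_18 := (h (14, 66, 18, 30) (by decide)).pr
  have e3_18 := (h (3, 69, 18, 27) (by decide)).pr
  have e18_17 := (h (18, 18, 17, 54) (by decide)).pr
  have e17_19 := (h (17, 18, 19, 54) (by decide)).pr
  have e18_19 := (h (18, 19, 19, 53) (by decide)).pr
  have e19_20 := (h (19, 18, 20, 54) (by decide)).pr
  have e17_20 := (h (17, 17, 20, 55) (by decide)).pr
  have e20_21 := (h (20, 18, 21, 54) (by decide)).pr
  have e19_21 := (h (19, 19, 21, 53) (by decide)).pr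
  have e21_160 := (h (21, 18, 160, 54) (by decide)).pr
  have e20_160 := (h (20, 17, 160, 55) (by decide)).pr
  have e21_126 := (h (21, 19, 126, 53) (by decide)).pr
  have e120_21 := (h (120, 60, 21, 24) (by decide)).pr
  have e21_3 := (h (21, 48, 3, 12) (by decide)).pr
  have e160_51 := (h (160, 60, 51, 24) (by decide)).pr
  have e51_20 := (h (51, 42, 20, 6) (by decide)).pr
  have e20_50 := (h (20, 66, 50, 30) (by decide)).pr
  have e0_6 := (h (0, 0, 6, 36) (by decide)).pr
  have e40_46 := (h (40, 0, 46, 36) (by decide)).pr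
  have e40_6 := (h (40, 18, 6, 54) (by decide)).pr
  have s0 : St F 0 := hA 0 (by decide)
  have s1 : St F 1 := hA 1 (by decide)
  have s2 : St F 2 := hA 2 (by decide)
  have s3 : St F 3 := hA 3 (by decide)
  have s4 : St F 4 := hA 4 (by decide)
  have s5 : St F 5 := hA 5 (by decide)
  have s46 : St F 46 := hB 0 (by decide)
  have s47 : St F 47 := hB 1 (by decide)
  have s48 : St F 48 := hB 2 (by decide)
  have s49 : St F 49 := hB 3 (by decide)
  have s50 : St F 50 := hB 4 (by decide)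
  have s51 : St F 51 := hB 5 (by decide)
  have s12 : St F 12 := cert 18 e40_12.symm e6_12.symm s40 s6 (e40_6.par s40 s6 18 (by decide))
    e40_6.1 (by decide)
  have s13 : St F 13 := cert 6 e1_13.symm e13_49 s1 s49 (e1_49.par s1 s49 6 (by decide)) e1_49.1
    (by decide)
  have s14 : St F 14 := cert 30 e3_14.symm e14_13 s3 s13 (e3_13.par s3 s13 30 (by decide)) e3_13.1
    (by decide)
  have s15 : St F 15 := cert 12 e13_15.symm e15_50 s13 s50 (e13_50.par s13 s50 12 (by decide))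
    e13_50.1 (by decide)
  have s16 : St F 16 := cert 0 e15_16.symm e16_14 s15 s14 (e15_14.par s15 s14 0 (by decide))
    e15_14.1 (by decide)
  have s17 : St F 17 := cert 0 e15_17.symm e16_17.symm s15 s16 (e15_16.par s15 s16 0 (by decide))
    e15_16.1 (by decide)
  have s18 : St F 18 := cert 30 e3_18.symm e14_18.symm s3 s14 (e3_14.par s3 s14 30 (by decide))
    e3_14.1 (by decide)
  have s19 : St F 19 := cert 18 e18_19.symm e17_19.symm s18 s17 (e18_17.par s18 s17 18 (by
    decide)) e18_17.1 (by decide)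
  have s20 : St F 20 := cert 18 e17_20.symm e19_20.symm s17 s19 (e17_19.par s17 s19 18 (by
    decide)) e17_19.1 (by decide)
  have s21 : St F 21 := cert 18 e19_21.symm e20_21.symm s19 s20 (e19_20.par s19 s20 18 (by
    decide)) e19_20.1 (by decide)
  have s160 : St F 160 := cert 18 e20_160.symm e21_160.symm s20 s21 (e20_21.par s20 s21 18 (by
    decide)) e20_21.1 (by decide)
  have s126 : St F 126 := cert 18 e21_126.symm e0.pr.symm s21 s160 (e21_160.par s21 s160 18 (by
    decide)) e21_160.1 (by decide)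
  refine ⟨s160, s126, fun h1 h2 h3 h4 h5 => ?_⟩
  have l1_2 := e1_2.lin s1 s2 18 0 1 (by decide)
  have l2_3 := e2_3.lin s2 s3 18 0 1 (by decide)
  have l3_4 := e3_4.lin s3 s4 18 0 1 (by decide)
  have l4_5 := e4_5.lin s4 s5 18 0 1 (by decide)
  have l5_120 := e5_120.lin s5 s120 18 0 1 (by decide)
  have l46_47 := e46_47.lin s46 s47 18 0 1 (by decide)
  have l47_48 := e47_48.lin s47 s48 18 0 1 (by decide)
  have l48_49 := e48_49.lin s48 s49 18 0 1 (by decide)
  have l49_50 := e49_50.lin s49 s50 18 0 1 (by decide)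
  have l50_51 := e50_51.lin s50 s51 18 0 1 (by decide)
  have l51_166 := e51_166.lin s51 s166 18 0 1 (by decide)
  have l6_12 := e6_12.lin s6 s12 18 0 1 (by decide)
  have l40_12 := e40_12.lin s40 s12 18 0 1 (by decide)
  have l1_12 := e1_12.lin s1 s12 30 (-3) 1 (by decide)
  have l49_12 := e49_12.lin s49 s12 12 1 1 (by decide)
  have l1_6 := e1_6.lin s1 s6 24 (-1) 1 (by decide)
  have l12_46 := e12_46.lin s12 s46 24 (-1) 1 (by decide)
  have l1_49 := e1_49.lin s1 s49 6 3 1 (by decide)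
  have l1_13 := e1_13.lin s1 s13 6 3 1 (by decide)
  have l3_13 := e3_13.lin s3 s13 30 (-3) 1 (by decide)
  have l13_50 := e13_50.lin s13 s50 12 1 1 (by decide)
  have l20_21 := e20_21.lin s20 s21 18 0 1 (by decide)
  have l21_160 := e21_160.lin s21 s160 18 0 1 (by decide)
  have l21_126 := e21_126.lin s21 s126 18 0 1 (by decide)
  have l120_21 := e120_21.lin s120 s21 24 (-1) 1 (by decide)
  have l21_3 := e21_3.lin s21 s3 12 1 1 (by decide)
  have l160_51 := e160_51.lin s160 s51 24 (-1) 1 (by decide)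
  have l51_20 := e51_20.lin s51 s20 6 3 1 (by decide)
  have l20_50 := e20_50.lin s20 s50 30 (-3) 1 (by decide)
  have l0_6 := e0_6.lin s0 s6 0 1 0 (by decide)
  have l40_46 := e40_46.lin s40 s46 0 1 0 (by decide)
  refine ⟨?_, ?_, fun y => Or.inr (Or.inl ⟨rfl, ?_⟩)⟩
  · linear_combination (-1 / 2) * l1_2 + (-1 / 2) * l2_3 + (-1 / 2) * l3_4 + (-1 / 2) * l4_5 + (-1
      / 2) * l5_120 + (-1 / 2) * l49_50 + (-1 / 2) * l50_51 + (-1 / 2) * l51_166 + (-1) * l40_12 +
      (1 / 4) * l1_12 + (3 / 4) * l49_12 + (1 / 4) * l1_49 + (1 / 2) * h3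
  · linear_combination (-1 / 6) * l1_2 + (-1 / 6) * l2_3 + (-1 / 6) * l3_4 + (-1 / 6) * l4_5 + (-1
      / 6) * l5_120 + l46_47 + l47_48 + l48_49 + (1 / 6) * l49_50 + (1 / 6) * l50_51 + (1 / 6) *
      l51_166 + (-1) * l6_12 + (3 / 4) * l1_12 + (5 / 4) * l49_12 + (-1) * l1_6 + l12_46 + (5 /
      12) * l1_49 + (-1) * l0_6 + l40_46 + (-1 / 6) * h3
  · linear_combination (-5 / 3) * l1_2 + (-5 / 3) * l2_3 + (-3) * l3_4 + (-3) * l4_5 + (-3) *
      l5_120 + l49_50 + (7 / 3) * l50_51 + (11 / 3) * l51_166 + 2 * l6_12 + (-1 / 2) * l1_12 + (-3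
      / 2) * l49_12 + 2 * l1_6 + (-1 / 2) * l1_49 + (2 / 3) * l1_13 + (1 / 3) * l3_13 + l13_50 +
      (-2 / 3) * l20_21 + l21_160 + (1 / 3) * l21_126 + l120_21 + (-1) * l21_3 + l160_51 + (-1 /
      3) * l51_20 + (1 / 3) * l20_50 + 2 * l0_6 + (-1 / 3) * h1 + (-11 / 3) * h3

theorem gateNo2 {P F : ℕ → ℂ} (h : ∀ e ∈ allE 2, Ed P F e) (e0 : Ed P F (160, 18, 126, 54))
    (hA : ∀ k < 6, St F k) (s120 : St F 120) (hB : ∀ k < 6, St F (46 + k)) (s166 : St F 166)
    (s40 : St F 40) (s6 : St F 6) : GateOut 2 P F := by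
  have e1_2 := (h (1, 17, 2, 55) (by decide)).pr
  have e2_3 := (h (2, 17, 3, 55) (by decide)).pr
  have e3_4 := (h (3, 17, 4, 55) (by decide)).pr
  have e4_5 := (h (4, 17, 5, 55) (by decide)).pr
  have e5_120 := (h (5, 17, 120, 55) (by decide)).pr
  have e46_47 := (h (46, 19, 47, 53) (by decide)).pr
  have e47_48 := (h (47, 19, 48, 53) (by decide)).pr
  have e48_49 := (h (48, 19, 49, 53) (by decide)).pr
  have e49_50 := (h (49, 19, 50, 53) (by decide)).pr
  have e50_51 := (h (50, 19, 51, 53) (by decide)).pr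
  have e51_166 := (h (51, 19, 166, 53) (by decide)).pr
  have e6_12 := (h (6, 18, 12, 54) (by decide)).pr
  have e40_12 := (h (40, 17, 12, 55) (by decide)).pr
  have e1_12 := (h (1, 66, 12, 30) (by decide)).pr
  have e49_12 := (h (49, 50, 12, 10) (by decide)).pr
  have e1_6 := (h (1, 60, 6, 24) (by decide)).pr
  have e12_46 := (h (12, 60, 46, 24) (by decide)).pr
  have e1_49 := (h (1, 0, 49, 48) (by decide)).pr
  have e1_13 := (h (1, 1, 13, 47) (by decide)).pr
  have e13_49 := (h (13, 6, 49, 42) (by decide)).pr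
  have e2_13 := (h (2, 62, 13, 46) (by decide)).pr
  have e2_14 := (h (2, 0, 14, 36) (by decide)).pr
  have e14_13 := (h (14, 63, 13, 45) (by decide)).pr
  have e14_15 := (h (14, 0, 15, 36) (by decide)).pr
  have e2_15 := (h (2, 1, 15, 35) (by decide)).pr
  have e13_16 := (h (13, 42, 16, 6) (by decide)).pr
  have e49_16 := (h (49, 39, 16, 9) (by decide)).pr
  have e16_15 := (h (16, 18, 15, 54) (by decide)).pr
  have e15_17 := (h (15, 18, 17, 54) (by decide)).pr
  have e16_17 := (h (16, 17, 17, 55) (by decide)).pr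
  have e17_18 := (h (17, 18, 18, 54) (by decide)).pr
  have e15_18 := (h (15, 19, 18, 53) (by decide)).pr
  have e18_19 := (h (18, 18, 19, 54) (by decide)).pr
  have e17_19 := (h (17, 17, 19, 55) (by decide)).pr
  have e19_49 := (h (19, 60, 49, 24) (by decide)).pr
  have e19_51 := (h (19, 0, 51, 36) (by decide)).pr
  have e19_20 := (h (19, 36, 20, 0) (by decide)).pr
  have e51_20 := (h (51, 34, 20, 2) (by decide)).pr
  have e3_18 := (h (3, 70, 18, 38) (by decide)).pr
  have e3_21 := (h (3, 0, 21, 36) (by decide)).pr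
  have e21_18 := (h (21, 0, 18, 36) (by decide)).pr
  have e21_20 := (h (21, 18, 20, 54) (by decide)).pr
  have e20_18 := (h (20, 60, 18, 24) (by decide)).pr
  have e20_22 := (h (20, 18, 22, 54) (by decide)).pr
  have e21_22 := (h (21, 19, 22, 53) (by decide)).pr
  have e22_23 := (h (22, 18, 23, 54) (by decide)).pr
  have e20_23 := (h (20, 17, 23, 55) (by decide)).pr
  have e23_24 := (h (23, 18, 24, 54) (by decide)).pr
  have e22_24 := (h (22, 19, 24, 53) (by decide)).pr
  have e24_160 := (h (24, 18, 160, 54) (by decide)).pr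
  have e23_160 := (h (23, 17, 160, 55) (by decide)).pr
  have e24_126 := (h (24, 19, 126, 53) (by decide)).pr
  have e120_24 := (h (120, 60, 24, 24) (by decide)).pr
  have e24_3 := (h (24, 48, 3, 12) (by decide)).pr
  have e166_23 := (h (166, 48, 23, 12) (by decide)).pr
  have e23_51 := (h (23, 66, 51, 30) (by decide)).pr
  have e0_6 := (h (0, 0, 6, 36) (by decide)).pr
  have e40_46 := (h (40, 0, 46, 36) (by decide)).pr
  have e40_6 := (h (40, 18, 6, 54) (by decide)).pr
  have s0 : St F 0 := hA 0 (by decide)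
  have s1 : St F 1 := hA 1 (by decide)
  have s2 : St F 2 := hA 2 (by decide)
  have s3 : St F 3 := hA 3 (by decide)
  have s4 : St F 4 := hA 4 (by decide)
  have s5 : St F 5 := hA 5 (by decide)
  have s46 : St F 46 := hB 0 (by decide)
  have s47 : St F 47 := hB 1 (by decide)
  have s48 : St F 48 := hB 2 (by decide)
  have s49 : St F 49 := hB 3 (by decide)
  have s50 : St F 50 := hB 4 (by decide)
  have s51 : St F 51 := hB 5 (by decide)
  have s12 : St F 12 := cert 18 e40_12.symm e6_12.symm s40 s6 (e40_6.par s40 s6 18 (by decide))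
    e40_6.1 (by decide)
  have s13 : St F 13 := cert 6 e1_13.symm e13_49 s1 s49 (e1_49.par s1 s49 6 (by decide)) e1_49.1
    (by decide)
  have s14 : St F 14 := cert 0 e2_14.symm e14_13 s2 s13 (e2_13.par s2 s13 0 (by decide)) e2_13.1
    (by decide)
  have s15 : St F 15 := cert 0 e2_15.symm e14_15.symm s2 s14 (e2_14.par s2 s14 0 (by decide))
    e2_14.1 (by decide)
  have s16 : St F 16 := cert 6 e49_16.symm e13_16.symm s49 s13 (e13_49.symm.par s49 s13 6 (by
    decide)) e13_49.symm.1 (by decide)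
  have s17 : St F 17 := cert 18 e16_17.symm e15_17.symm s16 s15 (e16_15.par s16 s15 18 (by
    decide)) e16_15.1 (by decide)
  have s18 : St F 18 := cert 18 e15_18.symm e17_18.symm s15 s17 (e15_17.par s15 s17 18 (by
    decide)) e15_17.1 (by decide)
  have s19 : St F 19 := cert 18 e17_19.symm e18_19.symm s17 s18 (e17_18.par s17 s18 18 (by
    decide)) e17_18.1 (by decide)
  have s20 : St F 20 := cert 0 e51_20.symm e19_20.symm s51 s19 (e19_51.symm.par s51 s19 0 (by
    decide)) e19_51.symm.1 (by decide)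
  have s21 : St F 21 := cert 0 e3_21.symm e21_18 s3 s18 (e3_18.par s3 s18 0 (by decide)) e3_18.1
    (by decide)
  have s22 : St F 22 := cert 18 e21_22.symm e20_22.symm s21 s20 (e21_20.par s21 s20 18 (by
    decide)) e21_20.1 (by decide)
  have s23 : St F 23 := cert 18 e20_23.symm e22_23.symm s20 s22 (e20_22.par s20 s22 18 (by
    decide)) e20_22.1 (by decide)
  have s24 : St F 24 := cert 18 e22_24.symm e23_24.symm s22 s23 (e22_23.par s22 s23 18 (by
    decide)) e22_23.1 (by decide)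
  have s160 : St F 160 := cert 18 e23_160.symm e24_160.symm s23 s24 (e23_24.par s23 s24 18 (by
    decide)) e23_24.1 (by decide)
  have s126 : St F 126 := cert 18 e24_126.symm e0.pr.symm s24 s160 (e24_160.par s24 s160 18 (by
    decide)) e24_160.1 (by decide)
  refine ⟨s160, s126, fun h1 h2 h3 h4 h5 => ?_⟩
  have l1_2 := e1_2.lin s1 s2 18 0 1 (by decide)
  have l2_3 := e2_3.lin s2 s3 18 0 1 (by decide)
  have l3_4 := e3_4.lin s3 s4 18 0 1 (by decide)
  have l4_5 := e4_5.lin s4 s5 18 0 1 (by decide)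
  have l5_120 := e5_120.lin s5 s120 18 0 1 (by decide)
  have l46_47 := e46_47.lin s46 s47 18 0 1 (by decide)
  have l47_48 := e47_48.lin s47 s48 18 0 1 (by decide)
  have l48_49 := e48_49.lin s48 s49 18 0 1 (by decide)
  have l49_50 := e49_50.lin s49 s50 18 0 1 (by decide)
  have l50_51 := e50_51.lin s50 s51 18 0 1 (by decide)
  have l51_166 := e51_166.lin s51 s166 18 0 1 (by decide)
  have l6_12 := e6_12.lin s6 s12 18 0 1 (by decide)
  have l40_12 := e40_12.lin s40 s12 18 0 1 (by decide)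
  have l1_12 := e1_12.lin s1 s12 30 (-3) 1 (by decide)
  have l49_12 := e49_12.lin s49 s12 12 1 1 (by decide)
  have l1_6 := e1_6.lin s1 s6 24 (-1) 1 (by decide)
  have l12_46 := e12_46.lin s12 s46 24 (-1) 1 (by decide)
  have l1_49 := e1_49.lin s1 s49 6 3 1 (by decide)
  have l18_19 := e18_19.lin s18 s19 18 0 1 (by decide)
  have l19_49 := e19_49.lin s19 s49 24 (-1) 1 (by decide)
  have l19_51 := e19_51.lin s19 s51 0 1 0 (by decide)
  have l19_20 := e19_20.lin s19 s20 0 1 0 (by decide)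
  have l3_18 := e3_18.lin s3 s18 0 1 0 (by decide)
  have l20_18 := e20_18.lin s20 s18 24 (-1) 1 (by decide)
  have l20_22 := e20_22.lin s20 s22 18 0 1 (by decide)
  have l22_23 := e22_23.lin s22 s23 18 0 1 (by decide)
  have l23_24 := e23_24.lin s23 s24 18 0 1 (by decide)
  have l24_126 := e24_126.lin s24 s126 18 0 1 (by decide)
  have l120_24 := e120_24.lin s120 s24 24 (-1) 1 (by decide)
  have l24_3 := e24_3.lin s24 s3 12 1 1 (by decide)
  have l166_23 := e166_23.lin s166 s23 12 1 1 (by decide)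
  have l23_51 := e23_51.lin s23 s51 30 (-3) 1 (by decide)
  have l0_6 := e0_6.lin s0 s6 0 1 0 (by decide)
  have l40_46 := e40_46.lin s40 s46 0 1 0 (by decide)
  refine ⟨?_, ?_, fun y => Or.inr (Or.inr (Or.inl ⟨rfl, ?_⟩))⟩
  · linear_combination (-1 / 2) * l1_2 + (-1 / 2) * l2_3 + (-1 / 2) * l3_4 + (-1 / 2) * l4_5 + (-1
      / 2) * l5_120 + (-1 / 2) * l49_50 + (-1 / 2) * l50_51 + (-1 / 2) * l51_166 + (-1) * l40_12 +
      (1 / 4) * l1_12 + (3 / 4) * l49_12 + (1 / 4) * l1_49 + (1 / 2) * h3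
  · linear_combination (-1 / 6) * l1_2 + (-1 / 6) * l2_3 + (-1 / 6) * l3_4 + (-1 / 6) * l4_5 + (-1
      / 6) * l5_120 + l46_47 + l47_48 + l48_49 + (1 / 6) * l49_50 + (1 / 6) * l50_51 + (1 / 6) *
      l51_166 + (-1) * l6_12 + (3 / 4) * l1_12 + (5 / 4) * l49_12 + (-1) * l1_6 + l12_46 + (5 /
      12) * l1_49 + (-1) * l0_6 + l40_46 + (-1 / 6) * h3
  · linear_combination (-5 / 6) * l1_2 + (-5 / 6) * l2_3 + (1 / 6) * l3_4 + (1 / 6) * l4_5 + (1 /
      6) * l5_120 + (11 / 6) * l49_50 + (11 / 6) * l50_51 + (5 / 2) * l51_166 + l6_12 + (-1 / 4) *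
      l1_12 + (-3 / 4) * l49_12 + l1_6 + (1 / 12) * l1_49 + l18_19 + l19_49 + 2 * l19_51 + (-1) *
      l19_20 + l3_18 + l20_18 + (-1) * l20_22 + (-1) * l22_23 + (-11 / 3) * l23_24 + (-17 / 3) *
      l24_126 + (-1) * l120_24 + l24_3 + (-2) * l166_23 + (2 / 3) * l23_51 + l0_6 + (17 / 3) * h1
      + (-9 / 2) * h3 + 2 * h5

theorem gateNo3 {P F : ℕ → ℂ} (h : ∀ e ∈ allE 3, Ed P F e) (e0 : Ed P F (160, 18, 126, 54))
    (hA : ∀ k < 6, St F k) (s120 : St F 120) (hB : ∀ k < 6, St F (46 + k)) (s166 : St F 166)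
    (s40 : St F 40) (s6 : St F 6) (hne : P 50 ≠ P 3) : GateOut 3 P F := by
  have e1_2 := (h (1, 17, 2, 55) (by decide)).pr
  have e2_3 := (h (2, 17, 3, 55) (by decide)).pr
  have e3_4 := (h (3, 17, 4, 55) (by decide)).pr
  have e4_5 := (h (4, 17, 5, 55) (by decide)).pr
  have e5_120 := (h (5, 17, 120, 55) (by decide)).pr
  have e46_47 := (h (46, 19, 47, 53) (by decide)).pr
  have e47_48 := (h (47, 19, 48, 53) (by decide)).pr
  have e48_49 := (h (48, 19, 49, 53) (by decide)).pr
  have e49_50 := (h (49, 19, 50, 53) (by decide)).pr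
  have e50_51 := (h (50, 19, 51, 53) (by decide)).pr
  have e51_166 := (h (51, 19, 166, 53) (by decide)).pr
  have e6_12 := (h (6, 18, 12, 54) (by decide)).pr
  have e40_12 := (h (40, 17, 12, 55) (by decide)).pr
  have e1_12 := (h (1, 66, 12, 30) (by decide)).pr
  have e49_12 := (h (49, 50, 12, 10) (by decide)).pr
  have e1_6 := (h (1, 60, 6, 24) (by decide)).pr
  have e12_46 := (h (12, 60, 46, 24) (by decide)).pr
  have e1_49 := (h (1, 0, 49, 48) (by decide)).pr
  have e1_13 := (h (1, 1, 13, 47) (by decide)).pr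
  have e13_49 := (h (13, 6, 49, 42) (by decide)).pr
  have e2_13 := (h (2, 62, 13, 46) (by decide)).pr
  have e2_14 := (h (2, 0, 14, 36) (by decide)).pr
  have e14_13 := (h (14, 63, 13, 45) (by decide)).pr
  have e14_15 := (h (14, 0, 15, 36) (by decide)).pr
  have e2_15 := (h (2, 1, 15, 35) (by decide)).pr
  have e13_16 := (h (13, 42, 16, 6) (by decide)).pr
  have e49_16 := (h (49, 39, 16, 9) (by decide)).pr
  have e16_15 := (h (16, 18, 15, 54) (by decide)).pr
  have e15_17 := (h (15, 18, 17, 54) (by decide)).pr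
  have e16_17 := (h (16, 17, 17, 55) (by decide)).pr
  have e17_18 := (h (17, 18, 18, 54) (by decide)).pr
  have e15_18 := (h (15, 19, 18, 53) (by decide)).pr
  have e18_49 := (h (18, 60, 49, 24) (by decide)).pr
  have e18_50 := (h (18, 0, 50, 36) (by decide)).pr
  have e3_18 := (h (3, 59, 18, 49) (by decide)).pr
  have e3_19 := (h (3, 68, 19, 40) (by decide)).pr
  have e19_50 := (h (19, 8, 50, 28) (by decide)).pr
  have e4_19 := (h (4, 57, 19, 39) (by decide)).pr
  have e4_20 := (h (4, 66, 20, 30) (by decide)).pr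
  have e20_19 := (h (20, 58, 19, 38) (by decide)).pr
  have e20_21 := (h (20, 66, 21, 30) (by decide)).pr
  have e4_21 := (h (4, 68, 21, 28) (by decide)).pr
  have e19_22 := (h (19, 36, 22, 0) (by decide)).pr
  have e50_22 := (h (50, 27, 22, 9) (by decide)).pr
  have e22_21 := (h (22, 18, 21, 54) (by decide)).pr
  have e21_23 := (h (21, 18, 23, 54) (by decide)).pr
  have e22_23 := (h (22, 17, 23, 55) (by decide)).pr
  have e23_24 := (h (23, 18, 24, 54) (by decide)).pr
  have e21_24 := (h (21, 19, 24, 53) (by decide)).pr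
  have e24_25 := (h (24, 18, 25, 54) (by decide)).pr
  have e23_25 := (h (23, 17, 25, 55) (by decide)).pr
  have e25_26 := (h (25, 18, 26, 54) (by decide)).pr
  have e24_26 := (h (24, 19, 26, 53) (by decide)).pr
  have e26_27 := (h (26, 18, 27, 54) (by decide)).pr
  have e25_27 := (h (25, 17, 27, 55) (by decide)).pr
  have e27_28 := (h (27, 18, 28, 54) (by decide)).pr
  have e26_28 := (h (26, 19, 28, 53) (by decide)).pr
  have e28_160 := (h (28, 18, 160, 54) (by decide)).pr
  have e27_160 := (h (27, 17, 160, 55) (by decide)).pr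
  have e28_126 := (h (28, 19, 126, 53) (by decide)).pr
  have e4_24 := (h (4, 70, 24, 38) (by decide)).pr
  have e4_29 := (h (4, 0, 29, 36) (by decide)).pr
  have e29_24 := (h (29, 0, 24, 36) (by decide)).pr
  have e29_5 := (h (29, 24, 5, 60) (by decide)).pr
  have e29_26 := (h (29, 6, 26, 42) (by decide)).pr
  have e5_26 := (h (5, 0, 26, 36) (by decide)).pr
  have e120_28 := (h (120, 60, 28, 24) (by decide)).pr
  have e28_5 := (h (28, 42, 5, 6) (by decide)).pr
  have e160_51 := (h (160, 60, 51, 24) (by decide)).pr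
  have e51_23 := (h (51, 42, 23, 6) (by decide)).pr
  have e23_50 := (h (23, 70, 50, 26) (by decide)).pr
  have e30_3 := (h (30, 39, 3, 65) (by decide)).pr
  have e30_19 := (h (30, 28, 19, 64) (by decide)).pr
  have e30_18 := (h (30, 10, 18, 46) (by decide)).pr
  have e30_50 := (h (30, 15, 50, 29) (by decide)).pr
  have e0_6 := (h (0, 0, 6, 36) (by decide)).pr
  have e40_46 := (h (40, 0, 46, 36) (by decide)).pr
  have e40_6 := (h (40, 18, 6, 54) (by decide)).pr
  have s0 : St F 0 := hA 0 (by decide)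
  have s1 : St F 1 := hA 1 (by decide)
  have s2 : St F 2 := hA 2 (by decide)
  have s3 : St F 3 := hA 3 (by decide)
  have s4 : St F 4 := hA 4 (by decide)
  have s5 : St F 5 := hA 5 (by decide)
  have s46 : St F 46 := hB 0 (by decide)
  have s47 : St F 47 := hB 1 (by decide)
  have s48 : St F 48 := hB 2 (by decide)
  have s49 : St F 49 := hB 3 (by decide)
  have s50 : St F 50 := hB 4 (by decide)
  have s51 : St F 51 := hB 5 (by decide)
  have s12 : St F 12 := cert 18 e40_12.symm e6_12.symm s40 s6 (e40_6.par s40 s6 18 (by decide))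
    e40_6.1 (by decide)
  have s13 : St F 13 := cert 6 e1_13.symm e13_49 s1 s49 (e1_49.par s1 s49 6 (by decide)) e1_49.1
    (by decide)
  have s14 : St F 14 := cert 0 e2_14.symm e14_13 s2 s13 (e2_13.par s2 s13 0 (by decide)) e2_13.1
    (by decide)
  have s15 : St F 15 := cert 0 e2_15.symm e14_15.symm s2 s14 (e2_14.par s2 s14 0 (by decide))
    e2_14.1 (by decide)
  have s16 : St F 16 := cert 6 e49_16.symm e13_16.symm s49 s13 (e13_49.symm.par s49 s13 6 (by
    decide)) e13_49.symm.1 (by decide)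
  have s17 : St F 17 := cert 18 e16_17.symm e15_17.symm s16 s15 (e16_15.par s16 s15 18 (by
    decide)) e16_15.1 (by decide)
  have s18 : St F 18 := cert 18 e15_18.symm e17_18.symm s15 s17 (e15_17.par s15 s17 18 (by
    decide)) e15_17.1 (by decide)
  have s19 : St F 19 := cert 0 e3_19.symm e19_50 s3 s50 ((e3_18.par s3 s18 0 (by decide)).trans
    (e18_50.par s18 s50 0 (by decide))) hne (by decide)
  have s20 : St F 20 := cert 30 e4_20.symm e20_19 s4 s19 (e4_19.par s4 s19 30 (by decide)) e4_19.1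
    (by decide)
  have s21 : St F 21 := cert 30 e4_21.symm e20_21.symm s4 s20 (e4_20.par s4 s20 30 (by decide))
    e4_20.1 (by decide)
  have s22 : St F 22 := cert 0 e50_22.symm e19_22.symm s50 s19 (e19_50.symm.par s50 s19 0 (by
    decide)) e19_50.symm.1 (by decide)
  have s23 : St F 23 := cert 18 e22_23.symm e21_23.symm s22 s21 (e22_21.par s22 s21 18 (by
    decide)) e22_21.1 (by decide)
  have s24 : St F 24 := cert 18 e21_24.symm e23_24.symm s21 s23 (e21_23.par s21 s23 18 (by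
    decide)) e21_23.1 (by decide)
  have s25 : St F 25 := cert 18 e23_25.symm e24_25.symm s23 s24 (e23_24.par s23 s24 18 (by
    decide)) e23_24.1 (by decide)
  have s26 : St F 26 := cert 18 e24_26.symm e25_26.symm s24 s25 (e24_25.par s24 s25 18 (by
    decide)) e24_25.1 (by decide)
  have s27 : St F 27 := cert 18 e25_27.symm e26_27.symm s25 s26 (e25_26.par s25 s26 18 (by
    decide)) e25_26.1 (by decide)
  have s28 : St F 28 := cert 18 e26_28.symm e27_28.symm s26 s27 (e26_27.par s26 s27 18 (by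
    decide)) e26_27.1 (by decide)
  have s160 : St F 160 := cert 18 e27_160.symm e28_160.symm s27 s28 (e27_28.par s27 s28 18 (by
    decide)) e27_28.1 (by decide)
  have s126 : St F 126 := cert 18 e28_126.symm e0.pr.symm s28 s160 (e28_160.par s28 s160 18 (by
    decide)) e28_160.1 (by decide)
  have s29 : St F 29 := cert 0 e4_29.symm e29_24 s4 s24 (e4_24.par s4 s24 0 (by decide)) e4_24.1
    (by decide)
  refine ⟨s160, s126, fun h1 h2 h3 h4 h5 => ?_⟩
  have l1_2 := e1_2.lin s1 s2 18 0 1 (by decide)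
  have l2_3 := e2_3.lin s2 s3 18 0 1 (by decide)
  have l3_4 := e3_4.lin s3 s4 18 0 1 (by decide)
  have l4_5 := e4_5.lin s4 s5 18 0 1 (by decide)
  have l5_120 := e5_120.lin s5 s120 18 0 1 (by decide)
  have l46_47 := e46_47.lin s46 s47 18 0 1 (by decide)
  have l47_48 := e47_48.lin s47 s48 18 0 1 (by decide)
  have l48_49 := e48_49.lin s48 s49 18 0 1 (by decide)
  have l49_50 := e49_50.lin s49 s50 18 0 1 (by decide)
  have l50_51 := e50_51.lin s50 s51 18 0 1 (by decide)
  have l51_166 := e51_166.lin s51 s166 18 0 1 (by decide)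
  have l6_12 := e6_12.lin s6 s12 18 0 1 (by decide)
  have l40_12 := e40_12.lin s40 s12 18 0 1 (by decide)
  have l1_12 := e1_12.lin s1 s12 30 (-3) 1 (by decide)
  have l49_12 := e49_12.lin s49 s12 12 1 1 (by decide)
  have l1_6 := e1_6.lin s1 s6 24 (-1) 1 (by decide)
  have l12_46 := e12_46.lin s12 s46 24 (-1) 1 (by decide)
  have l1_49 := e1_49.lin s1 s49 6 3 1 (by decide)
  have l18_49 := e18_49.lin s18 s49 24 (-1) 1 (by decide)
  have l18_50 := e18_50.lin s18 s50 0 1 0 (by decide)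
  have l3_18 := e3_18.lin s3 s18 0 1 0 (by decide)
  have l3_19 := e3_19.lin s3 s19 0 1 0 (by decide)
  have l4_19 := e4_19.lin s4 s19 30 (-3) 1 (by decide)
  have l23_24 := e23_24.lin s23 s24 18 0 1 (by decide)
  have l24_25 := e24_25.lin s24 s25 18 0 1 (by decide)
  have l25_26 := e25_26.lin s25 s26 18 0 1 (by decide)
  have l26_27 := e26_27.lin s26 s27 18 0 1 (by decide)
  have l27_28 := e27_28.lin s27 s28 18 0 1 (by decide)
  have l28_160 := e28_160.lin s28 s160 18 0 1 (by decide)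
  have l28_126 := e28_126.lin s28 s126 18 0 1 (by decide)
  have l4_29 := e4_29.lin s4 s29 0 1 0 (by decide)
  have l29_5 := e29_5.lin s29 s5 24 (-1) 1 (by decide)
  have l29_26 := e29_26.lin s29 s26 6 3 1 (by decide)
  have l5_26 := e5_26.lin s5 s26 0 1 0 (by decide)
  have l120_28 := e120_28.lin s120 s28 24 (-1) 1 (by decide)
  have l28_5 := e28_5.lin s28 s5 6 3 1 (by decide)
  have l160_51 := e160_51.lin s160 s51 24 (-1) 1 (by decide)
  have l51_23 := e51_23.lin s51 s23 6 3 1 (by decide)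
  have l23_50 := e23_50.lin s23 s50 30 (-3) 1 (by decide)
  have l0_6 := e0_6.lin s0 s6 0 1 0 (by decide)
  have l40_46 := e40_46.lin s40 s46 0 1 0 (by decide)
  have k2 : (P 3).re = (P 120).re := by
    linear_combination (-1) * l3_4 + (-1) * l4_5 + (-1) * l5_120
  have k3 : (P 50).re = (P 120).re + 6 := by
    linear_combination (-1) * l50_51 + (-1) * l51_166 + h3
  have k4 : (P 19).re = (P 120).re + 3 * cy (P 120) - 3 * cy (P 160) + 3 / 4 := by
    linear_combination (-1) * l4_5 + (-11 / 4) * l5_120 + (-1) * l50_51 + (-5) * l51_166 + (-3) *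
      l18_50 + (-3) * l3_18 + 3 * l3_19 + l4_19 + 2 * l23_24 + 2 * l24_25 + 2 * l25_26 + (11 / 4)
      * l26_27 + (11 / 4) * l27_28 + (-3) * l28_160 + (39 / 4) * l28_126 + 3 * l4_29 + (-3 / 4) *
      l29_5 + (3 / 4) * l29_26 + (-9 / 4) * l5_26 + 3 * l120_28 + (-1) * l28_5 + (-3) * l160_51 +
      l51_23 + (-1) * l23_50 + (-39 / 4) * h1 + 5 * h3
  have k5 : (P 18).re = (P 120).re + cy (P 0) - cy (P 160) + 16 := by
    linear_combination (5 / 6) * l1_2 + (5 / 6) * l2_3 + (5 / 6) * l3_4 + (5 / 6) * l4_5 + (5 / 6)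
      * l5_120 + (-11 / 6) * l49_50 + (-13 / 6) * l50_51 + (-7 / 2) * l51_166 + (-1) * l6_12 + (1
      / 4) * l1_12 + (3 / 4) * l49_12 + (-1) * l1_6 + (-1 / 12) * l1_49 + (-1) * l18_49 + (-1) *
      l18_50 + (2 / 3) * l23_24 + (2 / 3) * l24_25 + (2 / 3) * l25_26 + (2 / 3) * l26_27 + (2 / 3)
      * l27_28 + (-1) * l28_160 + (5 / 3) * l28_126 + (-1) * l160_51 + (1 / 3) * l51_23 + (-1 / 3)
      * l23_50 + (-1) * l0_6 + (-5 / 3) * h1 + (7 / 2) * h3
  have k6 : cy (P 19) = cy (P 3) := by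
    linear_combination (-1) * l3_19
  have k7 : cy (P 18) = cy (P 3) := by
    linear_combination (-1) * l3_18
  have k8 : cy (P 50) = cy (P 3) := by
    linear_combination (-1) * l18_50 + (-1) * l3_18
  have w := wheel e30_3 e30_19 e30_18 e30_50 s3 s19 s18 s50 k6 k7 k8
  rw [k2, k3, k4, k5] at w
  refine ⟨?_, ?_, fun y => Or.inr (Or.inr (Or.inr ⟨rfl, ?_⟩))⟩
  · linear_combination (-1 / 2) * l1_2 + (-1 / 2) * l2_3 + (-1 / 2) * l3_4 + (-1 / 2) * l4_5 + (-1
      / 2) * l5_120 + (-1 / 2) * l49_50 + (-1 / 2) * l50_51 + (-1 / 2) * l51_166 + (-1) * l40_12 +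
      (1 / 4) * l1_12 + (3 / 4) * l49_12 + (1 / 4) * l1_49 + (1 / 2) * h3
  · linear_combination (-1 / 6) * l1_2 + (-1 / 6) * l2_3 + (-1 / 6) * l3_4 + (-1 / 6) * l4_5 + (-1
      / 6) * l5_120 + l46_47 + l47_48 + l48_49 + (1 / 6) * l49_50 + (1 / 6) * l50_51 + (1 / 6) *
      l51_166 + (-1) * l6_12 + (3 / 4) * l1_12 + (5 / 4) * l49_12 + (-1) * l1_6 + l12_46 + (5 /
      12) * l1_49 + (-1) * l0_6 + l40_46 + (-1 / 6) * h3
  · linear_combination (2 / 3) * w

theorem gate_no {g : ℕ} (hg : g < 4) {P F : ℕ → ℂ} (h : ∀ e ∈ allE g, Ed P F e)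
    (e0 : Ed P F (160, 18, 126, 54)) (hA : ∀ k < 6, St F k) (s120 : St F 120)
    (hB : ∀ k < 6, St F (46 + k)) (s166 : St F 166) (s40 : St F 40) (s6 : St F 6)
    (hne : g = 3 → P 50 ≠ P 3) : GateOut g P F := by
  interval_cases g
  · exact gateNo0 h e0 hA s120 hB s166 s40 s6
  · exact gateNo1 h e0 hA s120 hB s166 s40 s6
  · exact gateNo2 h e0 hA s120 hB s166 s40 s6
  · exact gateNo3 h e0 hA s120 hB s166 s40 s6 (hne rfl)

theorem idle_no {g : ℕ} (hg : g = 4 ∨ g = 5) {P F : ℕ → ℂ} (h : ∀ e ∈ allE g, Ed P F e)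
    (hA : ∀ k < 6, St F k ∧ (P k).re = (P 120).re) (s120 : St F 120)
    (hB : ∀ k < 6, St F (6 + k) ∧ (P (6 + k)).re = (P 120).re + 3) :
    cy (P 0) = cy (P 120) - 16 + g := by
  obtain ⟨s0, x0⟩ := hA 0 (by decide)
  obtain ⟨s1, x1⟩ := hA 1 (by decide)
  obtain ⟨s3, x3⟩ := hA 3 (by decide)
  obtain ⟨s6, x6⟩ : St F 6 ∧ (P 6).re = _ := hB 0 (by decide)
  obtain ⟨s7, x7⟩ : St F 7 ∧ (P 7).re = _ := hB 1 (by decide)
  obtain ⟨s11, x11⟩ : St F 11 ∧ (P 11).re = _ := hB 5 (by decide)
  have l1 := (h (120, 60, 11, 24) (by rcases hg with rfl | rfl <;> decide)).pr.lin s120 s11 24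
    (-1) 1 (by decide)
  have l2 := (h (11, 48, 3, 12) (by rcases hg with rfl | rfl <;> decide)).pr.lin s11 s3 12
    1 1 (by decide)
  have l3 := (h (3, 60, 7, 24) (by rcases hg with rfl | rfl <;> decide)).pr.lin s3 s7 24
    (-1) 1 (by decide)
  rcases hg with rfl | rfl
  · have l4 := (h (7, 48, 0, 12) (by decide)).pr.lin s7 s0 12 1 1 (by decide)
    push_cast at *
    linarith
  · have l4 := (h (7, 42, 1, 6) (by decide)).pr.lin s7 s1 6 3 1 (by decide)
    have l5 := (h (1, 66, 6, 30) (by decide)).pr.lin s1 s6 30 (-3) 1 (by decide)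
    have l6 := (h (0, 0, 6, 36) (by decide)).pr.lin s0 s6 0 1 0 (by decide)
    push_cast at *
    linarith

end Pool.Agent.Lib.MP_242159_lc
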