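import Pool.Agent.Lib.MP_242159_lc.NoB

/-!
A drawing of the graph of a machine gives an accepting run.
-/

set_option autoImplicit false

namespace Pool.Agent.Lib.MP_242159_lc

open Complex

theorem rail_abs {P F : ℕ → ℂ} {a b : ℕ → ℕ}
    (h : ∀ k < 6, Pr P F (a k) 17 (a (k + 1)) 55 ∧ Pr P F (b k) 19 (b (k + 1)) 53 ∧
      Pr P F (b k) 18 (a (k + 1)) 54) (h' : ∀ k ≤ 6, Pr P F (a k) 18 (b k) 54)
    (ha : St F (a 0)) (hb : St F (b 0)) : ∀ k ≤ 6, St F (a k) ∧ St F (b k) ∧
      (P (a k)).re = (P (a 0)).re ∧ (P (b k)).re = (P (a 0)).re := by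
  intro k
  induction k with
  | zero =>
    have := (h' 0 (by omega)).lin ha hb 18 0 1 (by decide)
    exact fun _ => ⟨ha, hb, rfl, by linear_combination this⟩
  | succ k ih =>
    intro hk
    obtain ⟨sa, sb, xa, -⟩ := ih (by omega)
    obtain ⟨e1, e2, e3⟩ := h k (by omega)
    have e4 := h' k (by omega)
    have e5 := h' (k + 1) hk
    have s1 := cert 18 e1.symm e3.symm sa sb (e4.par sa sb 18 (by decide)) e4.1 (by decide)
    have s2 := cert 18 e2.symm e5.symm sb s1 (e3.par sb s1 18 (by decide)) e3.1 (by decide)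
    have l1 := e1.lin sa s1 18 0 1 (by decide)
    have l2 := e5.lin s1 s2 18 0 1 (by decide)
    exact ⟨s1, s2, by linear_combination l1 + xa, by linear_combination l1 + l2 + xa⟩

/-- The code of the slot number `k` on the left rail. -/
def ac (k : ℕ) : ℕ := 120 * (k / 6) + k % 6

/-- The edge belongs to the tile. -/
def inT (g : ℕ) (e : Edge) : Prop := e ∈ allE g

instance (g : ℕ) (e : Edge) : Decidable (inT g e) := inferInstanceAs (Decidable (e ∈ allE g))

theorem tabA : ∀ g < 8, g ≠ 6 → ∀ k < 6, inT g (ac k, 17, ac (k + 1), 55) := by decide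

theorem tabB : ∀ g < 7, ∀ k < 6,
    inT g (ac k + 40 * (wid g - 1) + 6, 19, ac (k + 1) + 40 * (wid g - 1) + 6, 53) ∧
    inT g (ac k + 40 * (wid g - 1) + 6, 18, ac (k + 1) + 40 * wid g, 54) ∧
    inT g (ac k + 40 * wid g, 18, ac k + 40 * (wid g - 1) + 6, 54) := by decide

theorem tabT : ∀ g < 12, g ≠ 7 → g ≠ 8 → inT g (40, 18, 6, 54) := by decide

theorem tabR : ∀ g < 11, g ≠ 6 → g ≠ 7 → g ≠ 8 → inT g (0, 0, 6, 36) := by decide

theorem tabG : ∀ g < 4, inT g (80, 18, 46, 54) ∧ inT g (40, 0, 46, 36) := by decide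

theorem tabC1 : ∀ g < 12, 9 ≤ g → inT g (6, 18, 41, 54) ∧ inT g (41, 18, 42, 54) ∧
    inT g (7, 66, 42, 30) ∧ inT g (7, 67, 47, 29) := by decide

theorem tabC2 : ∀ g < 13, 9 ≤ g → g ≠ 11 → inT g (0, 17, 1, 55) ∧ inT g (2, 66, 7, 30) := by
  decide

theorem tabC3 : ∀ g < 11, 9 ≤ g → inT g (1, 66, 41, 30) ∧ inT g (1, 6, 42, 42) ∧
    inT g (2, 65, 42, 31) := by decide

/-- The picture after the inversion: all tile edges are arcs and the seeds are straight. -/
structure Pic (m c r : ℕ) (prog : List (ℕ × ℕ)) (P F : ℕ → ℂ) : Prop where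
  wf : WFM m r prog
  ed : ∀ j ≤ prog.length + 1, ∀ i ≤ m + 1, ∀ e ∈ allE (ty m c r prog j i),
    Ed (fun x => P (gl m j i x)) (fun x => F (gl m j i x)) e
  ne : ∀ j ≤ prog.length + 1, ∀ i ≤ m + 1, ty m c r prog j i = 3 →
    P (gl m j i 50) ≠ P (gl m j i 3)
  seed : ∀ s ∈ seeds m (prog.length + 1), St F s.1

variable {m c r : ℕ} {prog : List (ℕ × ℕ)} {P F : ℕ → ℂ}

theorem skip_left (W : WFM m r prog) {j i : ℕ} (hj : j ≤ prog.length + 1)
    (h : ty m c r prog j i = 8) : ∃ k, i = k + 1 ∧ ty m c r prog j k < 4 := by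
  have h1 := (ty_ok (c := c) W hj i).left
  obtain ⟨k, rfl⟩ : ∃ k, i = k + 1 := ⟨i - 1, by omega⟩
  exact ⟨k, rfl, (ty_ok W hj k).skip.1 h⟩

namespace Pic

variable (H : Pic m c r prog P F)
include H

theorem ed' {j i : ℕ} (hj : j ≤ prog.length + 1) (hi : i ≤ m + 1) {u du v dv : ℕ}
    (he : inT (ty m c r prog j i) (u, du, v, dv)) : Ed P F (gl m j i u, du, gl m j i v, dv) := by
  have := H.ed j hj i hi _ he
  unfold Ed at this ⊢
  exact this

theorem step {j i : ℕ} (hj : j ≤ prog.length + 1) (hi : i ≤ m) :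
    Ed P F (nm m j (i + 1) 0, 18, nm m j i 6, 54) := by
  have t := ty_ok (c := c) H.wf hj i
  by_cases h : ty m c r prog j i = 8
  · obtain ⟨k, rfl, hk⟩ := skip_left H.wf hj h
    exact (H.ed' hj (by omega) (tabG _ hk).1 :)
  · exact (H.ed' hj (by omega) (tabT _ (by have := t.lt; have := t.right; omega)
      (by have := t.right; omega) h) :)

theorem rung {j i : ℕ} (hj : j ≤ prog.length + 1) (hi : i < m) :
    Ed P F (nm m j (i + 1) 0, 0, nm m j (i + 1) 6, 36) := by
  have t := ty_ok (c := c) H.wf hj (i + 1)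
  have t1 := t.lt
  have t2 := t.left
  have t3 := t.right
  by_cases h : ty m c r prog j (i + 1) = 8
  · exact (H.ed' hj (by omega) (tabG _ ((ty_ok H.wf hj i).skip.1 h)).2 :)
  · exact (H.ed' hj (by omega) (tabR _ (by omega) (by omega) (by omega) h) :)

/-- The bottom vertices of row `j` are straight. -/
def Inv (m : ℕ) (F : ℕ → ℂ) (j : ℕ) : Prop :=
  ∀ i ≤ m, St F (nm m j (i + 1) 0) ∧ St F (nm m j i 6)

theorem rail {j i : ℕ} (hj : j ≤ prog.length) (I : Inv m F j) (hi : i ≤ m)
    (hn : ty m c r prog j (i + 1) ≠ 8) : ∀ k ≤ 6, St F (nm m (j + k / 6) (i + 1) (k % 6)) ∧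
      St F (nm m (j + k / 6) i (6 + k % 6)) ∧
      (P (nm m (j + k / 6) (i + 1) (k % 6))).re = (P (nm m j (i + 1) 0)).re ∧
      (P (nm m (j + k / 6) i (6 + k % 6))).re = (P (nm m j (i + 1) 0)).re := by
  have hj' : j ≤ prog.length + 1 := by omega
  obtain ⟨i', hi', g1, g2⟩ : ∃ i' ≤ i, ty m c r prog j i' < 7 ∧
      i' + wid (ty m c r prog j i') = i + 1 := by
    have t := ty_ok (c := c) H.wf hj' i
    by_cases h : ty m c r prog j i = 8
    · obtain ⟨k, rfl, hk⟩ := skip_left H.wf hj' h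
      exact ⟨k, by omega, by omega, by rw [wid, if_pos hk]⟩
    · have := t.cap
      have := t.right
      have := t.skip
      exact ⟨i, le_rfl, by omega, by rw [wid, if_neg (by omega)]⟩
  have w1 : 1 ≤ wid (ty m c r prog j i') ∧ wid (ty m c r prog j i') ≤ 2 := by
    unfold wid; split_ifs <;> omega
  have eA : ∀ k ≤ 6, gl m j (i + 1) (ac k) = nm m (j + k / 6) (i + 1) (k % 6) := fun k hk =>
    gl_eq (by unfold ac; omega) (by unfold ac; omega) (by unfold ac; omega)
  have eA' : ∀ k ≤ 6, gl m j i' (ac k + 40 * wid (ty m c r prog j i')) =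
      nm m (j + k / 6) (i + 1) (k % 6) := fun k hk =>
    gl_eq (by unfold ac; omega) (by unfold ac; omega) (by unfold ac; omega)
  have eB : ∀ k ≤ 6, gl m j i' (ac k + 40 * (wid (ty m c r prog j i') - 1) + 6) =
      nm m (j + k / 6) i (6 + k % 6) := fun k hk =>
    gl_eq (by unfold ac; omega) (by unfold ac; omega) (by unfold ac; omega)
  have t := ty_ok (c := c) H.wf hj' (i + 1)
  have t1 := t.cap
  have t2 := t.left
  refine rail_abs (a := fun k => nm m (j + k / 6) (i + 1) (k % 6))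
    (b := fun k => nm m (j + k / 6) i (6 + k % 6)) (fun k hk => ?_) (fun k hk => ?_) (I i hi).1
    (I i hi).2
  · have e1 := (H.ed' hj' (by omega) (tabA (ty m c r prog j (i + 1)) (by omega) (by omega) k hk)).pr
    have e2 := (H.ed' hj' (by omega) (tabB _ g1 k hk).1).pr
    have e3 := (H.ed' hj' (by omega) (tabB _ g1 k hk).2.1).pr
    rw [eA _ (by omega), eA _ (by omega)] at e1
    rw [eB _ (by omega), eB _ (by omega)] at e2
    rw [eB _ (by omega), eA' _ (by omega)] at e3
    exact ⟨e1, e2, e3⟩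
  · rcases hk.lt_or_eq with hk | rfl
    · have e3 := (H.ed' hj' (by omega) (tabB _ g1 k hk).2.2).pr
      rwa [eB _ (by omega), eA' _ (by omega)] at e3
    · exact (H.step (j := j + 1) (by omega) hi).pr

theorem gate {j i : ℕ} (hj : j ≤ prog.length) (I : Inv m F j) (hg : ty m c r prog j i < 4) :
    GateOut (ty m c r prog j i) (fun x => P (gl m j i x)) (fun x => F (gl m j i x)) := by
  have hj' : j ≤ prog.length + 1 := by omega
  have t := ty_ok (c := c) H.wf hj' i
  have t1 := t.left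
  have t2 := t.gate hg
  have t3 := t.skip
  have t4 := (ty_ok (c := c) H.wf hj' (i + 1)).skip
  obtain ⟨i, rfl⟩ : ∃ k, i = k + 1 := ⟨i - 1, by omega⟩
  have r1 := H.rail hj I (i := i) (by omega) (by omega)
  have r2 := H.rail hj I (i := i + 1 + 1) (by omega) (by omega)
  refine gate_no hg (H.ed j hj' _ (by omega)) (H.step (j := j + 1) (by omega) (by omega))
    (fun k hk => ?_) (r1 6 le_rfl).1 (fun k hk => ?_) (r2 6 le_rfl).2.1 (I _ (by omega)).1
    (I _ (by omega)).2 (H.ne j hj' _ (by omega))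
  · have := (r1 k hk.le).1
    rwa [← gl_eq (j := j) (i := i + 1) (x := k) (by omega) (by omega) (by omega)] at this
  · have := (r2 k hk.le).2.1
    rwa [← gl_eq (j := j) (i := i + 1) (x := 46 + k) (by omega) (by omega) (by omega)] at this

theorem inv : ∀ j ≤ prog.length + 1, Inv m F j := by
  intro j
  induction j with
  | zero =>
    exact fun _ i hi => ⟨H.seed _ (mem_seeds.2 (Or.inr (Or.inr ⟨i, hi, Or.inr rfl⟩))),
      H.seed _ (mem_seeds.2 (Or.inr (Or.inr ⟨i, hi, Or.inl rfl⟩)))⟩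
  | succ j ih =>
    intro hj i hi
    have I := ih (by omega)
    by_cases h : ty m c r prog j (i + 1) = 8
    · have := H.gate (by omega) I ((ty_ok H.wf (by omega) i).skip.1 h)
      exact ⟨this.1, this.2.1⟩
    · have := H.rail (by omega) I hi h 6 le_rfl
      exact ⟨this.1, this.2.1⟩

theorem capL {i : ℕ} (hi : i ≤ m) : ty m c r prog (prog.length + 1) i < 12 ∧
    9 ≤ ty m c r prog (prog.length + 1) i := by
  have t := ty_ok (c := c) H.wf le_rfl i
  have t1 := t.lt
  have t2 := t.cap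
  have t3 := t.right
  omega

theorem capR (i : ℕ) : ty m c r prog (prog.length + 1) (i + 1) < 13 ∧
    9 ≤ ty m c r prog (prog.length + 1) (i + 1) ∧ ty m c r prog (prog.length + 1) (i + 1) ≠ 11 := by
  have t := ty_ok (c := c) H.wf le_rfl (i + 1)
  have t1 := t.lt
  have t2 := t.cap
  have t3 := t.left
  omega

theorem tau {i : ℕ} (hi : i ≤ m) : St F (nm m (prog.length + 1) (i + 1) 1) ∧
    (P (nm m (prog.length + 1) (i + 1) 1)).re = (P (nm m (prog.length + 1) (i + 1) 0)).re := by
  obtain ⟨s1, s2⟩ := H.inv _ le_rfl i hi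
  have e1 := (H.ed' le_rfl (by omega) (tabC2 _ (H.capR i).1 (H.capR i).2.1 (H.capR i).2.2).1).pr
  have e2 := (H.ed' le_rfl (by omega) (tabC1 _ (H.capL hi).1 (H.capL hi).2).1).pr
  have e3 := (H.step le_rfl hi).pr
  have s := cert 18 e1.symm e2.symm s1 s2 (e3.par s1 s2 18 (by decide)) e3.1 (by decide)
  have l : ((1 : ℤ) : ℝ) * ((P (nm m (prog.length + 1) (i + 1) 1)).re -
    (P (nm m (prog.length + 1) (i + 1) 0)).re) = _ := e1.lin s1 s 18 0 1 (by decide)
  exact ⟨s, by linear_combination l⟩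

theorem strip : ∀ i ≤ m, St F (nm m (prog.length + 1) i 7) ∧
    St F (nm m (prog.length + 1) (i + 1) 2) := by
  intro i
  induction i with
  | zero =>
    exact fun _ => ⟨H.seed _ (mem_seeds.2 (Or.inl rfl)), H.seed _ (mem_seeds.2 (Or.inr (Or.inl rfl)))⟩
  | succ i ih =>
    intro hi
    have hi' : i ≤ m := by omega
    obtain ⟨s1, s2⟩ := ih hi'
    have a1 := tabC1 _ (H.capL hi').1 (H.capL hi').2
    have a2 := H.capR i
    have a3 := H.capL hi
    have e1 := (H.ed' le_rfl (by omega) a1.2.2.1).pr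
    have e2 := (H.ed' le_rfl (by omega) a1.2.2.2).pr
    have e3 := (H.ed' le_rfl (by omega) (tabC2 _ a2.1 a2.2.1 a2.2.2).2).pr
    have e4 := (H.ed' le_rfl (by omega) (tabC1 _ a3.1 a3.2).2.2.1).pr
    have e5 := (H.ed' le_rfl (by omega)
      (tabC3 (ty m c r prog (prog.length + 1) (i + 1)) (by omega) a3.2).2.2).pr
    have s3 := cert 30 e2.symm e3.symm s1 s2 (e1.par s1 s2 30 (by decide)) e1.1 (by decide)
    exact ⟨s3, cert 30 e5.symm e4.symm s2 s3 (e3.par s2 s3 30 (by decide)) e3.1 (by decide)⟩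

theorem capUp {i : ℕ} (hi : i ≤ m) :
    (P (nm m (prog.length + 1) (i + 1) 2)).re = (P (nm m (prog.length + 1) (i + 1) 1)).re ∧
      cy (P (nm m (prog.length + 1) (i + 1) 1)) < cy (P (nm m (prog.length + 1) (i + 1) 2)) :=
  (H.ed' le_rfl (by omega) (tabC1 _ (H.capL hi).1 (H.capL hi).2).2.1).up (H.tau hi).1
    (H.strip i hi).2

theorem capG {x y : ℝ} (hx : (P (nm m (prog.length + 1) 1 1)).re = x + 3)
    (hy : cy (P (nm m (prog.length + 1) 1 1)) = y - 1)
    (hG : cy (P (nm m (prog.length + 1) 1 2)) = y + 1) : ∀ i ≤ m,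
    (P (nm m (prog.length + 1) (i + 1) 1)).re = x + 3 * (i + 1) ∧
      cy (P (nm m (prog.length + 1) (i + 1) 1)) = y - (i + 1) ∧
      cy (P (nm m (prog.length + 1) (i + 1) 2)) = y - (i + 1) + 2 := by
  intro i
  induction i with
  | zero => exact fun _ => ⟨by simpa using hx, by simpa using hy, by simp [hG]; ring⟩
  | succ i ih =>
    intro hi
    have hi' : i ≤ m := by omega
    obtain ⟨k1, k2, k3⟩ := ih hi'
    have a2 := H.capR i
    have a3 := H.capL hi
    have a4 := tabC3 (ty m c r prog (prog.length + 1) (i + 1)) (by omega) a3.2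
    have l1 := (H.ed' le_rfl (by omega) a4.1).pr.lin (H.tau hi').1 (H.tau hi).1 30 (-3) 1
      (by decide)
    have l2 := (H.ed' le_rfl (by omega) a4.2.1).pr.lin (H.tau hi').1 (H.strip _ hi).2 6 3 1
      (by decide)
    have l3 := (H.ed' le_rfl (by omega) a4.2.2).pr.lin (H.strip _ hi').2 (H.strip _ hi).2 30 (-3) 1
      (by decide)
    have u1 := (H.capUp hi').1
    have u2 := (H.capUp hi).1
    have e1 : gl m (prog.length + 1) (i + 1) 1 = nm m (prog.length + 1) (i + 1) 1 := rfl
    have e2 : gl m (prog.length + 1) (i + 1) 2 = nm m (prog.length + 1) (i + 1) 2 := rfl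
    have e3 : gl m (prog.length + 1) (i + 1) 41 = nm m (prog.length + 1) (i + 1 + 1) 1 := rfl
    have e4 : gl m (prog.length + 1) (i + 1) 42 = nm m (prog.length + 1) (i + 1 + 1) 2 := rfl
    simp only [e1, e2, e3, e4] at l1 l2 l3
    push_cast at l1 l2 l3 ⊢
    refine ⟨?_, ?_, ?_⟩ <;> linarith

theorem stepX {j i : ℕ} (hj : j ≤ prog.length + 1) (hi : i ≤ m) :
    (P (nm m j i 6)).re = (P (nm m j (i + 1) 0)).re ∧
      cy (P (nm m j (i + 1) 0)) < cy (P (nm m j i 6)) :=
  (H.step hj hi).up (H.inv j hj i hi).1 (H.inv j hj i hi).2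

theorem rungY {j i : ℕ} (hj : j ≤ prog.length + 1) (hi : i < m) :
    cy (P (nm m j (i + 1) 6)) = cy (P (nm m j (i + 1) 0)) := by
  linear_combination -(H.rung hj hi).pr.lin (H.inv j hj i hi.le).1 (H.inv j hj _ hi).2 0 1 0
    (by decide)

/-- The rails are where they should be in row `j`. -/
def Col (m : ℕ) (P : ℕ → ℂ) (x : ℝ) (j : ℕ) : Prop :=
  ∀ i ≤ m, (P (nm m j (i + 1) 0)).re = x + 3 * (i + 1)

theorem gate' {j i : ℕ} {x : ℝ} (hj : j ≤ prog.length) (C : Col m P x (j + 1))
    (hg : ty m c r prog j (i + 1) < 4) :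
    (P (nm m j (i + 1 + 1) 0)).re = x + 3 * (i + 1 + 1) ∧
      cy (P (nm m j (i + 1 + 1) 0)) = cy (P (nm m j (i + 1) 0)) - 1 ∧
      ∀ y : ℝ, Gate (ty m c r prog j (i + 1)) (cy (P (nm m (j + 1) (i + 1) 0)) - 12 - y)
        (cy (P (nm m (j + 1) (i + 1 + 1) 0)) - 11 - y) (cy (P (nm m j (i + 1) 0)) - y) := by
  have t := (ty_ok (c := c) H.wf (j := j) (by omega) (i + 1)).gate hg
  have c1 := C i (by omega)
  have c2 := C (i + 1) (by omega)
  have c3 := C (i + 1 + 1) t
  have c4 := (H.stepX (j := j + 1) (i := i + 1) (by omega) (by omega)).1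
  have c5 := (H.stepX (j := j + 1) (i := i + 1 + 1) (by omega) t).1
  push_cast at c2 c3
  obtain ⟨k1, k2⟩ := (H.gate hj (H.inv j (by omega)) hg).2.2 (c4.trans (c2.trans (by
    change _ = (P (nm m (j + 1) (i + 1) 0)).re + 3; linarith))) (c2.trans (by
    change _ = (P (nm m (j + 1) (i + 1) 0)).re + 3; linarith)) (c5.trans (c3.trans (by
    change _ = (P (nm m (j + 1) (i + 1) 0)).re + 6; linarith)))
    (H.rungY (j := j + 1) (by omega) (by omega)) (H.rungY (j := j + 1) (by omega) (by omega))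
  exact ⟨k1.trans (by change (P (nm m (j + 1) (i + 1) 0)).re + 3 = _; linarith), k2⟩

theorem col_pred {j : ℕ} {x : ℝ} (hj : j ≤ prog.length) (C : Col m P x (j + 1)) : Col m P x j := by
  intro i hi
  by_cases h : ty m c r prog j (i + 1) = 8
  · have t := ty_ok (c := c) H.wf (j := j) (by omega) i
    have t1 := t.skip.1 h
    have t2 := t.left
    obtain ⟨i, rfl⟩ : ∃ k, i = k + 1 := ⟨i - 1, by omega⟩
    push_cast
    exact (H.gate' hj C t1).1
  · exact (H.rail hj (H.inv j (by omega)) hi h 6 le_rfl).2.2.1.symm.trans (C i hi)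

theorem idle {j i : ℕ} {x : ℝ} (hj : j ≤ prog.length) (C : Col m P x (j + 1)) (hi : i < m)
    (hg : ty m c r prog j (i + 1) = 4 ∨ ty m c r prog j (i + 1) = 5) :
    cy (P (nm m j (i + 1) 0)) =
      cy (P (nm m (j + 1) (i + 1) 0)) - 16 + ty m c r prog j (i + 1) := by
  have t := (ty_ok (c := c) H.wf (j := j) (by omega) (i + 1)).skip
  have I := H.inv j (by omega)
  have r1 := H.rail hj I (i := i) (by omega) (by omega)
  have r2 := H.rail hj I (i := i + 1) (by omega) (by omega)
  have c1 := C i hi.le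
  have c2 := H.col_pred hj C (i + 1) hi
  refine idle_no hg (H.ed j (by omega) _ (by omega)) (fun k hk => ?_) (r1 6 le_rfl).1
    (fun k hk => ?_)
  · have := r1 k hk.le
    rw [← gl_eq (j := j) (i := i + 1) (x := k) (by omega) (by omega) (by omega)] at this
    exact ⟨this.1, this.2.2.1.trans (r1 6 le_rfl).2.2.1.symm⟩
  · have := r2 k hk.le
    rw [← gl_eq (j := j) (i := i + 1) (x := 6 + k) (k := 6 + k % 6) (by omega) (by omega)
      (by omega)] at this
    refine ⟨this.2.1, this.2.2.2.trans (c2.trans ?_)⟩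
    change _ = (P (nm m (j + 1) (i + 1) 0)).re + 3
    push_cast
    linarith

theorem run (hG : cy (P (nm m (prog.length + 1) 1 2)) = cy (P (nm m (prog.length + 1) 1 1)) + 2) :
    ∃ st, Run c r prog st := by
  obtain ⟨x, hx⟩ : ∃ x, (P (nm m (prog.length + 1) 1 1)).re = x + 3 := ⟨_ - 3, by ring⟩
  obtain ⟨y, hy⟩ : ∃ y, cy (P (nm m (prog.length + 1) 1 1)) = y - 1 := ⟨_ + 1, by ring⟩
  have G := H.capG hx hy (by linarith)
  have C : ∀ n ≤ prog.length + 1, Col m P x (prog.length + 1 - n) := by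
    intro n
    induction n with
    | zero => exact fun _ i hi => (H.tau hi).2.symm.trans (G i hi).1
    | succ n ih =>
      intro hn
      have := ih (by omega)
      rw [show prog.length + 1 - n = prog.length + 1 - (n + 1) + 1 by omega] at this
      exact H.col_pred (by omega) this
  have C' : ∀ j ≤ prog.length + 1, Col m P x j := fun j hj => by
    have := C (prog.length + 1 - j) (by omega)
    rwa [show prog.length + 1 - (prog.length + 1 - j) = j by omega] at this
  have W := H.wf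
  refine ⟨fun n k => if k < m then
    cy (P (nm m (prog.length + 1 - n) (k + 1) 0)) + 12 * n + (k + 1) + 3 - y else 0,
    fun i hi => ?_, fun n hn => ?_, ?_⟩
  · simp only
    split_ifs with h
    · have t : ty m c r prog (prog.length + 1) (i + 1) = 9 := by
        unfold ty
        rw [if_pos rfl, if_neg (by omega), if_neg (by omega), if_pos (by omega)]
      have l := (H.ed' le_rfl (by omega) (show inT _ (1, 60, 6, 24) by rw [t]; decide)).pr.lin
        (H.tau h.le).1 (H.inv _ le_rfl _ h).2 24 (-1) 1 (by decide)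
      have e1 : gl m (prog.length + 1) (i + 1) 1 = nm m (prog.length + 1) (i + 1) 1 := rfl
      have e2 : gl m (prog.length + 1) (i + 1) 6 = nm m (prog.length + 1) (i + 1) 6 := rfl
      have k1 := G i h.le
      have k2 := (H.stepX le_rfl (i := i + 1) h).1
      have k3 := C' _ le_rfl (i + 1) h
      have k4 := H.rungY le_rfl h
      simp only [e1, e2] at l
      simp only [Nat.sub_zero]
      push_cast at l k3 ⊢
      linarith
    · rfl
  · obtain ⟨j, hj⟩ : ∃ j, j + n = prog.length := ⟨prog.length - n, by omega⟩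
    have e1 : prog.length + 1 - n = j + 1 := by omega
    have e2 : prog.length + 1 - (n + 1) = j := by omega
    have e3 : prog.length - j = n := by omega
    have w := prog_wf W (j := j) (by omega) (by omega)
    have t1 : ∀ k < m, ty m c r prog j (k + 1) = if k = (prog.getD n (0, 0)).2 then
        (prog.getD n (0, 0)).1 else if k = (prog.getD n (0, 0)).2 + 1 then 8 else 4 := by
      intro k hk
      unfold ty
      rw [if_neg (by omega), if_neg (by omega), if_neg (by omega), if_neg (by omega), e3]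
      simp
    rw [e3] at w
    unfold Step
    generalize prog.getD n (0, 0) = a at *
    have t2 := t1 a.2 (by omega)
    rw [if_pos rfl] at t2
    obtain ⟨-, k1, k2⟩ := H.gate' (j := j) (i := a.2) (by omega) (C' _ (by omega)) (by omega)
    have k3 := k2 (y - 12 * n - 16 - a.2)
    have k4 := (H.stepX (j := j + 1) (i := a.2 + 1) (by omega) (by omega)).2
    have k5 := H.rungY (j := j + 1) (i := a.2) (by omega) (by omega)
    simp only [e1, e2, if_pos w.2, if_pos (show a.2 < m by omega)]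
    rw [t2] at k3
    push_cast
    refine ⟨by convert k3 using 1 <;> ring, by linarith, by linarith, fun i h1 h2 => ?_⟩
    split_ifs with h
    · have t3 := t1 i h
      rw [if_neg h1, if_neg h2] at t3
      have := H.idle (j := j) (by omega) (C' _ (by omega)) h (Or.inl t3)
      rw [t3] at this
      push_cast at this
      linarith
    · rfl
  · have w := W.1
    have t1 : ty m c r prog 0 (r + 1) = 4 := by
      unfold ty
      rw [if_neg (by omega), if_neg (by omega), if_neg (by omega), if_pos rfl, if_neg (by omega)]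
    have t2 : ty m c r prog 0 (r + 1 + 1) = 5 := by
      unfold ty
      rw [if_neg (by omega), if_neg (by omega), if_neg (by omega), if_pos rfl, if_pos rfl]
    have k1 := H.idle (j := 0) (i := r) (by omega) (C' _ (by omega)) (by omega) (Or.inl t1)
    have k2 := H.idle (j := 0) (i := r + 1) (by omega) (C' _ (by omega)) w (Or.inr t2)
    have k3 := (H.stepX (j := 0) (i := r + 1) (by omega) (by omega)).2
    have k4 := H.rungY (j := 0) (i := r) (by omega) (by omega)
    rw [t1] at k1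
    rw [t2] at k2
    simp only [if_pos w, if_pos (show r < m by omega), show prog.length + 1 - prog.length = 0 + 1 by
      omega]
    push_cast at k1 k2 ⊢
    linarith

theorem run' : ∃ st, Run c r prog st := by
  have h := sub_pos.2 (H.capUp (Nat.zero_le m)).2
  set G := cy (P (nm m (prog.length + 1) (0 + 1) 2)) - cy (P (nm m (prog.length + 1) (0 + 1) 1))
    with hG
  have h1 : 0 < 2 / G := by positivity
  have h2 : ((2 / G : ℝ) : ℂ) ≠ 0 := by exact_mod_cast h1.ne'
  refine run (P := fun v => (2 / G : ℝ) * P v + 0) (F := F) ⟨H.wf, fun j hj i hi e he =>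
    (H.ed j hj i hi e he).affine h1 0, fun j hj i hi hg => ?_, H.seed⟩ ?_
  · simpa [h.ne'] using H.ne j hj i hi hg
  · simp only [add_zero, cy_smul]
    field_simp
    simp only [hG, zero_add]
    ring

end Pic

theorem no_dir (W : WFM m r prog) {p f : ℕ → ℂ}
    (H : Core (72 * (2 * m + 3)) (EL m c r prog) p f) : ∃ st, Run c r prog st := by
  have hs0 := (mem_seeds (m := m) (J := prog.length + 1)).2 (Or.inl rfl)
  have h0 := (mem_halves_EL (c := c) (r := r)).2 (Or.inl ⟨_, hs0, Or.inr rfl⟩)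
  have n0 : ∀ h ∈ halves (EL m c r prog), h.1 ≠ 0 → p h.1 ≠ p 0 := fun h hh hn e =>
    hn (H.inj h hh _ h0 e)
  have ns : ∀ s ∈ seeds m (prog.length + 1), p s.1 ≠ p 0 := fun s hs =>
    n0 _ (mem_halves_EL.2 (Or.inl ⟨s, hs, Or.inl rfl⟩)) (seed_bd hs).2.1
  have ts := fun s hs => H.tan (rayE m s) (mem_EL.2 (Or.inl ⟨s, hs, rfl⟩))
  have f0 : f 0 ≠ 0 := by
    obtain ⟨ρ, hρ, e⟩ := ts _ hs0
    intro h
    simp only [rayE, h, zero_mul] at e
    exact mul_ne_zero (by exact_mod_cast hρ.ne') (sub_ne_zero.2 (ns _ hs0)) e.symm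
  have hh : ∀ j ≤ prog.length + 1, ∀ i ≤ m + 1, ∀ h ∈ halves (allE (ty m c r prog j i)),
      (gl m j i h.1, (2 * m + 3) * h.2.1, gl m j i h.2.2) ∈ halves (EL m c r prog) :=
    fun j hj i hi h hh => mem_halves_EL.2 (Or.inr ⟨j, hj, i, hi, h, hh, rfl⟩)
  refine Pic.run' (m := m) (P := fun v => f 0 / (p v - p 0))
    (F := fun v => -(f 0 * f v / (p v - p 0) ^ 2)) ⟨W, fun j hj i hi e he => ?_,
    fun j hj i hi hg e => ?_, fun s hs => ?_⟩
  · have he' := (mem_EL (c := c) (r := r)).2 (Or.inr ⟨j, hj, i, hi, e, he, rfl⟩)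
    have h1 := H.slit _ he'
    have h2 := H.tan _ he'
    have h3 := H.vert _ he' _ h0
    simp only [We, gE, rt_mul (show 2 * m + 3 ≠ 0 by omega)] at h1 h2 h3
    have := EOK.inv (c := f 0) ⟨h1, h2⟩
      (n0 _ (hh j hj i hi _ (mem_halves.2 ⟨e, he, Or.inl rfl⟩)) (nm_ne _ _ _))
      (n0 _ (hh j hj i hi _ (mem_halves.2 ⟨e, he, Or.inr rfl⟩)) (nm_ne _ _ _)) f0 h3
    unfold Ed
    convert this using 1 <;> ring
  · have a1 := hh j hj i hi (50, 29, 30) (by rw [hg]; decide)
    have a2 := hh j hj i hi (3, 65, 30) (by rw [hg]; decide)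
    have b1 := sub_ne_zero.2 (n0 _ a1 (nm_ne _ _ _))
    have b2 := sub_ne_zero.2 (n0 _ a2 (nm_ne _ _ _))
    simp only at e b1 b2
    rw [div_eq_div_iff b1 b2, mul_right_inj' f0, sub_left_inj] at e
    have := H.inj _ a1 _ a2 e.symm
    have := gl_inj W hj hi hj hi (by rw [hg]; decide) (by rw [hg]; decide) this
    omega
  · obtain ⟨ρ, hρ, e⟩ := ts s hs
    have b := sub_ne_zero.2 (ns s hs)
    have b' := sub_ne_zero.2 (ns s hs).symm
    have k := rt_add (72 * (2 * m + 3)) (72 * (2 * m + 3) - s.2) s.2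
    rw [Nat.sub_add_cancel (seed_bd hs).2.2.2.1.le, rt_self (by omega)] at k
    refine ⟨ρ, hρ, ?_⟩
    simp only [We, rayE] at e
    field_simp at e ⊢
    linear_combination -e - f 0 * f s.1 * k

end Pool.Agent.Lib.MP_242159_lc
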