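import Pool.Agent.Lib.MP_242159_lc.NoA
import Pool.Agent.Lib.MP_242159_lc.Grid

/-!
From a plane picture with rays to a drawing, and strata of the real line.
-/

set_option autoImplicit false

namespace Pool.Agent.Lib.MP_242159_lc

open Complex

theorem core_of_at {N : ℕ} {E : List Edge} {p f : ℕ → ℂ} {At : Sym2 ℕ → ℂ → Prop}
    (uniq : ∀ σ σ' z, At σ z → At σ' z → σ = σ')
    (hE : ∀ e ∈ E, e.1 ≠ e.2.2.1 ∧ At s(e.1, e.1) (p e.1) ∧ At s(e.2.2.1, e.2.2.1) (p e.2.2.1) ∧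
      EOK (p e.1) (p e.2.2.1) (f e.1 * rt N e.2.1) (f e.2.2.1 * rt N e.2.2.2) ∧
      ∀ z, OnArc (p e.1) (p e.2.2.1) (We N p f e) z → At s(e.1, e.2.2.1) z) : Core N E p f := by
  have hv : ∀ h ∈ halves E, At s(h.1, h.1) (p h.1) := by
    intro h hh
    obtain ⟨e, he, rfl | rfl⟩ := mem_halves.1 hh
    · exact (hE e he).2.1
    · exact (hE e he).2.2.1
  refine ⟨fun h hh h' hh' e => ?_, fun e he => (hE e he).2.2.2.1.1,
    fun e he => (hE e he).2.2.2.1.2, fun e he h hh a => ?_, fun e he e' he' hne z a a' =>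
      hne (uniq _ _ z ((hE e he).2.2.2.2 z a) ((hE e' he').2.2.2.2 z a'))⟩
  · have := uniq _ _ _ (hv h hh) (e ▸ hv h' hh')
    simp only [Sym2.eq_iff] at this
    omega
  · have := uniq _ _ _ ((hE e he).2.2.2.2 _ a) (hv h hh)
    have h1 := (hE e he).1
    simp only [Sym2.eq_iff] at this
    omega

theorem core_of_plane {N : ℕ} (hN : N ≠ 0) {E : List Edge} {P F : ℕ → ℂ}
    {At : Sym2 ℕ → ℂ → Prop} (Z : ℂ) (uniq : ∀ σ σ' z, At σ z → At σ' z → σ = σ')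
    (far : ∀ σ, ¬ At σ Z)
    (hE : ∀ e ∈ E, e.1 ≠ 0 ∧ At s(e.1, e.1) (P e.1) ∧
      ((e.2.2.1 ≠ 0 ∧ e.1 ≠ e.2.2.1 ∧ At s(e.2.2.1, e.2.2.1) (P e.2.2.1) ∧
        EOK (P e.1) (P e.2.2.1) (F e.1 * rt N e.2.1) (F e.2.2.1 * rt N e.2.2.2) ∧
        ∀ z, OnArc (P e.1) (P e.2.2.1) (We N P F e) z → At s(e.1, e.2.2.1) z) ∨
      (e.2.2.1 = 0 ∧ e.2.1 + e.2.2.2 = N ∧ F e.1 = 1 ∧
        ∀ l : ℝ, 0 < l → At s(e.1, 0) (P e.1 + l * rt N e.2.1)))) : ∃ p f, Core N E p f := by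
  refine ⟨fun v => if v = 0 then 0 else 1 / (P v - Z),
    fun v => if v = 0 then 1 else -(1 * F v / (P v - Z) ^ 2),
    core_of_at (At := fun σ z => (σ = s(0, 0) ∧ z = 0) ∨ (z ≠ 0 ∧ At σ (Z + 1 / z))) ?_ ?_⟩
  · rintro σ σ' z (⟨rfl, h⟩ | ⟨h, a⟩) (⟨rfl, h'⟩ | ⟨h', a'⟩)
    · rfl
    · exact absurd h h'
    · exact absurd h' h
    · exact uniq _ _ _ a a'
  have key : ∀ σ w, At σ w → w ≠ Z ∧ 1 / (w - Z) ≠ 0 ∧ At σ (Z + 1 / (1 / (w - Z))) := by
    intro σ w h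
    have h1 : w ≠ Z := fun e => far σ (e ▸ h)
    exact ⟨h1, one_div_ne_zero (sub_ne_zero.2 h1), by simpa using h⟩
  intro e he
  obtain ⟨n1, a1, ⟨n2, n3, a2, ok, arc⟩ | ⟨e0, eN, f1, ray⟩⟩ := hE e he
  · obtain ⟨z1, b1⟩ := key _ _ a1
    obtain ⟨z2, b2⟩ := key _ _ a2
    have h1 := ok.inv z1 z2 one_ne_zero fun h => far _ (arc _ h)
    have h2 := inv_W (T := F e.1 * rt N e.2.1) z1 z2 ok.ne one_ne_zero
    simp only [We, if_neg n1, if_neg n2]
    refine ⟨n3, Or.inr b1, Or.inr b2, by convert h1 using 1 <;> ring, fun z hz => Or.inr ?_⟩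
    rw [show -(1 * F e.1 / (P e.1 - Z) ^ 2) * rt N e.2.1 =
      -(1 * (F e.1 * rt N e.2.1) / (P e.1 - Z) ^ 2) by ring, h2] at hz
    have z0 : z ≠ 0 := by
      rintro rfl
      exact inv_zero z1 z2 one_ne_zero ok.1 hz
    refine ⟨z0, arc _ ((inv_arc z1 z2 (by simpa using z0) one_ne_zero).1 ?_)⟩
    simpa [We] using hz
  · obtain ⟨z1, b1⟩ := key _ _ a1
    have h0 := sub_ne_zero.2 z1
    have h1 := rt_ne N e.2.1
    have k := rt_add N e.2.1 e.2.2.2
    rw [eN, rt_self hN] at k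
    have eW : -(1 * 1 / (P e.1 - Z) ^ 2) * rt N e.2.1 / (0 - 1 / (P e.1 - Z)) =
        rt N e.2.1 / (P e.1 - Z) := by field_simp; ring
    simp only [We, EOK, if_neg n1, e0, if_true, f1, eW]
    refine ⟨n1, Or.inr b1, Or.inl ⟨trivial, trivial⟩, ⟨?_, 1, one_pos, ?_⟩, ?_⟩
    · by_contra hs
      simp only [mem_slitPlane_iff, not_or, not_lt, not_not] at hs
      set V := rt N e.2.1 / (P e.1 - Z) with hV
      have e1 : V = (V.re : ℂ) := Complex.ext rfl (by simpa using hs.2)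
      have e2 : V.re ≠ 0 := fun h => div_ne_zero h1 h0 (by rw [h] at e1; exact e1)
      have e3 : (V.re : ℂ) ≠ 0 := by exact_mod_cast e2
      have := ray (-V.re)⁻¹ (inv_pos.2 (by have := lt_of_le_of_ne hs.1 e2; linarith))
      refine far _ (by
        convert this using 1
        have e4 : rt N e.2.1 = V.re * (P e.1 - Z) := by rw [← e1, hV]; field_simp
        rw [e4]; push_cast; field_simp; ring)
    · field_simp
      push_cast
      linear_combination -k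
    · rintro z ⟨l, hl, hz⟩
      have z0 : z ≠ 0 := by
        rintro rfl
        exact b1.1 (by simpa using hz)
      refine Or.inr ⟨z0, ?_⟩
      convert ray l hl using 1
      field_simp at hz ⊢
      linear_combination -hz

/-- The number `y` lies in the stratum number `b` of the points `G 0, …, G T`. -/
def In (G : ℕ → ℝ) (T b : ℕ) (y : ℝ) : Prop :=
  b ≤ 2 * T + 2 ∧ ∀ n ≤ T, (2 * n + 1 < b → G n < y) ∧ (2 * n + 1 = b → G n = y) ∧
    (b < 2 * n + 1 → y < G n)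

theorem In.uniq {G : ℕ → ℝ} {T b b' : ℕ} {y : ℝ} (h : In G T b y) (h' : In G T b' y) : b = b' := by
  have key : ∀ {b b' : ℕ}, In G T b y → In G T b' y → ¬ b < b' := by
    intro b b' h h' hl
    have h1 := h'.1
    have h2 := h.2 (b / 2) (by omega)
    have h3 := h'.2 (b / 2) (by omega)
    rcases (by omega : 2 * (b / 2) + 1 = b ∨ b < 2 * (b / 2) + 1) with e | e
    · exact (h3.1 (by omega)).ne (h2.2.1 e)
    · rcases (by omega : 2 * (b / 2) + 1 = b' ∨ 2 * (b / 2) + 1 < b') with e' | e'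
      · exact (h2.2.2 e).ne' (h3.2.1 e')
      · exact (h2.2.2 e).not_gt (h3.1 e')
  exact le_antisymm (not_lt.1 (key h' h)) (not_lt.1 (key h h'))

/-- The points increase. -/
def Mon (G : ℕ → ℝ) (T : ℕ) : Prop := ∀ n < T, G n < G (n + 1)

theorem Mon.le {G : ℕ → ℝ} {T : ℕ} (h : Mon G T) {n k : ℕ} (hn : n ≤ k) (hk : k ≤ T) :
    G n ≤ G k := by
  induction k, hn using Nat.le_induction with
  | base => exact le_rfl
  | succ k _ ih => exact (ih (by omega)).trans (h k hk).le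

theorem Mon.pt {G : ℕ → ℝ} {T : ℕ} (h : Mon G T) {n : ℕ} (hn : n ≤ T) :
    In G T (2 * n + 1) (G n) :=
  ⟨by omega, fun k hk => ⟨fun a => (h k (by omega)).trans_le (h.le (by omega) hn),
    fun a => by rw [show k = n by omega], fun a => (h n (by omega)).trans_le (h.le (by omega) hk)⟩⟩

theorem Mon.seg {G : ℕ → ℝ} {T : ℕ} (h : Mon G T) {b : ℕ} {y : ℝ} (hb : b ≤ T + 1)
    (h1 : b ≠ 0 → G (b - 1) < y) (h2 : b ≤ T → y < G b) : In G T (2 * b) y :=
  ⟨by omega, fun k hk => ⟨fun a => (h.le (by omega) (by omega)).trans_lt (h1 (by omega)),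
    fun a => by omega, fun a => (h2 (by omega)).trans_le (h.le (by omega) hk)⟩⟩

theorem Mon.ex {G : ℕ → ℝ} {T : ℕ} (h : Mon G T) {y : ℝ} {n : ℕ} (k : ℕ) (hk : n + k ≤ T)
    (h1 : G n < y) (h2 : y < G (n + k)) : ∃ b, In G T b y ∧ 2 * n + 1 < b ∧ b ≤ 2 * (n + k) := by
  induction k with
  | zero => exact absurd h1 h2.not_gt
  | succ k ih =>
    rcases lt_trichotomy y (G (n + k)) with a | a | a
    · obtain ⟨b, h3, h4, h5⟩ := ih (by omega) a
      exact ⟨b, h3, h4, by omega⟩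
    · have : k ≠ 0 := by rintro rfl; exact h1.ne' a
      exact ⟨_, a ▸ h.pt (by omega), by omega, by omega⟩
    · exact ⟨_, h.seg (b := n + k + 1) (by omega) (fun _ => a) fun _ => h2, by omega, by omega⟩

theorem rt_im_pos {N k : ℕ} (h0 : 0 < k) (h1 : 2 * k < N) : 0 < (rt N k).im := by
  have h2 : (0 : ℝ) < k := by exact_mod_cast h0
  have h3 : (2 * k : ℝ) < N := by exact_mod_cast h1
  have h4 : (0 : ℝ) < N := by linarith
  rw [rt_eq]
  refine Real.sin_pos_of_pos_of_lt_pi (by positivity) ?_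
  rw [div_lt_iff₀ h4]
  nlinarith [Real.pi_pos]

theorem rt_cross {N a b : ℕ} (h0 : a < b) (h1 : 2 * (b - a) < N) :
    0 < (rt N a).re * (rt N b).im - (rt N a).im * (rt N b).re := by
  have h := rt_im_pos (by omega) h1
  have k := rt_add N a (b - a)
  have n := rt_normSq N a
  rw [Nat.add_sub_cancel' h0.le] at k
  rw [normSq_apply] at n
  rw [k, mul_re, mul_im]
  nlinarith

theorem seg_ok {a b : ℂ} {d : ℕ} {s : ℝ} (hs : 0 < s) (h : b - a = s * om d) :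
    EOK a b (1 * om d) (1 * om ((d + 36) % 72)) ∧ ∀ z, OnArc a b (1 * om d / (b - a)) z →
      ∃ t : ℝ, 0 < t ∧ t < 1 ∧ z = a + t * (b - a) := by
  have h1 := om_ne d
  have h2 : (s : ℂ) ≠ 0 := by exact_mod_cast hs.ne'
  have e : 1 * om d / (b - a) = ((s⁻¹ : ℝ) : ℂ) := by rw [h]; push_cast; field_simp
  rw [EOK, e]
  refine ⟨⟨ofReal_mem_slitPlane.2 (inv_pos.2 hs), s⁻¹ * s⁻¹, by positivity, ?_⟩, ?_⟩
  · rw [om_mod, om_add, om36, show a - b = -(s * om d) by rw [← h]; ring]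
    push_cast; field_simp
  · rintro z ⟨l, hl, hz⟩
    have h3 : 0 < l * s⁻¹ := by positivity
    have h4 : (1 + l * s⁻¹ : ℂ) ≠ 0 := by exact_mod_cast (by positivity : 1 + l * s⁻¹ ≠ 0)
    refine ⟨l * s⁻¹ / (1 + l * s⁻¹), by positivity, by rw [div_lt_one (by positivity)]; linarith, ?_⟩
    push_cast at hz h4 ⊢
    rw [div_mul_eq_mul_div, ← sub_eq_iff_eq_add', eq_div_iff h4]
    linear_combination hz

end Pool.Agent.Lib.MP_242159_lc
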