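import Pool.Agent.Lib.MP_242159_lc.PlBack
import Pool.Agent.Lib.MP_242159_lc.YesI

set_option autoImplicit false

namespace Pool.Agent.Lib.MP_242159_lc

open Complex

/-- The slope of the boundary of a block. -/
noncomputable def TT (N : ℕ) : ℝ := Real.tan (Real.pi / N)

/-- The chart at `u` in which the direction `k` is the positive real direction at infinity. -/
noncomputable def yc (N : ℕ) (p f : ℕ → ℂ) (u k : ℕ) (z : ℂ) : ℂ := f u * rt N k / (z - p u)

/-- A small closed disc around `p u`. -/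
def Disc (p f : ℕ → ℂ) (x0 : ℝ) (u : ℕ) (z : ℂ) : Prop := x0 * ‖z - p u‖ ≤ ‖f u‖

/-- The open sector of slope `κ` around the positive real axis. -/
def Sec (κ : ℝ) (w : ℂ) : Prop := |w.im| < κ * w.re

/-- A thin lens around the edge from `u` to `v`. -/
def Lens (N : ℕ) (p f : ℕ → ℂ) (κ : ℝ) (u k v : ℕ) (z : ℂ) : Prop :=
  z ≠ p u ∧ Sec κ (yc N p f u k z - Wh N p f u k v)

/-- A drawing with small discs around the vertices. -/
structure Ctx0 where
  n : ℕ
  N : ℕ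
  E : List Edge
  p : ℕ → ℂ
  f : ℕ → ℂ
  x0 : ℝ
  wf : WFE n N E
  hN : 3 ≤ N
  core : Core N E p f
  inj : Function.Injective p
  fne : ∀ u, f u ≠ 0
  pos : 0 < x0
  disc : ∀ u < n, ∀ u' < n, ∀ z, Disc p f x0 u z → Disc p f x0 u' z → u = u'
  arcd : ∀ u k v, (u, k, v) ∈ halves E → ∀ w < n, w ≠ u → w ≠ v → ∀ z,
    OnArc (p u) (p v) (Wh N p f u k v) z → ¬ Disc p f x0 w z
  big : ∀ u k v, (u, k, v) ∈ halves E → ‖Wh N p f u k v‖ * (4 + 5 * TT N) < TT N * x0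

/-- A drawing with small discs and thin lenses. -/
structure Ctx extends Ctx0 where
  τ : ℝ
  τpos : 0 < τ
  τT : 6 * τ ≤ TT N
  τ1 : 3 * τ ≤ 1
  far : ∀ u k v, (u, k, v) ∈ halves E → ¬ Sec (3 * τ) (-Wh N p f u k v)
  lend : ∀ u k v, (u, k, v) ∈ halves E → ∀ w < n, ∀ z, Lens N p f (3 * τ) u k v z →
    Disc p f x0 w z → w = u ∨ w = v
  mids : ∀ u k v, (u, k, v) ∈ halves E → ∀ u' k' v', (u', k', v') ∈ halves E → ∀ z,
    Lens N p f (3 * τ) u k v z → Lens N p f (3 * τ) u' k' v' z → ¬ Disc p f x0 u z →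
    ¬ Disc p f x0 v z → ¬ Disc p f x0 u' z → ¬ Disc p f x0 v' z → s(u, v) = s(u', v')

namespace Ctx

variable (C : Ctx)

/-- The chart. -/
noncomputable def y (u k : ℕ) (z : ℂ) : ℂ := yc C.N C.p C.f u k z

/-- The auxiliary vertices. -/
def a (u k j : ℕ) : ℕ := aux C.n C.N u k j

/-- The neighbour of `u` in direction `4 k + 1`. -/
def mid (u k : ℕ) : ℕ := (look C.E u k).headD (C.a u k 1)

/-- The position of the other end of the old edge in the chart, zero for an unused direction. -/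
noncomputable def c (u k : ℕ) : ℂ :=
  cond (look C.E u k).isEmpty 0 (Wh C.N C.p C.f u k (C.mid u k))

/-- The horizontal distance from `c` to the rim. -/
noncomputable def A (u k : ℕ) : ℝ := C.x0 - (C.c u k).re

/-- The positions of the auxiliary vertices in the chart. -/
noncomputable def ya (u k j : ℕ) : ℂ :=
  if j = 0 then C.c u k + C.A u k * (1 + C.τ * I) else if j = 1 then C.x0 else
    if j = 2 then C.c u k + C.A u k * (1 - C.τ * I) else C.x0 * (1 - TT C.N * I)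

/-- The positions of the vertices of the gadget graph. -/
noncomputable def P (x : ℕ) : ℂ :=
  if x < C.n then C.p x else C.p ((x - C.n) / (4 * C.N)) +
    C.f ((x - C.n) / (4 * C.N)) * rt C.N ((x - C.n) % (4 * C.N) / 4) /
      C.ya ((x - C.n) / (4 * C.N)) ((x - C.n) % (4 * C.N) / 4) ((x - C.n) % (4 * C.N) % 4)

/-- The frames of the vertices of the gadget graph. -/
noncomputable def F (x : ℕ) : ℂ :=
  if x < C.n then C.f x / rt (4 * C.N) 1 else
    -(C.f ((x - C.n) / (4 * C.N)) * rt C.N ((x - C.n) % (4 * C.N) / 4) /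
      C.ya ((x - C.n) / (4 * C.N)) ((x - C.n) % (4 * C.N) / 4) ((x - C.n) % (4 * C.N) % 4) ^ 2)

/-- The block number `k` at `u`. -/
def Blk (u k : ℕ) (z : ℂ) : Prop :=
  z ≠ C.p u ∧ C.x0 ≤ (C.y u k z).re ∧ -(TT C.N * (C.y u k z).re) ≤ (C.y u k z).im ∧
    (C.y u k z).im < TT C.N * (C.y u k z).re

open Classical in
/-- The only object of a block that may contain a given point of the chart. -/
noncomputable def labB (u k : ℕ) (y : ℂ) : Sym2 ℕ :=
  if y.im = -(TT C.N * y.re) then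
    (if y.re = C.x0 then s(C.a u k 3, C.a u k 3) else s(u, C.a u k 3))
  else if y.re = C.x0 then
    (if y.im < (C.c u k).im - C.τ * C.A u k then s(C.a u k 2, C.a u k 3)
    else if y.im = (C.c u k).im - C.τ * C.A u k then s(C.a u k 2, C.a u k 2)
    else if y.im < (C.c u k).im then s(C.a u k 1, C.a u k 2)
    else if y.im = (C.c u k).im then
      cond (look C.E u k).isEmpty s(C.a u k 1, C.a u k 1) s(u, C.mid u k)
    else if y.im < (C.c u k).im + C.τ * C.A u k then s(C.a u k 0, C.a u k 1)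
    else if y.im = (C.c u k).im + C.τ * C.A u k then s(C.a u k 0, C.a u k 0)
    else s(C.a u ((k + C.N - 1) % C.N) 3, C.a u k 0))
  else if y.im < (C.c u k).im then s(u, C.a u k 2)
  else if y.im = (C.c u k).im then s(u, C.mid u k) else s(u, C.a u k 0)

open Classical in
/-- The only object in the middle part of a lens that may contain a given point. -/
noncomputable def labM (u k v k' : ℕ) (w : ℂ) : Sym2 ℕ :=
  if w.im < 0 then s(C.a u k 2, C.a v k' 0) else if w.im = 0 then s(u, v)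
  else s(C.a u k 0, C.a v k' 2)

/-- The object `σ` may contain the point `z`. -/
def At (σ : Sym2 ℕ) (z : ℂ) : Prop :=
  (∃ u < C.n, σ = s(u, u) ∧ z = C.p u) ∨
  (∃ u < C.n, ∃ k < C.N, C.Blk u k z ∧ σ = C.labB u k (C.y u k z)) ∨
  ∃ u k v k', (u, k, v) ∈ halves C.E ∧ (v, k', u) ∈ halves C.E ∧
    Lens C.N C.p C.f (3 * C.τ) u k v z ∧ (C.y u k z).re < C.x0 ∧ (C.y v k' z).re < C.x0 ∧
    σ = C.labM u k v k' (C.y u k z - Wh C.N C.p C.f u k v)

/-- The edge is an arc with the right tangents that stays in its cell. -/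
def EA (x : Edge) : Prop :=
  EOK (C.P x.1) (C.P x.2.2.1) (C.F x.1 * rt (4 * C.N) x.2.1)
      (C.F x.2.2.1 * rt (4 * C.N) x.2.2.2) ∧
    ∀ z, OnArc (C.P x.1) (C.P x.2.2.1) (We (4 * C.N) C.P C.F x) z → C.At s(x.1, x.2.2.1) z

end Ctx

end Pool.Agent.Lib.MP_242159_lc

namespace Pool.Agent.Lib.MP_242159_lc

open Complex

variable {N : ℕ}

theorem y1_mul {c : ℕ} (hc : c ≠ 0) (d k : ℕ) : rt (c * d) (c * k) = rt d k := by
  have h : (c : ℂ) ≠ 0 := by exact_mod_cast hc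
  have e : (2 * Real.pi * ((c * k : ℕ) : ℂ) / ((c * d : ℕ) : ℂ)) = 2 * Real.pi * k / d := by
    push_cast
    rw [show (2 * Real.pi * ((c : ℂ) * k)) = c * (2 * Real.pi * k) by ring, mul_div_mul_left _ _ h]
  simp only [rt]
  rw [e]

theorem y1_pow (d j : ℕ) : rt d j = rt d 1 ^ j := by
  induction j with
  | zero => rw [rt_zero, pow_zero]
  | succ j ih => rw [rt_add, ih, pow_succ]

theorem y1_mod {d : ℕ} (hd : d ≠ 0) (m : ℕ) : rt d (m % d) = rt d m := by
  have h1 : rt d (d * (m / d)) = 1 := by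
    rw [y1_pow, pow_mul, ← y1_pow, rt_self hd, one_pow]
  have h2 := rt_add d (d * (m / d)) (m % d)
  rw [Nat.div_add_mod, h1, one_mul] at h2
  exact h2.symm

theorem y1_ang (hN : 3 ≤ N) : 0 < Real.pi / N ∧ Real.pi / N < Real.pi / 2 := by
  have h : (3 : ℝ) ≤ N := by exact_mod_cast hN
  refine ⟨div_pos Real.pi_pos (by linarith), ?_⟩
  exact div_lt_div_of_pos_left Real.pi_pos (by norm_num) (by linarith)

theorem y1_cos (hN : 3 ≤ N) : 0 < Real.cos (Real.pi / N) := by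
  obtain ⟨h1, h2⟩ := y1_ang hN
  exact Real.cos_pos_of_mem_Ioo ⟨by linarith, h2⟩

theorem y1_one (hN : 3 ≤ N) : rt (4 * N) 1 =
    ⟨Real.cos (Real.pi / N / 2), Real.sin (Real.pi / N / 2)⟩ := by
  have h : (3 : ℝ) ≤ N := by exact_mod_cast hN
  have h0 : (N : ℝ) ≠ 0 := by linarith
  have e : (2 * Real.pi * ((1 : ℕ) : ℝ) / ((4 * N : ℕ) : ℝ)) = Real.pi / N / 2 := by
    push_cast
    field_simp
    ring
  rw [rt_eq, e]

theorem y1_two (hN : 3 ≤ N) :
    rt (4 * N) 2 = (Real.cos (Real.pi / N) : ℝ) * (1 + TT N * I) := by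
  have h : (3 : ℝ) ≤ N := by exact_mod_cast hN
  have h0 : (N : ℝ) ≠ 0 := by linarith
  have e : (2 * Real.pi * ((2 : ℕ) : ℝ) / ((4 * N : ℕ) : ℝ)) = Real.pi / N := by
    push_cast
    field_simp
    ring
  have hc := (y1_cos hN).ne'
  have ht : Real.cos (Real.pi / N) * TT N = Real.sin (Real.pi / N) := by
    rw [TT, Real.tan_eq_sin_div_cos]
    field_simp
  rw [rt_eq, e]
  apply Complex.ext
  · simp only [mul_re, add_re, add_im, mul_im, ofReal_re, ofReal_im, one_re, one_im, I_re, I_im]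
    ring
  · simp only [mul_re, add_re, add_im, mul_im, ofReal_re, ofReal_im, one_re, one_im, I_re, I_im]
    rw [← ht]
    ring

theorem y1_inv {d k l : ℕ} (h : rt d l * rt d k = 1) : rt d l = (starRingEnd ℂ) (rt d k) := by
  have h1 := rt_conj d k
  calc rt d l = rt d l * (rt d k * (starRingEnd ℂ) (rt d k)) := by rw [h1, mul_one]
    _ = (rt d l * rt d k) * (starRingEnd ℂ) (rt d k) := by ring
    _ = _ := by rw [h, one_mul]

theorem y1_last2 (hN : 3 ≤ N) : rt (4 * N) (4 * N - 2) * rt (4 * N) 2 = 1 := by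
  rw [← rt_add, Nat.sub_add_cancel (by omega), rt_self (by omega)]

theorem y1_sep (hN : 3 ≤ N) :
    rt (4 * N) (4 * N - 2) = (Real.cos (Real.pi / N) : ℝ) * (1 - TT N * I) := by
  rw [y1_inv (y1_last2 hN), y1_two hN, map_mul, map_add, map_mul, conj_ofReal, conj_ofReal, conj_I,
    map_one]
  ring

theorem y1_cone (hN : 3 ≤ N) {a : ℂ} (h1 : -(TT N * a.re) ≤ a.im) (h2 : a.im < TT N * a.re) :
    a ≠ 0 ∧ -(Real.pi / N) ≤ arg a ∧ arg a < Real.pi / N := by
  obtain ⟨p1, p2⟩ := y1_ang hN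
  have hT : 0 < TT N := Real.tan_pos_of_pos_of_lt_pi_div_two p1 p2
  have hr : 0 < a.re := by
    by_contra hc
    have h3 : TT N * a.re ≤ 0 := mul_nonpos_of_nonneg_of_nonpos hT.le (not_lt.1 hc)
    linarith
  have ha : |arg a| < Real.pi / 2 := abs_arg_lt_pi_div_two_iff.2 (Or.inl hr)
  have m1 : arg a ∈ Set.Ioo (-(Real.pi / 2)) (Real.pi / 2) := abs_lt.1 ha
  have m2 : Real.pi / N ∈ Set.Ioo (-(Real.pi / 2)) (Real.pi / 2) := ⟨by linarith, p2⟩
  have m3 : -(Real.pi / N) ∈ Set.Ioo (-(Real.pi / 2)) (Real.pi / 2) := ⟨by linarith, by linarith⟩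
  refine ⟨fun h => by rw [h] at hr; simp at hr, ?_, ?_⟩
  · refine (Real.strictMonoOn_tan.le_iff_le m3 m1).1 ?_
    rw [Real.tan_neg, tan_arg, le_div_iff₀ hr]
    have e : Real.tan (Real.pi / N) = TT N := rfl
    rw [e]
    linarith
  · refine (Real.strictMonoOn_tan.lt_iff_lt m1 m2).1 ?_
    rw [tan_arg, div_lt_iff₀ hr]
    exact h2

theorem TT_pos (hN : 3 ≤ N) : 0 < TT N := by
  obtain ⟨p1, p2⟩ := y1_ang hN
  exact Real.tan_pos_of_pos_of_lt_pi_div_two p1 p2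

theorem rt4_N (hN : 3 ≤ N) : rt (4 * N) N = I := by
  have h := y1_mul (c := N) (by omega) 4 1
  rw [mul_one, mul_comm N 4] at h
  have e : (2 * Real.pi * ((1 : ℕ) : ℂ) / ((4 : ℕ) : ℂ) * I) = Real.pi / 2 * I := by
    push_cast
    ring
  rw [h, rt, e, exp_pi_div_two_mul_I]

theorem rt4_2N (hN : 3 ≤ N) : rt (4 * N) (2 * N) = -1 := by
  rw [two_mul, rt_add, rt4_N hN, I_mul_I]

theorem rt4_3N (hN : 3 ≤ N) : rt (4 * N) (3 * N) = -I := by
  rw [show 3 * N = 2 * N + N by ring, rt_add, rt4_N hN, rt4_2N hN]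
  ring

theorem rt4_blk (hN : 3 ≤ N) (k j : ℕ) :
    rt (4 * N) (4 * k + j) = rt N k * rt (4 * N) 1 ^ j := by
  rw [rt_add, y1_mul (by norm_num), ← y1_pow]

theorem rt_succ_mod (hN : 3 ≤ N) (k : ℕ) : rt N ((k + 1) % N) = rt N k * rt N 1 := by
  rw [y1_mod (by omega), rt_add]

theorem rt4_re (hN : 3 ≤ N) : 0 < (rt (4 * N) 1).re := by
  obtain ⟨p1, p2⟩ := y1_ang hN
  rw [y1_one hN]
  exact Real.cos_pos_of_mem_Ioo ⟨by linarith, by linarith⟩

theorem rt4_im (hN : 3 ≤ N) : 0 < (rt (4 * N) 1).im := by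
  obtain ⟨p1, p2⟩ := y1_ang hN
  rw [y1_one hN]
  exact Real.sin_pos_of_pos_of_lt_pi (by linarith) (by linarith)

theorem rt4_im_lt (hN : 3 ≤ N) : (rt (4 * N) 1).im < TT N * (rt (4 * N) 1).re := by
  obtain ⟨p1, p2⟩ := y1_ang hN
  have hc : 0 < Real.cos (Real.pi / N / 2) := Real.cos_pos_of_mem_Ioo ⟨by linarith, by linarith⟩
  have m1 : Real.pi / N / 2 ∈ Set.Ioo (-(Real.pi / 2)) (Real.pi / 2) := ⟨by linarith, by linarith⟩
  have m2 : Real.pi / N ∈ Set.Ioo (-(Real.pi / 2)) (Real.pi / 2) := ⟨by linarith, p2⟩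
  have h := Real.strictMonoOn_tan m1 m2 (by linarith)
  rw [Real.tan_eq_sin_div_cos, div_lt_iff₀ hc] at h
  rw [y1_one hN]
  exact h

theorem rt4_last (hN : 3 ≤ N) : rt (4 * N) (4 * N - 1) * rt (4 * N) 1 = 1 := by
  rw [← rt_add, Nat.sub_add_cancel (by omega), rt_self (by omega)]

theorem rt4_last_re (hN : 3 ≤ N) : (rt (4 * N) (4 * N - 1)).re = (rt (4 * N) 1).re := by
  rw [y1_inv (rt4_last hN), conj_re]

theorem rt4_last_im (hN : 3 ≤ N) : (rt (4 * N) (4 * N - 1)).im = -(rt (4 * N) 1).im := by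
  rw [y1_inv (rt4_last hN), conj_im]

theorem rt4_last2 (hN : 3 ≤ N) : rt (4 * N) (4 * N - 2) * rt (4 * N) 1 ^ 2 = 1 := by
  rw [← y1_pow]
  exact y1_last2 hN

theorem rt4_sep (hN : 3 ≤ N) :
    ∃ R : ℝ, 0 < R ∧ rt (4 * N) (4 * N - 2) = R * (1 - TT N * I) := by
  exact ⟨_, y1_cos hN, y1_sep hN⟩

theorem rt4_turn (hN : 3 ≤ N) : rt (4 * N) (3 * N - 4) * rt N 1 = -I := by
  rw [← y1_mul (c := 4) (by norm_num) N 1, ← rt_add, mul_one, Nat.sub_add_cancel (by omega),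
    rt4_3N hN]

theorem sep_turn (hN : 3 ≤ N) : (1 - TT N * I) * rt N 1 = 1 + TT N * I := by
  have h1 : rt N 1 = rt (4 * N) 2 * rt (4 * N) 2 := by
    rw [← y1_mul (c := 4) (by norm_num) N 1, ← rt_add]
  have h2 := y1_last2 hN
  rw [y1_sep hN] at h2
  have h3 := y1_two hN
  rw [h1]
  linear_combination (1 + TT N * I) * h2 + (1 - TT N * I) * rt (4 * N) 2 * h3

theorem cone_uniq (hN : 3 ≤ N) {w : ℂ} {k k' : ℕ} (hk : k < N) (hk' : k' < N)
    (h1 : -(TT N * (w * rt N k).re) ≤ (w * rt N k).im)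
    (h2 : (w * rt N k).im < TT N * (w * rt N k).re)
    (h3 : -(TT N * (w * rt N k').re) ≤ (w * rt N k').im)
    (h4 : (w * rt N k').im < TT N * (w * rt N k').re) : k = k' := by
  obtain ⟨a0, a1, a2⟩ := y1_cone hN h1 h2
  obtain ⟨b0, b1, b2⟩ := y1_cone hN h3 h4
  have e1 := norm_mul_exp_arg_mul_I (w * rt N k)
  have e2 := norm_mul_exp_arg_mul_I (w * rt N k')
  rw [norm_mul, norm_rt, mul_one] at e1 e2
  have w0 : ((‖w‖ : ℝ) : ℂ) ≠ 0 := by
    have : w ≠ 0 := left_ne_zero_of_mul a0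
    exact_mod_cast norm_ne_zero_iff.2 this
  generalize arg (w * rt N k) = s at a1 a2 e1
  generalize arg (w * rt N k') = t at b1 b2 e2
  have e3 : exp (s * I) * rt N k' = exp (t * I) * rt N k := by
    apply mul_left_cancel₀ w0
    linear_combination rt N k' * e1 - rt N k * e2
  simp only [rt, ← exp_add] at e3
  obtain ⟨n, hn⟩ := exp_eq_exp_iff_exists_int.1 e3
  have hR : (3 : ℝ) ≤ N := by exact_mod_cast hN
  have hn2 : ((s + 2 * Real.pi * k' / N : ℝ) : ℂ) =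
      ((t + 2 * Real.pi * k / N + n * (2 * Real.pi) : ℝ) : ℂ) := by
    apply mul_right_cancel₀ I_ne_zero
    push_cast
    linear_combination hn
  have hn3 : s + 2 * Real.pi * k' / N = t + 2 * Real.pi * k / N + n * (2 * Real.pi) := by
    exact_mod_cast hn2
  obtain ⟨p1, -⟩ := y1_ang hN
  have h0 : (N : ℝ) ≠ 0 := by linarith
  have key : (((k' : ℤ) - k - n * N : ℤ) : ℝ) * (2 * (Real.pi / N)) = t - s := by
    push_cast
    have : (n : ℝ) * (2 * Real.pi) = n * N * (2 * (Real.pi / N)) := by field_simp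
    rw [this] at hn3
    linear_combination hn3
  have l1 : (((k' : ℤ) - k - n * N : ℤ) : ℝ) < 1 := by
    by_contra hc
    have := mul_le_mul_of_nonneg_right (not_lt.1 hc) (show 0 ≤ 2 * (Real.pi / N) by linarith)
    linarith
  have l2 : (-1 : ℝ) < (((k' : ℤ) - k - n * N : ℤ) : ℝ) := by
    by_contra hc
    have := mul_le_mul_of_nonneg_right (not_lt.1 hc) (show 0 ≤ 2 * (Real.pi / N) by linarith)
    linarith
  have l3 : ((k' : ℤ) - k - n * N : ℤ) < 1 := by exact_mod_cast l1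
  have l4 : (-1 : ℤ) < ((k' : ℤ) - k - n * N : ℤ) := by exact_mod_cast l2
  have l5 : n = 0 := by
    rcases lt_trichotomy n 0 with h | h | h
    · have : n * N ≤ -1 * N := mul_le_mul_of_nonneg_right (by omega) (by positivity)
      omega
    · exact h
    · have : 1 * (N : ℤ) ≤ n * N := mul_le_mul_of_nonneg_right (by omega) (by positivity)
      omega
  rw [l5] at l3 l4
  omega

theorem slit_div {a b : ℂ} (ha : 0 < a.re) (hb : 0 < b.re) : a / b ∈ slitPlane := by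
  have b0 : b ≠ 0 := fun h => by rw [h] at hb; simp at hb
  have e : a = a / b * b := by field_simp
  rw [mem_slitPlane_iff]
  generalize a / b = q at e
  by_contra hc
  rw [not_or, not_lt, not_not] at hc
  rw [e, mul_re, hc.2, zero_mul, sub_zero] at ha
  have := mul_nonpos_of_nonpos_of_nonneg hc.1 hb.le
  linarith

end Pool.Agent.Lib.MP_242159_lc

namespace Pool.Agent.Lib.MP_242159_lc

open Complex

theorem y2_small {c : ℂ} {S : Set ℂ} (hS : S ∈ nhds c) (r : ℝ) :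
    ∀ᶠ x : ℝ in Filter.atTop, ∀ z, x * ‖z - c‖ ≤ r → z ∈ S := by
  obtain ⟨ε, hε, hb⟩ := Metric.mem_nhds_iff.1 hS
  filter_upwards [Filter.eventually_gt_atTop (r / ε), Filter.eventually_gt_atTop 0] with x h1 h2 z hz
  refine hb ?_
  rw [Metric.mem_ball, dist_eq_norm]
  rw [div_lt_iff₀ hε] at h1
  exact lt_of_mul_lt_mul_left (hz.trans_lt h1) h2.le

theorem y2_off {a b W q : ℂ} (hW : W ≠ 0) (ha : q ≠ a) (hb : q ≠ b) (h : ¬ OnArc a b W q) :
    {z | ¬ OnArc a b W z} ∈ nhds q := by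
  have hD : W * (b - q) ≠ 0 := mul_ne_zero hW (sub_ne_zero.2 hb.symm)
  have hS : IsClosed {w : ℂ | w.im = 0 ∧ 0 ≤ w.re} :=
    (isClosed_eq continuous_im continuous_const).inter (isClosed_le continuous_const continuous_re)
  have hφ : ContinuousAt (fun z : ℂ => (z - a) / (W * (b - z))) q :=
    ContinuousAt.div (by fun_prop) (by fun_prop) hD
  have h0 : (q - a) / (W * (b - q)) ∈ {w : ℂ | w.im = 0 ∧ 0 ≤ w.re}ᶜ := fun hc => by
    have e : (q - a) / (W * (b - q)) = (((q - a) / (W * (b - q))).re : ℂ) :=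
      Complex.ext (by simp) (by simpa using hc.1)
    have hy : 0 ≤ ((q - a) / (W * (b - q))).re := hc.2
    generalize ((q - a) / (W * (b - q))).re = y at e hy
    rw [div_eq_iff hD] at e
    rcases hy.eq_or_lt with rfl | hy
    · exact ha (by simpa [sub_eq_zero] using e)
    · exact h ⟨y, hy, by rw [e, mul_assoc]⟩
  filter_upwards [hφ (hS.isOpen_compl.mem_nhds h0)] with z hz ⟨m, hm, hz'⟩
  obtain ⟨y, hy, h1⟩ := div_real hm.le (hz'.trans (mul_assoc _ _ _))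
  refine hz ?_
  show ((z - a) / (W * (b - z))).im = 0 ∧ 0 ≤ ((z - a) / (W * (b - z))).re
  rw [h1]
  simpa using hy

theorem exists_ctx0 {n N : ℕ} {E : List Edge} (h : WFE n N E) (hN : 3 ≤ N) {p f : ℕ → ℂ}
    (H : Core N E p f) : ∃ C : Ctx0, C.n = n ∧ C.N = N ∧ C.E = E := by
  obtain ⟨q, g, H', hq, hg, hv⟩ := core_far H
  have hT := TT_pos hN
  have h1 : ∀ᶠ x : ℝ in Filter.atTop, ∀ u < n, ∀ u' < n, ∀ z,
      Disc q g x u z → Disc q g x u' z → u = u' := by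
    refine (Filter.eventually_all_finite (Set.finite_Iio n)).2 fun u _ =>
      (Filter.eventually_all_finite (Set.finite_Iio n)).2 fun u' _ => ?_
    by_cases e : u = u'
    · exact Filter.Eventually.of_forall fun _ _ _ _ => e
    obtain ⟨s, t, hs, ht, hst⟩ := t2_separation_nhds (fun hc => e (hq hc))
    filter_upwards [y2_small hs ‖g u‖, y2_small ht ‖g u'‖] with x a b z hz hz'
    exact absurd (b z hz') (Set.disjoint_left.1 hst (a z hz))
  have h2 : ∀ᶠ x : ℝ in Filter.atTop, ∀ a ∈ halves E, ∀ w < n, w ≠ a.1 → w ≠ a.2.2 → ∀ z,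
      OnArc (q a.1) (q a.2.2) (Wh N q g a.1 a.2.1 a.2.2) z → ¬ Disc q g x w z := by
    refine (Filter.eventually_all_finite (halves E).finite_toSet).2 fun a ha =>
      (Filter.eventually_all_finite (Set.finite_Iio n)).2 fun w _ => ?_
    by_cases e1 : w = a.1
    · exact Filter.Eventually.of_forall fun _ hc => absurd e1 hc
    by_cases e2 : w = a.2.2
    · exact Filter.Eventually.of_forall fun _ _ hc => absurd e2 hc
    obtain ⟨b1, -, e, he, -, b2⟩ := half_edge H' (u := a.1) (k := a.2.1) (v := a.2.2) ha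
    have := y2_off (slitPlane_ne_zero b1) (fun hc => e1 (hq hc)) (fun hc => e2 (hq hc))
      fun hc => hv e he w (b2 _ hc)
    filter_upwards [y2_small this ‖g w‖] with x hx _ _ z hz hd
    exact hx z hd hz
  have h3 : ∀ᶠ x : ℝ in Filter.atTop, ∀ a ∈ halves E,
      ‖Wh N q g a.1 a.2.1 a.2.2‖ * (4 + 5 * TT N) < TT N * x := by
    refine (Filter.eventually_all_finite (halves E).finite_toSet).2 fun a _ => ?_
    filter_upwards [Filter.eventually_gt_atTop
      (‖Wh N q g a.1 a.2.1 a.2.2‖ * (4 + 5 * TT N) / TT N)] with x hx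
    rwa [div_lt_iff₀ hT, mul_comm x] at hx
  obtain ⟨x, a0, a1, a2, a3⟩ := ((Filter.eventually_gt_atTop (0 : ℝ)).and (h1.and (h2.and h3))).exists
  exact ⟨⟨n, N, E, q, g, x, h, hN, H', hq, hg, a0, a1, fun u k v hh => a2 _ hh,
    fun u k v hh => a3 _ hh⟩, rfl, rfl, rfl⟩

end Pool.Agent.Lib.MP_242159_lc

namespace Pool.Agent.Lib.MP_242159_lc

open Complex

variable {n N : ℕ} {E : List Edge} {p f : ℕ → ℂ} {u k v k' : ℕ} {z : ℂ} {κ x0 ρ : ℝ}

theorem dual_rho (h : WFE n N E) (H : Core N E p f) (h1 : (u, k, v) ∈ halves E)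
    (h2 : (v, k', u) ∈ halves E) : ∃ ρ : ℝ, 0 < ρ ∧ Wh N p f v k' u * Wh N p f u k v = ρ := by
  obtain ⟨-, ⟨j, hj, ρ, hρ, e⟩, -⟩ := half_edge H h1
  have : j = k' := h.par _ hj _ h2 rfl rfl
  subst this
  exact ⟨ρ, hρ, e⟩

theorem dual_w (hρ : Wh N p f v k' u * Wh N p f u k v = ρ) (huv : p u ≠ p v) (h1 : z ≠ p u)
    (h2 : z ≠ p v) :
    (yc N p f v k' z - Wh N p f v k' u) * (yc N p f u k z - Wh N p f u k v) = ρ := by
  rw [← hρ]
  have a1 := sub_ne_zero.2 huv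
  have a2 := sub_ne_zero.2 huv.symm
  have a3 := sub_ne_zero.2 h1
  have a4 := sub_ne_zero.2 h2
  unfold yc Wh
  field_simp
  ring

theorem Sec.re_pos {w : ℂ} (hκ : 0 < κ) (h : Sec κ w) : 0 < w.re :=
  (mul_pos_iff_of_pos_left hκ).1 ((abs_nonneg _).trans_lt h)

theorem Sec.norm_le {w : ℂ} (hκ : κ ≤ 1) (hκ0 : 0 < κ) (h : Sec κ w) : ‖w‖ ≤ 2 * w.re := by
  have h1 := h.re_pos hκ0
  have h2 := norm_le_abs_re_add_abs_im w
  rw [abs_of_pos h1] at h2
  unfold Sec at h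
  nlinarith

theorem y3_dual {w w' : ℂ} (hρ : 0 < ρ) (e : w' * w = ρ) :
    ∃ s : ℝ, 0 < s ∧ w'.re = s * w.re ∧ w'.im = -(s * w.im) := by
  have h0 : w ≠ 0 := by
    rintro rfl
    rw [mul_zero] at e
    exact hρ.ne' (by exact_mod_cast e.symm)
  have h1 : 0 < normSq w := normSq_pos.2 h0
  have h2 : w' = ((ρ / normSq w : ℝ) : ℂ) * (starRingEnd ℂ) w := by
    have h3 : (normSq w : ℂ) ≠ 0 := by exact_mod_cast h1.ne'
    push_cast
    rw [← e, ← mul_conj]
    have h4 : (starRingEnd ℂ) w ≠ 0 := by simpa using h0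
    field_simp
  refine ⟨ρ / normSq w, div_pos hρ h1, ?_, ?_⟩
  · rw [h2, re_ofReal_mul, conj_re]
  · rw [h2, im_ofReal_mul, conj_im, mul_neg]

theorem Sec.dual {w w' : ℂ} (hρ : 0 < ρ) (e : w' * w = ρ) (h : Sec κ w) : Sec κ w' := by
  obtain ⟨s, hs, e1, e2⟩ := y3_dual hρ e
  unfold Sec at h ⊢
  rw [e1, e2, abs_neg, abs_mul, abs_of_pos hs, mul_left_comm]
  exact mul_lt_mul_of_pos_left h hs

theorem im_dual {w w' : ℂ} (hρ : 0 < ρ) (e : w' * w = ρ) :
    (w'.im < 0 ↔ 0 < w.im) ∧ (w'.im = 0 ↔ w.im = 0) ∧ (0 < w'.im ↔ w.im < 0) := by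
  obtain ⟨s, hs, -, e2⟩ := y3_dual hρ e
  rw [e2]
  refine ⟨?_, ?_, ?_⟩
  · rw [neg_lt_zero, mul_pos_iff_of_pos_left hs]
  · rw [neg_eq_zero, mul_eq_zero, or_iff_right hs.ne']
  · rw [neg_pos, ← neg_pos, ← mul_neg, mul_pos_iff_of_pos_left hs, neg_pos]

theorem Lens.ne (h : Lens N p f κ u k v z) : z ≠ p v := by
  rintro rfl
  have := h.2
  simp [Sec, yc, Wh] at this

theorem Lens.symm (hρ0 : 0 < ρ) (hρ : Wh N p f v k' u * Wh N p f u k v = ρ) (huv : p u ≠ p v)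
    (h : Lens N p f κ u k v z) : Lens N p f κ v k' u z :=
  ⟨h.ne, h.2.dual hρ0 (dual_w hρ huv h.1 h.ne)⟩

theorem onArc_iff_w (hf : f u ≠ 0) (huv : p u ≠ p v) (h1 : z ≠ p u) :
    OnArc (p u) (p v) (Wh N p f u k v) z ↔
      ∃ r : ℝ, 0 < r ∧ yc N p f u k z - Wh N p f u k v = r := by
  have a2 := sub_ne_zero.2 huv.symm
  have a3 := sub_ne_zero.2 h1
  have key : yc N p f u k z - Wh N p f u k v = Wh N p f u k v * (p v - z) / (z - p u) := by
    unfold yc Wh
    field_simp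
    ring
  rw [key]
  constructor
  · rintro ⟨l, hl, e⟩
    have a4 : (l : ℂ) ≠ 0 := by exact_mod_cast hl.ne'
    refine ⟨l⁻¹, inv_pos.2 hl, ?_⟩
    rw [div_eq_iff a3, e]
    push_cast
    field_simp
  · rintro ⟨r, hr, e⟩
    have a4 : (r : ℂ) ≠ 0 := by exact_mod_cast hr.ne'
    refine ⟨r⁻¹, inv_pos.2 hr, ?_⟩
    rw [div_eq_iff a3] at e
    rw [mul_assoc, e]
    push_cast
    field_simp

theorem disc_iff (k : ℕ) (h1 : z ≠ p u) : Disc p f x0 u z ↔ x0 ≤ ‖yc N p f u k z‖ := by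
  have a3 : 0 < ‖z - p u‖ := norm_pos_iff.2 (sub_ne_zero.2 h1)
  rw [Disc, yc, norm_div, norm_mul, norm_rt, mul_one, le_div_iff₀ a3]

theorem yc_chart (hf : f u ≠ 0) {y : ℂ} (hy : y ≠ 0) :
    p u + f u * rt N k / y ≠ p u ∧ yc N p f u k (p u + f u * rt N k / y) = y := by
  have a1 : f u * rt N k ≠ 0 := mul_ne_zero hf (rt_ne' _ _)
  refine ⟨fun h => div_ne_zero a1 hy (by simpa using h), ?_⟩
  rw [yc, add_sub_cancel_left, div_div_cancel₀ a1]

theorem chart_yc (hf : f u ≠ 0) (h1 : z ≠ p u) :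
    yc N p f u k z ≠ 0 ∧ z = p u + f u * rt N k / yc N p f u k z := by
  have a1 : f u * rt N k ≠ 0 := mul_ne_zero hf (rt_ne' _ _)
  have a3 := sub_ne_zero.2 h1
  refine ⟨div_ne_zero a1 a3, ?_⟩
  rw [yc, div_div_cancel₀ a1]
  ring

theorem Ctx0.small (C : Ctx0) (h : (u, k, v) ∈ halves C.E) :
    5 * ‖Wh C.N C.p C.f u k v‖ < C.x0 ∧ 4 * ‖Wh C.N C.p C.f u k v‖ < TT C.N * C.x0 := by
  have h1 := C.big u k v h
  have h2 := TT_pos C.hN
  have h3 := norm_nonneg (Wh C.N C.p C.f u k v)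
  constructor
  · refine lt_of_mul_lt_mul_left (a := TT C.N) ?_ h2.le
    nlinarith
  · nlinarith

theorem Ctx0.cone (C : Ctx0) (h : (u, k, v) ∈ halves C.E) (hκ0 : 0 < κ) (hκ : 2 * κ ≤ TT C.N)
    (hκ1 : κ ≤ 1) (H : Lens C.N C.p C.f κ u k v z) (hd : Disc C.p C.f C.x0 u z) :
    Sec (TT C.N) (yc C.N C.p C.f u k z) := by
  have h1 := C.big u k v h
  have h2 := TT_pos C.hN
  rw [disc_iff (N := C.N) k H.1] at hd
  have h3 := H.2
  have h4 := h3.norm_le hκ1 hκ0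
  have h5 := h3.re_pos hκ0
  generalize yc C.N C.p C.f u k z = y at *
  generalize Wh C.N C.p C.f u k v = W at *
  obtain ⟨w, rfl⟩ : ∃ w, y = W + w := ⟨y - W, by ring⟩
  rw [add_sub_cancel_left] at h3 h4 h5
  have h6 := norm_add_le W w
  have h7 := abs_re_le_norm W
  have h8 := abs_im_le_norm W
  have h9 := neg_abs_le W.re
  unfold Sec at h3 ⊢
  rw [add_re, add_im]
  have h10 := abs_add_le W.im w.im
  have h11 : C.x0 - ‖W‖ ≤ 2 * w.re := by linarith
  have h12 : TT C.N * (C.x0 - ‖W‖) ≤ TT C.N * (2 * w.re) := mul_le_mul_of_nonneg_left h11 h2.le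
  have h13 : 2 * κ * w.re ≤ TT C.N * w.re := mul_le_mul_of_nonneg_right hκ h5.le
  have h14 : TT C.N * (-‖W‖) ≤ TT C.N * W.re := mul_le_mul_of_nonneg_left (by linarith) h2.le
  nlinarith

end Pool.Agent.Lib.MP_242159_lc

namespace Pool.Agent.Lib.MP_242159_lc

open Complex

open Filter Topology

theorem y4_ne {W : ℂ} (hW : W ∈ slitPlane) {r : ℝ} (hr : 0 ≤ r) : W + r ≠ 0 := by
  intro h
  have h1 := congrArg re h
  have h2 := congrArg im h
  simp only [add_re, ofReal_re, zero_re, add_im, ofReal_im, add_zero, zero_im] at h1 h2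
  rcases mem_slitPlane_iff.1 hW with h3 | h3
  · linarith
  · exact h3 h2

/-- the middle part of a thin lens stays in any open set around the arc -/
theorem Ctx0.tube (C : Ctx0) {u k v : ℕ} (h : (u, k, v) ∈ halves C.E) {U : Set ℂ} (hU : IsOpen U)
    {δ M : ℝ} (hδ : 0 < δ)
    (H : ∀ r ∈ Set.Icc δ M, C.p u + C.f u * rt C.N k / (Wh C.N C.p C.f u k v + r) ∈ U) :
    ∀ᶠ κ in 𝓝[>] (0 : ℝ), ∀ z, Lens C.N C.p C.f κ u k v z →
      (yc C.N C.p C.f u k z - Wh C.N C.p C.f u k v).re ∈ Set.Icc δ M → z ∈ U := by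
  have hW := (half_edge C.core h).1
  have h1 : ∀ᶠ t : ℝ in 𝓝 0, ∀ r ∈ Set.Icc δ M,
      C.p u + C.f u * rt C.N k / (Wh C.N C.p C.f u k v + r + t * I) ∈ U := by
    refine isCompact_Icc.eventually_forall_of_forall_eventually fun r hr => ?_
    have hc : ContinuousAt (fun x : ℝ × ℝ =>
        C.p u + C.f u * rt C.N k / (Wh C.N C.p C.f u k v + x.2 + x.1 * I)) (0, r) :=
      continuousAt_const.add (ContinuousAt.div continuousAt_const (by fun_prop)
        (by simpa using y4_ne hW (hδ.le.trans hr.1)))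
    exact hc (hU.mem_nhds (by simpa using H r hr))
  obtain ⟨ε, hε, h2⟩ := Metric.eventually_nhds_iff.1 h1
  have h3 : ∀ᶠ κ : ℝ in 𝓝 0, κ * M < ε :=
    (by fun_prop : ContinuousAt (fun κ : ℝ => κ * M) 0).eventually_lt continuousAt_const
      (by simpa using hε)
  filter_upwards [nhdsWithin_le_nhds h3, self_mem_nhdsWithin] with κ h4 (h5 : 0 < κ) z hz hr
  have h6 := h2 (y := (yc C.N C.p C.f u k z - Wh C.N C.p C.f u k v).im) (by
    rw [Real.dist_eq, sub_zero]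
    exact hz.2.trans_le ((mul_le_mul_of_nonneg_left hr.2 h5.le).trans h4.le)) _ hr
  rw [add_assoc, re_add_im, add_sub_cancel] at h6
  rw [(chart_yc (N := C.N) (k := k) (C.fne u) hz.1).2]
  exact h6

/-- outside the two discs the real part of the lens coordinate is bounded on both sides -/
theorem Ctx0.range (C : Ctx0) {u k v : ℕ} (h : (u, k, v) ∈ halves C.E) :
    ∃ δ M : ℝ, 0 < δ ∧ ∀ κ : ℝ, 0 < κ → κ ≤ 1 → ∀ z, Lens C.N C.p C.f κ u k v z →
      ¬ Disc C.p C.f C.x0 u z → ¬ Disc C.p C.f C.x0 v z →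
      (yc C.N C.p C.f u k z - Wh C.N C.p C.f u k v).re ∈ Set.Icc δ M := by
  obtain ⟨k', h'⟩ := halves_symm h
  obtain ⟨ρ, hρ, he⟩ := dual_rho C.wf C.core h h'
  have hx := C.pos
  have huv : C.p u ≠ C.p v := fun e => (half_lt C.wf h).2.2.2 (C.inj e)
  have hM : 0 < C.x0 + ‖Wh C.N C.p C.f v k' u‖ := by positivity
  refine ⟨ρ / (2 * (C.x0 + ‖Wh C.N C.p C.f v k' u‖)), C.x0 + ‖Wh C.N C.p C.f u k v‖,
    by positivity, fun κ h0 h1 z hz hu hv => ⟨?_, ?_⟩⟩
  · rw [disc_iff (N := C.N) k' hz.ne, not_le] at hv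
    have h2 := congrArg norm (dual_w he huv hz.1 hz.ne)
    rw [norm_mul, norm_real, Real.norm_eq_abs, abs_of_pos hρ] at h2
    have h3 := hz.2.norm_le h1 h0
    have h4 := norm_sub_le (yc C.N C.p C.f v k' z) (Wh C.N C.p C.f v k' u)
    have h5 := mul_le_mul (h4.trans (add_le_add_left hv.le _)) h3 (norm_nonneg _) hM.le
    rw [div_le_iff₀ (by positivity)]
    linarith
  · rw [disc_iff (N := C.N) k hz.1, not_le] at hu
    exact (re_le_norm _).trans ((norm_sub_le _ _).trans (add_le_add_left hu.le _))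

theorem Ctx0.y4_on (C : Ctx0) {u k v : ℕ} (h : (u, k, v) ∈ halves C.E) {r : ℝ} (hr : 0 < r) :
    OnArc (C.p u) (C.p v) (Wh C.N C.p C.f u k v)
      (C.p u + C.f u * rt C.N k / (Wh C.N C.p C.f u k v + r)) := by
  have huv : C.p u ≠ C.p v := fun e => (half_lt C.wf h).2.2.2 (C.inj e)
  obtain ⟨h1, h2⟩ := yc_chart (N := C.N) (p := C.p) (k := k) (C.fne u)
    (y4_ne (half_edge C.core h).1 hr.le)
  exact (onArc_iff_w (C.fne u) huv h1).2 ⟨r, hr, by rw [h2, add_sub_cancel_left]⟩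

theorem Ctx0.y4_far (C : Ctx0) {u k v : ℕ} (h : (u, k, v) ∈ halves C.E) :
    ∀ᶠ κ in 𝓝[>] (0 : ℝ), ¬ Sec κ (-Wh C.N C.p C.f u k v) := by
  rcases mem_slitPlane_iff.1 (half_edge C.core h).1 with h1 | h1
  · filter_upwards [self_mem_nhdsWithin] with κ (hκ : 0 < κ) hs
    have := hs.re_pos hκ
    rw [neg_re] at this
    linarith
  · have h2 : ∀ᶠ κ : ℝ in 𝓝 0, κ * (-Wh C.N C.p C.f u k v).re < |(-Wh C.N C.p C.f u k v).im| :=
      (by fun_prop : ContinuousAt (fun κ : ℝ => κ * (-Wh C.N C.p C.f u k v).re) 0).eventually_lt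
        continuousAt_const (by simpa using h1)
    filter_upwards [nhdsWithin_le_nhds h2] with κ h3 hs
    exact lt_asymm h3 hs

theorem y4_one : ∀ᶠ κ in 𝓝[>] (0 : ℝ), 0 < κ ∧ κ ≤ 1 :=
  Ioc_mem_nhdsGT one_pos

theorem Ctx0.y4_lend (C : Ctx0) {u k v : ℕ} (h : (u, k, v) ∈ halves C.E) {w : ℕ} (hw : w < C.n) :
    ∀ᶠ κ in 𝓝[>] (0 : ℝ), ∀ z, Lens C.N C.p C.f κ u k v z → Disc C.p C.f C.x0 w z →
      w = u ∨ w = v := by
  by_cases h0 : w = u ∨ w = v
  · exact Eventually.of_forall fun _ _ _ _ => h0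
  rw [not_or] at h0
  obtain ⟨δ, M, hδ, hr⟩ := C.range h
  obtain ⟨hu, -, hv, -⟩ := half_lt C.wf h
  have hU : IsOpen {z : ℂ | ‖C.f w‖ < C.x0 * ‖z - C.p w‖} :=
    isOpen_lt continuous_const (by fun_prop)
  filter_upwards [C.tube h hU hδ (M := M) fun r hr =>
    not_le.1 (C.arcd u k v h w hw h0.1 h0.2 _ (C.y4_on h (hδ.trans_le hr.1))), y4_one]
    with κ h1 h2 z hz hd
  exact absurd hd (not_le.2 (h1 z hz (hr κ h2.1 h2.2 z hz
    (fun e => h0.1 (C.disc w hw u hu z hd e)) fun e => h0.2 (C.disc w hw v hv z hd e))))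

theorem Ctx0.y4_mids (C : Ctx0) {u k v u' k' v' : ℕ} (h : (u, k, v) ∈ halves C.E)
    (h' : (u', k', v') ∈ halves C.E) : ∀ᶠ κ in 𝓝[>] (0 : ℝ), ∀ z,
      Lens C.N C.p C.f κ u k v z → Lens C.N C.p C.f κ u' k' v' z → ¬ Disc C.p C.f C.x0 u z →
      ¬ Disc C.p C.f C.x0 v z → ¬ Disc C.p C.f C.x0 u' z → ¬ Disc C.p C.f C.x0 v' z →
      s(u, v) = s(u', v') := by
  by_cases h0 : s(u, v) = s(u', v')
  · exact Eventually.of_forall fun _ _ _ _ _ _ _ _ => h0
  obtain ⟨δ, M, hδ, hr⟩ := C.range h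
  obtain ⟨δ', M', hδ', hr'⟩ := C.range h'
  have cpt : ∀ {u k v : ℕ}, (u, k, v) ∈ halves C.E → ∀ δ M : ℝ, 0 < δ → IsCompact
      ((fun r : ℝ => C.p u + C.f u * rt C.N k / (Wh C.N C.p C.f u k v + r)) '' Set.Icc δ M) :=
    fun h δ M hδ => isCompact_Icc.image_of_continuousOn (continuousOn_const.add
      (ContinuousOn.div continuousOn_const (by fun_prop)
        fun r hr => y4_ne (half_edge C.core h).1 (hδ.le.trans hr.1)))
  obtain ⟨U, V, hU, hV, h1, h2, h3⟩ :=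
    SeparatedNhds.of_isCompact_isCompact (cpt h δ M hδ) (cpt h' δ' M' hδ') (by
      rw [Set.disjoint_left]
      rintro z ⟨r, a1, a2⟩ ⟨r', b1, b2⟩
      obtain ⟨-, -, e, he, c1, c2⟩ := half_edge C.core h
      obtain ⟨-, -, e', he', d1, d2⟩ := half_edge C.core h'
      exact C.core.cross e he e' he' (by rwa [← c1, ← d1]) z
        (c2 _ (a2 ▸ C.y4_on h (hδ.trans_le a1.1))) (d2 _ (b2 ▸ C.y4_on h' (hδ'.trans_le b1.1))))
  filter_upwards [C.tube h hU hδ (M := M) fun r hr => h1 ⟨r, hr, rfl⟩,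
    C.tube h' hV hδ' (M := M') fun r hr => h2 ⟨r, hr, rfl⟩, y4_one]
    with κ a1 a2 a3 z b1 b2 b3 b4 b5 b6
  exact absurd (a2 z b2 (hr' κ a3.1 a3.2 z b2 b5 b6))
    (Set.disjoint_left.1 h3 (a1 z b1 (hr κ a3.1 a3.2 z b1 b3 b4)))

theorem exists_ctx (C : Ctx0) : ∃ D : Ctx, D.toCtx0 = C := by
  have fin := (halves C.E).finite_toSet
  have h1 : ∀ᶠ κ in 𝓝[>] (0 : ℝ), ∀ a ∈ halves C.E, ¬ Sec κ (-Wh C.N C.p C.f a.1 a.2.1 a.2.2) :=
    (eventually_all_finite fin).2 fun a ha => C.y4_far ha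
  have h2 : ∀ᶠ κ in 𝓝[>] (0 : ℝ), ∀ a ∈ halves C.E, ∀ w < C.n, ∀ z,
      Lens C.N C.p C.f κ a.1 a.2.1 a.2.2 z → Disc C.p C.f C.x0 w z → w = a.1 ∨ w = a.2.2 :=
    (eventually_all_finite fin).2 fun a ha =>
      (eventually_all_finite (Set.finite_Iio C.n)).2 fun w hw => C.y4_lend ha hw
  have h3 : ∀ᶠ κ in 𝓝[>] (0 : ℝ), ∀ a ∈ halves C.E, ∀ b ∈ halves C.E, ∀ z,
      Lens C.N C.p C.f κ a.1 a.2.1 a.2.2 z → Lens C.N C.p C.f κ b.1 b.2.1 b.2.2 z →
      ¬ Disc C.p C.f C.x0 a.1 z → ¬ Disc C.p C.f C.x0 a.2.2 z → ¬ Disc C.p C.f C.x0 b.1 z →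
      ¬ Disc C.p C.f C.x0 b.2.2 z → s(a.1, a.2.2) = s(b.1, b.2.2) :=
    (eventually_all_finite fin).2 fun a ha => (eventually_all_finite fin).2 fun b hb =>
      C.y4_mids ha hb
  have h4 : ∀ᶠ κ in 𝓝[>] (0 : ℝ), κ ∈ Set.Ioc 0 (TT C.N / 2) :=
    Ioc_mem_nhdsGT (half_pos (TT_pos C.hN))
  obtain ⟨κ, a1, a2, a3, a4, a5⟩ := (h1.and (h2.and (h3.and (h4.and y4_one)))).exists
  obtain ⟨τ, rfl⟩ : ∃ τ, κ = 3 * τ := ⟨κ / 3, by ring⟩
  exact ⟨⟨C, τ, by linarith [a5.1], by linarith [a4.2], a5.2, fun u k v h => a1 (u, k, v) h,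
    fun u k v h => a2 (u, k, v) h, fun u k v h u' k' v' h' => a3 (u, k, v) h (u', k', v') h'⟩, rfl⟩

end Pool.Agent.Lib.MP_242159_lc

namespace Pool.Agent.Lib.MP_242159_lc

open Complex

namespace Ctx

variable (C : Ctx) {u k v k' : ℕ} {z : ℂ}

theorem Blk.disc {C : Ctx} (h : C.Blk u k z) : Disc C.p C.f C.x0 u z :=
  (disc_iff (N := C.N) k h.1).2 (h.2.1.trans (re_le_norm _))

theorem y5_self (w : ℕ) : Disc C.p C.f C.x0 w (C.p w) := by
  simp [Disc]

theorem lens_vert (h : (u, k, v) ∈ halves C.E) {w : ℕ} (hw : w < C.n) :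
    ¬ Lens C.N C.p C.f (3 * C.τ) u k v (C.p w) := by
  intro H
  rcases C.lend u k v h w hw _ H (C.y5_self w) with rfl | rfl
  · exact H.1 rfl
  · exact H.ne rfl

theorem y5_yc (u k : ℕ) (z : ℂ) :
    yc C.N C.p C.f u k z = C.f u / (z - C.p u) * rt C.N k := by
  unfold yc
  ring

theorem y5_cone (h : (u, k, v) ∈ halves C.E) (H : Lens C.N C.p C.f (3 * C.τ) u k v z)
    (hd : Disc C.p C.f C.x0 u z) :
    -(TT C.N * (yc C.N C.p C.f u k z).re) ≤ (yc C.N C.p C.f u k z).im ∧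
      (yc C.N C.p C.f u k z).im < TT C.N * (yc C.N C.p C.f u k z).re := by
  have h0 := C.τpos
  have h1 := C.τT
  have h2 := abs_lt.1 (C.toCtx0.cone h (by linarith) (by linarith) C.τ1 H hd)
  exact ⟨h2.1.le, h2.2⟩

theorem y5_uniq {j : ℕ} (hk : k < C.N) (hj : j < C.N)
    (h1 : -(TT C.N * (yc C.N C.p C.f u k z).re) ≤ (yc C.N C.p C.f u k z).im ∧
      (yc C.N C.p C.f u k z).im < TT C.N * (yc C.N C.p C.f u k z).re)
    (h2 : -(TT C.N * (yc C.N C.p C.f u j z).re) ≤ (yc C.N C.p C.f u j z).im ∧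
      (yc C.N C.p C.f u j z).im < TT C.N * (yc C.N C.p C.f u j z).re) : k = j := by
  rw [C.y5_yc] at h1 h2
  exact cone_uniq C.hN hk hj h1.1 h1.2 h2.1 h2.2

theorem y5_ne (h : (u, k, v) ∈ halves C.E) : C.p u ≠ C.p v := fun e =>
  (half_lt C.wf h).2.2.2 (C.inj e)

theorem y5_symm (h : (u, k, v) ∈ halves C.E) (h2 : (v, k', u) ∈ halves C.E)
    (H : Lens C.N C.p C.f (3 * C.τ) u k v z) : Lens C.N C.p C.f (3 * C.τ) v k' u z := by
  obtain ⟨ρ, hρ0, hρ⟩ := dual_rho C.wf C.core h h2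
  exact H.symm hρ0 hρ (C.y5_ne h)

theorem y5_key {j v' : ℕ} (h : (u, k, v) ∈ halves C.E) (h' : (u, j, v') ∈ halves C.E)
    (H : Lens C.N C.p C.f (3 * C.τ) u k v z) (H' : Lens C.N C.p C.f (3 * C.τ) u j v' z)
    (hd : Disc C.p C.f C.x0 u z) : v = v' :=
  C.wf.dir _ h _ h' rfl (C.y5_uniq (half_lt C.wf h).2.1 (half_lt C.wf h').2.1
    (C.y5_cone h H hd) (C.y5_cone h' H' hd))

theorem y5_end {u' j' v' : ℕ} (h : (u, k, v) ∈ halves C.E) (h' : (u', j', v') ∈ halves C.E)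
    (H : Lens C.N C.p C.f (3 * C.τ) u k v z) (H' : Lens C.N C.p C.f (3 * C.τ) u' j' v' z)
    (hd : Disc C.p C.f C.x0 u z) : s(u, v) = s(u', v') := by
  rcases C.lend u' j' v' h' u (half_lt C.wf h).1 z H' hd with rfl | rfl
  · rw [C.y5_key h h' H H' hd]
  · obtain ⟨i, hi⟩ := halves_symm h'
    rw [C.y5_key h hi H (C.y5_symm h' hi H') hd]
    exact Sym2.eq_swap

theorem lens_lens {u' j' v' : ℕ} (h : (u, k, v) ∈ halves C.E) (h' : (u', j', v') ∈ halves C.E)
    (H : Lens C.N C.p C.f (3 * C.τ) u k v z) (H' : Lens C.N C.p C.f (3 * C.τ) u' j' v' z) :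
    s(u, v) = s(u', v') := by
  obtain ⟨i, hi⟩ := halves_symm h
  obtain ⟨i', hi'⟩ := halves_symm h'
  by_cases d1 : Disc C.p C.f C.x0 u z
  · exact C.y5_end h h' H H' d1
  by_cases d2 : Disc C.p C.f C.x0 v z
  · exact Sym2.eq_swap.trans (C.y5_end hi h' (C.y5_symm h hi H) H' d2)
  by_cases d3 : Disc C.p C.f C.x0 u' z
  · exact (C.y5_end h' h H' H d3).symm
  by_cases d4 : Disc C.p C.f C.x0 v' z
  · exact (Sym2.eq_swap.trans (C.y5_end hi' h (C.y5_symm h' hi' H') H d4)).symm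
  exact C.mids u k v h u' j' v' h' z H H' d1 d2 d3 d4

theorem y5_vb {w : ℕ} (hw : w < C.n) (hu : u < C.n) (hb : C.Blk u k (C.p w)) : False := by
  have e := C.disc w hw u hu _ (C.y5_self w) hb.disc
  subst e
  exact hb.1 rfl

theorem y5_bm1 {j : ℕ} (hj : j < C.N) (hb : C.Blk u j z) (h : (u, k, v) ∈ halves C.E)
    (H : Lens C.N C.p C.f (3 * C.τ) u k v z) (hx : (C.y u k z).re < C.x0) : False := by
  have e := C.y5_uniq (half_lt C.wf h).2.1 hj (C.y5_cone h H hb.disc) ⟨hb.2.2.1, hb.2.2.2⟩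
  subst e
  exact absurd hb.2.1 (not_le.2 hx)

theorem y5_bm {w j : ℕ} (hw : w < C.n) (hj : j < C.N) (hb : C.Blk w j z)
    (h : (u, k, v) ∈ halves C.E) (h2 : (v, k', u) ∈ halves C.E)
    (H : Lens C.N C.p C.f (3 * C.τ) u k v z) (hx : (C.y u k z).re < C.x0)
    (hx' : (C.y v k' z).re < C.x0) : False := by
  rcases C.lend u k v h w hw z H hb.disc with rfl | rfl
  · exact C.y5_bm1 hj hb h H hx
  · exact C.y5_bm1 hj hb h2 (C.y5_symm h h2 H) hx'

theorem y5_swap (h : (u, k, v) ∈ halves C.E) (h2 : (v, k', u) ∈ halves C.E)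
    (H : Lens C.N C.p C.f (3 * C.τ) u k v z) :
    C.labM u k v k' (C.y u k z - Wh C.N C.p C.f u k v) =
      C.labM v k' u k (C.y v k' z - Wh C.N C.p C.f v k' u) := by
  obtain ⟨ρ, hρ0, hρ⟩ := dual_rho C.wf C.core h h2
  obtain ⟨e1, e2, e3⟩ := im_dual hρ0 (dual_w hρ (C.y5_ne h) H.1 H.ne)
  unfold labM y
  rcases lt_trichotomy (yc C.N C.p C.f u k z - Wh C.N C.p C.f u k v).im 0 with g | g | g
  · have g' := e3.2 g
    rw [if_pos g, if_neg (not_lt.2 g'.le), if_neg g'.ne']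
    exact Sym2.eq_swap
  · have g' := e2.2 g
    rw [if_neg (not_lt.2 g.ge), if_pos g, if_neg (not_lt.2 g'.ge), if_pos g']
    exact Sym2.eq_swap
  · have g' := e1.2 g
    rw [if_neg (not_lt.2 g.le), if_neg g.ne', if_pos g']
    exact Sym2.eq_swap

theorem at_uniq (σ σ' : Sym2 ℕ) (z : ℂ) (h : C.At σ z) (h' : C.At σ' z) : σ = σ' := by
  rcases h with ⟨u, hu, rfl, rfl⟩ | ⟨u, hu, k, hk, hb, rfl⟩ |
      ⟨u, k, v, k', h1, h2, H, hx, hy, rfl⟩ <;>
    rcases h' with ⟨w, hw, rfl, e⟩ | ⟨w, hw, j, hj, hb', rfl⟩ |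
      ⟨u', j, v', j', h1', h2', H', hx', hy', rfl⟩
  · rw [C.inj e]
  · exact (C.y5_vb hu hw hb').elim
  · exact (C.lens_vert h1' hu H').elim
  · subst e
    exact (C.y5_vb hw hu hb).elim
  · have e := C.disc u hu w hw z hb.disc hb'.disc
    subst e
    have e := C.y5_uniq hk hj ⟨hb.2.2.1, hb.2.2.2⟩ ⟨hb'.2.2.1, hb'.2.2.2⟩
    subst e
    rfl
  · exact (C.y5_bm hu hk hb h1' h2' H' hx' hy').elim
  · subst e
    exact (C.lens_vert h1 hw H).elim
  · exact (C.y5_bm hw hj hb' h1 h2 H hx hy).elim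
  · rcases Sym2.eq_iff.1 (C.lens_lens h1 h1' H H') with ⟨rfl, rfl⟩ | ⟨rfl, rfl⟩
    · have e1 : k = j := C.wf.par _ h1 _ h1' rfl rfl
      have e2 : k' = j' := C.wf.par _ h2 _ h2' rfl rfl
      subst e1 e2
      rfl
    · have e1 : k = j' := C.wf.par _ h1 _ h2' rfl rfl
      have e2 : k' = j := C.wf.par _ h2 _ h1' rfl rfl
      subst e1 e2
      exact C.y5_swap h1 h2 H

end Ctx

end Pool.Agent.Lib.MP_242159_lc

namespace Pool.Agent.Lib.MP_242159_lc

open Complex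

theorem chart_arc {o F a b δ δ' : ℂ} (hF : F ≠ 0) (ha : a ≠ 0) (hb : b ≠ 0) (h : EOK a b δ δ')
    (h0 : ¬ OnArc a b (δ / (b - a)) 0) :
    EOK (o + F / a) (o + F / b) (-(F / a ^ 2) * δ) (-(F / b ^ 2) * δ') ∧
      ∀ z, OnArc (o + F / a) (o + F / b) (-(F / a ^ 2) * δ / (o + F / b - (o + F / a))) z →
        z ≠ o ∧ OnArc a b (δ / (b - a)) (F / (z - o)) := by
  have h1 := (h.inv ha hb hF h0).affine one_pos o
  have h2 := inv_W (T := δ) ha hb h.ne hF
  refine ⟨by convert h1 using 1 <;> push_cast <;> ring, fun z hz => ?_⟩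
  have h3 : OnArc (F / (a - 0)) (F / (b - 0)) (δ / (b - a) * (b - 0) / (a - 0)) (z - o) := by
    rw [← h2]
    obtain ⟨l, hl, e⟩ := hz
    refine ⟨l, hl, ?_⟩
    rw [show o + F / b - (o + F / a) = F / (b - 0) - F / (a - 0) by ring] at e
    linear_combination e
  have z0 : z - o ≠ 0 := fun e => inv_zero ha hb hF h.1 (e ▸ h3)
  refine ⟨sub_ne_zero.1 z0, (inv_arc ha hb (div_ne_zero hF z0) hF).1 ?_⟩
  rwa [show F / (F / (z - o) - 0) = z - o by rw [sub_zero]; field_simp]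

theorem chart_ray {o F a δ : ℂ} (hF : F ≠ 0) (ha : a ≠ 0) (hδ : δ ≠ 0) (hs : a / δ ∈ slitPlane) :
    EOK o (o + F / a) (F / δ) (-(F / a ^ 2) * δ) ∧
      ∀ z, OnArc o (o + F / a) (F / δ / (o + F / a - o)) z →
        z ≠ o ∧ ∃ l : ℝ, 0 < l ∧ F / (z - o) = a + l * δ := by
  have e : F / δ / (o + F / a - o) = a / δ := by rw [add_sub_cancel_left]; field_simp
  rw [EOK, e]
  refine ⟨⟨hs, 1, one_pos, by push_cast; field_simp; ring⟩, ?_⟩
  rintro z ⟨l, hl, hz⟩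
  have l0 : (l : ℂ) ≠ 0 := by exact_mod_cast hl.ne'
  have z0 : z ≠ o := by
    rintro rfl
    rw [sub_self, add_sub_cancel_left] at hz
    exact mul_ne_zero (mul_ne_zero l0 (div_ne_zero ha hδ)) (div_ne_zero hF ha) hz.symm
  have z1 := sub_ne_zero.2 z0
  refine ⟨z0, l⁻¹, inv_pos.2 hl, ?_⟩
  push_cast
  field_simp at hz ⊢
  linear_combination -hz

theorem seg_down {a b : ℂ} (h1 : a.re = b.re) (h2 : b.im < a.im) :
    EOK a b (-I) I ∧ ∀ y, OnArc a b (-I / (b - a)) y → y.re = a.re ∧ b.im < y.im ∧ y.im < a.im := by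
  have hs : 0 < a.im - b.im := sub_pos.2 h2
  have e0 : b - a = -I * ((a.im - b.im : ℝ) : ℂ) := by
    apply Complex.ext <;> simp [h1]
  have s0 : ((a.im - b.im : ℝ) : ℂ) ≠ 0 := by exact_mod_cast hs.ne'
  have e : -I / (b - a) = (((a.im - b.im)⁻¹ : ℝ) : ℂ) := by
    rw [e0, ofReal_inv]; field_simp
  rw [EOK, e]
  refine ⟨⟨ofReal_mem_slitPlane.2 (inv_pos.2 hs), (a.im - b.im)⁻¹ * (a.im - b.im)⁻¹,
    by positivity, ?_⟩, ?_⟩
  · rw [show a - b = -(b - a) by ring, e0, ofReal_mul, ofReal_inv]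
    field_simp
  · rintro y ⟨l, hl, hy⟩
    have hm : 0 < l * (a.im - b.im)⁻¹ := by positivity
    rw [← ofReal_mul] at hy
    generalize l * (a.im - b.im)⁻¹ = m at hm hy
    have r := congrArg re hy
    have i := congrArg im hy
    simp only [sub_re, sub_im, re_ofReal_mul, im_ofReal_mul] at r i
    refine ⟨?_, ?_, ?_⟩
    · have : (1 + m) * (y.re - a.re) = 0 := by rw [← h1] at r; linarith
      have := (mul_eq_zero.1 this).resolve_left (by positivity)
      linarith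
    · by_contra hc
      push Not at hc
      nlinarith
    · by_contra hc
      push Not at hc
      nlinarith

namespace Ctx

variable (C : Ctx) {u k v j : ℕ} {z : ℂ}

theorem P_big (hu : u < C.n) : C.P u = C.p u := by
  simp only [P, if_pos hu]

theorem F_big (hu : u < C.n) : C.F u = C.f u / rt (4 * C.N) 1 := by
  simp only [F, if_pos hu]

theorem y6_idx (hk : k < C.N) (hj : j < 4) : ¬ C.a u k j < C.n ∧
    (C.a u k j - C.n) / (4 * C.N) = u ∧ (C.a u k j - C.n) % (4 * C.N) / 4 = k ∧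
      (C.a u k j - C.n) % (4 * C.N) % 4 = j := by
  have h : 4 * k + j < 4 * C.N := by omega
  have e : C.a u k j - C.n = u * (4 * C.N) + (4 * k + j) := Nat.add_sub_cancel_left _ _
  rw [e, idx_div h, idx_mod h]
  exact ⟨not_lt.2 (le_aux _ _ _), rfl, by omega, by omega⟩

theorem P_aux (hk : k < C.N) (hj : j < 4) :
    C.P (C.a u k j) = C.p u + C.f u * rt C.N k / C.ya u k j := by
  obtain ⟨h1, h2, h3, h4⟩ := C.y6_idx (u := u) hk hj
  rw [P, if_neg h1, h2, h3, h4]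

theorem F_aux (hk : k < C.N) (hj : j < 4) :
    C.F (C.a u k j) = -(C.f u * rt C.N k / C.ya u k j ^ 2) := by
  obtain ⟨h1, h2, h3, h4⟩ := C.y6_idx (u := u) hk hj
  rw [F, if_neg h1, h2, h3, h4]

theorem mid_real (h : (u, k, v) ∈ halves C.E) :
    (look C.E u k).isEmpty = false ∧ C.mid u k = v ∧ C.c u k = Wh C.N C.p C.f u k v := by
  have h1 : v ∈ look C.E u k := mem_look.2 h
  have h2 : (look C.E u k).isEmpty = false ∧ C.mid u k ∈ look C.E u k := by
    unfold mid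
    revert h1
    cases look C.E u k <;> simp
  have h3 : C.mid u k = v := C.wf.dir _ (mem_look.1 h2.2) _ h rfl rfl
  exact ⟨h2.1, h3, by rw [c, h2.1, h3]; rfl⟩

theorem mid_free (h : look C.E u k = []) : C.mid u k = C.a u k 1 ∧ C.c u k = 0 := by
  simp [mid, c, h]

theorem y6_T : C.τ < TT C.N := by
  have := C.τpos
  have := C.τT
  linarith

theorem y6_c (u k : ℕ) : 5 * ‖C.c u k‖ < C.x0 ∧ 4 * ‖C.c u k‖ < TT C.N * C.x0 := by
  rcases List.eq_nil_or_concat (look C.E u k) with h | ⟨L, v, h⟩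
  · rw [(C.mid_free h).2, norm_zero, mul_zero, mul_zero]
    exact ⟨C.pos, mul_pos (C.τpos.trans C.y6_T) C.pos⟩
  · have h1 : (u, k, v) ∈ halves C.E := mem_look.1 (by rw [h]; simp)
    rw [(C.mid_real h1).2.2]
    exact C.toCtx0.small h1

theorem y6_A (u k : ℕ) : 0 < C.A u k ∧ |(C.c u k).im| + C.τ * C.A u k < TT C.N * C.x0 := by
  obtain ⟨h1, h2⟩ := C.y6_c u k
  have h3 := abs_le.1 (abs_re_le_norm (C.c u k))
  have h4 := abs_im_le_norm (C.c u k)
  have h5 := norm_nonneg (C.c u k)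
  have h6 : 0 < C.A u k := by unfold A; linarith [h3.2]
  have h7 : 5 * C.A u k ≤ 6 * C.x0 := by unfold A; linarith [h3.1]
  have h8 := mul_le_mul_of_nonneg_left h7 C.τpos.le
  have h9 := mul_le_mul_of_nonneg_right C.τT C.pos.le
  have h10 := mul_pos C.τpos C.pos
  exact ⟨h6, by nlinarith⟩

theorem A_pos (u k : ℕ) : 0 < C.A u k := by
  exact (C.y6_A u k).1

theorem low (u k : ℕ) : -(TT C.N * C.x0) < (C.c u k).im - C.τ * C.A u k := by
  have := (C.y6_A u k).2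
  have := neg_abs_le (C.c u k).im
  linarith

theorem high (u k : ℕ) : (C.c u k).im + C.τ * C.A u k < TT C.N * C.x0 := by
  have := (C.y6_A u k).2
  have := le_abs_self (C.c u k).im
  linarith

theorem ya_re (u k j : ℕ) : (C.ya u k j).re = C.x0 := by
  unfold ya
  split_ifs <;> simp [A]

theorem ya_im (u k : ℕ) : (C.ya u k 0).im = (C.c u k).im + C.τ * C.A u k ∧ (C.ya u k 1).im = 0 ∧
    (C.ya u k 2).im = (C.c u k).im - C.τ * C.A u k ∧ (C.ya u k 3).im = -(TT C.N * C.x0) := by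
  refine ⟨?_, ?_, ?_, ?_⟩ <;> simp [ya] <;> ring

theorem ya_ne (u k j : ℕ) : C.ya u k j ≠ 0 := by
  intro h
  have := C.ya_re u k j
  rw [h, zero_re] at this
  exact C.pos.ne this

theorem at_big (hu : u < C.n) : C.At s(u, u) (C.P u) := by
  exact Or.inl ⟨u, hu, rfl, C.P_big hu⟩

theorem at_aux (hu : u < C.n) (hk : k < C.N) (hj : j < 4) (h : j = 1 → look C.E u k = []) :
    C.At s(C.a u k j, C.a u k j) (C.P (C.a u k j)) := by
  obtain ⟨h1, h2⟩ := yc_chart (N := C.N) (p := C.p) (k := k) (C.fne u) (C.ya_ne u k j)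
  rw [← C.P_aux hk hj] at h1 h2
  have h3 : C.y u k (C.P (C.a u k j)) = C.ya u k j := h2
  have r := C.ya_re u k j
  obtain ⟨i0, i1, i2, i3⟩ := C.ya_im u k
  have lo := C.low u k
  have hi := C.high u k
  have tA := mul_pos C.τpos (C.A_pos u k)
  have Tx := mul_pos (C.τpos.trans C.y6_T) C.pos
  refine Or.inr (Or.inl ⟨u, hu, k, hk, ⟨h1, ?_⟩, ?_⟩)
  · rw [h3, r]
    interval_cases j
    · rw [i0]; exact ⟨le_rfl, by linarith, hi⟩
    · rw [i1]; exact ⟨le_rfl, by linarith, Tx⟩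
    · rw [i2]; exact ⟨le_rfl, lo.le, by linarith⟩
    · rw [i3]; exact ⟨le_rfl, le_rfl, by linarith⟩
  · rw [h3, labB, r]
    interval_cases j
    · rw [i0, if_neg (by linarith), if_pos rfl, if_neg (by linarith), if_neg (by linarith),
        if_neg (by linarith), if_neg (by linarith), if_neg (lt_irrefl _), if_pos rfl]
    · have e := (C.mid_free (h rfl)).2
      rw [i1, if_neg (by linarith), if_pos rfl, e, zero_im, if_neg (by linarith),
        if_neg (by linarith), if_neg (lt_irrefl _), if_pos rfl, h rfl]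
      rfl
    · rw [i2, if_neg (by linarith), if_pos rfl, if_neg (lt_irrefl _), if_pos rfl]
    · rw [i3, if_pos rfl, if_pos rfl]

end Ctx

end Pool.Agent.Lib.MP_242159_lc

namespace Pool.Agent.Lib.MP_242159_lc

open Complex

namespace Ctx

variable (C : Ctx) {u k v k' : ℕ}

theorem y7_spoke (hu : u < C.n) (hk : k < C.N) {j d : ℕ} (hj : j < 4)
    (hd : rt (4 * C.N) d * rt (4 * C.N) 1 ^ j = rt (4 * C.N) 1) (hre : 0 < (rt (4 * C.N) d).re)
    (H : ∀ l : ℝ, 0 < l → ∀ y : ℂ, y.re = C.x0 + l * (rt (4 * C.N) d).re →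
      y.im = (C.ya u k j).im + l * (rt (4 * C.N) d).im → C.x0 < y.re →
      -(TT C.N * y.re) ≤ y.im ∧ y.im < TT C.N * y.re ∧ s(u, C.a u k j) = C.labB u k y) :
    C.EA (u, 4 * k + j, C.a u k j, d) := by
  have hr := rt_ne (4 * C.N) 1
  have hδ := rt_ne (4 * C.N) d
  have hF : C.f u * rt C.N k ≠ 0 := mul_ne_zero (C.fne u) (rt_ne _ _)
  have hs : C.ya u k j / rt (4 * C.N) d ∈ slitPlane :=
    slit_div (by rw [C.ya_re]; exact C.pos) hre
  obtain ⟨h1, h2⟩ := chart_ray (o := C.p u) hF (C.ya_ne u k j) hδ hs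
  have e1 : C.F u * rt (4 * C.N) (4 * k + j) = C.f u * rt C.N k / rt (4 * C.N) d := by
    rw [C.F_big hu, rt4_blk C.hN, eq_div_iff hδ]
    field_simp
    linear_combination (C.f u * rt C.N k) * hd
  refine ⟨?_, fun z hz => ?_⟩
  · simp only [e1, C.P_big hu, C.P_aux hk hj, C.F_aux hk hj]
    exact h1
  · simp only [We, e1, C.P_big hu, C.P_aux hk hj] at hz
    obtain ⟨z0, l, hl, e⟩ := h2 z hz
    have e2 : C.y u k z = C.ya u k j + l * rt (4 * C.N) d := e
    have e3 : (C.y u k z).re = C.x0 + l * (rt (4 * C.N) d).re := by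
      rw [e2, add_re, C.ya_re, re_ofReal_mul]
    have e4 : (C.y u k z).im = (C.ya u k j).im + l * (rt (4 * C.N) d).im := by
      rw [e2, add_im, im_ofReal_mul]
    have e5 : C.x0 < (C.y u k z).re := by
      rw [e3]
      have := mul_pos hl hre
      linarith
    obtain ⟨a1, a2, a3⟩ := H l hl _ e3 e4 e5
    exact Or.inr (Or.inl ⟨u, hu, k, hk, ⟨z0, e5.le, a1, a2⟩, a3⟩)

theorem ea_spoke0 (hu : u < C.n) (hk : k < C.N) : C.EA (u, 4 * k, C.a u k 0, 1) := by
  refine C.y7_spoke (j := 0) hu hk (by omega) (by simp) (rt4_re C.hN) fun l hl y e1 e2 e3 => ?_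
  have h1 := C.low u k
  have h2 := C.high u k
  have h3 := mul_pos C.τpos (C.A_pos u k)
  have h4 := mul_pos hl (rt4_im C.hN)
  have h5 := mul_lt_mul_of_pos_left (rt4_im_lt C.hN) hl
  rw [(C.ya_im u k).1] at e2
  have h6 : TT C.N * y.re = TT C.N * C.x0 + l * (TT C.N * (rt (4 * C.N) 1).re) := by
    rw [e1]; ring
  have h7 : -(TT C.N * y.re) < y.im := by linarith
  refine ⟨h7.le, by linarith, ?_⟩
  rw [labB, if_neg h7.ne', if_neg e3.ne', if_neg (by linarith), if_neg (by linarith)]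

theorem ea_spoke1 (hu : u < C.n) (hk : k < C.N) (h : look C.E u k = []) :
    C.EA (u, 4 * k + 1, C.a u k 1, 0) := by
  refine C.y7_spoke (j := 1) hu hk (by omega) (by simp [rt_zero]) (by simp [rt_zero])
    fun l hl y e1 e2 e3 => ?_
  obtain ⟨m1, m2⟩ := C.mid_free h
  rw [(C.ya_im u k).2.1, rt_zero, one_im, mul_zero, add_zero] at e2
  have h1 : 0 < TT C.N * y.re := mul_pos (TT_pos C.hN) (C.pos.trans e3)
  have h7 : -(TT C.N * y.re) < y.im := by linarith
  refine ⟨h7.le, by linarith, ?_⟩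
  rw [labB, if_neg h7.ne', if_neg e3.ne', m2, zero_im, if_neg (by linarith), if_pos e2, m1]

theorem ea_spoke2 (hu : u < C.n) (hk : k < C.N) :
    C.EA (u, 4 * k + 2, C.a u k 2, 4 * C.N - 1) := by
  refine C.y7_spoke (j := 2) hu hk (by omega)
    (by linear_combination rt (4 * C.N) 1 * rt4_last C.hN)
    (by rw [rt4_last_re C.hN]; exact rt4_re C.hN) fun l hl y e1 e2 e3 => ?_
  have h1 := C.low u k
  have h2 := C.high u k
  have h3 := mul_pos C.τpos (C.A_pos u k)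
  have h4 := mul_pos hl (rt4_im C.hN)
  have h5 := mul_lt_mul_of_pos_left (rt4_im_lt C.hN) hl
  rw [(C.ya_im u k).2.2.1, rt4_last_im C.hN] at e2
  rw [rt4_last_re C.hN] at e1
  have h6 : TT C.N * y.re = TT C.N * C.x0 + l * (TT C.N * (rt (4 * C.N) 1).re) := by
    rw [e1]; ring
  have h7 : -(TT C.N * y.re) < y.im := by linarith
  refine ⟨h7.le, by linarith, ?_⟩
  rw [labB, if_neg h7.ne', if_neg e3.ne', if_pos (by linarith)]

theorem ea_spoke3 (hu : u < C.n) (hk : k < C.N) :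
    C.EA (u, 4 * k + 3, C.a u k 3, 4 * C.N - 2) := by
  obtain ⟨R, hR, eR⟩ := rt4_sep C.hN
  have r1 : (rt (4 * C.N) (4 * C.N - 2)).re = R := by rw [eR]; simp
  have r2 : (rt (4 * C.N) (4 * C.N - 2)).im = -(R * TT C.N) := by rw [eR]; simp
  refine C.y7_spoke (j := 3) hu hk (by omega)
    (by linear_combination rt (4 * C.N) 1 * rt4_last2 C.hN)
    (by rw [r1]; exact hR) fun l hl y e1 e2 e3 => ?_
  rw [(C.ya_im u k).2.2.2, r2] at e2
  rw [r1] at e1
  have h1 : 0 < TT C.N * y.re := mul_pos (TT_pos C.hN) (C.pos.trans e3)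
  have h7 : y.im = -(TT C.N * y.re) := by rw [e1, e2]; ring
  refine ⟨h7.ge, by linarith, ?_⟩
  rw [labB, if_pos h7, if_neg e3.ne']

theorem y7_blk (h : (u, k, v) ∈ halves C.E) {z : ℂ} (hz : z ≠ C.p u)
    (him : (C.y u k z - Wh C.N C.p C.f u k v).im = 0) (hre : C.x0 ≤ (C.y u k z).re) :
    C.At s(u, v) z := by
  obtain ⟨hu, hk, -, -⟩ := half_lt C.wf h
  obtain ⟨m1, m2, m3⟩ := C.mid_real h
  have h1 := C.low u k
  have h2 := C.high u k
  have h3 := mul_pos C.τpos (C.A_pos u k)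
  have h4 := mul_le_mul_of_nonneg_left hre (TT_pos C.hN).le
  have e : (C.y u k z).im = (C.c u k).im := by
    rw [sub_im, ← m3] at him
    linarith
  have h7 : -(TT C.N * (C.y u k z).re) < (C.y u k z).im := by linarith
  refine Or.inr (Or.inl ⟨u, hu, k, hk, ⟨hz, hre, h7.le, by linarith⟩, ?_⟩)
  rw [labB, if_neg h7.ne']
  by_cases h8 : (C.y u k z).re = C.x0
  · rw [if_pos h8, if_neg (by linarith), if_neg (by linarith), if_neg (by linarith), if_pos e, m1,
      m2]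
    rfl
  · rw [if_neg h8, if_neg (by linarith), if_pos e, m2]

theorem ea_old (h : (u, k, v, k') ∈ C.E) : C.EA (u, 4 * k + 1, v, 4 * k' + 1) := by
  have h1 : (u, k, v) ∈ halves C.E := mem_halves'.2 ⟨_, h, Or.inl rfl⟩
  have h2 : (v, k', u) ∈ halves C.E := mem_halves'.2 ⟨_, h, Or.inr rfl⟩
  obtain ⟨hu, -, hv, huv⟩ := half_lt C.wf h1
  have hp : C.p u ≠ C.p v := fun e => huv (C.inj e)
  have hr := rt_ne (4 * C.N) 1
  have e : ∀ w < C.n, ∀ j, C.F w * rt (4 * C.N) (4 * j + 1) = C.f w * rt C.N j := by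
    intro w hw j
    rw [C.F_big hw, rt4_blk C.hN]
    field_simp
  have hs : Wh C.N C.p C.f u k v ∈ slitPlane := C.core.slit _ h
  refine ⟨?_, fun z hz => ?_⟩
  · simp only [e u hu, e v hv, C.P_big hu, C.P_big hv]
    exact ⟨C.core.slit _ h, C.core.tan _ h⟩
  · simp only [We, e u hu, C.P_big hu, C.P_big hv] at hz
    replace hz : OnArc (C.p u) (C.p v) (Wh C.N C.p C.f u k v) z := hz
    have z1 : z ≠ C.p u := by
      rintro rfl
      exact not_onArc_left hp (slitPlane_ne_zero hs) hz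
    have z2 : z ≠ C.p v := by
      rintro rfl
      exact not_onArc_right hp hz
    obtain ⟨r, hr, er⟩ := (onArc_iff_w (C.fne u) hp z1).1 hz
    replace er : C.y u k z - Wh C.N C.p C.f u k v = r := er
    obtain ⟨ρ, hρ, eρ⟩ := dual_rho C.wf C.core h1 h2
    have i1 : (C.y u k z - Wh C.N C.p C.f u k v).im = 0 := by rw [er, ofReal_im]
    have i2 : (C.y v k' z - Wh C.N C.p C.f v k' u).im = 0 :=
      (im_dual hρ (dual_w eρ hp z1 z2)).2.1.2 i1
    show C.At s(u, v) z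
    rcases le_or_gt C.x0 (C.y u k z).re with a | a
    · exact C.y7_blk h1 z1 i1 a
    rcases le_or_gt C.x0 (C.y v k' z).re with b | b
    · rw [Sym2.eq_swap]
      exact C.y7_blk h2 z2 i2 b
    refine Or.inr (Or.inr ⟨u, k, v, k', h1, h2, ⟨z1, ?_⟩, a, b, ?_⟩)
    · show Sec (3 * C.τ) (C.y u k z - Wh C.N C.p C.f u k v)
      rw [er, Sec, ofReal_im, ofReal_re, abs_zero]
      have := C.τpos
      positivity
    · rw [labM, if_neg (by rw [i1]; exact lt_irrefl _), if_pos i1]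

end Ctx

end Pool.Agent.Lib.MP_242159_lc

namespace Pool.Agent.Lib.MP_242159_lc

open Complex

namespace Ctx

variable (C : Ctx) {u k : ℕ}

/-- A vertical segment on the rim of a block is a good edge. -/
theorem y8_rim (hu : u < C.n) (hk : k < C.N) {a b : ℂ} {s t d d' : ℕ}
    (ha : a.re = C.x0) (hb : b.re = C.x0) (hab : b.im < a.im)
    (hlo : -(TT C.N * C.x0) ≤ b.im) (hhi : a.im ≤ TT C.N * C.x0)
    (hs : C.P s = C.p u + C.f u * rt C.N k / a) (ht : C.P t = C.p u + C.f u * rt C.N k / b)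
    (hFs : C.F s * rt (4 * C.N) d = -(C.f u * rt C.N k / a ^ 2) * (-I))
    (hFt : C.F t * rt (4 * C.N) d' = -(C.f u * rt C.N k / b ^ 2) * I)
    (hl : ∀ y : ℂ, y.re = C.x0 → b.im < y.im → y.im < a.im → C.labB u k y = s(s, t)) :
    C.EA (s, d, t, d') := by
  have hx := C.pos
  have hF : C.f u * rt C.N k ≠ 0 := mul_ne_zero (C.fne u) (rt_ne' _ _)
  have ha0 : a ≠ 0 := by
    rintro rfl
    simp only [zero_re] at ha
    linarith
  have hb0 : b ≠ 0 := by
    rintro rfl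
    simp only [zero_re] at hb
    linarith
  obtain ⟨h1, h2⟩ := seg_down (a := a) (b := b) (ha.trans hb.symm) hab
  have h0 : ¬ OnArc a b (-I / (b - a)) 0 := by
    intro h
    have := (h2 0 h).1
    simp only [zero_re] at this
    linarith
  obtain ⟨h3, h4⟩ := chart_arc (o := C.p u) hF ha0 hb0 h1 h0
  refine ⟨?_, ?_⟩
  · show EOK (C.P s) (C.P t) (C.F s * rt (4 * C.N) d) (C.F t * rt (4 * C.N) d')
    rw [hs, ht, hFs, hFt]
    exact h3
  · intro z hz
    have hz' : OnArc (C.P s) (C.P t) (C.F s * rt (4 * C.N) d / (C.P t - C.P s)) z := hz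
    rw [hs, ht, hFs] at hz'
    obtain ⟨h5, h6⟩ := h4 z hz'
    obtain ⟨h7, h8, h9⟩ := h2 _ h6
    have hy : C.y u k z = C.f u * rt C.N k / (z - C.p u) := rfl
    rw [← hy] at h7 h8 h9
    rw [ha] at h7
    refine Or.inr (Or.inl ⟨u, hu, k, hk, ⟨h5, h7.ge, ?_, ?_⟩, (hl _ h7 h8 h9).symm⟩)
    · rw [h7]; linarith
    · rw [h7]; linarith

theorem y8_tA (u k : ℕ) : 0 < C.τ * C.A u k := mul_pos C.τpos (C.A_pos u k)

theorem y8_down (hk : k < C.N) {j : ℕ} (hj : j < 4) :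
    C.F (C.a u k j) * rt (4 * C.N) (3 * C.N) = -(C.f u * rt C.N k / C.ya u k j ^ 2) * (-I) := by
  rw [C.F_aux hk hj, rt4_3N C.hN]

theorem y8_up (hk : k < C.N) {j : ℕ} (hj : j < 4) :
    C.F (C.a u k j) * rt (4 * C.N) C.N = -(C.f u * rt C.N k / C.ya u k j ^ 2) * I := by
  rw [C.F_aux hk hj, rt4_N C.hN]

theorem ea_rim01 (hu : u < C.n) (hk : k < C.N) (h : look C.E u k = []) :
    C.EA (C.a u k 0, 3 * C.N, C.a u k 1, C.N) := by
  obtain ⟨e0, e1, -, -⟩ := C.ya_im u k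
  have hc : (C.c u k).im = 0 := by rw [(C.mid_free h).2, zero_im]
  have hA := C.y8_tA u k
  have hlo := C.low u k
  have hhi := C.high u k
  refine C.y8_rim hu hk (C.ya_re u k 0) (C.ya_re u k 1) (by rw [e0, e1]; linarith)
    (by rw [e1]; linarith) (by rw [e0]; linarith) (C.P_aux hk (by omega)) (C.P_aux hk (by omega))
    (C.y8_down hk (by omega)) (C.y8_up hk (by omega)) ?_
  intro y h1 h2 h3
  rw [e1] at h2
  rw [e0] at h3
  unfold labB
  rw [if_neg (by rw [h1]; intro e; linarith), if_pos h1, if_neg (by linarith),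
    if_neg (by intro e; linarith), if_neg (by linarith), if_neg (by intro e; linarith), if_pos h3]

theorem ea_rim12 (hu : u < C.n) (hk : k < C.N) (h : look C.E u k = []) :
    C.EA (C.a u k 1, 3 * C.N, C.a u k 2, C.N) := by
  obtain ⟨-, e1, e2, -⟩ := C.ya_im u k
  have hc : (C.c u k).im = 0 := by rw [(C.mid_free h).2, zero_im]
  have hA := C.y8_tA u k
  have hlo := C.low u k
  have hhi := C.high u k
  refine C.y8_rim hu hk (C.ya_re u k 1) (C.ya_re u k 2) (by rw [e1, e2]; linarith)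
    (by rw [e2]; linarith) (by rw [e1]; linarith) (C.P_aux hk (by omega)) (C.P_aux hk (by omega))
    (C.y8_down hk (by omega)) (C.y8_up hk (by omega)) ?_
  intro y h1 h2 h3
  rw [e2] at h2
  rw [e1] at h3
  unfold labB
  rw [if_neg (by rw [h1]; intro e; linarith), if_pos h1, if_neg (by linarith),
    if_neg (by intro e; linarith), if_pos (by linarith)]

theorem ea_rim23 (hu : u < C.n) (hk : k < C.N) :
    C.EA (C.a u k 2, 3 * C.N, C.a u k 3, C.N) := by
  obtain ⟨-, -, e2, e3⟩ := C.ya_im u k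
  have hA := C.y8_tA u k
  have hlo := C.low u k
  have hhi := C.high u k
  refine C.y8_rim hu hk (C.ya_re u k 2) (C.ya_re u k 3) (by rw [e2, e3]; linarith)
    (by rw [e3]) (by rw [e2]; linarith) (C.P_aux hk (by omega)) (C.P_aux hk (by omega))
    (C.y8_down hk (by omega)) (C.y8_up hk (by omega)) ?_
  intro y h1 h2 h3
  rw [e3] at h2
  rw [e2] at h3
  unfold labB
  rw [if_neg (by rw [h1]; intro e; linarith), if_pos h1, if_pos h3]

theorem y8_pred (hk : k < C.N) : ((k + 1) % C.N + C.N - 1) % C.N = k := by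
  rcases Nat.lt_or_ge (k + 1) C.N with h | h
  · rw [Nat.mod_eq_of_lt h, show k + 1 + C.N - 1 = k + C.N by omega, Nat.add_mod_right,
      Nat.mod_eq_of_lt hk]
  · have e : k + 1 = C.N := by omega
    rw [e, Nat.mod_self, show 0 + C.N - 1 = k by omega, Nat.mod_eq_of_lt hk]

theorem ea_rim30 (hu : u < C.n) (hk : k < C.N) :
    C.EA (C.a u k 3, 3 * C.N - 4, C.a u ((k + 1) % C.N) 0, C.N) := by
  have hN := C.hN
  have hk1 : (k + 1) % C.N < C.N := Nat.mod_lt _ (by omega)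
  obtain ⟨e0, -, -, -⟩ := C.ya_im u ((k + 1) % C.N)
  have hA := C.y8_tA u ((k + 1) % C.N)
  have hlo := C.low u ((k + 1) % C.N)
  have hhi := C.high u ((k + 1) % C.N)
  have hr : rt C.N 1 ≠ 0 := rt_ne' _ _
  have h3 : C.ya u k 3 ≠ 0 := C.ya_ne u k 3
  have ea : C.ya u k 3 * rt C.N 1 = C.x0 * (1 + TT C.N * I) := by
    have : C.ya u k 3 = C.x0 * (1 - TT C.N * I) := by simp [ya]
    rw [this, mul_assoc, sep_turn hN]
  have are : (C.ya u k 3 * rt C.N 1).re = C.x0 := by rw [ea]; simp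
  have aim : (C.ya u k 3 * rt C.N 1).im = TT C.N * C.x0 := by rw [ea]; simp [mul_comm]
  refine C.y8_rim hu hk1 are (C.ya_re u _ 0) (by rw [e0, aim]; linarith)
    (by rw [e0]; linarith) aim.le ?_ (C.P_aux hk1 (by omega)) ?_ (C.y8_up hk1 (by omega)) ?_
  · rw [C.P_aux hk (by omega), rt_succ_mod hN]
    field_simp
  · rw [C.F_aux hk (by omega), rt_succ_mod hN, ← rt4_turn hN]
    field_simp
  · intro y h1 h2 _
    rw [e0] at h2
    unfold labB
    rw [if_neg (by rw [h1]; intro e; linarith), if_pos h1, if_neg (by linarith),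
      if_neg (by intro e; linarith), if_neg (by linarith), if_neg (by intro e; linarith),
      if_neg (by linarith), if_neg (by intro e; linarith), C.y8_pred hk]

end Ctx

end Pool.Agent.Lib.MP_242159_lc

namespace Pool.Agent.Lib.MP_242159_lc

open Complex

theorem y9_ne (τ : ℝ) : (1 - τ * I : ℂ) ≠ 0 := fun h => by
  have := congrArg re h
  simp at this

theorem y9_ne' (τ : ℝ) : (1 + τ * I : ℂ) ≠ 0 := fun h => by
  have := congrArg re h
  simp at this

theorem y9_mul (τ : ℝ) : (1 + τ * I : ℂ) * (1 - τ * I) = 1 + τ ^ 2 := by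
  linear_combination (-(τ : ℂ) ^ 2) * I_mul_I

theorem y9_real {A B τ l x y : ℝ} (hB : 0 < B) (hA : B < A) (h0 : 0 < τ) (h1 : 3 * τ ≤ 1)
    (hl : 0 < l) (e1 : x * (1 + l) + y * τ = A * (1 - τ ^ 2) + l * B)
    (e2 : y * (1 + l) - x * τ = -(2 * A * τ) - l * B * τ) :
    |y| < 3 * τ * x ∧ y < 0 ∧ x < A ∧ B * (1 + τ ^ 2) * x < x * x + y * y := by
  have hA0 : 0 < A := hB.trans hA
  obtain ⟨d, hd⟩ : ∃ d, d = (1 + l) ^ 2 + τ ^ 2 := ⟨_, rfl⟩
  have d0 : 0 < d := by rw [hd]; positivity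
  have ex : x * d = A * (1 + τ ^ 2) + A * l * (1 - τ ^ 2) + l * B * (1 + τ ^ 2) + l ^ 2 * B := by
    rw [hd]; linear_combination (1 + l) * e1 - τ * e2
  have ey : y * d = -(τ * (A * (1 + τ ^ 2) + 2 * A * l + l ^ 2 * B)) := by
    rw [hd]; linear_combination τ * e1 + (1 + l) * e2
  have en : (x * x + y * y) * d = (1 + τ ^ 2) * ((A + l * B) ^ 2 + A ^ 2 * τ ^ 2) := by
    rw [hd]
    linear_combination (x * (1 + l) + y * τ + (A * (1 - τ ^ 2) + l * B)) * e1 +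
      (y * (1 + l) - x * τ + (-(2 * A * τ) - l * B * τ)) * e2
  have hy : y < 0 := by
    have : y * d < 0 := by rw [ey]; exact neg_lt_zero.2 (by positivity)
    exact neg_of_mul_neg_right (by rwa [mul_comm] at this) d0.le
  have t9 : 0 ≤ 1 - 3 * τ ^ 2 := by nlinarith
  have hD : 0 < A - B := sub_pos.2 hA
  refine ⟨?_, hy, ?_, ?_⟩
  · rw [abs_of_neg hy]
    refine lt_of_mul_lt_mul_right ?_ d0.le
    have : 3 * τ * x * d - -y * d = τ * (2 * (A * (1 + τ ^ 2)) + A * l * (1 - 3 * τ ^ 2) +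
        3 * (l * B * (1 + τ ^ 2)) + 2 * (l ^ 2 * B)) := by
      linear_combination 3 * τ * ex + ey
    have h2 : 0 < τ * (2 * (A * (1 + τ ^ 2)) + A * l * (1 - 3 * τ ^ 2) +
        3 * (l * B * (1 + τ ^ 2)) + 2 * (l ^ 2 * B)) := by positivity
    linarith
  · refine lt_of_mul_lt_mul_right ?_ d0.le
    have : A * d - x * d = (A - B) * (l * (1 + τ ^ 2) + l ^ 2) := by
      rw [ex, hd]; ring
    have h2 : 0 < (A - B) * (l * (1 + τ ^ 2) + l ^ 2) := by positivity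
    linarith
  · refine lt_of_mul_lt_mul_right ?_ d0.le
    have : (x * x + y * y) * d - B * (1 + τ ^ 2) * x * d =
        (A - B) * ((1 + τ ^ 2) ^ 2 * (A + l * B)) := by
      linear_combination en - B * (1 + τ ^ 2) * ex
    have h2 : 0 < (A - B) * ((1 + τ ^ 2) ^ 2 * (A + l * B)) := by positivity
    linarith

/-- the side arc in the lens coordinate -/
theorem side_arc {A B τ : ℝ} (hB : 0 < B) (hA : B < A) (h0 : 0 < τ) (h1 : 3 * τ ≤ 1) {w : ℂ}
    (H : OnArc (A * (1 - τ * I)) (B * (1 - τ * I))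
      (-1 / (B * (1 - τ * I) - A * (1 - τ * I))) w) :
    Sec (3 * τ) w ∧ w.im < 0 ∧ w.re < A ∧ B * (1 + τ ^ 2) * w.re < normSq w := by
  obtain ⟨l, hl, e⟩ := H
  have hD : 0 < A - B := sub_pos.2 hA
  have hD' : (A - B : ℂ) ≠ 0 := by exact_mod_cast hD.ne'
  have hs := y9_ne τ
  obtain ⟨m, hm⟩ : ∃ m : ℝ, m = l / (A - B) := ⟨_, rfl⟩
  have hm0 : 0 < m := by rw [hm]; positivity
  have hml : (l : ℂ) = m * (A - B) := by rw [hm]; push_cast; field_simp
  have e0 : w * ((1 - τ * I) + m) = (1 - τ * I) * (A * (1 - τ * I) + m * B) := by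
    rw [hml, show (B * (1 - τ * I) - A * (1 - τ * I) : ℂ) = -((A - B) * (1 - τ * I)) by ring] at e
    field_simp at e
    linear_combination e
  have e1 := congrArg re e0
  have e2 := congrArg im e0
  simp only [mul_re, mul_im, add_re, add_im, sub_re, sub_im, one_re, one_im, ofReal_re, ofReal_im,
    I_re, I_im] at e1 e2
  rw [normSq_apply]
  exact y9_real hB hA h0 h1 hm0 (by linear_combination e1) (by linear_combination e2)

theorem y9_shift {a b W c w : ℂ} (H : OnArc (c + a) (c + b) W w) : OnArc a b W (w - c) := by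
  obtain ⟨l, hl, e⟩ := H
  exact ⟨l, hl, by linear_combination e⟩

theorem y9_eok {A B τ ρ : ℝ} (hB : 0 < B) (hA : B < A) (hρ : 0 < ρ) (c : ℂ) :
    EOK (c + A * (1 - τ * I)) (c + B * (1 - τ * I)) (-1) ((B * (1 - τ * I)) ^ 2 / ρ) := by
  have hD : 0 < A - B := sub_pos.2 hA
  have hD' : (A - B : ℂ) ≠ 0 := by exact_mod_cast hD.ne'
  have hρ' : (ρ : ℂ) ≠ 0 := by exact_mod_cast hρ.ne'
  have hs := y9_ne τ
  have e : (c + B * (1 - τ * I) - (c + A * (1 - τ * I)) : ℂ) = -((A - B) * (1 - τ * I)) := by ring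
  refine ⟨?_, B ^ 2 / (ρ * (A - B) ^ 2), by positivity, ?_⟩
  · rw [e, neg_div_neg_eq]
    refine slit_div (by simp) ?_
    simpa using hD
  · rw [e, show (c + A * (1 - τ * I) - (c + B * (1 - τ * I)) : ℂ) = (A - B) * (1 - τ * I) by ring]
    push_cast
    field_simp

namespace Ctx

variable (C : Ctx) {u k v k' : ℕ}

theorem ea_side (h : (u, k, v) ∈ halves C.E) (h' : (v, k', u) ∈ halves C.E) :
    C.EA (C.a u k 2, 2 * C.N, C.a v k' 0, 2 * C.N) := by
  obtain ⟨-, hk, -, huv⟩ := half_lt C.wf h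
  obtain ⟨-, hk', -, -⟩ := half_lt C.wf h'
  have hp : C.p u ≠ C.p v := fun e => huv (C.inj e)
  obtain ⟨ρ, hρ, eρ⟩ := dual_rho C.wf C.core h h'
  have hρ' : (ρ : ℂ) ≠ 0 := by exact_mod_cast hρ.ne'
  have c1 := (C.mid_real h).2.2
  have c2 := (C.mid_real h').2.2
  have s1 := (C.toCtx0.small h).1
  have s2 := (C.toCtx0.small h').1
  have far := C.far u k v h
  have A1 := C.A_pos u k
  have A2 := C.A_pos v k'
  have eA1 : C.A u k = C.x0 - (Wh C.N C.p C.f u k v).re := by rw [A, c1]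
  have eA2 : C.A v k' = C.x0 - (Wh C.N C.p C.f v k' u).re := by rw [A, c2]
  have ya1 : C.ya u k 2 = Wh C.N C.p C.f u k v + C.A u k * (1 - C.τ * I) := by
    simp [ya, c1]
  have ya2 : C.ya v k' 0 = Wh C.N C.p C.f v k' u + C.A v k' * (1 + C.τ * I) := by
    simp [ya, c2]
  obtain ⟨B, hB⟩ : ∃ B : ℝ, B = ρ / (C.A v k' * (1 + C.τ ^ 2)) := ⟨_, rfl⟩
  have B0 : 0 < B := by rw [hB]; positivity
  have eB : B * (C.A v k' * (1 + C.τ ^ 2)) = ρ := by rw [hB]; field_simp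
  have BA : B < C.A u k := by
    have n1 : ‖Wh C.N C.p C.f v k' u‖ * ‖Wh C.N C.p C.f u k v‖ = ρ := by
      rw [← norm_mul, eρ, norm_real, Real.norm_of_nonneg hρ.le]
    have r1 := (le_abs_self _).trans (abs_re_le_norm (Wh C.N C.p C.f u k v))
    have r2 := (le_abs_self _).trans (abs_re_le_norm (Wh C.N C.p C.f v k' u))
    have m1 : ‖Wh C.N C.p C.f u k v‖ < C.A u k := by
      have := norm_nonneg (Wh C.N C.p C.f u k v)
      linarith
    have m2 : ‖Wh C.N C.p C.f v k' u‖ < C.A v k' := by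
      have := norm_nonneg (Wh C.N C.p C.f v k' u)
      linarith
    have m3 : ρ < C.A v k' * C.A u k :=
      n1 ▸ mul_lt_mul'' m2 m1 (norm_nonneg _) (norm_nonneg _)
    rw [hB, div_lt_iff₀ (by positivity)]
    have : 0 ≤ C.A u k * C.A v k' * C.τ ^ 2 := by positivity
    nlinarith
  have A2' : (C.A v k' : ℂ) ≠ 0 := by exact_mod_cast A2.ne'
  have eBc : (C.A v k' * (1 + C.τ * I) : ℂ) * (B * (1 - C.τ * I)) = ρ := by
    rw [← eB]; push_cast; linear_combination (B * C.A v k' : ℂ) * y9_mul C.τ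
  obtain ⟨z1, z2⟩ := yc_chart (N := C.N) (p := C.p) (k := k') (C.fne v) (C.ya_ne v k' 0)
  rw [← C.P_aux hk' (by omega)] at z1 z2
  have z3 : C.P (C.a v k' 0) ≠ C.p u := by
    intro e
    rw [e, ya2] at z2
    have : (C.A v k' * (1 + C.τ * I) : ℂ) = 0 := by
      rw [yc] at z2; rw [Wh] at z2; linear_combination -z2
    exact mul_ne_zero A2' (y9_ne' _) this
  have dw := dual_w eρ hp z3 z1
  rw [z2, ya2, add_sub_cancel_left] at dw
  have eb : yc C.N C.p C.f u k (C.P (C.a v k' 0)) =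
      Wh C.N C.p C.f u k v + B * (1 - C.τ * I) := by
    have := mul_left_cancel₀ (mul_ne_zero A2' (y9_ne' _)) (dw.trans eBc.symm)
    linear_combination this
  obtain ⟨b0, eP⟩ := chart_yc (N := C.N) (k := k) (C.fne u) z3
  rw [eb] at b0 eP
  have a0 := C.ya_ne u k 2
  have y0 := C.ya_ne v k' 0
  have key : ∀ y, OnArc (Wh C.N C.p C.f u k v + C.A u k * (1 - C.τ * I))
      (Wh C.N C.p C.f u k v + B * (1 - C.τ * I))
      (-1 / (Wh C.N C.p C.f u k v + B * (1 - C.τ * I) -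
        (Wh C.N C.p C.f u k v + C.A u k * (1 - C.τ * I)))) y →
      Sec (3 * C.τ) (y - Wh C.N C.p C.f u k v) ∧ (y - Wh C.N C.p C.f u k v).im < 0 ∧
        (y - Wh C.N C.p C.f u k v).re < C.A u k ∧
        B * (1 + C.τ ^ 2) * (y - Wh C.N C.p C.f u k v).re < normSq (y - Wh C.N C.p C.f u k v) := by
    intro y hy
    rw [add_sub_add_left_eq_sub] at hy
    exact side_arc B0 BA C.τpos C.τ1 (y9_shift hy)
  rw [ya1] at a0
  obtain ⟨ok, arc⟩ := chart_arc (o := C.p u) (mul_ne_zero (C.fne u) (rt_ne' C.N k)) a0 b0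
    (y9_eok (τ := C.τ) B0 BA hρ (Wh C.N C.p C.f u k v))
    (fun H => far (by simpa using (key 0 H).1))
  have eT : C.F (C.a v k' 0) * rt (4 * C.N) (2 * C.N) =
      -(C.f u * rt C.N k / (Wh C.N C.p C.f u k v + B * (1 - C.τ * I)) ^ 2) *
        ((B * (1 - C.τ * I)) ^ 2 / ρ) := by
    have d0 : C.p v - C.p u ≠ 0 := sub_ne_zero.2 hp.symm
    have d1 : C.p u - C.p v ≠ 0 := sub_ne_zero.2 hp
    have f1 : C.f u * rt C.N k = Wh C.N C.p C.f u k v * (C.p v - C.p u) := by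
      rw [Wh]; field_simp
    have f2 : C.f v * rt C.N k' = -(Wh C.N C.p C.f v k' u * (C.p v - C.p u)) := by
      rw [Wh]; field_simp; ring
    have g : C.ya v k' 0 * (B * (1 - C.τ * I)) =
        Wh C.N C.p C.f v k' u * (Wh C.N C.p C.f u k v + B * (1 - C.τ * I)) := by
      rw [ya2]; linear_combination eBc - eρ
    rw [C.F_aux hk' (by omega), rt4_2N C.hN, f1, f2]
    generalize Wh C.N C.p C.f u k v + B * (1 - C.τ * I) = b at b0 g
    generalize (B * (1 - C.τ * I) : ℂ) = β at g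
    generalize C.ya v k' 0 = y at y0 g
    generalize Wh C.N C.p C.f u k v = W at eρ
    generalize Wh C.N C.p C.f v k' u = W' at eρ g
    field_simp
    linear_combination (W' * b ^ 2) * eρ + W * (y * β + W' * b) * g
  simp only [EA, We]
  rw [eT, eP, C.P_aux hk (by omega), C.F_aux hk (by omega), rt4_2N C.hN, ya1]
  refine ⟨ok, fun z hz => ?_⟩
  obtain ⟨zu, hy⟩ := arc z hz
  obtain ⟨k1, k2, k3, k4⟩ := key _ hy
  have L : Lens C.N C.p C.f (3 * C.τ) u k v z := ⟨zu, k1⟩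
  have dz := dual_w eρ hp zu L.ne
  refine Or.inr (Or.inr ⟨u, k, v, k', h, h', L, ?_, ?_, ?_⟩)
  · rw [sub_re, eA1] at k3
    exact by simpa [y, yc] using k3
  · change (yc C.N C.p C.f v k' z).re < C.x0
    change B * (1 + C.τ ^ 2) * (yc C.N C.p C.f u k z - Wh C.N C.p C.f u k v).re <
      normSq (yc C.N C.p C.f u k z - Wh C.N C.p C.f u k v) at k4
    generalize yc C.N C.p C.f u k z - Wh C.N C.p C.f u k v = w at dz k4
    have w0 : w ≠ 0 := by
      rintro rfl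
      exact hρ' (by simpa using dz.symm)
    have n0 := normSq_pos.2 w0
    have e : yc C.N C.p C.f v k' z - Wh C.N C.p C.f v k' u = ρ / w := by
      rw [eq_div_iff w0, dz]
    have e' := congrArg re e
    rw [sub_re, div_re, ofReal_re, ofReal_im, zero_mul, zero_div, add_zero] at e'
    have : ρ * w.re / normSq w < C.A v k' := by
      rw [div_lt_iff₀ n0, ← eB]
      nlinarith
    linarith
  · rw [labM, if_pos (by simpa [y, yc] using k2)]

end Ctx

end Pool.Agent.Lib.MP_242159_lc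

namespace Pool.Agent.Lib.MP_242159_lc

open Complex

theorem Ctx.core_gad (C : Ctx) : Core (4 * C.N) (gad C.n C.N C.E) C.P C.F := by
  have wf := gad_wf C.wf C.hN
  refine core_of_at C.at_uniq fun x hx => ?_
  have hne : x.1 ≠ x.2.2.1 := (wf.bd _ (mem_halves.2 ⟨x, hx, Or.inl rfl⟩)).2.2
  suffices h : C.At s(x.1, x.1) (C.P x.1) ∧ C.At s(x.2.2.1, x.2.2.1) (C.P x.2.2.1) ∧ C.EA x from
    ⟨hne, h.1, h.2.1, h.2.2.1, h.2.2.2⟩
  have hN := C.hN
  rcases mem_gad.1 hx with ⟨⟨u, k, v, k'⟩, he, h⟩ | ⟨u, hu, k, hk, h | ⟨hl, h⟩⟩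
  · have h1 : (u, k, v) ∈ halves C.E := mem_halves.2 ⟨_, he, Or.inl rfl⟩
    have h2 : (v, k', u) ∈ halves C.E := mem_halves.2 ⟨_, he, Or.inr rfl⟩
    obtain ⟨a1, a2, a3, -⟩ := half_lt C.wf h1
    obtain ⟨-, a4, -, -⟩ := half_lt C.wf h2
    simp only [gadE, List.mem_cons, List.not_mem_nil, or_false] at h
    rcases h with rfl | rfl | rfl
    · exact ⟨C.at_big a1, C.at_big a3, C.ea_old he⟩
    · exact ⟨C.at_aux a1 a2 (by omega) (by omega), C.at_aux a3 a4 (by omega) (by omega),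
        C.ea_side h1 h2⟩
    · exact ⟨C.at_aux a3 a4 (by omega) (by omega), C.at_aux a1 a2 (by omega) (by omega),
        C.ea_side h2 h1⟩
  · simp only [gadB, List.mem_cons, List.not_mem_nil, or_false] at h
    rcases h with rfl | rfl | rfl | rfl | rfl
    · exact ⟨C.at_big hu, C.at_aux hu hk (by omega) (by omega), C.ea_spoke0 hu hk⟩
    · exact ⟨C.at_big hu, C.at_aux hu hk (by omega) (by omega), C.ea_spoke2 hu hk⟩
    · exact ⟨C.at_big hu, C.at_aux hu hk (by omega) (by omega), C.ea_spoke3 hu hk⟩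
    · exact ⟨C.at_aux hu hk (by omega) (by omega), C.at_aux hu hk (by omega) (by omega),
        C.ea_rim23 hu hk⟩
    · exact ⟨C.at_aux hu hk (by omega) (by omega),
        C.at_aux hu (Nat.mod_lt _ (by omega)) (by omega) (by omega), C.ea_rim30 hu hk⟩
  · simp only [gadM, List.mem_cons, List.not_mem_nil, or_false] at h
    rcases h with rfl | rfl | rfl
    · exact ⟨C.at_big hu, C.at_aux hu hk (by omega) (fun _ => hl), C.ea_spoke1 hu hk hl⟩
    · exact ⟨C.at_aux hu hk (by omega) (by omega), C.at_aux hu hk (by omega) (fun _ => hl),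
        C.ea_rim01 hu hk hl⟩
    · exact ⟨C.at_aux hu hk (by omega) (fun _ => hl), C.at_aux hu hk (by omega) (by omega),
        C.ea_rim12 hu hk hl⟩

theorem pl_yes {n N : ℕ} {E : List Edge} (h : WFE n N E) (hN : 3 ≤ N) {p f : ℕ → ℂ}
    (H : Core N E p f) : ∃ p f, Core (4 * N) (gad n N E) p f := by
  obtain ⟨C, rfl, rfl, rfl⟩ := exists_ctx0 h hN H
  obtain ⟨D, rfl⟩ := exists_ctx C
  exact ⟨_, _, D.core_gad⟩

end Pool.Agent.Lib.MP_242159_lc
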