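import Pool.Agent.Lib.MP_242159_lc.Defs

/-!
Crossing-free Lombardi drawings without a prescribed rotation system, as a language of bit strings.
-/

set_option autoImplicit false

namespace Pool.Agent.Lib.MP_242159_lc

open Classical in
/-- PL: binary codes of graphs, given by neighbour lists, that have a crossing-free Lombardi
drawing for some cyclic order of the neighbours at each vertex. -/
noncomputable def PL : N68a2faeb.DecisionProblem := fun s =>
  decide (∃ A : List (List ℕ), s = N487b59b3.bitEncode A ∧ IsRotGraph A ∧
    ∃ B : List (List ℕ), List.Forall₂ List.Perm B A ∧ ∃ p γ, IsDrawing B p γ)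

end Pool.Agent.Lib.MP_242159_lc
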