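import Pool.Agent.Lib.MP_242159_lc.Alg
import Pool.Agent.Lib.MP_242159_lc.PlDefs
import Pool.Agent.Lib.MP_242159_lc.Mem

set_option autoImplicit false

namespace Pool.Agent.Lib.MP_242159_lc

open Complex

/-- The arc parameter of the edge number `k` at `u` when it leaves in direction `ι u k`. -/
noncomputable def WdD (A : List (List ℕ)) (p f : ℕ → ℂ) (ι : ℕ → ℕ → ℕ) (u k : ℕ) : ℂ :=
  f u * rt (nb A u).length (ι u k) / (p (nk A u k) - p u)

/-- Positions, frames and direction numbers that describe a drawing. -/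
structure AlgD (A : List (List ℕ)) (p f : ℕ → ℂ) (ι : ℕ → ℕ → ℕ) : Prop where
  lt : ∀ u, ∀ k < (nb A u).length, ι u k < (nb A u).length
  dist : ∀ u, ∀ k < (nb A u).length, ∀ k' < (nb A u).length, ι u k = ι u k' → k = k'
  inj : ∀ u < A.length, ∀ v < A.length, p u = p v → u = v
  slit : ∀ u, ∀ k < (nb A u).length, WdD A p f ι u k ∈ slitPlane
  tan : ∀ u, ∀ k < (nb A u).length, ∀ k' < (nb A (nk A u k)).length, nk A (nk A u k) k' = u →
    ∃ ρ : ℝ, 0 < ρ ∧ f (nk A u k) * rt (nb A (nk A u k)).length (ι (nk A u k) k') *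
      WdD A p f ι u k = ρ * (p u - p (nk A u k))
  vert : ∀ u, ∀ k < (nb A u).length, ∀ w < A.length,
    ¬ OnArc (p u) (p (nk A u k)) (WdD A p f ι u k) (p w)
  cross : ∀ u, ∀ k < (nb A u).length, ∀ u', ∀ k' < (nb A u').length,
    s(u, nk A u k) ≠ s(u', nk A u' k') → ∀ z, OnArc (p u) (p (nk A u k)) (WdD A p f ι u k) z →
      ¬ OnArc (p u') (p (nk A u' k')) (WdD A p f ι u' k') z

theorem dir_perm {A B : List (List ℕ)} (hB : List.Forall₂ List.Perm B A) (u : ℕ) :
    (nb B u).Perm (nb A u) := by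
  have hl := hB.length_eq
  by_cases hu : u < A.length
  · have hu' : u < B.length := hl ▸ hu
    have := List.Forall₂.get hB hu' hu
    simpa [nb, List.getD_eq_getElem?_getD, List.getElem?_eq_getElem hu,
      List.getElem?_eq_getElem hu'] using this
  · have hu' : ¬ u < B.length := hl ▸ hu
    simp [nb, List.getD_eq_getElem?_getD, List.getElem?_eq_none (not_lt.1 hu),
      List.getElem?_eq_none (not_lt.1 hu')]

theorem dir_nodup {A : List (List ℕ)} (hA : IsRotGraph A) (u : ℕ) : (nb A u).Nodup := by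
  by_cases hu : u < A.length
  · exact (hA u hu).1
  · simp [nb, List.getD_eq_getElem?_getD, List.getElem?_eq_none (not_lt.1 hu)]

theorem dir_wd {A B : List (List ℕ)} {p f : ℕ → ℂ} {ι : ℕ → ℕ → ℕ} {u k : ℕ}
    (hd : (nb B u).length = (nb A u).length) (hn : nk B u (ι u k) = nk A u k) :
    Wd B p f u (ι u k) = WdD A p f ι u k := by
  rw [Wd, WdD, hd, hn]

theorem dir_surj {d : ℕ} {g : ℕ → ℕ} (hlt : ∀ k < d, g k < d)
    (hinj : ∀ k < d, ∀ k' < d, g k = g k' → k = k') : ∀ j < d, ∃ k < d, g k = j := by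
  intro j hj
  have h : Function.Injective fun k : Fin d => (⟨g k, hlt k k.2⟩ : Fin d) := fun a b hab =>
    Fin.ext (hinj a a.2 b b.2 (congrArg Fin.val hab))
  obtain ⟨k, hk⟩ := Finite.surjective_of_injective h ⟨j, hj⟩
  exact ⟨k, k.2, congrArg Fin.val hk⟩

theorem dir_map_nk (A : List (List ℕ)) (u : ℕ) :
    (List.range (nb A u).length).map (nk A u) = nb A u := by
  apply List.ext_getElem
  · simp
  · intro i h1 h2
    simp only [List.getElem_map, List.getElem_range]
    exact nk_eq h2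

theorem rot_of_perm {A B : List (List ℕ)} (hA : IsRotGraph A) (hB : List.Forall₂ List.Perm B A) :
    IsRotGraph B := by
  have hl := hB.length_eq
  intro u hu
  obtain ⟨h1, h2⟩ := hA u (hl ▸ hu)
  refine ⟨(dir_perm hB u).nodup_iff.2 h1, fun v hv => ?_⟩
  obtain ⟨a, b, c⟩ := h2 v ((dir_perm hB u).mem_iff.1 hv)
  exact ⟨hl ▸ a, b, (dir_perm hB v).mem_iff.2 c⟩

theorem algD_of_perm {A B : List (List ℕ)} (hA : IsRotGraph A) (hB : List.Forall₂ List.Perm B A)
    {p f : ℕ → ℂ} (H : Alg B p f) : ∃ ι, AlgD A p f ι := by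
  have hl := hB.length_eq
  have hd : ∀ u, (nb B u).length = (nb A u).length := fun u => (dir_perm hB u).length_eq
  obtain ⟨ι, hlt, hn⟩ : ∃ ι : ℕ → ℕ → ℕ, (∀ u, ∀ k < (nb A u).length, ι u k < (nb B u).length) ∧
      ∀ u, ∀ k < (nb A u).length, nk B u (ι u k) = nk A u k := by
    have h1 : ∀ u, ∀ k < (nb A u).length, (nb B u).idxOf (nk A u k) < (nb B u).length :=
      fun u k hk => List.idxOf_lt_length_iff.2 ((dir_perm hB u).mem_iff.2 (nk_mem hk))
    refine ⟨fun u k => (nb B u).idxOf (nk A u k), h1, fun u k hk => ?_⟩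
    rw [nk_eq (h1 u k hk)]
    exact List.getElem_idxOf _
  have hw : ∀ u, ∀ k < (nb A u).length, Wd B p f u (ι u k) = WdD A p f ι u k :=
    fun u k hk => dir_wd (hd u) (hn u k hk)
  refine ⟨ι, fun u k hk => hd u ▸ hlt u k hk, fun u k hk k' hk' h => ?_,
    fun u hu v hv => H.inj u (hl ▸ hu) v (hl ▸ hv), fun u k hk => ?_, fun u k hk k' hk' h => ?_,
    fun u k hk w hw' => ?_, fun u k hk u' k' hk' h => ?_⟩
  · have h2 : nk A u k = nk A u k' := by rw [← hn u k hk, ← hn u k' hk', h]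
    rw [nk_eq hk, nk_eq hk'] at h2
    exact ((dir_nodup hA u).getElem_inj_iff).1 h2
  · rw [← hw u k hk]
    exact H.slit u _ (hlt u k hk)
  · have := H.tan u _ (hlt u k hk) (ι (nk A u k) k')
    rw [hn u k hk, hw u k hk, hn _ k' hk'] at this
    rw [← hd]
    exact this (hlt _ k' hk') h
  · have := H.vert u _ (hlt u k hk) w (hl ▸ hw')
    rwa [hn u k hk, hw u k hk] at this
  · have := H.cross u _ (hlt u k hk) u' _ (hlt u' k' hk')
    rw [hn u k hk, hw u k hk, hn u' k' hk', hw u' k' hk'] at this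
    exact this h

theorem perm_of_algD {A : List (List ℕ)} (hA : IsRotGraph A) {p f : ℕ → ℂ} {ι : ℕ → ℕ → ℕ}
    (H : AlgD A p f ι) : ∃ B, List.Forall₂ List.Perm B A ∧ Alg B p f := by
  have hs : ∀ u j, ∃ k, j < (nb A u).length → k < (nb A u).length ∧ ι u k = j := by
    intro u j
    by_cases hj : j < (nb A u).length
    · obtain ⟨k, hk⟩ := dir_surj (H.lt u) (H.dist u) j hj
      exact ⟨k, fun _ => hk⟩
    · exact ⟨0, fun h => absurd h hj⟩
  choose σ hσ using hs
  obtain ⟨B, hl, hb⟩ : ∃ B : List (List ℕ), B.length = A.length ∧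
      ∀ u, nb B u = ((List.range (nb A u).length).map (σ u)).map (nk A u) := by
    refine ⟨(List.range A.length).map fun u =>
      ((List.range (nb A u).length).map (σ u)).map (nk A u), by simp, fun u => ?_⟩
    by_cases hu : u < A.length
    · simp [nb, List.getD_eq_getElem?_getD, hu]
    · simp [nb, List.getD_eq_getElem?_getD, hu]
  have hd : ∀ u, (nb B u).length = (nb A u).length := fun u => by simp [hb]
  have hp : ∀ u, (nb B u).Perm (nb A u) := by
    intro u
    have h1 : ((List.range (nb A u).length).map (σ u)).Perm (List.range (nb A u).length) := by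
      refine (List.perm_ext_iff_of_nodup ?_ List.nodup_range).2 fun k => ?_
      · refine List.nodup_range.map_on fun a ha b hb' hab => ?_
        rw [List.mem_range] at ha hb'
        rw [← (hσ u a ha).2, ← (hσ u b hb').2, hab]
      · simp only [List.mem_map, List.mem_range]
        constructor
        · rintro ⟨j, hj, rfl⟩
          exact (hσ u j hj).1
        · intro hk
          have h2 := hσ u _ (H.lt u k hk)
          exact ⟨ι u k, H.lt u k hk, H.dist u _ h2.1 k hk h2.2⟩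
    have h3 := h1.map (nk A u)
    rwa [dir_map_nk, ← hb] at h3
  have hn : ∀ u, ∀ j < (nb B u).length, nk B u j = nk A u (σ u j) := by
    intro u j hj
    have h1 : j < (((List.range (nb A u).length).map (σ u)).map (nk A u)).length := hb u ▸ hj
    rw [nk, hb u, List.getD_eq_getElem _ _ h1]
    simp
  have hk : ∀ u, ∀ j < (nb B u).length, σ u j < (nb A u).length :=
    fun u j hj => (hσ u j (hd u ▸ hj)).1
  have hw : ∀ u, ∀ j < (nb B u).length, Wd B p f u j = WdD A p f ι u (σ u j) := by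
    intro u j hj
    rw [Wd, WdD, hn u j hj, (hσ u j (hd u ▸ hj)).2, hd]
  refine ⟨B, ?_, fun u hu v hv => H.inj u (hl ▸ hu) v (hl ▸ hv), fun u j hj => ?_,
    fun u j hj j' hj' h => ?_, fun u j hj w hw' => ?_, fun u j hj u' j' hj' h => ?_⟩
  · refine List.forall₂_of_length_eq_of_get hl fun u h1 h2 => ?_
    simpa [nb, List.getD_eq_getElem?_getD, List.getElem?_eq_getElem h1,
      List.getElem?_eq_getElem h2] using hp u
  · rw [hw u j hj]
    exact H.slit u _ (hk u j hj)
  · rw [hw u j hj]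
    rw [hn u j hj] at hj' h ⊢
    rw [hn _ j' hj'] at h
    have := H.tan u _ (hk u j hj) _ (hk _ j' hj') h
    rwa [(hσ _ j' (hd _ ▸ hj')).2, ← hd] at this
  · rw [hw u j hj, hn u j hj]
    exact H.vert u _ (hk u j hj) w (hl ▸ hw')
  · rw [hw u j hj, hw u' j' hj']
    rw [hn u j hj, hn u' j' hj'] at h ⊢
    exact H.cross u _ (hk u j hj) u' _ (hk u' j' hj') h

end Pool.Agent.Lib.MP_242159_lc

namespace Pool.Agent.Lib.MP_242159_lc

open Complex

namespace PlMem

open Pool.Agent.Lib.MP_acf5a6_lc N487b59b3 Mem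

/-- The direction variable of an edge is one of the directions, and differs from the others. -/
def selF (A : List (List ℕ)) (u k : ℕ) : Formula :=
  .and (.not (andL ((idx (nb A u)).map fun j => .not (ceq (cvar 10 u k) (cvar 4 u j)))))
    (andL ((idx (nb A u)).map fun j => cond (decide (k = j)) tru
      (.not (ceq (cvar 10 u k) (cvar 10 u j)))))

def arcD (u k w : ℕ) : Formula :=
  .and (ceq (cmul (cvar 6 u k) (csub (cvar 0 w 0) (cvar 0 u 0)))
      (cmul (cvar 2 u 0) (cvar 10 u k))) <|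
    .or (.lt (.const 0) (cvar 6 u k).1) (.not (.eq (cvar 6 u k).2 (.const 0)))

def tanD (A : List (List ℕ)) (u k w : ℕ) : Formula :=
  andL ((idx (nb A w)).map fun j => cond (decide (nk A w j = u))
    (cpos (cmul (cmul (cvar 2 w 0) (cvar 10 w j)) (cvar 6 u k))
      (csub (cvar 0 u 0) (cvar 0 w 0))) tru)

def halfD (A : List (List ℕ)) (h : ℕ × ℕ) : Formula :=
  .and (rootF h.1 h.2 (nb A h.1).length) <| .and (selF A h.1 h.2) <|
    .and (arcD h.1 h.2 (nk A h.1 h.2)) <| .and (tanD A h.1 h.2 (nk A h.1 h.2)) <|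
      .and (vertF A h.1 h.2 (nk A h.1 h.2)) (meetF A h)

/-- The formula of an instance. -/
def phiD (A : List (List ℕ)) : Formula :=
  .and (cond (chk A) tru (.not tru)) <| .and (injF A) (andL ((hs A).map fun h => halfD A h))

theorem halfD_PT : PT (fun x : List (List ℕ) × ℕ × ℕ => halfD x.1 x.2) := by
  have h1 : PT (fun x : List (List ℕ) × ℕ × ℕ => rootF x.2.1 x.2.2 (nb x.1 x.2.1).length) := by
    unfold rootF; fun_prop
  have h0 : PT (fun x : List (List ℕ) × ℕ × ℕ => selF x.1 x.2.1 x.2.2) := by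
    unfold selF; fun_prop
  have h2 : PT (fun x : List (List ℕ) × ℕ × ℕ => arcD x.2.1 x.2.2 (nk x.1 x.2.1 x.2.2)) := by
    unfold arcD; fun_prop
  have h3 : PT (fun x : List (List ℕ) × ℕ × ℕ => tanD x.1 x.2.1 x.2.2 (nk x.1 x.2.1 x.2.2)) := by
    unfold tanD; fun_prop
  have h4 : PT (fun x : List (List ℕ) × ℕ × ℕ => vertF x.1 x.2.1 x.2.2 (nk x.1 x.2.1 x.2.2)) := by
    unfold vertF; fun_prop
  have h5 : PT (fun x : List (List ℕ) × ℕ × ℕ => meetF x.1 x.2) := by
    unfold meetF; fun_prop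
  exact and_PT h1 (and_PT h0 (and_PT h2 (and_PT h3 (and_PT h4 h5))))

theorem phiD_PT : PT phiD := by
  have h1 : PT injF := by unfold injF; fun_prop
  exact and_PT (PT.cond' chk_PT (PT.const _) (PT.const _))
    (and_PT h1 (andL_PT (PT.map halfD_PT (hs_PT PT.id'))))

/-- The semantic form of `phiD`. -/
structure SemD (A : List (List ℕ)) (p f : ℕ → ℂ) (O X W : ℕ → ℕ → ℂ) (L : ℕ → ℕ → ℂ) : Prop where
  inj : ∀ u < A.length, ∀ w < A.length, u ≠ w → p u ≠ p w
  root : ∀ u, ∀ k < (nb A u).length, O u 0 = 1 ∧ O u (nb A u).length = 1 ∧ 0 ≤ (O u 1).im ∧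
    O u (k + 1) = O u k * O u 1 ∧ (k ≠ 0 → O u k ≠ 1 ∧ (O u k).re ≤ (O u 1).re)
  sel : ∀ u, ∀ k < (nb A u).length, (¬ ∀ j < (nb A u).length, ¬ X u k = O u j) ∧
    ∀ j < (nb A u).length, k ≠ j → X u k ≠ X u j
  arc : ∀ u, ∀ k < (nb A u).length,
    W u k * (p (nk A u k) - p u) = f u * X u k ∧ W u k ∈ slitPlane
  tan : ∀ u, ∀ k < (nb A u).length, ∀ j < (nb A (nk A u k)).length, nk A (nk A u k) j = u →
    Pos (f (nk A u k) * X (nk A u k) j * W u k) (p u - p (nk A u k))
  vert : ∀ u, ∀ k < (nb A u).length, ∀ x < A.length,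
    ¬ Pos (p x - p u) (W u k * (p (nk A u k) - p x))
  meet : ∀ u, ∀ k < (nb A u).length, ∀ u', ∀ k' < (nb A u').length,
    s(u, nk A u k) ≠ s(u', nk A u' k') → CrossOK (p u) (p (nk A u k)) (W u k) (p u')
      (p (nk A u' k')) (W u' k') (L (Nat.pair u k) (Nat.pair u' k'))

theorem holds_phiD (A : List (List ℕ)) (v : ℕ → ℝ) : Holds v (phiD A) ↔ IsRotGraph A ∧
    SemD A (fun u => cval v (cvar 0 u 0)) (fun u => cval v (cvar 2 u 0))
      (fun u k => cval v (cvar 4 u k)) (fun u k => cval v (cvar 10 u k))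
      (fun u k => cval v (cvar 6 u k)) (fun u k => cval v (cvar 8 u k)) := by
  have h0 : Holds v (cond (chk A) tru (.not tru)) ↔ IsRotGraph A := by
    rw [← chk_iff]
    cases chk A <;> simp [Holds, holds_tru]
  simp only [phiD, Holds, h0, injF, holds_andL, List.forall_mem_map, List.forall_mem_flatMap,
    mem_hs, halfD, rootF, selF, arcD, tanD, vertF, meetF, idx, List.mem_range,
    (holds_cond v _ _).1, (holds_cond v _ _).2, holds_ceq, holds_cpos, holds_crossF, cval_mul,
    cval_sub, cval_one, val_fst, val_snd, termVal, decide_eq_true_eq, same_iff, Int.cast_zero,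
    Prod.forall]
  refine and_congr_right fun _ => ⟨fun ⟨h1, h2⟩ => ⟨h1, fun u k hk => (h2 u k hk).1,
    fun u k hk => (h2 u k hk).2.1, fun u k hk => (h2 u k hk).2.2.1,
    fun u k hk => (h2 u k hk).2.2.2.1, fun u k hk => (h2 u k hk).2.2.2.2.1,
    fun u k hk => (h2 u k hk).2.2.2.2.2⟩,
    fun h => ⟨h.inj, fun u k hk =>
      ⟨h.root u k hk, h.sel u k hk, h.arc u k hk, h.tan u k hk, h.vert u k hk, h.meet u k hk⟩⟩⟩

theorem algD_of_sem {A : List (List ℕ)} (hA : IsRotGraph A) {p f : ℕ → ℂ}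
    {O X W L : ℕ → ℕ → ℂ} (h : SemD A p f O X W L) : ∃ ι, AlgD A p f ι := by
  have hinj : ∀ u < A.length, ∀ v < A.length, p u = p v → u = v := fun u hu w hw e => by
    by_contra hc
    exact h.inj u hu w hw hc e
  have hO : ∀ u, ∀ k < (nb A u).length, O u k = rt (nb A u).length k := by
    intro u k hk
    have h1 : ∀ j ≤ (nb A u).length, O u j = O u 1 ^ j := by
      intro j hj
      induction j with
      | zero => rw [pow_zero]; exact (h.root u k hk).1
      | succ j ih => rw [(h.root u j hj).2.2.2.1, ih (by omega), pow_succ]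
    have h2 : O u 1 = rt (nb A u).length 1 := by
      refine eq_rt (by omega) (by rw [← h1 _ le_rfl]; exact (h.root u k hk).2.1)
        (fun j hj hjd => ?_) (h.root u k hk).2.2.1
      rw [← h1 j hjd.le]
      exact (h.root u j hjd).2.2.2.2 hj.ne'
    rw [h1 k hk.le, h2, ← rt_pow]
  have hι : ∀ u k : ℕ, ∃ j : ℕ, k < (nb A u).length →
      j < (nb A u).length ∧ X u k = rt (nb A u).length j := by
    intro u k
    by_cases hk : k < (nb A u).length
    · by_contra hc
      refine (h.sel u k hk).1 fun j hj e => hc ⟨j, fun _ => ⟨hj, ?_⟩⟩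
      rw [e, hO u j hj]
    · exact ⟨0, fun h => absurd h hk⟩
  choose ι hι using hι
  have hW : ∀ u, ∀ k < (nb A u).length, WdD A p f ι u k = W u k := by
    intro u k hk
    rw [WdD, ← (hι u k hk).2, ← (h.arc u k hk).1,
      mul_div_cancel_right₀ _ (sub_ne_zero.mpr (ne_nk hA hinj hk).symm)]
  refine ⟨ι, fun u k hk => (hι u k hk).1, fun u k hk k' hk' e => ?_, hinj,
    fun u k hk => hW u k hk ▸ (h.arc u k hk).2, fun u k hk j hj e => ?_,
    fun u k hk x hx => ?_, fun u k hk u' k' hk' hne => ?_⟩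
  · by_contra hc
    refine (h.sel u k hk).2 k' hk' hc ?_
    rw [(hι u k hk).2, (hι u k' hk').2, e]
  · rw [hW u k hk, ← (hι _ j hj).2]
    exact ((pos_iff _ _).1 (h.tan u k hk j hj e)).2
  · rw [hW u k hk, onArc_iff (ne_nk hA hinj hk) (slitPlane_ne_zero (h.arc u k hk).2)]
    exact h.vert u k hk x hx
  · rw [hW u k hk, hW u' k' hk', crossOK_iff (h.arc u k hk).2 (ne_nk hA hinj hk')
      (slitPlane_ne_zero (h.arc u' k' hk').2)]
    exact ⟨_, h.meet u k hk u' k' hk' hne⟩

theorem sem_of_algD {A : List (List ℕ)} (hA : IsRotGraph A) {p f : ℕ → ℂ} {ι : ℕ → ℕ → ℕ}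
    (h : AlgD A p f ι) :
    ∃ L, SemD A p f (fun u k => rt (nb A u).length k) (fun u k => rt (nb A u).length (ι u k))
      (WdD A p f ι) L := by
  have h1 : ∀ i j : ℕ, ∃ L : ℂ, i.unpair.2 < (nb A i.unpair.1).length →
      j.unpair.2 < (nb A j.unpair.1).length →
      s(i.unpair.1, nk A i.unpair.1 i.unpair.2) ≠ s(j.unpair.1, nk A j.unpair.1 j.unpair.2) →
      CrossOK (p i.unpair.1) (p (nk A i.unpair.1 i.unpair.2)) (WdD A p f ι i.unpair.1 i.unpair.2)
        (p j.unpair.1) (p (nk A j.unpair.1 j.unpair.2))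
        (WdD A p f ι j.unpair.1 j.unpair.2) L := by
    intro i j
    by_cases hi : i.unpair.2 < (nb A i.unpair.1).length
    · by_cases hj : j.unpair.2 < (nb A j.unpair.1).length
      · by_cases hne : s(i.unpair.1, nk A i.unpair.1 i.unpair.2) =
            s(j.unpair.1, nk A j.unpair.1 j.unpair.2)
        · exact ⟨0, fun _ _ h => absurd hne h⟩
        · obtain ⟨L, hL⟩ := (crossOK_iff (h.slit _ _ hi) (ne_nk hA h.inj hj)
            (slitPlane_ne_zero (h.slit _ _ hj))).1 (h.cross _ _ hi _ _ hj hne)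
          exact ⟨L, fun _ _ _ => hL⟩
      · exact ⟨0, fun _ h => absurd h hj⟩
    · exact ⟨0, fun h => absurd h hi⟩
  choose L hL using h1
  refine ⟨L, fun u hu w hw hne e => hne (h.inj u hu w hw e), fun u k hk => ?_,
    fun u k hk => ⟨fun hc => hc _ (h.lt u k hk) rfl, fun j hj hne e => hne ?_⟩,
    fun u k hk => ⟨?_, h.slit u k hk⟩, fun u k hk j hj e => ?_, fun u k hk x hx => ?_,
    fun u k hk u' k' hk' hne => ?_⟩
  · have hd : (nb A u).length ≠ 0 := by omega
    refine ⟨by rw [rt_pow, pow_zero], by rw [rt_pow, (rt_prim hd).pow_eq_one], rt_im_nonneg hd,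
      by rw [rt_pow, pow_succ, ← rt_pow], fun h0 => ⟨?_, rt_re_le (by omega) hk⟩⟩
    rw [rt_pow]
    exact (rt_prim hd).pow_ne_one_of_pos_of_lt h0 hk
  · have hd : (nb A u).length ≠ 0 := by omega
    refine h.dist u k hk j hj ((rt_prim hd).pow_inj (h.lt u k hk) (h.lt u j hj) ?_)
    rw [← rt_pow, ← rt_pow]
    exact e
  · rw [WdD, div_mul_cancel₀ _ (sub_ne_zero.mpr (ne_nk hA h.inj hk).symm)]
  · exact (pos_iff _ _).2 ⟨sub_ne_zero.mpr (ne_nk hA h.inj hk), h.tan u k hk j hj e⟩
  · rw [← onArc_iff (ne_nk hA h.inj hk) (slitPlane_ne_zero (h.slit u k hk))]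
    exact h.vert u k hk x hx
  · simpa only [Nat.unpair_pair] using hL (Nat.pair u k) (Nat.pair u' k')
      (by simpa only [Nat.unpair_pair] using hk) (by simpa only [Nat.unpair_pair] using hk')
      (by simpa only [Nat.unpair_pair] using hne)

theorem phiD_iff (A : List (List ℕ)) :
    (∃ v, Holds v (phiD A)) ↔ IsRotGraph A ∧
      ∃ B : List (List ℕ), List.Forall₂ List.Perm B A ∧ ∃ p γ, IsDrawing B p γ := by
  constructor
  · rintro ⟨v, hv⟩
    obtain ⟨hA, h⟩ := (holds_phiD A v).1 hv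
    obtain ⟨ι, h⟩ := algD_of_sem hA h
    obtain ⟨B, hB, h⟩ := perm_of_algD hA h
    exact ⟨hA, B, hB, (drawing_iff_alg (rot_of_perm hA hB)).2 ⟨_, _, h⟩⟩
  · rintro ⟨hA, B, hB, h⟩
    obtain ⟨p, f, h⟩ := (drawing_iff_alg (rot_of_perm hA hB)).1 h
    obtain ⟨ι, h⟩ := algD_of_perm hA hB h
    obtain ⟨L, h⟩ := sem_of_algD hA h
    obtain ⟨v, hv⟩ := exists_val fun c i j => if c = 0 then p i else if c = 1 then f i else
      if c = 2 then rt (nb A i).length j else if c = 3 then WdD A p f ι i j else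
      if c = 4 then L i j else rt (nb A i).length (ι i j)
    refine ⟨v, (holds_phiD A v).2 ⟨hA, ?_⟩⟩
    have h0 : ∀ i j, cval v (cvar 0 i j) = p i := fun i j => hv 0 i j
    have h1 : ∀ i j, cval v (cvar 2 i j) = f i := fun i j => hv 1 i j
    have h2 : ∀ i j, cval v (cvar 4 i j) = rt (nb A i).length j := fun i j => hv 2 i j
    have h3 : ∀ i j, cval v (cvar 6 i j) = WdD A p f ι i j := fun i j => hv 3 i j
    have h4 : ∀ i j, cval v (cvar 8 i j) = L i j := fun i j => hv 4 i j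
    have h5 : ∀ i j, cval v (cvar 10 i j) = rt (nb A i).length (ι i j) := fun i j => hv 5 i j
    simp only [h0, h1, h2, h3, h4, h5]
    exact h

end PlMem

open Pool.Agent.Lib.MP_acf5a6_lc Mem PlMem in
theorem pl_le_etr : N793a5b8e.ManyOneReducible PL MP_acf5a6_lc.ETR := by
  refine manyOne_of_PT Chk.nat.list.list (formulaCode_PT phiD_PT)
    (formulaCode (.lt (.const 0) (.const 0))) ?_ ?_ ?_
  · rw [Bool.eq_false_iff, Ne, formulaCode_sat]
    simp [Holds]
  · intro s hs
    simp only [PL, decide_eq_true_eq] at hs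
    obtain ⟨A, h, -⟩ := hs
    exact ⟨A, h.symm⟩
  · intro A
    rw [Bool.eq_iff_iff, formulaCode_sat, phiD_iff]
    simp only [PL, decide_eq_true_eq]
    constructor
    · rintro ⟨B, h, h'⟩
      rw [N487b59b3.bitEncode_injective h]
      exact h'
    · exact fun h => ⟨A, rfl, h⟩

end Pool.Agent.Lib.MP_242159_lc
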