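import Pool.Agent.Lib.MP_242159_lc.YesE
import Pool.Agent.Lib.MP_242159_lc.PlDraw
import Pool.Agent.Lib.MP_242159_lc.PlIn

set_option autoImplicit false

namespace Pool.Agent.Lib.MP_242159_lc

open Pool.Agent.Lib.MP_acf5a6_lc

theorem etr_le_pl : N793a5b8e.ManyOneReducible ETR PL := by
  obtain ⟨m, c, r, prog, hm, hc, hr, hp, H⟩ := machine
  have hpl : ∀ A : List (List ℕ), PL (N487b59b3.bitEncode A) = true ↔
      IsRotGraph A ∧ ∃ B : List (List ℕ), List.Forall₂ List.Perm B A ∧ ∃ p γ, IsDrawing B p γ := by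
    intro A
    simp only [PL, decide_eq_true_eq]
    constructor
    · rintro ⟨B, h, h'⟩
      rw [N487b59b3.bitEncode_injective h]
      exact h'
    · exact fun h => ⟨A, rfl, h⟩
  let n : List (ℕ × ℤ) → Un := fun ts => (Un.mk 1).add
    ((((ulen (prog ts)).add ⟨2⟩).mul ((m ts).add ⟨2⟩)).mul ⟨40⟩)
  let N : List (ℕ × ℤ) → Un := fun ts => (Un.mk 72).mul (((Un.mk 2).mul (m ts)).add ⟨3⟩)
  have hn : PT n := by fun_prop
  have hN : PT N := by fun_prop
  have hf : PT (fun ts => graph (nG (nV (m ts).n (prog ts)) (72 * (2 * (m ts).n + 3)))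
      (4 * (72 * (2 * (m ts).n + 3))) (gad (nV (m ts).n (prog ts)) (72 * (2 * (m ts).n + 3))
        (EL (m ts).n (c ts) (r ts) (prog ts)))) :=
    graph_PT (n := fun ts => (n ts).add ((n ts).mul ((Un.mk 4).mul (N ts))))
      (N := fun ts => (Un.mk 4).mul (N ts)) (by fun_prop) (by fun_prop)
      (gad_PT hn hN (EL_PT hm hc hr hp))
  refine manyOne_of_PT (Chk.nat.prod Chk.int).list hf [[0]] ?_ ?_ ?_
  · rw [Bool.eq_false_iff, Ne, hpl]
    rintro ⟨h, -⟩
    exact ((h 0 (by simp)).2 0 (by simp [nb])).2.1 rfl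
  · intro s hs
    simp only [ETR, decide_eq_true_eq] at hs
    obtain ⟨φ, h, -⟩ := hs
    exact ⟨_, h.symm⟩
  · intro ts
    obtain ⟨W, h1, h2⟩ := H ts
    have hw := EL_wf (c := c ts) W
    have h3N : 3 ≤ 72 * (2 * (m ts).n + 3) := by omega
    have hw' := gad_wf hw h3N
    rw [Bool.eq_iff_iff, hpl]
    constructor
    · intro h
      obtain ⟨ε, hε, h3⟩ := yes_dir (c := c ts) W
      obtain ⟨st, a1, a2⟩ := h2 h ε hε
      obtain ⟨p, f, hC⟩ := h3 st a1 a2
      obtain ⟨p', f', hC'⟩ := pl_yes hw h3N hC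
      exact ⟨graph_rot hw', _, List.forall₂_same.2 fun _ _ => List.Perm.refl _,
        (drawing_iff_alg (graph_rot hw')).2 (alg_of_core hw' hC')⟩
    · rintro ⟨hA, B, hB, h⟩
      obtain ⟨p, f, hA'⟩ := (drawing_iff_alg (rot_of_perm hA hB)).1 h
      obtain ⟨p', f', hC⟩ := pl_no hw h3N hB hA'
      exact h1 (no_dir W hC)

end Pool.Agent.Lib.MP_242159_lc
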