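import Pool.Agent.Lib.MP_242159_lc.Enc
import Pool.Agent.Lib.MP_242159_lc.Alg

set_option autoImplicit false

/-!
The gadget graph that forces the rotation system.
-/

namespace Pool.Agent.Lib.MP_242159_lc

/-- The auxiliary vertex at `u` in direction `4 k + j`. -/
def aux (n N u k j : ℕ) : ℕ := n + (u * (4 * N) + (4 * k + j))

/-- The number of vertices with `4 N` directions in the gadget graph. -/
def nG (n N : ℕ) : ℕ := n + n * (4 * N)

/-- An old edge and its two side edges. -/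
def gadE (n N : ℕ) (e : Edge) : List Edge :=
  [(e.1, 4 * e.2.1 + 1, e.2.2.1, 4 * e.2.2.2 + 1),
    (aux n N e.1 e.2.1 2, 2 * N, aux n N e.2.2.1 e.2.2.2 0, 2 * N),
    (aux n N e.2.2.1 e.2.2.2 2, 2 * N, aux n N e.1 e.2.1 0, 2 * N)]

/-- The spokes and rim edges present in every block. -/
def gadB (n N u k : ℕ) : List Edge :=
  [(u, 4 * k, aux n N u k 0, 1), (u, 4 * k + 2, aux n N u k 2, 4 * N - 1),
    (u, 4 * k + 3, aux n N u k 3, 4 * N - 2), (aux n N u k 2, 3 * N, aux n N u k 3, N),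
    (aux n N u k 3, 3 * N - 4, aux n N u ((k + 1) % N) 0, N)]

/-- The spoke and rim edges of a block with an unused direction. -/
def gadM (n N u k : ℕ) : List Edge :=
  [(u, 4 * k + 1, aux n N u k 1, 0), (aux n N u k 0, 3 * N, aux n N u k 1, N),
    (aux n N u k 1, 3 * N, aux n N u k 2, N)]

/-- The edge list of the gadget graph. -/
def gad (n N : ℕ) (E : List Edge) : List Edge :=
  E.flatMap (gadE n N) ++ (List.range n).flatMap fun u => (List.range N).flatMap fun k =>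
    gadB n N u k ++ cond (look E u k).isEmpty (gadM n N u k) []

variable {n N : ℕ} {E : List Edge}

theorem mem_gad {x : Edge} : x ∈ gad n N E ↔ (∃ e ∈ E, x ∈ gadE n N e) ∨
    ∃ u < n, ∃ k < N, x ∈ gadB n N u k ∨ (look E u k = [] ∧ x ∈ gadM n N u k) := by
  simp only [gad, List.mem_append, List.mem_flatMap, List.mem_range]
  refine or_congr Iff.rfl (exists_congr fun u => and_congr Iff.rfl (exists_congr fun k =>
    and_congr Iff.rfl (or_congr Iff.rfl ?_)))
  cases look E u k <;> simp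

theorem aux_lt {u k j : ℕ} (hu : u < n) (hk : k < N) (hj : j < 4) : aux n N u k j < nG n N := by
  have := idx_lt (N := 4 * N) (d := 4 * k + j) hu (by omega)
  unfold aux nG; omega

theorem le_aux (u k j : ℕ) : n ≤ aux n N u k j := Nat.le_add_right _ _

theorem aux_inj {u k j u' k' j' : ℕ} (hk : k < N) (hj : j < 4) (hk' : k' < N) (hj' : j' < 4)
    (h : aux n N u k j = aux n N u' k' j') : u = u' ∧ k = k' ∧ j = j' := by
  have h1 : u * (4 * N) + (4 * k + j) = u' * (4 * N) + (4 * k' + j') := by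
    unfold aux at h; omega
  have a := idx_div (N := 4 * N) (u := u) (d := 4 * k + j) (by omega)
  have b := idx_div (N := 4 * N) (u := u') (d := 4 * k' + j') (by omega)
  have h2 : u = u' := by rw [← a, h1, b]
  subst h2
  omega

/-- A vertex of the gadget graph: `j = 4` codes the old vertex `u`. -/
def gad_vx (n N u k j : ℕ) : ℕ := if j = 4 then u else aux n N u k j

theorem gad_vx_inj {u k j u' k' j' : ℕ} (hu : u < n) (hk : k < N) (hj : j ≤ 4) (hu' : u' < n)
    (hk' : k' < N) (hj' : j' ≤ 4) (h : gad_vx n N u k j = gad_vx n N u' k' j') :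
    u = u' ∧ j = j' ∧ (j < 4 → k = k') := by
  unfold gad_vx at h
  split_ifs at h with h1 h2 h2
  · omega
  · have := le_aux (n := n) (N := N) u' k' j'
    omega
  · have := le_aux (n := n) (N := N) u k j
    omega
  · have := aux_inj hk (by omega) hk' (by omega) h
    omega

theorem gad_vx_lt {u k j : ℕ} (hu : u < n) (hk : k < N) (hj : j ≤ 4) :
    gad_vx n N u k j < nG n N := by
  unfold gad_vx
  split_ifs with h1
  · unfold nG
    omega
  · exact aux_lt hu hk (by omega)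

/-- The half edges of the gadget graph in coordinates. -/
def gad_R (N : ℕ) (E : List Edge) (u k j d u' k' j' : ℕ) : Prop :=
  (∃ a b, (u, a, u') ∈ halves E ∧ (u', b, u) ∈ halves E ∧
    ((j = 4 ∧ k = 0 ∧ d = 4 * a + 1 ∧ j' = 4 ∧ k' = 0) ∨
      (j = 2 ∧ k = a ∧ d = 2 * N ∧ j' = 0 ∧ k' = b) ∨
      (j = 0 ∧ k = a ∧ d = 2 * N ∧ j' = 2 ∧ k' = b))) ∨
  (u' = u ∧ ∃ a b, a < N ∧ ((a + 1 < N ∧ b = a + 1) ∨ (a + 1 = N ∧ b = 0)) ∧
    ((j = 4 ∧ k = 0 ∧ d = 4 * a ∧ j' = 0 ∧ k' = a) ∨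
      (j = 0 ∧ k = a ∧ d = 1 ∧ j' = 4 ∧ k' = 0) ∨
      (j = 4 ∧ k = 0 ∧ d = 4 * a + 2 ∧ j' = 2 ∧ k' = a) ∨
      (j = 2 ∧ k = a ∧ d = 4 * N - 1 ∧ j' = 4 ∧ k' = 0) ∨
      (j = 4 ∧ k = 0 ∧ d = 4 * a + 3 ∧ j' = 3 ∧ k' = a) ∨
      (j = 3 ∧ k = a ∧ d = 4 * N - 2 ∧ j' = 4 ∧ k' = 0) ∨
      (j = 2 ∧ k = a ∧ d = 3 * N ∧ j' = 3 ∧ k' = a) ∨
      (j = 3 ∧ k = a ∧ d = N ∧ j' = 2 ∧ k' = a) ∨
      (j = 3 ∧ k = a ∧ d = 3 * N - 4 ∧ j' = 0 ∧ k' = b) ∨
      (j = 0 ∧ k = b ∧ d = N ∧ j' = 3 ∧ k' = a))) ∨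
  (u' = u ∧ ∃ a, a < N ∧ look E u a = [] ∧
    ((j = 4 ∧ k = 0 ∧ d = 4 * a + 1 ∧ j' = 1 ∧ k' = a) ∨
      (j = 1 ∧ k = a ∧ d = 0 ∧ j' = 4 ∧ k' = 0) ∨
      (j = 0 ∧ k = a ∧ d = 3 * N ∧ j' = 1 ∧ k' = a) ∨
      (j = 1 ∧ k = a ∧ d = N ∧ j' = 0 ∧ k' = a) ∨
      (j = 1 ∧ k = a ∧ d = 3 * N ∧ j' = 2 ∧ k' = a) ∨
      (j = 2 ∧ k = a ∧ d = N ∧ j' = 1 ∧ k' = a)))

theorem gad_half (h : WFE n N E) (hN : 3 ≤ N) {x : ℕ × ℕ × ℕ} (hx : x ∈ halves (gad n N E)) :
    ∃ u k j u' k' j', (u < n ∧ k < N ∧ j ≤ 4) ∧ (u' < n ∧ k' < N ∧ j' ≤ 4) ∧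
      x.1 = gad_vx n N u k j ∧ x.2.2 = gad_vx n N u' k' j' ∧ gad_R N E u k j x.2.1 u' k' j' := by
  obtain ⟨y, hy, hxy⟩ := mem_halves'.1 hx
  have h0 : 0 < N := by omega
  rcases mem_gad.1 hy with ⟨⟨u, a, v, b⟩, he, hy⟩ | ⟨u, hu, a, ha, hy | ⟨hl, hy⟩⟩
  · have a1 : (u, a, v) ∈ halves E := mem_halves'.2 ⟨_, he, Or.inl rfl⟩
    have a2 : (v, b, u) ∈ halves E := mem_halves'.2 ⟨_, he, Or.inr rfl⟩
    obtain ⟨hu, ha, hv, -⟩ := half_lt h a1
    obtain ⟨-, hb, -, -⟩ := half_lt h a2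
    simp only [gadE, List.mem_cons, List.not_mem_nil, or_false] at hy
    rcases hy with rfl | rfl | rfl <;> rcases hxy with rfl | rfl
    · exact ⟨u, 0, 4, v, 0, 4, by omega, by omega, rfl, rfl, Or.inl ⟨a, b, a1, a2, by simp⟩⟩
    · exact ⟨v, 0, 4, u, 0, 4, by omega, by omega, rfl, rfl, Or.inl ⟨b, a, a2, a1, by simp⟩⟩
    · exact ⟨u, a, 2, v, b, 0, by omega, by omega, rfl, rfl, Or.inl ⟨a, b, a1, a2, by simp⟩⟩
    · exact ⟨v, b, 0, u, a, 2, by omega, by omega, rfl, rfl, Or.inl ⟨b, a, a2, a1, by simp⟩⟩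
    · exact ⟨v, b, 2, u, a, 0, by omega, by omega, rfl, rfl, Or.inl ⟨b, a, a2, a1, by simp⟩⟩
    · exact ⟨u, a, 0, v, b, 2, by omega, by omega, rfl, rfl, Or.inl ⟨a, b, a1, a2, by simp⟩⟩
  · have hb : (a + 1 < N ∧ (a + 1) % N = a + 1) ∨ (a + 1 = N ∧ (a + 1) % N = 0) := by
      rcases Nat.lt_or_ge (a + 1) N with h1 | h1
      · exact Or.inl ⟨h1, Nat.mod_eq_of_lt h1⟩
      · have h2 : a + 1 = N := by omega
        exact Or.inr ⟨h2, by rw [h2, Nat.mod_self]⟩
    simp only [gadB, List.mem_cons, List.not_mem_nil, or_false] at hy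
    generalize (a + 1) % N = b at hb hy
    rcases hy with rfl | rfl | rfl | rfl | rfl <;> rcases hxy with rfl | rfl
    · exact ⟨u, 0, 4, u, a, 0, by omega, by omega, rfl, rfl,
        Or.inr (Or.inl ⟨rfl, a, b, ha, hb, by simp⟩)⟩
    · exact ⟨u, a, 0, u, 0, 4, by omega, by omega, rfl, rfl,
        Or.inr (Or.inl ⟨rfl, a, b, ha, hb, by simp⟩)⟩
    · exact ⟨u, 0, 4, u, a, 2, by omega, by omega, rfl, rfl,
        Or.inr (Or.inl ⟨rfl, a, b, ha, hb, by simp⟩)⟩
    · exact ⟨u, a, 2, u, 0, 4, by omega, by omega, rfl, rfl,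
        Or.inr (Or.inl ⟨rfl, a, b, ha, hb, by simp⟩)⟩
    · exact ⟨u, 0, 4, u, a, 3, by omega, by omega, rfl, rfl,
        Or.inr (Or.inl ⟨rfl, a, b, ha, hb, by simp⟩)⟩
    · exact ⟨u, a, 3, u, 0, 4, by omega, by omega, rfl, rfl,
        Or.inr (Or.inl ⟨rfl, a, b, ha, hb, by simp⟩)⟩
    · exact ⟨u, a, 2, u, a, 3, by omega, by omega, rfl, rfl,
        Or.inr (Or.inl ⟨rfl, a, b, ha, hb, by simp⟩)⟩
    · exact ⟨u, a, 3, u, a, 2, by omega, by omega, rfl, rfl,
        Or.inr (Or.inl ⟨rfl, a, b, ha, hb, by simp⟩)⟩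
    · exact ⟨u, a, 3, u, b, 0, by omega, by omega, rfl, rfl,
        Or.inr (Or.inl ⟨rfl, a, b, ha, hb, by simp⟩)⟩
    · exact ⟨u, b, 0, u, a, 3, by omega, by omega, rfl, rfl,
        Or.inr (Or.inl ⟨rfl, a, b, ha, hb, by simp⟩)⟩
  · simp only [gadM, List.mem_cons, List.not_mem_nil, or_false] at hy
    rcases hy with rfl | rfl | rfl <;> rcases hxy with rfl | rfl
    · exact ⟨u, 0, 4, u, a, 1, by omega, by omega, rfl, rfl,
        Or.inr (Or.inr ⟨rfl, a, ha, hl, by simp⟩)⟩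
    · exact ⟨u, a, 1, u, 0, 4, by omega, by omega, rfl, rfl,
        Or.inr (Or.inr ⟨rfl, a, ha, hl, by simp⟩)⟩
    · exact ⟨u, a, 0, u, a, 1, by omega, by omega, rfl, rfl,
        Or.inr (Or.inr ⟨rfl, a, ha, hl, by simp⟩)⟩
    · exact ⟨u, a, 1, u, a, 0, by omega, by omega, rfl, rfl,
        Or.inr (Or.inr ⟨rfl, a, ha, hl, by simp⟩)⟩
    · exact ⟨u, a, 1, u, a, 2, by omega, by omega, rfl, rfl,
        Or.inr (Or.inr ⟨rfl, a, ha, hl, by simp⟩)⟩
    · exact ⟨u, a, 2, u, a, 1, by omega, by omega, rfl, rfl,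
        Or.inr (Or.inr ⟨rfl, a, ha, hl, by simp⟩)⟩

theorem gad_bd (h : WFE n N E) (hN : 3 ≤ N) {u k j d u' k' j' : ℕ}
    (H : gad_R N E u k j d u' k' j') : d < 4 * N ∧ ¬ (u = u' ∧ j = j') := by
  rcases H with ⟨a, b, a1, -, H⟩ | ⟨rfl, a, b, ha, hb, H⟩ | ⟨rfl, a, ha, -, H⟩
  · have := half_lt h a1
    omega
  · omega
  · omega

theorem gad_two (h : WFE n N E) (hN : 3 ≤ N) {u k j d u' k' j' l e v l' i : ℕ}
    (H : gad_R N E u k j d u' k' j') (H' : gad_R N E u l j e v l' i) (hk : j < 4 → k = l) :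
    (d = e → u' = v ∧ k' = l' ∧ j' = i) ∧ (u' = v → j' = i → (j' < 4 → k' = l') → d = e) := by
  have hl : ∀ {a w c : ℕ}, (u, a, w) ∈ halves E → look E u c = [] → a ≠ c := fun h1 h2 h3 => by
    rw [← mem_look, h3, h2] at h1
    simp at h1
  rcases H with ⟨a, b, a1, a2, H⟩ | ⟨h1, a, b, ha, hb, H⟩ | ⟨h1, a, ha, a1, H⟩ <;>
    rcases H' with ⟨c, f, c1, c2, H'⟩ | ⟨h2, c, f, hc, hf, H'⟩ | ⟨h2, c, hc, c1, H'⟩
  · have e1 : a = c → u' = v := h.dir _ a1 _ c1 rfl
    have e2 : u' = v → a = c := h.par _ a1 _ c1 rfl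
    have e3 : u' = v → b = f := fun h3 => h.par _ a2 _ c2 h3 rfl
    omega
  · have := half_lt h a1
    omega
  · have := half_lt h a1
    have := hl a1 c1
    omega
  · have := half_lt h c1
    omega
  · omega
  · omega
  · have := half_lt h c1
    have := hl c1 a1
    omega
  · omega
  · omega

theorem gad_wf (h : WFE n N E) (hN : 3 ≤ N) : WFE (nG n N) (4 * N) (gad n N E) := by
  refine ⟨fun x hx => ?_, fun x hx y hy h1 h2 => ?_, fun x hx y hy h1 h2 => ?_⟩
  · obtain ⟨u, k, j, u', k', j', ⟨a1, a2, a3⟩, ⟨b1, b2, b3⟩, c1, c2, H⟩ := gad_half h hN hx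
    obtain ⟨d1, d2⟩ := gad_bd h hN H
    refine ⟨c1 ▸ gad_vx_lt a1 a2 a3, d1, fun hc => d2 ?_⟩
    have := gad_vx_inj a1 a2 a3 b1 b2 b3 (c1.symm.trans (hc.trans c2))
    exact ⟨this.1, this.2.1⟩
  · obtain ⟨u, k, j, u', k', j', ⟨a1, a2, a3⟩, -, c1, c2, H⟩ := gad_half h hN hx
    obtain ⟨w, l, m, v, l', i, ⟨b1, b2, b3⟩, -, d1, d2, H'⟩ := gad_half h hN hy
    obtain ⟨rfl, rfl, e1⟩ := gad_vx_inj a1 a2 a3 b1 b2 b3 (c1.symm.trans (h1.trans d1))
    obtain ⟨rfl, rfl, rfl⟩ := (gad_two h hN H H' e1).1 h2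
    rw [c2, d2]
  · obtain ⟨u, k, j, u', k', j', ⟨a1, a2, a3⟩, ⟨a4, a5, a6⟩, c1, c2, H⟩ := gad_half h hN hx
    obtain ⟨w, l, m, v, l', i, ⟨b1, b2, b3⟩, ⟨b4, b5, b6⟩, d1, d2, H'⟩ := gad_half h hN hy
    obtain ⟨rfl, rfl, e1⟩ := gad_vx_inj a1 a2 a3 b1 b2 b3 (c1.symm.trans (h1.trans d1))
    obtain ⟨e2, e3, e4⟩ := gad_vx_inj a4 a5 a6 b4 b5 b6 (c2.symm.trans (h2.trans d2))
    exact (gad_two h hN H H' e1).2 e2 e3 e4

theorem gad_PT {α : Type} [N487b59b3 α] {n N : α → Pool.Agent.Lib.MP_acf5a6_lc.Un}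
    {E : α → List Edge} (hn : Pool.Agent.Lib.MP_acf5a6_lc.PT n)
    (hN : Pool.Agent.Lib.MP_acf5a6_lc.PT N) (hE : Pool.Agent.Lib.MP_acf5a6_lc.PT E) :
    Pool.Agent.Lib.MP_acf5a6_lc.PT (fun a => gad (n a).n (N a).n (E a)) := by
  unfold gad gadE gadB gadM aux look halves
  fun_prop

end Pool.Agent.Lib.MP_242159_lc

/-!
A winding sum for closed chains of circular arcs. It is constant along every edge of the drawing
that does not belong to the chain.
-/

namespace Pool.Agent.Lib.MP_242159_lc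

open Complex Filter Topology

/-- The arc parameter of the edge from `x` to `y`. -/
noncomputable def Wg (p : ℕ → ℂ) (d : ℕ → ℕ → ℂ) (x y : ℕ) : ℂ := d x y / (p y - p x)

/-- A crossing-free drawing by arcs; `d x y` is the direction of the edge `xy` at `x`. -/
structure ArcGeo (Adj : ℕ → ℕ → Prop) (p : ℕ → ℂ) (d : ℕ → ℕ → ℂ) : Prop where
  symm : ∀ x y, Adj x y → Adj y x
  irr : ∀ x y, Adj x y → x ≠ y
  inj : ∀ x y x' y', Adj x y → Adj x' y' → p x = p x' → x = x'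
  slit : ∀ x y, Adj x y → Wg p d x y ∈ slitPlane
  tan : ∀ x y, Adj x y → ∃ ρ : ℝ, 0 < ρ ∧ d y x * Wg p d x y = ρ * (p x - p y)
  vert : ∀ x y x' y', Adj x y → Adj x' y' → ¬ OnArc (p x) (p y) (Wg p d x y) (p x')
  cross : ∀ x y x' y', Adj x y → Adj x' y' → s(x, y) ≠ s(x', y') → ∀ z,
    OnArc (p x) (p y) (Wg p d x y) z → ¬ OnArc (p x') (p y') (Wg p d x' y') z
  dist : ∀ x y y', Adj x y → Adj x y' → y ≠ y' → ∀ r : ℝ, 0 < r → d x y ≠ r * d x y'

/-- The angle under which the arc `e` is seen from the point `z`. -/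
noncomputable def wt (p : ℕ → ℂ) (d : ℕ → ℕ → ℂ) (e : ℕ × ℕ) (z : ℂ) : ℝ :=
  arg (Wg p d e.1 e.2 * (p e.2 - z) / (p e.1 - z))

/-- The limit of `wt` at the vertex `x`, approached in the direction `δ`. -/
noncomputable def wlim (p : ℕ → ℂ) (d : ℕ → ℕ → ℂ) (e : ℕ × ℕ) (x : ℕ) (δ : ℂ) : ℝ :=
  if e.1 = x then arg (-d e.1 e.2 / δ) else if e.2 = x then arg (-δ / d e.2 e.1)
    else wt p d e (p x)

theorem pw_slit_of_ne {w : ℂ} (h0 : w ≠ 0) (h : ∀ r : ℝ, 0 < r → w ≠ -r) : w ∈ slitPlane := by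
  rw [mem_slitPlane_iff]
  by_contra hc
  push Not at hc
  refine h (-w.re) ?_ (Complex.ext (by simp) (by simp [hc.2]))
  rcases hc.1.lt_or_eq with h1 | h1
  · linarith
  · exact absurd (Complex.ext h1 hc.2) h0

theorem pw_slit_off {a b W z : ℂ} (hW : W ≠ 0) (ha : z ≠ a) (hb : z ≠ b) (h : ¬ OnArc a b W z) :
    W * (b - z) / (a - z) ∈ slitPlane := by
  have h1 : a - z ≠ 0 := sub_ne_zero.2 ha.symm
  have h2 : b - z ≠ 0 := sub_ne_zero.2 hb.symm
  refine pw_slit_of_ne (div_ne_zero (mul_ne_zero hW h2) h1) fun r hr he => h ⟨r⁻¹, inv_pos.2 hr, ?_⟩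
  have h3 : (r : ℂ) ≠ 0 := by exact_mod_cast hr.ne'
  rw [div_eq_iff h1] at he
  push_cast
  field_simp
  linear_combination -he

theorem pw_one_add_ne {W : ℂ} (hW : W ∈ slitPlane) {l : ℝ} (hl : 0 ≤ l) : 1 + l * W ≠ 0 := by
  intro h
  have h1 := congrArg re h
  have h2 := congrArg im h
  simp only [add_re, one_re, mul_re, ofReal_re, ofReal_im, zero_mul, sub_zero, zero_re, add_im,
    one_im, mul_im, add_zero, zero_add, zero_im] at h1 h2
  rcases mem_slitPlane_iff.1 hW with h3 | h3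
  · nlinarith
  · rcases mul_eq_zero.1 h2 with h4 | h4
    · rw [h4] at h1; norm_num at h1
    · exact h3 h4

variable {Adj : ℕ → ℕ → Prop} {p : ℕ → ℂ} {d : ℕ → ℕ → ℂ}

theorem ArcGeo.pne (H : ArcGeo Adj p d) {x y x' y' : ℕ} (h : Adj x y) (h' : Adj x' y') (hne : x ≠ x') :
    p x ≠ p x' := fun e => hne (H.inj _ _ _ _ h h' e)

theorem ArcGeo.W_ne (H : ArcGeo Adj p d) {x y : ℕ} (h : Adj x y) : Wg p d x y ≠ 0 :=
  slitPlane_ne_zero (H.slit x y h)

theorem ArcGeo.d_eq (H : ArcGeo Adj p d) {x y : ℕ} (h : Adj x y) : d x y = Wg p d x y * (p y - p x) := by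
  have := sub_ne_zero.2 (H.pne (H.symm _ _ h) h (H.irr _ _ h).symm)
  rw [Wg]
  field_simp

theorem ArcGeo.d_ne (H : ArcGeo Adj p d) {x y : ℕ} (h : Adj x y) : d x y ≠ 0 := by
  rw [H.d_eq h]
  exact mul_ne_zero (H.W_ne h) (sub_ne_zero.2 (H.pne (H.symm _ _ h) h (H.irr _ _ h).symm))

theorem ArcGeo.WW (H : ArcGeo Adj p d) {x y : ℕ} (h : Adj x y) :
    ∃ ρ : ℝ, 0 < ρ ∧ Wg p d y x = ρ * (Wg p d x y)⁻¹ := by
  obtain ⟨ρ, hρ, he⟩ := H.tan x y h
  refine ⟨ρ, hρ, ?_⟩
  have h1 := H.W_ne h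
  have h2 := sub_ne_zero.2 (H.pne h (H.symm _ _ h) (H.irr _ _ h))
  rw [H.d_eq (H.symm _ _ h)] at he
  field_simp
  exact mul_right_cancel₀ h2 (by linear_combination he)

theorem ArcGeo.rev (H : ArcGeo Adj p d) {x y : ℕ} (h : Adj x y) {z : ℂ}
    (hz : OnArc (p x) (p y) (Wg p d x y) z) : OnArc (p y) (p x) (Wg p d y x) z := by
  obtain ⟨ρ, hρ, he⟩ := H.WW h
  rw [he, onArc_smul hρ, onArc_rev (H.W_ne h)]
  exact hz

/-- The point of the arc with parameter `l`. -/
noncomputable def zl (a b W : ℂ) (l : ℝ) : ℂ := (a + l * W * b) / (1 + l * W)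

theorem zl_zero (a b W : ℂ) : zl a b W 0 = a := by simp [zl]

theorem zl_eq {a b W : ℂ} (hW : W ∈ slitPlane) {l : ℝ} (hl : 0 ≤ l) :
    zl a b W l - a = l * W * (b - zl a b W l) := by
  have := pw_one_add_ne hW hl
  rw [zl]
  field_simp
  ring

theorem zl_on {a b W : ℂ} (hW : W ∈ slitPlane) {l : ℝ} (hl : 0 < l) : OnArc a b W (zl a b W l) :=
  ⟨l, hl, zl_eq hW hl.le⟩

theorem zl_cont {a b W : ℂ} (hW : W ∈ slitPlane) {l : ℝ} (hl : 0 ≤ l) :
    ContinuousAt (zl a b W) l := by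
  unfold zl
  exact ContinuousAt.div (by fun_prop) (by fun_prop) (pw_one_add_ne hW hl)

theorem onArc_zl {a b W z : ℂ} (hW : W ∈ slitPlane) (h : OnArc a b W z) :
    ∃ l : ℝ, 0 < l ∧ z = zl a b W l := by
  obtain ⟨l, hl, h⟩ := h
  refine ⟨l, hl, ?_⟩
  rw [zl, eq_div_iff (pw_one_add_ne hW hl.le)]
  linear_combination h

theorem ArcGeo.wt_slit (H : ArcGeo Adj p d) {x y a b : ℕ} (h : Adj x y) (he : Adj a b)
    (hs : s(a, b) ≠ s(x, y)) {z : ℂ} (hz : OnArc (p x) (p y) (Wg p d x y) z) :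
    z ≠ p a ∧ z ≠ p b ∧ Wg p d a b * (p b - z) / (p a - z) ∈ slitPlane := by
  have ha : z ≠ p a := fun e => H.vert _ _ _ _ h he (e ▸ hz)
  have hb : z ≠ p b := fun e => H.vert _ _ _ _ h (H.symm _ _ he) (e ▸ hz)
  exact ⟨ha, hb, pw_slit_off (H.W_ne he) ha hb (H.cross _ _ _ _ h he hs.symm z hz)⟩

theorem ArcGeo.wt_lim (H : ArcGeo Adj p d) {x y : ℕ} (h : Adj x y) {e : ℕ × ℕ} (he : Adj e.1 e.2)
    (hs : s(e.1, e.2) ≠ s(x, y)) :
    Tendsto (fun l => wt p d e (zl (p x) (p y) (Wg p d x y) l)) (𝓝[>] 0)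
      (𝓝 (wlim p d e x (d x y))) := by
  obtain ⟨a, b⟩ := e
  simp only at he hs
  have hW := H.slit x y h
  have hW0 := H.W_ne h
  have hz : ContinuousAt (zl (p x) (p y) (Wg p d x y)) 0 := zl_cont hW le_rfl
  have hyx : p y - p x ≠ 0 := sub_ne_zero.2 (H.pne (H.symm _ _ h) h (H.irr _ _ h).symm)
  have key : ∀ T : ℝ → ℂ, ContinuousAt T 0 → T 0 ∈ slitPlane →
      (∀ l : ℝ, 0 < l → arg (T l) = wt p d (a, b) (zl (p x) (p y) (Wg p d x y) l)) →
      Tendsto (fun l => wt p d (a, b) (zl (p x) (p y) (Wg p d x y) l)) (𝓝[>] 0)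
        (𝓝 (arg (T 0))) := by
    intro T hT h0 hl
    have h1 : Tendsto (fun l => arg (T l)) (𝓝[>] 0) (𝓝 (arg (T 0))) :=
      ((continuousAt_arg h0).comp hT).tendsto.mono_left nhdsWithin_le_nhds
    exact h1.congr' (eventually_nhdsWithin_of_forall fun l h => hl l h)
  have hy : ∀ l : ℝ, 0 < l → p y - zl (p x) (p y) (Wg p d x y) l ≠ 0 := fun l hl =>
    sub_ne_zero.2 fun e => H.vert _ _ _ _ h (H.symm _ _ h) (by
      have := zl_on (a := p x) (b := p y) hW hl
      rwa [← e] at this)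
  by_cases ha : a = x
  · subst ha
    have hb : b ≠ y := by
      rintro rfl
      exact hs rfl
    have h0 : -(Wg p d a b * (p b - zl (p a) (p y) (Wg p d a y) 0)) /
        (Wg p d a y * (p y - zl (p a) (p y) (Wg p d a y) 0)) = -d a b / d a y := by
      rw [zl_zero, ← H.d_eq he, ← H.d_eq h]
    have := key (fun l => -(Wg p d a b * (p b - zl (p a) (p y) (Wg p d a y) l)) /
      (Wg p d a y * (p y - zl (p a) (p y) (Wg p d a y) l)))
      (ContinuousAt.div (by fun_prop) (by fun_prop) (by rw [zl_zero]; exact mul_ne_zero hW0 hyx))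
      (by
        rw [h0]
        refine pw_slit_of_ne (div_ne_zero (neg_ne_zero.2 (H.d_ne he)) (H.d_ne h)) fun r hr e => ?_
        refine H.dist _ _ _ he h hb r hr ?_
        rw [div_eq_iff (H.d_ne h)] at e
        linear_combination -e)
      (fun l hl => by
        have h1 := zl_eq (a := p a) (b := p y) hW hl.le
        have h2 := hy l hl
        have h3 : (l : ℂ) ≠ 0 := by exact_mod_cast hl.ne'
        have h4 : p a - zl (p a) (p y) (Wg p d a y) l =
            -(l * Wg p d a y * (p y - zl (p a) (p y) (Wg p d a y) l)) := by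
          linear_combination -h1
        rw [wt, ← arg_real_mul _ (inv_pos.2 hl)]
        simp only
        rw [h4]
        congr 1
        push_cast
        field_simp)
    simpa only [h0, wlim, if_true] using this
  by_cases hb : b = x
  · subst hb
    have hay : a ≠ y := by
      rintro rfl
      exact hs Sym2.eq_swap
    have hab : p a - p b ≠ 0 := sub_ne_zero.2 (H.pne he h ha)
    obtain ⟨ρ, hρ, ht⟩ := H.tan a b he
    have hba := H.d_ne (H.symm _ _ he)
    have h0 : -(Wg p d a b * (Wg p d b y * (p y - zl (p b) (p y) (Wg p d b y) 0))) /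
        (p a - zl (p b) (p y) (Wg p d b y) 0) = ρ * (-d b y / d b a) := by
      rw [zl_zero, ← H.d_eq h]
      field_simp
      linear_combination (-d b y) * ht
    have hsl : -d b y / d b a ∈ slitPlane := by
      refine pw_slit_of_ne (div_ne_zero (neg_ne_zero.2 (H.d_ne h)) hba) fun r hr e => ?_
      refine H.dist _ _ _ h (H.symm _ _ he) hay.symm r hr ?_
      rw [div_eq_iff hba] at e
      linear_combination -e
    have := key (fun l => -(Wg p d a b * (Wg p d b y * (p y - zl (p b) (p y) (Wg p d b y) l))) /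
      (p a - zl (p b) (p y) (Wg p d b y) l))
      (ContinuousAt.div (by fun_prop) (by fun_prop) (by rw [zl_zero]; exact hab))
      (by rw [h0]; exact slit_smul hρ hsl)
      (fun l hl => by
        have h1 := zl_eq (a := p b) (b := p y) hW hl.le
        have h4 : p b - zl (p b) (p y) (Wg p d b y) l =
            -(l * Wg p d b y * (p y - zl (p b) (p y) (Wg p d b y) l)) := by
          linear_combination -h1
        rw [wt, ← arg_real_mul _ hl]
        simp only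
        rw [h4]
        congr 1
        ring)
    simpa only [h0, wlim, if_neg ha, if_true, arg_real_mul _ hρ] using this
  · have hax : p a - p x ≠ 0 := sub_ne_zero.2 (H.pne he h ha)
    have := key (fun l => Wg p d a b * (p b - zl (p x) (p y) (Wg p d x y) l) /
      (p a - zl (p x) (p y) (Wg p d x y) l))
      (ContinuousAt.div (by fun_prop) (by fun_prop) (by rw [zl_zero]; exact hax))
      (by
        simp only [zl_zero]
        exact pw_slit_off (H.W_ne he) (H.pne h he (Ne.symm ha))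
          (H.pne h (H.symm _ _ he) (Ne.symm hb)) (H.vert _ _ _ _ he h))
      (fun l _ => rfl)
    simpa only [wlim, if_neg ha, if_neg hb, wt, zl_zero] using this

theorem sum_angle (D : List (ℕ × ℕ)) (z : ℂ)
    (h : ∀ e ∈ D, Wg p d e.1 e.2 ≠ 0 ∧ z ≠ p e.1 ∧ z ≠ p e.2) :
    (((D.map fun e => wt p d e z).sum : ℝ) : Real.Angle) +
      ((D.map Prod.fst).map fun v => (arg (p v - z) : Real.Angle)).sum =
      (D.map fun e => (arg (Wg p d e.1 e.2) : Real.Angle)).sum +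
        ((D.map Prod.snd).map fun v => (arg (p v - z) : Real.Angle)).sum := by
  induction D with
  | nil => simp
  | cons e D ih =>
    obtain ⟨h1, h2, h3⟩ := h e (by simp)
    have ih := ih fun e he => h e (by simp [he])
    have h4 : p e.1 - z ≠ 0 := sub_ne_zero.2 h2.symm
    have h5 : p e.2 - z ≠ 0 := sub_ne_zero.2 h3.symm
    simp only [List.map_cons, List.sum_cons, Real.Angle.coe_add]
    rw [wt, arg_div_coe_angle (mul_ne_zero h1 h5) h4, arg_mul_coe_angle h1 h5]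
    linear_combination (norm := abel) ih

theorem ArcGeo.wind_on (H : ArcGeo Adj p d) {D : List (ℕ × ℕ)} (hD : ∀ e ∈ D, Adj e.1 e.2)
    (hc : (D.map Prod.fst).Perm (D.map Prod.snd)) {x y : ℕ} (h : Adj x y)
    (hs : ∀ e ∈ D, s(e.1, e.2) ≠ s(x, y)) {z : ℂ} (hz : OnArc (p x) (p y) (Wg p d x y) z) :
    (D.map fun e => wt p d e z).sum = (D.map fun e => wlim p d e x (d x y)).sum := by
  have hW := H.slit x y h
  obtain ⟨l, hl, rfl⟩ := onArc_zl hW hz
  set G : ℝ → ℝ := fun l => (D.map fun e => wt p d e (zl (p x) (p y) (Wg p d x y) l)).sum with hG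
  have hang : ∀ l : ℝ, 0 < l → (G l : Real.Angle) =
      (D.map fun e => (arg (Wg p d e.1 e.2) : Real.Angle)).sum := by
    intro l hl
    have h1 := sum_angle (p := p) (d := d) D (zl (p x) (p y) (Wg p d x y) l) fun e he =>
      have h2 := H.wt_slit h (hD e he) (hs e he) (zl_on hW hl)
      ⟨H.W_ne (hD e he), h2.1, h2.2.1⟩
    rw [(hc.map _).sum_eq] at h1
    exact add_right_cancel h1
  have hcont : ContinuousOn G (Set.Ioi 0) := by
    refine continuousOn_list_sum D fun e he l hl => ContinuousAt.continuousWithinAt ?_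
    have h2 := H.wt_slit h (hD e he) (hs e he) (zl_on hW hl)
    have h3 := zl_cont (a := p x) (b := p y) hW (le_of_lt hl)
    exact (continuousAt_arg h2.2.2).comp_of_eq (f := fun l => Wg p d e.1 e.2 *
      (p e.2 - zl (p x) (p y) (Wg p d x y) l) / (p e.1 - zl (p x) (p y) (Wg p d x y) l))
      (ContinuousAt.div (by fun_prop) (by fun_prop) (sub_ne_zero.2 h2.1.symm)) rfl
  have hconst : ∀ l' : ℝ, 0 < l' → G l' = G l := fun l' hl' =>
    (AddCircle.isCoveringMap_coe (2 * Real.pi)).constOn_of_comp isPreconnected_Ioi hcont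
      (fun a ha b hb => (hang a ha).trans (hang b hb).symm) hl' hl
  have hlim : Tendsto G (𝓝[>] 0) (𝓝 (D.map fun e => wlim p d e x (d x y)).sum) :=
    tendsto_list_sum D fun e he => H.wt_lim h (hD e he) (hs e he)
  have hlim' : Tendsto G (𝓝[>] 0) (𝓝 (G l)) :=
    tendsto_const_nhds.congr' (eventually_nhdsWithin_of_forall fun a ha => (hconst a ha).symm)
  exact tendsto_nhds_unique hlim' hlim

/-- The winding sum of a closed chain is the same at both ends of an edge outside the chain. -/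
theorem ArcGeo.wind (H : ArcGeo Adj p d) {D : List (ℕ × ℕ)} (hD : ∀ e ∈ D, Adj e.1 e.2)
    (hc : (D.map Prod.fst).Perm (D.map Prod.snd)) {x y : ℕ} (h : Adj x y)
    (hs : ∀ e ∈ D, s(e.1, e.2) ≠ s(x, y)) :
    (D.map fun e => wlim p d e x (d x y)).sum = (D.map fun e => wlim p d e y (d y x)).sum := by
  have hz := zl_on (a := p x) (b := p y) (H.slit x y h) one_pos
  rw [← H.wind_on hD hc h hs hz,
    ← H.wind_on hD hc (H.symm _ _ h) (fun e he => by rw [Sym2.eq_swap (a := y)]; exact hs e he)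
      (H.rev h hz)]

theorem ArcGeo.wt_rev (H : ArcGeo Adj p d) {a b x y : ℕ} (he : Adj a b) (h : Adj x y) (ha : a ≠ x)
    (hb : b ≠ x) : wt p d (b, a) (p x) = -wt p d (a, b) (p x) := by
  obtain ⟨ρ, hρ, hW⟩ := H.WW he
  have h1 := H.pne h he (Ne.symm ha)
  have h2 := H.pne h (H.symm _ _ he) (Ne.symm hb)
  have h3 := pw_slit_off (H.W_ne he) h1 h2 (H.vert _ _ _ _ he h)
  have h4 : Wg p d b a * (p a - p x) / (p b - p x) =
      ρ * (Wg p d a b * (p b - p x) / (p a - p x))⁻¹ := by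
    rw [hW, inv_div]
    field_simp
  simp only [wt]
  rw [h4, arg_real_mul _ hρ, arg_inv, if_neg (slitPlane_arg_ne_pi h3)]

end Pool.Agent.Lib.MP_242159_lc

/-!
Rigidity of the rotation at the hub of a wheel, and the orientation along a theta graph.
-/

namespace Pool.Agent.Lib.MP_242159_lc

open Complex Filter Topology

variable {Adj : ℕ → ℕ → Prop} {p : ℕ → ℂ} {d : ℕ → ℕ → ℂ}

theorem arg_neg_exp {t : ℝ} (h0 : 0 < t) (h1 : t < 2 * Real.pi) :
    arg (-exp (t * I)) = t - Real.pi := by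
  have h : -exp (t * I) = cos ((t - Real.pi : ℝ) : ℂ) + sin ((t - Real.pi : ℝ) : ℂ) * I := by
    rw [← exp_mul_I]
    push_cast
    rw [sub_mul, exp_sub, exp_pi_mul_I]
    ring
  rw [h, arg_cos_add_sin_mul_I ⟨by linarith, by linarith⟩]

theorem arg_neg_exp' {t : ℝ} (h0 : 0 < t) (h1 : t < 2 * Real.pi) :
    arg (-(exp (t * I))⁻¹) = Real.pi - t := by
  have h : (exp (t * I))⁻¹ = exp (((2 * Real.pi - t : ℝ) : ℂ) * I) := by
    push_cast
    rw [sub_mul, exp_sub, exp_two_pi_mul_I, one_div]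
  rw [h, arg_neg_exp (by linarith) (by linarith)]
  ring

theorem lt_off {e : ℕ × ℕ} {x : ℕ} (δ : ℂ) (h1 : e.1 ≠ x) (h2 : e.2 ≠ x) :
    wlim p d e x δ = wt p d e (p x) := by
  rw [wlim, if_neg h1, if_neg h2]

theorem lt_fst (a b : ℕ) (δ : ℂ) : wlim p d (a, b) a δ = arg (-d a b / δ) := by
  rw [wlim, if_pos rfl]

theorem lt_snd {a b : ℕ} (h : a ≠ b) (δ : ℂ) : wlim p d (a, b) b δ = arg (-δ / d b a) := by
  rw [wlim, if_neg h, if_pos rfl]

theorem sum_off {D : List (ℕ × ℕ)} {x : ℕ} (δ : ℂ) (h : ∀ e ∈ D, e.1 ≠ x ∧ e.2 ≠ x) :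
    (D.map fun e => wlim p d e x δ).sum = (D.map fun e => wt p d e (p x)).sum := by
  congr 1
  exact List.map_congr_left fun e he => lt_off δ (h e he).1 (h e he).2

/-- From a vertex `x` along an edge to a vertex `y` outside the chain. -/
theorem ArcGeo.wind_out (H : ArcGeo Adj p d) {D : List (ℕ × ℕ)} (hD : ∀ e ∈ D, Adj e.1 e.2)
    (hc : (D.map Prod.fst).Perm (D.map Prod.snd)) {x y : ℕ} (h : Adj x y)
    (hy : ∀ e ∈ D, e.1 ≠ y ∧ e.2 ≠ y) :
    (D.map fun e => wlim p d e x (d x y)).sum = (D.map fun e => wt p d e (p y)).sum := by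
  rw [H.wind hD hc h, sum_off _ hy]
  intro e he hs
  rcases Sym2.eq_iff.1 hs with h1 | h1
  · exact (hy e he).2 h1.2
  · exact (hy e he).1 h1.1

theorem ArcGeo.wind_off (H : ArcGeo Adj p d) {D : List (ℕ × ℕ)} (hD : ∀ e ∈ D, Adj e.1 e.2)
    (hc : (D.map Prod.fst).Perm (D.map Prod.snd)) {x y : ℕ} (h : x = y ∨ Adj x y)
    (hx : ∀ e ∈ D, e.1 ≠ x ∧ e.2 ≠ x) (hy : ∀ e ∈ D, e.1 ≠ y ∧ e.2 ≠ y) :
    (D.map fun e => wt p d e (p x)).sum = (D.map fun e => wt p d e (p y)).sum := by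
  rcases h with rfl | h
  · rfl
  · rw [← H.wind_out hD hc h hy, sum_off _ hx]

/-- In a theta graph with the paths `u v`, `u a b v` and `u a' b' v` the three edges cannot turn
in the same way at both ends. -/
theorem ArcGeo.theta (H : ArcGeo Adj p d) {u v a b a' b' : ℕ} (hn : [u, v, a, b, a', b'].Nodup)
    (huv : Adj u v) (hua : Adj u a) (hab : Adj a b) (hbv : Adj b v) (hua' : Adj u a')
    (hab' : Adj a' b') (hbv' : Adj b' v) {β : ℝ} (h0 : 0 < β) (h1 : β < Real.pi)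
    (e1 : d u a = d u v * exp (β * I)) (e2 : d u a' * exp (β * I) = d u v)
    (e3 : d v b = d v u * exp (β * I)) (e4 : d v b' * exp (β * I) = d v u) : False := by
  simp only [List.nodup_cons, List.mem_cons, List.not_mem_nil, or_false, not_or,
    not_false_eq_true, List.nodup_nil, and_true] at hn
  obtain ⟨⟨n1, n2, n3, n4, n5⟩, ⟨n6, n7, n8, n9⟩, ⟨n10, n11, n12⟩, ⟨n13, n14⟩, n15⟩ := hn
  have hs := H.symm
  have path : ∀ (D : List (ℕ × ℕ)) (x y : ℕ), (∀ e ∈ D, Adj e.1 e.2) →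
      (D.map Prod.fst).Perm (D.map Prod.snd) → Adj u x → Adj x y → Adj y v →
      (∀ e ∈ D, e.1 ≠ x ∧ e.2 ≠ x) → (∀ e ∈ D, e.1 ≠ y ∧ e.2 ≠ y) →
      (D.map fun e => wlim p d e u (d u x)).sum = (D.map fun e => wlim p d e v (d v y)).sum := by
    intro D x y hD hc a1 a2 a3 hx hy
    rw [H.wind_out hD hc a1 hx, H.wind_out hD hc (hs _ _ a3) hy, H.wind_off hD hc (Or.inr a2) hx hy]
  have cyc : ∀ x1 x2 x3 x4 : ℕ, [x1, x2, x3, x4].Perm [x2, x3, x4, x1] := fun x1 x2 x3 x4 =>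
    (List.perm_append_singleton x1 [x2, x3, x4]).symm
  have w1 := path [(u, v), (v, b), (b, a), (a, u)] a' b'
    (by simp [huv, hs _ _ hbv, hs _ _ hab, hs _ _ hua]) (cyc _ _ _ _) hua' hab' hbv'
    (by simp [*]) (by simp [*])
  have w3 := path [(u, a'), (a', b'), (b', v), (v, u)] a b
    (by simp [hua', hab', hbv', hs _ _ huv]) (cyc _ _ _ _) hua hab hbv
    (by simp [*, Ne.symm]) (by simp [*, Ne.symm])
  have w2 := H.wind (D := [(u, a), (a, b), (b, v), (v, b'), (b', a'), (a', u)])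
    (by simp [hua, hab, hbv, hs _ _ hbv', hs _ _ hab', hs _ _ hua'])
    (List.perm_append_singleton u [a, b, v, b', a']).symm huv
    (by simp [*, Ne.symm])
  have hω : exp (β * I) ≠ 0 := exp_ne_zero _
  have h2 : exp (((2 * β : ℝ) : ℂ) * I) = exp (β * I) * exp (β * I) := by
    rw [← exp_add]
    congr 1
    push_cast
    ring
  have A1 := arg_neg_exp h0 (by linarith)
  have A2 := arg_neg_exp' h0 (by linarith)
  have A3 := arg_neg_exp (t := 2 * β) (by linarith) (by linarith)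
  have A4 := arg_neg_exp' (t := 2 * β) (by linarith) (by linarith)
  rw [h2] at A3 A4
  have d1 := H.d_ne hua'
  have d2 := H.d_ne (hs _ _ hbv')
  have q1 : -d u v / d u a' = -exp (β * I) := by rw [← e2]; field_simp
  have q2 : -d u a' / d u a = -(exp (β * I) * exp (β * I))⁻¹ := by rw [e1, ← e2]; field_simp
  have q3 : -d u a / d u v = -exp (β * I) := by rw [e1, ← e2]; field_simp
  have q4 : -d v b' / d v u = -(exp (β * I))⁻¹ := by rw [← e4]; field_simp
  have q5 : -d v b / d v b' = -(exp (β * I) * exp (β * I)) := by rw [e3, ← e4]; field_simp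
  have q6 : -d v u / d v b = -(exp (β * I))⁻¹ := by rw [e3, ← e4]; field_simp
  have r1 := H.wt_rev hab huv (Ne.symm n2) (Ne.symm n3)
  have r2 := H.wt_rev hbv huv (Ne.symm n3) (Ne.symm n1)
  have r3 := H.wt_rev hab' huv (Ne.symm n4) (Ne.symm n5)
  have r4 := H.wt_rev hbv' huv (Ne.symm n5) (Ne.symm n1)
  have r5 := H.wt_rev hab (hs _ _ huv) (Ne.symm n6) (Ne.symm n7)
  have r6 := H.wt_rev hua (hs _ _ huv) n1 (Ne.symm n6)
  have r7 := H.wt_rev hab' (hs _ _ huv) (Ne.symm n8) (Ne.symm n9)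
  have r8 := H.wt_rev hua' (hs _ _ huv) n1 (Ne.symm n8)
  simp only [List.map_cons, List.map_nil, List.sum_cons, List.sum_nil, wlim, if_true, n1,
    Ne.symm n1, Ne.symm n2, Ne.symm n3, Ne.symm n4, Ne.symm n5, Ne.symm n6, Ne.symm n7, Ne.symm n8,
    Ne.symm n9, if_false, q1, q2, q3, q4, q5, q6, A1, A2, A3, A4] at w1 w2 w3
  have := Real.pi_pos
  linarith

theorem pn_arg_rt {M s t : ℕ} (hs : s < M) (ht : t < M) (hst : s ≠ t) {f : ℂ} (hf : f ≠ 0) :
    arg (-(f * rt M s) / (f * rt M t)) =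
      2 * Real.pi * (s - t) / M + if s < t then Real.pi else -Real.pi := by
  have hM : (0 : ℝ) < M := by exact_mod_cast (by omega : 0 < M)
  have hπ := Real.pi_pos
  have h1 : (s : ℝ) < M := by exact_mod_cast hs
  have h2 : (t : ℝ) < M := by exact_mod_cast ht
  have h3 : (0 : ℝ) ≤ s := Nat.cast_nonneg s
  have h4 : (0 : ℝ) ≤ t := Nat.cast_nonneg t
  have h5 : -(f * rt M s) / (f * rt M t) = -exp (((2 * Real.pi * (s - t) / M : ℝ) : ℂ) * I) := by
    rw [neg_div, mul_div_mul_left _ _ hf, rt, rt, ← exp_sub]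
    congr 2
    push_cast
    ring
  rw [h5]
  split_ifs with h
  · have h6 : (s : ℝ) < t := by exact_mod_cast h
    have h7 : exp (((2 * Real.pi * (s - t) / M : ℝ) : ℂ) * I) =
        (exp (((2 * Real.pi * (t - s) / M : ℝ) : ℂ) * I))⁻¹ := by
      rw [← exp_neg]
      congr 1
      push_cast
      ring
    rw [h7, arg_neg_exp' (div_pos (by nlinarith) hM) (by rw [div_lt_iff₀ hM]; nlinarith)]
    ring
  · have h6 : (t : ℝ) < s := by exact_mod_cast (by omega : t < s)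
    rw [arg_neg_exp (div_pos (by nlinarith) hM) (by rw [div_lt_iff₀ hM]; nlinarith)]
    ring

theorem pn_rt_succ {M s : ℕ} (hM : 0 < M) : rt M ((s + 1) % M) = rt M s * rt M 1 := by
  have h0 : (M : ℂ) ≠ 0 := by exact_mod_cast hM.ne'
  have h : ((s + 1 : ℕ) : ℂ) = (((s + 1) % M : ℕ) : ℂ) + M * (((s + 1) / M : ℕ) : ℂ) := by
    exact_mod_cast (Nat.mod_add_div (s + 1) M).symm
  rw [rt, rt, rt, ← exp_add, exp_eq_exp_iff_exists_int]
  refine ⟨-(((s + 1) / M : ℕ) : ℤ), ?_⟩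
  rw [eq_sub_of_add_eq h.symm]
  simp only [Int.cast_neg, Int.cast_natCast]
  push_cast
  field_simp
  ring

theorem pn_rt_add (M s t : ℕ) : rt M (s + t) = rt M s * rt M t := by
  rw [rt, rt, rt, ← exp_add]
  congr 1
  push_cast
  ring

/-- A hub `u` with the spokes `x j` (period `M`) and the rim `x j, c j, x (j + 1)`, where `c j`
may be equal to `x j`. -/
structure Wheel (Adj : ℕ → ℕ → Prop) (M u : ℕ) (x c : ℕ → ℕ) : Prop where
  spoke : ∀ j, Adj u (x j)
  xinj : ∀ i j, x i = x j ↔ i % M = j % M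
  r1 : ∀ j, x j = c j ∨ Adj (x j) (c j)
  r2 : ∀ j, Adj (c j) (x (j + 1))
  cu : ∀ j, c j ≠ u
  cx : ∀ i j, c i = x j → i % M = j % M
  cc : ∀ i j, c i = c j → i % M = j % M

theorem ArcGeo.corner (H : ArcGeo Adj p d) {M u : ℕ} {x c : ℕ → ℕ} (hw : Wheel Adj M u x c) (i : ℕ) :
    ∀ k, k + 2 < M → arg (-d u (x i) / d u (x (i + 2 + k))) +
      arg (-d u (x (i + 2 + k)) / d u (x (i + 1))) =
      arg (-d u (x i) / d u (x (i + 2))) + arg (-d u (x (i + 2)) / d u (x (i + 1))) := by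
  classical
  have xu : ∀ j, x j ≠ u := fun j => (H.irr _ _ (hw.spoke j)).symm
  set D : List (ℕ × ℕ) := (u, x i) :: (x (i + 1), u) :: (c i, x (i + 1)) ::
    if x i = c i then [] else [(x i, c i)] with hDdef
  have hD : ∀ e ∈ D, Adj e.1 e.2 := by
    intro e he
    simp only [hDdef, List.mem_cons] at he
    rcases he with rfl | rfl | rfl | he
    · exact hw.spoke i
    · exact H.symm _ _ (hw.spoke _)
    · exact hw.r2 i
    · split_ifs at he with h
      · simp at he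
      · obtain rfl := List.mem_singleton.1 he
        exact (hw.r1 i).resolve_left h
  have hc : (D.map Prod.fst).Perm (D.map Prod.snd) := by
    rw [List.perm_iff_count]
    intro a
    rw [hDdef]
    split_ifs with h
    · simp only [List.map_cons, List.map_nil, List.count_cons, ← h]
      omega
    · simp only [List.map_cons, List.map_nil, List.count_cons]
      omega
  have off : ∀ y, y ≠ u → y ≠ x i → y ≠ x (i + 1) → y ≠ c i → ∀ e ∈ D, e.1 ≠ y ∧ e.2 ≠ y := by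
    intro y h1 h2 h3 h4 e he
    simp only [hDdef, List.mem_cons] at he
    rcases he with rfl | rfl | rfl | he
    · exact ⟨h1.symm, h2.symm⟩
    · exact ⟨h3.symm, h1.symm⟩
    · exact ⟨h4.symm, h3.symm⟩
    · split_ifs at he with h
      · simp at he
      · obtain rfl := List.mem_singleton.1 he
        exact ⟨h2.symm, h4.symm⟩
  have md : ∀ a b : ℕ, 0 < b → b < M → (a + b) % M ≠ a % M := fun a b h1 h2 h =>
    h1.ne' (Nat.ModEq.eq_of_lt_of_lt (Nat.ModEq.add_left_cancel' a (b := 0) h) h2 (by omega))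
  have offx : ∀ k, k + 2 < M → ∀ e ∈ D, e.1 ≠ x (i + 2 + k) ∧ e.2 ≠ x (i + 2 + k) := fun k hk =>
    off _ (xu _)
      (fun h => md i (2 + k) (by omega) (by omega) (by rw [← add_assoc]; exact (hw.xinj _ _).1 h))
      (fun h => md (i + 1) (1 + k) (by omega) (by omega)
        (by rw [← add_assoc]; exact (hw.xinj _ _).1 h))
      (fun h => md i (2 + k) (by omega) (by omega)
        (by rw [← add_assoc]; exact (hw.cx _ _ h.symm).symm))
  have offc : ∀ k, k + 2 < M → ∀ e ∈ D, e.1 ≠ c (i + 2 + k) ∧ e.2 ≠ c (i + 2 + k) := fun k hk =>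
    off _ (hw.cu _)
      (fun h => md i (2 + k) (by omega) (by omega) (by rw [← add_assoc]; exact hw.cx _ _ h))
      (fun h => md (i + 1) (1 + k) (by omega) (by omega)
        (by rw [← add_assoc]; exact hw.cx _ _ h))
      (fun h => md i (2 + k) (by omega) (by omega) (by rw [← add_assoc]; exact hw.cc _ _ h))
  have val : ∀ δ : ℂ, (D.map fun e => wlim p d e u δ).sum =
      arg (-d u (x i) / δ) + arg (-δ / d u (x (i + 1))) +
        (((c i, x (i + 1)) :: if x i = c i then [] else [(x i, c i)]).map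
          fun e => wt p d e (p u)).sum := by
    intro δ
    rw [hDdef, List.map_cons, List.map_cons, List.sum_cons, List.sum_cons, lt_fst,
      lt_snd (xu _), sum_off, add_assoc]
    intro e he
    rcases List.mem_cons.1 he with rfl | he
    · exact ⟨hw.cu i, xu _⟩
    · split_ifs at he with h
      · simp at he
      · obtain rfl := List.mem_singleton.1 he
        exact ⟨xu _, hw.cu i⟩
  have main : ∀ k, k + 2 < M → (D.map fun e => wt p d e (p (x (i + 2 + k)))).sum =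
      (D.map fun e => wt p d e (p (x (i + 2)))).sum := by
    intro k
    induction k with
    | zero => exact fun _ => rfl
    | succ k ih =>
      intro hk
      rw [← ih (by omega), H.wind_off hD hc (hw.r1 _) (offx k (by omega)) (offc k (by omega)),
        H.wind_off hD hc (Or.inr (hw.r2 _)) (offc k (by omega)) (offx (k + 1) hk)]
      rfl
  intro k hk
  have h1 := main k hk
  rw [← H.wind_out hD hc (hw.spoke _) (offx k hk),
    ← H.wind_out hD hc (hw.spoke _) (offx 0 (by omega)), val, val] at h1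
  exact add_right_cancel h1

/-- The spokes of a wheel that use all `M` directions at the hub come in the standard order or in
the reverse order. -/
theorem ArcGeo.wheel (H : ArcGeo Adj p d) {M u : ℕ} (hM : 3 ≤ M) {x c : ℕ → ℕ}
    (hw : Wheel Adj M u x c) {f : ℂ} {σ : ℕ → ℕ} (hσ : ∀ j, σ j < M)
    (hd : ∀ j, d u (x j) = f * rt M (σ j)) :
    (∀ j, d u (x j) = d u (x 0) * rt M j) ∨ ∀ j, d u (x j) * rt M j = d u (x 0) := by
  have hf : f ≠ 0 := fun h => H.d_ne (hw.spoke 0) (by rw [hd, h, zero_mul])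
  have dinj : ∀ i j, d u (x i) = d u (x j) → i % M = j % M := fun i j h => by
    by_contra hc
    exact H.dist _ _ _ (hw.spoke i) (hw.spoke j) (fun e => hc ((hw.xinj _ _).1 e)) 1 one_pos
      (by simpa using h)
  have md : ∀ a b b' : ℕ, b < M → b' < M → (a + b) % M = (a + b') % M → b = b' :=
    fun a b b' h1 h2 h => Nat.ModEq.eq_of_lt_of_lt (Nat.ModEq.add_left_cancel' a h) h1 h2
  have sinj : ∀ a b b' : ℕ, b < M → b' < M → σ (a + b) = σ (a + b') → b = b' :=
    fun a b b' h1 h2 h => md a b b' h1 h2 (dinj _ _ (by rw [hd, hd, h]))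
  have surj : ∀ a s, s < M → ∃ b < M, σ (a + b) = s := by
    intro a s hs
    have hi : Function.Injective fun b : Fin M => (⟨σ (a + b), hσ _⟩ : Fin M) := fun b b' h =>
      Fin.ext (sinj a b b' b.2 b'.2 (congrArg Fin.val h))
    obtain ⟨b, hb⟩ := Finite.surjective_of_injective hi ⟨s, hs⟩
    exact ⟨b, b.2, congrArg Fin.val hb⟩
  have hπ := Real.pi_pos
  have step : ∀ i, σ (i + 1) = (σ i + 1) % M ∨ σ i = (σ (i + 1) + 1) % M := by
    intro i
    have h01 : σ i ≠ σ (i + 1) := fun h => absurd (sinj i 0 1 (by omega) (by omega) h) (by omega)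
    have key : ∀ s, s < M → s ≠ σ i → s ≠ σ (i + 1) →
        ((σ i < s ↔ s < σ (i + 1)) ↔ (σ i < σ (i + 2) ↔ σ (i + 2) < σ (i + 1))) := by
      intro s hs h1 h2
      obtain ⟨b, hb, rfl⟩ := surj i s hs
      have hb0 : b ≠ 0 := by rintro rfl; exact h1 rfl
      have hb1 : b ≠ 1 := by rintro rfl; exact h2 rfl
      obtain ⟨k, rfl⟩ : ∃ k, b = 2 + k := ⟨b - 2, by omega⟩
      have h3 := H.corner hw i k (by omega)
      have h4 : σ i ≠ σ (i + 2) := fun h =>
        absurd (sinj i 0 2 (by omega) (by omega) h) (by omega)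
      have h5 : σ (i + 2) ≠ σ (i + 1) := fun h =>
        absurd (sinj i 2 1 (by omega) (by omega) h) (by omega)
      rw [← add_assoc] at h1 h2 ⊢
      simp only [hd] at h3
      rw [pn_arg_rt (hσ _) (hσ _) h1.symm hf, pn_arg_rt (hσ _) (hσ _) h2 hf,
        pn_arg_rt (hσ _) (hσ _) h4 hf, pn_arg_rt (hσ _) (hσ _) h5 hf] at h3
      have h6 : ∀ a b c : ℝ, 2 * Real.pi * (a - b) / M + 2 * Real.pi * (b - c) / M =
          2 * Real.pi * (a - c) / M := fun a b c => by ring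
      have h7 := h6 (σ i) (σ (i + 2 + k)) (σ (i + 1))
      have h8 := h6 (σ i) (σ (i + 2)) (σ (i + 1))
      split_ifs at h3 <;> first | (exfalso; linarith) | omega
    have a1 := hσ i
    have a2 := hσ (i + 1)
    by_contra hc
    push Not at hc
    obtain ⟨c1, c2⟩ := hc
    have m1 : (σ i + 1) % M = if σ i + 1 < M then σ i + 1 else 0 := by
      split_ifs with h
      · exact Nat.mod_eq_of_lt h
      · rw [show σ i + 1 = M by omega, Nat.mod_self]
    have m2 : (σ (i + 1) + 1) % M = if σ (i + 1) + 1 < M then σ (i + 1) + 1 else 0 := by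
      split_ifs with h
      · exact Nat.mod_eq_of_lt h
      · rw [show σ (i + 1) + 1 = M by omega, Nat.mod_self]
    have k1 := key _ (Nat.mod_lt (σ i + 1) (by omega)) (by rw [m1]; split_ifs <;> omega) c1.symm
    have k2 := key _ (Nat.mod_lt (σ (i + 1) + 1) (by omega)) c2.symm
      (by rw [m2]; split_ifs <;> omega)
    rw [m1] at k1 c1
    rw [m2] at k2 c2
    split_ifs at k1 k2 c1 c2 <;> omega
  have step' : ∀ i, d u (x (i + 1)) = d u (x i) * rt M 1 ∨
      d u (x (i + 1)) * rt M 1 = d u (x i) := fun i =>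
    (step i).imp (fun h => by rw [hd, hd, h, pn_rt_succ (by omega), mul_assoc])
      fun h => by rw [hd, hd, h, pn_rt_succ (by omega), mul_assoc]
  have h1 : rt M 1 ≠ 0 := exp_ne_zero _
  have two : ∀ i, d u (x (i + 2)) ≠ d u (x i) := fun i h =>
    absurd (md i 2 0 (by omega) (by omega) (dinj _ _ h)) (by omega)
  have h0 : rt M 0 = 1 := by simp [rt]
  rcases step' 0 with h | h
  · left
    have all : ∀ i, d u (x (i + 1)) = d u (x i) * rt M 1 := by
      intro i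
      induction i with
      | zero => exact h
      | succ i ih =>
        exact (step' (i + 1)).resolve_right fun e => two i (mul_right_cancel₀ h1 (e.trans ih))
    intro j
    induction j with
    | zero => rw [h0, mul_one]
    | succ j ih => rw [all, ih, pn_rt_add, mul_assoc]
  · right
    have all : ∀ i, d u (x (i + 1)) * rt M 1 = d u (x i) := by
      intro i
      induction i with
      | zero => exact h
      | succ i ih => exact (step' (i + 1)).resolve_left fun e => two i (e.trans ih)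
    intro j
    induction j with
    | zero => rw [h0, mul_one]
    | succ j ih => rw [pn_rt_add, mul_comm (rt M j), ← mul_assoc, all, ih]

end Pool.Agent.Lib.MP_242159_lc

/-!
Two drawings of complementary parts of an edge list are moved apart and joined.
-/

namespace Pool.Agent.Lib.MP_242159_lc

open Complex Filter Topology

variable {N : ℕ} {E : List Edge}

theorem pm_core_bdd {p f : ℕ → ℂ} (H : Core N E p f) : ∀ᶠ R : ℝ in atTop,
    (∀ a ∈ halves E, ‖p a.1‖ < R) ∧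
      ∀ e ∈ E, ∀ z, OnArc (p e.1) (p e.2.2.1) (We N p f e) z → ‖z‖ < R := by
  have h1 : ∀ᶠ R : ℝ in atTop, ∀ a ∈ halves E, ‖p a.1‖ < R :=
    (eventually_all_finite (halves E).finite_toSet).2 fun a _ => eventually_gt_atTop _
  have h2 : ∀ᶠ R : ℝ in atTop,
      ∀ e ∈ E, ∀ z, OnArc (p e.1) (p e.2.2.1) (We N p f e) z → ‖z‖ < R :=
    (eventually_all_finite E.finite_toSet).2 fun e he => by
      obtain ⟨R, hR⟩ := onArc_bdd (p e.1) (p e.2.2.1) (H.slit e he)
      filter_upwards [eventually_gt_atTop R] with S hS z hz using (hR z hz).trans_lt hS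
  exact h1.and h2

theorem pm_onArc_shift {a b W z : ℂ} (c : ℂ) : OnArc (a + c) (b + c) W z ↔ OnArc a b W (z - c) := by
  refine exists_congr fun l => and_congr Iff.rfl ?_
  constructor <;> intro h <;> linear_combination h

theorem pm_halves_filter (s : ℕ → Bool) (hs : ∀ e ∈ E, s e.1 = s e.2.2.1) {a : ℕ × ℕ × ℕ}
    (ha : a ∈ halves E) (h : s a.1 = true) : a ∈ halves (E.filter fun e => s e.1) := by
  obtain ⟨e, he, ha⟩ := mem_halves'.1 ha
  refine mem_halves'.2 ⟨e, List.mem_filter.2 ⟨he, ?_⟩, ha⟩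
  rcases ha with rfl | rfl
  · exact h
  · exact (hs e he).trans h

theorem core_of_signs {p f q g : ℕ → ℂ} (s : ℕ → Bool) (hs : ∀ e ∈ E, s e.1 = s e.2.2.1)
    (H1 : Core N (E.filter fun e => s e.1) p f) (H2 : Core N (E.filter fun e => !s e.1) q g) :
    ∃ p f, Core N E p f := by
  obtain ⟨R, ⟨a1, a2⟩, b1, b2⟩ := ((pm_core_bdd H1).and (pm_core_bdd H2)).exists
  have hs' : ∀ e ∈ E, (!s e.1) = !s e.2.2.1 := fun e he => by rw [hs e he]
  set P : ℕ → ℂ := fun u => if s u = true then p u else q u + 2 * R with hP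
  set F : ℕ → ℂ := fun u => if s u = true then f u else g u with hF
  have far : ∀ z : ℂ, ‖z‖ < R → ¬ ‖z - 2 * R‖ < R := fun z h1 h2 => by
    have h3 := norm_sub_le z (z - 2 * R)
    have h4 : ‖z - (z - 2 * R)‖ = 2 * |R| := by simp
    have := le_abs_self R
    linarith
  have v : ∀ a ∈ halves E, (a ∈ halves (E.filter fun e => s e.1) ∧ P a.1 = p a.1 ∧ s a.1 = true) ∨
      (a ∈ halves (E.filter fun e => !s e.1) ∧ P a.1 - 2 * R = q a.1 ∧ s a.1 = false) := by
    intro a ha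
    cases h : s a.1
    · exact Or.inr ⟨pm_halves_filter (fun u => !s u) hs' ha (by simp [h]), by simp [hP, h], rfl⟩
    · exact Or.inl ⟨pm_halves_filter s hs ha h, by simp [hP, h], rfl⟩
  have w : ∀ e ∈ E, (e ∈ E.filter (fun e => s e.1) ∧ We N P F e = We N p f e ∧
      F e.2.2.1 = f e.2.2.1 ∧ P e.1 - P e.2.2.1 = p e.1 - p e.2.2.1 ∧
      ∀ z, OnArc (P e.1) (P e.2.2.1) (We N P F e) z → OnArc (p e.1) (p e.2.2.1) (We N p f e) z) ∨
      (e ∈ E.filter (fun e => !s e.1) ∧ We N P F e = We N q g e ∧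
      F e.2.2.1 = g e.2.2.1 ∧ P e.1 - P e.2.2.1 = q e.1 - q e.2.2.1 ∧
      ∀ z, OnArc (P e.1) (P e.2.2.1) (We N P F e) z →
        OnArc (q e.1) (q e.2.2.1) (We N q g e) (z - 2 * R)) := by
    intro e he
    have h' := hs e he
    cases h : s e.1
    · rw [h] at h'
      have h1 : We N P F e = We N q g e := by simp [We, hP, hF, h, ← h']
      refine Or.inr ⟨List.mem_filter.2 ⟨he, by simp [h]⟩, h1, by simp [hF, ← h'],
        by simp [hP, h, ← h'], fun z hz => ?_⟩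
      rw [h1] at hz
      simp only [hP, h, ← h', Bool.false_eq_true, if_false] at hz
      exact (pm_onArc_shift _).1 hz
    · rw [h] at h'
      have h1 : We N P F e = We N p f e := by simp [We, hP, hF, h, ← h']
      refine Or.inl ⟨List.mem_filter.2 ⟨he, h⟩, h1, by simp [hF, ← h'],
        by simp [hP, h, ← h'], fun z hz => ?_⟩
      rw [h1] at hz
      simpa only [hP, h, ← h', if_true] using hz
  refine ⟨P, F, fun a ha b hb hab => ?_, fun e he => ?_, fun e he => ?_, fun e he a ha hz => ?_,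
    fun e he e' he' hne z hz hz' => ?_⟩
  · rcases v a ha with ⟨c1, c2, -⟩ | ⟨c1, c2, -⟩ <;> rcases v b hb with ⟨d1, d2, -⟩ | ⟨d1, d2, -⟩
    · exact H1.inj a c1 b d1 (by rw [← c2, ← d2, hab])
    · exact absurd (by rw [← c2, hab, d2]; exact b1 b d1) (far _ (a1 a c1))
    · exact absurd (by rw [← d2, ← hab, c2]; exact b1 a c1) (far _ (a1 b d1))
    · exact H2.inj a c1 b d1 (by rw [← c2, ← d2, hab])
  · rcases w e he with ⟨c1, c2, -⟩ | ⟨c1, c2, -⟩ <;> rw [c2]
    · exact H1.slit e c1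
    · exact H2.slit e c1
  · rcases w e he with ⟨c1, c2, c3, c4, -⟩ | ⟨c1, c2, c3, c4, -⟩ <;> rw [c2, c3, c4]
    · exact H1.tan e c1
    · exact H2.tan e c1
  · rcases w e he with ⟨c1, -, -, -, c5⟩ | ⟨c1, -, -, -, c5⟩ <;>
      rcases v a ha with ⟨d1, d2, -⟩ | ⟨d1, d2, -⟩
    · exact H1.vert e c1 a d1 (d2 ▸ c5 _ hz)
    · exact far _ (a2 e c1 _ (c5 _ hz)) (d2 ▸ b1 a d1)
    · exact far _ (d2 ▸ a1 a d1) (b2 e c1 _ (c5 _ hz))
    · exact H2.vert e c1 a d1 (d2 ▸ c5 _ hz)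
  · rcases w e he with ⟨c1, -, -, -, c5⟩ | ⟨c1, -, -, -, c5⟩ <;>
      rcases w e' he' with ⟨d1, -, -, -, d5⟩ | ⟨d1, -, -, -, d5⟩
    · exact H1.cross e c1 e' d1 hne z (c5 _ hz) (d5 _ hz')
    · exact far _ (a2 e c1 _ (c5 _ hz)) (b2 e' d1 _ (d5 _ hz'))
    · exact far _ (a2 e' d1 _ (d5 _ hz')) (b2 e c1 _ (c5 _ hz))
    · exact H2.cross e c1 e' d1 hne _ (c5 _ hz) (d5 _ hz')

end Pool.Agent.Lib.MP_242159_lc

/-!
Every drawing of the gadget graph, for any rotation system, gives a drawing of the edge list.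
-/

namespace Pool.Agent.Lib.MP_242159_lc

open Complex Filter Topology

/-- The direction of the edge `xy` at `x`. -/
noncomputable def dirA (B : List (List ℕ)) (f : ℕ → ℂ) (x y : ℕ) : ℂ :=
  f x * rt (nb B x).length ((nb B x).idxOf y)

theorem geo_of_alg {B : List (List ℕ)} (hB : IsRotGraph B) {p f : ℕ → ℂ} (H : Alg B p f) :
    ArcGeo (fun x y => y ∈ nb B x) p (dirA B f) := by
  have hidx : ∀ x, ∀ y ∈ nb B x, (nb B x).idxOf y < (nb B x).length :=
    fun x y hy => List.idxOf_lt_length_of_mem hy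
  have hnk : ∀ x, ∀ y ∈ nb B x, nk B x ((nb B x).idxOf y) = y := fun x y hy => by
    rw [nk_eq (hidx x y hy), List.getElem_idxOf]
  have hW : ∀ x, ∀ y ∈ nb B x, Wd B p f x ((nb B x).idxOf y) = Wg p (dirA B f) x y :=
    fun x y hy => by rw [Wd, hnk x y hy, Wg, dirA]
  have hs : ∀ x, ∀ y ∈ nb B x, x ∈ nb B y := fun x y hy => ((hB x (alg_lt_of_mem hy)).2 y hy).2.2
  refine ⟨hs, fun x y h => ((hB x (alg_lt_of_mem h)).2 y h).2.1.symm,
    fun x y x' y' h h' => H.inj _ (alg_lt_of_mem h) _ (alg_lt_of_mem h'),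
    fun x y h => hW x y h ▸ H.slit x _ (hidx x y h), fun x y h => ?_, fun x y x' y' h h' => ?_,
    fun x y x' y' h h' hne z => ?_, fun x y y' h h' hne r hr he => ?_⟩
  · have := H.tan x _ (hidx x y h) ((nb B y).idxOf x) (by rw [hnk x y h]; exact hidx y x (hs x y h))
      (by rw [hnk x y h]; exact hnk y x (hs x y h))
    rwa [hW x y h, hnk x y h] at this
  · have := H.vert x _ (hidx x y h) x' (alg_lt_of_mem h')
    rwa [hW x y h, hnk x y h] at this
  · have := H.cross x _ (hidx x y h) x' _ (hidx x' y' h') (by rwa [hnk x y h, hnk x' y' h']) z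
    rwa [hW x y h, hnk x y h, hW x' y' h', hnk x' y' h'] at this
  · have hf : f x ≠ 0 := fun h0 => by
      have := H.slit x _ (hidx x y h)
      rw [Wd, h0] at this
      simp at this
    have h1 := rt_inj (hidx x y h) (hidx x y' h') one_pos hr.le (mul_left_cancel₀ hf (by
      simp only [dirA] at he
      push_cast
      linear_combination he))
    exact hne (by rw [← hnk x y h, h1, hnk x y' h'])

theorem pn_onArc_conj {a b W z : ℂ}
    (h : OnArc ((starRingEnd ℂ) a) ((starRingEnd ℂ) b) ((starRingEnd ℂ) W) z) :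
    OnArc a b W ((starRingEnd ℂ) z) := by
  obtain ⟨l, hl, h⟩ := h
  exact ⟨l, hl, by simpa using congrArg (starRingEnd ℂ) h⟩

theorem ArcGeo.conj {Adj : ℕ → ℕ → Prop} {p : ℕ → ℂ} {d : ℕ → ℕ → ℂ} (H : ArcGeo Adj p d) :
    ArcGeo Adj (fun x => (starRingEnd ℂ) (p x)) fun x y => (starRingEnd ℂ) (d x y) := by
  have hW : ∀ x y, Wg (fun x => (starRingEnd ℂ) (p x)) (fun x y => (starRingEnd ℂ) (d x y)) x y =
      (starRingEnd ℂ) (Wg p d x y) := fun x y => by simp [Wg]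
  refine ⟨H.symm, H.irr, fun x y x' y' h h' e => H.inj _ _ _ _ h h' ((starRingEnd ℂ).injective e),
    fun x y h => ?_, fun x y h => ?_, fun x y x' y' h h' hz => ?_,
    fun x y x' y' h h' hne z hz hz' => ?_, fun x y y' h h' hne r hr he => ?_⟩
  · have := H.slit x y h
    rw [hW]
    simpa [mem_slitPlane_iff] using this
  · obtain ⟨ρ, hρ, he⟩ := H.tan x y h
    exact ⟨ρ, hρ, by rw [hW]; simpa using congrArg (starRingEnd ℂ) he⟩
  · rw [hW] at hz
    exact H.vert _ _ _ _ h h' (by simpa using pn_onArc_conj hz)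
  · rw [hW] at hz hz'
    exact H.cross _ _ _ _ h h' hne _ (pn_onArc_conj hz) (pn_onArc_conj hz')
  · exact H.dist _ _ _ h h' hne r hr (by simpa using congrArg (starRingEnd ℂ) he)

theorem core_of_geo {Adj : ℕ → ℕ → Prop} {p : ℕ → ℂ} {d : ℕ → ℕ → ℂ} (H : ArcGeo Adj p d) {N : ℕ}
    {E : List Edge} {f : ℕ → ℂ}
    (h : ∀ a ∈ halves E, Adj a.1 a.2.2 ∧ d a.1 a.2.2 = f a.1 * rt N a.2.1) : Core N E p f := by
  have h1 : ∀ e ∈ E, Adj e.1 e.2.2.1 ∧ We N p f e = Wg p d e.1 e.2.2.1 := fun e he => by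
    have := h _ (mem_halves'.2 ⟨e, he, Or.inl rfl⟩)
    exact ⟨this.1, by rw [We, Wg, this.2]⟩
  refine ⟨fun a ha b hb => H.inj _ _ _ _ (h a ha).1 (h b hb).1, fun e he => ?_, fun e he => ?_,
    fun e he a ha => ?_, fun e he e' he' hne z => ?_⟩
  · rw [(h1 e he).2]; exact H.slit _ _ (h1 e he).1
  · have := (h _ (mem_halves'.2 ⟨e, he, Or.inr rfl⟩)).2
    simp only at this
    rw [(h1 e he).2, ← this]; exact H.tan _ _ (h1 e he).1
  · rw [(h1 e he).2]; exact H.vert _ _ _ _ (h1 e he).1 (h a ha).1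
  · rw [(h1 e he).2, (h1 e' he').2]; exact H.cross _ _ _ _ (h1 e he).1 (h1 e' he').1 hne z

theorem pn_nb_perm {A B : List (List ℕ)} (h : List.Forall₂ List.Perm B A) (u : ℕ) :
    (nb B u).Perm (nb A u) := by
  induction h generalizing u with
  | nil => exact List.Perm.refl _
  | cons h _ ih =>
    cases u with
    | zero => exact h
    | succ u => exact ih u

theorem pn_rot_perm {A B : List (List ℕ)} (h : List.Forall₂ List.Perm B A) (hA : IsRotGraph A) :
    IsRotGraph B := by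
  intro u hu
  rw [h.length_eq] at hu ⊢
  refine ⟨(pn_nb_perm h u).nodup_iff.2 (hA u hu).1, fun v hv => ?_⟩
  rw [(pn_nb_perm h v).mem_iff]
  exact (hA u hu).2 v ((pn_nb_perm h u).mem_iff.1 hv)

variable {n N : ℕ} {E : List Edge}

theorem pn_half_of_mem {G : List Edge} {a b c d : ℕ} (h : (a, b, c, d) ∈ G) :
    (a, b, c) ∈ halves G ∧ (c, d, a) ∈ halves G :=
  ⟨mem_halves'.2 ⟨_, h, Or.inl rfl⟩, mem_halves'.2 ⟨_, h, Or.inr rfl⟩⟩

theorem pn_gad_old {u k v : ℕ} (h : (u, k, v) ∈ halves E) : ∃ k', (v, k', u) ∈ halves E ∧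
    (u, 4 * k + 1, v) ∈ halves (gad n N E) ∧
      (aux n N u k 2, 2 * N, aux n N v k' 0) ∈ halves (gad n N E) ∧
      (aux n N u k 0, 2 * N, aux n N v k' 2) ∈ halves (gad n N E) := by
  obtain ⟨e, he, h⟩ := mem_halves'.1 h
  have m : ∀ x ∈ gadE n N e, x ∈ gad n N E := fun x hx => mem_gad.2 (Or.inl ⟨e, he, hx⟩)
  have m1 := pn_half_of_mem (m _ (List.mem_cons_self))
  have m2 := pn_half_of_mem (m _ (List.mem_cons_of_mem _ List.mem_cons_self))
  have m3 := pn_half_of_mem (m _ (List.mem_cons_of_mem _ (List.mem_cons_of_mem _ List.mem_cons_self)))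
  rcases h with h | h <;> simp only [Prod.mk.injEq] at h <;> obtain ⟨rfl, rfl, rfl⟩ := h
  · exact ⟨_, mem_halves'.2 ⟨e, he, Or.inr rfl⟩, m1.1, m2.1, m3.2⟩
  · exact ⟨_, mem_halves'.2 ⟨e, he, Or.inl rfl⟩, m1.2, m3.1, m2.2⟩

theorem pn_gad_B {u k : ℕ} (hu : u < n) (hk : k < N) :
    (u, 4 * k, aux n N u k 0) ∈ halves (gad n N E) ∧
      (u, 4 * k + 2, aux n N u k 2) ∈ halves (gad n N E) ∧
      (u, 4 * k + 3, aux n N u k 3) ∈ halves (gad n N E) ∧
      (aux n N u k 2, 3 * N, aux n N u k 3) ∈ halves (gad n N E) ∧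
      (aux n N u k 3, 3 * N - 4, aux n N u ((k + 1) % N) 0) ∈ halves (gad n N E) := by
  have m : ∀ x ∈ gadB n N u k, (x.1, x.2.1, x.2.2.1) ∈ halves (gad n N E) := fun x hx =>
    (pn_half_of_mem (mem_gad.2 (Or.inr ⟨u, hu, k, hk, Or.inl hx⟩))).1
  simpa only [gadB, List.forall_mem_cons, List.not_mem_nil, false_imp_iff, implies_true,
    and_true] using m

theorem pn_gad_M {u k : ℕ} (hu : u < n) (hk : k < N) (hl : look E u k = []) :
    (u, 4 * k + 1, aux n N u k 1) ∈ halves (gad n N E) ∧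
      (aux n N u k 0, 3 * N, aux n N u k 1) ∈ halves (gad n N E) ∧
      (aux n N u k 1, 3 * N, aux n N u k 2) ∈ halves (gad n N E) := by
  have m : ∀ x ∈ gadM n N u k, (x.1, x.2.1, x.2.2.1) ∈ halves (gad n N E) := fun x hx =>
    (pn_half_of_mem (mem_gad.2 (Or.inr ⟨u, hu, k, hk, Or.inr ⟨hl, hx⟩⟩))).1
  simpa only [gadM, List.forall_mem_cons, List.not_mem_nil, false_imp_iff, implies_true,
    and_true] using m

/-- The neighbour number `j` of an old vertex in the gadget graph. -/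
def xg (n N : ℕ) (E : List Edge) (u j : ℕ) : ℕ := oe (nG n N) (4 * N) (gad n N E) u (j % (4 * N))

theorem xg_eq (h : WFE n N E) (hN : 3 ≤ N) {u j v : ℕ} (hh : (u, j, v) ∈ halves (gad n N E)) :
    xg n N E u j = v := by
  have hw := gad_wf h hN
  rw [xg, Nat.mod_eq_of_lt (half_lt hw hh).2.1, oe_half hw hh]

theorem xg_mod (u j : ℕ) : xg n N E u (j % (4 * N)) = xg n N E u j := by
  rw [xg, Nat.mod_mod, xg]

theorem xg_cases (h : WFE n N E) (hN : 3 ≤ N) {u : ℕ} (hu : u < n) (j : ℕ) :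
    (u, j % (4 * N), xg n N E u j) ∈ halves (gad n N E) ∧
      (xg n N E u j < n ∨ ∃ k < N, ∃ i < 4, xg n N E u j = aux n N u k i) := by
  have hj : j % (4 * N) < 4 * N := Nat.mod_lt _ (by omega)
  rw [← xg_mod]
  generalize j % (4 * N) = t at hj
  obtain ⟨k, hk, ht⟩ : ∃ k < N, t = 4 * k ∨ t = 4 * k + 1 ∨ t = 4 * k + 2 ∨ t = 4 * k + 3 :=
    ⟨t / 4, by omega, by omega⟩
  obtain ⟨b0, b2, b3, -⟩ := pn_gad_B (E := E) hu hk
  rcases ht with rfl | rfl | rfl | rfl
  · rw [xg_eq h hN b0]; exact ⟨b0, Or.inr ⟨k, hk, 0, by omega, rfl⟩⟩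
  · rcases oe_cases n N E u k with h1 | ⟨h1, -⟩
    · obtain ⟨k', -, h2, -⟩ := pn_gad_old (n := n) (N := N) h1
      rw [xg_eq h hN h2]; exact ⟨h2, Or.inl (half_lt h h1).2.2.1⟩
    · have h2 := (pn_gad_M hu hk h1).1
      rw [xg_eq h hN h2]; exact ⟨h2, Or.inr ⟨k, hk, 1, by omega, rfl⟩⟩
  · rw [xg_eq h hN b2]; exact ⟨b2, Or.inr ⟨k, hk, 2, by omega, rfl⟩⟩
  · rw [xg_eq h hN b3]; exact ⟨b3, Or.inr ⟨k, hk, 3, by omega, rfl⟩⟩

theorem gad_wheel (h : WFE n N E) (hN : 3 ≤ N) {Adj : ℕ → ℕ → Prop}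
    (hA : ∀ a ∈ halves (gad n N E), Adj a.1 a.2.2) (hs : ∀ x y, Adj x y → Adj y x) {u : ℕ}
    (hu : u < n) : ∃ c, Wheel Adj (4 * N) u (xg n N E u) c := by
  have hw := gad_wf h hN
  have xinj : ∀ i j, xg n N E u i = xg n N E u j ↔ i % (4 * N) = j % (4 * N) := fun i j =>
    ⟨fun e => hw.par _ (xg_cases h hN hu i).1 _ (xg_cases h hN hu j).1 rfl e,
      fun e => by rw [xg, xg, e]⟩
  have ex : ∀ j, ∃ c, (xg n N E u j = c ∨ Adj (xg n N E u j) c) ∧ Adj c (xg n N E u (j + 1)) ∧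
      (c = xg n N E u j ∨ ∃ v k', (u, j % (4 * N) / 4, v) ∈ halves E ∧ (v, k', u) ∈ halves E ∧
        j % (4 * N) % 4 ≤ 1 ∧ c = aux n N v k' (2 - 2 * (j % (4 * N) % 4))) := by
    intro j
    have hj : j % (4 * N) < 4 * N := Nat.mod_lt _ (by omega)
    have h1 : xg n N E u (j + 1) = xg n N E u (j % (4 * N) + 1) := by
      rw [xinj, Nat.mod_add_mod]
    rw [h1, ← xg_mod u j]
    generalize j % (4 * N) = t at hj
    obtain ⟨k, hk, ht⟩ : ∃ k < N, t = 4 * k ∨ t = 4 * k + 1 ∨ t = 4 * k + 2 ∨ t = 4 * k + 3 :=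
      ⟨t / 4, by omega, by omega⟩
    obtain ⟨b0, b2, b3, b4, b5⟩ := pn_gad_B (E := E) hu hk
    rcases ht with rfl | rfl | rfl | rfl
    · rcases oe_cases n N E u k with h1 | ⟨h1, -⟩
      · obtain ⟨k', h2, h3, -, h5⟩ := pn_gad_old (n := n) (N := N) h1
        obtain ⟨c1, c2, c3, -⟩ := half_lt h h2
        rw [xg_eq h hN b0, xg_eq h hN h3]
        exact ⟨aux n N _ k' 2, Or.inr (hA _ h5), hs _ _ (hA _ (pn_gad_B c1 c2).2.1),
          Or.inr ⟨_, k', by rwa [show 4 * k / 4 = k by omega], h2, by omega,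
            by rw [show 4 * k % 4 = 0 by omega]⟩⟩
      · obtain ⟨h2, h3, -⟩ := pn_gad_M hu hk h1
        rw [xg_eq h hN b0, xg_eq h hN h2]
        exact ⟨_, Or.inl rfl, hA _ h3, Or.inl rfl⟩
    · rcases oe_cases n N E u k with h1 | ⟨h1, -⟩
      · obtain ⟨k', h2, h3, h4, -⟩ := pn_gad_old (n := n) (N := N) h1
        obtain ⟨c1, c2, c3, -⟩ := half_lt h h2
        rw [xg_eq h hN b2, xg_eq h hN h3]
        exact ⟨aux n N _ k' 0, Or.inr (hA _ (pn_gad_B c1 c2).1), hs _ _ (hA _ h4),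
          Or.inr ⟨_, k', by rwa [show (4 * k + 1) / 4 = k by omega], h2, by omega,
            by rw [show (4 * k + 1) % 4 = 1 by omega]⟩⟩
      · obtain ⟨h2, -, h3⟩ := pn_gad_M hu hk h1
        rw [xg_eq h hN b2, xg_eq h hN h2]
        exact ⟨_, Or.inl rfl, hA _ h3, Or.inl rfl⟩
    · rw [xg_eq h hN b2, xg_eq h hN b3]
      exact ⟨_, Or.inl rfl, hA _ b4, Or.inl rfl⟩
    · have h1 : xg n N E u (4 * k + 3 + 1) = xg n N E u (4 * ((k + 1) % N)) := by
        rw [xinj, ← Nat.mul_mod_mul_left, Nat.mod_mod]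
        rfl
      rw [h1, xg_eq h hN b3, xg_eq h hN (pn_gad_B hu (Nat.mod_lt _ (by omega))).1]
      exact ⟨_, Or.inl rfl, hA _ b5, Or.inl rfl⟩
  choose c c1 c2 c3 using ex
  have cx : ∀ i j, c i = xg n N E u j → i % (4 * N) = j % (4 * N) := by
    intro i j e
    rcases c3 i with h1 | ⟨v, k', h1, h2, -, h3⟩
    · exact (xinj _ _).1 (h1.symm.trans e)
    · exfalso
      rcases (xg_cases h hN hu j).2 with h4 | ⟨k, hk, i', hi', h4⟩
      · have := le_aux (n := n) (N := N) v k' (2 - 2 * (i % (4 * N) % 4))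
        omega
      · exact (half_lt h h2).2.2.2 (aux_inj (half_lt h h2).2.1 (by omega) hk hi'
          (h3.symm.trans (e.trans h4))).1
  refine ⟨c, fun j => hA _ (xg_cases h hN hu j).1, xinj, c1, c2, fun j e => ?_, cx, fun i j e => ?_⟩
  · rcases c3 j with h1 | ⟨v, k', h1, h2, -, h3⟩
    · exact (half_lt hw (xg_cases h hN hu j).1).2.2.2 (e.symm.trans h1)
    · have := le_aux (n := n) (N := N) v k' (2 - 2 * (j % (4 * N) % 4))
      omega
  · rcases c3 j with h1 | ⟨v, k', h1, h2, h4, h3⟩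
    · exact cx _ _ (e.trans h1)
    rcases c3 i with g1 | ⟨w, k'', g1, g2, g4, g3⟩
    · exact (cx _ _ (e.symm.trans g1)).symm
    obtain ⟨rfl, -, a2⟩ := aux_inj (half_lt h g2).2.1 (by omega) (half_lt h h2).2.1 (by omega)
      (g3.symm.trans (e.trans h3))
    have a3 : i % (4 * N) / 4 = j % (4 * N) / 4 := h.par _ g1 _ h1 rfl rfl
    omega

theorem pn_rt_four (N k : ℕ) : rt (4 * N) (4 * k + 1) = rt (4 * N) 1 * rt N k := by
  rw [pn_rt_add, mul_comm]
  congr 1
  rw [rt, rt]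
  congr 1
  push_cast
  by_cases h : (N : ℂ) = 0
  · simp [h]
  · field_simp

theorem pn_conj_rt (M j : ℕ) : (starRingEnd ℂ) (rt M j) * rt M j = 1 := by
  rw [conj_mul', norm_rt]
  simp

theorem pl_no (h : WFE n N E) (hN : 3 ≤ N) {B : List (List ℕ)}
    (hB : List.Forall₂ List.Perm B (graph (nG n N) (4 * N) (gad n N E))) {p f : ℕ → ℂ}
    (H : Alg B p f) : ∃ p f, Core N E p f := by
  classical
  have hw := gad_wf h hN
  have G := geo_of_alg (pn_rot_perm hB (graph_rot hw)) H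
  set d := dirA B f with hd
  have hA : ∀ a ∈ halves (gad n N E), a.2.2 ∈ nb B a.1 := fun a ha => by
    obtain ⟨h1, h2, -⟩ := half_data hw p f (u := a.1) (d := a.2.1) (v := a.2.2) ha
    rw [(pn_nb_perm hB _).mem_iff, ← h2]
    exact nk_mem h1
  have sg : ∀ u < n, (∀ j, d u (xg n N E u j) = d u (xg n N E u 0) * rt (4 * N) j) ∨
      ∀ j, d u (xg n N E u j) * rt (4 * N) j = d u (xg n N E u 0) := by
    intro u hu
    obtain ⟨c, hc⟩ := gad_wheel h hN hA G.symm hu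
    have hl : (nb B u).length = 4 * N := by
      rw [(pn_nb_perm hB u).length_eq, len_core (by unfold nG; omega)]
    exact G.wheel (by omega) hc (f := f u) (σ := fun j => (nb B u).idxOf (xg n N E u j))
      (fun j => hl ▸ List.idxOf_lt_length_of_mem (hc.spoke j)) fun j => by rw [hd, dirA, hl]
  set S : ℕ → Prop := fun u => ∀ j, d u (xg n N E u j) = d u (xg n N E u 0) * rt (4 * N) j with hS
  have plus : ∀ u, S u → ∀ j, d u (xg n N E u (j + 1)) = d u (xg n N E u j) * rt (4 * N) 1 :=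
    fun u hu j => by rw [hu (j + 1), hu j, pn_rt_add, mul_assoc]
  have minus : ∀ u < n, ¬ S u → ∀ j,
      d u (xg n N E u (j + 1)) * rt (4 * N) 1 = d u (xg n N E u j) := fun u hu h1 j => by
    have h2 := (sg u hu).resolve_left h1
    refine mul_right_cancel₀ (rt_ne' (4 * N) j) ?_
    rw [h2 j, ← h2 (j + 1), pn_rt_add]
    ring
  have same : ∀ u k v, (u, k, v) ∈ halves E → S u → S v := by
    intro u k v hh hu
    by_contra hv
    obtain ⟨k', h2, h3, h4, h5⟩ := pn_gad_old (n := n) (N := N) hh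
    obtain ⟨k'', h6, h7, -⟩ := pn_gad_old (n := n) (N := N) h2
    obtain ⟨a1, a2, a3, a4⟩ := half_lt h hh
    have a5 := (half_lt h h2).2.1
    obtain ⟨b0, b2, -⟩ := pn_gad_B (E := E) a1 a2
    obtain ⟨c0, c2, -⟩ := pn_gad_B (E := E) a3 a5
    have hω : rt (4 * N) 1 = exp (((2 * Real.pi / (4 * N) : ℝ) : ℂ) * I) := by
      rw [rt]
      congr 2
      push_cast
      ring
    have hN' : (3 : ℝ) ≤ N := by exact_mod_cast hN
    have hπ := Real.pi_pos
    have e1 := plus u hu (4 * k + 1)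
    have e2 := plus u hu (4 * k)
    have e3 := minus v a3 hv (4 * k')
    have e4 := minus v a3 hv (4 * k' + 1)
    rw [xg_eq h hN b2, xg_eq h hN h3, hω] at e1
    rw [xg_eq h hN b0, xg_eq h hN h3, hω] at e2
    rw [xg_eq h hN c0, xg_eq h hN h7, hω] at e3
    rw [xg_eq h hN c2, xg_eq h hN h7, hω] at e4
    have l : ∀ u k j, n ≤ aux n N u k j := le_aux
    have ne : ∀ {u k j u' k' j' : ℕ}, k < N → j < 4 → k' < N → j' < 4 → (u ≠ u' ∨ j ≠ j') →
        aux n N u k j ≠ aux n N u' k' j' := fun b1 b2 b3 b4 b5 e => by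
      have := aux_inj b1 b2 b3 b4 e
      omega
    refine G.theta (u := u) (v := v) (a := aux n N u k 2) (b := aux n N v k' 0)
      (a' := aux n N u k 0) (b' := aux n N v k' 2) ?_ (hA _ h3) (hA _ b2) (hA _ h4)
      (G.symm _ _ (hA _ c0)) (hA _ b0) (hA _ h5) (G.symm _ _ (hA _ c2))
      (by positivity) (by rw [div_lt_iff₀ (by positivity)]; nlinarith) e1 e2.symm e3.symm e4
    simp only [List.nodup_cons, List.mem_cons, List.not_mem_nil, or_false, not_or,
      not_false_eq_true, List.nodup_nil, and_true]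
    have := l u k 0
    have := l u k 2
    have := l v k' 0
    have := l v k' 2
    exact ⟨⟨a4, by omega, by omega, by omega, by omega⟩, ⟨by omega, by omega, by omega, by omega⟩,
      ⟨ne a2 (by omega) a5 (by omega) (by omega), ne a2 (by omega) a2 (by omega) (by omega),
        ne a2 (by omega) a5 (by omega) (by omega)⟩,
      ⟨ne a5 (by omega) a2 (by omega) (by omega), ne a5 (by omega) a5 (by omega) (by omega)⟩,
      ne a2 (by omega) a5 (by omega) (by omega)⟩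
  have sub : ∀ (s : Edge → Bool), ∀ a ∈ halves (E.filter s), a ∈ halves E ∧
      ∃ e ∈ E, s e = true ∧ (a.1 = e.1 ∨ a.1 = e.2.2.1) := fun s a ha => by
    obtain ⟨e, he, h1⟩ := mem_halves'.1 ha
    rw [List.mem_filter] at he
    exact ⟨mem_halves'.2 ⟨e, he.1, h1⟩, e, he.1, he.2, h1.imp (fun h => by rw [h]) fun h => by rw [h]⟩
  have hs : ∀ e ∈ E, S e.1 ↔ S e.2.2.1 := fun e he =>
    ⟨same _ _ _ (mem_halves'.2 ⟨e, he, Or.inl rfl⟩), same _ _ _ (mem_halves'.2 ⟨e, he, Or.inr rfl⟩)⟩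
  refine core_of_signs (fun u => decide (S u)) (fun e he => by simp only [hs e he])
    (core_of_geo G (f := fun u => d u (xg n N E u 0) * rt (4 * N) 1) fun a ha => ?_)
    (core_of_geo G.conj (f := fun u => (starRingEnd ℂ) (d u (xg n N E u 0)) * rt (4 * N) 1)
      fun a ha => ?_)
  · obtain ⟨h1, e, he, h2, h3⟩ := sub _ a ha
    obtain ⟨k', -, h4, -⟩ := pn_gad_old (n := n) (N := N) (u := a.1) (k := a.2.1) (v := a.2.2) h1
    have h5 : S a.1 := by
      have h6 : S e.1 := of_decide_eq_true h2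
      rcases h3 with h3 | h3 <;> rw [h3]
      · exact h6
      · exact (hs e he).1 h6
    refine ⟨hA (a.1, 4 * a.2.1 + 1, a.2.2) h4, ?_⟩
    have := h5 (4 * a.2.1 + 1)
    rwa [xg_eq h hN h4, pn_rt_four, ← mul_assoc] at this
  · obtain ⟨h1, e, he, h2, h3⟩ := sub _ a ha
    obtain ⟨k', -, h4, -⟩ := pn_gad_old (n := n) (N := N) (u := a.1) (k := a.2.1) (v := a.2.2) h1
    have h5 : ¬ S a.1 := by
      have h6 : ¬ S e.1 := by simpa using h2
      rcases h3 with h3 | h3 <;> rw [h3]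
      · exact h6
      · exact fun h7 => h6 ((hs e he).2 h7)
    refine ⟨hA (a.1, 4 * a.2.1 + 1, a.2.2) h4, ?_⟩
    have := (sg a.1 (h.bd a h1).1).resolve_left h5 (4 * a.2.1 + 1)
    rw [xg_eq h hN h4] at this
    rw [mul_assoc, ← pn_rt_four, ← this, map_mul, mul_assoc, pn_conj_rt, mul_one]

end Pool.Agent.Lib.MP_242159_lc
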