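import Pool.Agent.Lib.MP_242159_lc.Hex

/-!
Rational enclosures of the cosines and sines of multiples of five degrees.
-/

set_option autoImplicit false

namespace Pool.Agent.Lib.MP_242159_lc

open Complex

/-- Approximations of `10 ^ 9 cos (5 k)`. -/
def tabC : List ℤ :=
  [1000000000, 996194698, 984807753, 965925826, 939692621, 906307787, 866025404, 819152044,
    766044443, 707106781, 642787610, 573576436, 500000000, 422618262, 342020143, 258819045,
    173648178, 87155743, 0, -87155743, -173648178, -258819045, -342020143, -422618262,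
    -500000000, -573576436, -642787610, -707106781, -766044443, -819152044, -866025404,
    -906307787, -939692621, -965925826, -984807753, -996194698, -1000000000, -996194698,
    -984807753, -965925826, -939692621, -906307787, -866025404, -819152044, -766044443,
    -707106781, -642787610, -573576436, -500000000, -422618262, -342020143, -258819045,
    -173648178, -87155743, 0, 87155743, 173648178, 258819045, 342020143, 422618262, 500000000,
    573576436, 642787610, 707106781, 766044443, 819152044, 866025404, 906307787, 939692621,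
    965925826, 984807753, 996194698]

/-- Approximations of `10 ^ 9 √3 sin (5 k)`. -/
def tabS : List ℤ :=
  [0, 150958175, 300767466, 448287736, 592396265, 731996302, 866025404, 993463530, 1113340798,
    1224744871, 1326827896, 1418812960, 1500000000, 1569771134, 1627595363, 1673032607,
    1705737064, 1725459831, 1732050808, 1725459831, 1705737064, 1673032607, 1627595363,
    1569771134, 1500000000, 1418812960, 1326827896, 1224744871, 1113340798, 993463530,
    866025404, 731996302, 592396265, 448287736, 300767466, 150958175, 0, -150958175, -300767466,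
    -448287736, -592396265, -731996302, -866025404, -993463530, -1113340798, -1224744871,
    -1326827896, -1418812960, -1500000000, -1569771134, -1627595363, -1673032607, -1705737064,
    -1725459831, -1732050808, -1725459831, -1705737064, -1673032607, -1627595363, -1569771134,
    -1500000000, -1418812960, -1326827896, -1224744871, -1113340798, -993463530, -866025404,
    -731996302, -592396265, -448287736, -300767466, -150958175]

/-- Powers of a Gaussian integer. -/
def gp : ℕ → ℤ × ℤ
  | 0 => (1, 0)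
  | n + 1 => ((gp n).1 * 999985126139 - (gp n).2 * 5454126871,
      (gp n).1 * 5454126871 + (gp n).2 * 999985126139)

/-- One step of sixteen multiplications. -/
def gstep (x : ℤ × ℤ) : ℤ × ℤ :=
  (x.1 * (gp 16).1 - x.2 * (gp 16).2, x.1 * (gp 16).2 + x.2 * (gp 16).1)

/-- The check of the two tables. -/
def tabOK : List ℤ → List ℤ → ℤ × ℤ → ℤ → Bool
  | c :: cs, s :: ss, x, D =>
    decide (|1000000000 * x.1 - c * D| ≤ 10 * D) &&
    decide (|173205080757 * x.2 - 100 * s * D| ≤ 1000 * D) && decide (|x.2| ≤ 2 * D) &&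
    tabOK cs ss (gstep x) (D * 10 ^ 192)
  | _, _, _, _ => true

theorem tab_ok : tabOK tabC tabS (1, 0) 1 = true := by decide +kernel

/-- The complex value of a Gaussian integer. -/
def gv (x : ℤ × ℤ) : ℂ := ⟨x.1, x.2⟩

theorem gv_gp (n : ℕ) : gv (gp n) = gv (999985126139, 5454126871) ^ n := by
  induction n with
  | zero => apply Complex.ext <;> simp [gv, gp]
  | succ n ih => rw [pow_succ, ← ih]; apply Complex.ext <;> simp [gv, gp]

theorem gv_gstep (x : ℤ × ℤ) : gv (gstep x) = gv x * gv (gp 16) := by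
  apply Complex.ext <;> simp [gv, gstep]

theorem pow_close {z a : ℂ} {e : ℝ} (hz : ‖z‖ = 1) (h : ‖z - a‖ ≤ e) (n : ℕ)
    (hn : 2 * n * e ≤ 1) : ‖z ^ n - a ^ n‖ ≤ 2 * n * e := by
  have he : 0 ≤ e := (norm_nonneg _).trans h
  induction n with
  | zero => simp
  | succ n ih =>
    push_cast at hn ⊢
    have h1 := ih (by nlinarith)
    have h2 : ‖a ^ n‖ ≤ 2 := by
      have := norm_sub_norm_le (a ^ n) (z ^ n)
      rw [norm_sub_rev, norm_pow z, hz, one_pow] at this
      nlinarith
    have h3 : z ^ (n + 1) - a ^ (n + 1) = z * (z ^ n - a ^ n) + (z - a) * a ^ n := by ring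
    rw [h3]
    refine (norm_add_le _ _).trans ?_
    rw [norm_mul, norm_mul, hz, one_mul]
    have := mul_le_mul h h2 (norm_nonneg _) he
    linarith

theorem base_close : ‖rt 1152 1 - gv (999985126139, 5454126871) / 10 ^ 12‖ ≤ 1 / 10 ^ 10 := by
  have h1 := Real.pi_gt_d20
  have h2 := Real.pi_lt_d20
  set x : ℝ := 2 * Real.pi * (1 : ℕ) / (1152 : ℕ) with hx
  have a1 : 0.0054541539124 < x := by rw [hx]; push_cast; linarith
  have a2 : x < 0.0054541539125 := by rw [hx]; push_cast; linarith
  have a3 : |x| = x := abs_of_pos (by linarith)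
  have c1 := Real.cos_bound (x := x) (by rw [a3]; linarith)
  have c2 := Real.sin_bound (x := x) (by rw [a3]; linarith)
  rw [a3, abs_le] at c1 c2
  have b2 : 0.0054541539124 ^ 2 < x ^ 2 := pow_lt_pow_left₀ a1 (by norm_num) (by norm_num)
  have b2' : x ^ 2 < 0.0054541539125 ^ 2 := pow_lt_pow_left₀ a2 (by linarith) (by norm_num)
  have b3 : 0.0054541539124 ^ 3 < x ^ 3 := pow_lt_pow_left₀ a1 (by norm_num) (by norm_num)
  have b3' : x ^ 3 < 0.0054541539125 ^ 3 := pow_lt_pow_left₀ a2 (by linarith) (by norm_num)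
  have b4 : x ^ 4 < 0.0054541539125 ^ 4 := pow_lt_pow_left₀ a2 (by linarith) (by norm_num)
  have b5 : x ^ 5 < 0.0054541539125 ^ 5 := pow_lt_pow_left₀ a2 (by linarith) (by norm_num)
  have e : gv (999985126139, 5454126871) / 10 ^ 12 =
      (⟨999985126139 / 10 ^ 12, 5454126871 / 10 ^ 12⟩ : ℂ) := by
    rw [div_eq_iff (by norm_num)]
    apply Complex.ext <;> norm_num [gv]
  refine (norm_le_abs_re_add_abs_im _).trans ?_
  rw [rt_eq, e, ← hx]
  simp only [sub_re, sub_im]
  have d1 : |Real.cos x - 999985126139 / 10 ^ 12| ≤ 9 / 10 ^ 11 := by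
    rw [abs_le]; constructor <;> norm_num at * <;> linarith
  have d2 : |Real.sin x - 5454126871 / 10 ^ 12| ≤ 1 / 10 ^ 11 := by
    rw [abs_le]; constructor <;> norm_num at * <;> linarith
  linarith

theorem om_close {k : ℕ} (hk : k < 72) :
    ‖om k - gv (gp 16) ^ k / (10 ^ 192) ^ k‖ ≤ 3 / 10 ^ 7 := by
  have h0 : ‖rt 1152 1‖ = 1 := by
    rw [Complex.norm_def, rt_normSq]; simp
  have hk' : (k : ℝ) ≤ 72 := by exact_mod_cast hk.le
  have h := pow_close h0 base_close (16 * k) (by push_cast; linarith)
  have e1 : rt 1152 1 ^ (16 * k) = om k := by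
    rw [← rt_mul (K := 16) (by norm_num), rt, rt, ← exp_nat_mul]
    congr 1; push_cast; ring
  rw [e1, div_pow, pow_mul, ← gv_gp, pow_mul, ← pow_mul (10 : ℂ) 12 16] at h
  refine h.trans ?_
  push_cast; linarith

theorem tab_aux : ∀ (cs ss : List ℤ) (x : ℤ × ℤ) (D : ℤ) (n : ℕ), tabOK cs ss x D = true →
    gv x = gv (gp 16) ^ n → D = (10 ^ 192) ^ n → ∀ j < cs.length, j < ss.length → n + j < 72 →
      |10 ^ 9 * (om (n + j)).re - cs.getD j 0| ≤ 1000 ∧
      |10 ^ 9 * (√3 * (om (n + j)).im) - ss.getD j 0| ≤ 1000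
  | [], _, _, _, _, _, _, _, j, h, _, _ => by simp at h
  | _ :: _, [], _, _, _, _, _, _, j, _, h, _ => by simp at h
  | c :: cs, s :: ss, x, D, n, h, hx, hD, j, h1, h2, h3 => by
    simp only [tabOK, Bool.and_eq_true, decide_eq_true_eq] at h
    obtain ⟨⟨⟨t1, t2⟩, t3⟩, t4⟩ := h
    cases j with
    | succ j =>
      have := tab_aux cs ss _ _ (n + 1) t4 (by rw [gv_gstep, hx, pow_succ])
        (by rw [hD]; exact (pow_succ _ n).symm) j (by simpa using h1) (by simpa using h2) (by omega)
      rw [show n + 1 + j = n + (j + 1) by ring] at this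
      simpa using this
    | zero =>
      have hc := om_close (k := n) (by omega)
      have hD' : ((10 : ℂ) ^ 192) ^ n = ((D : ℝ) : ℂ) := by
        rw [hD, Int.cast_pow, Int.cast_pow, ofReal_pow, ofReal_pow]; simp only [Int.cast_ofNat, ofReal_ofNat]
      have hp : (0 : ℝ) < D := by rw [hD]; positivity
      rw [← hx, hD'] at hc
      have r1 := (abs_re_le_norm _).trans hc
      have r2 := (abs_im_le_norm _).trans hc
      simp only [sub_re, sub_im, div_ofReal_re, div_ofReal_im, gv] at r1 r2
      have u1 : |(1000000000 * x.1 - c * D : ℝ)| ≤ 10 * D := by exact_mod_cast t1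
      have u2 : |(173205080757 * x.2 - 100 * s * D : ℝ)| ≤ 1000 * D := by exact_mod_cast t2
      have u3 : |(x.2 : ℝ)| ≤ 2 * D := by exact_mod_cast t3
      obtain ⟨X, hX⟩ : ∃ X : ℝ, x.1 = X * D := ⟨x.1 / D, by field_simp⟩
      obtain ⟨Y, hY⟩ : ∃ Y : ℝ, x.2 = Y * D := ⟨x.2 / D, by field_simp⟩
      rw [hX, mul_div_cancel_right₀ _ hp.ne'] at r1
      rw [hY, mul_div_cancel_right₀ _ hp.ne'] at r2
      rw [hX, ← mul_assoc, ← sub_mul, abs_mul, abs_of_pos hp] at u1
      rw [hY, ← mul_assoc, ← sub_mul, abs_mul, abs_of_pos hp] at u2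
      rw [hY, abs_mul, abs_of_pos hp] at u3
      have v1 := le_of_mul_le_mul_right u1 hp
      have v2 := le_of_mul_le_mul_right u2 hp
      have v3 := le_of_mul_le_mul_right u3 hp
      have w1 : (1.73205080756 : ℝ) < √3 := Real.lt_sqrt_of_sq_lt (by norm_num)
      have w2 : √3 < (1.73205080757 : ℝ) := (Real.sqrt_lt' (by norm_num)).2 (by norm_num)
      simp only [add_zero, List.getD_cons_zero]
      rw [abs_le] at r1 r2 v1 v2 v3
      have z1 : |√3 * ((om n).im - Y)| ≤ 2 * (3 / 10 ^ 7) := by
        rw [abs_mul]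
        exact mul_le_mul (by rw [abs_of_pos s3_pos]; linarith) (abs_le.2 r2) (abs_nonneg _)
          (by norm_num)
      have z2 : |(√3 - 1.73205080757) * Y| ≤ 1 / 10 ^ 11 * 2 := by
        rw [abs_mul]
        exact mul_le_mul (abs_le.2 ⟨by linarith, by linarith⟩) (abs_le.2 v3) (abs_nonneg _)
          (by norm_num)
      rw [abs_le] at z1 z2
      rw [abs_le, abs_le]
      refine ⟨⟨?_, ?_⟩, ?_, ?_⟩ <;> linarith [r1.1, r1.2, v1.1, v1.2, z1.1, z1.2, z2.1, z2.2]

theorem tab_bound {k : ℕ} (hk : k < 72) :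
    |10 ^ 9 * (om k).re - tabC.getD k 0| ≤ 1000 ∧
      |10 ^ 9 * (√3 * (om k).im) - tabS.getD k 0| ≤ 1000 := by
  have := tab_aux _ _ _ _ 0 tab_ok (by apply Complex.ext <;> simp [gv]) (by simp) k
    (by simpa [tabC] using hk) (by simpa [tabS] using hk) (by simpa using hk)
  simpa using this

end Pool.Agent.Lib.MP_242159_lc
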