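import Pool.Agent.Lib.MP_242159_lc.Data

/-!
The tiles are drawn without crossings for all small parameter values.
-/

set_option autoImplicit false

namespace Pool.Agent.Lib.MP_242159_lc

open Complex Filter Topology

/-- The point with a given code in a tile. -/
def pt (g c : ℕ) : Pt := ((verts g).lookup c).getD p0

/-- The cell of an inner vertex. -/
def cellV (g c : ℕ) : Cell := ⟨true, c, c, pt g c, pt g c, 0, 0, 1, 1, 0⟩

/-- The cell of an inner edge. -/
def cellE (g : ℕ) (e : Edge) : Cell :=
  ⟨false, e.1, e.2.2.1, pt g e.1, pt g e.2.2.1, e.2.2.2, 0, 1, 1, 0⟩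

/-- The inner cells of a tile. -/
def cells (g : ℕ) : List Cell :=
  ((List.range (nint g)).map fun k => cellV g (12 + k)) ++ (inE g).map (cellE g)

/-- An open rectangle given by four points. -/
def box (g a b c d : ℕ) : List Form :=
  [⟨pt g a, 0, 1, 0, 0⟩, ⟨pt g b, 0, -1, 0, 0⟩, ⟨pt g c, 0, 0, 1, 0⟩, ⟨pt g d, 0, 0, -1, 0⟩]

/-- The convex pieces of the region of a tile. -/
def boxes (g : ℕ) : List (List Form) :=
  if g < 4 then [box g 0 6 0 120, box g 40 46 40 160, box g 0 46 6 160]
  else if g < 9 then [box g 0 6 0 120]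
  else [[⟨pt g 0, 0, 1, 0, 0⟩, ⟨pt g 6, 0, -1, 0, 0⟩, ⟨pt g 0, 0, 0, 1, 0⟩, ⟨pt g 2, 0, -1, -3, 0⟩]]

/-- The chord direction of an edge between straight vertices. -/
def chord (e : Edge) : ℕ := (e.2.1 + e.2.2.2 + 36) / 2 % 36

/-- The direction numbers of the edge belong to a chord direction. -/
def chOK (e : Edge) : Bool :=
  decide (chord e % 6 = 0) && decide ((e.2.1 + e.2.2.2) % 2 = 0)

/-- The edge is an arc with the right chord. -/
def edgeOK (g : ℕ) (e : Edge) : Bool :=
  decide (e.2.2.2 < 72) &&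
  decide (0 < lowB ((pt g e.1).1.1 - (pt g e.2.2.1).1.1) ((pt g e.1).2.1 - (pt g e.2.2.1).2.1)
    e.2.2.2) &&
  ((decide (g = 3) && decide (e.1 = 30)) ||
    (chOK e && linZ (dvec (chord e)).2 (-(dvec (chord e)).1) (pt g e.2.2.1) (pt g e.1)))

/-- All checks for a tile. -/
def tileOK (g : ℕ) : Bool :=
  check (tree g) (cells g) && ((cells g).all fun c => (boxes g).any fun b => b.all fun F => Pc F c)
    && (inE g).all (edgeOK g)

theorem tile0 : tileOK 0 = true := by decide +kernel
theorem tile1 : tileOK 1 = true := by decide +kernel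
theorem tile2 : tileOK 2 = true := by decide +kernel
theorem tile3 : tileOK 3 = true := by decide +kernel
theorem tile4 : (List.range 9).all (fun g => tileOK (4 + g)) = true := by decide +kernel

end Pool.Agent.Lib.MP_242159_lc
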