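import Pool.Agent.Lib.MP_242159_lc.Tile
import Pool.Agent.Lib.MP_242159_lc.NoA

/-!
Local facts on the drawing of a tile.
-/

set_option autoImplicit false

namespace Pool.Agent.Lib.MP_242159_lc

open Complex Filter Topology

/-- The depth of the hub of the wheel. -/
noncomputable def kk (d : ℝ) : ℝ := (15 / 4 + 3 * d) * (3 / 4 - d) / ((9 / 4 + d) ^ 2 + 3)

/-- The parameters of a tile with inputs `p`, `q` and output `r`. -/
noncomputable def par (p q r : ℝ) : Par :=
  (p, q, r - q, 15 / 4 + 3 * (p - q) + kk (p - q) * (9 / 4 + (p - q)) - 195 / 43,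
    q + 15 / 43 - kk (p - q))

/-- The frame of a vertex of a tile. -/
noncomputable def fr (g : ℕ) (π : Par) (x : ℕ) : ℂ :=
  if g = 3 ∧ x = 30 then -((pos (pt 3 19) π - pos (pt 3 30) π) ^ 2 * om 52) else 1

/-- The local facts. -/
structure Loc (g : ℕ) (π : Par) : Prop where
  sep : ∀ c ∈ cells g, ∀ e ∈ cells g, ∀ z, Mem c π z → Mem e π z → c.cu = e.cu ∧ c.cv = e.cv
  box : ∀ c ∈ cells g, ∀ z, Mem c π z → ∃ b ∈ boxes g, ∀ F ∈ b, 0 < Qr F π z.re (cy z)
  wx : ∀ e ∈ inE g, 0 < Wx (pt g e.1) (pt g e.2.2.1) e.2.2.2 π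
  near : ∀ x < 80, |af (pt g x).2 π - (pt g x).2.1| < 100

theorem tile_ok {g : ℕ} (hg : g < 13) : tileOK g = true := by
  have h := tile4
  rw [List.all_eq_true] at h
  rcases (by omega : g = 0 ∨ g = 1 ∨ g = 2 ∨ g = 3 ∨ 4 ≤ g) with rfl | rfl | rfl | rfl | h4
  · exact tile0
  · exact tile1
  · exact tile2
  · exact tile3
  · have := h (g - 4) (List.mem_range.2 (by omega))
    rwa [Nat.add_sub_cancel' h4] at this

theorem loc_ev' {g : ℕ} (hg : g < 13) : ∀ᶠ π in 𝓝 (0 : Par), Loc g π := by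
  have h := tile_ok hg
  simp only [tileOK, Bool.and_eq_true, List.all_eq_true, List.any_eq_true] at h
  obtain ⟨⟨h1, h2⟩, h3⟩ := h
  have a2 := ev_list (p := fun c π => ∀ z, Mem c π z → ∃ b ∈ boxes g, ∀ F ∈ b,
      0 < Qr F π z.re (cy z)) (cells g) fun c hc => by
    obtain ⟨b, hb, h⟩ := h2 c hc
    exact (ev_list (p := fun F π => ∀ z, Mem c π z → 0 < Qr F π z.re (cy z)) b
      fun F hF => Pc_sound (h F hF)).mono fun π h z hz => ⟨b, hb, fun F hF => h F hF z hz⟩
  have a3 := ev_list (p := fun (e : Edge) π => 0 < Wx (pt g e.1) (pt g e.2.2.1) e.2.2.2 π) (inE g)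
    fun e he => by
      have h := h3 e he
      simp only [edgeOK, Bool.and_eq_true, decide_eq_true_eq] at h
      refine ev_pos (by unfold Wx; fun_prop) ?_
      have k1 := lowB_le ((pt g e.1).1.1 - (pt g e.2.2.1).1.1)
        ((pt g e.1).2.1 - (pt g e.2.2.1).2.1) h.1.1
      have k2 := (Int.cast_pos (R := ℝ)).2 h.1.2
      simp only [Wx, af_zero]
      push_cast at k1
      linarith
  have a4 := ev_list (p := fun x π => 0 < 100 - |af (pt g x).2 π - (pt g x).2.1|) (List.range 80)
    fun x _ => ev_pos (by fun_prop) (by simp)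
  filter_upwards [check_sound _ _ h1, a2, a3, a4] with π p1 p2 p3 p4
  exact ⟨p1, p2, p3, fun x hx => sub_pos.1 (p4 x (List.mem_range.2 hx))⟩

theorem loc_ev : ∃ ε : ℝ, 0 < ε ∧ ∀ g < 13, ∀ p q r : ℝ, |p| < ε → |q| < ε → |r| < ε →
    Loc g (par p q r) := by
  have h := ev_list (List.range 13) fun g hg => loc_ev' (List.mem_range.1 hg)
  have c : Continuous fun t : ℝ × ℝ × ℝ => par t.1 t.2.1 t.2.2 := by
    have : Continuous kk := by
      unfold kk
      exact Continuous.div (by fun_prop) (by fun_prop) fun d => by positivity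
    unfold par
    fun_prop
  have c0 : par 0 0 0 = 0 := by
    simp only [par, kk]
    norm_num
  obtain ⟨ε, hε, h⟩ := Metric.eventually_nhds_iff.1 ((c.tendsto' 0 0 c0).eventually h)
  refine ⟨ε, hε, fun g hg p q r hp hq hr => h (y := (p, q, r)) ?_ g (List.mem_range.2 hg)⟩
  simp [hp, hq, hr]

theorem om24 : om 24 = hex (-1 / 2) (1 / 2) := by
  rw [show 24 = 12 + 12 from rfl, om_add, om12, hex_mul]; norm_num

theorem wheel_ok {p q r : ℝ} (hd : |p - q| < 1 / 2) (hg : Gate 3 p q r) {e : Edge} (he : e ∈ inE 3)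
    (h30 : e.1 = 30) : ∃ ρ : ℝ, 0 < ρ ∧ fr 3 (par p q r) 30 * om e.2.1 * om e.2.2.2 =
      -(ρ * (pos (pt 3 e.2.2.1) (par p q r) - pos (pt 3 30) (par p q r)) ^ 2) := by
  have h : ∀ e ∈ inE 3, e.1 = 30 → e = (30, 39, 3, 65) ∨ e = (30, 28, 19, 64) ∨
    e = (30, 10, 18, 46) ∨ e = (30, 15, 50, 29) := by decide
  have g3 : (r - q) * (9 + 4 * (p - q)) = 16 * (p - q) := by simpa [Gate] using hg
  obtain ⟨d, rfl⟩ : ∃ d, p = q + d := ⟨p - q, by ring⟩
  obtain ⟨x, rfl⟩ : ∃ x, r = q + x := ⟨r - q, by ring⟩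
  simp only [add_sub_cancel_left] at hd g3
  rw [abs_lt] at hd
  have hk : kk d * ((9 / 4 + d) ^ 2 + 3) = (15 / 4 + 3 * d) * (3 / 4 - d) := by
    unfold kk; field_simp
  have e0 : fr 3 (par (q + d) q (q + x)) 30 = -(hex (-1032 * kk d * (9 / 4 + d)) (1032 * kk d) ^ 2
      * om 52) := by
    rw [fr, if_pos ⟨rfl, rfl⟩, show pt 3 19 = p89 from rfl, show pt 3 30 = p98 from rfl, pos, pos,
      hex_sub]
    simp only [af, par, p89, p98, add_sub_cancel_left]
    push_cast
    ring_nf
  rw [e0, neg_mul, neg_mul, mul_assoc, mul_assoc, ← om_add, ← om_add]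
  rcases h e he h30 with rfl | rfl | rfl | rfl
  · refine ⟨(3 / 4 - d) ^ 2 / 12, by have : 0 < 3 / 4 - d := by linarith
                                     positivity, ?_⟩
    have : ((3 / 4 - d : ℝ) : ℂ) * (pos (pt 3 3) (par (q + d) q (q + x)) -
        pos (pt 3 30) (par (q + d) q (q + x))) =
        hex (-1032 * kk d * (9 / 4 + d)) (1032 * kk d) * hex 3 1 := by
      rw [show pt 3 3 = p78 from rfl, show pt 3 30 = p98 from rfl, pos, pos, hex_sub, hex_smul,
        hex_mul, hex_inj]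
      simp only [af, par, p78, p98, add_sub_cancel_left]
      push_cast
      constructor
      · linear_combination 1032 * hk
      · ring
    have o : 12 * om (52 + (39 + 65)) = hex 3 1 ^ 2 := by
      rw [om_congr (l := 12) (by decide), om12, sq, hex_mul, show (12 : ℂ) = (12 : ℝ) by simp,
        hex_smul]; norm_num
    push_cast at this ⊢
    linear_combination (exp := 1) (1 / 12) * ((3 / 4 - d) * (pos (pt 3 3) (par (q + d) q (q + x)) -
      pos (pt 3 30) (par (q + d) q (q + x))) +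
      hex (-1032 * kk d * (9 / 4 + d)) (1032 * kk d) * hex 3 1) * this -
      (1 / 12) * hex (-1032 * kk d * (9 / 4 + d)) (1032 * kk d) ^ 2 * o
  · refine ⟨1, one_pos, ?_⟩
    have : pos (pt 3 19) (par (q + d) q (q + x)) - pos (pt 3 30) (par (q + d) q (q + x)) =
        hex (-1032 * kk d * (9 / 4 + d)) (1032 * kk d) := by
      rw [show pt 3 19 = p89 from rfl, show pt 3 30 = p98 from rfl, pos, pos, hex_sub, hex_inj]
      simp only [af, par, p89, p98, add_sub_cancel_left]
      push_cast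
      constructor <;> ring
    rw [this, show 52 + (28 + 64) = 72 * 2 from rfl, om_mul72]
    simp
  · refine ⟨(9 / 4 + d) ^ 2 / 3, by have : 0 < 9 / 4 + d := by linarith
                                    positivity, ?_⟩
    have : ((9 / 4 + d : ℝ) : ℂ) * (pos (pt 3 18) (par (q + d) q (q + x)) -
        pos (pt 3 30) (par (q + d) q (q + x))) =
        hex (-1032 * kk d * (9 / 4 + d)) (1032 * kk d) * hex 0 (-1) := by
      rw [show pt 3 18 = p88 from rfl, show pt 3 30 = p98 from rfl, pos, pos, hex_sub, hex_smul,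
        hex_mul, hex_inj]
      simp only [af, par, p88, p98, add_sub_cancel_left]
      push_cast
      constructor
      · linear_combination 258 * g3 - 1032 * hk
      · ring
    have o : 3 * om (52 + (10 + 46)) = hex 0 (-1) ^ 2 := by
      rw [om_congr (l := 36) (by decide), om36, sq, hex_mul]
      apply Complex.ext <;> norm_num
    push_cast at this ⊢
    linear_combination (exp := 1) (1 / 3) * ((9 / 4 + d) * (pos (pt 3 18) (par (q + d) q (q + x)) -
      pos (pt 3 30) (par (q + d) q (q + x))) +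
      hex (-1032 * kk d * (9 / 4 + d)) (1032 * kk d) * hex 0 (-1)) * this -
      (1 / 3) * hex (-1032 * kk d * (9 / 4 + d)) (1032 * kk d) ^ 2 * o
  · refine ⟨(5 / 4 + d) ^ 2 / 4, by have : 0 < 5 / 4 + d := by linarith
                                    positivity, ?_⟩
    have : ((5 / 4 + d : ℝ) : ℂ) * (pos (pt 3 50) (par (q + d) q (q + x)) -
        pos (pt 3 30) (par (q + d) q (q + x))) =
        hex (-1032 * kk d * (9 / 4 + d)) (1032 * kk d) * hex (-1) (-1) := by
      rw [show pt 3 50 = p54 from rfl, show pt 3 30 = p98 from rfl, pos, pos, hex_sub, hex_smul,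
        hex_mul, hex_inj]
      simp only [af, par, p54, p98, add_sub_cancel_left]
      push_cast
      constructor
      · linear_combination -1032 * hk
      · ring
    have o : 4 * om (52 + (15 + 29)) = hex (-1) (-1) ^ 2 := by
      rw [om_congr (l := 24) (by decide), om24, sq, hex_mul, show (4 : ℂ) = (4 : ℝ) by simp,
        hex_smul]; norm_num
    push_cast at this ⊢
    linear_combination (exp := 1) (1 / 4) * ((5 / 4 + d) * (pos (pt 3 50) (par (q + d) q (q + x)) -
      pos (pt 3 30) (par (q + d) q (q + x))) +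
      hex (-1032 * kk d * (9 / 4 + d)) (1032 * kk d) * hex (-1) (-1)) * this -
      (1 / 4) * hex (-1032 * kk d * (9 / 4 + d)) (1032 * kk d) ^ 2 * o

theorem arc_of_pr {a b T : ℂ} {d : ℕ} {ρ : ℝ} (hρ : 0 < ρ) (h : T * om d = -(ρ * (b - a) ^ 2))
    (hW : 0 < ((a - b) * (starRingEnd ℂ) (om d)).re) : EOK a b T (1 * om d) ∧
      ∀ z, OnArc a b (T / (b - a)) z → OnArc a b ((a - b) * (starRingEnd ℂ) (om d)) z := by
  have h0 : b - a ≠ 0 := by
    intro h0
    rw [show a - b = 0 by linear_combination -h0] at hW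
    simp at hW
  have k : om d * (starRingEnd ℂ) (om d) = 1 := rt_conj _ _
  have e : T / (b - a) = ρ * ((a - b) * (starRingEnd ℂ) (om d)) := by
    rw [div_eq_iff h0]
    linear_combination (starRingEnd ℂ) (om d) * h - T * k
  rw [EOK, e]
  exact ⟨⟨slit_smul hρ (Or.inl hW), ρ, hρ, by linear_combination ρ * (a - b) * k⟩,
    fun z => (onArc_smul hρ).1⟩

theorem fr_snd : ∀ g < 13, ∀ e ∈ inE g, e.2.2.1 ≠ 30 := by decide +kernel

theorem edge_ok {g : ℕ} (hg : g < 13) {p q r : ℝ} (L : Loc g (par p q r))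
    (h3 : g = 3 → |p - q| < 1 / 2 ∧ Gate 3 p q r) {e : Edge} (he : e ∈ inE g) (A : ℂ) :
    EOK (A + pos (pt g e.1) (par p q r)) (A + pos (pt g e.2.2.1) (par p q r))
      (fr g (par p q r) e.1 * om e.2.1) (1 * om e.2.2.2) ∧
    ∀ z, OnArc (A + pos (pt g e.1) (par p q r)) (A + pos (pt g e.2.2.1) (par p q r))
      (fr g (par p q r) e.1 * om e.2.1 /
        (A + pos (pt g e.2.2.1) (par p q r) - (A + pos (pt g e.1) (par p q r)))) z →
      Mem (cellE g e) (par p q r) (z - A) := by
  have w := L.wx e he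
  have h := tile_ok hg
  simp only [tileOK, Bool.and_eq_true, List.all_eq_true] at h
  have h := h.2 e he
  simp only [edgeOK, chOK, Bool.and_eq_true, Bool.or_eq_true, decide_eq_true_eq] at h
  have w' : 0 < (Wc (pt g e.1) (pt g e.2.2.1) e.2.2.2 (par p q r)).re := by rwa [Wc_eq]
  obtain ⟨ρ, hρ, k⟩ : ∃ ρ : ℝ, 0 < ρ ∧ fr g (par p q r) e.1 * om e.2.1 * om e.2.2.2 =
      -(ρ * (pos (pt g e.2.2.1) (par p q r) - pos (pt g e.1) (par p q r)) ^ 2) := by
    by_cases h30 : g = 3 ∧ e.1 = 30
    · obtain ⟨rfl, h30⟩ := h30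
      rw [h30]
      exact wheel_ok (h3 rfl).1 (h3 rfl).2 he h30
    · obtain ⟨⟨c1, c2⟩, c3⟩ := h.2.resolve_left h30
      have c4 := linZ_sound c3 (par p q r)
      obtain ⟨s, hs, -⟩ := par_of_lin c1
        (x := af (pt g e.2.2.1).1 (par p q r) - af (pt g e.1).1 (par p q r))
        (y := af (pt g e.2.2.1).2 (par p q r) - af (pt g e.1).2 (par p q r))
        (by push_cast at c4; linarith)
      rw [← hex_sub] at hs
      have s0 : s ≠ 0 := by
        rintro rfl
        rw [ofReal_zero] at hs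
        rw [Wc, show pos (pt g e.1) (par p q r) - pos (pt g e.2.2.1) (par p q r) = 0 by
          simp only [pos]; linear_combination -hs] at w'
        simp at w'
      have s1 : (s : ℂ) ≠ 0 := by exact_mod_cast s0
      refine ⟨(s ^ 2)⁻¹, by positivity, ?_⟩
      rw [fr, if_neg h30, one_mul, om_sum (d := chord e) (by unfold chord; omega), pos, pos, hs]
      push_cast
      field_simp
  have := arc_of_pr (a := A + pos (pt g e.1) (par p q r))
    (b := A + pos (pt g e.2.2.1) (par p q r)) hρ (by rw [k]; ring)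
    (by rwa [add_sub_add_left_eq_sub])
  refine ⟨this.1, fun z hz => ?_⟩
  obtain ⟨l, hl, h⟩ := this.2 z hz
  refine Or.inr ⟨rfl, l, hl, by simpa [cellE] using hl.le, by simp [cellE], ?_⟩
  simp only [cellE, Wc]
  linear_combination h

end Pool.Agent.Lib.MP_242159_lc
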