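import Pool.Agent.Lib.MP_242159_lc.YesI

/-!
A labelled stratification of the plane.
-/

set_option autoImplicit false

namespace Pool.Agent.Lib.MP_242159_lc

open Complex

/-- The vertex number `n` on the rail to the right of the well `i`. -/
def rv (m J i n : ℕ) : ℕ :=
  if n = 12 * J + 3 then nm m J (i + 1) 2
  else if n % 2 = 0 then nm m (n / 12) (i + 1) (n % 12 / 2) else nm m (n / 12) i (6 + n % 12 / 2)

/-- The levels in the well `i` above the abscissa `x`. -/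
noncomputable def WG (J : ℕ) (hh : ℕ → ℕ → ℝ) (i : ℕ) (x : ℝ) (n : ℕ) : ℝ :=
  if n ≤ J then hh n i else 1032 * (12 * J + 5) - x / 3

/-- The levels on a rail. -/
noncomputable def RG (m J : ℕ) (P : ℕ → ℂ) (i n : ℕ) : ℝ := cy (P (rv m J i n))

/-- The labels of the strata in a well. -/
noncomputable def ownW (m J : ℕ) (T : ℕ → ℕ → ℕ) (i b : ℕ) (x : ℝ) : Sym2 ℕ ⊕ ℕ × ℕ :=
  if b = 0 then .inr (J + 1, 0)
  else if b = 2 * J + 4 then .inl (if x < 3096 * i + 1548 then s(nm m J (i - 1) 7, nm m J i 7)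
    else s(nm m J i 7, nm m J (i + 1) 7))
  else if b = 2 * J + 3 then .inl (if x < 3096 * i + 1548 then s(nm m J i 2, nm m J i 7)
    else if x = 3096 * i + 1548 then s(nm m J i 7, nm m J i 7) else s(nm m J i 7, nm m J (i + 1) 2))
  else if b % 2 = 1 then .inl s(nm m (b / 2) i 0, nm m (b / 2) i 6)
  else .inr (b / 2 - 1, if T (b / 2 - 1) i = 8 then i - 1 else i)

/-- The labels of the strata on a rail. -/
def ownR (m J : ℕ) (T : ℕ → ℕ → ℕ) (i b : ℕ) : Sym2 ℕ ⊕ ℕ × ℕ :=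
  if b = 0 then .inr (J + 1, 0)
  else if b = 24 * J + 8 then .inl s(nm m J i 7, nm m J (i + 1) 7)
  else if T ((b - 1) / 24) (i + 1) = 8 ∧ 3 ≤ (b - 1) % 24 then .inr ((b - 1) / 24, i)
  else .inl s(rv m J i ((b - 1) / 2), rv m J i (b / 2))

/-- The point has the label. -/
def Lab (m J : ℕ) (T : ℕ → ℕ → ℕ) (P : ℕ → ℂ) (hh : ℕ → ℕ → ℝ) (z : ℂ) (l : Sym2 ℕ ⊕ ℕ × ℕ) :
    Prop :=
  (∃ i ≤ m + 1, (i = 0 ∨ 3096 * (i : ℝ) < z.re) ∧ z.re < 3096 * (i + 1) ∧
    ∃ b, In (WG J hh i z.re) (J + 1) b (cy z) ∧ ownW m J T i b z.re = l) ∨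
  ∃ i ≤ m, z.re = 3096 * (i + 1) ∧ ∃ b, In (RG m J P i) (12 * J + 3) b (cy z) ∧ ownR m J T i b = l

variable {m J : ℕ} {T : ℕ → ℕ → ℕ} {P : ℕ → ℂ} {hh : ℕ → ℕ → ℝ} {z : ℂ}

theorem Lab.uniq {l l' : Sym2 ℕ ⊕ ℕ × ℕ} (h : Lab m J T P hh z l) (h' : Lab m J T P hh z l') :
    l = l' := by
  have k1 : ∀ i i' : ℕ, (i = 0 ∨ 3096 * (i : ℝ) < z.re) → z.re < 3096 * (i' + 1) → i ≤ i' := by
    rintro i i' (rfl | a) b
    · omega
    · have : (i : ℝ) < (i' + 1 : ℕ) := by push_cast; linarith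
      have := Nat.cast_lt.1 this
      omega
  have k2 : ∀ i i' : ℕ, (i = 0 ∨ 3096 * (i : ℝ) < z.re) → z.re < 3096 * (i + 1) →
      z.re ≠ 3096 * (i' + 1) := by
    intro i i' a b c
    have h1 : i' < i := Nat.cast_lt.1 (by linarith : (i' : ℝ) < i)
    have h2 : (i' + 1 : ℝ) ≤ i := by exact_mod_cast h1
    rcases a with a | a
    · omega
    · linarith
  rcases h with ⟨i, -, a1, a2, b, a3, rfl⟩ | ⟨i, -, a1, b, a3, rfl⟩ <;>
    rcases h' with ⟨i', -, b1, b2, b', b3, rfl⟩ | ⟨i', -, b1, b', b3, rfl⟩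
  · obtain rfl : i = i' := le_antisymm (k1 _ _ a1 b2) (k1 _ _ b1 a2)
    rw [a3.uniq b3]
  · exact absurd b1 (k2 _ _ a1 a2)
  · exact absurd a1 (k2 _ _ b1 b2)
  · obtain rfl : i = i' := Nat.cast_injective (by linarith : (i : ℝ) = i')
    rw [a3.uniq b3]

theorem Lab.lt {l : Sym2 ℕ ⊕ ℕ × ℕ} (h : Lab m J T P hh z l) : z.re < 3096 * (m + 2) := by
  rcases h with ⟨i, hi, -, a, -⟩ | ⟨i, hi, a, -⟩
  · have : (i : ℝ) ≤ m + 1 := by exact_mod_cast hi
    linarith
  · have : (i : ℝ) ≤ m := by exact_mod_cast hi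
    linarith

/-- The geometry of the skeleton. -/
structure Geo (m J : ℕ) (P : ℕ → ℂ) (hh : ℕ → ℕ → ℝ) : Prop where
  up : ∀ j < J, ∀ i ≤ m + 1, hh j i < hh (j + 1) i
  top : ∀ i ≤ m + 1, hh J i ≤ 1032 * (12 * J + 4 - i)
  step : ∀ j ≤ J, ∀ i ≤ m, hh j (i + 1) < hh j i
  mon : ∀ i ≤ m, Mon (RG m J P i) (12 * J + 3)
  rx : ∀ i ≤ m, ∀ n ≤ 12 * J + 3, (P (rv m J i n)).re = 3096 * (i + 1)
  pa : ∀ j ≤ J, ∀ i ≤ m + 1, P (nm m j i 0) = hex (3096 * i) (hh j i)
  pb : ∀ j ≤ J, ∀ i ≤ m + 1, P (nm m j i 6) = hex (3096 * (i + 1)) (hh j i)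
  pv : ∀ i ≤ m + 1, P (nm m J i 2) = hex (3096 * i) (1032 * (12 * J + 5 - i))
  pw : ∀ i ≤ m + 1, P (nm m J i 7) = hex (3096 * i + 1548) (1032 * (12 * J - i) + 4644)

namespace Geo

variable (G : Geo m J P hh)
include G

theorem monW {i : ℕ} (hi : i ≤ m + 1) {x : ℝ} (hx : x < 3096 * (i + 1)) :
    Mon (WG J hh i x) (J + 1) := by
  intro n hn
  unfold WG
  rw [if_pos (by omega)]
  split_ifs with h
  · exact G.up n h i hi
  · obtain rfl : n = J := by omega
    have := G.top i hi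
    linarith

theorem rg0 {j i : ℕ} (hj : j ≤ J) (hi : i ≤ m) : RG m J P i (12 * j) = hh j (i + 1) := by
  rw [RG, rv, if_neg (by omega), if_pos (by omega), show 12 * j / 12 = j by omega,
    show 12 * j % 12 / 2 = 0 by omega, G.pa j hj _ (by omega), cy_hex]

theorem rg1 {j i : ℕ} (hj : j ≤ J) (hi : i ≤ m) : RG m J P i (12 * j + 1) = hh j i := by
  rw [RG, rv, if_neg (by omega), if_neg (by omega), show (12 * j + 1) / 12 = j by omega,
    show 6 + (12 * j + 1) % 12 / 2 = 6 by omega, G.pb j hj _ (by omega), cy_hex]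

theorem well {j i : ℕ} (hj : j ≤ J) (hi : i ≤ m + 1) (h1 : i = 0 ∨ 3096 * (i : ℝ) < z.re)
    (h2 : z.re < 3096 * (i + 1)) (h3 : hh j i < cy z) (h4 : cy z < WG J hh i z.re (j + 1)) :
    Lab m J T P hh z (.inr (j, if T j i = 8 then i - 1 else i)) := by
  refine Or.inl ⟨i, hi, h1, h2, _, (G.monW hi h2).seg (b := j + 1) (by omega)
    (fun _ => by rwa [WG, if_pos (by omega)]) fun _ => h4, ?_⟩
  rw [ownW, if_neg (by omega), if_neg (by omega), if_neg (by omega), if_neg (by omega),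
    show 2 * (j + 1) / 2 - 1 = j by omega]

theorem mid {j i : ℕ} (hj : j < J) (hi : i ≤ m) (hT : T j (i + 1) = 8)
    (h1 : z.re = 3096 * (i + 1)) (h2 : hh j i < cy z) (h3 : cy z < hh (j + 1) (i + 1)) :
    Lab m J T P hh z (.inr (j, i)) := by
  obtain ⟨b, b1, b2, b3⟩ := (G.mon i hi).ex (n := 12 * j + 1) (y := cy z) 11 (by omega)
    (by rwa [G.rg1 hj.le hi]) (by rwa [show 12 * j + 1 + 11 = 12 * (j + 1) by ring, G.rg0 hj hi])
  refine Or.inr ⟨i, hi, h1, b, b1, ?_⟩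
  rw [ownR, if_neg (by omega), if_neg (by omega), show (b - 1) / 24 = j by omega,
    if_pos ⟨hT, by omega⟩]

theorem rung {j i : ℕ} (hj : j ≤ J) (hi : i ≤ m + 1) (h1 : 3096 * (i : ℝ) < z.re)
    (h2 : z.re < 3096 * (i + 1)) (h3 : cy z = hh j i) :
    Lab m J T P hh z (.inl s(nm m j i 0, nm m j i 6)) := by
  have := (G.monW hi h2).pt (n := j) (by omega)
  rw [WG, if_pos hj, ← h3] at this
  refine Or.inl ⟨i, hi, Or.inr h1, h2, _, this, ?_⟩
  rw [ownW, if_neg (by omega), if_neg (by omega), if_neg (by omega), if_pos (by omega),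
    show (2 * j + 1) / 2 = j by omega]

theorem railV {i n : ℕ} (hi : i ≤ m) (hn : n ≤ 12 * J + 3)
    (hT : T (n / 12) (i + 1) = 8 → n % 12 < 2) :
    Lab m J T P hh (P (rv m J i n)) (.inl s(rv m J i n, rv m J i n)) := by
  refine Or.inr ⟨i, hi, G.rx i hi n hn, _, (G.mon i hi).pt hn, ?_⟩
  rw [ownR, if_neg (by omega), if_neg (by omega), show (2 * n + 1 - 1) / 24 = n / 12 by omega,
    if_neg (fun h => by have := hT h.1; omega), show (2 * n + 1 - 1) / 2 = n by omega,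
    show (2 * n + 1) / 2 = n by omega]

theorem railE {i n : ℕ} (hi : i ≤ m) (hn : n < 12 * J + 3)
    (hT : T (n / 12) (i + 1) = 8 → n % 12 = 0) (h1 : z.re = 3096 * (i + 1))
    (h2 : RG m J P i n < cy z) (h3 : cy z < RG m J P i (n + 1)) :
    Lab m J T P hh z (.inl s(rv m J i n, rv m J i (n + 1))) := by
  refine Or.inr ⟨i, hi, h1, _, (G.mon i hi).seg (b := n + 1) (by omega) (fun _ => h2)
    fun _ => h3, ?_⟩
  rw [ownR, if_neg (by omega), if_neg (by omega), show (2 * (n + 1) - 1) / 24 = n / 12 by omega,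
    if_neg (fun h => by have := hT h.1; omega), show (2 * (n + 1) - 1) / 2 = n by omega,
    show 2 * (n + 1) / 2 = n + 1 by omega]

theorem line {i : ℕ} (hi : i ≤ m + 1) (h1 : 3096 * (i : ℝ) < z.re) (h2 : z.re < 3096 * (i + 1))
    (h3 : cy z = 1032 * (12 * J + 5) - z.re / 3) : Lab m J T P hh z
      (.inl (if z.re < 3096 * i + 1548 then s(nm m J i 2, nm m J i 7) else
        if z.re = 3096 * i + 1548 then s(nm m J i 7, nm m J i 7)
        else s(nm m J i 7, nm m J (i + 1) 2))) := by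
  have := (G.monW hi h2).pt (n := J + 1) le_rfl
  rw [WG, if_neg (by omega), ← h3] at this
  refine Or.inl ⟨i, hi, Or.inr h1, h2, _, this, ?_⟩
  rw [ownW, if_neg (by omega), if_neg (by omega), if_pos (by omega)]

theorem above {i : ℕ} (hi : i ≤ m) (h1 : 3096 * (i : ℝ) + 1548 < z.re)
    (h2 : z.re < 3096 * (i + 1) + 1548) (h3 : 1032 * (12 * J + 5) - z.re / 3 < cy z) :
    Lab m J T P hh z (.inl s(nm m J i 7, nm m J (i + 1) 7)) := by
  have key : ∀ k ≤ m + 1, z.re < 3096 * (k + 1) →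
      In (WG J hh k z.re) (J + 1) (2 * (J + 2)) (cy z) := fun k hk h =>
    (G.monW hk h).seg le_rfl (fun _ => by rwa [WG, if_neg (by omega)]) (by omega)
  rcases lt_trichotomy z.re (3096 * (i + 1)) with h | h | h
  · refine Or.inl ⟨i, by omega, Or.inr (by linarith), h, _, key i (by omega) h, ?_⟩
    rw [ownW, if_neg (by omega), if_pos (by omega), if_neg h1.not_gt]
  · refine Or.inr ⟨i, hi, h, _, (G.mon i hi).seg le_rfl (fun _ => ?_) (by omega), ?_⟩
    · rw [RG, rv, if_pos (by omega), G.pv _ (by omega), cy_hex]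
      push_cast
      linarith
    · rw [ownR, if_neg (by omega), if_pos (by omega)]
  · have h4 : z.re < 3096 * ((i + 1 : ℕ) + 1) := by push_cast; linarith
    refine Or.inl ⟨i + 1, by omega, Or.inr (by push_cast; exact h), h4, _, key _ (by omega) h4, ?_⟩
    rw [ownW, if_neg (by omega), if_pos (by omega), if_pos (by push_cast; exact h2),
      Nat.add_sub_cancel]

theorem bot (i : ℕ) (hi : i ≤ m) (h1 : z.re < 3096 * (i + 1)) (h2 : cy z < hh 0 i) :
    Lab m J T P hh z (.inr (J + 1, 0)) := by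
  have key : ∀ k ≤ m, (k = 0 ∨ 3096 * (k : ℝ) < z.re) → z.re < 3096 * (k + 1) → cy z < hh 0 k →
      Lab m J T P hh z (.inr (J + 1, 0)) := fun k hk a b c =>
    Or.inl ⟨k, by omega, a, b, _, (G.monW (by omega) b).seg (b := 0) (by omega) (by omega)
      fun _ => by rwa [WG, if_pos (by omega)], by rw [ownW, if_pos rfl]⟩
  induction i with
  | zero => exact key 0 hi (Or.inl rfl) h1 h2
  | succ i ih =>
    rcases lt_trichotomy z.re (3096 * (i + 1)) with h | h | h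
    · exact ih (by omega) h (h2.trans (G.step 0 (by omega) i (by omega)))
    · refine Or.inr ⟨i, by omega, h, _, (G.mon i (by omega)).seg (b := 0) (by omega) (by omega)
        fun _ => ?_, by rw [ownR, if_pos rfl]⟩
      rwa [show RG m J P i 0 = _ from G.rg0 (j := 0) (by omega) (by omega)]
    · exact key _ hi (Or.inr (by push_cast; exact h)) h1 h2

end Geo

end Pool.Agent.Lib.MP_242159_lc
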