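import Pool.Agent.Lib.MP_242159_lc.YesA
import Pool.Agent.Lib.MP_242159_lc.YesB
import Pool.Agent.Lib.MP_242159_lc.NoC

/-!
The positions of the vertices for a run with small values.
-/

set_option autoImplicit false

namespace Pool.Agent.Lib.MP_242159_lc

open Complex

/-- The anchor of a tile. -/
noncomputable def anc (j i : ℕ) : ℂ := hex (3096 * i) (1032 * (12 * j - i))

/-- The parameters of a tile. -/
noncomputable def pr (s : ℕ → ℕ → ℝ) (j i : ℕ) : Par :=
  par (s (j + 1) i) (s (j + 1) (i + 1)) (s j i)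

/-- The position of a point of a tile. -/
noncomputable def lp (T : ℕ → ℕ → ℕ) (s : ℕ → ℕ → ℝ) (j i x : ℕ) : ℂ :=
  anc j i + pos (pt (T j i) x) (pr s j i)

/-- The position of the vertex `k` in the well `(j, i)`. -/
noncomputable def QQ (T : ℕ → ℕ → ℕ) (s : ℕ → ℕ → ℝ) (j i k : ℕ) : ℂ :=
  if T j i = 8 then lp T s j (i - 1) (40 + k) else lp T s j i k

/-- The positions. -/
noncomputable def PP (m : ℕ) (T : ℕ → ℕ → ℕ) (s : ℕ → ℕ → ℝ) (v : ℕ) : ℂ :=
  QQ T s ((v - 1) / 40 / (m + 2)) ((v - 1) / 40 % (m + 2)) ((v - 1) % 40)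

/-- The frames. -/
noncomputable def FF (m : ℕ) (T : ℕ → ℕ → ℕ) (s : ℕ → ℕ → ℝ) (v : ℕ) : ℂ :=
  fr (T ((v - 1) / 40 / (m + 2)) ((v - 1) / 40 % (m + 2)))
    (pr s ((v - 1) / 40 / (m + 2)) ((v - 1) / 40 % (m + 2))) ((v - 1) % 40)

/-- The height of the floor of the well `(j, i)`. -/
noncomputable def hgt (T : ℕ → ℕ → ℕ) (s : ℕ → ℕ → ℝ) (j i : ℕ) : ℝ :=
  1032 * (12 * j - i + (if T j i = 5 then 1 else 0) + s j i)

theorem nm_dec {m j i k : ℕ} (hi : i ≤ m + 1) (hk : k < 40) :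
    (nm m j i k - 1) / 40 / (m + 2) = j ∧ (nm m j i k - 1) / 40 % (m + 2) = i ∧
      (nm m j i k - 1) % 40 = k := by
  have h : (nm m j i k - 1) / 40 = j * (m + 2) + i := by unfold nm; omega
  rw [h, mul_comm, Nat.mul_add_div (by omega), Nat.div_eq_of_lt (by omega), Nat.mul_add_mod,
    Nat.mod_eq_of_lt (by omega)]
  exact ⟨rfl, rfl, by unfold nm; omega⟩

theorem PP_nm {m : ℕ} (T : ℕ → ℕ → ℕ) (s : ℕ → ℕ → ℝ) (j : ℕ) {i k : ℕ} (hi : i ≤ m + 1)
    (hk : k < 40) : PP m T s (nm m j i k) = QQ T s j i k := by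
  obtain ⟨h1, h2, h3⟩ := nm_dec (j := j) hi hk
  rw [PP, h1, h2, h3]

theorem FF_nm {m : ℕ} (T : ℕ → ℕ → ℕ) (s : ℕ → ℕ → ℝ) (j : ℕ) {i k : ℕ} (hi : i ≤ m + 1)
    (hk : k < 40) : FF m T s (nm m j i k) = fr (T j i) (pr s j i) k := by
  obtain ⟨h1, h2, h3⟩ := nm_dec (j := j) hi hk
  rw [FF, h1, h2, h3]

/-- A constant. -/
def cst (a : ℤ) : Af := (a, 0, 0, 0, 0, 0)

@[simp] theorem af_cst (a : ℤ) (π : Par) : af (cst a) π = a := by simp [af, cst]

instance decAf : DecidableEq Af := inferInstance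

instance decPt : DecidableEq Pt := inferInstance

/-- The floor of a tile. -/
def bt (g : ℕ) : Af :=
  [(0, 0, 1032, 0, 0, 0), (0, 516, 516, 0, 0, 0), (0, -1032, 2064, 0, 0, 0), (0, 0, 1032, 1032, 0, 0),
    (0, 1032, 0, 0, 0, 0), (1032, 1032, 0, 0, 0, 0), cst 0, cst 0, cst 0, cst 0,
    (0, 1032, 0, 0, 0, 0)].getD g (cst 0)

theorem tb0 : ∀ g < 13, g ≠ 8 → pt g 0 = (cst 0, bt g) ∧ pt g 6 = (cst 3096, bt g) := by
  decide +kernel

theorem tb1 : ∀ g < 4, pt g 40 = (cst 3096, (-1032, (bt g).2)) ∧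
    pt g 46 = (cst 6192, (-1032, (bt g).2)) ∧ (bt g).1 = 0 := by decide +kernel

theorem tb2 : ∀ g < 4, pt g 160 = (cst 3096, (11352, 0, 1032, 0, 0, 0)) ∧
    pt g 166 = (cst 6192, (11352, 0, 1032, 0, 0, 0)) := by decide +kernel

theorem tb3 : ∀ g < 8, pt g 120 = (cst 0, (12384, if g < 6 then 1032 else 0, 0, 0, 0, 0)) ∧
    pt g 126 = (cst 3096, (12384, if g < 6 then 1032 else 0, 0, 0, 0, 0)) := by decide +kernel

theorem tb4 : ∀ g < 13, 9 ≤ g → pt g 1 = (cst 0, cst 3096) ∧ pt g 2 = (cst 0, cst 5160) ∧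
    pt g 7 = (cst 1548, cst 4644) := by decide +kernel

theorem tb5 : ∀ g < 13, 9 ≤ g → pt g 41 = (cst 3096, cst 2064) ∧
    pt g 42 = (cst 3096, cst 4128) := by decide +kernel

theorem tb6 : ∀ g < 8, ∀ k < 6, (g ≠ 6 → (pt g k).1 = cst 0) ∧
    (g ≠ 7 → (pt g (6 + k)).1 = cst 3096) := by decide +kernel

theorem tb7 : ∀ g < 4, ∀ k < 6, (pt g (40 + k)).1 = cst 3096 ∧
    (pt g (40 + (6 + k))).1 = cst 6192 := by decide +kernel

/-- The base height of a slot. -/
def bh (g d k : ℕ) : ℤ := (pt g (40 * d + k)).2.1 + 1032 * d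

/-- The base heights on a rail. -/
def rb (g d g' d' t : ℕ) : ℤ :=
  if t = 12 then 11352 else if t % 2 = 0 then bh g' d' (t / 2) - 1032 else bh g d (6 + t / 2)

/-- The base heights increase. -/
def rbOK (g d g' d' : ℕ) : Bool :=
  (List.range 11).all fun t => decide (rb g d g' d' (t + 1) + 200 ≤ rb g d g' d' (t + 2))

theorem tb8 : ∀ g < 4, rbOK g 0 g 1 = true ∧ rbOK g 1 4 0 = true ∧ rbOK g 1 7 0 = true := by
  decide +kernel

theorem tb9 : ∀ g < 7, ∀ g' < 8, 4 ≤ g ∧ g' ≠ 6 ∧ 8 * g + g' ≠ 45 → rbOK g 0 g' 0 = true := by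
  decide +kernel

/-- Codes whose position is known in the tile. -/
def cOK (g x : ℕ) : Prop :=
  x < 40 ∨ (g < 4 ∧ x < 52) ∨ (g < 8 ∧ (x = 120 ∨ x = 126)) ∨ (g < 4 ∧ (x = 160 ∨ x = 166)) ∨
    (9 ≤ g ∧ g < 12 ∧ (x = 41 ∨ x = 42))

/-- A run with small values, spread over the grid. -/
structure Sta (m c r : ℕ) (prog : List (ℕ × ℕ)) (s : ℕ → ℕ → ℝ) : Prop where
  wf : WFM m r prog
  loc : ∀ g < 13, ∀ j i, Loc g (pr s j i)
  small : ∀ j i, |s j i| < 1 / 100
  edge : ∀ j, s j 0 = 0 ∧ s j (m + 1) = 0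
  gate : ∀ j ≤ prog.length + 1, ∀ i, ty m c r prog j i < 4 →
    Gate (ty m c r prog j i) (s (j + 1) i) (s (j + 1) (i + 1)) (s j i) ∧ s j (i + 1) = s j i
  idle : ∀ j ≤ prog.length + 1, ∀ i, ty m c r prog j i = 4 ∨ ty m c r prog j i = 5 ∨
    ty m c r prog j i = 10 → s j i = s (j + 1) i
  cap : ∀ i, ty m c r prog (prog.length + 1) i = 9 → s (prog.length + 1) i = 0
  test : s 0 (r + 2) < s 0 (r + 1)

variable {m c r : ℕ} {prog : List (ℕ × ℕ)} {s : ℕ → ℕ → ℝ}

theorem after_skip (W : WFM m r prog) {j i : ℕ} (hj : j ≤ prog.length)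
    (h : ty m c r prog j i = 8) : ty m c r prog j (i + 1) = 4 ∨ ty m c r prog j (i + 1) = 7 := by
  have h1 := fun a => prog_wf W (j := j) a hj
  unfold ty at h ⊢
  generalize prog.getD (prog.length - j) (0, 0) = a at *
  split_ifs at h ⊢ <;> first | omega | contradiction

namespace Sta

variable (S : Sta m c r prog s)
include S

theorem af_bt {j : ℕ} (hj : j ≤ prog.length + 1) (i : ℕ) (h8 : ty m c r prog j i ≠ 8) :
    af (bt (ty m c r prog j i)) (pr s j i) =
      1032 * ((if ty m c r prog j i = 5 then 1 else 0) + s j i) := by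
  have t := ty_ok (c := c) S.wf hj i
  have t1 := t.lt
  have t2 := t.left
  have t3 := t.right
  have t4 := t.cap
  have g1 := fun h => (S.gate j hj i h).1
  have g2 := S.idle j hj i
  have g3 : ty m c r prog j i = 9 → s j i = 0 := fun h => by
    obtain rfl : j = prog.length + 1 := by omega
    exact S.cap i h
  have g4 : i = 0 ∨ i = m + 1 → s j i = 0 := by
    rintro (rfl | rfl)
    · exact (S.edge j).1
    · exact (S.edge j).2
  generalize ty m c r prog j i = g at *
  interval_cases g <;> simp [Gate] at g1 g2 g3 t2 t3 h8 <;> simp [bt, af, pr, par, cst] <;>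
    first | linarith | exact g4 (by omega)

theorem lp0 {j : ℕ} (hj : j ≤ prog.length + 1) (i : ℕ) (h8 : ty m c r prog j i ≠ 8) :
    lp (ty m c r prog) s j i 0 = hex (3096 * i) (hgt (ty m c r prog) s j i) ∧
    lp (ty m c r prog) s j i 6 = hex (3096 * (i + 1)) (hgt (ty m c r prog) s j i) := by
  obtain ⟨h1, h2⟩ := tb0 _ (ty_ok (c := c) S.wf hj i).lt h8
  simp only [lp, h1, h2, anc, pos, hex_add, hex_inj, af_cst, S.af_bt hj i h8, hgt]
  refine ⟨⟨?_, ?_⟩, ?_, ?_⟩ <;> push_cast <;> ring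

theorem lp40 {j : ℕ} (hj : j ≤ prog.length + 1) {i : ℕ} (hg : ty m c r prog j i < 4) :
    lp (ty m c r prog) s j i 40 = hex (3096 * (i + 1)) (hgt (ty m c r prog) s j (i + 1)) ∧
    lp (ty m c r prog) s j i 46 = hex (3096 * (i + 1 + 1)) (hgt (ty m c r prog) s j (i + 1)) := by
  obtain ⟨h1, h2, h3⟩ := tb1 _ hg
  have h4 := S.af_bt hj i (by omega)
  have h5 := (ty_ok (c := c) S.wf hj i).skip.2 hg
  rw [if_neg (by omega), af, h3] at h4
  simp only [lp, h1, h2, anc, pos, hex_add, hex_inj, af_cst, hgt, h5, (S.gate j hj i hg).2]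
  simp only [af]
  refine ⟨⟨?_, ?_⟩, ?_, ?_⟩ <;> push_cast at h4 ⊢ <;> linarith

theorem pab {j : ℕ} (hj : j ≤ prog.length + 1) {i : ℕ} (hi : i ≤ m + 1) :
    PP m (ty m c r prog) s (nm m j i 0) = hex (3096 * i) (hgt (ty m c r prog) s j i) ∧
    PP m (ty m c r prog) s (nm m j i 6) = hex (3096 * (i + 1)) (hgt (ty m c r prog) s j i) := by
  rw [PP_nm _ _ _ hi (by omega), PP_nm _ _ _ hi (by omega), QQ, QQ]
  split_ifs with h
  · obtain ⟨k, rfl, hk⟩ := skip_left S.wf hj h
    push_cast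
    exact S.lp40 hj hk
  · exact S.lp0 hj i h

theorem pcap {i : ℕ} (hi : i ≤ m + 1) :
    PP m (ty m c r prog) s (nm m (prog.length + 1) i 1) =
      hex (3096 * i) (1032 * (12 * (prog.length + 1 : ℕ) + 3 - i)) ∧
    PP m (ty m c r prog) s (nm m (prog.length + 1) i 2) =
      hex (3096 * i) (1032 * (12 * (prog.length + 1 : ℕ) + 5 - i)) ∧
    PP m (ty m c r prog) s (nm m (prog.length + 1) i 7) =
      hex (3096 * i + 1548) (1032 * (12 * (prog.length + 1 : ℕ) - i) + 4644) := by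
  have t := ty_ok (c := c) S.wf le_rfl i
  have t1 := t.cap.2 rfl
  obtain ⟨h1, h2, h3⟩ := tb4 _ t.lt t1
  rw [PP_nm _ _ _ hi (by omega), PP_nm _ _ _ hi (by omega), PP_nm _ _ _ hi (by omega)]
  simp only [QQ, if_neg (show ty m c r prog (prog.length + 1) i ≠ 8 by omega), lp, h1, h2, h3, anc,
    pos, hex_add, hex_inj, af_cst]
  refine ⟨⟨?_, ?_⟩, ⟨?_, ?_⟩, ?_, ?_⟩ <;> push_cast <;> ring

theorem hgt_succ {j : ℕ} (hj : j ≤ prog.length) (i : ℕ) :
    hgt (ty m c r prog) s (j + 1) i = 1032 * (12 * (j + 1) - i + s (j + 1) i) := by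
  have := (ty_ok (c := c) S.wf (j := j + 1) (by omega) i).inc
  rw [hgt, if_neg (by omega)]
  push_cast
  ring

theorem cons {j : ℕ} (hj : j ≤ prog.length + 1) {i : ℕ} (hi : i ≤ m + 1)
    (h8 : ty m c r prog j i ≠ 8) {x : ℕ} (hx : cOK (ty m c r prog j i) x) :
    PP m (ty m c r prog) s (gl m j i x) = lp (ty m c r prog) s j i x ∧
      FF m (ty m c r prog) s (gl m j i x) = fr (ty m c r prog j i) (pr s j i) x := by
  have t := ty_ok (c := c) S.wf hj i
  have t1 := t.cap
  have t2 := t.gate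
  have t3 := t.left
  have t4 := t.right
  by_cases h : x < 40
  · rw [gl_eq (j' := j) (i' := i) (k := x) (by omega) (by omega) (by omega), PP_nm _ _ _ hi h,
      FF_nm _ _ _ hi h, QQ, if_neg h8]
    exact ⟨rfl, rfl⟩
  refine ⟨?_, by
    unfold cOK at hx
    rw [gl, FF_nm _ _ _ (by omega) (by omega), fr, fr, if_neg (by omega), if_neg (by omega)]⟩
  rcases hx with hx | ⟨hg, hx⟩ | ⟨hg, hx⟩ | ⟨hg, hx⟩ | ⟨hg, hg', hx⟩
  · exact absurd hx h
  · rw [gl_eq (j' := j) (i' := i + 1) (k := x - 40) (by omega) (by omega) (by omega),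
      PP_nm _ _ _ (by omega) (by omega), QQ, if_pos (t.skip.2 hg), Nat.add_sub_cancel,
      Nat.add_sub_cancel' (by omega)]
  · obtain ⟨h1, h2⟩ := S.pab (j := j + 1) (by omega) hi
    obtain ⟨h3, h4⟩ := tb3 _ hg
    have h5 : ((if ty m c r prog j i < 6 then 1032 else 0 : ℤ) : ℝ) * s (j + 1) i =
        1032 * s (j + 1) i := by
      split_ifs with h6
      · simp
      · rcases (by omega : i = 0 ∨ i = m + 1) with rfl | rfl
        · simp [(S.edge _).1]
        · simp [(S.edge _).2]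
    rw [S.hgt_succ (by omega)] at h1 h2
    rcases hx with rfl | rfl
    · refine h1.trans ?_
      simp only [lp, h3, anc, pos, hex_add, hex_inj, af_cst]
      simp only [af, pr, par, h5]
      constructor <;> push_cast <;> ring
    · refine h2.trans ?_
      simp only [lp, h4, anc, pos, hex_add, hex_inj, af_cst]
      simp only [af, pr, par, h5]
      constructor <;> push_cast <;> ring
  · obtain ⟨h1, h2⟩ := S.pab (j := j + 1) (i := i + 1) (by omega) (by omega)
    obtain ⟨h3, h4⟩ := tb2 _ hg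
    rw [S.hgt_succ (by omega)] at h1 h2
    rcases hx with rfl | rfl
    · refine h1.trans ?_
      simp only [lp, h3, anc, pos, hex_add, hex_inj, af_cst]
      simp only [af, pr, par]
      constructor <;> push_cast <;> ring
    · refine h2.trans ?_
      simp only [lp, h4, anc, pos, hex_add, hex_inj, af_cst]
      simp only [af, pr, par]
      constructor <;> push_cast <;> ring
  · obtain rfl : j = prog.length + 1 := by omega
    obtain ⟨h1, h2, -⟩ := S.pcap (i := i + 1) (by omega)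
    obtain ⟨h3, h4⟩ := tb5 _ t.lt hg
    rcases hx with rfl | rfl
    · refine h1.trans ?_
      simp only [lp, h3, anc, pos, hex_add, hex_inj, af_cst]
      constructor <;> push_cast <;> ring
    · refine h2.trans ?_
      simp only [lp, h4, anc, pos, hex_add, hex_inj, af_cst]
      constructor <;> push_cast <;> ring

theorem hstep {j : ℕ} (hj : j ≤ prog.length + 1) (i : ℕ) :
    hgt (ty m c r prog) s j (i + 1) < hgt (ty m c r prog) s j i := by
  have t1 := (ty_ok (c := c) S.wf hj i).inc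
  have t2 := (ty_ok (c := c) S.wf hj (i + 1)).inc
  have a1 := abs_lt.1 (S.small j i)
  have a2 := abs_lt.1 (S.small j (i + 1))
  unfold hgt
  push_cast
  split_ifs with h1 h2 h2
  · omega
  · obtain ⟨rfl, h⟩ := t2.1 h1
    obtain rfl : i = r + 1 := by omega
    have := S.test
    linarith
  · linarith
  · linarith

theorem near {j i k : ℕ} (hj : j ≤ prog.length + 1) (hi : i ≤ m + 1) (hk : k < 40) {g d : ℕ}
    (h : (d = 0 ∧ ty m c r prog j i = g ∧ g ≠ 8) ∨
      (d = 1 ∧ ty m c r prog j i = 8 ∧ ty m c r prog j (i - 1) = g)) :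
    |cy (PP m (ty m c r prog) s (nm m j i k)) - (1032 * (12 * j - i) + bh g d k)| < 100 ∧
    (PP m (ty m c r prog) s (nm m j i k)).re = 3096 * (i - d) +
      af (pt g (40 * d + k)).1 (pr s j (i - d)) := by
  rw [PP_nm _ _ _ hi hk, QQ]
  rcases h with ⟨rfl, rfl, h⟩ | ⟨rfl, h, rfl⟩
  · have := (S.loc _ (ty_ok (c := c) S.wf hj i).lt j i).near k (by omega)
    rw [if_neg h, lp, anc, pos, hex_add, cy_hex, hex_re, bh]
    simp only [mul_zero, zero_add, Nat.cast_zero, sub_zero, Nat.sub_zero, add_zero, and_true]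
    convert this using 2
    ring
  · obtain ⟨l, rfl, hl⟩ := skip_left S.wf hj h
    have := (S.loc _ (ty_ok (c := c) S.wf hj l).lt j l).near (40 + k) (by omega)
    rw [if_pos h, lp, anc, pos, hex_add, cy_hex, hex_re, bh]
    simp only [mul_one, Nat.add_sub_cancel]
    push_cast
    refine ⟨?_, by ring⟩
    convert this using 2
    ring

theorem views {j i : ℕ} (hj : j ≤ prog.length) (hi : i ≤ m) : ∃ g d g' d',
    ((d = 0 ∧ ty m c r prog j i = g ∧ g ≠ 8) ∨
      (d = 1 ∧ ty m c r prog j i = 8 ∧ ty m c r prog j (i - 1) = g)) ∧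
    ((d' = 0 ∧ ty m c r prog j (i + 1) = g' ∧ g' ≠ 8) ∨
      (d' = 1 ∧ ty m c r prog j (i + 1) = 8 ∧ ty m c r prog j (i + 1 - 1) = g')) ∧
    rbOK g d g' d' = true ∧ (∀ k < 6, (pt g (40 * d + (6 + k))).1 = cst (3096 * (d + 1)) ∧
      (pt g' (40 * d' + k)).1 = cst (3096 * d')) := by
  have t := ty_ok (c := c) S.wf (j := j) (by omega) i
  have t' := ty_ok (c := c) S.wf (j := j) (by omega) (i + 1)
  have t1 := t.cap
  have t2 := t.right
  have t3 := t.inc
  have t4 := t'.cap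
  have t5 := t'.left
  have t6 := t'.inc
  have t7 := t.skip
  by_cases h : ty m c r prog j i = 8
  · obtain ⟨l, rfl, hl⟩ := skip_left S.wf (by omega) h
    have h1 := after_skip S.wf hj h
    refine ⟨_, 1, _, 0, Or.inr ⟨rfl, h, rfl⟩, Or.inl ⟨rfl, rfl, by omega⟩, ?_, fun k hk =>
      ⟨(tb7 _ hl k hk).2, by simpa using (tb6 _ (by omega) k hk).1 (by omega)⟩⟩
    rcases h1 with h1 | h1 <;> rw [h1]
    · exact (tb8 _ hl).2.1
    · exact (tb8 _ hl).2.2
  by_cases h' : ty m c r prog j i < 4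
  · exact ⟨_, 0, _, 1, Or.inl ⟨rfl, rfl, h⟩, Or.inr ⟨rfl, t7.2 h', rfl⟩, (tb8 _ h').1, fun k hk =>
      ⟨by simpa using (tb6 _ (by omega) k hk).2 (by omega), (tb7 _ h' k hk).1⟩⟩
  · exact ⟨_, 0, _, 0, Or.inl ⟨rfl, rfl, h⟩, Or.inl ⟨rfl, rfl, by omega⟩,
      tb9 _ (by omega) _ (by omega) (by omega), fun k hk =>
      ⟨by simpa using (tb6 _ (by omega) k hk).2 (by omega),
        by simpa using (tb6 _ (by omega) k hk).1 (by omega)⟩⟩

theorem geo : Geo m (prog.length + 1) (PP m (ty m c r prog) s) (hgt (ty m c r prog) s) := by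
  have sm := fun j i => abs_lt.1 (S.small j i)
  have top : ∀ i, hgt (ty m c r prog) s (prog.length + 1) i <
      1032 * (12 * (prog.length + 1 : ℕ) + 1 - i) := fun i => by
    rw [S.hgt_succ le_rfl]
    push_cast
    linarith [sm (prog.length + 1) i]
  have r0 : ∀ j ≤ prog.length + 1, ∀ i, rv m (prog.length + 1) i (12 * j) = nm m j (i + 1) 0 :=
    fun j hj i => by
      rw [rv, if_neg (by omega), if_pos (by omega), show 12 * j / 12 = j by omega,
        show 12 * j % 12 / 2 = 0 by omega]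
  have r1 : ∀ j ≤ prog.length + 1, ∀ i, rv m (prog.length + 1) i (12 * j + 1) = nm m j i 6 :=
    fun j hj i => by
      rw [rv, if_neg (by omega), if_neg (by omega), show (12 * j + 1) / 12 = j by omega,
        show 6 + (12 * j + 1) % 12 / 2 = 6 by omega]
  have r2 : ∀ i, rv m (prog.length + 1) i (12 * (prog.length + 1) + 1 + 1) =
      nm m (prog.length + 1) (i + 1) 1 := fun i => by
    rw [rv, if_neg (by omega), if_pos (by omega), show (12 * (prog.length + 1) + 1 + 1) / 12 =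
      prog.length + 1 by omega, show (12 * (prog.length + 1) + 1 + 1) % 12 / 2 = 1 by omega]
  have r3 : ∀ i, rv m (prog.length + 1) i (12 * (prog.length + 1) + 1 + 1 + 1) =
      nm m (prog.length + 1) (i + 1) 2 := fun i => by rw [rv, if_pos rfl]
  have key : ∀ j ≤ prog.length, ∀ i ≤ m, ∃ g d g' d', rbOK g d g' d' = true ∧ ∀ t ≤ 12,
      |RG m (prog.length + 1) (PP m (ty m c r prog) s) i (12 * j + t) -
        (1032 * (12 * j - i) + rb g d g' d' t)| < 100 ∧
      (PP m (ty m c r prog) s (rv m (prog.length + 1) i (12 * j + t))).re = 3096 * (i + 1) := by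
    intro j hj i hi
    obtain ⟨g, d, g', d', v1, v2, v3, v4⟩ := S.views hj hi
    refine ⟨g, d, g', d', v3, fun t ht => ?_⟩
    rcases ht.eq_or_lt with rfl | ht
    · rw [RG, show 12 * j + 12 = 12 * (j + 1) by ring, r0 _ (by omega),
        (S.pab (by omega) (by omega)).1, S.hgt_succ hj, cy_hex, hex_re, rb, if_pos rfl, abs_lt]
      push_cast
      exact ⟨⟨by linarith [sm (j + 1) (i + 1)], by linarith [sm (j + 1) (i + 1)]⟩, rfl⟩
    rw [RG, rv, if_neg (by omega), rb, if_neg ht.ne, show (12 * j + t) / 12 = j by omega,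
      show (12 * j + t) % 12 = t by omega, show (12 * j + t) % 2 = t % 2 by omega]
    split_ifs with h
    · have := S.near (k := t / 2) (by omega) (by omega) (by omega) v2
      rw [(v4 _ (by omega)).2, af_cst] at this
      push_cast at this ⊢
      exact ⟨by convert this.1 using 2; ring, by linarith [this.2]⟩
    · have := S.near (k := 6 + t / 2) (by omega) (by omega) (by omega) v1
      rw [(v4 _ (by omega)).1, af_cst] at this
      push_cast at this ⊢
      exact ⟨this.1, by linarith [this.2]⟩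
  refine ⟨fun j hj i _ => ?_, fun i _ => by linarith [top i], fun j hj i _ => S.hstep hj i,
    fun i hi n hn => ?_, fun i hi n hn => ?_, fun j hj i hi => (S.pab hj hi).1,
    fun j hj i hi => (S.pab hj hi).2, fun i hi => (S.pcap hi).2.1, fun i hi => (S.pcap hi).2.2⟩
  · rw [S.hgt_succ (by omega), hgt]
    split_ifs <;> linarith [sm j i, sm (j + 1) i]
  · obtain ⟨j, t, ht, rfl⟩ : ∃ j t, t < 12 ∧ n = 12 * j + t :=
      ⟨n / 12, n % 12, by omega, by omega⟩
    rcases Nat.eq_zero_or_pos t with rfl | h0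
    · rw [RG, RG, add_zero, r0 _ (by omega), r1 _ (by omega), (S.pab (by omega) (by omega)).1,
        (S.pab (by omega) (by omega)).2, cy_hex, cy_hex]
      exact S.hstep (by omega) i
    by_cases hj : j ≤ prog.length
    · obtain ⟨g, d, g', d', v1, v2⟩ := key j hj i hi
      simp only [rbOK, List.all_eq_true, List.mem_range, decide_eq_true_eq] at v1
      have k1 := v1 (t - 1) (by omega)
      rw [show t - 1 + 1 = t by omega, show t - 1 + 2 = t + 1 by omega] at k1
      have k2 : (rb g d g' d' t + 200 : ℝ) ≤ rb g d g' d' (t + 1) := by exact_mod_cast k1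
      have k3 := abs_lt.1 (v2 t ht.le).1
      have k4 := abs_lt.1 (v2 (t + 1) ht).1
      rw [add_assoc]
      linarith
    obtain rfl : j = prog.length + 1 := by omega
    obtain ⟨p1, p2, -⟩ := S.pcap (i := i + 1) (by omega)
    rcases (by omega : t = 1 ∨ t = 1 + 1) with rfl | rfl
    · rw [RG, RG, r1 _ le_rfl, r2, (S.pab le_rfl (by omega)).2, p1, cy_hex, cy_hex]
      have := top i
      push_cast at this ⊢
      linarith
    · rw [RG, RG, ← add_assoc, r2, r3, p1, p2, cy_hex, cy_hex]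
      linarith
  · obtain ⟨j, t, ht, rfl⟩ : ∃ j t, t < 12 ∧ n = 12 * j + t :=
      ⟨n / 12, n % 12, by omega, by omega⟩
    by_cases hj : j ≤ prog.length
    · obtain ⟨g, d, g', d', -, v2⟩ := key j hj i hi
      exact (v2 t ht.le).2
    obtain rfl : j = prog.length + 1 := by omega
    obtain ⟨p1, p2, -⟩ := S.pcap (i := i + 1) (by omega)
    rcases (by omega : t = 0 ∨ t = 1 ∨ t = 1 + 1 ∨ t = 1 + 1 + 1) with rfl | rfl | rfl | rfl
    · rw [add_zero, r0 _ le_rfl, (S.pab le_rfl (by omega)).1]; simp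
    · rw [r1 _ le_rfl, (S.pab le_rfl (by omega)).2]; simp
    · rw [← add_assoc, r2, p1]; simp
    · rw [← add_assoc, ← add_assoc, r3, p2]; simp

end Sta

end Pool.Agent.Lib.MP_242159_lc
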