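import Pool.Agent.Lib.MP_242159_lc.YesC

/-!
Every vertex and every open edge lies in its own stratum.
-/

set_option autoImplicit false
set_option synthInstance.maxSize 4096

namespace Pool.Agent.Lib.MP_242159_lc

open Complex

/-- The label of a ray. -/
def kap (m J : ℕ) (a : ℕ × ℕ) : ℕ × ℕ := if a.2 < 36 * (2 * m + 3) then (J, 0) else (J + 1, 0)

/-- The labelled stratification for a run. -/
def LB (m c r : ℕ) (prog : List (ℕ × ℕ)) (s : ℕ → ℕ → ℝ) (z : ℂ) (l : Sym2 ℕ ⊕ ℕ × ℕ) : Prop :=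
  Lab m (prog.length + 1) (ty m c r prog) (PP m (ty m c r prog) s) (hgt (ty m c r prog) s) z l

/-- The point belongs to the vertex or the open edge `σ`. -/
def At (m c r : ℕ) (prog : List (ℕ × ℕ)) (s : ℕ → ℕ → ℝ) (σ : Sym2 ℕ) (z : ℂ) : Prop :=
  LB m c r prog s z (.inl σ) ∨
  (∃ j ≤ prog.length + 1, ∃ i, ∃ x ∈ cells (ty m c r prog j i), LB m c r prog s z (.inr (j, i)) ∧
    Mem x (pr s j i) (z - anc j i) ∧ σ = s(gl m j i x.cu, gl m j i x.cv)) ∨
  ∃ a ∈ seeds m (prog.length + 1), LB m c r prog s z (.inr (kap m (prog.length + 1) a)) ∧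
    (∃ l : ℝ, 0 < l ∧ z = PP m (ty m c r prog) s a.1 + l * rt (72 * (2 * m + 3)) a.2) ∧
      σ = s(a.1, 0)

theorem dir_bot {K t : ℕ} (h1 : 53 * K < t) (h2 : t < 54 * K) :
    (rt (72 * K) t).re < 0 ∧ (rt (72 * K) t).im < 0 := by
  have a := rt_cross (N := 72 * K) (a := t) (b := K * 54) (by omega) (by omega)
  have b := rt_cross (N := 72 * K) (a := t) (b := 72 * K) (by omega) (by omega)
  obtain ⟨x, hx, e⟩ := om_dvec (d := 54) (by decide)
  rw [rt_mul (by omega), e, hex_smul, show dvec 54 = (0, -1) from rfl] at a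
  rw [rt_self (by omega)] at b
  have := mul_pos hx s3_pos
  simp only [hex_re, hex_im] at a
  push_cast at a
  simp only [one_re, one_im] at b
  exact ⟨by nlinarith, by linarith⟩

theorem dir_cap {K t : ℕ} (h1 : 35 * K < t) (h2 : t < 36 * K) :
    0 < (rt (72 * K) t).im ∧ (rt (72 * K) t).re + √3 * (rt (72 * K) t).im < 0 := by
  have a := rt_cross (N := 72 * K) (a := t) (b := K * 66) (by omega) (by omega)
  obtain ⟨x, hx, e⟩ := om_dvec (d := 66) (by decide)
  rw [rt_mul (by omega), e, hex_smul, show dvec 66 = (3, -1) from rfl] at a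
  refine ⟨rt_im_pos (by omega) (by omega), ?_⟩
  have := mul_pos hx s3_pos
  simp only [hex_re, hex_im] at a
  push_cast at a
  refine neg_of_mul_neg_right (a := x * √3) ?_ this.le
  linear_combination a + x * (rt (72 * K) t).im * s3_mul

theorem ray_sep {N a b : ℕ} {u v : ℂ} {l l' : ℝ} (h0 : a < b) (h1 : 2 * (b - a) < N) (hl : 0 < l')
    (h : 0 ≤ (rt N a).re * (v.im - u.im) - (rt N a).im * (v.re - u.re)) :
    u + l * rt N a ≠ v + l' * rt N b := by
  intro e
  have k := mul_pos hl (rt_cross h0 h1)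
  have e1 := congrArg re e
  have e2 := congrArg im e
  simp only [add_re, add_im, re_ofReal_mul, im_ofReal_mul] at e1 e2
  have : (rt N a).re * (v.im - u.im) - (rt N a).im * (v.re - u.re) +
      l' * ((rt N a).re * (rt N b).im - (rt N a).im * (rt N b).re) = 0 := by
    linear_combination (rt N a).im * e1 - (rt N a).re * e2
  linarith

theorem seg_hex {a b : ℂ} {d : ℕ} (hd : d % 6 = 0) {k : ℝ} (hk : 0 < k)
    (h : b = a + hex (k * (dvec d).1) (k * (dvec d).2)) :
    EOK a b (1 * om d) (1 * om ((d + 36) % 72)) ∧ ∀ z, OnArc a b (1 * om d / (b - a)) z →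
      ∃ t : ℝ, 0 < t ∧ t < 1 ∧ z.re = a.re + t * k * (dvec d).1 ∧
        cy z = cy a + t * k * (dvec d).2 := by
  obtain ⟨x, hx, e⟩ := om_dvec hd
  have := seg_ok (a := a) (b := b) (d := d) (div_pos hk hx) (by
    rw [h, e, add_sub_cancel_left, hex_smul, hex_smul, hex_inj]
    constructor <;> field_simp)
  refine ⟨this.1, fun z hz => ?_⟩
  obtain ⟨t, h0, h1, rfl⟩ := this.2 z hz
  rw [h, add_sub_cancel_left, hex_smul, add_re, cy_add, hex_re, cy_hex]
  exact ⟨t, h0, h1, by ring, by ring⟩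

/-- The upper arc between two vertices of the top line. -/
def upC : Cell := ⟨false, 0, 0, (cst 1548, cst 4644), (cst 4644, cst 3612), 29, 0, 1, 1, 0⟩

theorem up_ok (A : ℂ) : EOK (A + hex 1548 4644) (A + hex 4644 3612) (1 * om 67) (1 * om 29) ∧
    ∀ z, OnArc (A + hex 1548 4644) (A + hex 4644 3612)
      (1 * om 67 / (A + hex 4644 3612 - (A + hex 1548 4644))) z →
      1548 < (z - A).re ∧ (z - A).re < 4644 ∧ 15480 < (z - A).re + 3 * cy (z - A) := by
  obtain ⟨x, hx, e⟩ := om_dvec (d := 66) (by decide)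
  have e1 : A + hex 4644 3612 - (A + hex 1548 4644) = (1032 / x : ℝ) * om 66 := by
    rw [e, add_sub_add_left_eq_sub, hex_sub, hex_smul, hex_smul, hex_inj,
      show dvec 66 = (3, -1) from rfl]
    constructor <;> field_simp <;> norm_num
  have e2 : A + hex 1548 4644 - (A + hex 4644 3612) = pos upC.u 0 - pos upC.v 0 := by
    simp only [upC, pos, af_cst]
    push_cast
    ring
  have x0 : (x : ℂ) ≠ 0 := by exact_mod_cast hx.ne'
  have := arc_of_pr (a := A + hex 1548 4644) (b := A + hex 4644 3612) (T := 1 * om 67) (d := 29)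
    (ρ := (x / 1032) ^ 2) (by positivity) (by
      rw [e1, one_mul, om_sum (d := 66) (by decide)]; push_cast; field_simp) (by
      have k1 := lowB_le (-3096) 1032 (d := 29) (by decide)
      have k2 := (Int.cast_pos (R := ℝ)).2 (show 0 < lowB (-3096) 1032 29 by decide +kernel)
      rw [e2, ← Wc, Wc_eq, hex_re]
      simp only [Wx, upC, af_cst]
      push_cast at k1 ⊢
      linarith)
  refine ⟨this.1, fun z hz => ?_⟩
  obtain ⟨l, hl, h⟩ := this.2 z hz
  have m : Mem upC 0 (z - A) := by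
    refine Or.inr ⟨rfl, l, hl, by simpa [upC] using hl.le, by simp [upC], ?_⟩
    rw [Wc, ← e2]
    simp only [upC, pos, af_cst]
    push_cast
    linear_combination h
  have f1 := (Pc_sound (F := ⟨upC.u, 0, 1, 0, 0⟩) (c := upC) (by decide +kernel)).self_of_nhds _ m
  have f2 := (Pc_sound (F := ⟨upC.v, 0, -1, 0, 0⟩) (c := upC) (by decide +kernel)).self_of_nhds _ m
  have f3 := (Pc_sound (F := ⟨upC.u, 0, 1, 3, 0⟩) (c := upC) (by decide +kernel)).self_of_nhds _ m
  simp only [Qr, upC, af_cst] at f1 f2 f3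
  push_cast at f1 f2 f3
  exact ⟨by linarith, by linarith, by linarith⟩

theorem vtab : ∀ g < 13, ∀ h ∈ halves (allE g), (12 ≤ h.1 ∧ h.1 < 12 + nint g ∧ h.1 < 40) ∨
    (9 ≤ g ∧ h.1 < 120 ∧ h.1 % 40 = 7) ∨
    (h.1 % 40 < 6 ∧ (g = 6 ∨ g = 11 → 40 ≤ h.1 % 120) ∧ (9 ≤ g → h.1 % 40 ≤ 2) ∧
      (h.1 % 40 = 0 ∨ h.1 < 40 ∨ (h.1 < 120 ∧ h.1 / 40 = wid g))) ∨
    (6 ≤ h.1 % 40 ∧ h.1 % 40 < 12 ∧ g ≠ 7 ∧ g ≠ 12 ∧ h.1 % 120 / 40 < wid g ∧
      (h.1 % 40 = 6 ∨ (g < 9 ∧ h.1 < 120 ∧ h.1 / 40 + 1 = wid g))) := by decide +kernel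

/-- The code of the vertex number `t` on a rail of a tile. -/
def rc (g d t : ℕ) : ℕ :=
  if 9 ≤ g ∧ t = 3 then 40 * (d + 1) + 2
  else if t % 2 = 0 then 120 * (t / 12) + 40 * (d + 1) + t % 12 / 2 else 40 * d + 6 + t / 2

theorem etab : ∀ g < 13, ∀ e ∈ skE g,
    (∃ t < 12, ∃ d < wid g, e = (rc g d t, 18, rc g d (t + 1), 54) ∧ (t = 0 ∨ d + 1 = wid g) ∧
      (9 ≤ g → t < 3) ∧ g ≠ 7 ∧ g ≠ 12) ∨
    (∃ d < wid g, e = (40 * d, 0, 40 * d + 6, 36)) ∨
    (9 ≤ g ∧ (e = (2, 66, 7, 30) ∨ (g ≠ 12 ∧ (e = (7, 66, 42, 30) ∨ e = (7, 67, 47, 29))))) := by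
  decide +kernel

theorem ctab : ∀ g < 13, ∀ e ∈ inE g, cOK g e.1 ∧ cOK g e.2.2.1 := by
  unfold cOK
  decide +kernel

theorem cells_skip : cells 8 = [] ∧ cells 11 = [] := ⟨rfl, rfl⟩

theorem Qr_x (g a : ℕ) (al be : ℤ) (π : Par) (A z : ℂ) :
    Qr ⟨pt g a, 0, al, be, 0⟩ π (z - A).re (cy (z - A)) =
      al * (z.re - (A + pos (pt g a) π).re) + be * (cy z - cy (A + pos (pt g a) π)) := by
  simp only [Qr, sub_re, cy_sub, add_re, cy_add, pos, hex_re, cy_hex]
  push_cast
  ring

variable {m c r : ℕ} {prog : List (ℕ × ℕ)} {s : ℕ → ℕ → ℝ}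

namespace Sta

variable (S : Sta m c r prog s)
include S

theorem hmono (i k : ℕ) : hgt (ty m c r prog) s 0 (i + k) ≤ hgt (ty m c r prog) s 0 i := by
  induction k with
  | zero => exact le_rfl
  | succ k ih => exact (S.hstep (by omega) (i + k)).le.trans ih

theorem seedP {a : ℕ × ℕ} (ha : a ∈ seeds m (prog.length + 1)) :
    (a.2 = 35 * (2 * m + 3) + 1 ∧ PP m (ty m c r prog) s a.1 =
      hex 1548 (1032 * (12 * (prog.length + 1 : ℕ)) + 4644)) ∨
    (a.2 = 35 * (2 * m + 3) + 2 ∧ PP m (ty m c r prog) s a.1 =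
      hex 3096 (1032 * (12 * (prog.length + 1 : ℕ)) + 4128)) ∨
    ∃ i ≤ m, ∃ b < 2, a.2 = 53 * (2 * m + 3) + (2 * i + 1 + b) ∧ PP m (ty m c r prog) s a.1 =
      hex (3096 * (i + 1)) (hgt (ty m c r prog) s 0 (i + b)) := by
  rcases mem_seeds.1 ha with rfl | rfl | ⟨i, hi, rfl | rfl⟩
  · exact Or.inl ⟨rfl, by simpa using (S.pcap (i := 0) (by omega)).2.2⟩
  · refine Or.inr (Or.inl ⟨rfl, (S.pcap (i := 1) (by omega)).2.1.trans ?_⟩)
    rw [hex_inj]; constructor <;> push_cast <;> ring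
  · exact Or.inr (Or.inr ⟨i, hi, 0, by omega, rfl, (S.pab (by omega) (by omega)).2⟩)
  · exact Or.inr (Or.inr ⟨i, hi, 1, by omega, rfl, by
      simpa using (S.pab (j := 0) (i := i + 1) (by omega) (by omega)).1⟩)

theorem ray_ne {a b : ℕ × ℕ} (ha : a ∈ seeds m (prog.length + 1))
    (hb : b ∈ seeds m (prog.length + 1)) (hk : kap m (prog.length + 1) a = kap m (prog.length + 1) b)
    (h : a.2 < b.2) {l l' : ℝ} (hl : 0 < l') :
    PP m (ty m c r prog) s a.1 + l * rt (72 * (2 * m + 3)) a.2 ≠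
      PP m (ty m c r prog) s b.1 + l' * rt (72 * (2 * m + 3)) b.2 := by
  have hk' : a.2 < 36 * (2 * m + 3) ↔ b.2 < 36 * (2 * m + 3) := by
    unfold kap at hk
    split_ifs at hk with h1 h2 h2
    · exact iff_of_true h1 h2
    · simp at hk
    · simp at hk
    · exact iff_of_false h1 h2
  have s3 := s3_pos
  rcases S.seedP ha with ⟨a1, a2⟩ | ⟨a1, a2⟩ | ⟨i, hi, x, hx, a1, a2⟩ <;>
    rcases S.seedP hb with ⟨b1, b2⟩ | ⟨b1, b2⟩ | ⟨i', hi', x', hx', b1, b2⟩ <;>
    try omega
  · refine ray_sep h (by omega) hl ?_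
    have := mul_neg_of_pos_of_neg s3 (dir_cap (K := 2 * m + 3) (t := a.2) (by omega) (by omega)).2
    rw [a2, b2]
    simp only [hex_re, hex_im]
    linear_combination 516 * this - 516 * (rt (72 * (2 * m + 3)) a.2).im * s3_mul
  · refine ray_sep h (by omega) hl ?_
    obtain ⟨d1, d2⟩ := dir_bot (K := 2 * m + 3) (t := a.2) (by omega) (by omega)
    have k1 := S.hmono (i + x) (i' + x' - (i + x))
    rw [Nat.add_sub_cancel' (by omega)] at k1
    have k2 : (i : ℝ) ≤ i' := by exact_mod_cast (by omega : i ≤ i')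
    rw [a2, b2]
    simp only [hex_re, hex_im]
    have k3 := mul_nonneg (neg_nonneg.2 d1.le) (mul_nonneg s3.le (sub_nonneg.2 k1))
    have k4 := mul_nonneg (neg_nonneg.2 d2.le) (sub_nonneg.2 k2)
    linarith

theorem uniq (σ σ' : Sym2 ℕ) (z : ℂ) (h : At m c r prog s σ z) (h' : At m c r prog s σ' z) :
    σ = σ' := by
  have key : ∀ j ≤ prog.length + 1, ∀ i, ∀ x ∈ cells (ty m c r prog j i), ∀ a,
      (j, i) ≠ kap m (prog.length + 1) a := by
    intro j hj i x hx a e
    unfold kap at e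
    split_ifs at e
    · obtain ⟨rfl, rfl⟩ := Prod.mk.inj e
      rw [show ty m c r prog (prog.length + 1) 0 = 11 by simp [ty], cells_skip.2] at hx
      simp at hx
    · have := (Prod.mk.inj e).1
      omega
  rcases h with a | ⟨j, hj, i, x, hx, a, b, rfl⟩ | ⟨u, hu, a, ⟨l, hl, b⟩, rfl⟩ <;>
    rcases h' with a' | ⟨j', hj', i', x', hx', a', b', rfl⟩ | ⟨u', hu', a', ⟨l', hl', b'⟩, rfl⟩ <;>
    have e := Lab.uniq a a' <;> simp only [Sum.inl.injEq, Sum.inr.injEq, reduceCtorEq] at e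
  · exact e
  · obtain ⟨rfl, rfl⟩ := Prod.mk.inj e
    obtain ⟨h1, h2⟩ := (S.loc _ (ty_ok (c := c) S.wf hj i).lt j i).sep x hx x' hx' _ b b'
    rw [h1, h2]
  · exact absurd e (key j hj i x hx _)
  · exact absurd e.symm (key j' hj' i' x' hx' _)
  · rcases lt_trichotomy u.2 u'.2 with h | h | h
    · exact absurd (b.symm.trans b') (S.ray_ne hu hu' e h hl')
    · rw [(seed_ok _ (by omega) hu hu').2 h]
    · exact absurd (b'.symm.trans b) (S.ray_ne hu' hu e.symm h hl)

theorem ray {a : ℕ × ℕ} (ha : a ∈ seeds m (prog.length + 1)) {l : ℝ} (hl : 0 < l) :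
    At m c r prog s s(a.1, 0) (PP m (ty m c r prog) s a.1 + l * rt (72 * (2 * m + 3)) a.2) := by
  refine Or.inr (Or.inr ⟨a, ha, ?_, ⟨l, hl, rfl⟩, rfl⟩)
  have s3 := s3_pos
  have key : ∀ x y : ℝ, x ≤ 3096 → x + 3 * y = 3096 * (12 * (prog.length + 1 : ℕ) + 5) →
      a.2 < 36 * (2 * m + 3) → 35 * (2 * m + 3) < a.2 →
      LB m c r prog s (hex x y + l * rt (72 * (2 * m + 3)) a.2)
        (.inr (kap m (prog.length + 1) a)) := by
    intro x y hx hy h1 h2
    obtain ⟨d1, d2⟩ := dir_cap h2 h1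
    have d3 : cy (rt (72 * (2 * m + 3)) a.2) * 3 = √3 * (rt (72 * (2 * m + 3)) a.2).im := by
      unfold cy; field_simp; norm_num
    have d4 := mul_pos s3 d1
    have d5 := mul_pos hl d4
    have d6 := mul_neg_of_pos_of_neg hl d2
    have d7 := S.geo.top 0 (by omega)
    have := S.geo.well (T := ty m c r prog) (z := hex x y + l * rt (72 * (2 * m + 3)) a.2) le_rfl
      (Nat.zero_le _) (Or.inl rfl) (by simp only [add_re, hex_re, re_ofReal_mul]; push_cast; linarith)
      (by rw [cy_add, cy_hex, cy_smul]; push_cast at d7 hy ⊢; nlinarith)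
      (by rw [WG, if_neg (by omega), cy_add, cy_hex, cy_smul, add_re, hex_re, re_ofReal_mul]
          nlinarith)
    rw [kap, if_pos h1]
    simpa [LB] using this
  rcases S.seedP ha with ⟨a1, a2⟩ | ⟨a1, a2⟩ | ⟨i, hi, x, hx, a1, a2⟩ <;> rw [a2]
  · exact key _ _ (by norm_num) (by ring) (by omega) (by omega)
  · exact key _ _ le_rfl (by ring) (by omega) (by omega)
  · obtain ⟨d1, d2⟩ := dir_bot (K := 2 * m + 3) (t := a.2) (by omega) (by omega)
    have d3 := mul_neg_of_pos_of_neg hl d1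
    have d4 := mul_neg_of_pos_of_neg hl (div_neg_of_neg_of_pos d2 s3)
    have d5 := S.hmono i x
    rw [kap, if_neg (by omega)]
    exact S.geo.bot i hi (by simp only [add_re, hex_re, re_ofReal_mul]; linarith)
      (by rw [cy_add, cy_hex, cy_smul, cy]; linarith)

theorem cell {j i : ℕ} (hj : j ≤ prog.length + 1) (hi : i ≤ m + 1) {x : Cell}
    (hx : x ∈ cells (ty m c r prog j i)) {z : ℂ} (hz : Mem x (pr s j i) (z - anc j i)) :
    At m c r prog s s(gl m j i x.cu, gl m j i x.cv) z := by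
  refine Or.inr (Or.inl ⟨j, hj, i, x, hx, ?_, hz, rfl⟩)
  have t := ty_ok (c := c) S.wf hj i
  have t1 := t.cap
  have t2 := t.gate
  have h8 : ty m c r prog j i ≠ 8 := fun h => by
    rw [h, cells_skip.1] at hx
    simp at hx
  obtain ⟨b, hb, hF⟩ := (S.loc _ t.lt j i).box x hx _ hz
  obtain ⟨p0, p6⟩ := S.lp0 hj i h8
  have w1 : 3096 * (i : ℝ) < z.re → z.re < 3096 * (i + 1) → hgt (ty m c r prog) s j i < cy z →
      cy z < WG (prog.length + 1) (hgt (ty m c r prog) s) i z.re (j + 1) →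
      LB m c r prog s z (.inr (j, i)) := fun a1 a2 a3 a4 => by
    have := S.geo.well (T := ty m c r prog) hj hi (Or.inr a1) a2 a3 a4
    rwa [if_neg h8] at this
  have bx : ∀ a b c' d, (∀ F ∈ box (ty m c r prog j i) a b c' d,
      0 < Qr F (pr s j i) (z - anc j i).re (cy (z - anc j i))) →
      (lp (ty m c r prog) s j i a).re < z.re ∧ z.re < (lp (ty m c r prog) s j i b).re ∧
      cy (lp (ty m c r prog) s j i c') < cy z ∧ cy z < cy (lp (ty m c r prog) s j i d) := by
    intro a b c' d h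
    simp only [box, List.forall_mem_cons, Qr_x] at h
    unfold lp
    push_cast at h
    exact ⟨by linarith [h.1], by linarith [h.2.1], by linarith [h.2.2.1], by linarith [h.2.2.2.1]⟩
  have b1 : ty m c r prog j i < 9 → (∀ F ∈ box (ty m c r prog j i) 0 6 0 120,
      0 < Qr F (pr s j i) (z - anc j i).re (cy (z - anc j i))) →
      LB m c r prog s z (.inr (j, i)) := by
    intro hg h
    obtain ⟨a1, a2, a3, a4⟩ := bx _ _ _ _ h
    rw [← (S.cons hj hi h8 (x := 120) (by unfold cOK; omega)).1,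
      show gl m j i 120 = nm m (j + 1) i 0 from rfl, (S.pab (by omega) hi).1, cy_hex] at a4
    rw [p0] at a1 a3
    rw [p6] at a2
    exact w1 a1 a2 (by rwa [cy_hex] at a3) (by rwa [WG, if_pos (by omega)])
  unfold boxes at hb
  split_ifs at hb with g1 g2
  · obtain ⟨p40, p46⟩ := S.lp40 hj g1
    have p160 := (S.cons hj hi h8 (x := 160) (by unfold cOK; omega)).1
    rw [show gl m j i 160 = nm m (j + 1) (i + 1) 0 from rfl,
      (S.pab (by omega) (by omega)).1] at p160
    have w2 : 3096 * (i + 1 : ℝ) < z.re → z.re < 3096 * (i + 1 + 1) →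
        hgt (ty m c r prog) s j (i + 1) < cy z → cy z < hgt (ty m c r prog) s (j + 1) (i + 1) →
        LB m c r prog s z (.inr (j, i)) := fun a1 a2 a3 a4 => by
      have := S.geo.well (T := ty m c r prog) (i := i + 1) hj (by omega)
        (Or.inr (by push_cast; exact a1)) (by push_cast; exact a2) a3
        (by rwa [WG, if_pos (by omega)])
      rwa [if_pos (t.skip.2 g1)] at this
    simp only [List.mem_cons, List.not_mem_nil, or_false] at hb
    rcases hb with rfl | rfl | rfl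
    · exact b1 (by omega) hF
    · obtain ⟨a1, a2, a3, a4⟩ := bx _ _ _ _ hF
      rw [p40] at a1 a3
      rw [p46] at a2
      rw [← p160] at a4
      rw [cy_hex] at a3 a4
      exact w2 a1 a2 a3 a4
    · obtain ⟨a1, a2, a3, a4⟩ := bx _ _ _ _ hF
      rw [p0] at a1
      rw [p46] at a2
      rw [p6] at a3
      rw [← p160] at a4
      rw [cy_hex] at a3 a4
      rcases lt_trichotomy z.re (3096 * (i + 1)) with h | h | h
      · exact w1 a1 h a3 (by rw [WG, if_pos (by omega)]; exact a4.trans (S.hstep (by omega) i))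
      · exact S.geo.mid (by omega) (by omega) (t.skip.2 g1) h a3 a4
      · exact w2 h a2 ((S.hstep hj i).trans a3) a4
  · rw [List.mem_singleton.1 hb] at hF
    exact b1 g2 hF
  · rw [List.mem_singleton.1 hb] at hF
    obtain rfl : j = prog.length + 1 := by omega
    have p2 := (S.cons hj hi h8 (x := 2) (by unfold cOK; omega)).1
    rw [show gl m (prog.length + 1) i 2 = nm m (prog.length + 1) i 2 from rfl,
      (S.pcap hi).2.1] at p2
    simp only [List.forall_mem_cons, Qr_x] at hF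
    unfold lp at p0 p6 p2
    simp only [p0, p6, ← p2, hex_re, cy_hex] at hF
    push_cast at hF
    exact w1 (by linarith [hF.1]) (by linarith [hF.2.1]) (by linarith [hF.2.2.1])
      (by rw [WG, if_neg (by omega)]; push_cast; linarith [hF.2.2.2.1])

theorem wid_ne {j i : ℕ} (hj : j ≤ prog.length + 1) :
    ty m c r prog j (i + wid (ty m c r prog j i)) ≠ 8 := by
  have t1 := (ty_ok (c := c) S.wf hj i).skip
  have t2 : ty m c r prog j (i + 2) = 8 ↔ _ := (ty_ok (c := c) S.wf hj (i + 1)).skip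
  unfold wid
  split_ifs <;> omega

theorem vert {j i : ℕ} (hj : j ≤ prog.length + 1) (hi : i ≤ m + 1) {h : ℕ × ℕ × ℕ}
    (hh : h ∈ halves (allE (ty m c r prog j i))) :
    At m c r prog s s(gl m j i h.1, gl m j i h.1) (PP m (ty m c r prog) s (gl m j i h.1)) := by
  have t := ty_ok (c := c) S.wf hj i
  have t1 := t.cap
  have t2 := t.gate
  have t3 := t.left
  have t4 := t.right
  have h8 := ne_skip hh
  obtain ⟨-, -, -, -, -, ⟨h0, -⟩, h1, h1', -⟩ := half_ok _ t.lt _ hh
  have h2 : i + h.1 % 120 / 40 ≤ m + 1 := (Nat.add_le_add_left h0 i).trans (col_le S.wf hj hi)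
  clear h0
  have h3 := S.wid_ne (i := i) hj
  have h4 : wid (ty m c r prog j i) = 1 ∨ (wid (ty m c r prog j i) = 2 ∧ ty m c r prog j i < 4) := by
    unfold wid; split_ifs <;> omega
  rcases vtab _ t.lt _ hh with v | v | v | v
  · have := S.cell hj hi (x := cellV (ty m c r prog j i) h.1)
      (z := PP m (ty m c r prog) s (gl m j i h.1)) (List.mem_append_left _
        (List.mem_map.2 ⟨h.1 - 12, List.mem_range.2 (by omega), by rw [Nat.add_sub_cancel' v.1]⟩))
      (Or.inl ⟨rfl, by rw [(S.cons hj hi h8 (Or.inl v.2.2)).1, lp, add_sub_cancel_left]; rfl⟩)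
    exact this
  · obtain rfl : j = prog.length + 1 := by omega
    obtain ⟨k, hk, e⟩ : ∃ k ≤ m + 1, gl m (prog.length + 1) i h.1 = nm m (prog.length + 1) k 7 :=
      ⟨_, by omega, gl_eq (by omega) rfl v.2.2⟩
    have p := (S.pcap hk).2.2
    have := S.geo.line (T := ty m c r prog) (z := PP m (ty m c r prog) s
      (nm m (prog.length + 1) k 7)) hk (by rw [p, hex_re]; linarith) (by rw [p, hex_re]; linarith)
      (by rw [p, hex_re, cy_hex]; ring)
    rw [if_neg (by rw [p, hex_re]; exact lt_irrefl _), if_pos (by rw [p, hex_re])] at this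
    rw [e]
    exact Or.inl this
  · obtain ⟨k, hk⟩ : ∃ k, i + h.1 % 120 / 40 = k + 1 := ⟨i + h.1 % 120 / 40 - 1, by omega⟩
    by_cases h5 : j = prog.length + 1 ∧ h.1 % 40 = 2
    · rw [show gl m j i h.1 = rv m (prog.length + 1) k (12 * (prog.length + 1) + 3) by
        rw [rv, if_pos rfl]; exact gl_eq (by omega) hk h5.2]
      refine Or.inl (S.geo.railV (by omega) le_rfl fun e => ?_)
      rw [show (12 * (prog.length + 1) + 3) / 12 = prog.length + 1 by omega] at e
      have := (ty_ok (c := c) S.wf le_rfl (k + 1)).cap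
      omega
    · rw [show gl m j i h.1 = rv m (prog.length + 1) k (12 * (j + h.1 / 120) + 2 * (h.1 % 40)) by
        rw [rv, if_neg (by omega), if_pos (by omega)]; exact gl_eq (by omega) hk (by omega)]
      refine Or.inl (S.geo.railV (by omega) (by omega) fun e => ?_)
      rcases v.2.2.2 with w | w | w
      · omega
      · rw [show (12 * (j + h.1 / 120) + 2 * (h.1 % 40)) / 12 = j by omega,
          show k + 1 = i by omega] at e
        exact absurd e h8
      · rw [show (12 * (j + h.1 / 120) + 2 * (h.1 % 40)) / 12 = j by omega,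
          show k + 1 = i + wid (ty m c r prog j i) by omega] at e
        exact absurd e h3
  · rw [show gl m j i h.1 = rv m (prog.length + 1) (i + h.1 % 120 / 40)
        (12 * (j + h.1 / 120) + 2 * (h.1 % 40 - 6) + 1) by
      rw [rv, if_neg (by omega), if_neg (by omega)]; exact gl_eq (by omega) rfl (by omega)]
    refine Or.inl (S.geo.railV (by omega) (by omega) fun e => ?_)
    rcases v.2.2.2.2.2 with w | w
    · omega
    · rw [show (12 * (j + h.1 / 120) + 2 * (h.1 % 40 - 6) + 1) / 12 = j by omega,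
        show i + h.1 % 120 / 40 + 1 = i + wid (ty m c r prog j i) by omega] at e
      exact absurd e h3

end Sta

end Pool.Agent.Lib.MP_242159_lc
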