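import Pool.Agent.Lib.MP_242159_lc.YesD
import Pool.Agent.Lib.MP_242159_lc.Glue

/-!
An accepting run with small values gives a drawing.
-/

set_option autoImplicit false

namespace Pool.Agent.Lib.MP_242159_lc

open Complex

variable {m c r : ℕ} {prog : List (ℕ × ℕ)} {s : ℕ → ℕ → ℝ}

theorem FF_one (T : ℕ → ℕ → ℕ) (j i : ℕ) {x : ℕ} (h : x % 40 ≠ 30) : FF m T s (gl m j i x) = 1 := by
  rw [FF, fr, if_neg]
  unfold gl nm
  omega

theorem gl_rc {J j i g d t : ℕ} (hj : j ≤ J) (hg : 9 ≤ g ↔ j = J) (hd : d < 2) (ht : t ≤ 12)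
    (h3 : 9 ≤ g → t ≤ 3) : gl m j i (rc g d t) = rv m J (i + d) (12 * j + t) ∧
      rc g d t % 40 ≠ 30 := by
  unfold rc rv
  split_ifs <;> first | omega | exact ⟨gl_eq (by omega) (by omega) (by omega), by omega⟩

/-- The edge is an arc in its own stratum. -/
def Good (m c r : ℕ) (prog : List (ℕ × ℕ)) (s : ℕ → ℕ → ℝ) (u du v dv : ℕ) : Prop :=
  EOK (PP m (ty m c r prog) s u) (PP m (ty m c r prog) s v) (FF m (ty m c r prog) s u * om du)
    (FF m (ty m c r prog) s v * om dv) ∧
  ∀ z, OnArc (PP m (ty m c r prog) s u) (PP m (ty m c r prog) s v) (FF m (ty m c r prog) s u *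
    om du / (PP m (ty m c r prog) s v - PP m (ty m c r prog) s u)) z → At m c r prog s s(u, v) z

namespace Sta

variable (S : Sta m c r prog s)
include S

theorem inner {j i : ℕ} (hj : j ≤ prog.length + 1) (hi : i ≤ m + 1) {e : Edge}
    (he : e ∈ inE (ty m c r prog j i)) :
    Good m c r prog s (gl m j i e.1) e.2.1 (gl m j i e.2.2.1) e.2.2.2 := by
  have t := (ty_ok (c := c) S.wf hj i).lt
  have h8 : ty m c r prog j i ≠ 8 := ne_skip (mem_halves.2 ⟨e, List.mem_append_left _ he, Or.inl rfl⟩)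
  obtain ⟨a1, a2⟩ := S.cons hj hi h8 (ctab _ t e he).1
  obtain ⟨b1, b2⟩ := S.cons hj hi h8 (ctab _ t e he).2
  rw [fr, if_neg fun h => fr_snd _ t e he h.2] at b2
  have := edge_ok t (S.loc _ t j i) (fun h => ⟨by
    have a := abs_lt.1 (S.small (j + 1) i)
    have b := abs_lt.1 (S.small (j + 1) (i + 1))
    rw [abs_lt]
    constructor <;> linarith, h ▸ (S.gate j hj i (by omega)).1⟩) he (anc j i)
  rw [Good, a1, a2, b1, b2]
  exact ⟨this.1, fun z hz => S.cell hj hi (x := cellE _ e)
    (List.mem_append_right _ (List.mem_map_of_mem he)) (this.2 z hz)⟩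

theorem skel {j i : ℕ} (hj : j ≤ prog.length + 1) (hi : i ≤ m + 1) {e : Edge}
    (he : e ∈ skE (ty m c r prog j i)) :
    Good m c r prog s (gl m j i e.1) e.2.1 (gl m j i e.2.2.1) e.2.2.2 := by
  have t := ty_ok (c := c) S.wf hj i
  have t1 := t.cap
  have t2 := t.gate
  have t4 := t.right
  have h4 : wid (ty m c r prog j i) = 1 ∨ (wid (ty m c r prog j i) = 2 ∧ ty m c r prog j i < 4) := by
    unfold wid; split_ifs <;> omega
  rcases etab _ t.lt e he with ⟨n, hn, d, hd, rfl, k1, k2, k3⟩ | ⟨d, hd, rfl⟩ | ⟨hg, k⟩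
  · obtain ⟨a1, a2⟩ := gl_rc (m := m) (i := i) (d := d) (t := n) hj t1 (by omega) (by omega)
      (by omega)
    obtain ⟨b1, b2⟩ := gl_rc (m := m) (i := i) (d := d) (t := n + 1) hj t1 (by omega) (by omega)
      (by omega)
    have c1 := S.geo.mon (i + d) (by omega) (12 * j + n) (by omega)
    have c2 := S.geo.rx (i + d) (by omega) (12 * j + n) (by omega)
    have c3 := S.geo.rx (i + d) (by omega) (12 * j + n + 1) (by omega)
    rw [Good, FF_one _ _ _ a2, FF_one _ _ _ b2, a1, b1, ← add_assoc]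
    have := seg_hex (a := PP m (ty m c r prog) s (rv m (prog.length + 1) (i + d) (12 * j + n)))
      (b := PP m (ty m c r prog) s (rv m (prog.length + 1) (i + d) (12 * j + n + 1))) (d := 18)
      (by decide) (sub_pos.2 c1) (by
        rw [← hex_cy (PP _ _ _ (rv _ _ _ (_ + 1))), ← hex_cy (PP _ _ _ (rv _ _ _ (_ + n))), hex_add,
          hex_inj, c2, c3, show dvec 18 = (0, 1) from rfl]
        simp [RG])
    refine ⟨this.1, fun z hz => Or.inl ?_⟩
    obtain ⟨x, x0, x1, x2, x3⟩ := this.2 z hz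
    rw [show dvec 18 = (0, 1) from rfl] at x2 x3
    simp only [Int.cast_zero, mul_zero, add_zero, Int.cast_one, mul_one] at x2 x3
    have c4 := mul_pos x0 (sub_pos.2 c1)
    have c5 := mul_pos (sub_pos.2 x1) (sub_pos.2 c1)
    refine S.geo.railE (by omega) (by omega) (fun h => ?_) (x2.trans c2) (by unfold RG at *; linarith)
      (by unfold RG at *; linarith)
    rcases k1 with k1 | k1
    · omega
    · rw [show (12 * j + n) / 12 = j by omega, add_assoc, k1] at h
      exact absurd h (S.wid_ne hj)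
  · have h8 : ty m c r prog j i ≠ 7 ∨ d = 0 := by omega
    obtain ⟨p1, p2⟩ := S.pab hj (i := i + d) (by omega)
    rw [Good, FF_one _ _ _ (by simp only; omega), FF_one _ _ _ (by simp only; omega),
      gl_eq (j' := j) (i' := i + d) (k := 0) (by simp only; omega) (by simp only; omega)
        (by simp only; omega),
      gl_eq (j' := j) (i' := i + d) (k := 6) (by simp only; omega) (by simp only; omega)
        (by simp only; omega)]
    have := seg_hex (a := PP m (ty m c r prog) s (nm m j (i + d) 0))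
      (b := PP m (ty m c r prog) s (nm m j (i + d) 6)) (d := 0) (k := 3096) (by decide)
      (by norm_num) (by
        rw [p1, p2, hex_add, hex_inj, show dvec 0 = (1, 0) from rfl]
        constructor <;> push_cast <;> ring)
    refine ⟨this.1, fun z hz => Or.inl ?_⟩
    obtain ⟨x, x0, x1, x2, x3⟩ := this.2 z hz
    rw [show dvec 0 = (1, 0) from rfl, p1] at x2 x3
    simp only [Int.cast_zero, mul_zero, add_zero, Int.cast_one, mul_one, hex_re, cy_hex] at x2 x3
    exact S.geo.rung hj (by omega) (by linarith) (by linarith) x3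
  obtain rfl : j = prog.length + 1 := by omega
  obtain ⟨-, p2, p7⟩ := S.pcap hi
  rcases k with rfl | ⟨k, rfl | rfl⟩
  · rw [Good, FF_one _ _ _ (by decide), FF_one _ _ _ (by decide)]
    have := seg_hex (a := PP m (ty m c r prog) s (nm m (prog.length + 1) i 2))
      (b := PP m (ty m c r prog) s (nm m (prog.length + 1) i 7)) (d := 66) (k := 516) (by decide)
      (by norm_num) (by
        rw [p2, p7, hex_add, hex_inj, show dvec 66 = (3, -1) from rfl]
        constructor <;> push_cast <;> ring)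
    refine ⟨this.1, fun z hz => Or.inl ?_⟩
    obtain ⟨x, x0, x1, x2, x3⟩ := this.2 z hz
    rw [show dvec 66 = (3, -1) from rfl, p2] at x2 x3
    simp only [hex_re, cy_hex, Int.cast_ofNat, Int.cast_neg, Int.cast_one] at x2 x3
    have := S.geo.line (T := ty m c r prog) (z := z) hi (by linarith) (by linarith) (by linarith)
    rwa [if_pos (by linarith)] at this
  · obtain ⟨-, q2, -⟩ := S.pcap (i := i + 1) (by omega)
    rw [Good, FF_one _ _ _ (by decide), FF_one _ _ _ (by decide)]
    have := seg_hex (a := PP m (ty m c r prog) s (nm m (prog.length + 1) i 7))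
      (b := PP m (ty m c r prog) s (nm m (prog.length + 1) (i + 1) 2)) (d := 66) (k := 516)
      (by decide) (by norm_num) (by
        rw [q2, p7, hex_add, hex_inj, show dvec 66 = (3, -1) from rfl]
        constructor <;> push_cast <;> ring)
    refine ⟨this.1, fun z hz => Or.inl ?_⟩
    obtain ⟨x, x0, x1, x2, x3⟩ := this.2 z hz
    rw [show dvec 66 = (3, -1) from rfl, p7] at x2 x3
    simp only [hex_re, cy_hex, Int.cast_ofNat, Int.cast_neg, Int.cast_one] at x2 x3
    have := S.geo.line (T := ty m c r prog) (z := z) hi (by linarith) (by linarith) (by linarith)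
    rwa [if_neg (by linarith), if_neg (by linarith)] at this
  · obtain ⟨-, -, q7⟩ := S.pcap (i := i + 1) (by omega)
    have e1 : PP m (ty m c r prog) s (gl m (prog.length + 1) i 7) =
        anc (prog.length + 1) i + hex 1548 4644 := p7.trans (by rw [anc, hex_add])
    have e2 : PP m (ty m c r prog) s (gl m (prog.length + 1) i 47) =
        anc (prog.length + 1) i + hex 4644 3612 := q7.trans (by
      rw [anc, hex_add, hex_inj]
      constructor <;> push_cast <;> ring)
    rw [Good, FF_one _ _ _ (by decide), FF_one _ _ _ (by decide), e1, e2]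
    refine ⟨(up_ok _).1, fun z hz => Or.inl ?_⟩
    obtain ⟨x1, x2, x3⟩ := (up_ok _).2 z hz
    simp only [anc, sub_re, cy_sub, hex_re, cy_hex] at x1 x2 x3
    exact (S.geo.above (i := i) (by omega) (by linarith) (by linarith) (by linarith) :)

theorem core : ∃ p f, Core (72 * (2 * m + 3)) (EL m c r prog) p f := by
  refine core_of_plane (P := PP m (ty m c r prog) s) (F := FF m (ty m c r prog) s) (by omega)
    (hex (3096 * (m + 2)) 0) S.uniq ?_ ?_
  · rintro σ (h | ⟨j, -, i, x, -, h, -⟩ | ⟨a, -, h, -⟩) <;> exact lt_irrefl _ (Lab.lt h)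
  intro e he
  rcases mem_EL.1 he with ⟨a, ha, rfl⟩ | ⟨j, hj, i, hi, e, he0, rfl⟩
  · have b := seed_bd ha
    have k : ∀ j ≤ prog.length + 1, ∀ i ≤ m, ∀ x d y, x % 40 ≠ 30 →
        (x, d, y) ∈ halves (allE (ty m c r prog j i)) → a.1 = gl m j i x →
        At m c r prog s s(a.1, a.1) (PP m (ty m c r prog) s a.1) ∧
          FF m (ty m c r prog) s a.1 = 1 := fun j hj i hi x d y h1 h2 h3 => by
      rw [h3]
      exact ⟨(S.vert hj (by omega) h2 :), FF_one _ _ _ h1⟩
    have t0 : ty m c r prog (prog.length + 1) 0 = 11 := by simp [ty]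
    have t1 : ∀ i ≤ m, (40, 18, 6, 54) ∈ allE (ty m c r prog 0 i) := fun i hi => by
      have : ty m c r prog 0 i = 4 ∨ ty m c r prog 0 i = 5 ∨ ty m c r prog 0 i = 6 := by
        unfold ty
        split_ifs <;> first | omega | contradiction
      exact tabT _ (by omega) (by omega) (by omega)
    have : At m c r prog s s(a.1, a.1) (PP m (ty m c r prog) s a.1) ∧
        FF m (ty m c r prog) s a.1 = 1 := by
      rcases mem_seeds.1 ha with rfl | rfl | ⟨i, hi, rfl | rfl⟩
      · exact k _ le_rfl 0 (by omega) 7 66 42 (by decide) (by rw [t0]; decide) rfl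
      · exact k _ le_rfl 0 (by omega) 42 30 7 (by decide) (by rw [t0]; decide) rfl
      · exact k 0 (by omega) i hi 6 54 40 (by decide) (mem_halves.2 ⟨_, t1 i hi, Or.inr rfl⟩) rfl
      · exact k 0 (by omega) i hi 40 18 6 (by decide) (mem_halves.2 ⟨_, t1 i hi, Or.inl rfl⟩) rfl
    exact ⟨b.2.1, this.1, Or.inr ⟨rfl, by simp only [rayE]; omega, this.2, fun l hl => S.ray ha hl⟩⟩
  · have g : Good m c r prog s (gl m j i e.1) e.2.1 (gl m j i e.2.2.1) e.2.2.2 :=
      (List.mem_append.1 he0).elim (S.inner hj hi) (S.skel hj hi)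
    have v1 := S.vert hj hi (mem_halves.2 ⟨e, he0, Or.inl rfl⟩)
    have v2 := S.vert hj hi (mem_halves.2 ⟨e, he0, Or.inr rfl⟩)
    have n := ((EL_wf S.wf).bd _ (mem_halves.2 ⟨_, he, Or.inl rfl⟩)).2.2
    simp only [We, gE, rt_mul (show 2 * m + 3 ≠ 0 by omega)] at v1 v2 n ⊢
    exact ⟨nm_ne _ _ _, v1, Or.inl ⟨nm_ne _ _ _, n, v2, g.1, g.2⟩⟩

end Sta

theorem yes_dir (W : WFM m r prog) : ∃ ε : ℝ, 0 < ε ∧ ∀ st, Run c r prog st →
    (∀ n ≤ prog.length, ∀ i < m, |st n i| < ε) →
      ∃ p f, Core (72 * (2 * m + 3)) (EL m c r prog) p f := by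
  obtain ⟨ε, hε, hl⟩ := loc_ev
  refine ⟨min ε (1 / 100), by positivity, fun st R hs => ?_⟩
  have w := W.1
  have sm : ∀ j i, |if 1 ≤ i ∧ i ≤ m then st (prog.length + 1 - max j 1) (i - 1) else 0| <
      min ε (1 / 100) := by
    intro j i
    split_ifs
    · exact hs _ (by omega) _ (by omega)
    · rw [abs_zero]; positivity
  refine Sta.core (s := fun j i =>
    if 1 ≤ i ∧ i ≤ m then st (prog.length + 1 - max j 1) (i - 1) else 0) ⟨W,
    fun g hg j i => hl g hg _ _ _ (lt_min_iff.1 (sm _ _)).1 (lt_min_iff.1 (sm _ _)).1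
      (lt_min_iff.1 (sm _ _)).1, fun j i => (lt_min_iff.1 (sm _ _)).2,
    fun j => ⟨if_neg (by omega), if_neg (by omega)⟩, fun j hj i hg => ?_, fun j hj i hg => ?_,
    fun i hg => ?_, ?_⟩
  · obtain ⟨h0, h1, h2, h3⟩ : j ≠ 0 ∧ j ≤ prog.length ∧
        i = (prog.getD (prog.length - j) (0, 0)).2 + 1 ∧
        ty m c r prog j i = (prog.getD (prog.length - j) (0, 0)).1 := by
      unfold ty at hg ⊢
      split_ifs at hg ⊢ <;> omega
    have h4 := prog_wf W h0 h1
    obtain ⟨k1, k2, -⟩ := R.2.1 (prog.length - j) (by omega)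
    rw [h3]
    generalize prog.getD (prog.length - j) (0, 0) = a at *
    subst h2
    simp only [if_pos (show 1 ≤ a.2 + 1 ∧ a.2 + 1 ≤ m by omega), Nat.add_sub_cancel,
      if_pos (show 1 ≤ a.2 + 1 + 1 ∧ a.2 + 1 + 1 ≤ m by omega),
      show prog.length + 1 - max (j + 1) 1 = prog.length - j by omega,
      show prog.length + 1 - max j 1 = prog.length - j + 1 by omega]
    exact ⟨k1, k2⟩
  · split_ifs with h
    · by_cases h0 : j = 0 ∨ j = prog.length + 1
      · congr 1
        omega
      obtain ⟨-, -, -, k⟩ := R.2.1 (prog.length - j) (by omega)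
      rw [show prog.length + 1 - max (j + 1) 1 = prog.length - j by omega,
        show prog.length + 1 - max j 1 = prog.length - j + 1 by omega]
      have h4 := (prog_wf W (j := j) (by omega) (by omega)).1
      unfold ty at hg
      generalize prog.getD (prog.length - j) (0, 0) = a at *
      refine k _ ?_ ?_ <;> split_ifs at hg <;> omega
    · rfl
  · split_ifs with h
    · rw [show prog.length + 1 - max (prog.length + 1) 1 = 0 by omega]
      refine R.1 _ ?_
      unfold ty at hg
      split_ifs at hg <;> omega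
    · rfl
  · simp only [if_pos (show 1 ≤ r + 2 ∧ r + 2 ≤ m by omega),
      if_pos (show 1 ≤ r + 1 ∧ r + 1 ≤ m by omega)]
    exact R.2.2

theorem etr_le_plr : N793a5b8e.ManyOneReducible MP_acf5a6_lc.ETR PLR :=
  etr_le_plr_of (fun _ _ _ _ W _ _ => no_dir W) fun _ _ _ _ => yes_dir

end Pool.Agent.Lib.MP_242159_lc
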